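import Pool.Agent.BCX.Stmts

/-!
# Almost every point is badly approximable by small families of integer polynomials
-/

open Set Filter Topology Metric MeasureTheory

namespace Pool.Agent.BCX

namespace AEP

/-- The zero set of a nonzero integer polynomial in a box is a null set. -/
theorem null_zero (hP : Stmt_POLYMEAS) (d : ℕ) (ρ : ℝ) (hρ : 0 < ρ)
    (Q : MvPolynomial (Fin d) ℤ) (hQ : Q ≠ 0) :
    volume {x : Fin d → ℝ | (∀ i, |x i| ≤ ρ) ∧ MvPolynomial.aeval x Q = 0} = 0 := by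
  obtain ⟨C, hC, h⟩ := hP d ρ hρ
  set N : ℕ := Q.totalDegree + 1 with hN
  have hN1 : 1 ≤ N := by omega
  have hNpos : (0 : ℝ) < N := by exact_mod_cast hN1
  set a : ℝ := 1 / ((2 : ℝ) ^ d * N) with ha
  have hapos : 0 < a := by positivity
  have key : ∀ δ : ℝ, 0 < δ → δ ≤ 1 →
      volume {x : Fin d → ℝ | (∀ i, |x i| ≤ ρ) ∧ MvPolynomial.aeval x Q = 0} ≤
        ENNReal.ofReal (C * N * δ ^ a) := by
    intro δ hδ hδ1
    refine le_trans (measure_mono ?_) (h N Q hN1 hQ (by omega) δ hδ hδ1)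
    intro x hx
    refine ⟨hx.1, ?_⟩
    rw [hx.2]
    simpa using hδ
  have hlim : Tendsto (fun δ : ℝ => ENNReal.ofReal (C * N * δ ^ a)) (𝓝[>] 0) (𝓝 0) := by
    have h1 : Tendsto (fun δ : ℝ => C * N * δ ^ a) (𝓝[>] 0) (𝓝 0) := by
      have h2 : Tendsto (fun δ : ℝ => δ ^ a) (𝓝[>] 0) (𝓝 0) := by
        have h3 : ContinuousAt (fun δ : ℝ => δ ^ a) 0 :=
          Real.continuousAt_rpow_const 0 a (Or.inr hapos.le)
        have h4 := h3.tendsto
        simp only [Real.zero_rpow hapos.ne'] at h4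
        exact h4.mono_left nhdsWithin_le_nhds
      simpa using h2.const_mul (C * N)
    have h2 := ENNReal.tendsto_ofReal h1
    rwa [ENNReal.ofReal_zero] at h2
  have hev : ∀ᶠ δ : ℝ in 𝓝[>] 0,
      volume {x : Fin d → ℝ | (∀ i, |x i| ≤ ρ) ∧ MvPolynomial.aeval x Q = 0} ≤
        ENNReal.ofReal (C * N * δ ^ a) := by
    have h1 : ∀ᶠ δ : ℝ in 𝓝[>] 0, δ ∈ Ioc (0 : ℝ) 1 := Ioc_mem_nhdsGT (by norm_num)
    filter_upwards [h1] with δ hδ
    exact key δ hδ.1 hδ.2
  exact le_antisymm (ge_of_tendsto hlim hev) bot_le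

/-- The box version. -/
theorem box (hP : Stmt_POLYMEAS) (d : ℕ) (ρ : ℝ) (hρ : 0 < ρ)
    (Ω : ℕ → Finset (MvPolynomial (Fin d) ℤ)) (C : ℝ) (hC1 : 1 ≤ C)
    (hcard : ∀ m : ℕ, 1 ≤ m → ((Ω m).card : ℝ) ≤ Real.exp (C * m))
    (hdeg : ∀ m : ℕ, 1 ≤ m → ∀ Q ∈ Ω m, (Q.totalDegree : ℝ) ≤ C * m) :
    ∀ᵐ x : Fin d → ℝ, (∀ i, |x i| ≤ ρ) → ∃ c : ℝ, 0 < c ∧ ∀ m : ℕ, 1 ≤ m → ∀ Q ∈ Ω m, Q ≠ 0 →
      Real.exp (-c * (m : ℝ) ^ 2) ≤ |MvPolynomial.aeval x Q| := by
  classical
  obtain ⟨C₁, hC₁, h⟩ := hP d ρ hρ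
  set c₀ : ℝ := (2 : ℝ) ^ d * (2 * C) * (C + 2) with hc₀
  have hc₀pos : 0 < c₀ := by positivity
  -- the exceptional sets
  let s : ℕ → Set (Fin d → ℝ) := fun m =>
    {x | 1 ≤ m ∧ (∀ i, |x i| ≤ ρ) ∧ ∃ Q ∈ Ω m, Q ≠ 0 ∧
      |MvPolynomial.aeval x Q| < Real.exp (-c₀ * (m : ℝ) ^ 2)}
  have hs : ∀ m : ℕ, volume (s m) ≤ ENNReal.ofReal (2 * C * C₁ * Real.exp (-(m : ℝ))) := by
    intro m
    by_cases hm : 1 ≤ m
    · have hmpos : (1 : ℝ) ≤ m := by exact_mod_cast hm
      set N : ℕ := ⌈C * m⌉₊ with hN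
      have hCm : 1 ≤ C * m := by nlinarith
      have hNle : (N : ℝ) ≤ 2 * C * m := by
        have := Nat.ceil_lt_add_one (by linarith : 0 ≤ C * (m : ℝ))
        linarith
      have hN1 : 1 ≤ N := Nat.one_le_iff_ne_zero.mpr (by
        have : 0 < N := Nat.ceil_pos.mpr (by linarith)
        omega)
      have hNpos : (0 : ℝ) < N := by exact_mod_cast hN1
      have hsub : s m ⊆ ⋃ Q ∈ (Ω m).filter (fun Q => Q ≠ 0),
          {x : Fin d → ℝ | (∀ i, |x i| ≤ ρ) ∧
            |MvPolynomial.aeval x Q| < Real.exp (-c₀ * (m : ℝ) ^ 2)} := by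
        intro x hx
        obtain ⟨-, hx1, Q, hQ, hQ0, hQx⟩ := hx
        simp only [mem_iUnion]
        exact ⟨Q, Finset.mem_filter.mpr ⟨hQ, hQ0⟩, hx1, hQx⟩
      have hδ1 : Real.exp (-c₀ * (m : ℝ) ^ 2) ≤ 1 := by
        apply Real.exp_le_one_iff.mpr
        have : 0 ≤ c₀ * (m : ℝ) ^ 2 := by positivity
        linarith
      have hone : ∀ Q ∈ (Ω m).filter (fun Q => Q ≠ 0),
          volume {x : Fin d → ℝ | (∀ i, |x i| ≤ ρ) ∧
            |MvPolynomial.aeval x Q| < Real.exp (-c₀ * (m : ℝ) ^ 2)} ≤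
          ENNReal.ofReal (C₁ * (2 * C * m) * Real.exp (-(C + 2) * m)) := by
        intro Q hQ
        rw [Finset.mem_filter] at hQ
        have hd : Q.totalDegree ≤ N := by
          have h1 := hdeg m hm Q hQ.1
          have h2 : C * m ≤ N := Nat.le_ceil _
          exact_mod_cast h1.trans h2
        refine le_trans (h N Q hN1 hQ.2 hd _ (Real.exp_pos _) hδ1) ?_
        apply ENNReal.ofReal_le_ofReal
        have e1 : Real.exp (-c₀ * (m : ℝ) ^ 2) ^ (1 / ((2 : ℝ) ^ d * N)) =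
            Real.exp (-c₀ * (m : ℝ) ^ 2 * (1 / ((2 : ℝ) ^ d * N))) := by
          rw [← Real.exp_mul]
        have e2 : Real.exp (-c₀ * (m : ℝ) ^ 2 * (1 / ((2 : ℝ) ^ d * N))) ≤
            Real.exp (-(C + 2) * m) := by
          apply Real.exp_le_exp.mpr
          have h2d : (0 : ℝ) < (2 : ℝ) ^ d := by positivity
          have : (C + 2) * m ≤ c₀ * (m : ℝ) ^ 2 * (1 / ((2 : ℝ) ^ d * N)) := by
            rw [mul_one_div, le_div_iff₀ (by positivity)]
            have h3 : (2 : ℝ) ^ d * N ≤ (2 : ℝ) ^ d * (2 * C * m) :=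
              mul_le_mul_of_nonneg_left hNle h2d.le
            calc (C + 2) * m * ((2 : ℝ) ^ d * N) ≤ (C + 2) * m * ((2 : ℝ) ^ d * (2 * C * m)) := by
                  apply mul_le_mul_of_nonneg_left h3 (by positivity)
              _ = c₀ * (m : ℝ) ^ 2 := by rw [hc₀]; ring
          linarith
        rw [e1]
        have h5 : C₁ * (N : ℝ) ≤ C₁ * (2 * C * m) := mul_le_mul_of_nonneg_left hNle hC₁.le
        exact mul_le_mul h5 e2 (Real.exp_pos _).le (by positivity)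
      calc volume (s m) ≤ volume (⋃ Q ∈ (Ω m).filter (fun Q => Q ≠ 0),
            {x : Fin d → ℝ | (∀ i, |x i| ≤ ρ) ∧
              |MvPolynomial.aeval x Q| < Real.exp (-c₀ * (m : ℝ) ^ 2)}) := measure_mono hsub
        _ ≤ ∑ Q ∈ (Ω m).filter (fun Q => Q ≠ 0), volume {x : Fin d → ℝ | (∀ i, |x i| ≤ ρ) ∧
              |MvPolynomial.aeval x Q| < Real.exp (-c₀ * (m : ℝ) ^ 2)} :=
            measure_biUnion_finset_le _ _
        _ ≤ ∑ Q ∈ (Ω m).filter (fun Q => Q ≠ 0),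
              ENNReal.ofReal (C₁ * (2 * C * m) * Real.exp (-(C + 2) * m)) :=
            Finset.sum_le_sum hone
        _ = ENNReal.ofReal ((((Ω m).filter (fun Q => Q ≠ 0)).card : ℝ) *
              (C₁ * (2 * C * m) * Real.exp (-(C + 2) * m))) := by
            rw [Finset.sum_const, nsmul_eq_mul, ← ENNReal.ofReal_natCast,
              ← ENNReal.ofReal_mul (by positivity)]
        _ ≤ ENNReal.ofReal (2 * C * C₁ * Real.exp (-(m : ℝ))) := by
            apply ENNReal.ofReal_le_ofReal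
            have hc : (((Ω m).filter (fun Q => Q ≠ 0)).card : ℝ) ≤ Real.exp (C * m) := by
              refine le_trans ?_ (hcard m hm)
              exact_mod_cast Finset.card_filter_le _ _
            have hm2 : (m : ℝ) ≤ Real.exp m := by
              have := Real.add_one_le_exp (m : ℝ)
              linarith
            calc (((Ω m).filter (fun Q => Q ≠ 0)).card : ℝ) *
                  (C₁ * (2 * C * m) * Real.exp (-(C + 2) * m))
                ≤ Real.exp (C * m) * (C₁ * (2 * C * Real.exp m) * Real.exp (-(C + 2) * m)) := by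
                  gcongr
              _ = 2 * C * C₁ * (Real.exp (C * m) * Real.exp m * Real.exp (-(C + 2) * m)) := by
                  ring
              _ = 2 * C * C₁ * Real.exp (-(m : ℝ)) := by
                  rw [← Real.exp_add, ← Real.exp_add]
                  congr 2
                  ring
    · have : s m = ∅ := by
        ext x
        simp only [s, mem_ofPred_eq, mem_empty_iff_false, iff_false]
        intro hx
        exact hm hx.1
      rw [this, measure_empty]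
      exact bot_le
  have hsum : (∑' m, volume (s m)) ≠ ⊤ := by
    have hsm : Summable (fun m : ℕ => 2 * C * C₁ * Real.exp (-(m : ℝ))) :=
      Real.summable_exp_neg_nat.mul_left _
    have h1 : (∑' m : ℕ, ENNReal.ofReal (2 * C * C₁ * Real.exp (-(m : ℝ)))) ≠ ⊤ := by
      rw [← ENNReal.ofReal_tsum_of_nonneg (fun m => by positivity) hsm]
      exact ENNReal.ofReal_ne_top
    exact ne_top_of_le_ne_top h1 (ENNReal.tsum_le_tsum hs)
  have hae := ae_eventually_notMem hsum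
  have hzero : ∀ᵐ x : Fin d → ℝ, ∀ m : ℕ, ∀ Q ∈ Ω m, Q ≠ 0 → (∀ i, |x i| ≤ ρ) →
      MvPolynomial.aeval x Q ≠ 0 := by
    rw [ae_all_iff]
    intro m
    have : ∀ Q : MvPolynomial (Fin d) ℤ, ∀ᵐ x : Fin d → ℝ, Q ≠ 0 → (∀ i, |x i| ≤ ρ) →
        MvPolynomial.aeval x Q ≠ 0 := by
      intro Q
      by_cases hQ : Q = 0
      · exact Eventually.of_forall (fun x h0 => absurd hQ h0)
      · have h0 := null_zero hP d ρ hρ Q hQ
        rw [ae_iff]
        refine measure_mono_null ?_ h0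
        intro x hx
        simp only [mem_ofPred_eq, Classical.not_imp, not_not] at hx
        exact ⟨hx.2.1, hx.2.2⟩
    have h2 := (Finset.countable_toSet (Ω m))
    have h3 := (ae_ball_iff (μ := (volume : Measure (Fin d → ℝ))) h2
      (p := fun x Q _ => Q ≠ 0 → (∀ i, |x i| ≤ ρ) → MvPolynomial.aeval x Q ≠ 0)).mpr
      (fun Q _ => this Q)
    filter_upwards [h3] with x hx Q hQ
    exact hx Q (by simpa using hQ)
  filter_upwards [hae, hzero] with x hx1 hx2 hbox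
  obtain ⟨M, hM⟩ := eventually_atTop.mp hx1
  obtain ⟨L, hL⟩ := ((Finset.range M).biUnion (fun m => (Ω m).image
    (fun Q => -Real.log |MvPolynomial.aeval x Q|))).exists_le
  refine ⟨max c₀ L, lt_max_of_lt_left hc₀pos, ?_⟩
  intro m hm Q hQ hQ0
  have hmpos : (1 : ℝ) ≤ m := by exact_mod_cast hm
  by_cases hmM : M ≤ m
  · have h1 := hM m hmM
    simp only [s, mem_ofPred_eq, not_and, not_exists, not_lt] at h1
    have h2 := h1 hm hbox Q hQ hQ0
    refine le_trans (Real.exp_le_exp.mpr ?_) h2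
    have : c₀ ≤ max c₀ L := le_max_left _ _
    nlinarith [sq_nonneg (m : ℝ)]
  · have h1 : -Real.log |MvPolynomial.aeval x Q| ≤ L := by
      apply hL
      simp only [Finset.mem_biUnion, Finset.mem_range, Finset.mem_image]
      exact ⟨m, by omega, Q, hQ, rfl⟩
    have h2 : 0 < |MvPolynomial.aeval x Q| := abs_pos.mpr (hx2 m Q hQ hQ0 hbox)
    rw [← Real.le_log_iff_exp_le h2]
    have h3 : L ≤ max c₀ L := le_max_right _ _
    have h4 : 0 < max c₀ L := lt_max_of_lt_left hc₀pos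
    have h5 : (1 : ℝ) ≤ (m : ℝ) ^ 2 := by nlinarith
    nlinarith

/-- The version for `Fin d`. -/
theorem fin (hP : Stmt_POLYMEAS) (d : ℕ)
    (Ω : ℕ → Finset (MvPolynomial (Fin d) ℤ)) (C : ℝ) (hC1 : 1 ≤ C)
    (hcard : ∀ m : ℕ, 1 ≤ m → ((Ω m).card : ℝ) ≤ Real.exp (C * m))
    (hdeg : ∀ m : ℕ, 1 ≤ m → ∀ Q ∈ Ω m, (Q.totalDegree : ℝ) ≤ C * m) :
    ∀ᵐ x : Fin d → ℝ, ∃ c : ℝ, 0 < c ∧ ∀ m : ℕ, 1 ≤ m → ∀ Q ∈ Ω m, Q ≠ 0 →
      Real.exp (-c * (m : ℝ) ^ 2) ≤ |MvPolynomial.aeval x Q| := by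
  have h1 : ∀ᵐ x : Fin d → ℝ, ∀ n : ℕ, (∀ i, |x i| ≤ (n : ℝ) + 1) →
      ∃ c : ℝ, 0 < c ∧ ∀ m : ℕ, 1 ≤ m → ∀ Q ∈ Ω m, Q ≠ 0 →
      Real.exp (-c * (m : ℝ) ^ 2) ≤ |MvPolynomial.aeval x Q| := by
    rw [ae_all_iff]
    intro n
    exact box hP d ((n : ℝ) + 1) (by positivity) Ω C hC1 hcard hdeg
  filter_upwards [h1] with x hx
  obtain ⟨n, hn⟩ := exists_nat_ge (‖x‖)
  apply hx n
  intro i
  have := norm_le_pi_norm x i
  rw [Real.norm_eq_abs] at this
  linarith

end AEP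

/-- Almost every point is badly approximable by small families of integer polynomials. -/
theorem m_AEPOLY : Stmt_POLYMEAS → Stmt_AEPOLY := by
  classical
  intro hP ι _ Ω C hcard hdeg
  let e : ι ≃ Fin (Fintype.card ι) := Fintype.equivFin ι
  let Ω' : ℕ → Finset (MvPolynomial (Fin (Fintype.card ι)) ℤ) := fun m =>
    (Ω m).image (MvPolynomial.rename e)
  have hC1 : (1 : ℝ) ≤ max C 1 := le_max_right _ _
  have hCC : C ≤ max C 1 := le_max_left _ _
  have h1 := AEP.fin hP (Fintype.card ι) Ω' (max C 1) hC1 (by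
    intro m hm
    have hm0 : (0 : ℝ) ≤ m := Nat.cast_nonneg m
    have h2 : ((Ω' m).card : ℝ) ≤ (Ω m).card := by exact_mod_cast Finset.card_image_le
    refine h2.trans ((hcard m hm).trans (Real.exp_le_exp.mpr ?_))
    exact mul_le_mul_of_nonneg_right hCC hm0) (by
    intro m hm Q hQ
    have hm0 : (0 : ℝ) ≤ m := Nat.cast_nonneg m
    obtain ⟨R, hR, rfl⟩ := Finset.mem_image.mp hQ
    have h3 : (MvPolynomial.rename e R).totalDegree ≤ R.totalDegree :=
      MvPolynomial.totalDegree_rename_le e R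
    have h4 : ((MvPolynomial.rename e R).totalDegree : ℝ) ≤ R.totalDegree := by exact_mod_cast h3
    refine h4.trans ((hdeg m hm R hR).trans ?_)
    exact mul_le_mul_of_nonneg_right hCC hm0)
  have hmp := volume_measurePreserving_piCongrLeft (fun _ : Fin (Fintype.card ι) => ℝ) e
  have h5 := hmp.quasiMeasurePreserving.ae h1
  filter_upwards [h5] with x hx
  obtain ⟨c, hc, h⟩ := hx
  refine ⟨c, hc, fun m hm Q hQ hQ0 => ?_⟩
  have h6 := h m hm (MvPolynomial.rename e Q) (Finset.mem_image_of_mem _ hQ) (by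
    intro h0
    exact hQ0 (MvPolynomial.rename_injective e e.injective (by rw [h0, map_zero])))
  rw [MvPolynomial.aeval_rename] at h6
  have h7 : ((MeasurableEquiv.piCongrLeft (fun _ : Fin (Fintype.card ι) => ℝ) e) x) ∘ e = x := by
    funext i
    exact Equiv.piCongrLeft_apply_apply (fun _ : Fin (Fintype.card ι) => ℝ) e x i
  rw [h7] at h6
  exact h6

end Pool.Agent.BCX
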