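import Pool.Agent.BCX.Stmts4

/-!
# Two lines of a long word are close (module ANG)
-/

open Set Filter Topology Metric MeasureTheory
open scoped ComplexConjugate

namespace Pool.Agent.BCX

open Pool.Agent.Billiard Pool.Agent.Lib_helper45.Bil

namespace ANG

theorem SP_path (P : Polygon) : ∀ (W : List (SL P)) (z u : ℂ) (t : ℝ), SP P z u t W →
    ∃ T : ℝ, PathT P z u t (lets W) T := by
  intro W
  induction W with
  | nil => intro z u t _; exact ⟨t, rfl⟩
  | cons c W ih =>
    rintro z u t ⟨-, -, t', ht, hU, hc, h⟩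
    obtain ⟨T, hT⟩ := ih _ _ _ h
    exact ⟨T, t', ht, hU, hc, hT⟩

/-- The time between the first and the last crossing. -/
theorem times_low {r : ℕ → ℝ} {n M : ℕ} {ν D : ℝ} (hν : 0 ≤ ν)
    (hmono : ∀ i < n, r i ≤ r (i + 1))
    (hgap : ∀ i i' : ℕ, i + M ≤ i' → i' ≤ n → 5 * D ≤ ν * (r i' - r i)) :
    5 * D * ((n / M : ℕ) : ℝ) ≤ ν * (r n - r 0) := by
  have hmon := times_mono hmono
  have hlow : ∀ l : ℕ, l * M ≤ n → 5 * D * (l : ℝ) ≤ ν * (r (l * M) - r 0) := by
    intro l
    induction l with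
    | zero => intro _; simp
    | succ l ih =>
      intro hi
      have e1 : (l + 1) * M = l * M + M := by ring
      rw [e1] at hi ⊢
      have h6 := ih (by omega)
      have h7 := hgap (l * M) (l * M + M) le_rfl hi
      push_cast
      have h8 : ν * (r (l * M + M) - r 0) = ν * (r (l * M + M) - r (l * M)) +
        ν * (r (l * M) - r 0) := by ring
      rw [h8]
      linarith
  have h1 := hlow (n / M) (Nat.div_mul_le_self n M)
  have h2 := hmon (n / M * M) n (Nat.div_mul_le_self n M) le_rfl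
  refine h1.trans ?_
  apply mul_le_mul_of_nonneg_left _ hν
  linarith

theorem floor_low {n M : ℕ} (hM : 1 ≤ M) : (n : ℝ) / M - 1 ≤ ((n / M : ℕ) : ℝ) := by
  have hM0 : (0 : ℝ) < M := by exact_mod_cast hM
  have hnl : n < (n / M + 1) * M := by
    have e1 := Nat.div_add_mod n M
    have e2 := Nat.mod_lt n (by omega : 0 < M)
    nlinarith
  have h : (n : ℝ) ≤ (((n / M : ℕ) : ℝ) + 1) * M := by exact_mod_cast hnl.le
  rw [sub_le_iff_le_add, div_le_iff₀ hM0]
  exact h

theorem tc_pt (b e z u : ℂ) (t : ℝ) :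
    tc b e (z + t * u) = tc b e z + t * (u * conj e).re := by
  unfold tc
  have : (z + t * u - b) * conj e = (z - b) * conj e + (t : ℂ) * (u * conj e) := by ring
  rw [this, Complex.add_re, Complex.re_ofReal_mul]

theorem hc_pt (b e z u : ℂ) (t : ℝ) :
    hc b e (z + t * u) = hc b e z + t * (u * conj e).im := by
  unfold hc
  have : (z + t * u - b) * conj e = (z - b) * conj e + (t : ℂ) * (u * conj e) := by ring
  rw [this, Complex.add_im, Complex.im_ofReal_mul]

theorem abs_hc_sub_le {b e : ℂ} (he : ‖e‖ = 1) (p q : ℂ) : |hc b e p - hc b e q| ≤ dist p q := by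
  have : hc b e p - hc b e q = ((p - q) * conj e).im := by
    unfold hc
    rw [← Complex.sub_im]; congr 1; ring
  rw [this, dist_eq_norm]
  calc |((p - q) * conj e).im| ≤ ‖(p - q) * conj e‖ := Complex.abs_im_le_norm _
    _ = ‖p - q‖ := by rw [norm_mul, RCLike.norm_conj, he, mul_one]

/-- Coordinates of a line of positive time speed. -/
theorem coord {b e z u : ℂ} (he : ‖e‖ = 1) (hc0 : 0 < (u * conj e).re) :
    Coord b e z u (hc b e z - (u * conj e).im / (u * conj e).re * tc b e z)
      ((u * conj e).im / (u * conj e).re) := by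
  set c := (u * conj e).re with hcD
  set d := (u * conj e).im with hdD
  have hcc : (c : ℂ) ≠ 0 := by exact_mod_cast hc0.ne'
  have h2 := mul_conj_one he
  have hu : u = ((c : ℂ) + d * Complex.I) * e := by
    have h : (c : ℂ) + d * Complex.I = u * conj e := Complex.re_add_im _
    rw [h, mul_assoc, mul_comm (conj e) e, h2, mul_one]
  refine ⟨-tc b e z / c, 1 / c, by positivity, ?_, ?_⟩
  · unfold lz
    have h1 := tc_hc_add b e he z
    have h3 : z + ((-tc b e z / c : ℝ) : ℂ) * u =
        b + ((tc b e z : ℂ) + hc b e z * Complex.I) * e +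
          ((-tc b e z / c : ℝ) : ℂ) * (((c : ℂ) + d * Complex.I) * e) := by
      rw [← h1, ← hu]
    rw [h3]
    push_cast
    field_simp
    ring
  · unfold lu
    rw [hu]
    push_cast
    field_simp

end ANG

open ANG in
theorem m_ANG : Stmt_ANG := by
  rintro P D M ⟨hD1, hT⟩
  refine ⟨⌈200 * D * M + 5 * D⌉₊ + 20 * M + 10, by omega, ?_⟩
  rintro g W b e z u R y s hW he hR0 hR hs hTB ⟨hu1, t1, htg1, hSP1⟩ ⟨hu2, t2, htg2, hSP2⟩
  obtain ⟨T1, hpath1⟩ := SP_path P W _ _ t1 hSP1
  obtain ⟨T2, hpath2⟩ := SP_path P W _ _ t2 hSP2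
  obtain ⟨r, -, -, hmono, -, hv, hgap⟩ := hT _ _ t1 T1 (lets W) g hu1 htg1 hpath1
  obtain ⟨r', -, -, hmono', -, hv', -⟩ := hT _ _ t2 T2 (lets W) g hu2 htg2 hpath2
  have hlen : (lets W).length = W.length := by simp [lets]
  rw [hlen] at hmono hv hgap hmono' hv'
  set n := W.length with hn
  have hM : 1 ≤ M := by
    by_contra hM
    have hM0 : M = 0 := by omega
    have := hgap 0 0 (by omega) (Nat.zero_le _)
    simp at this
    linarith
  have hM0 : (0 : ℝ) < M := by exact_mod_cast hM
  have hn20 : 20 * (M : ℝ) ≤ n := by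
    have : 20 * M ≤ n := by omega
    exact_mod_cast this
  have hn0 : (0 : ℝ) < n := by linarith
  have hnM : (20 : ℝ) ≤ n / M := by rw [le_div_iff₀ hM0]; exact hn20
  have hC : 200 * D * M + 5 * D ≤ ((⌈200 * D * M + 5 * D⌉₊ + 20 * M + 10 : ℕ) : ℝ) := by
    have := Nat.le_ceil (200 * D * M + 5 * D)
    push_cast
    linarith
  -- the length of the first line
  set ν := ‖lu e s‖ with hνdef
  have hν := norm_lu he s
  have hT0 : r 0 ≤ r n := times_mono hmono 0 n (Nat.zero_le _) le_rfl
  have h1 := times_low (D := D) (M := M) (by linarith [hν.1] : 0 ≤ ν) hmono hgap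
  have h2 := floor_low (n := n) hM
  have hTlow : 3 * D * (n / M) ≤ r n - r 0 := by
    have h3 : ν * (r n - r 0) ≤ 3 / 2 * (r n - r 0) := by
      apply mul_le_mul_of_nonneg_right _ (by linarith)
      linarith [hν.2]
    have h4 : 5 * D * ((n : ℝ) / M - 1) ≤ 5 * D * ((n / M : ℕ) : ℝ) := by
      apply mul_le_mul_of_nonneg_left h2 (by linarith)
    have h5 : 19 / 20 * ((n : ℝ) / M) ≤ n / M - 1 := by linarith
    have h6 : 5 * D * (19 / 20 * ((n : ℝ) / M)) ≤ 5 * D * ((n : ℝ) / M - 1) :=
      mul_le_mul_of_nonneg_left h5 (by linarith)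
    have h7 : 0 ≤ D * ((n : ℝ) / M) := by positivity
    nlinarith
  -- the points of the two lines
  have hclose : ∀ i ≤ n, dist (lz b e y + r i * lu e s) (z + r' i * u) ≤ 2 * D := by
    intro i hi
    have h3 := hv i hi 0
    have h4 := hv' i hi 0
    calc dist (lz b e y + r i * lu e s) (z + r' i * u) ≤
        dist (lz b e y + r i * lu e s) (dev P ((lets W).take i) (P.vertex 0)) +
        dist (dev P ((lets W).take i) (P.vertex 0)) (z + r' i * u) := dist_triangle _ _ _
      _ ≤ D + D := by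
          rw [dist_comm _ (z + r' i * u)]
          linarith
      _ = 2 * D := by ring
  set c := (u * conj e).re with hcdef
  set d := (u * conj e).im with hddef
  have htc : ∀ i ≤ n, |r i - (tc b e z + r' i * c)| ≤ 2 * D := by
    intro i hi
    have h3 := (abs_tc_sub_le (b := b) he _ _).trans (hclose i hi)
    rwa [tc_line he, tc_pt] at h3
  have hhc : ∀ i ≤ n, |(y + s * r i) - (hc b e z + r' i * d)| ≤ 2 * D := by
    intro i hi
    have h3 := (abs_hc_sub_le (b := b) he _ _).trans (hclose i hi)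
    rwa [hc_line he, hc_pt] at h3
  have hr' : r' 0 ≤ r' n := times_mono hmono' 0 n (Nat.zero_le _) le_rfl
  have a0 := abs_le.1 (htc 0 (Nat.zero_le _))
  have an := abs_le.1 (htc n le_rfl)
  have b0 := abs_le.1 (hhc 0 (Nat.zero_le _))
  have bn := abs_le.1 (hhc n le_rfl)
  have hDn : 20 * D ≤ D * (n / M) := by nlinarith
  -- positive time speed
  have hT' : D * (n / M) ≤ (r' n - r' 0) * c := by nlinarith
  have hc0 : 0 < c := by
    by_contra hc
    push Not at hc
    have : (r' n - r' 0) * c ≤ 0 := mul_nonpos_of_nonneg_of_nonpos (by linarith) hc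
    linarith
  set s' := d / c with hs'
  have hds : d = s' * c := by rw [hs']; field_simp
  set T' := (r' n - r' 0) * c with hT'def
  have hT'pos : 0 < T' := by linarith
  have hTT' : |(r n - r 0) - T'| ≤ 4 * D := by
    rw [hT'def, abs_le]; constructor <;> linarith
  have hss : |s' - s| * T' ≤ 6 * D := by
    have h3 : (s' - s) * T' = ((r' n - r' 0) * d - s * (r n - r 0)) + s * ((r n - r 0) - T') := by
      rw [hds, hT'def]; ring
    have h4 : |(r' n - r' 0) * d - s * (r n - r 0)| ≤ 4 * D := by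
      rw [abs_le]; constructor <;> nlinarith
    have h5 : |s * ((r n - r 0) - T')| ≤ 1 / 2 * (4 * D) := by
      rw [abs_mul]
      exact mul_le_mul hs hTT' (abs_nonneg _) (by norm_num)
    calc |s' - s| * T' = |(s' - s) * T'| := by rw [abs_mul, abs_of_pos hT'pos]
      _ ≤ |(r' n - r' 0) * d - s * (r n - r 0)| + |s * ((r n - r 0) - T')| := by
          rw [h3]; exact abs_add_le _ _
      _ ≤ 6 * D := by linarith
  have hss2 : |s' - s| * (n / M) ≤ 6 := by
    have h3 : |s' - s| * (D * (n / M)) ≤ 6 * D :=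
      (mul_le_mul_of_nonneg_left hT' (abs_nonneg _)).trans hss
    have h4 : D * (|s' - s| * (n / M)) ≤ D * 6 := by linarith
    exact le_of_mul_le_mul_left h4 (by linarith)
  have hss3 : |s' - s| ≤ 3 / 10 := by
    have h3 : |s' - s| * 20 ≤ |s' - s| * (n / M) :=
      mul_le_mul_of_nonneg_left hnM (abs_nonneg _)
    linarith
  have hs'1 : |s'| ≤ 1 := by
    have := abs_sub_abs_le_abs_sub s' s
    linarith
  have hssR : |s' - s| * R ≤ 72 * D * M := by
    have h3 : |s' - s| * n ≤ 6 * M := by
      have h4 : |s' - s| * n = |s' - s| * (n / M) * M := by field_simp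
      rw [h4]
      exact mul_le_mul_of_nonneg_right hss2 hM0.le
    calc |s' - s| * R ≤ |s' - s| * (12 * D * n) := mul_le_mul_of_nonneg_left hR (abs_nonneg _)
      _ = 12 * D * (|s' - s| * n) := by ring
      _ ≤ 12 * D * (6 * M) := mul_le_mul_of_nonneg_left h3 (by linarith)
      _ = 72 * D * M := by ring
  refine ⟨hc b e z - s' * tc b e z, s', coord he hc0, hs'1, ?_⟩
  -- the heights at the first crossing
  have hnpos : 0 < W.length := by
    have : (0 : ℝ) < (W.length : ℝ) := hn0
    exact_mod_cast this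
  have hr0 : |r 0| ≤ R + D := by
    have h3 := hTB (dev P ((lets W).take 0) (P.vertex 0)) ⟨0, hnpos, 0, rfl⟩
    have h4 := (abs_tc_sub_le (b := b) he _ _).trans (hv 0 (Nat.zero_le _) 0)
    rw [tc_line he] at h4
    have h5 := abs_le.1 h3
    have h6 := abs_le.1 h4
    rw [abs_le]; constructor <;> linarith
  have hy : |y - (hc b e z - s' * tc b e z)| ≤ 4 * D + |s' - s| * |r 0| := by
    have h3 : y - (hc b e z - s' * tc b e z) =
        ((y + s * r 0) - (hc b e z + r' 0 * d)) - s' * (r 0 - (tc b e z + r' 0 * c)) +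
          (s' - s) * r 0 := by
      rw [hds]; ring
    rw [h3]
    have h4 : |s' * (r 0 - (tc b e z + r' 0 * c))| ≤ 1 * (2 * D) := by
      rw [abs_mul]
      exact mul_le_mul hs'1 (htc 0 (Nat.zero_le _)) (abs_nonneg _) (by norm_num)
    calc |((y + s * r 0) - (hc b e z + r' 0 * d)) - s' * (r 0 - (tc b e z + r' 0 * c)) +
          (s' - s) * r 0| ≤ |((y + s * r 0) - (hc b e z + r' 0 * d)) -
            s' * (r 0 - (tc b e z + r' 0 * c))| + |(s' - s) * r 0| := abs_add_le _ _
      _ ≤ (|(y + s * r 0) - (hc b e z + r' 0 * d)| +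
            |s' * (r 0 - (tc b e z + r' 0 * c))|) + |(s' - s) * r 0| := by
          gcongr; exact abs_sub _ _
      _ ≤ (2 * D + 1 * (2 * D)) + |s' - s| * |r 0| := by
          rw [abs_mul (s' - s)]
          gcongr
          exact hhc 0 (Nat.zero_le _)
      _ = 4 * D + |s' - s| * |r 0| := by ring
  have h8 : |s' - s| * |r 0| ≤ 72 * D * M + 3 / 10 * D := by
    calc |s' - s| * |r 0| ≤ |s' - s| * (R + D) := mul_le_mul_of_nonneg_left hr0 (abs_nonneg _)
      _ = |s' - s| * R + |s' - s| * D := by ring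
      _ ≤ 72 * D * M + 3 / 10 * D := by
          have := mul_le_mul_of_nonneg_right hss3 (by linarith : 0 ≤ D)
          linarith
  rw [abs_sub_comm s s']
  have hDM : 0 ≤ D * M := by positivity
  nlinarith

end Pool.Agent.BCX
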