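import Pool.Agent.BCX.Defs

/-!
# Upper bounds for the billiard complexity: frames
-/

open Set Filter Topology Metric
open scoped ComplexConjugate

namespace Pool.Agent.BCX

open Pool.Agent.Billiard Pool.Agent.Lib_helper45.Bil

theorem mul_conj_one {e : ℂ} (he : ‖e‖ = 1) : e * conj e = 1 := by
  rw [Complex.mul_conj, Complex.normSq_eq_norm_sq, he]; norm_num

theorem tc_hc_add (b e : ℂ) (he : ‖e‖ = 1) (q : ℂ) :
    q = b + ((tc b e q : ℂ) + hc b e q * Complex.I) * e := by
  have h : ((tc b e q : ℂ) + hc b e q * Complex.I) = (q - b) * conj e := by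
    unfold tc hc
    exact Complex.re_add_im _
  rw [h, mul_assoc, mul_comm (conj e) e, mul_conj_one he]
  ring

/-- The signed height in coordinates. -/
theorem sd_frame {b e : ℂ} (he : ‖e‖ = 1) (y s : ℝ) (q : ℂ) :
    sd (lz b e y) (lu e s) q = hc b e q - (y + s * tc b e q) := by
  have h1 := tc_hc_add b e he q
  have h2 := mul_conj_one he
  have h3 : (q - lz b e y) * conj (lu e s) =
      ((tc b e q : ℂ) + (hc b e q - y) * Complex.I) * (1 - s * Complex.I) := by
    have h4 : q - lz b e y = ((tc b e q : ℂ) + (hc b e q - y) * Complex.I) * e := by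
      unfold lz
      linear_combination h1
    rw [h4]
    unfold lu
    simp only [map_mul, map_add, map_one, Complex.conj_ofReal, Complex.conj_I]
    linear_combination (((tc b e q : ℂ) + (hc b e q - y) * Complex.I) * (1 - s * Complex.I)) * h2
  unfold sd
  rw [h3]
  simp
  ring

theorem sd_zero_dir (z q : ℂ) : sd z 0 q = 0 := by simp [sd]

/-- Affinity in the line. -/
theorem sd_mix {b e : ℂ} (he : ‖e‖ = 1) (y s y' s' r : ℝ) (q : ℂ) :
    sd (lz b e ((1 - r) * y + r * y')) (lu e ((1 - r) * s + r * s')) q =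
      (1 - r) * sd (lz b e y) (lu e s) q + r * sd (lz b e y') (lu e s') q := by
  rw [sd_frame he, sd_frame he, sd_frame he]; ring

/-- The point of the line at time `t` has time coordinate `t` and height `y + s t`. -/
theorem tc_line {b e : ℂ} (he : ‖e‖ = 1) (y s t : ℝ) : tc b e (lz b e y + t * lu e s) = t := by
  have h2 := mul_conj_one he
  unfold tc lz lu
  have : (b + y * Complex.I * e + t * ((1 + s * Complex.I) * e) - b) * conj e =
      (t + (y + s * t) * Complex.I) := by
    linear_combination (t + (y + s * t) * Complex.I) * h2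
  rw [this]; simp

theorem hc_line {b e : ℂ} (he : ‖e‖ = 1) (y s t : ℝ) :
    hc b e (lz b e y + t * lu e s) = y + s * t := by
  have h2 := mul_conj_one he
  unfold hc lz lu
  have : (b + y * Complex.I * e + t * ((1 + s * Complex.I) * e) - b) * conj e =
      (t + (y + s * t) * Complex.I) := by
    linear_combination (t + (y + s * t) * Complex.I) * h2
  rw [this]; simp

theorem abs_tc_sub_le {b e : ℂ} (he : ‖e‖ = 1) (p q : ℂ) : |tc b e p - tc b e q| ≤ dist p q := by
  have : tc b e p - tc b e q = ((p - q) * conj e).re := by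
    unfold tc
    rw [← Complex.sub_re]; congr 1; ring
  rw [this, dist_eq_norm]
  calc |((p - q) * conj e).re| ≤ ‖(p - q) * conj e‖ := Complex.abs_re_le_norm _
    _ = ‖p - q‖ := by rw [norm_mul, RCLike.norm_conj, he, mul_one]

theorem norm_lu {e : ℂ} (he : ‖e‖ = 1) (s : ℝ) : 1 ≤ ‖lu e s‖ ∧ ‖lu e s‖ ≤ 1 + |s| := by
  unfold lu
  rw [norm_mul, he, mul_one]
  constructor
  · calc (1 : ℝ) = |(1 + s * Complex.I).re| := by simp
      _ ≤ _ := Complex.abs_re_le_norm _
  · calc ‖(1 : ℂ) + s * Complex.I‖ ≤ ‖(1 : ℂ)‖ + ‖(s : ℂ) * Complex.I‖ := norm_add_le _ _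
      _ = 1 + |s| := by simp

theorem lu_ne {e : ℂ} (he : ‖e‖ = 1) (s : ℝ) : lu e s ≠ 0 := by
  intro h
  have := (norm_lu he s).1
  rw [h, norm_zero] at this
  linarith

theorem Box.abs_le {ε R y s τ : ℝ} (h : Box ε R y s) (hτ : |τ| ≤ R) : |y + s * τ| ≤ ε := by
  unfold Box at h
  calc |y + s * τ| ≤ |y| + |s * τ| := abs_add_le _ _
    _ = |y| + |s| * |τ| := by rw [abs_mul]
    _ ≤ |y| + |s| * R := by gcongr
    _ ≤ ε := h

/-- A vertex outside the strip has the sign of its height for all lines in the box. -/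
theorem sign_of_far {b e : ℂ} (he : ‖e‖ = 1) {ε R y s : ℝ} (h : Box ε R y s) {q : ℂ}
    (hτ : |tc b e q| ≤ R) (hq : ε < |hc b e q|) :
    (0 < hc b e q → 0 < sd (lz b e y) (lu e s) q) ∧
      (hc b e q < 0 → sd (lz b e y) (lu e s) q < 0) := by
  have h1 := abs_le.1 (h.abs_le hτ)
  rw [sd_frame he]
  constructor
  · intro h0
    rw [abs_of_pos h0] at hq
    linarith
  · intro h0
    rw [abs_of_neg h0] at hq
    linarith

/-- Monotonicity of the crossing times. -/
theorem times_mono {s : ℕ → ℝ} {n : ℕ} (h : ∀ i < n, s i ≤ s (i + 1)) :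
    ∀ i j : ℕ, i ≤ j → j ≤ n → s i ≤ s j := by
  intro i j hij
  induction j, hij using Nat.le_induction with
  | base => intro _; exact le_rfl
  | succ j _ ih => intro hj; exact (ih (by omega)).trans (h j (by omega))

variable {P : Polygon} {D : ℝ} {M : ℕ} {ε R T : ℝ} {b e : ℂ} {a : ZMod P.k}
  {w : List (ZMod P.k)} {y s t t' : ℝ}

/-- Crossing times of a realised word, in the frame. -/
theorem RealAt.times (hD : TimesOK P D M) (he : ‖e‖ = 1) (h : RealAt P ε R T b e a w y s t t') :
    ∃ r : ℕ → ℝ, (∀ i j : ℕ, i ≤ j → j ≤ w.length → r i ≤ r j) ∧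
      (∀ i ≤ w.length, -1 ≤ r i ∧ r i ≤ T) ∧
      (∀ i j : ℕ, i ≤ j → j ≤ w.length → r j - r i ≤ (j - i) * D) ∧
      (∀ i ≤ w.length, ∀ j, |tc b e (dev P (w.take i) (P.vertex j)) - r i| ≤ D) ∧
      (∀ i i' : ℕ, i + M ≤ i' → i' ≤ w.length → 5 * D ≤ ‖lu e s‖ * (r i' - r i)) := by
  obtain ⟨_, hall⟩ := hD
  obtain ⟨hbox, ht, ht', hx, hp, hgen⟩ := h
  obtain ⟨r, h0, h1, h2, h3, h4, h5⟩ := hall _ _ _ _ _ _ (lu_ne he s) hx hp
  have hmono := times_mono h2
  refine ⟨r, hmono, fun i hi => ⟨?_, ?_⟩, ?_, fun i hi j => ?_, h5⟩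
  · have := hmono 0 i (Nat.zero_le _) hi
    linarith
  · have := hmono i w.length hi le_rfl
    linarith
  · intro i j hij
    induction j, hij using Nat.le_induction with
    | base => intro _; simp
    | succ j hij ih =>
      intro hj
      have h6 := ih (by omega)
      have h7 := h3 j (by omega)
      have h8 := h2 j (by omega)
      have h9 := (norm_lu he s).1
      have h10 : r (j + 1) - r j ≤ ‖lu e s‖ * (r (j + 1) - r j) := by nlinarith
      push_cast
      linarith
  · have h6 := h4 i hi j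
    have h7 := abs_tc_sub_le (b := b) he (lz b e y + r i * lu e s)
      (dev P (w.take i) (P.vertex j))
    rw [tc_line he] at h7
    rw [abs_sub_comm]
    exact h7.trans h6

/-- All unfolded vertices have time coordinate in `[-R, R]`. -/
theorem RealAt.tc_le (hD : TimesOK P D M) (he : ‖e‖ = 1) (hT : 0 ≤ T) (hR : T + D + 1 ≤ R)
    (h : RealAt P ε R T b e a w y s t t') :
    ∀ i ≤ w.length, ∀ j, |tc b e (dev P (w.take i) (P.vertex j))| ≤ R := by
  obtain ⟨r, _, h2, _, h4, _⟩ := h.times hD he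
  intro i hi j
  have h5 := h2 i hi
  have h6 := abs_le.1 (h4 i hi j)
  have := hD.1
  rw [abs_le]
  constructor <;> linarith

/-- The slope is at most `1`. -/
theorem Box.slope_le {ε R y s : ℝ} (h : Box ε R y s) (hR : 0 < R) (hε : ε ≤ R) : |s| ≤ 1 := by
  unfold Box at h
  have h1 : |s| * R ≤ 1 * R := by linarith [abs_nonneg y]
  exact le_of_mul_le_mul_right h1 hR

end Pool.Agent.BCX
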