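import Pool.Agent.BCX.Stmts4

/-!
# Packing: two lines in the same cell of a mesh realise the same signed word
-/

open Set Filter Topology Metric MeasureTheory
open scoped ComplexConjugate

namespace Pool.Agent.BCX

open Pool.Agent.Billiard Pool.Agent.Lib_helper45.Bil

namespace Cell

theorem floor_close {a b x : ℝ} (hx : 0 < x) (h : ⌊2 * a / x⌋ = ⌊2 * b / x⌋) :
    |a - b| < x / 2 := by
  have h1 : |2 * a / x - 2 * b / x| < 1 := Int.abs_sub_lt_one_of_floor_eq_floor h
  have h2 : 2 * a / x - 2 * b / x = (a - b) * (2 / x) := by ring
  rw [h2, abs_mul, abs_of_pos (show (0 : ℝ) < 2 / x by positivity)] at h1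
  have h3 : |a - b| * (2 / x) = |a - b| * 2 / x := by ring
  rw [h3, div_lt_one hx] at h1
  linarith

end Cell

open Cell in
theorem m_CELL : Stmt_SGN → Stmt_CELL := by
  intro hSGN P g W W' b e R x y s y' s' he hR hx hlen hW hW' hTB hcl hy hs
  obtain ⟨s1, _, s3⟩ := hSGN P g
  by_cases h0 : W = []
  · subst h0
    rw [List.length_nil] at hlen
    exact (List.length_eq_zero_iff.mp hlen.symm).symm
  · have c1 := floor_close hx hy
    have c2 := floor_close hx hs
    have h1 : SR P g W (lz b e y') (lu e s') := by
      refine s1 W b e y s y' s' he h0 hW ?_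
      intro q hq
      have hcq := hcl q hq
      have ht := hTB q hq
      have hd : |sd (lz b e y) (lu e s) q - sd (lz b e y') (lu e s') q| < x := by
        rw [sd_frame he, sd_frame he]
        have e1 : hc b e q - (y + s * tc b e q) - (hc b e q - (y' + s' * tc b e q)) =
            -((y - y') + (s - s') * tc b e q) := by ring
        rw [e1, abs_neg]
        have e2 : |(s - s') * tc b e q| ≤ |s * R - s' * R| := by
          rw [← sub_mul, abs_mul, abs_mul, abs_of_pos hR]
          exact mul_le_mul_of_nonneg_left ht (abs_nonneg _)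
        calc |(y - y') + (s - s') * tc b e q| ≤ |y - y'| + |(s - s') * tc b e q| := abs_add_le _ _
          _ < x / 2 + x / 2 := by linarith
          _ = x := by ring
      rw [abs_lt] at hd
      rcases le_total 0 (sd (lz b e y) (lu e s) q) with h2 | h2
      · rw [abs_of_nonneg h2] at hcq
        exact mul_pos (by linarith) (by linarith)
      · rw [abs_of_nonpos h2] at hcq
        exact mul_pos_of_neg_of_neg (by linarith) (by linarith)
    exact s3 W W' (lz b e y') (lu e s') h1 hW' hlen

end Pool.Agent.BCX
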