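import Pool.Agent.BCX.GENREP

/-!
# Covering all lines by boxes
-/

open Set Filter Topology Metric MeasureTheory
open scoped ComplexConjugate

namespace Pool.Agent.BCX

open Pool.Agent.Billiard Pool.Agent.Lib_helper45.Bil

namespace M_COVER

variable {P : Polygon}

/-- The total length of a word of length `n` is at most `n D`. -/
theorem end_le {D : ℝ} {M : ℕ} (hD : TimesOK P D M) {p v : ℂ} {w : List (ZMod P.k)}
    {a : ZMod P.k} {t' : ℝ} (hv : ‖v‖ = 1) (hp : p ∈ rel P a) (h : PathT P p v 0 w t') :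
    t' ≤ w.length * D := by
  have hv0 : v ≠ 0 := by
    intro h0
    rw [h0, norm_zero] at hv
    exact zero_ne_one hv
  obtain ⟨s, h0, h1, h2, h3, _⟩ := hD.2 p v 0 t' w a hv0 (by simpa using hp) h
  have h4 : ∀ i ≤ w.length, s i ≤ i * D := by
    intro i
    induction i with
    | zero => intro _; rw [h0]; simp
    | succ i ih =>
      intro hi
      have h5 := ih (by omega)
      have h6 := h3 i (by omega)
      rw [hv, one_mul] at h6
      push_cast
      linarith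
  have h5 := h4 w.length le_rfl
  rwa [h1] at h5

/-- A generic line close to a frame is in the box of the frame. -/
theorem real_of_near {ε R T : ℝ} {b e p v : ℂ} {c : ZMod P.k} {w : List (ZMod P.k)} {t' : ℝ}
    (hε : 0 < ε) (hε1 : ε ≤ 1) (hR : 1 ≤ R) (he : ‖e‖ = 1) (hv : ‖v‖ = 1)
    (hb : dist p b ≤ ε / 16) (hve : ‖v - e‖ ≤ ε / (8 * R)) (ht' : 0 ≤ t') (hT : 1 + t' ≤ T)
    (hrel : p ∈ rel P c) (hpath : PathT P p v 0 w t') (hgen : Gen P p v w) :
    RealW P ε R T b e c w := by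
  have hR0 : 0 < R := by linarith
  have hee : e * conj e = 1 := mul_conj_one he
  set q : ℂ := v * conj e with hq
  have hq1 : q = 1 + (v - e) * conj e := by
    rw [hq]; linear_combination hee
  have hn : ‖(v - e) * conj e‖ = ‖v - e‖ := by rw [norm_mul, RCLike.norm_conj, he, mul_one]
  have hre : |q.re - 1| ≤ ‖v - e‖ := by
    have h1 : q.re - 1 = ((v - e) * conj e).re := by rw [hq1]; simp
    rw [h1, ← hn]
    exact Complex.abs_re_le_norm _
  have him : |q.im| ≤ ‖v - e‖ := by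
    have h1 : q.im = ((v - e) * conj e).im := by rw [hq1]; simp
    rw [h1, ← hn]
    exact Complex.abs_im_le_norm _
  have hδ : ε / (8 * R) ≤ 1 / 8 := by
    rw [div_le_div_iff₀ (by positivity) (by norm_num)]
    nlinarith
  have h1 := (abs_le.1 hre).1
  have hv1 : 1 / 2 ≤ q.re := by linarith
  have hv1' : 0 < q.re := by linarith
  have hv1'' : q.re ≤ 1 := by
    have h2 : ‖q‖ = 1 := by rw [hq, norm_mul, RCLike.norm_conj, he, mul_one, hv]
    have h3 := (abs_le.1 (Complex.abs_re_le_norm q)).2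
    rwa [h2] at h3
  have hvq : v = ((q.re : ℂ) + q.im * Complex.I) * e := by
    rw [Complex.re_add_im, hq]
    linear_combination (-v) * hee
  set s : ℝ := q.im / q.re with hs
  set τ : ℝ := tc b e p with hτ
  set h : ℝ := hc b e p with hh
  set y : ℝ := h - s * τ with hy
  have hp := tc_hc_add b e he p
  rw [← hτ, ← hh] at hp
  have hqc : (q.re : ℂ) ≠ 0 := by exact_mod_cast hv1'.ne'
  have hlu : ((q.re⁻¹ : ℝ) : ℂ) * v = lu e s := by
    have h2 : ((s : ℝ) : ℂ) = (q.im : ℂ) / (q.re : ℂ) := by rw [hs]; push_cast; rfl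
    unfold lu
    rw [h2]
    have h3 : ((q.re⁻¹ : ℝ) : ℂ) = (q.re : ℂ)⁻¹ := by push_cast; rfl
    calc ((q.re⁻¹ : ℝ) : ℂ) * v = (q.re : ℂ)⁻¹ * (((q.re : ℂ) + q.im * Complex.I) * e) := by
          rw [h3, ← hvq]
      _ = (1 + (q.im : ℂ) / (q.re : ℂ) * Complex.I) * e := by field_simp
  have hlz : p + ((-(τ / q.re) : ℝ) : ℂ) * v = lz b e y := by
    have h2 : ((-(τ / q.re) : ℝ) : ℂ) * v = -(τ : ℂ) * lu e s := by
      rw [← hlu]; push_cast; ring
    rw [h2]
    unfold lz lu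
    rw [hy]
    push_cast
    linear_combination hp
  have hst : |s| ≤ ε / (4 * R) := by
    rw [hs, abs_div, abs_of_pos hv1', div_le_div_iff₀ hv1' (by positivity)]
    have h2 : |q.im| ≤ ε / (8 * R) := him.trans hve
    rw [le_div_iff₀ (by positivity)] at h2
    nlinarith
  have hd1 : |τ| ≤ ε / 16 := by
    have h2 := abs_tc_sub_le (b := b) he p b
    have h3 : tc b e b = 0 := by unfold tc; simp
    rw [h3, sub_zero] at h2
    exact h2.trans hb
  have hd2 : |h| ≤ ε / 16 := by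
    have h2 : |((p - b) * conj e).im| ≤ ‖(p - b) * conj e‖ := Complex.abs_im_le_norm _
    rw [norm_mul, RCLike.norm_conj, he, mul_one, ← dist_eq_norm] at h2
    exact h2.trans hb
  have hR4 : ε / (4 * R) * R = ε / 4 := by field_simp
  have hs1 : |s| ≤ 1 := by
    refine hst.trans ?_
    rw [div_le_one (by positivity)]
    linarith
  have hbox : Box ε R y s := by
    unfold Box
    have h2 : |y| ≤ |h| + |s| * |τ| := by
      rw [hy, ← abs_mul]
      exact abs_sub _ _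
    have h3 : |s| * R ≤ ε / 4 := by
      rw [← hR4]
      exact mul_le_mul_of_nonneg_right hst hR0.le
    have h4 : |s| * |τ| ≤ 1 * (ε / 16) := mul_le_mul hs1 hd1 (abs_nonneg _) zero_le_one
    linarith
  have hrp := M_GENREP.reparam (P := P) hv1' (-(τ / q.re)) hpath
  have e1 : q.re * (0 - -(τ / q.re)) = τ := by field_simp; ring
  have e2 : q.re * (t' - -(τ / q.re)) = q.re * t' + τ := by field_simp; ring
  rw [hlz, hlu, e1, e2] at hrp
  refine ⟨y, s, τ, q.re * t' + τ, hbox, ?_, ?_, ?_, hrp, ?_⟩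
  · have := (abs_le.1 hd1).1
    linarith
  · have h2 := (abs_le.1 hd1).2
    have h3 : q.re * t' ≤ 1 * t' := mul_le_mul_of_nonneg_right hv1'' ht'
    linarith
  · have h2 : lz b e y + (τ : ℂ) * lu e s = p := by
      unfold lz lu
      rw [hy]
      push_cast
      linear_combination -hp
    rw [h2]; exact hrel
  · intro i hi j
    have h2 := M_GENREP.sd_reparam p v (dev P (w.take i) (P.vertex j)) (-(τ / q.re)) q.re
    rw [hlz, hlu] at h2
    rw [h2]
    exact mul_ne_zero (inv_pos.2 hv1').ne' (hgen i hi j)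

/-- Rounding down to a multiple of `η`. -/
theorem floor_near {η x : ℝ} (hη : 0 < η) : |x - ⌊x / η⌋ * η| ≤ η := by
  have h1 := Int.floor_le (x / η)
  have h2 := Int.lt_floor_add_one (x / η)
  rw [le_div_iff₀ hη] at h1
  rw [div_lt_iff₀ hη] at h2
  rw [abs_le]
  constructor <;> linarith

theorem floor_mem {η x ρ : ℝ} {N : ℕ} (hη : 0 < η) (hx : |x| ≤ ρ) (hN : ρ / η + 1 ≤ N) :
    ⌊x / η⌋ ∈ Finset.Icc (-(N : ℤ)) N := by
  have h0 := abs_le.1 hx
  have h1 := Int.floor_le (x / η)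
  have h2 := Int.lt_floor_add_one (x / η)
  have h3 : x / η ≤ ρ / η := by gcongr; exact h0.2
  have h4 : -(ρ / η) ≤ x / η := by
    rw [← neg_div]
    gcongr
    exact h0.1
  rw [Finset.mem_Icc]
  constructor
  · have h5 : (-(N : ℤ) : ℝ) ≤ (⌊x / η⌋ : ℝ) := by push_cast; linarith
    exact_mod_cast h5
  · have h5 : ((⌊x / η⌋ : ℤ) : ℝ) ≤ ((N : ℤ) : ℝ) := by push_cast; linarith
    exact_mod_cast h5

theorem dist_floor {η : ℝ} (hη : 0 < η) (p : ℂ) :
    dist p ((((⌊p.re / η⌋ * η : ℝ)) : ℂ) + ((⌊p.im / η⌋ * η : ℝ) : ℂ) * Complex.I) ≤ 2 * η := by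
  rw [dist_eq_norm]
  have h1 := floor_near (x := p.re) hη
  have h2 := floor_near (x := p.im) hη
  refine (Complex.norm_le_abs_re_add_abs_im _).trans ?_
  have h3 : (p - ((((⌊p.re / η⌋ * η : ℝ)) : ℂ) + ((⌊p.im / η⌋ * η : ℝ) : ℂ) * Complex.I)).re =
      p.re - ⌊p.re / η⌋ * η := by simp
  have h4 : (p - ((((⌊p.re / η⌋ * η : ℝ)) : ℂ) + ((⌊p.im / η⌋ * η : ℝ) : ℂ) * Complex.I)).im =
      p.im - ⌊p.im / η⌋ * η := by simp
  rw [h3, h4]
  linarith

theorem norm_exp_sub {x y : ℝ} :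
    ‖Complex.exp (Complex.I * x) - Complex.exp (Complex.I * y)‖ ≤ |x - y| := by
  have h1 : Complex.exp (Complex.I * x) - Complex.exp (Complex.I * y) =
      Complex.exp (Complex.I * y) * (Complex.exp (Complex.I * ((x - y : ℝ) : ℂ)) - 1) := by
    rw [mul_sub, ← Complex.exp_add, mul_one]
    congr 2
    push_cast; ring
  rw [h1, norm_mul, Complex.norm_exp_I_mul_ofReal, one_mul]
  exact Real.norm_exp_I_mul_ofReal_sub_one_le

end M_COVER

open M_COVER in
theorem m_COVER : Stmt_GENREP → Stmt_COVER := by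
  intro hG P D M hD
  obtain ⟨ρ, hρ⟩ := P.isCompact.isBounded.subset_closedBall (0 : ℂ)
  set r : ℝ := max ρ 0 with hr
  have hr0 : 0 ≤ r := le_max_right _ _
  have hreg : ∀ p ∈ P.region, ‖p‖ ≤ r := by
    intro p hp
    have h1 := hρ hp
    rw [mem_closedBall, dist_zero_right] at h1
    exact h1.trans (le_max_left _ _)
  have : NeZero P.k := ⟨by have := P.three_le; omega⟩
  refine ⟨(P.k : ℝ) * (64 * r + 5) ^ 2 * 69, ?_, ?_⟩
  · have h1 : (1 : ℝ) ≤ P.k := by
      have := P.three_le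
      exact_mod_cast (by omega : 1 ≤ P.k)
    have h2 : (1 : ℝ) ≤ (64 * r + 5) ^ 2 := by nlinarith
    nlinarith [mul_le_mul h1 h2 zero_le_one (by positivity)]
  intro n X ε R T hε hε1 hT hTR hX
  have hD1 := hD.1
  have hnD : (0 : ℝ) ≤ n * D := by positivity
  have hR2 : 2 ≤ R := by linarith
  set η : ℝ := ε / 32 with hη
  have hη0 : 0 < η := by positivity
  set δ : ℝ := ε / (8 * R) with hδ
  have hδ0 : 0 < δ := by positivity
  set N : ℕ := ⌈r / η⌉₊ + 1 with hN
  set L : ℕ := ⌈4 / δ⌉₊ + 1 with hL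
  have hN1 : r / η + 1 ≤ N := by
    rw [hN]; push_cast
    linarith [Nat.le_ceil (r / η)]
  have hL1 : 4 / δ + 1 ≤ L := by
    rw [hL]; push_cast
    linarith [Nat.le_ceil (4 / δ)]
  set bb : ℤ → ℤ → ℂ := fun i j => ((i * η : ℝ) : ℂ) + ((j * η : ℝ) : ℂ) * Complex.I with hbb
  set ex : ℤ → ℂ := fun l => Complex.exp (Complex.I * ((l * δ : ℝ) : ℂ)) with hex
  have hexn : ∀ l, ‖ex l‖ = 1 := fun l => Complex.norm_exp_I_mul_ofReal _
  set K : Finset (ZMod P.k × ℤ × ℤ × ℤ) :=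
    (Finset.univ : Finset (ZMod P.k)) ×ˢ (Finset.Icc (-(N : ℤ)) N) ×ˢ (Finset.Icc (-(N : ℤ)) N) ×ˢ
      (Finset.Icc (-(L : ℤ)) L) with hK
  have hsub : {w : List (ZMod P.k) | w.length = n ∧ P.IsCode w} ⊆
      ⋃ κ ∈ K, {w : List (ZMod P.k) | w.length = n ∧
        RealW P ε R T (bb κ.2.1 κ.2.2.1) (ex κ.2.2.2) κ.1 w} := by
    rintro w ⟨hw, hcode⟩
    obtain ⟨c, p, v, t', hv, hrel, hpath, hgen⟩ := hG P w hcode
    have hpr : ‖p‖ ≤ r := hreg p (Gam_subset (rel_subset_Gam c hrel))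
    have hve : Complex.exp (Complex.I * (Complex.arg v : ℝ)) = v := by
      have h1 := Complex.norm_mul_exp_arg_mul_I v
      rw [hv, Complex.ofReal_one, one_mul] at h1
      rw [mul_comm]; exact h1
    rw [mem_iUnion₂]
    refine ⟨(c, ⌊p.re / η⌋, ⌊p.im / η⌋, ⌊Complex.arg v / δ⌋), ?_, hw, ?_⟩
    · rw [hK]
      simp only [Finset.mem_product]
      refine ⟨Finset.mem_univ _, ?_, ?_, ?_⟩
      · exact floor_mem hη0 ((Complex.abs_re_le_norm p).trans hpr) hN1
      · exact floor_mem hη0 ((Complex.abs_im_le_norm p).trans hpr) hN1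
      · exact floor_mem hδ0 ((Complex.abs_arg_le_pi v).trans Real.pi_le_four) hL1
    · have ht0 : 0 ≤ t' := hpath.le
      have ht1 := end_le hD hv hrel hpath
      rw [hw] at ht1
      refine real_of_near hε hε1 (by linarith) (hexn _) hv ?_ ?_ ht0 (by linarith) hrel hpath hgen
      · have h1 := dist_floor hη0 p
        have h2 : 2 * η = ε / 16 := by rw [hη]; ring
        rw [h2] at h1
        exact h1
      · have h1 := norm_exp_sub (x := Complex.arg v) (y := ⌊Complex.arg v / δ⌋ * δ)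
        rw [hve] at h1
        exact h1.trans (floor_near hδ0)
  have hfin : ∀ κ : ZMod P.k × ℤ × ℤ × ℤ, {w : List (ZMod P.k) | w.length = n ∧
        RealW P ε R T (bb κ.2.1 κ.2.2.1) (ex κ.2.2.2) κ.1 w}.Finite := fun κ =>
    (List.finite_length_eq (ZMod P.k) n).subset fun _ h => h.1
  have h1 : P.complexity n ≤ ∑ κ ∈ K, {w : List (ZMod P.k) | w.length = n ∧
        RealW P ε R T (bb κ.2.1 κ.2.2.1) (ex κ.2.2.2) κ.1 w}.ncard := by
    refine le_trans (ncard_le_ncard hsub (K.finite_toSet.biUnion fun κ _ => hfin κ)) ?_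
    exact Finset.set_ncard_biUnion_le K _
  have h2 : P.complexity n ≤ K.card * X := by
    refine h1.trans ?_
    rw [← smul_eq_mul]
    exact Finset.sum_le_card_nsmul _ _ _ fun κ _ => hX _ _ _ (hexn _)
  have hKc : K.card = P.k * ((2 * N + 1) * ((2 * N + 1) * (2 * L + 1))) := by
    rw [hK, Finset.card_product, Finset.card_product, Finset.card_product, Finset.card_univ,
      ZMod.card, Int.card_Icc, Int.card_Icc]
    congr 1
    have e1 : ((N : ℤ) + 1 - -(N : ℤ)).toNat = 2 * N + 1 := by omega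
    have e2 : ((L : ℤ) + 1 - -(L : ℤ)).toNat = 2 * L + 1 := by omega
    rw [e1, e2]
  set Q : ℝ := R / ε with hQ
  have hQ1 : 1 ≤ Q := by
    rw [hQ, le_div_iff₀ hε]; linarith
  have hQε : 1 / ε ≤ Q := by
    rw [hQ]; gcongr; linarith
  have hNle : (2 * (N : ℝ) + 1) ≤ (64 * r + 5) * Q := by
    have h3 : (N : ℝ) ≤ r / η + 2 := by
      rw [hN]; push_cast
      linarith [(Nat.ceil_lt_add_one (by positivity : 0 ≤ r / η)).le]
    have h4 : r / η = 32 * r * (1 / ε) := by rw [hη]; field_simp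
    have h5 : 32 * r * (1 / ε) ≤ 32 * r * Q := by gcongr
    have h6 : (64 * r + 5) * Q = 2 * (32 * r * Q) + 5 * Q := by ring
    rw [h6]
    linarith
  have hLle : (2 * (L : ℝ) + 1) ≤ 69 * Q := by
    have h3 : (L : ℝ) ≤ 4 / δ + 2 := by
      rw [hL]; push_cast
      linarith [(Nat.ceil_lt_add_one (by positivity : 0 ≤ 4 / δ)).le]
    have h4 : 4 / δ = 32 * Q := by rw [hδ, hQ]; field_simp; norm_num
    linarith
  have h3 : (P.complexity n : ℝ) ≤ (K.card : ℝ) * X := by exact_mod_cast h2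
  have h4 : (K.card : ℝ) ≤ (P.k : ℝ) * (64 * r + 5) ^ 2 * 69 * Q ^ 4 := by
    rw [hKc]
    push_cast
    have h5 : (2 * (N : ℝ) + 1) * ((2 * (N : ℝ) + 1) * (2 * (L : ℝ) + 1)) ≤
        ((64 * r + 5) * Q) * (((64 * r + 5) * Q) * (69 * Q)) := by gcongr
    have h6 : ((64 * r + 5) * Q) * (((64 * r + 5) * Q) * (69 * Q)) ≤ (64 * r + 5) ^ 2 * 69 * Q ^ 4 := by
      have h7 : Q ^ 3 ≤ Q ^ 4 := pow_le_pow_right₀ hQ1 (by norm_num)
      have h8 : ((64 * r + 5) * Q) * (((64 * r + 5) * Q) * (69 * Q)) =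
          (64 * r + 5) ^ 2 * 69 * Q ^ 3 := by ring
      rw [h8]
      gcongr
    calc (P.k : ℝ) * ((2 * (N : ℝ) + 1) * ((2 * (N : ℝ) + 1) * (2 * (L : ℝ) + 1)))
        ≤ (P.k : ℝ) * ((64 * r + 5) ^ 2 * 69 * Q ^ 4) :=
          mul_le_mul_of_nonneg_left (h5.trans h6) (Nat.cast_nonneg _)
      _ = _ := by ring
  calc (P.complexity n : ℝ) ≤ (K.card : ℝ) * X := h3
    _ ≤ (P.k : ℝ) * (64 * r + 5) ^ 2 * 69 * Q ^ 4 * X := by gcongr

end Pool.Agent.BCX
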