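import Pool.Agent.BCX.Stmts

/-!
# Upper bounds for the billiard complexity: choice of the window length
-/

open Set Filter Topology Metric MeasureTheory
open scoped ComplexConjugate

namespace Pool.Agent.BCX

open Pool.Agent.Billiard Pool.Agent.Lib_helper45.Bil

theorem log_facts {n : ℕ} (hn : 2 ≤ n) : 1 ≤ (n : ℝ) * Real.log n ∧ Real.log n ≤ n ∧
    0 < Real.log n ∧ Real.log (n + 1) ≤ 2 * Real.log n := by
  have hnr : (2 : ℝ) ≤ n := by exact_mod_cast hn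
  have h1 : Real.log 2 ≤ Real.log n := Real.log_le_log (by norm_num) hnr
  have h2 := Real.log_two_gt_d9
  refine ⟨by nlinarith, ?_, by linarith, ?_⟩
  · have := Real.log_le_sub_one_of_pos (show (0 : ℝ) < n by linarith)
    linarith
  · have h3 : Real.log ((n : ℝ) + 1) ≤ Real.log ((n : ℝ) ^ 2) :=
      Real.log_le_log (by linarith) (by nlinarith)
    rw [Real.log_pow] at h3
    exact_mod_cast h3

/-- The window length `⌈X⌉`, `1 ≤ X ≤ n`. -/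
theorem window {n : ℕ} (hn : 2 ≤ n) {X : ℝ} (hX1 : 1 ≤ X) (hXn : X ≤ n) :
    1 ≤ ⌈X⌉₊ ∧ (⌈X⌉₊ : ℝ) ≤ 2 * X ∧ 
      ((n : ℝ) / ⌈X⌉₊ + 1) * Real.log (⌈X⌉₊ + 1) ≤ 3 * (n * Real.log n / X) + 3 * Real.log n := by
  have hnr : (2 : ℝ) ≤ n := by exact_mod_cast hn
  obtain ⟨h1, h2, h3, h4⟩ := log_facts hn
  have hle := Nat.le_ceil X
  have hlt := Nat.ceil_lt_add_one (show 0 ≤ X by linarith)
  have hc1 : 1 ≤ ⌈X⌉₊ := by
    rw [Nat.one_le_ceil_iff]; linarith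
  refine ⟨hc1, by linarith, ?_⟩
  set m : ℝ := (⌈X⌉₊ : ℝ) with hm
  have hm1 : (1 : ℝ) ≤ m := by rw [hm]; exact_mod_cast hc1
  have h5 : Real.log (m + 1) ≤ 3 * Real.log n := by
    have h6 : m + 1 ≤ (n : ℝ) ^ 3 := by
      have h8 : (n : ℝ) ^ 3 = n * n * n := by ring
      have h9 : (4 : ℝ) ≤ n * n := by nlinarith
      have h10 : 4 * (n : ℝ) ≤ n * n * n := mul_le_mul_of_nonneg_right h9 (by linarith)
      rw [h8]; linarith
    have h7 := Real.log_le_log (by linarith) h6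
    rw [Real.log_pow] at h7
    exact_mod_cast h7
  have h6 : (n : ℝ) / m ≤ n / X := div_le_div_of_nonneg_left (by linarith) (by linarith) hle
  have h7 : 0 ≤ (n : ℝ) / X := by positivity
  calc ((n : ℝ) / m + 1) * Real.log (m + 1) ≤ (n / X + 1) * (3 * Real.log n) := by
        apply mul_le_mul (by linarith) h5 (Real.log_nonneg (by linarith)) (by linarith)
    _ = 3 * (n * Real.log n / X) + 3 * Real.log n := by field_simp

theorem calc_A (hM : Stmt_MAIN) (hS : Stmt_SEPALG) (P : Polygon)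
    (hP : ∀ i, IsAlgebraic ℚ (P.vertex i)) : ∃ C : ℝ, ∀ n : ℕ, 2 ≤ n →
    (P.complexity n : ℝ) ≤ Real.exp (C * √(n * Real.log n)) := by
  obtain ⟨C, hC, hmain⟩ := hM P
  obtain ⟨c, hc, hsep⟩ := hS P hP
  refine ⟨C * (2 * c + 8), fun n hn => ?_⟩
  have hnr : (2 : ℝ) ≤ n := by exact_mod_cast hn
  obtain ⟨h1, h2, h3, h4⟩ := log_facts hn
  set S : ℝ := √(n * Real.log n) with hS
  have hSS : S * S = n * Real.log n := Real.mul_self_sqrt (by positivity)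
  have hS1 : 1 ≤ S := by rw [hS]; exact Real.one_le_sqrt.2 h1
  have hSn : S ≤ n := by
    rw [hS, Real.sqrt_le_left (by linarith)]; nlinarith
  have hlS : Real.log n ≤ S := by
    rw [hS]; apply Real.le_sqrt_of_sq_le; nlinarith
  obtain ⟨hm1, hm2, hm3⟩ := window hn hS1 hSn
  have h5 := hmain ⌈S⌉₊ _ hm1 (Real.exp_pos _) (by
    rw [Real.exp_le_one_iff]
    have : (0 : ℝ) ≤ (⌈S⌉₊ : ℝ) := Nat.cast_nonneg _
    nlinarith) (hsep _ hm1) n (by omega)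
  refine h5.trans (Real.exp_le_exp.2 ?_)
  rw [one_div, ← Real.exp_neg, Real.log_exp]
  rw [mul_assoc]
  apply mul_le_mul_of_nonneg_left _ hC.le
  have h6 : (n : ℝ) * Real.log n / S = S := by
    rw [← hSS]; field_simp
  rw [h6] at hm3
  have h7 : c * (⌈S⌉₊ : ℝ) ≤ c * (2 * S) := mul_le_mul_of_nonneg_left hm2 hc.le
  linarith

theorem calc_B (hM : Stmt_MAIN) (P : Polygon) {c : ℝ} (hc : 0 < c)
    (hsep : ∀ m : ℕ, 1 ≤ m → Sep P m (Real.exp (-c * (m : ℝ) ^ 2))) : ∃ C : ℝ, ∀ n : ℕ, 2 ≤ n →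
    (P.complexity n : ℝ) ≤ Real.exp (C * ((n : ℝ) * Real.log n) ^ (2 / 3 : ℝ)) := by
  obtain ⟨C, hC, hmain⟩ := hM P
  refine ⟨C * (4 * c + 8), fun n hn => ?_⟩
  have hnr : (2 : ℝ) ≤ n := by exact_mod_cast hn
  obtain ⟨h1, h2, h3, h4⟩ := log_facts hn
  set L : ℝ := (n : ℝ) * Real.log n with hL
  set X : ℝ := L ^ (1 / 3 : ℝ) with hX
  have hL0 : 0 ≤ L := by linarith
  have hX3 : X ^ 3 = L := by
    rw [hX, ← Real.rpow_natCast, ← Real.rpow_mul hL0]; norm_num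
  have hX2 : L ^ (2 / 3 : ℝ) = X ^ 2 := by
    rw [hX, ← Real.rpow_natCast, ← Real.rpow_mul hL0]; norm_num
  have hX1 : 1 ≤ X := Real.one_le_rpow h1 (by norm_num)
  have hXn : X ≤ n := by
    by_contra hlt
    push Not at hlt
    have h6 : (n : ℝ) ^ 3 < X ^ 3 := pow_lt_pow_left₀ hlt (by linarith) (by norm_num)
    rw [hX3, hL] at h6
    have h7 : (n : ℝ) * Real.log n ≤ n * n := mul_le_mul_of_nonneg_left h2 (by linarith)
    nlinarith
  have hlX : Real.log n ≤ X ^ 2 := by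
    by_contra hlt
    push Not at hlt
    have h6 : (X ^ 2) ^ 3 < (Real.log n) ^ 3 := pow_lt_pow_left₀ hlt (by positivity) (by norm_num)
    have h7 : (X ^ 2) ^ 3 = L ^ 2 := by rw [← hX3]; ring
    rw [h7, hL] at h6
    have h8 : (Real.log n) ^ 3 ≤ n * (Real.log n) ^ 2 := by nlinarith [sq_nonneg (Real.log n)]
    have h9 : (n : ℝ) * (Real.log n) ^ 2 ≤ (n * Real.log n) ^ 2 := by
      have : (n : ℝ) ≤ n ^ 2 := by nlinarith
      rw [mul_pow]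
      exact mul_le_mul_of_nonneg_right this (sq_nonneg _)
    linarith
  obtain ⟨hm1, hm2, hm3⟩ := window hn hX1 hXn
  have h5 := hmain ⌈X⌉₊ _ hm1 (Real.exp_pos _) (by
    rw [Real.exp_le_one_iff]
    have : (0 : ℝ) ≤ (⌈X⌉₊ : ℝ) ^ 2 := by positivity
    nlinarith) (hsep _ hm1) n (by omega)
  refine h5.trans (Real.exp_le_exp.2 ?_)
  rw [one_div, ← Real.exp_neg, Real.log_exp]
  rw [mul_assoc, hX2]
  apply mul_le_mul_of_nonneg_left _ hC.le
  have h6 : (n : ℝ) * Real.log n / X = X ^ 2 := by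
    rw [← hL, ← hX3]; field_simp
  rw [h6] at hm3
  have h7 : ((⌈X⌉₊ : ℝ)) ^ 2 ≤ 4 * X ^ 2 := by
    have : (0 : ℝ) ≤ (⌈X⌉₊ : ℝ) := Nat.cast_nonneg _
    nlinarith
  have h8 : c * (⌈X⌉₊ : ℝ) ^ 2 ≤ c * (4 * X ^ 2) := mul_le_mul_of_nonneg_left h7 hc.le
  linarith

theorem calc_B' (hM : Stmt_MAIN) (hS : Stmt_SEPAE) (k : ℕ) (hk : 3 ≤ k) :
    ∀ᵐ v : Fin k → ℂ, ∀ P : Polygon, P.k = k →
    (∀ i : Fin k, P.vertex ((i : ℕ) : ZMod P.k) = v i) →
    ∃ C : ℝ, ∀ n : ℕ, 2 ≤ n →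
      (P.complexity n : ℝ) ≤ Real.exp (C * ((n : ℝ) * Real.log n) ^ (2 / 3 : ℝ)) := by
  filter_upwards [hS k hk] with v hv P hPk hPv
  obtain ⟨c, hc, hsep⟩ := hv P hPk hPv
  exact calc_B hM P hc hsep

end Pool.Agent.BCX
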