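import Pool.Agent.BCX.Stmts2
import Pool.Agent.BCX.Calc

/-!
# Upper bounds for the billiard complexity of every polygon: choice of the window length
-/

open Set Filter Topology Metric MeasureTheory
open scoped ComplexConjugate

namespace Pool.Agent.BCX

open Pool.Agent.Billiard Pool.Agent.Lib_helper45.Bil

theorem calc_U (hM : Stmt_MAIN2) (hS : Stmt_SCALES) (P : Polygon) (r : ℕ) (hr : RankLE P r) :
    ∃ C : ℝ, ∀ n : ℕ, 2 ≤ n →
    (P.complexity n : ℝ) ≤ Real.exp (C * ((n : ℝ) ^ ((r : ℝ) / (r + 1)) * Real.log n)) := by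
  obtain ⟨C, hC, hmain⟩ := hM P
  obtain ⟨C', hC', hsc⟩ := hS P r hr
  have hC'r : (1 : ℝ) ≤ C' := by exact_mod_cast hC'
  have hlC' : 0 ≤ Real.log C' := Real.log_nonneg hC'r
  have hlog2 : 0 < Real.log 2 := Real.log_pos (by norm_num)
  refine ⟨C * (C' * 2 ^ r * (Real.log C' / Real.log 2 + (r + 2) * 2 + 4) + 6), fun n hn => ?_⟩
  have hnr : (2 : ℝ) ≤ n := by exact_mod_cast hn
  obtain ⟨h1, h2, h3, h4⟩ := log_facts hn
  have hn0 : (0 : ℝ) ≤ n := by linarith
  set X : ℝ := (n : ℝ) ^ (1 / ((r : ℝ) + 1)) with hX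
  have hr1 : (0 : ℝ) < r + 1 := by positivity
  have hX1 : 1 ≤ X := Real.one_le_rpow (by linarith) (by positivity)
  have hXn : X ≤ n := by
    calc X ≤ (n : ℝ) ^ (1 : ℝ) := by
          apply Real.rpow_le_rpow_of_exponent_le (by linarith)
          rw [div_le_one hr1]; linarith [Nat.cast_nonneg (α := ℝ) r]
      _ = n := Real.rpow_one _
  set Y : ℝ := (n : ℝ) ^ ((r : ℝ) / (r + 1)) with hY
  have hXr : X ^ r = Y := by
    rw [hX, hY, ← Real.rpow_natCast, ← Real.rpow_mul hn0]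
    congr 1; ring
  have hXY : (n : ℝ) / X = Y := by
    rw [hX, hY]
    have : (n : ℝ) / (n : ℝ) ^ (1 / ((r : ℝ) + 1)) = (n : ℝ) ^ (1 - 1 / ((r : ℝ) + 1)) := by
      rw [Real.rpow_sub (by linarith), Real.rpow_one]
    rw [this]
    congr 1
    field_simp
    ring
  have hY1 : 1 ≤ Y := by rw [← hXr]; exact one_le_pow₀ hX1
  obtain ⟨hm1, hm2, hm3⟩ := window hn hX1 hXn
  set m : ℕ := ⌈X⌉₊ with hm
  obtain ⟨Q, σ, hQ1, hQ2, hσ0, hσQ, hσ, hgap⟩ := hsc m hm1
  have hmr : (1 : ℝ) ≤ m := by exact_mod_cast hm1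
  have hΓ1 : (1 : ℝ) ≤ C' * (m : ℝ) ^ (r + 2) :=
    one_le_mul_of_one_le_of_one_le hC'r (one_le_pow₀ hmr)
  have h5 := hmain m Q (C' * (m : ℝ) ^ (r + 2)) σ hm1 hQ1 hΓ1 hσ0 hσQ hσ hgap n (by omega)
  refine h5.trans (Real.exp_le_exp.2 ?_)
  rw [mul_assoc C]
  apply mul_le_mul_of_nonneg_left _ hC.le
  -- the number of scales
  have hQr : (Q : ℝ) ≤ C' * 2 ^ r * Y := by
    have h6 : (Q : ℝ) ≤ C' * (m : ℝ) ^ r := by exact_mod_cast hQ2
    have h7 : (m : ℝ) ^ r ≤ (2 * X) ^ r := pow_le_pow_left₀ (by linarith) hm2 r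
    rw [mul_pow, hXr] at h7
    calc (Q : ℝ) ≤ C' * (m : ℝ) ^ r := h6
      _ ≤ C' * (2 ^ r * Y) := mul_le_mul_of_nonneg_left h7 (by linarith)
      _ = C' * 2 ^ r * Y := by ring
  have hmn : (m : ℝ) ≤ 2 * n := by linarith
  have hlm : Real.log m ≤ 2 * Real.log n := by
    have h6 : (m : ℝ) ≤ (n : ℝ) ^ 2 := by nlinarith
    have h7 := Real.log_le_log (by linarith) h6
    rw [Real.log_pow] at h7
    exact_mod_cast h7
  have hlnm : Real.log ((n : ℝ) + m + 1) ≤ 4 * Real.log n := by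
    have h6 : (n : ℝ) + m + 1 ≤ (n : ℝ) ^ 4 := by
      have h8 : (n : ℝ) ^ 4 = n * n * n * n := by ring
      have h9 : (8 : ℝ) ≤ n * n * n := by nlinarith [mul_self_nonneg ((n : ℝ) - 2)]
      have h10 : 8 * (n : ℝ) ≤ n * n * n * n := mul_le_mul_of_nonneg_right h9 (by linarith)
      rw [h8]; linarith
    have h7 := Real.log_le_log (by linarith) h6
    rw [Real.log_pow] at h7
    exact_mod_cast h7
  have hlogΓ : Real.log (C' * (m : ℝ) ^ (r + 2) * (n + m + 1)) ≤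
      (Real.log C' / Real.log 2 + (r + 2) * 2 + 4) * Real.log n := by
    rw [Real.log_mul (by positivity) (by positivity), Real.log_mul (by positivity) (by positivity),
      Real.log_pow]
    push_cast
    have h6 : Real.log C' ≤ Real.log C' / Real.log 2 * Real.log n := by
      rw [div_mul_eq_mul_div, le_div_iff₀ hlog2]
      have h7 : Real.log 2 ≤ Real.log n := Real.log_le_log (by norm_num) hnr
      exact mul_le_mul_of_nonneg_left h7 hlC'
    have h7 : ((r : ℝ) + 2) * Real.log m ≤ (r + 2) * (2 * Real.log n) :=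
      mul_le_mul_of_nonneg_left hlm (by positivity)
    linarith
  have hlogΓ0 : 0 ≤ Real.log (C' * (m : ℝ) ^ (r + 2) * (n + m + 1)) := by
    apply Real.log_nonneg
    exact one_le_mul_of_one_le_of_one_le hΓ1 (by linarith)
  have h6 : (Q : ℝ) * Real.log (C' * (m : ℝ) ^ (r + 2) * (n + m + 1)) ≤
      (C' * 2 ^ r * Y) * ((Real.log C' / Real.log 2 + (r + 2) * 2 + 4) * Real.log n) :=
    mul_le_mul hQr hlogΓ hlogΓ0 (by positivity)
  have h7 : (n : ℝ) * Real.log n / X = Y * Real.log n := by rw [← hXY]; ring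
  rw [h7] at hm3
  have h8 : Real.log n ≤ Y * Real.log n := le_mul_of_one_le_left h3.le hY1
  have h9 : (C' * 2 ^ r * (Real.log C' / Real.log 2 + (r + 2) * 2 + 4) + 6) * (Y * Real.log n) =
      (C' * 2 ^ r * Y) * ((Real.log C' / Real.log 2 + (r + 2) * 2 + 4) * Real.log n) +
        6 * (Y * Real.log n) := by ring
  rw [h9]
  linarith

end Pool.Agent.BCX
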