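import Pool.Agent.BCX.Stmts2

/-!
# Upper bounds for the billiard complexity: the signs determine the word   (helper16)
-/

open Set Filter Topology Metric
open scoped ComplexConjugate

namespace Pool.Agent.BCX

open Pool.Agent.Billiard Pool.Agent.Lib_helper45.Bil

namespace M_DET

/-- The family of lines between two lines (as in `X`). -/
theorem family {P : Polygon} {b e : ℂ} (he : ‖e‖ = 1) (hLC : Stmt_LC) (hU : Stmt_UNIQ)
    {a : ZMod P.k} {w w' : List (ZMod P.k)} {y s t y' s' t' : ℝ} (N : ℕ) (hN : N < w.length)
    (hN' : N < w'.length) (hg : lz b e y + t * lu e s ∈ rel P a)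
    (hg' : lz b e y' + t' * lu e s' ∈ rel P a)
    (hp : Path P (lz b e y) (lu e s) t w) (hp' : Path P (lz b e y') (lu e s') t' w')
    (hG : Gen P (lz b e y) (lu e s) w) (hG' : Gen P (lz b e y') (lu e s') w')
    (htake : w.take N = w'.take N)
    (hsig : ∀ l ≤ N, ∀ j, (0 < sd (lz b e y) (lu e s) (dev P (w.take l) (P.vertex j)) ↔
      0 < sd (lz b e y') (lu e s') (dev P (w.take l) (P.vertex j)))) :
    w.take (N + 1) = w'.take (N + 1) := by
  have htl : ∀ l ≤ N, w.take l = w'.take l := by
    intro l hl
    have := congrArg (List.take l) htake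
    rwa [List.take_take, List.take_take, min_eq_left hl] at this
  have hlen : (w.take (N + 1)).length = N + 1 := by
    rw [List.length_take]; exact min_eq_left hN
  have hlen' : (w'.take (N + 1)).length = N + 1 := by
    rw [List.length_take]; exact min_eq_left hN'
  have hpw : Path P (lz b e y) (lu e s) t (w.take (N + 1)) := by
    rw [← List.take_append_drop (N + 1) w] at hp
    exact hp.pre
  have hpw' : Path P (lz b e y') (lu e s') t' (w'.take (N + 1)) := by
    rw [← List.take_append_drop (N + 1) w'] at hp'
    exact hp'.pre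
  obtain ⟨t₁, h1, h2⟩ := hLC P (fun r => lz b e ((1 - r) * y + r * y'))
    (fun r => lu e ((1 - r) * s + r * s')) a (w.take (N + 1)) t
    (by intro h; rw [h] at hlen; simp at hlen)
    (by unfold lz; fun_prop) (by unfold lu; fun_prop)
    (by
      intro r hr l hl j
      rw [hlen] at hl
      have hlN : l ≤ N := by omega
      rw [List.take_take, min_eq_left (by omega), sd_mix he]
      have h3 := hG l (by omega) j
      have h4 := hG' l (by omega) j
      rw [← htl l hlN] at h4
      have h5 := hsig l hlN j
      rcases lt_or_gt_of_ne h3 with h6 | h6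
      · have h7 : sd (lz b e y') (lu e s') (dev P (w.take l) (P.vertex j)) < 0 := by
          rcases lt_or_gt_of_ne h4 with h8 | h8
          · exact h8
          · exact absurd (h5.2 h8) (not_lt.2 h6.le)
        apply ne_of_lt
        rcases eq_or_lt_of_le hr.1 with h9 | h9
        · rw [← h9]; linarith
        · have h10 := mul_neg_of_pos_of_neg h9 h7
          have h11 := mul_nonpos_of_nonneg_of_nonpos (sub_nonneg.2 hr.2) h6.le
          linarith
      · have h7 := h5.1 h6
        apply ne_of_gt
        rcases eq_or_lt_of_le hr.1 with h9 | h9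
        · rw [← h9]; linarith
        · have h10 := mul_pos h9 h7
          have h11 := mul_nonneg (sub_nonneg.2 hr.2) h6.le
          linarith)
    (by simpa using hg) (by simpa using hpw)
  simp only [sub_self, zero_mul, one_mul, zero_add] at h1 h2
  refine hU P _ _ a t₁ t' _ _ ?_ h1 hg' h2 hpw' (by rw [hlen, hlen'])
  have := hG' 0 (Nat.zero_le _) a
  simpa [dev] using this

/-- A vertex outside the strip around the centre line has the sign of its height over it. -/
theorem sign_far {b e : ℂ} (he : ‖e‖ = 1) {ε R y₀ s₀ y s : ℝ} (h : BoxC ε R y₀ s₀ y s) {q : ℂ}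
    (hτ : |tc b e q| ≤ R) (hq : ε < |hr b e y₀ s₀ q|) :
    0 < sd (lz b e y) (lu e s) q ↔ 0 < hr b e y₀ s₀ q := by
  have h0 : sd (lz b e y) (lu e s) q = hr b e y₀ s₀ q - ((y - y₀) + (s - s₀) * tc b e q) := by
    rw [sd_frame he]; unfold hr; ring
  have h1 : |(y - y₀) + (s - s₀) * tc b e q| ≤ ε := by
    calc |(y - y₀) + (s - s₀) * tc b e q| ≤ |y - y₀| + |(s - s₀) * tc b e q| := abs_add_le _ _
      _ = |y - y₀| + |s - s₀| * |tc b e q| := by rw [abs_mul]
      _ ≤ |y - y₀| + |s - s₀| * R := by gcongr
      _ ≤ ε := h
  have h2 := abs_le.1 h1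
  rw [h0]
  constructor
  · intro h3
    by_contra h4
    rw [abs_of_nonpos (not_lt.1 h4)] at hq
    linarith
  · intro h3
    rw [abs_of_pos h3] at hq
    linarith

end M_DET

theorem m_DET : Stmt_LC → Stmt_UNIQ → Stmt_DET := by
  intro hLC hU P D M hD ε R T b e y₀ s₀ a w w' y s t t₁ y' s' t' t₁' hT hTR he hlen hr1 hr2 hsig
  have key : ∀ N : ℕ, N ≤ w.length → w.take N = w'.take N := by
    intro N
    induction N with
    | zero => intro _; simp
    | succ N ih =>
      intro hN
      have ih1 := ih (by omega)
      have htl : ∀ l ≤ N, w.take l = w'.take l := by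
        intro l hl
        have := congrArg (List.take l) ih1
        rwa [List.take_take, List.take_take, min_eq_left hl] at this
      refine M_DET.family he hLC hU N (by omega) (by omega) hr1.2.2.2.2.1 hr2.2.2.2.2.1
        hr1.2.2.2.2.2.1.path hr2.2.2.2.2.2.1.path hr1.2.2.2.2.2.2 hr2.2.2.2.2.2.2 ih1 ?_
      intro l hl j
      rcases le_or_gt |hr b e y₀ s₀ (dev P (w.take l) (P.vertex j))| ε with h | h
      · exact hsig l (by omega) (htl l hl) j h
      · have htc := hr1.2.tc_le hD he hT hTR l (by omega) j
        rw [M_DET.sign_far he hr1.1 htc h, M_DET.sign_far he hr2.1 htc h]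
  have h := key w.length le_rfl
  rwa [List.take_of_length_le le_rfl, List.take_of_length_le (by omega)] at h

end Pool.Agent.BCX
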