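import Pool.Agent.BCX.Stmts

/-!
# Upper bounds for the billiard complexity: unfolded vertices as integer polynomials
-/

open Set Filter Topology Metric MeasureTheory
open scoped ComplexConjugate

namespace Pool.Agent.BCX

open Pool.Agent.Billiard Pool.Agent.Lib_helper45.Bil

namespace DevPoly

open MvPolynomial

/-! ### The length -/

section Len

variable {ι : Type}

theorem len_eq_of_subset (Q : MvPolynomial ι ℤ) (S : Finset (ι →₀ ℕ)) (h : Q.support ⊆ S) :
    len Q = ∑ x ∈ S, |((Q.coeff x : ℤ) : ℝ)| := by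
  unfold len
  refine Finset.sum_subset h fun x _ hx => ?_
  rw [MvPolynomial.notMem_support_iff.1 hx]
  simp

theorem len_nonneg (Q : MvPolynomial ι ℤ) : 0 ≤ len Q :=
  Finset.sum_nonneg fun _ _ => abs_nonneg _

theorem len_add_le (P Q : MvPolynomial ι ℤ) : len (P + Q) ≤ len P + len Q := by
  classical
  have hP := len_eq_of_subset P (P.support ∪ Q.support) Finset.subset_union_left
  have hQ := len_eq_of_subset Q (P.support ∪ Q.support) Finset.subset_union_right
  have hPQ := len_eq_of_subset (P + Q) (P.support ∪ Q.support) MvPolynomial.support_add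
  rw [hP, hQ, hPQ, ← Finset.sum_add_distrib]
  refine Finset.sum_le_sum fun x _ => ?_
  rw [MvPolynomial.coeff_add]
  push_cast
  exact abs_add_le _ _

theorem len_neg (P : MvPolynomial ι ℤ) : len (-P) = len P := by
  unfold len
  rw [MvPolynomial.support_neg]
  refine Finset.sum_congr rfl fun x _ => ?_
  rw [MvPolynomial.coeff_neg]
  push_cast
  exact abs_neg _

theorem len_zero : len (0 : MvPolynomial ι ℤ) = 0 := by simp [len]

theorem len_sum_le {β : Type} (s : Finset β) (f : β → MvPolynomial ι ℤ) :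
    len (∑ b ∈ s, f b) ≤ ∑ b ∈ s, len (f b) := by
  classical
  induction s using Finset.induction_on with
  | empty => simp [len_zero]
  | insert b s hb ih =>
    rw [Finset.sum_insert hb, Finset.sum_insert hb]
    exact (len_add_le _ _).trans (by linarith)

theorem len_monomial_le (x : ι →₀ ℕ) (c : ℤ) : len (monomial x c) ≤ |(c : ℝ)| := by
  classical
  rw [len_eq_of_subset _ {x} MvPolynomial.support_monomial_subset]
  simp

theorem len_mul_le (P Q : MvPolynomial ι ℤ) : len (P * Q) ≤ len P * len Q := by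
  have h : P * Q = ∑ x ∈ P.support, ∑ y ∈ Q.support,
      monomial (x + y) (P.coeff x * Q.coeff y) := by
    conv_lhs => rw [P.as_sum, Q.as_sum]
    rw [Finset.sum_mul_sum]
    refine Finset.sum_congr rfl fun x _ => Finset.sum_congr rfl fun y _ => ?_
    rw [MvPolynomial.monomial_mul]
  rw [h]
  refine (len_sum_le _ _).trans ?_
  have h2 : len P * len Q = ∑ x ∈ P.support, ∑ y ∈ Q.support,
      |((P.coeff x : ℤ) : ℝ)| * |((Q.coeff y : ℤ) : ℝ)| := by
    unfold len
    rw [Finset.sum_mul_sum]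
  rw [h2]
  refine Finset.sum_le_sum fun x _ => (len_sum_le _ _).trans (Finset.sum_le_sum fun y _ => ?_)
  refine (len_monomial_le _ _).trans ?_
  push_cast
  rw [abs_mul]

/-- Degree at most `D` and length at most `L`. -/
def Bd (Q : MvPolynomial ι ℤ) (D : ℕ) (L : ℝ) : Prop := Q.totalDegree ≤ D ∧ len Q ≤ L

theorem Bd.mono {Q : MvPolynomial ι ℤ} {D D' : ℕ} {L L' : ℝ} (h : Bd Q D L) (hD : D ≤ D')
    (hL : L ≤ L') : Bd Q D' L' := ⟨h.1.trans hD, h.2.trans hL⟩

theorem Bd.add {P Q : MvPolynomial ι ℤ} {D : ℕ} {L L' : ℝ} (h : Bd P D L) (h' : Bd Q D L') :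
    Bd (P + Q) D (L + L') :=
  ⟨(MvPolynomial.totalDegree_add P Q).trans (max_le h.1 h'.1),
    (len_add_le P Q).trans (add_le_add h.2 h'.2)⟩

theorem Bd.neg {P : MvPolynomial ι ℤ} {D : ℕ} {L : ℝ} (h : Bd P D L) : Bd (-P) D L :=
  ⟨(MvPolynomial.totalDegree_neg P).trans_le h.1, (len_neg P).trans_le h.2⟩

theorem Bd.sub {P Q : MvPolynomial ι ℤ} {D : ℕ} {L L' : ℝ} (h : Bd P D L) (h' : Bd Q D L') :
    Bd (P - Q) D (L + L') := by
  rw [sub_eq_add_neg]
  exact h.add h'.neg

theorem Bd.mul {P Q : MvPolynomial ι ℤ} {D D' : ℕ} {L L' : ℝ} (h : Bd P D L) (h' : Bd Q D' L') :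
    Bd (P * Q) (D + D') (L * L') :=
  ⟨(MvPolynomial.totalDegree_mul P Q).trans (add_le_add h.1 h'.1),
    (len_mul_le P Q).trans (mul_le_mul h.2 h'.2 (len_nonneg Q) ((len_nonneg P).trans h.2))⟩

theorem Bd.X (i : ι) : Bd (MvPolynomial.X i : MvPolynomial ι ℤ) 1 1 := by
  refine ⟨(MvPolynomial.totalDegree_X i).le, ?_⟩
  have := len_monomial_le (Finsupp.single i 1) (1 : ℤ)
  simpa [MvPolynomial.X] using this

theorem Bd.one : Bd (1 : MvPolynomial ι ℤ) 0 1 := by
  refine ⟨MvPolynomial.totalDegree_one.le, ?_⟩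
  have := len_monomial_le (0 : ι →₀ ℕ) (1 : ℤ)
  simpa using this

end Len

/-! ### The polynomials -/

section Pol

variable {k : ℕ}

/-- real part of the side -/
noncomputable def dx (a : ZMod k) : MvPolynomial (ZMod k × Bool) ℤ := X (a + 1, false) - X (a, false)

/-- imaginary part of the side -/
noncomputable def dy (a : ZMod k) : MvPolynomial (ZMod k × Bool) ℤ := X (a + 1, true) - X (a, true)

/-- squared length of the side -/
noncomputable def na (a : ZMod k) : MvPolynomial (ZMod k × Bool) ℤ := dx a * dx a + dy a * dy a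

/-- real part of the square of the side -/
noncomputable def pa (a : ZMod k) : MvPolynomial (ZMod k × Bool) ℤ := dx a * dx a - dy a * dy a

/-- imaginary part of the square of the side -/
noncomputable def qa (a : ZMod k) : MvPolynomial (ZMod k × Bool) ℤ := dx a * dy a + dx a * dy a

/-- the denominator -/
noncomputable def Np : List (ZMod k) → MvPolynomial (ZMod k × Bool) ℤ
  | [] => 1
  | a :: w => na a * Np w

/-- the numerators -/
noncomputable def AB (j : ZMod k) :
    List (ZMod k) → MvPolynomial (ZMod k × Bool) ℤ × MvPolynomial (ZMod k × Bool) ℤ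
  | [] => (X (j, false), X (j, true))
  | a :: w => (na a * Np w * X (a, false) + pa a * ((AB j w).1 - Np w * X (a, false)) +
        qa a * ((AB j w).2 - Np w * X (a, true)),
      na a * Np w * X (a, true) + qa a * ((AB j w).1 - Np w * X (a, false)) -
        pa a * ((AB j w).2 - Np w * X (a, true)))

theorem bd_dx (a : ZMod k) : Bd (dx a) 1 2 := ((Bd.X _).sub (Bd.X _)).mono le_rfl (by norm_num)

theorem bd_dy (a : ZMod k) : Bd (dy a) 1 2 := ((Bd.X _).sub (Bd.X _)).mono le_rfl (by norm_num)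

theorem bd_na (a : ZMod k) : Bd (na a) 2 8 :=
  (((bd_dx a).mul (bd_dx a)).add ((bd_dy a).mul (bd_dy a))).mono (by norm_num) (by norm_num)

theorem bd_pa (a : ZMod k) : Bd (pa a) 2 8 :=
  (((bd_dx a).mul (bd_dx a)).sub ((bd_dy a).mul (bd_dy a))).mono (by norm_num) (by norm_num)

theorem bd_qa (a : ZMod k) : Bd (qa a) 2 8 :=
  (((bd_dx a).mul (bd_dy a)).add ((bd_dx a).mul (bd_dy a))).mono (by norm_num) (by norm_num)

theorem bd_Np (w : List (ZMod k)) : Bd (Np w) (2 * w.length) (8 ^ w.length) := by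
  induction w with
  | nil => simpa [Np] using (Bd.one : Bd (1 : MvPolynomial (ZMod k × Bool) ℤ) 0 1)
  | cons a w ih =>
    refine ((bd_na a).mul ih).mono ?_ ?_
    · simp only [List.length_cons]; omega
    · simp only [List.length_cons]
      rw [pow_succ']

theorem bd_AB (j : ZMod k) (w : List (ZMod k)) :
    Bd (AB j w).1 (2 * w.length + 1) (64 ^ w.length) ∧
      Bd (AB j w).2 (2 * w.length + 1) (64 ^ w.length) := by
  induction w with
  | nil => exact ⟨by simpa [AB] using Bd.X (j, false), by simpa [AB] using Bd.X (j, true)⟩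
  | cons a w ih =>
    obtain ⟨ih1, ih2⟩ := ih
    have hN := bd_Np w
    set l := w.length
    have h8 : (8 : ℝ) ^ l ≤ 64 ^ l := pow_le_pow_left₀ (by norm_num) (by norm_num) l
    have h0 : (0 : ℝ) ≤ 64 ^ l := by positivity
    have e1 : Bd (na a * Np w * X (a, false)) (2 * l + 3) (8 * 8 ^ l * 1) :=
      (((bd_na a).mul hN).mul (Bd.X _)).mono (by omega) le_rfl
    have e2 : Bd (na a * Np w * X (a, true)) (2 * l + 3) (8 * 8 ^ l * 1) :=
      (((bd_na a).mul hN).mul (Bd.X _)).mono (by omega) le_rfl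
    have f1 : Bd ((AB j w).1 - Np w * X (a, false)) (2 * l + 1) (64 ^ l + 8 ^ l * 1) :=
      ih1.sub (hN.mul (Bd.X _))
    have f2 : Bd ((AB j w).2 - Np w * X (a, true)) (2 * l + 1) (64 ^ l + 8 ^ l * 1) :=
      ih2.sub (hN.mul (Bd.X _))
    have g1 := (bd_pa a).mul f1
    have g2 := (bd_qa a).mul f2
    have g3 := (bd_qa a).mul f1
    have g4 := (bd_pa a).mul f2
    have hpow : (64 : ℝ) ^ (l + 1) = 64 * 64 ^ l := by rw [pow_succ']
    refine ⟨?_, ?_⟩
    · refine Bd.mono ((e1.add (g1.mono (by omega) le_rfl)).add (g2.mono (by omega) le_rfl)) ?_ ?_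
      · simp only [List.length_cons]; omega
      · simp only [List.length_cons]
        change _ ≤ (64 : ℝ) ^ (l + 1)
        rw [hpow]
        nlinarith
    · refine Bd.mono ((e2.add (g3.mono (by omega) le_rfl)).sub (g4.mono (by omega) le_rfl)) ?_ ?_
      · simp only [List.length_cons]; omega
      · simp only [List.length_cons]
        change _ ≤ (64 : ℝ) ^ (l + 1)
        rw [hpow]
        nlinarith

/-! ### Evaluation -/

theorem ev_dx (v : ZMod k → ℂ) (a : ZMod k) : aeval (cf v) (dx a) = (v (a + 1) - v a).re := by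
  simp [dx, cf]

theorem ev_dy (v : ZMod k → ℂ) (a : ZMod k) : aeval (cf v) (dy a) = (v (a + 1) - v a).im := by
  simp [dy, cf]

theorem ev_na (v : ZMod k → ℂ) (a : ZMod k) :
    aeval (cf v) (na a) = ‖v (a + 1) - v a‖ ^ 2 := by
  rw [na, map_add, map_mul, map_mul, ev_dx, ev_dy, ← Complex.normSq_eq_norm_sq,
    Complex.normSq_apply]

theorem ev_Np_pos (v : ZMod k → ℂ) (hv : ∀ a, v (a + 1) ≠ v a) (w : List (ZMod k)) :
    0 < aeval (cf v) (Np w) := by
  induction w with
  | nil => simp [Np]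
  | cons a w ih =>
    rw [Np, map_mul, ev_na]
    have : 0 < ‖v (a + 1) - v a‖ := norm_pos_iff.2 (sub_ne_zero.2 (hv a))
    positivity

theorem ev_Np_le (v : ZMod k → ℂ) (hv : ∀ a, v (a + 1) ≠ v a) (ρ : ℝ) (hρ : 1 ≤ ρ)
    (h : ∀ a, ‖v (a + 1) - v a‖ ≤ ρ) (w : List (ZMod k)) :
    aeval (cf v) (Np w) ≤ ρ ^ (2 * w.length) := by
  induction w with
  | nil => simp [Np]
  | cons a w ih =>
    rw [Np, map_mul, ev_na]
    have h1 : ‖v (a + 1) - v a‖ ^ 2 ≤ ρ ^ 2 := pow_le_pow_left₀ (norm_nonneg _) (h a) 2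
    calc ‖v (a + 1) - v a‖ ^ 2 * aeval (cf v) (Np w) ≤ ρ ^ 2 * ρ ^ (2 * w.length) :=
          mul_le_mul h1 ih (ev_Np_pos v hv w).le (by positivity)
      _ = ρ ^ (2 * (a :: w).length) := by
          rw [← pow_add]
          congr 1
          simp only [List.length_cons]
          ring

theorem ev_AB (v : ZMod k → ℂ) (hv : ∀ a, v (a + 1) ≠ v a) (j : ZMod k) (w : List (ZMod k)) :
    ((aeval (cf v) (Np w) : ℝ) : ℂ) * gdev v w (v j) =
      ((aeval (cf v) (AB j w).1 : ℝ) : ℂ) + ((aeval (cf v) (AB j w).2 : ℝ) : ℂ) * Complex.I := by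
  induction w with
  | nil =>
    simp only [Np, AB, gdev, map_one, aeval_X, cf]
    simp
  | cons a w ih =>
    have hd : v (a + 1) - v a ≠ 0 := sub_ne_zero.2 (hv a)
    have hcd : conj (v (a + 1) - v a) ≠ 0 := by
      rwa [Ne, map_eq_zero]
    set d := v (a + 1) - v a with hddef
    have hX : aeval (cf v) (dx a) = d.re := ev_dx v a
    have hY : aeval (cf v) (dy a) = d.im := ev_dy v a
    have hr : aeval (cf v) (X (a, false) : MvPolynomial (ZMod k × Bool) ℤ) = (v a).re := by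
      simp [cf]
    have hs : aeval (cf v) (X (a, true) : MvPolynomial (ZMod k × Bool) ℤ) = (v a).im := by
      simp [cf]
    set N : ℝ := aeval (cf v) (Np w) with hN
    set A : ℝ := aeval (cf v) (AB j w).1 with hA
    set B : ℝ := aeval (cf v) (AB j w).2 with hB
    set G := gdev v w (v j) with hG
    have hconj : (N : ℂ) * conj G = (A : ℂ) - (B : ℂ) * Complex.I := by
      have := congrArg conj ih
      simp only [map_mul, map_add, Complex.conj_ofReal, Complex.conj_I] at this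
      rw [this]
      ring
    have hn : ((d.re * d.re + d.im * d.im : ℝ) : ℂ) = d * conj d := by
      rw [Complex.mul_conj, Complex.normSq_apply]
    have hkey : ((d.re * d.re + d.im * d.im : ℝ) : ℂ) * (N : ℂ) *
        (v a + reflectDir d (G - v a)) =
        ((d.re * d.re + d.im * d.im : ℝ) : ℂ) * (N : ℂ) * v a +
          d ^ 2 * ((A : ℂ) - (B : ℂ) * Complex.I - (N : ℂ) * conj (v a)) := by
      have h1 : ((d.re * d.re + d.im * d.im : ℝ) : ℂ) * (N : ℂ) * reflectDir d (G - v a) =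
          d ^ 2 * ((N : ℂ) * conj G - (N : ℂ) * conj (v a)) := by
        have gen : ∀ d c N g : ℂ, c ≠ 0 → d * c * N * (d * g / c) = d ^ 2 * (N * g) := by
          intro d c N g hc
          field_simp
        rw [hn, reflectDir, gen _ _ _ _ hcd, map_sub, mul_sub]
      rw [mul_add, h1, hconj]
    show ((aeval (cf v) (na a * Np w) : ℝ) : ℂ) * (v a + reflectDir d (G - v a)) = _
    simp only [AB, na, pa, qa, map_add, map_sub, map_mul, hX, hY, hr, hs, ← hN, ← hA, ← hB]
    rw [Complex.ofReal_mul, hkey]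
    generalize v a = va
    generalize d = d'
    apply Complex.ext
    · simp [pow_two]
      ring
    · simp [pow_two]
      ring

end Pol

end DevPoly

open DevPoly MvPolynomial in
theorem m_DEVPOLY : Stmt_DEVPOLY := by
  intro k _
  refine ⟨64 ^ 4, by norm_num, ?_⟩
  intro m w₁ w₂ w₃ j₁ j₂ j₃ h1 h2 h3
  have bN : ∀ w : List (ZMod k), w.length ≤ m → Bd (Np w) (2 * m) (64 ^ m) := fun w hw =>
    (bd_Np w).mono (by omega) ((pow_le_pow_left₀ (by norm_num) (by norm_num) _).trans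
      (pow_le_pow_right₀ (by norm_num) hw))
  have bA : ∀ (j : ZMod k) (w : List (ZMod k)), w.length ≤ m →
      Bd (AB j w).1 (2 * m + 1) (64 ^ m) := fun j w hw =>
    (bd_AB j w).1.mono (by omega) (pow_le_pow_right₀ (by norm_num) hw)
  have bB : ∀ (j : ZMod k) (w : List (ZMod k)), w.length ≤ m →
      Bd (AB j w).2 (2 * m + 1) (64 ^ m) := fun j w hw =>
    (bd_AB j w).2.mono (by omega) (pow_le_pow_right₀ (by norm_num) hw)
  refine ⟨(Np w₁ * (AB j₂ w₂).2 - Np w₂ * (AB j₁ w₁).2) *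
      (Np w₁ * (AB j₃ w₃).1 - Np w₃ * (AB j₁ w₁).1) -
      (Np w₁ * (AB j₂ w₂).1 - Np w₂ * (AB j₁ w₁).1) *
      (Np w₁ * (AB j₃ w₃).2 - Np w₃ * (AB j₁ w₁).2), ?_, ?_, ?_⟩
  · have hb := ((((bN w₁ h1).mul (bB j₂ w₂ h2)).sub ((bN w₂ h2).mul (bB j₁ w₁ h1))).mul
      (((bN w₁ h1).mul (bA j₃ w₃ h3)).sub ((bN w₃ h3).mul (bA j₁ w₁ h1)))).sub
      ((((bN w₁ h1).mul (bA j₂ w₂ h2)).sub ((bN w₂ h2).mul (bA j₁ w₁ h1))).mul
      (((bN w₁ h1).mul (bB j₃ w₃ h3)).sub ((bN w₃ h3).mul (bB j₁ w₁ h1))))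
    exact hb.1.trans (by omega)
  · have hb := ((((bN w₁ h1).mul (bB j₂ w₂ h2)).sub ((bN w₂ h2).mul (bB j₁ w₁ h1))).mul
      (((bN w₁ h1).mul (bA j₃ w₃ h3)).sub ((bN w₃ h3).mul (bA j₁ w₁ h1)))).sub
      ((((bN w₁ h1).mul (bA j₂ w₂ h2)).sub ((bN w₂ h2).mul (bA j₁ w₁ h1))).mul
      (((bN w₁ h1).mul (bB j₃ w₃ h3)).sub ((bN w₃ h3).mul (bB j₁ w₁ h1))))
    refine hb.2.trans ?_
    have hp : ((64 : ℝ) ^ 4) ^ (m + 1) = 64 ^ 4 * (64 ^ m * 64 ^ m * (64 ^ m * 64 ^ m)) := by
      rw [← pow_mul]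
      ring
    rw [hp]
    have h0 : (0 : ℝ) ≤ 64 ^ m * 64 ^ m * (64 ^ m * 64 ^ m) := by positivity
    nlinarith
  · intro v ρ hv hρ hle
    have p1 := ev_Np_pos v hv w₁
    have p2 := ev_Np_pos v hv w₂
    have p3 := ev_Np_pos v hv w₃
    have q : ∀ w : List (ZMod k), w.length ≤ m → aeval (cf v) (Np w) ≤ ρ ^ (2 * m) := fun w hw =>
      (ev_Np_le v hv ρ hρ hle w).trans (pow_le_pow_right₀ hρ (by omega))
    have q1 := q w₁ h1
    have q2 := q w₂ h2
    have q3 := q w₃ h3
    have e1 := ev_AB v hv j₁ w₁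
    have e2 := ev_AB v hv j₂ w₂
    have e3 := ev_AB v hv j₃ w₃
    refine ⟨aeval (cf v) (Np w₁) ^ 2 * aeval (cf v) (Np w₂) * aeval (cf v) (Np w₃),
      by positivity, ?_, ?_⟩
    · have hr : (0 : ℝ) ≤ ρ ^ (2 * m) := by positivity
      calc aeval (cf v) (Np w₁) ^ 2 * aeval (cf v) (Np w₂) * aeval (cf v) (Np w₃)
          ≤ (ρ ^ (2 * m)) ^ 2 * ρ ^ (2 * m) * ρ ^ (2 * m) := by
            gcongr
        _ = ρ ^ (8 * m) := by
            rw [← pow_mul, ← pow_add, ← pow_add]
            congr 1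
            ring
    · have key : ∀ (N A B : ℝ) (G : ℂ), (N : ℂ) * G = (A : ℂ) + (B : ℂ) * Complex.I →
          A = N * G.re ∧ B = N * G.im := by
        intro N A B G h
        have hre := congrArg Complex.re h
        have him := congrArg Complex.im h
        simp at hre him
        exact ⟨hre.symm, him.symm⟩
      obtain ⟨a1, b1⟩ := key _ _ _ _ e1
      obtain ⟨a2, b2⟩ := key _ _ _ _ e2
      obtain ⟨a3, b3⟩ := key _ _ _ _ e3
      simp only [map_sub, map_mul]
      rw [a1, a2, a3, b1, b2, b3]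
      unfold cr
      simp only [Complex.mul_im, Complex.sub_re, Complex.sub_im, Complex.conj_re, Complex.conj_im,
        map_sub]
      ring

end Pool.Agent.BCX
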