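import Pool.Agent.Lib_helper45.Bil.Pack

/-!
# Upper bounds for the billiard complexity: definitions
-/

open Set Filter Topology Metric
open scoped ComplexConjugate

namespace Pool.Agent.BCX

open Pool.Agent.Billiard Pool.Agent.Lib_helper45.Bil

/-- The cross product. -/
noncomputable def cr (p q : ℂ) : ℝ := (p * conj q).im

/-- Signed height (times the speed `‖u‖`) of the point `q` over the line `z + τ u`. -/
noncomputable def sd (z u q : ℂ) : ℝ := ((q - z) * conj u).im

/-- The frame `(b, e)` (`‖e‖ = 1`): the line of height `y` at time `0` and slope `s`, base point. -/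
noncomputable def lz (b e : ℂ) (y : ℝ) : ℂ := b + (y * Complex.I) * e

/-- The frame `(b, e)`: the line of height `y` and slope `s`, direction. -/
noncomputable def lu (e : ℂ) (s : ℝ) : ℂ := (1 + s * Complex.I) * e

/-- Time coordinate of a point in the frame `(b, e)`. -/
noncomputable def tc (b e q : ℂ) : ℝ := ((q - b) * conj e).re

/-- Height coordinate of a point in the frame `(b, e)`. -/
noncomputable def hc (b e q : ℂ) : ℝ := ((q - b) * conj e).im

/-- The line with height `y` and slope `s` stays in the strip of half width `ε` for all times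
in `[-R, R]`. -/
def Box (ε R y s : ℝ) : Prop := |y| + |s| * R ≤ ε

/-- The line `z + τ u` avoids all unfolded vertices of the stages `0, …, w.length`. -/
def Gen (P : Polygon) (z u : ℂ) (w : List (ZMod P.k)) : Prop :=
  ∀ i ≤ w.length, ∀ j, sd z u (dev P (w.take i) (P.vertex j)) ≠ 0

/-- The line `(y, s)` in the frame `(b, e)` starts at time `t` on the open side `a`, then crosses
the sides in `w`, the last one at time `t'`. -/
def RealAt (P : Polygon) (ε R T : ℝ) (b e : ℂ) (a : ZMod P.k) (w : List (ZMod P.k))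
    (y s t t' : ℝ) : Prop :=
  Box ε R y s ∧ -1 ≤ t ∧ t' ≤ T ∧ lz b e y + t * lu e s ∈ rel P a ∧
    PathT P (lz b e y) (lu e s) t w t' ∧ Gen P (lz b e y) (lu e s) w

/-- The word `w` is realised by a line in the box. -/
def RealW (P : Polygon) (ε R T : ℝ) (b e : ℂ) (a : ZMod P.k) (w : List (ZMod P.k)) : Prop :=
  ∃ y s t t' : ℝ, RealAt P ε R T b e a w y s t t'

/-- Three unfolded vertices of stages at most `m` are collinear or span a triangle which is not
too small. -/
def Sep (P : Polygon) (m : ℕ) (δ : ℝ) : Prop :=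
  ∀ w₁ w₂ w₃ : List (ZMod P.k), w₁.length ≤ m → w₂.length ≤ m → w₃.length ≤ m →
    ∀ j₁ j₂ j₃ : ZMod P.k,
      cr (dev P w₂ (P.vertex j₂) - dev P w₁ (P.vertex j₁))
          (dev P w₃ (P.vertex j₃) - dev P w₁ (P.vertex j₁)) = 0 ∨
      δ ≤ |cr (dev P w₂ (P.vertex j₂) - dev P w₁ (P.vertex j₁))
          (dev P w₃ (P.vertex j₃) - dev P w₁ (P.vertex j₁))|

/-- Crossing times: `D` bounds the size of the polygon, and `M` bounces take at least `5 D` of
length. -/
def TimesOK (P : Polygon) (D : ℝ) (M : ℕ) : Prop :=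
  1 ≤ D ∧ ∀ (z u : ℂ) (t t' : ℝ) (w : List (ZMod P.k)) (a : ZMod P.k), u ≠ 0 →
    z + t * u ∈ rel P a → PathT P z u t w t' →
    ∃ s : ℕ → ℝ, s 0 = t ∧ s w.length = t' ∧ (∀ i < w.length, s i ≤ s (i + 1)) ∧
      (∀ i < w.length, ‖u‖ * (s (i + 1) - s i) ≤ D) ∧
      (∀ i ≤ w.length, ∀ j, dist (z + s i * u) (dev P (w.take i) (P.vertex j)) ≤ D) ∧
      (∀ i i' : ℕ, i + M ≤ i' → i' ≤ w.length → 5 * D ≤ ‖u‖ * (s i' - s i))

/-! ### Integer polynomials -/

/-- Sum of the absolute values of the coefficients. -/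
noncomputable def len {ι : Type} (Q : MvPolynomial ι ℤ) : ℝ := ∑ x ∈ Q.support, |((Q.coeff x : ℤ) : ℝ)|

/-- Real coordinates of the vertices of a closed polygonal curve. -/
noncomputable def cf {k : ℕ} (v : ZMod k → ℂ) (p : ZMod k × Bool) : ℝ :=
  if p.2 then (v p.1).im else (v p.1).re

/-- The unfolded position of the point `p` for an arbitrary closed polygonal curve. -/
noncomputable def gdev {k : ℕ} (v : ZMod k → ℂ) : List (ZMod k) → ℂ → ℂ
  | [], p => p
  | a :: w, p => v a + reflectDir (v (a + 1) - v a) (gdev v w p - v a)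

theorem dev_eq_gdev (P : Polygon) (w : List (ZMod P.k)) (p : ℂ) : dev P w p = gdev P.vertex w p := by
  induction w with
  | nil => rfl
  | cons a w ih =>
    show Lib_helper45.Bil.refl P a (dev P w p) = _
    rw [ih]
    rfl

end Pool.Agent.BCX
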