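import Pool.Agent.BCX.Base

/-!
# Upper bounds for the billiard complexity of every polygon: definitions
-/

open Set Filter Topology Metric
open scoped ComplexConjugate

namespace Pool.Agent.BCX

open Pool.Agent.Billiard Pool.Agent.Lib_helper45.Bil

/-- The line `(y, s)` is close to the centre line `(y₀, s₀)` for all times in `[-R, R]`. -/
def BoxC (ε R y₀ s₀ y s : ℝ) : Prop := |y - y₀| + |s - s₀| * R ≤ ε

/-- The line `(y, s)`, in the box around `(y₀, s₀)` (and in the big box `|y| + |s| R ≤ 1`), realises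
the word `w` from the gate `a`, with start time `t` and end time `t'`. -/
def RealAtC (P : Polygon) (ε R T : ℝ) (b e : ℂ) (y₀ s₀ : ℝ) (a : ZMod P.k) (w : List (ZMod P.k))
    (y s t t' : ℝ) : Prop :=
  BoxC ε R y₀ s₀ y s ∧ RealAt P 1 R T b e a w y s t t'

/-- The word `w` is realised by a line in the box around `(y₀, s₀)`. -/
def RealC (P : Polygon) (ε R T : ℝ) (b e : ℂ) (y₀ s₀ : ℝ) (a : ZMod P.k)
    (w : List (ZMod P.k)) : Prop :=
  ∃ y s t t' : ℝ, RealAtC P ε R T b e y₀ s₀ a w y s t t'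

/-- Height of the point `q` over the centre line. -/
noncomputable def hr (b e : ℂ) (y₀ s₀ : ℝ) (q : ℂ) : ℝ := hc b e q - (y₀ + s₀ * tc b e q)

/-- No cross product of three unfolded vertices of stages at most `m` is between `ζ` and `δ`. -/
def Gap (P : Polygon) (m : ℕ) (ζ δ : ℝ) : Prop :=
  ∀ w₁ w₂ w₃ : List (ZMod P.k), w₁.length ≤ m → w₂.length ≤ m → w₃.length ≤ m →
    ∀ j₁ j₂ j₃ : ZMod P.k,
      |cr (dev P w₂ (P.vertex j₂) - dev P w₁ (P.vertex j₁))
          (dev P w₃ (P.vertex j₃) - dev P w₁ (P.vertex j₁))| ≤ ζ ∨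
      δ ≤ |cr (dev P w₂ (P.vertex j₂) - dev P w₁ (P.vertex j₁))
          (dev P w₃ (P.vertex j₃) - dev P w₁ (P.vertex j₁))|

/-- The line `(y, s)` is pinned: it passes within `ζ` of two unfolded vertices of the stages
`< w.length` whose time coordinates differ by at least `D / 2`. -/
def Pin (P : Polygon) (ζ D : ℝ) (b e : ℂ) (y s : ℝ) (w : List (ZMod P.k)) : Prop :=
  ∃ l < w.length, ∃ l' < w.length, ∃ j j' : ZMod P.k,
    D / 2 ≤ |tc b e (dev P (w.take l) (P.vertex j)) - tc b e (dev P (w.take l') (P.vertex j'))| ∧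
    |sd (lz b e y) (lu e s) (dev P (w.take l) (P.vertex j))| ≤ ζ ∧
    |sd (lz b e y) (lu e s) (dev P (w.take l') (P.vertex j'))| ≤ ζ

/-- The directions of the sides generate a group of rank at most `r`: with
`c a = dir a / conj (dir a) = exp (2 i arg)`, all `c a / c 0` are products of powers of a root of
unity and of `r` numbers of modulus one. -/
def RankLE (P : Polygon) (r : ℕ) : Prop :=
  ∃ (N : ℕ) (ζ : ℂ) (g : Fin r → ℂ) (z : ZMod P.k → ℕ) (f : ZMod P.k → Fin r → ℤ),
    1 ≤ N ∧ ζ ^ N = 1 ∧ (∀ i, ‖g i‖ = 1) ∧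
      ∀ a, dir P a / conj (dir P a) =
        dir P 0 / conj (dir P 0) * ζ ^ (z a) * ∏ i, g i ^ (f a i)

end Pool.Agent.BCX
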