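import Pool.Agent.BCX.Defs2

/-!
# A quasi-polynomial bound for the billiard complexity of every polygon: definitions
-/

open Set Filter Topology Metric
open scoped ComplexConjugate

namespace Pool.Agent.BCX

open Pool.Agent.Billiard Pool.Agent.Lib_helper45.Bil

/-- Distance of the point `q` from the line `z + τ u`. -/
noncomputable def ld (z u q : ℂ) : ℝ := |sd z u q| / ‖u‖

/-- A bad triple at distance `d`: three unfolded vertices of the stages `< w.length` within `d` of
the line `z + τ u` whose cross product is larger than `d / Λ`. -/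
def Bad (P : Polygon) (Λ : ℝ) (z u : ℂ) (w : List (ZMod P.k)) (d : ℝ) : Prop :=
  ∃ l₁ < w.length, ∃ l₂ < w.length, ∃ l₃ < w.length, ∃ j₁ j₂ j₃ : ZMod P.k,
    ld z u (dev P (w.take l₁) (P.vertex j₁)) ≤ d ∧
    ld z u (dev P (w.take l₂) (P.vertex j₂)) ≤ d ∧
    ld z u (dev P (w.take l₃) (P.vertex j₃)) ≤ d ∧
    d < Λ * |cr (dev P (w.take l₂) (P.vertex j₂) - dev P (w.take l₁) (P.vertex j₁))
      (dev P (w.take l₃) (P.vertex j₃) - dev P (w.take l₁) (P.vertex j₁))|

/-- A generic line which crosses the open side `a` at time `t` and then the sides in `w`, the last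
one at time `t'`. It misses the vertices of the copies before the gate, `0`, …, `w.length`. -/
def Rz (P : Polygon) (a : ZMod P.k) (w : List (ZMod P.k)) (z u : ℂ) (t t' : ℝ) : Prop :=
  u ≠ 0 ∧ z + t * u ∈ rel P a ∧ PathT P z u t w t' ∧
    Gen P (Lib_helper45.Bil.refl P a z) (lrefl P a u) (a :: w)

/-- The first half dominates: there is a bad triple of the first half at a distance `d` such that
the second half has no bad triple at a smaller distance. -/
def Dom (P : Polygon) (Λ : ℝ) (z u : ℂ) (w₁ w₂ : List (ZMod P.k)) : Prop :=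
  ∃ d : ℝ, 0 < d ∧ Bad P Λ z u w₁ d ∧ ∀ d' < d, ¬ Bad P Λ (foldz P w₁ z) (foldu P w₁ u) w₂ d'

/-- All triples of strip vertices are almost collinear, relative to their distance from the line
`(y, s)`. -/
def Good (P : Polygon) (Λ ε : ℝ) (b e : ℂ) (y₀ s₀ y s : ℝ) (w : List (ZMod P.k)) : Prop :=
  ∀ l₁ < w.length, ∀ l₂ < w.length, ∀ l₃ < w.length, ∀ j₁ j₂ j₃ : ZMod P.k,
    |hr b e y₀ s₀ (dev P (w.take l₁) (P.vertex j₁))| ≤ ε →
    |hr b e y₀ s₀ (dev P (w.take l₂) (P.vertex j₂))| ≤ ε →
    |hr b e y₀ s₀ (dev P (w.take l₃) (P.vertex j₃))| ≤ ε →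
    Λ * |cr (dev P (w.take l₂) (P.vertex j₂) - dev P (w.take l₁) (P.vertex j₁))
      (dev P (w.take l₃) (P.vertex j₃) - dev P (w.take l₁) (P.vertex j₁))| ≤
      max (max |sd (lz b e y) (lu e s) (dev P (w.take l₁) (P.vertex j₁))|
        |sd (lz b e y) (lu e s) (dev P (w.take l₂) (P.vertex j₂))|)
        |sd (lz b e y) (lu e s) (dev P (w.take l₃) (P.vertex j₃))|

/-- Slope of the line through two points in the frame `(b, e)`. -/
noncomputable def cs (b e q q' : ℂ) : ℝ := (hc b e q' - hc b e q) / (tc b e q' - tc b e q)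

/-- Height of the line through two points in the frame `(b, e)`. -/
noncomputable def cy (b e q q' : ℂ) : ℝ := hc b e q - cs b e q q' * tc b e q

end Pool.Agent.BCX
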