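import Pool.Agent.BCX.Stmts3

/-!
# `F_P(n) ≤ exp (C (log n)^{3/2})` for every polygon: definitions
-/

open Set Filter Topology Metric
open scoped ComplexConjugate

namespace Pool.Agent.BCX

open Pool.Agent.Billiard Pool.Agent.Lib_helper45.Bil

/-- A signed letter: a sign vector (signs of the line at the vertices of the polygon) and the side
through which the line leaves the polygon. -/
abbrev SL (P : Polygon) : Type := (ZMod P.k → Bool) × ZMod P.k

open Classical in
/-- The sign vector of the line `z + τ u`. -/
noncomputable def sgv (P : Polygon) (z u : ℂ) : ZMod P.k → Bool :=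
  fun j => decide (0 < sd z u (P.vertex j))

/-- The opposite sign vector. -/
def neg {P : Polygon} (σ : ZMod P.k → Bool) : ZMod P.k → Bool := fun j => !(σ j)

/-- The letters of a signed word. -/
def lets {P : Polygon} (W : List (SL P)) : List (ZMod P.k) := W.map Prod.snd

/-- The line `z + τ u` realises the signed word from the time `t` on. It misses the vertices of the
copies `0, …, W.length - 1` which it crosses (nothing is said about the copy `W.length`). -/
def SP (P : Polygon) : ℂ → ℂ → ℝ → List (SL P) → Prop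
  | _, _, _, [] => True
  | z, u, t, c :: W => (∀ j, sd z u (P.vertex j) ≠ 0) ∧ c.1 = sgv P z u ∧
      ∃ t' : ℝ, t < t' ∧ (∀ τ ∈ Ioo t t', z + τ * u ∈ U P) ∧ z + t' * u ∈ rel P c.2 ∧
        SP P (Lib_helper45.Bil.refl P c.2 z) (lrefl P c.2 u) t' W

/-- The line `z + τ u` crosses the open gate `g` and then realises `W`. -/
def SR (P : Polygon) (g : ZMod P.k) (W : List (SL P)) (z u : ℂ) : Prop :=
  u ≠ 0 ∧ ∃ t : ℝ, z + t * u ∈ rel P g ∧ SP P z u t W

/-- Two-sided realisation: the future of the line from the gate `g` is `B`, its past is `A` (the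
future of the reversed reflected line). -/
def TS (P : Polygon) (g : ZMod P.k) (A B : List (SL P)) (z u : ℂ) : Prop :=
  SR P g B z u ∧ SR P g A (Lib_helper45.Bil.refl P g z) (-lrefl P g u)

/-- The last gate. -/
def lg {P : Polygon} : ZMod P.k → List (SL P) → ZMod P.k
  | g, [] => g
  | _, c :: V => lg c.2 V

/-- The signed word `V` (from the gate `g`), read backwards from its last gate. -/
def rv {P : Polygon} : ZMod P.k → List (SL P) → List (SL P)
  | _, [] => []
  | g, c :: V => rv c.2 V ++ [(neg c.1, g)]

/-- The unfolded vertices of the copies `0, …, W.length - 1`. -/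
def VX (P : Polygon) (W : List (SL P)) : Set ℂ :=
  {q | ∃ i < W.length, ∃ j, q = dev P ((lets W).take i) (P.vertex j)}

/-- All unfolded vertices of the word are at distance at least `ρ` from the line. -/
def Cl (P : Polygon) (ρ : ℝ) (W : List (SL P)) (z u : ℂ) : Prop := ∀ q ∈ VX P W, ρ ≤ ld z u q

/-- A line that realises `W` with almost the largest possible clearance. -/
structure Opt (P : Polygon) (g : ZMod P.k) (W : List (SL P)) (z u : ℂ) (ρ : ℝ) : Prop where
  unit : ‖u‖ = 1
  start : z ∈ rel P g
  real : SR P g W z u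
  pos : 0 < ρ
  cl : Cl P ρ W z u
  max : ∀ (z' u' : ℂ) (ρ' : ℝ), SR P g W z' u' → Cl P ρ' W z' u' → ρ' ≤ 2 * ρ

/-- The line `(y, s)` of the frame `(b, e)` is the line `z + τ u`. -/
def Coord (b e z u : ℂ) (y s : ℝ) : Prop :=
  ∃ x l : ℝ, 0 < l ∧ lz b e y = z + x * u ∧ lu e s = l * u

/-- All unfolded vertices of the word have time coordinate in `[-R, R]`. -/
def TB (P : Polygon) (R : ℝ) (b e : ℂ) (W : List (SL P)) : Prop := ∀ q ∈ VX P W, |tc b e q| ≤ R

/-- Two different unfolded vertices of the word at distance at most `δ` from each other and at most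
`ε` from the line. -/
def Tight (P : Polygon) (W : List (SL P)) (z u : ℂ) (ε δ : ℝ) : Prop :=
  ∃ q ∈ VX P W, ∃ q' ∈ VX P W, q ≠ q' ∧ dist q q' ≤ δ ∧ ld z u q ≤ ε ∧ ld z u q' ≤ ε

/-- The number of realised signed words of length `n`, with their gates. -/
noncomputable def SN (P : Polygon) (n : ℕ) : ℕ :=
  {X : ZMod P.k × List (SL P) | X.2.length = n ∧ ∃ z u, SR P X.1 X.2 z u}.ncard

/-- The signed words of length `n` which have a line of clearance at least `ρ`. -/
def Fat (P : Polygon) (ρ : ℝ) (n : ℕ) : Set (ZMod P.k × List (SL P)) :=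
  {X | X.2.length = n ∧ ∃ z u, SR P X.1 X.2 z u ∧ Cl P ρ X.2 z u}

end Pool.Agent.BCX
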