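import Pool.Agent.BCX.Stmts4

/-!
# Fat words are polynomially many
-/

open Set Filter Topology Metric MeasureTheory
open scoped ComplexConjugate

namespace Pool.Agent.BCX

open Pool.Agent.Billiard Pool.Agent.Lib_helper45.Bil

namespace M_FATC

variable {P : Polygon}

theorem lz_zero (b e : ℂ) : lz b e 0 = b := by simp [lz]

theorem lu_zero (e : ℂ) : lu e 0 = e := by simp [lu]

/-- The normalised representative of a line. -/
theorem rep (hI : Stmt_INV) {g : ZMod P.k} {W : List (SL P)} {z u : ℂ} {ρ : ℝ}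
    (h : SR P g W z u) (hc : Cl P ρ W z u) :
    ∃ p v : ℂ, ‖v‖ = 1 ∧ p ∈ rel P g ∧ SR P g W p v ∧ ∀ q ∈ VX P W, ρ ≤ |sd p v q| := by
  obtain ⟨hu, t, ht, _⟩ := id h
  have hn : 0 < ‖u‖ := norm_pos_iff.2 hu
  have hn' : (‖u‖ : ℂ) ≠ 0 := by exact_mod_cast hn.ne'
  have hv : ‖u / (‖u‖ : ℂ)‖ = 1 := by
    rw [norm_div, Complex.norm_real, norm_norm, div_self hn.ne']
  have hco : Coord (z + t * u) (u / (‖u‖ : ℂ)) z u 0 0 := by
    refine ⟨t, 1 / ‖u‖, by positivity, lz_zero _ _, ?_⟩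
    rw [lu_zero]
    push_cast
    ring
  have h1 := (hI P (z + t * u) (u / (‖u‖ : ℂ)) z u 0 0).1 g W hco h
  rw [lz_zero, lu_zero] at h1
  refine ⟨z + t * u, u / (‖u‖ : ℂ), hv, ht, h1, fun q hq => ?_⟩
  have h2 := (hI P (z + t * u) (u / (‖u‖ : ℂ)) z u 0 0).2.1 q hco
  rw [lz_zero, lu_zero] at h2
  have h3 := hc q hq
  rw [← h2] at h3
  unfold ld at h3
  rwa [hv, div_one] at h3

theorem mul_sub_pos {a x : ℝ} (h : |x| < |a|) : 0 < a * (a - x) := by
  have h1 : a * x ≤ |a| * |x| := by rw [← abs_mul]; exact le_abs_self _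
  have h2 : 0 ≤ |x| := abs_nonneg x
  have h3 : a * a = |a| * |a| := (abs_mul_abs_self a).symm
  nlinarith

/-- Two lines of the same length which start close to each other realise the same word, if the first one
is far from the vertices. -/
theorem near (hS : Stmt_SGN) (hI : Stmt_INV) (hZ : Stmt_SIZE) {D : ℝ} {M : ℕ} (hD : TimesOK P D M)
    {g : ZMod P.k} {W W' : List (SL P)} {p v p' v' : ℂ} {ρ δ : ℝ} (hv : ‖v‖ = 1)
    (hp : p ∈ rel P g) (hW : W ≠ []) (hl : W.length = W'.length)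
    (h : SR P g W p v) (h' : SR P g W' p' v') (hcl : ∀ q ∈ VX P W, ρ ≤ |sd p v q|)
    (hδ : 0 ≤ δ) (hδ1 : δ ≤ 1 / 4) (hpp : ‖p' - p‖ ≤ δ) (hvv : ‖v' - v‖ ≤ δ)
    (hρ : 2 * δ * (W.length + 3) * D < ρ) : W = W' := by
  have hvv1 : v * conj v = 1 := mul_conj_one hv
  set w : ℂ := (p' - p) * conj v with hw
  set r : ℂ := v' * conj v with hr
  have hwn : ‖w‖ ≤ δ := by rw [hw, norm_mul, RCLike.norm_conj, hv, mul_one]; exact hpp
  have hrn : ‖r - 1‖ ≤ δ := by
    have : r - 1 = (v' - v) * conj v := by rw [hr]; linear_combination hvv1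
    rw [this, norm_mul, RCLike.norm_conj, hv, mul_one]
    exact hvv
  have hre : |r.re - 1| ≤ δ := by
    have := (Complex.abs_re_le_norm (r - 1)).trans hrn
    simpa using this
  have him : |r.im| ≤ δ := by
    have := (Complex.abs_im_le_norm (r - 1)).trans hrn
    simpa using this
  have hα : 3 / 4 ≤ r.re := by
    have := (abs_le.1 hre).1
    linarith
  have hα0 : 0 < r.re := by linarith
  have hαc : (r.re : ℂ) ≠ 0 := by exact_mod_cast hα0.ne'
  have hwv : p' - p = ((w.re : ℂ) + w.im * Complex.I) * v := by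
    rw [Complex.re_add_im, hw]
    linear_combination (-(p' - p)) * hvv1
  have hrv : v' = ((r.re : ℂ) + r.im * Complex.I) * v := by
    rw [Complex.re_add_im, hr]
    linear_combination (-v') * hvv1
  set s : ℝ := r.im / r.re with hs
  set y : ℝ := w.im - w.re * s with hy
  have hsc : (s : ℂ) * (r.re : ℂ) = (r.im : ℂ) := by
    rw [hs]; push_cast; field_simp
  have hco : Coord p v p' v' y s := by
    refine ⟨-(w.re / r.re), 1 / r.re, by positivity, ?_, ?_⟩
    · unfold lz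
      have e1 : ((-(w.re / r.re) : ℝ) : ℂ) * v' = -((w.re : ℂ) + (w.re : ℂ) * s * Complex.I) * v := by
        rw [hrv, ← hsc]
        push_cast
        field_simp
      have e2 : p' = p + ((w.re : ℂ) + w.im * Complex.I) * v := by rw [← hwv]; ring
      rw [e1, e2, hy]
      push_cast
      ring
    · unfold lu
      rw [hrv, ← hsc]
      push_cast
      field_simp
  have hsb : |s| ≤ 4 / 3 * δ := by
    rw [hs, abs_div, abs_of_pos hα0, div_le_iff₀ hα0]
    nlinarith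
  have hyb : |y| ≤ 4 / 3 * δ := by
    have h1 : |w.im| ≤ δ := (Complex.abs_im_le_norm w).trans hwn
    have h2 : |w.re| ≤ δ := (Complex.abs_re_le_norm w).trans hwn
    have h3 : |y| ≤ |w.im| + |w.re| * |s| := by
      rw [hy, ← abs_mul]
      exact abs_sub _ _
    have h4 : |w.re| * |s| ≤ δ * (1 / 3) := by
      apply mul_le_mul h2 _ (abs_nonneg _) hδ
      linarith
    linarith
  have hD1 := hD.1
  have hlen : (0 : ℝ) ≤ W.length := Nat.cast_nonneg _
  have h0 : SR P g W (lz p v 0) (lu v 0) := by rw [lz_zero, lu_zero]; exact h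
  have hsr : SR P g W (lz p v y) (lu v s) := by
    refine (hS P g).1 W p v 0 0 y s hv hW h0 ?_
    intro q hq
    have h1 := hcl q hq
    have h2 := sd_frame (b := p) hv 0 0 q
    have h3 := sd_frame (b := p) hv y s q
    rw [h3]
    have h4 : sd p v q = hc p v q := by
      rw [lz_zero, lu_zero] at h2
      rw [h2]; ring
    have h5 : sd (lz p v 0) (lu v 0) q = hc p v q := by
      rw [lz_zero, lu_zero]; exact h4
    rw [h5]
    apply mul_sub_pos
    rw [h4] at h1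
    refine lt_of_lt_of_le ?_ h1
    have h6 : |tc p v q| ≤ (W.length + 2) * D := by
      have h7 := (hZ P D M hD g W p v h).2.1 p hp q hq
      have h8 := abs_tc_sub_le (b := p) hv q p
      have h9 : tc p v p = 0 := by unfold tc; simp
      rw [h9, sub_zero, dist_comm] at h8
      exact h8.trans h7
    have h7 : |y + s * tc p v q| ≤ |y| + |s| * |tc p v q| := by
      rw [← abs_mul]; exact abs_add_le _ _
    have h8 : |s| * |tc p v q| ≤ 2 * δ * ((W.length + 2) * D) := by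
      apply mul_le_mul _ h6 (abs_nonneg _) (by positivity)
      linarith
    have h9 : |y| ≤ 2 * δ * D := by
      have : 2 * δ * 1 ≤ 2 * δ * D := by gcongr
      linarith
    have h10 : 2 * δ * (W.length + 3) * D = 2 * δ * D + 2 * δ * ((W.length + 2) * D) := by ring
    linarith
  have hsr' : SR P g W' (lz p v y) (lu v s) := (hI P p v p' v' y s).1 g W' hco h'
  exact (hS P g).2.2 W W' _ _ hsr hsr' hl

/-- the integer part of a number of absolute value `≤ N` -/
theorem floor_mem {x : ℝ} {N : ℕ} (h : |x| ≤ N) : ⌊x⌋ ∈ Finset.Icc (-(N : ℤ)) N := by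
  obtain ⟨h1, h2⟩ := abs_le.1 h
  rw [Finset.mem_Icc]
  constructor
  · rw [Int.le_floor]
    push_cast
    exact h1
  · have h3 : (⌊x⌋ : ℝ) ≤ (N : ℝ) := (Int.floor_le x).trans h2
    exact_mod_cast h3

theorem floor_near {L x y : ℝ} (hL : 0 < L) (h : ⌊x * L⌋ = ⌊y * L⌋) : |y - x| ≤ 1 / L := by
  have h1 : |x * L - y * L| < 1 := Int.abs_sub_lt_one_of_floor_eq_floor h
  rw [le_div_iff₀ hL]
  have h2 : |y - x| * L = |x * L - y * L| := by
    rw [← sub_mul, abs_mul, abs_of_pos hL, abs_sub_comm]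
  rw [h2]
  exact h1.le

theorem norm_near {L : ℝ} {x y : ℂ} (hL : 0 < L) (h1 : ⌊x.re * L⌋ = ⌊y.re * L⌋)
    (h2 : ⌊x.im * L⌋ = ⌊y.im * L⌋) : ‖y - x‖ ≤ 2 / L := by
  have h3 := floor_near hL h1
  have h4 := floor_near hL h2
  have h5 := Complex.norm_le_abs_re_add_abs_im (y - x)
  rw [Complex.sub_re, Complex.sub_im] at h5
  have h6 : 2 / L = 1 / L + 1 / L := by ring
  linarith

theorem count {k c m V d N L : ℕ} (hm : 1 ≤ m) (hL : L = 17 * c * m ^ c * (m + 3) * d)
    (hN : N = (V + (m + 2) * d) * L) (hN1 : 1 ≤ N) :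
    k * ((2 * N + 1) * ((2 * N + 1) * ((2 * N + 1) * (2 * N + 1)))) ≤
      (k * (3 * (68 * c * d * (V + 3 * d))) ^ 4 + (4 * c + 8)) *
        m ^ (k * (3 * (68 * c * d * (V + 3 * d))) ^ 4 + (4 * c + 8)) := by
  set K₀ : ℕ := 68 * c * d * (V + 3 * d) with hK
  have h1 : N ≤ K₀ * m ^ (c + 2) := by
    rw [hN, hL, hK]
    have a1 : V + (m + 2) * d ≤ (V + 3 * d) * m := by nlinarith
    have a2 : m + 3 ≤ 4 * m := by omega
    calc (V + (m + 2) * d) * (17 * c * m ^ c * (m + 3) * d)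
        ≤ ((V + 3 * d) * m) * (17 * c * m ^ c * (4 * m) * d) := by gcongr
      _ = 68 * c * d * (V + 3 * d) * m ^ (c + 2) := by ring
  have h2 : 2 * N + 1 ≤ 3 * N := by omega
  calc k * ((2 * N + 1) * ((2 * N + 1) * ((2 * N + 1) * (2 * N + 1))))
      = k * (2 * N + 1) ^ 4 := by ring
    _ ≤ k * (3 * N) ^ 4 := by gcongr
    _ ≤ k * (3 * (K₀ * m ^ (c + 2))) ^ 4 := by gcongr
    _ = (k * (3 * K₀) ^ 4) * m ^ (4 * c + 8) := by ring
    _ ≤ (k * (3 * K₀) ^ 4 + (4 * c + 8)) * m ^ (k * (3 * K₀) ^ 4 + (4 * c + 8)) := by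
      refine Nat.mul_le_mul (by omega) (Nat.pow_le_pow_right hm (by omega))

end M_FATC

open M_FATC in
/-- FATC. -/
theorem m_FATC (hZ : Stmt_SIZE) (hS : Stmt_SGN) (hI : Stmt_INV) : Stmt_FATC := by
  intro P D M hD c
  have : NeZero P.k := ⟨by have := P.three_le; omega⟩
  set d : ℕ := ⌈D⌉₊ with hd
  set V : ℕ := ⌈‖P.vertex 0‖⌉₊ with hV
  refine ⟨P.k * (3 * (68 * c * d * (V + 3 * d))) ^ 4 + (4 * c + 8), ?_⟩
  intro m hm ρ hρ
  have hD1 := hD.1
  have hdD : D ≤ d := Nat.le_ceil D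
  have hd1 : 1 ≤ d := by
    have : (1 : ℝ) ≤ d := hD1.trans hdD
    exact_mod_cast this
  have hV1 : ‖P.vertex 0‖ ≤ V := Nat.le_ceil _
  rcases Nat.eq_zero_or_pos c with hc | hc
  · exfalso
    rw [hc] at hρ
    norm_num at hρ
  have hm0 : (0 : ℝ) < m := by exact_mod_cast hm
  have hc0 : (0 : ℝ) < c := by exact_mod_cast hc
  have hmc : (0 : ℝ) < c * (m : ℝ) ^ c := by positivity
  have hmcN : 1 ≤ m ^ c := Nat.one_le_pow _ _ hm
  set L : ℕ := 17 * c * m ^ c * (m + 3) * d with hL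
  set N : ℕ := (V + (m + 2) * d) * L with hN
  have hL68 : 68 ≤ L := by
    have a1 : 17 * 1 * 1 * (1 + 3) * 1 ≤ 17 * c * m ^ c * (m + 3) * d := by gcongr; exact hc
    omega
  have hLR : (68 : ℝ) ≤ L := by exact_mod_cast hL68
  have hL0 : (0 : ℝ) < L := by linarith
  have hB1 : 1 ≤ V + (m + 2) * d := by nlinarith
  have hN1 : 1 ≤ N := by
    rw [hN]
    exact Nat.one_le_iff_ne_zero.2 (Nat.mul_ne_zero (by omega) (by omega))
  set δ : ℝ := 2 / L with hδ
  have hδ0 : 0 ≤ δ := by positivity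
  have hδ1 : δ ≤ 1 / 4 := by
    rw [hδ, div_le_div_iff₀ hL0 (by norm_num)]
    linarith
  have hδρ : 2 * δ * (m + 3) * D < ρ := by
    have b1 : 1 / (c * (m : ℝ) ^ c) ≤ ρ := by
      rw [div_le_iff₀ hmc]; linarith
    refine lt_of_lt_of_le ?_ b1
    rw [lt_div_iff₀ hmc]
    have b2 : 2 * δ * (m + 3) * D * (c * (m : ℝ) ^ c) = (4 * c * (m : ℝ) ^ c * (m + 3) * D) / L := by
      rw [hδ]; ring
    rw [b2, div_lt_one hL0, hL]
    push_cast
    have b3 : 0 < (c : ℝ) * (m : ℝ) ^ c * (m + 3) * D := by positivity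
    have b4 : (c : ℝ) * (m : ℝ) ^ c * (m + 3) * D ≤ (c : ℝ) * (m : ℝ) ^ c * (m + 3) * d := by gcongr
    nlinarith
  have hrep : ∀ X ∈ Fat P ρ m, ∃ p v : ℂ, ‖v‖ = 1 ∧ p ∈ rel P X.1 ∧ SR P X.1 X.2 p v ∧
      (∀ q ∈ VX P X.2, ρ ≤ |sd p v q|) ∧ X.2.length = m := by
    rintro X ⟨hl, z, u, h1, h2⟩
    obtain ⟨p, v, h3, h4, h5, h6⟩ := rep hI h1 h2
    exact ⟨p, v, h3, h4, h5, h6, hl⟩
  choose! p v hv hp hsr hcl hlen using hrep
  set T : Finset (ZMod P.k × ℤ × ℤ × ℤ × ℤ) :=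
    (Finset.univ : Finset (ZMod P.k)) ×ˢ (Finset.Icc (-(N : ℤ)) N) ×ˢ (Finset.Icc (-(N : ℤ)) N) ×ˢ
      (Finset.Icc (-(N : ℤ)) N) ×ˢ (Finset.Icc (-(N : ℤ)) N) with hT
  set f : ZMod P.k × List (SL P) → ZMod P.k × ℤ × ℤ × ℤ × ℤ := fun X =>
    (X.1, ⌊(p X).re * L⌋, ⌊(p X).im * L⌋, ⌊(v X).re * L⌋, ⌊(v X).im * L⌋) with hf
  have hmap : MapsTo f (Fat P ρ m) (T : Set (ZMod P.k × ℤ × ℤ × ℤ × ℤ)) := by
    intro X hX
    have c1 : ‖p X‖ ≤ V + (m + 2) * d := by
      have c2 : P.vertex 0 ∈ VX P X.2 := by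
        refine ⟨0, by rw [hlen X hX]; omega, 0, ?_⟩
        rw [List.take_zero]
        rfl
      have c3 := (hZ P D M hD X.1 X.2 (p X) (v X) (hsr X hX)).2.1 (p X) (hp X hX) _ c2
      rw [hlen X hX, dist_eq_norm] at c3
      have c4 : p X = (p X - P.vertex 0) + P.vertex 0 := by ring
      have c5 := norm_add_le (p X - P.vertex 0) (P.vertex 0)
      rw [← c4] at c5
      have c6 : ((m : ℝ) + 2) * D ≤ (m + 2) * d := by gcongr
      linarith
    have c2 : (1 : ℝ) ≤ V + (m + 2) * d := by exact_mod_cast hB1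
    have c3 : ∀ x : ℝ, |x| ≤ V + (m + 2) * d → |x * L| ≤ N := by
      intro x hx
      rw [abs_mul, abs_of_pos hL0, hN]
      push_cast
      gcongr
    have c4 := Complex.abs_re_le_norm (p X)
    have c5 := Complex.abs_im_le_norm (p X)
    have c6 := Complex.abs_re_le_norm (v X)
    have c7 := Complex.abs_im_le_norm (v X)
    have c8 := hv X hX
    rw [Finset.mem_coe, hT]
    simp only [Finset.mem_product]
    exact ⟨Finset.mem_univ _, floor_mem (c3 _ (by linarith)), floor_mem (c3 _ (by linarith)),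
      floor_mem (c3 _ (by linarith)), floor_mem (c3 _ (by linarith))⟩
  have hinj : InjOn f (Fat P ρ m) := by
    rintro ⟨g, W⟩ hX ⟨g', W'⟩ hX' hXX
    simp only [hf, Prod.mk.injEq] at hXX
    obtain ⟨rfl, e1, e2, e3, e4⟩ := hXX
    have l1 := hlen _ hX
    have l2 := hlen _ hX'
    have hne : W ≠ [] := by
      intro h
      simp only at l1
      rw [h, List.length_nil] at l1
      omega
    have := near hS hI hZ hD (hv _ hX) (hp _ hX) hne (l1.trans l2.symm) (hsr _ hX) (hsr _ hX')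
      (hcl _ hX) hδ0 hδ1 (norm_near hL0 e1 e2) (norm_near hL0 e3 e4)
      (by simp only at l1; rw [l1]; exact hδρ)
    rw [this]
  refine ⟨Set.Finite.of_injOn hmap hinj T.finite_toSet, ?_⟩
  have h1 := Set.ncard_le_ncard_of_injOn f hmap hinj T.finite_toSet
  rw [Set.ncard_coe_finset, hT, Finset.card_product, Finset.card_product, Finset.card_product,
    Finset.card_product, Finset.card_univ, ZMod.card, Int.card_Icc] at h1
  have e1 : ((N : ℤ) + 1 - -(N : ℤ)).toNat = 2 * N + 1 := by omega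
  rw [e1] at h1
  exact h1.trans (count hm hL hN hN1)

end Pool.Agent.BCX
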