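import Pool.Agent.BCX.Stmts2

/-!
# Folding a line along the first part of a word
-/

open Set Filter Topology Metric
open scoped ComplexConjugate

namespace Pool.Agent.BCX

open Pool.Agent.Billiard Pool.Agent.Lib_helper45.Bil

namespace FOLD

variable {P : Polygon}

theorem dev_append (W V : List (ZMod P.k)) (q : ℂ) : dev P (W ++ V) q = dev P W (dev P V q) := by
  induction W with
  | nil => rfl
  | cons a W ih =>
    show Lib_helper45.Bil.refl P a (dev P (W ++ V) q) = Lib_helper45.Bil.refl P a (dev P W (dev P V q))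
    rw [ih]

theorem sd_refl (a : ZMod P.k) (z u q : ℂ) :
    sd z u (Lib_helper45.Bil.refl P a q) = - sd (Lib_helper45.Bil.refl P a z) (lrefl P a u) q := by
  unfold sd
  have h1 : q - Lib_helper45.Bil.refl P a z = lrefl P a (Lib_helper45.Bil.refl P a q - z) := by
    have h2 := refl_add' (P := P) a z (Lib_helper45.Bil.refl P a q - z)
    rw [add_sub_cancel, refl_refl] at h2
    exact sub_eq_of_eq_add' h2
  rw [h1, lrefl_conj, Complex.conj_im]
  ring

theorem sd_dev (W : List (ZMod P.k)) : ∀ (z u q : ℂ),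
    sd z u (dev P W q) = (-1) ^ W.length * sd (foldz P W z) (foldu P W u) q := by
  induction W with
  | nil => intro z u q; simp [dev, foldz, foldu]
  | cons a W ih =>
    intro z u q
    show sd z u (Lib_helper45.Bil.refl P a (dev P W q)) = _
    rw [sd_refl, ih]
    simp only [foldz, foldu, List.length_cons, pow_succ]
    ring

theorem fz_lz (W : List (ZMod P.k)) (b e : ℂ) (y : ℝ) :
    foldz P W (lz b e y) = lz (foldz P W b) (foldu P W e) ((-1) ^ W.length * y) := by
  have h1 := foldu_I (P := P) W y e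
  unfold lz
  rw [foldz_add, mul_comm (y : ℂ) Complex.I, h1]
  ring

theorem foldu_add (W : List (ZMod P.k)) : ∀ (u v : ℂ),
    foldu P W (u + v) = foldu P W u + foldu P W v := by
  induction W with
  | nil => intro u v; rfl
  | cons a W ih =>
    intro u v
    simp only [foldu]
    have : lrefl P a (u + v) = lrefl P a u + lrefl P a v := by
      unfold lrefl; exact rd_add _ _ _
    rw [this, ih]

theorem fu_lu (W : List (ZMod P.k)) (e : ℂ) (s : ℝ) :
    foldu P W (lu e s) = lu (foldu P W e) ((-1) ^ W.length * s) := by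
  have h1 := foldu_I (P := P) W s e
  unfold lu
  rw [add_mul, one_mul, foldu_add, mul_comm (s : ℂ) Complex.I, h1]
  push_cast
  ring

theorem pathT_append (W₁ : List (ZMod P.k)) : ∀ (W₂ : List (ZMod P.k)) (z u : ℂ) (t T : ℝ)
    (a : ZMod P.k), z + t * u ∈ rel P a → PathT P z u t (W₁ ++ W₂) T →
    ∃ t₁ : ℝ, PathT P z u t W₁ t₁ ∧ PathT P (foldz P W₁ z) (foldu P W₁ u) t₁ W₂ T ∧
      foldz P W₁ z + t₁ * foldu P W₁ u ∈ rel P (W₁.getLastD a) := by
  induction W₁ with
  | nil =>
    intro W₂ z u t T a ha h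
    exact ⟨t, rfl, h, ha⟩
  | cons c W₁ ih =>
    rintro W₂ z u t T a ha ⟨t', ht, h1, h2, h⟩
    have h3 : Lib_helper45.Bil.refl P c z + t' * lrefl P c u ∈ rel P c := by
      rw [refl_line h2]; exact h2
    obtain ⟨t₁, h4, h5, h6⟩ := ih W₂ _ _ t' T c h3 h
    refine ⟨t₁, ⟨t', ht, h1, h2, h4⟩, h5, ?_⟩
    have h7 : (c :: W₁).getLastD a = W₁.getLastD c := List.getLastD_cons
    rw [h7]
    exact h6

end FOLD

open FOLD

theorem m_FOLD : Stmt_FOLD := by
  rintro P ε R T b e y₀ s₀ a w₁ w₂ y s t t' he ⟨hbc, hbox, ht, ht', hx, hp, hgen⟩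
  obtain ⟨t₁, h1, h2, h3⟩ := pathT_append w₁ w₂ _ _ t t' a hx hp
  have ha : |((-1 : ℝ)) ^ w₁.length| = 1 := by simp
  have hm : ∀ x x' : ℝ, |(-1 : ℝ) ^ w₁.length * x - (-1 : ℝ) ^ w₁.length * x'| = |x - x'| := by
    intro x x'
    rw [← mul_sub, abs_mul, ha, one_mul]
  have hm1 : ∀ x : ℝ, |(-1 : ℝ) ^ w₁.length * x| = |x| := by
    intro x
    rw [abs_mul, ha, one_mul]
  have h1le := h1.le
  have h2le := h2.le
  refine ⟨⟨t₁, hbc, hbox, ht, h2le.trans ht', hx, h1, ?_⟩, by rw [norm_foldu, he], ?_⟩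
  · intro i hi j
    have h4 := hgen i (by rw [List.length_append]; omega) j
    rw [List.take_append_of_le_length hi] at h4
    exact h4
  · refine ⟨(-1) ^ w₁.length * y, (-1) ^ w₁.length * s, t₁, t', ?_, ?_, by linarith, ht', ?_, ?_, ?_⟩
    · unfold BoxC at hbc ⊢
      rw [hm, hm]; exact hbc
    · unfold Box at hbox ⊢
      rw [hm1, hm1]; exact hbox
    · rw [← fz_lz, ← fu_lu]; exact h3
    · rw [← fz_lz, ← fu_lu]; exact h2
    · intro i hi j h0
      have h4 := hgen (w₁.length + i) (by rw [List.length_append]; omega) j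
      apply h4
      rw [List.take_length_add_append, dev_append, sd_dev, fz_lz, fu_lu, h0, mul_zero]

end Pool.Agent.BCX
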