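import Pool.Agent.BCX.Stmts

/-!
# Every code is followed by a generic line that starts on an open side
-/

open Set Filter Topology Metric MeasureTheory
open scoped ComplexConjugate

namespace Pool.Agent.BCX

open Pool.Agent.Billiard Pool.Agent.Lib_helper45.Bil

namespace M_GENREP

variable {P : Polygon}

/-- A path has an end time. -/
theorem exists_pathT : ∀ {w : List (ZMod P.k)} {z u : ℂ} {t : ℝ}, Path P z u t w →
    ∃ T, PathT P z u t w T := by
  intro w
  induction w with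
  | nil => intro z u t _; exact ⟨t, rfl⟩
  | cons a w ih =>
    rintro z u t ⟨t', ht, h1, h2, h3⟩
    obtain ⟨T, hT⟩ := ih h3
    exact ⟨T, t', ht, h1, h2, hT⟩

/-- Change of the time origin and of the speed. -/
theorem reparam {l : ℝ} (hl : 0 < l) (t₀ : ℝ) : ∀ {w : List (ZMod P.k)} {z u : ℂ} {t T : ℝ},
    PathT P z u t w T →
    PathT P (z + t₀ * u) (((l⁻¹ : ℝ) : ℂ) * u) (l * (t - t₀)) w (l * (T - t₀)) := by
  intro w
  induction w with
  | nil => intro z u t T h; exact congrArg (fun x => l * (x - t₀)) (show T = t from h)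
  | cons a w ih =>
    rintro z u t T ⟨t', ht, h1, h2, h3⟩
    have e : ∀ τ : ℝ, z + t₀ * u + τ * (((l⁻¹ : ℝ) : ℂ) * u) = z + ((t₀ + τ / l : ℝ) : ℂ) * u := by
      intro τ; push_cast; ring
    refine ⟨l * (t' - t₀), by nlinarith, fun τ hτ => ?_, ?_, ?_⟩
    · rw [e]
      apply h1
      constructor
      · have : t - t₀ < τ / l := by rw [lt_div_iff₀ hl]; linarith [hτ.1]
        linarith
      · have : τ / l < t' - t₀ := by rw [div_lt_iff₀ hl]; linarith [hτ.2]
        linarith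
    · rw [e]
      have : t₀ + l * (t' - t₀) / l = t' := by field_simp; ring
      rw [this]; exact h2
    · have h4 := ih h3
      have e1 : refl P a (z + t₀ * u) = refl P a z + t₀ * lrefl P a u := refl_add a z u t₀
      have e2 : lrefl P a (((l⁻¹ : ℝ) : ℂ) * u) = ((l⁻¹ : ℝ) : ℂ) * lrefl P a u :=
        rd_real_mul _ _ _
      rw [e1, e2]; exact h4

theorem sd_reparam (z u q : ℂ) (t₀ l : ℝ) :
    sd (z + t₀ * u) (((l⁻¹ : ℝ) : ℂ) * u) q = l⁻¹ * sd z u q := by
  unfold sd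
  have h : (q - (z + t₀ * u)) * conj (((l⁻¹ : ℝ) : ℂ) * u) =
      ((l⁻¹ : ℝ) : ℂ) * ((q - z) * conj u) - ((l⁻¹ * t₀ : ℝ) : ℂ) * (u * conj u) := by
    rw [map_mul, Complex.conj_ofReal]; push_cast; ring
  rw [h, Complex.sub_im, Complex.mul_conj, ← Complex.ofReal_mul, Complex.ofReal_im,
    Complex.im_ofReal_mul, sub_zero]

/-- The signed height over a displaced line. -/
theorem sd_shift (z u q : ℂ) (σ : ℝ) :
    sd (z + (Complex.I * ((-σ : ℝ) : ℂ)) * u) u q = sd z u q + σ * ‖u‖ ^ 2 := by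
  unfold sd
  have h : (q - (z + (Complex.I * ((-σ : ℝ) : ℂ)) * u)) * conj u =
      (q - z) * conj u + Complex.I * (σ * (u * conj u)) := by
    push_cast; ring
  rw [h, Complex.add_im, Complex.mul_conj, Complex.normSq_eq_norm_sq, ← Complex.ofReal_mul,
    Complex.I_mul_im, Complex.ofReal_re]

end M_GENREP

open M_GENREP in
theorem m_GENREP : Stmt_GENREP := by
  intro P w hw
  obtain ⟨c, hc⟩ := left_ext hw
  obtain ⟨z, u, t, hu, hU, hp⟩ := isCode_iff.1 hc
  have hcont : Continuous fun σ : ℝ => (z + (Complex.I * (σ : ℂ)) * u, u) := by fun_prop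
  have hev1 : ∀ᶠ σ : ℝ in 𝓝 0, Path P (z + (Complex.I * (σ : ℂ)) * u) u t (c :: w) := by
    have := hcont.tendsto 0
    simp only [Complex.ofReal_zero, mul_zero, zero_mul, add_zero] at this
    exact this.eventually (hp.eventually hU)
  set Z := refl P c z with hZ
  set V := lrefl P c u with hV
  have hV0 : V ≠ 0 := lrefl_ne_zero c hu
  have hVn : 0 < ‖V‖ := norm_pos_iff.2 hV0
  have hbad : ∀ q : ℂ, ∀ᶠ σ : ℝ in 𝓝[>] 0, sd Z V q + σ * ‖V‖ ^ 2 ≠ 0 := by
    intro q
    by_cases h : sd Z V q = 0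
    · filter_upwards [self_mem_nhdsWithin] with σ hσ
      rw [h, zero_add]
      exact (mul_pos hσ (by positivity)).ne'
    · have h1 : ∀ᶠ σ : ℝ in 𝓝 0, sd Z V q + σ * ‖V‖ ^ 2 ≠ 0 := by
        have hcc : Continuous fun σ : ℝ => sd Z V q + σ * ‖V‖ ^ 2 := by fun_prop
        have h2 := hcc.tendsto 0
        simp only [zero_mul, add_zero] at h2
        exact h2.eventually (isOpen_ne.mem_nhds h)
      exact h1.filter_mono (nhdsWithin_le_nhds (s := Ioi 0))
  have hev2 : ∀ᶠ σ : ℝ in 𝓝[>] 0, ∀ i : Fin (w.length + 1), ∀ j : ZMod P.k,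
      sd Z V (dev P (w.take i) (P.vertex j)) + σ * ‖V‖ ^ 2 ≠ 0 := by
    rw [eventually_all]
    intro i
    rw [eventually_all]
    intro j
    exact hbad _
  obtain ⟨σ, h1, h2⟩ := ((hev1.filter_mono (nhdsWithin_le_nhds (s := Ioi 0))).and hev2).exists
  obtain ⟨t', ht', hU', hrel, hp'⟩ := h1
  obtain ⟨T, hT⟩ := exists_pathT hp'
  have hZ' : refl P c (z + (Complex.I * (σ : ℂ)) * u) = Z + (Complex.I * ((-σ : ℝ) : ℂ)) * V := by
    rw [refl_add', hZ, hV]
    congr 1
    have h3 : lrefl P c (Complex.I * (σ : ℂ) * u) = conj (Complex.I * (σ : ℂ)) * lrefl P c u :=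
      rd_mul _ _ _
    rw [h3, map_mul, Complex.conj_I, Complex.conj_ofReal]
    push_cast; ring
  have hT' := reparam (P := P) hVn t' hT
  rw [sub_self, mul_zero] at hT'
  refine ⟨c, refl P c (z + (Complex.I * (σ : ℂ)) * u) + t' * V, ((‖V‖⁻¹ : ℝ) : ℂ) * V,
    ‖V‖ * (T - t'), ?_, ?_, hT', ?_⟩
  · rw [norm_mul, Complex.norm_real, Real.norm_eq_abs, abs_of_pos (inv_pos.2 hVn)]
    exact inv_mul_cancel₀ hVn.ne'
  · rw [hV, refl_line hrel]; exact hrel
  · intro i hi j
    rw [sd_reparam, hZ', sd_shift]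
    exact mul_ne_zero (inv_pos.2 hVn).ne' (h2 ⟨i, by omega⟩ j)

end Pool.Agent.BCX
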