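import Pool.Agent.BCX.Stmts3
import Pool.Agent.BCX.GENREP

/-!
# Codes and generic lines
-/

open Set Filter Topology Metric MeasureTheory
open scoped ComplexConjugate

namespace Pool.Agent.BCX

open Pool.Agent.Billiard Pool.Agent.Lib_helper45.Bil

theorem m_GREP : Stmt_GENREP → Stmt_GREP := by
  intro hG
  refine ⟨fun P a w hw => ?_, fun P a w z u t t' hw h => ?_⟩
  · obtain ⟨c, p, v, T, hv, -, hp, hg⟩ := hG P (a :: w) hw
    have hv0 : v ≠ 0 := by
      intro h0
      rw [h0, norm_zero] at hv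
      exact zero_ne_one hv
    obtain ⟨s, _, _, hr, hp'⟩ := hp
    refine ⟨Lib_helper45.Bil.refl P a p, lrefl P a v, s, T, lrefl_ne_zero a hv0, ?_, hp', ?_⟩
    · rw [refl_line hr]
      exact hr
    · rw [refl_refl, lrefl_lrefl]
      exact hg
  · obtain ⟨hu, hr, hp, -⟩ := h
    match w, hw, hp with
    | b :: w', _, hp =>
      obtain ⟨t₁, ht, hU, hr', hp'⟩ := hp
      refine cons_code (T := (t₁ - t) / 2) hu (by linarith) hr (fun τ hτ => hU τ ⟨hτ.1, ?_⟩) ?_
      · have := hτ.2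
        linarith
      · exact ⟨t₁, by linarith, fun τ hτ => hU τ ⟨by linarith [hτ.1], hτ.2⟩, hr', hp'.path⟩

end Pool.Agent.BCX
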