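import Pool.Agent.BCX.Stmts3
import Pool.Agent.BCX.FOLD

/-!
# Words in which the first half dominates: counting
-/

open Set Filter Topology Metric MeasureTheory
open scoped ComplexConjugate

namespace Pool.Agent.BCX

open Pool.Agent.Billiard Pool.Agent.Lib_helper45.Bil

namespace HALF

variable {P : Polygon}

theorem foldu_real_mul (W : List (ZMod P.k)) : ∀ (x : ℝ) (u : ℂ),
    foldu P W (x * u) = x * foldu P W u := by
  induction W with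
  | nil => intro x u; rfl
  | cons a W ih =>
    intro x u
    simp only [foldu]
    rw [lrefl_mul, Complex.conj_ofReal, ih]

theorem ld_inv {z u : ℂ} (x : ℝ) {l : ℝ} (hl : 0 < l) (q : ℂ) :
    ld (z + x * u) (l * u) q = ld z u q := by
  unfold ld
  have h1 : sd (z + x * u) (l * u) q = l * sd z u q := by
    unfold sd
    have e1 : (q - (z + x * u)) * conj ((l : ℂ) * u) =
        (l : ℂ) * ((q - z) * conj u) - ((l * x * Complex.normSq u : ℝ) : ℂ) := by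
      rw [map_mul, Complex.conj_ofReal]
      push_cast
      rw [← Complex.mul_conj]
      ring
    rw [e1, Complex.sub_im, Complex.ofReal_im, Complex.im_ofReal_mul]
    ring
  rw [h1, norm_mul, Complex.norm_real, Real.norm_eq_abs, abs_mul, abs_of_pos hl,
    mul_div_mul_left _ _ hl.ne']

theorem Bad_inv {Λ : ℝ} {z u : ℂ} (x : ℝ) {l : ℝ} (hl : 0 < l) (w : List (ZMod P.k)) (d : ℝ) :
    Bad P Λ (z + x * u) (l * u) w d ↔ Bad P Λ z u w d := by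
  unfold Bad
  simp only [ld_inv x hl]

theorem Dom_inv {Λ : ℝ} {z u : ℂ} (x : ℝ) {l : ℝ} (hl : 0 < l) {w₁ w₂ : List (ZMod P.k)}
    (h : Dom P Λ z u w₁ w₂) : Dom P Λ (z + x * u) (l * u) w₁ w₂ := by
  obtain ⟨d, h0, h1, h2⟩ := h
  refine ⟨d, h0, (Bad_inv x hl _ _).2 h1, fun d' hd' h3 => h2 d' hd' ?_⟩
  rw [foldz_add, foldu_real_mul, foldu_real_mul, Bad_inv x hl] at h3
  exact h3

theorem Rz_fst {a : ZMod P.k} {w₁ w₂ : List (ZMod P.k)} {z u : ℂ} {t t' : ℝ}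
    (h : Rz P a (w₁ ++ w₂) z u t t') : ∃ t₁ : ℝ, Rz P a w₁ z u t t₁ := by
  obtain ⟨h0, h1, h2, h3⟩ := h
  obtain ⟨t₁, h4, -, -⟩ := FOLD.pathT_append w₁ w₂ _ _ _ _ a h1 h2
  refine ⟨t₁, h0, h1, h4, ?_⟩
  intro i hi j
  have hi' : i ≤ (a :: (w₁ ++ w₂)).length := by
    simp only [List.length_cons, List.length_append] at hi ⊢
    omega
  have h5 := h3 i hi' j
  have e1 : (a :: (w₁ ++ w₂)).take i = (a :: w₁).take i := by
    rw [← List.cons_append, List.take_append_of_le_length hi]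
  rw [e1] at h5
  exact h5

/-- The number of elements of a set covered by pieces of bounded size. -/
theorem ncard_cover {α β : Type} {S : Set α} (I : Finset β) (f : β → Set α) (K : ℕ)
    (hf : ∀ i ∈ I, (f i).Finite) (hK : ∀ i ∈ I, (f i).ncard ≤ K) (hS : S ⊆ ⋃ i ∈ I, f i) :
    S.ncard ≤ I.card * K := by
  classical
  have hfin : (⋃ i ∈ I, f i).Finite := Set.Finite.biUnion (Finset.finite_toSet I) hf
  have h1 : ∀ J : Finset β, (∀ i ∈ J, (f i).Finite) → (∀ i ∈ J, (f i).ncard ≤ K) →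
      (⋃ i ∈ J, f i).ncard ≤ J.card * K := by
    intro J
    induction J using Finset.induction_on with
    | empty => intro _ _; simp
    | insert i J hi ih =>
      intro h2 h3
      rw [Finset.set_biUnion_insert, Finset.card_insert_of_notMem hi]
      calc _ ≤ (f i).ncard + (⋃ i ∈ J, f i).ncard := Set.ncard_union_le _ _
        _ ≤ K + J.card * K := Nat.add_le_add (h3 i (Finset.mem_insert_self _ _))
            (ih (fun j hj => h2 j (Finset.mem_insert_of_mem hj))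
              (fun j hj => h3 j (Finset.mem_insert_of_mem hj)))
        _ = (J.card + 1) * K := by ring
  exact (Set.ncard_le_ncard hS hfin).trans (h1 I hf hK)

/-- Frame, code, stages, vertices, choice, grid point. -/
abbrev Ix (P : Polygon) (m : ℕ) : Type := (ℂ × ℂ) × (List (ZMod P.k) ×
  ((Fin m × (Fin m × Fin m)) × ((ZMod P.k × (ZMod P.k × ZMod P.k)) × (Bool × (ℤ × ℤ)))))

/-- Arithmetic. -/
theorem arith {D c CN : ℝ} {CU k m G X NF : ℕ} (hD : 1 ≤ D) (hc : 40 ≤ c) (hCN : 1 ≤ CN)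
    (hm : 1 ≤ m)
    (hNF : (NF : ℝ) ≤ CN * (2 * m * D + 2 + D + 1) ^ 4)
    (hG : (G : ℝ) ≤ 16896 * (c * (m + 2)) ^ 2 * (2 * m * D + 2 + D + 1) * (m + 2) * D + 1) :
    ((NF * (X * ((m * (m * m)) * ((k * (k * k)) * (2 * ((2 * G + 1) * (2 * G + 1)))))) *
      (CU * m ^ 2) : ℕ) : ℝ) ≤
      (1296 * CN * D ^ 4 * k ^ 3 * 2 * (2 * 16896 * 162 * c ^ 2 * D ^ 2 + 3) ^ 2 * CU) *
        (m : ℝ) ^ 17 * X := by
  have hm1 : (1 : ℝ) ≤ m := by exact_mod_cast hm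
  have hR : 2 * m * D + 2 + D + 1 ≤ 6 * (D * m) := by nlinarith
  have hR0 : 0 ≤ 2 * m * D + 2 + D + 1 := by positivity
  have h2 : (m : ℝ) + 2 ≤ 3 * m := by linarith
  have hNF' : (NF : ℝ) ≤ 1296 * CN * D ^ 4 * (m : ℝ) ^ 4 := by
    calc (NF : ℝ) ≤ CN * (2 * m * D + 2 + D + 1) ^ 4 := hNF
      _ ≤ CN * (6 * (D * m)) ^ 4 := by gcongr
      _ = _ := by ring
  have hG' : ((2 * G + 1 : ℕ) : ℝ) ≤ (2 * 16896 * 162 * c ^ 2 * D ^ 2 + 3) * (m : ℝ) ^ 4 := by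
    have h4 : (1 : ℝ) ≤ (m : ℝ) ^ 4 := one_le_pow₀ hm1
    have h5 : 16896 * (c * ((m : ℝ) + 2)) ^ 2 * (2 * m * D + 2 + D + 1) * (m + 2) * D ≤
        16896 * (c * (3 * m)) ^ 2 * (6 * (D * m)) * (3 * m) * D := by gcongr
    push_cast
    calc 2 * (G : ℝ) + 1 ≤ 2 * (16896 * (c * (m + 2)) ^ 2 * (2 * m * D + 2 + D + 1) * (m + 2) * D
          + 1) + 1 := by linarith
      _ ≤ 2 * (16896 * (c * (3 * m)) ^ 2 * (6 * (D * m)) * (3 * m) * D + 1) + 1 := by linarith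
      _ = 2 * 16896 * 162 * c ^ 2 * D ^ 2 * (m : ℝ) ^ 4 + 3 := by ring
      _ ≤ 2 * 16896 * 162 * c ^ 2 * D ^ 2 * (m : ℝ) ^ 4 + 3 * (m : ℝ) ^ 4 := by linarith
      _ = _ := by ring
  have hc0 : 0 ≤ c := by linarith
  have hD0 : 0 ≤ D := by linarith
  have hC0 : 0 ≤ CN := by linarith
  have e1 : ((NF * (X * ((m * (m * m)) * ((k * (k * k)) * (2 * ((2 * G + 1) * (2 * G + 1)))))) *
      (CU * m ^ 2) : ℕ) : ℝ) = (NF : ℝ) * ((2 * G + 1 : ℕ) : ℝ) ^ 2 *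
        (X * (m : ℝ) ^ 5 * (k : ℝ) ^ 3 * 2 * CU) := by
    push_cast
    ring
  rw [e1]
  calc (NF : ℝ) * ((2 * G + 1 : ℕ) : ℝ) ^ 2 * (X * (m : ℝ) ^ 5 * (k : ℝ) ^ 3 * 2 * CU)
      ≤ (1296 * CN * D ^ 4 * (m : ℝ) ^ 4) *
          ((2 * 16896 * 162 * c ^ 2 * D ^ 2 + 3) * (m : ℝ) ^ 4) ^ 2 *
          (X * (m : ℝ) ^ 5 * (k : ℝ) ^ 3 * 2 * CU) := by gcongr
    _ = _ := by ring

end HALF

open HALF

theorem m_HALF : Stmt_NET → Stmt_SUBBOX → Stmt_UNP2 → Stmt_GREP → Stmt_HALF := by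
  intro hN hS hU hGR P D M hD c hc
  classical
  have : NeZero P.k := ⟨by have := P.three_le; omega⟩
  obtain ⟨CN, hCN, hN'⟩ := hN P D M hD
  obtain ⟨CU, hCU, hU'⟩ := hU P D M hD
  have hD1 : 1 ≤ D := hD.1
  set K₀ : ℝ := 1296 * CN * D ^ 4 * P.k ^ 3 * 2 *
    (2 * 16896 * 162 * c ^ 2 * D ^ 2 + 3) ^ 2 * CU with hK₀
  refine ⟨⌈K₀⌉₊ + 17, fun m hm => ?_⟩
  have hm1 : (1 : ℝ) ≤ m := by exact_mod_cast hm
  set Λ : ℝ := c * (m + 2) with hΛ
  set T : ℝ := 2 * m * D + 2 with hT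
  set R : ℝ := T + D + 1 with hR
  set G : ℕ := ⌈16896 * Λ ^ 2 * R * (m + 2) * D⌉₊ with hG
  have hΛ40 : 40 * ((m : ℝ) + 2) ≤ Λ := by rw [hΛ]; nlinarith
  have hΛ1 : 1 ≤ Λ := by nlinarith
  have hT0 : 0 ≤ T := by rw [hT]; positivity
  have hG1 : 16896 * Λ ^ 2 * R * (m + 2) * D ≤ G := Nat.le_ceil _
  have hR0 : 0 ≤ R := by rw [hR]; linarith
  have hG2 : (G : ℝ) ≤ 16896 * Λ ^ 2 * R * (m + 2) * D + 1 := by
    apply (Nat.ceil_lt_add_one _).le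
    positivity
  obtain ⟨F, hF1, hF2, hF3⟩ := hN' (2 * m) R T (by rw [hT]; push_cast; linarith)
    (by rw [hR]; linarith)
  -- pieces
  let q₁ : Ix P m → ℂ := fun x => dev P (x.2.1.tail.take x.2.2.1.1) (P.vertex x.2.2.2.1.1)
  let q₂ : Ix P m → ℂ := fun x => dev P (x.2.1.tail.take x.2.2.1.2.1) (P.vertex x.2.2.2.1.2.1)
  let q₃ : Ix P m → ℂ := fun x => dev P (x.2.1.tail.take x.2.2.1.2.2) (P.vertex x.2.2.2.1.2.2)
  let q' : Ix P m → ℂ := fun x => if x.2.2.2.2.1 then q₂ x else q₃ x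
  let χ : Ix P m → ℝ := fun x => |cr (q₂ x - q₁ x) (q₃ x - q₁ x)|
  let ε₂ : Ix P m → ℝ := fun x => χ x / (64 * (m + 2) * D)
  let y₀ : Ix P m → ℝ := fun x => cy x.1.1 x.1.2 (q₁ x) (q' x) + x.2.2.2.2.2.1 * (ε₂ x / 2)
  let s₀ : Ix P m → ℝ := fun x => cs x.1.1 x.1.2 (q₁ x) (q' x) + x.2.2.2.2.2.2 * (ε₂ x / (2 * R))
  let U : Ix P m → Set (List (ZMod P.k)) := fun x =>
    {w : List (ZMod P.k) | w.length = m ∧ ∃ y s t t',
      RealAtC P (ε₂ x) R T (foldz P x.2.1.tail x.1.1) (foldu P x.2.1.tail x.1.2)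
        ((-1) ^ m * y₀ x) ((-1) ^ m * s₀ x) (x.2.1.tail.getLastD (x.2.1.headD 0)) w y s t t' ∧
      Good P Λ (ε₂ x) (foldz P x.2.1.tail x.1.1) (foldu P x.2.1.tail x.1.2)
        ((-1) ^ m * y₀ x) ((-1) ^ m * s₀ x) y s w}
  let f : Ix P m → Set (List (ZMod P.k)) := fun x => (fun w₂ => x.2.1 ++ w₂) '' U x
  have hUfin : ∀ x, (U x).Finite := fun x =>
    (List.finite_length_eq (ZMod P.k) m).subset fun _ h => h.1
  have hWfin : {w : List (ZMod P.k) | w.length = m + 1 ∧ P.IsCode w}.Finite :=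
    (List.finite_length_eq (ZMod P.k) (m + 1)).subset fun _ h => h.1
  let I : Finset (Ix P m) := F ×ˢ (hWfin.toFinset ×ˢ
    ((Finset.univ : Finset (Fin m × (Fin m × Fin m))) ×ˢ
      ((Finset.univ : Finset (ZMod P.k × (ZMod P.k × ZMod P.k))) ×ˢ
        ((Finset.univ : Finset Bool) ×ˢ
          (Finset.Icc (-(G : ℤ)) (G : ℤ) ×ˢ Finset.Icc (-(G : ℤ)) (G : ℤ))))))
  have hpiece : ∀ x ∈ I, (f x).ncard ≤ CU * m ^ 2 := by
    intro x hx
    have hxF : x.1 ∈ F := (Finset.mem_product.1 hx).1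
    refine (Set.ncard_image_le (hUfin x)).trans ?_
    apply hU' m Λ (ε₂ x) R T hm hΛ40 hT0 le_rfl
    rw [norm_foldu]
    exact hF2 x.1 hxF
  have hcover : {W : List (ZMod P.k) | ∃ (a : ZMod P.k) (w₁ w₂ : List (ZMod P.k)) (z u : ℂ)
      (t t' : ℝ), W = a :: (w₁ ++ w₂) ∧ w₁.length = m ∧ w₂.length = m ∧
      Rz P a (w₁ ++ w₂) z u t t' ∧ Dom P Λ z u w₁ w₂} ⊆ ⋃ x ∈ I, f x := by
    rintro W ⟨a, w₁, w₂, z, u, t, t', rfl, hw1, hw2, hRz, hDom⟩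
    have hlen : (w₁ ++ w₂).length = 2 * m := by
      rw [List.length_append, hw1, hw2]; ring
    obtain ⟨p, hp, y, s, t₁, t₁', x, l, hl, hz, hu, hreal⟩ := hF3 a (w₁ ++ w₂) z u t t' hlen hRz
    have hDom' : Dom P Λ (lz p.1 p.2 y) (lu p.2 s) w₁ w₂ := by
      rw [hz, hu]
      exact Dom_inv x hl hDom
    obtain ⟨l₁, hl1, l₂, hl2, l₃, hl3, j₁, j₂, j₃, g, i, j, hi, hj, hall⟩ :=
      hS P D M hD m G Λ R T p.1 p.2 a w₁ w₂ y s t₁ t₁' hm hw1 hw2 hΛ1 hT0 le_rfl (hF2 p hp)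
        hG1 hreal hDom'
    obtain ⟨r, hr⟩ := Rz_fst hRz
    have hcode : P.IsCode (a :: w₁) := by
      apply hGR.2 P a w₁ z u t r _ hr
      intro h0
      rw [h0, List.length_nil] at hw1
      omega
    let X : Ix P m := (p, (a :: w₁, ((⟨l₁, hl1⟩, (⟨l₂, hl2⟩, ⟨l₃, hl3⟩)),
      ((j₁, (j₂, j₃)), (g, (i, j))))))
    rw [Set.mem_iUnion₂]
    refine ⟨X, ?_, w₂, ?_, ?_⟩
    · simp only [I, X, Finset.mem_product, Finset.mem_univ, true_and, Set.Finite.mem_toFinset,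
        Set.mem_ofPred_eq, Finset.mem_Icc]
      refine ⟨hp, ⟨by simp [hw1], hcode⟩, ?_, ?_⟩
      · rw [abs_le] at hi
        exact hi
      · rw [abs_le] at hj
        exact hj
    · obtain ⟨-, y', s', τ, τ', h1, h2⟩ := hall (q₁ X) (q₂ X) (q₃ X) (q' X) (χ X) (ε₂ X)
        (y₀ X) (s₀ X) rfl rfl rfl rfl rfl rfl rfl rfl
      exact ⟨hw2, y', s', τ, τ', h1, h2⟩
    · rfl
  have hcard : I.card = F.card * (P.complexity (m + 1) * ((m * (m * m)) *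
      ((P.k * (P.k * P.k)) * (2 * ((2 * G + 1) * (2 * G + 1)))))) := by
    simp only [I, Finset.card_product, Finset.card_univ, Fintype.card_prod, Fintype.card_fin,
      ZMod.card, Fintype.card_bool, Int.card_Icc]
    have e1 : ((G : ℤ) + 1 - -(G : ℤ)).toNat = 2 * G + 1 := by omega
    rw [e1]
    have e2 : hWfin.toFinset.card = P.complexity (m + 1) :=
      (Set.ncard_eq_toFinset_card _ hWfin).symm
    rw [e2]
  have h1 := ncard_cover I f (CU * m ^ 2) (fun x _ => (hUfin x).image _) hpiece hcover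
  rw [hcard] at h1
  have h2 : ((F.card : ℕ) : ℝ) ≤ CN * (2 * m * D + 2 + D + 1) ^ 4 := hF1
  have h3 := arith (CU := CU) (k := P.k) (X := P.complexity (m + 1)) hD1 hc hCN hm h2 hG2
  have h4 : (({W : List (ZMod P.k) | ∃ (a : ZMod P.k) (w₁ w₂ : List (ZMod P.k)) (z u : ℂ)
      (t t' : ℝ), W = a :: (w₁ ++ w₂) ∧ w₁.length = m ∧ w₂.length = m ∧
      Rz P a (w₁ ++ w₂) z u t t' ∧ Dom P Λ z u w₁ w₂}.ncard : ℕ) : ℝ) ≤
      (((⌈K₀⌉₊ + 17) * m ^ (⌈K₀⌉₊ + 17) * P.complexity (m + 1) : ℕ) : ℝ) := by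
    calc _ ≤ _ := Nat.cast_le.2 h1
      _ ≤ _ := h3
      _ ≤ _ := by
        rw [← hK₀]
        push_cast
        have h5 : K₀ ≤ (⌈K₀⌉₊ : ℝ) + 17 := by linarith [Nat.le_ceil K₀]
        have h6 : (m : ℝ) ^ 17 ≤ (m : ℝ) ^ (⌈K₀⌉₊ + 17) := pow_le_pow_right₀ hm1 (by omega)
        have h7 : 0 ≤ K₀ := by positivity
        gcongr
  exact_mod_cast h4

end Pool.Agent.BCX
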