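import Pool.Agent.BCX.Stmts

/-!
# Local constancy of the code along a family of lines that meets no unfolded vertex
-/

open Set Filter Topology Metric
open scoped ComplexConjugate

namespace Pool.Agent.BCX

open Pool.Agent.Billiard Pool.Agent.Lib_helper45.Bil

namespace LCaux

variable {P : Polygon}

/-! ### Crossings of one line with the sides -/

theorem sd_affine (z u q d : ℂ) (l : ℝ) : sd z u (q + l * d) = sd z u q + l * (d * conj u).im := by
  unfold sd
  have : (q + l * d - z) * conj u = (q - z) * conj u + l * (d * conj u) := by ring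
  rw [this, Complex.add_im, Complex.im_ofReal_mul]

theorem sd_on_line (z u : ℂ) (τ : ℝ) : sd z u (z + τ * u) = 0 := by
  unfold sd
  have : (z + τ * u - z) * conj u = (τ : ℂ) * (u * conj u) := by ring
  rw [this, Complex.mul_conj]
  simp

theorem dir_cross (z u : ℂ) (i : ZMod P.k) :
    (dir P i * conj u).im = sd z u (P.vertex (i + 1)) - sd z u (P.vertex i) := by
  unfold sd dir
  rw [← Complex.sub_im]
  congr 1
  ring

theorem tr_eq (z u : ℂ) (i : ZMod P.k) :
    tr P i u = sd z u (P.vertex i) - sd z u (P.vertex (i + 1)) := by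
  unfold tr
  rw [cross_swap, dir_cross z u i]
  ring

theorem sd_side (z u : ℂ) (i : ZMod P.k) (l : ℝ) :
    sd z u (P.vertex i + l * dir P i) =
      (1 - l) * sd z u (P.vertex i) + l * sd z u (P.vertex (i + 1)) := by
  rw [sd_affine, dir_cross z u i]
  ring

theorem of_cross {z u : ℂ} {i : ZMod P.k} {τ : ℝ} (h0 : sd z u (P.vertex i) ≠ 0)
    (h : z + τ * u ∈ rel P i) :
    sd z u (P.vertex i) * sd z u (P.vertex (i + 1)) < 0 ∧ ct P i (z, u) = τ := by
  obtain ⟨l, hl0, hl1, hl⟩ := mem_rel_iff.1 h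
  have h1 := sd_on_line z u τ
  rw [hl, sd_side] at h1
  have h2 : sd z u (P.vertex i) * sd z u (P.vertex (i + 1)) < 0 := by
    have h3 : l * (sd z u (P.vertex i) * sd z u (P.vertex (i + 1))) =
        -((1 - l) * (sd z u (P.vertex i) * sd z u (P.vertex i))) := by
      linear_combination sd z u (P.vertex i) * h1
    have h4 : 0 < (1 - l) * (sd z u (P.vertex i) * sd z u (P.vertex i)) :=
      mul_pos (by linarith) (mul_self_pos.2 h0)
    have h5 : l * (sd z u (P.vertex i) * sd z u (P.vertex (i + 1))) < 0 := by linarith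
    by_contra h6
    push Not at h6
    have := mul_nonneg hl0.le h6
    linarith
  refine ⟨h2, ?_⟩
  have htr : tr P i u ≠ 0 := by
    rw [tr_eq z u i]
    intro h3
    have h4 : sd z u (P.vertex i) = sd z u (P.vertex (i + 1)) := by linarith
    rw [← h4] at h2
    exact absurd h2 (not_lt.2 (mul_self_nonneg _))
  have hH := H_of_mem_rel h
  rw [H_add] at hH
  unfold ct
  rw [div_eq_iff htr]
  linarith

theorem tr_ne_of {z u : ℂ} {i : ZMod P.k}
    (h : sd z u (P.vertex i) * sd z u (P.vertex (i + 1)) < 0) : tr P i u ≠ 0 := by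
  rw [tr_eq z u i]
  intro h3
  have h4 : sd z u (P.vertex i) = sd z u (P.vertex (i + 1)) := by linarith
  rw [← h4] at h
  exact absurd h (not_lt.2 (mul_self_nonneg _))

theorem to_cross {z u : ℂ} {i : ZMod P.k}
    (h : sd z u (P.vertex i) * sd z u (P.vertex (i + 1)) < 0) :
    z + ct P i (z, u) * u ∈ rel P i := by
  have htr := tr_ne_of h
  set q := z + (ct P i (z, u) : ℂ) * u with hq
  have hH : H P i q = 0 := by
    rw [hq, H_add]
    unfold ct
    field_simp
    ring
  have h1 := eq_line hH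
  have h2 := sd_on_line z u (ct P i (z, u))
  rw [← hq, h1, sd_side] at h2
  refine mem_rel_iff'.2 ⟨hH, ?_⟩
  set x := sd z u (P.vertex i)
  set y := sd z u (P.vertex (i + 1))
  set κ := K P i q
  have hx : x ≠ 0 := by rintro h3; rw [h3, zero_mul] at h; exact lt_irrefl _ h
  have hy : y ≠ 0 := by rintro h3; rw [h3, mul_zero] at h; exact lt_irrefl _ h
  have hxx : 0 < x * x := mul_self_pos.2 hx
  have hyy : 0 < y * y := mul_self_pos.2 hy
  -- `κ (x - y) = x`
  have h3 : κ * (x * x - x * y) = x * x := by linear_combination -x * h2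
  have h4 : (1 - κ) * (y * y - x * y) = y * y := by linear_combination -y * h2
  constructor
  · by_contra h5
    push Not at h5
    have : κ * (x * x - x * y) ≤ 0 := mul_nonpos_of_nonpos_of_nonneg h5 (by linarith)
    linarith
  · by_contra h5
    push Not at h5
    have : (1 - κ) * (y * y - x * y) ≤ 0 :=
      mul_nonpos_of_nonpos_of_nonneg (by linarith) (by linarith)
    linarith

/-! ### Signs along a family -/

theorem sign_const {f : ℝ → ℝ} (hf : ContinuousOn f (Icc 0 1))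
    (h : ∀ r ∈ Icc (0 : ℝ) 1, f r ≠ 0) {r s : ℝ} (hr : r ∈ Icc (0 : ℝ) 1)
    (hs : s ∈ Icc (0 : ℝ) 1) : 0 < f r * f s := by
  have hoc := (isPreconnected_Icc.image f hf).ordConnected
  have h1 : f r ∈ f '' Icc (0 : ℝ) 1 := ⟨r, hr, rfl⟩
  have h2 : f s ∈ f '' Icc (0 : ℝ) 1 := ⟨s, hs, rfl⟩
  have h0 : (0 : ℝ) ∉ f '' Icc (0 : ℝ) 1 := by
    rintro ⟨x, hx, hfx⟩
    exact h x hx hfx
  have hr0 := h r hr
  have hs0 := h s hs
  rcases lt_or_gt_of_ne hr0 with h3 | h3 <;> rcases lt_or_gt_of_ne hs0 with h4 | h4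
  · exact mul_pos_of_neg_of_neg h3 h4
  · exact absurd (hoc.out h1 h2 ⟨h3.le, h4.le⟩) h0
  · exact absurd (hoc.out h2 h1 ⟨h4.le, h3.le⟩) h0
  · exact mul_pos h3 h4

variable {z u : ℝ → ℂ}

theorem sd_cont (hz : Continuous z) (hu : Continuous u) (q : ℂ) :
    Continuous fun r => sd (z r) (u r) q := by
  unfold sd
  fun_prop

/-- The set of crossed sides does not depend on the line of the family. -/
theorem crossed (hz : Continuous z) (hu : Continuous u)
    (hg : ∀ r ∈ Icc (0 : ℝ) 1, ∀ j, sd (z r) (u r) (P.vertex j) ≠ 0) {i : ZMod P.k} {r s : ℝ}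
    (hr : r ∈ Icc (0 : ℝ) 1) (hs : s ∈ Icc (0 : ℝ) 1)
    (h : sd (z r) (u r) (P.vertex i) * sd (z r) (u r) (P.vertex (i + 1)) < 0) :
    sd (z s) (u s) (P.vertex i) * sd (z s) (u s) (P.vertex (i + 1)) < 0 := by
  have h1 := sign_const (sd_cont hz hu (P.vertex i)).continuousOn (fun r hr => hg r hr i) hr hs
  have h2 := sign_const (sd_cont hz hu (P.vertex (i + 1))).continuousOn
    (fun r hr => hg r hr (i + 1)) hr hs
  have h3 := mul_pos h1 h2
  by_contra h4
  push Not at h4
  have h5 : (sd (z r) (u r) (P.vertex i) * sd (z r) (u r) (P.vertex (i + 1))) *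
      (sd (z s) (u s) (P.vertex i) * sd (z s) (u s) (P.vertex (i + 1))) ≤ 0 :=
    mul_nonpos_of_nonpos_of_nonneg h.le h4
  linarith

theorem ct_cont (hz : Continuous z) (hu : Continuous u)
    (hg : ∀ r ∈ Icc (0 : ℝ) 1, ∀ j, sd (z r) (u r) (P.vertex j) ≠ 0) {i : ZMod P.k}
    (h : sd (z 0) (u 0) (P.vertex i) * sd (z 0) (u 0) (P.vertex (i + 1)) < 0) :
    ContinuousOn (fun r => ct P i (z r, u r)) (Icc 0 1) := by
  unfold ct
  apply ContinuousOn.div
  · exact ((continuous_H i).comp hz).neg.continuousOn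
  · exact ((continuous_tr i).comp hu).continuousOn
  · intro r hr
    exact tr_ne_of (crossed hz hu hg (by simp) hr h)

/-- Different crossed sides are crossed in the same order by all lines. -/
theorem order (hz : Continuous z) (hu : Continuous u)
    (hg : ∀ r ∈ Icc (0 : ℝ) 1, ∀ j, sd (z r) (u r) (P.vertex j) ≠ 0) {i j : ZMod P.k} (hij : i ≠ j)
    (hi : sd (z 0) (u 0) (P.vertex i) * sd (z 0) (u 0) (P.vertex (i + 1)) < 0)
    (hj : sd (z 0) (u 0) (P.vertex j) * sd (z 0) (u 0) (P.vertex (j + 1)) < 0) {r s : ℝ}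
    (hr : r ∈ Icc (0 : ℝ) 1) (hs : s ∈ Icc (0 : ℝ) 1)
    (h : ct P i (z r, u r) < ct P j (z r, u r)) : ct P i (z s, u s) < ct P j (z s, u s) := by
  have hc : ContinuousOn (fun r => ct P j (z r, u r) - ct P i (z r, u r)) (Icc 0 1) :=
    (ct_cont hz hu hg hj).sub (ct_cont hz hu hg hi)
  have hne : ∀ r ∈ Icc (0 : ℝ) 1, ct P j (z r, u r) - ct P i (z r, u r) ≠ 0 := by
    intro r hr h0
    have h1 := to_cross (crossed hz hu hg (by simp) hr hi)
    have h2 := to_cross (crossed hz hu hg (by simp) hr hj)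
    rw [sub_eq_zero.1 h0] at h2
    exact hij (rel_unique h1 h2)
  have h1 := sign_const hc hne hr hs
  have h2 : 0 < ct P j (z r, u r) - ct P i (z r, u r) := by linarith
  have h3 := pos_of_mul_pos_of_pos_left' h1 h2
  linarith
  where
  pos_of_mul_pos_of_pos_left' {x y : ℝ} (h : 0 < x * y) (hx : 0 < x) : 0 < y := by
    by_contra hy
    push Not at hy
    have := mul_nonpos_of_nonneg_of_nonpos hx.le hy
    linarith

/-- One step. -/
theorem step (hz : Continuous z) (hu : Continuous u)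
    (hg : ∀ r ∈ Icc (0 : ℝ) 1, ∀ j, sd (z r) (u r) (P.vertex j) ≠ 0) {a c : ZMod P.k} {t t' : ℝ}
    (htt : t < t') (ha : z 0 + t * u 0 ∈ rel P a) (hU : ∀ τ ∈ Ioo t t', z 0 + τ * u 0 ∈ U P)
    (hc : z 0 + t' * u 0 ∈ rel P c) :
    ∃ s s' : ℝ, s < s' ∧ z 1 + s * u 1 ∈ rel P a ∧ (∀ τ ∈ Ioo s s', z 1 + τ * u 1 ∈ U P) ∧
      z 1 + s' * u 1 ∈ rel P c := by
  have h0 : (0 : ℝ) ∈ Icc (0 : ℝ) 1 := by simp
  have h1 : (1 : ℝ) ∈ Icc (0 : ℝ) 1 := by simp
  have hac : a ≠ c := side_ne htt ha hU hc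
  obtain ⟨hsa, hta⟩ := of_cross (hg 0 h0 a) ha
  obtain ⟨hsc, htc⟩ := of_cross (hg 0 h0 c) hc
  have hca := ct_cont hz hu hg hsa
  have hcc := ct_cont hz hu hg hsc
  have hlt : ∀ r ∈ Icc (0 : ℝ) 1, ct P a (z r, u r) < ct P c (z r, u r) := fun r hr =>
    order hz hu hg hac hsa hsc h0 hr (by rw [hta, htc]; exact htt)
  set Φ : ℝ × ℝ → ℂ := fun p =>
    z p.1 + (((1 - p.2) * ct P a (z p.1, u p.1) + p.2 * ct P c (z p.1, u p.1) : ℝ) : ℂ) * u p.1
    with hΦ
  have hΦc : ContinuousOn Φ (Icc (0 : ℝ) 1 ×ˢ Ioo (0 : ℝ) 1) := by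
    have e1 : ContinuousOn (fun p : ℝ × ℝ => ct P a (z p.1, u p.1))
        (Icc (0 : ℝ) 1 ×ˢ Ioo (0 : ℝ) 1) :=
      hca.comp continuous_fst.continuousOn (fun p hp => hp.1)
    have e2 : ContinuousOn (fun p : ℝ × ℝ => ct P c (z p.1, u p.1))
        (Icc (0 : ℝ) 1 ×ˢ Ioo (0 : ℝ) 1) :=
      hcc.comp continuous_fst.continuousOn (fun p hp => hp.1)
    have e3 : ContinuousOn (fun p : ℝ × ℝ =>
        (1 - p.2) * ct P a (z p.1, u p.1) + p.2 * ct P c (z p.1, u p.1))
        (Icc (0 : ℝ) 1 ×ˢ Ioo (0 : ℝ) 1) :=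
      ((continuous_const.sub continuous_snd).continuousOn.mul e1).add
        (continuous_snd.continuousOn.mul e2)
    exact (hz.comp continuous_fst).continuousOn.add
      ((Complex.continuous_ofReal.comp_continuousOn e3).mul (hu.comp continuous_fst).continuousOn)
  have hpre : IsPreconnected (Φ '' (Icc (0 : ℝ) 1 ×ˢ Ioo (0 : ℝ) 1)) :=
    (isPreconnected_Icc.prod isPreconnected_Ioo).image _ hΦc
  have hsub : Φ '' (Icc (0 : ℝ) 1 ×ˢ Ioo (0 : ℝ) 1) ⊆ U P := by
    apply subset_U hpre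
    · rintro _ ⟨⟨r, θ⟩, ⟨hr, hθ⟩, rfl⟩ hG
      simp only at hr hθ
      set τ : ℝ := (1 - θ) * ct P a (z r, u r) + θ * ct P c (z r, u r) with hτ
      have hG' : z r + (τ : ℂ) * u r ∈ Gam P := hG
      have hl := hlt r hr
      have hτ1 : ct P a (z r, u r) < τ := by rw [hτ]; nlinarith [hθ.1, hθ.2]
      have hτ2 : τ < ct P c (z r, u r) := by rw [hτ]; nlinarith [hθ.1, hθ.2]
      obtain ⟨i, hi⟩ := exists_rel_of_Gam hG' (fun j hj => by
        have h3 := sd_on_line (z r) (u r) τ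
        rw [hj] at h3
        exact hg r hr j h3)
      obtain ⟨hsi, hti⟩ := of_cross (hg r hr i) hi
      have hsi0 := crossed hz hu hg hr h0 hsi
      have hia : a ≠ i := by
        rintro rfl
        rw [hti] at hτ1
        exact lt_irrefl _ hτ1
      have hic : i ≠ c := by
        rintro rfl
        rw [hti] at hτ2
        exact lt_irrefl _ hτ2
      have h3 := order hz hu hg hia hsa hsi0 hr h0 (by rw [hti]; exact hτ1)
      have h4 := order hz hu hg hic hsi0 hsc hr h0 (by rw [hti]; exact hτ2)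
      rw [hta] at h3
      rw [htc] at h4
      exact not_mem_U_of_Gam (rel_subset_Gam i (to_cross hsi0)) (hU _ ⟨h3, h4⟩)
    · refine ⟨Φ (0, 1 / 2), ⟨(0, 1 / 2), ⟨h0, by norm_num, by norm_num⟩, rfl⟩, ?_⟩
      have : Φ (0, 1 / 2) = z 0 + (((t + t') / 2 : ℝ) : ℂ) * u 0 := by
        simp only [hΦ]
        rw [hta, htc]
        congr 3
        ring
      rw [this]
      exact hU _ ⟨by linarith, by linarith⟩
  refine ⟨ct P a (z 1, u 1), ct P c (z 1, u 1), hlt 1 h1,
    to_cross (crossed hz hu hg h0 h1 hsa), ?_, to_cross (crossed hz hu hg h0 h1 hsc)⟩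
  intro τ hτ
  have hl := hlt 1 h1
  have hd : 0 < ct P c (z 1, u 1) - ct P a (z 1, u 1) := by linarith
  apply hsub
  refine ⟨(1, (τ - ct P a (z 1, u 1)) / (ct P c (z 1, u 1) - ct P a (z 1, u 1))),
    ⟨h1, ?_, ?_⟩, ?_⟩
  · exact div_pos (by linarith [hτ.1]) hd
  · show (τ - ct P a (z 1, u 1)) / (ct P c (z 1, u 1) - ct P a (z 1, u 1)) < 1
    rw [div_lt_one hd]
    linarith [hτ.2]
  · simp only [hΦ]
    congr 3
    field_simp
    ring

theorem sd_refl (c : ZMod P.k) (z u q : ℂ) :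
    sd (refl P c z) (lrefl P c u) q = -sd z u (refl P c q) := by
  unfold sd
  have h1 : q - refl P c z = lrefl P c (refl P c q - z) := by
    have h2 : q = refl P c (refl P c q) := (refl_refl c q).symm
    conv_lhs => rw [h2]
    have h3 : refl P c q = z + (refl P c q - z) := by ring
    conv_lhs => rw [h3]
    rw [refl_add']
    ring
  rw [h1, lrefl_conj, Complex.conj_im]

end LCaux

open LCaux

/-- Local constancy of the code. -/
theorem m_LC : Stmt_LC := by
  intro P z u a w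
  induction w generalizing z u a with
  | nil => intro t₀ h; exact absurd rfl h
  | cons c w ih =>
    intro t₀ _ hz hu hg hx hp
    obtain ⟨t', ht, hU, hc, hp'⟩ := hp
    have hg0 : ∀ r ∈ Icc (0 : ℝ) 1, ∀ j, sd (z r) (u r) (P.vertex j) ≠ 0 := by
      intro r hr j
      exact hg r hr 0 (by simp) j
    obtain ⟨s, s', hss, ha1, hU1, hc1⟩ := step hz hu hg0 ht hx hU hc
    by_cases hw : w = []
    · subst hw
      exact ⟨s, ha1, s', hss, hU1, hc1, trivial⟩
    · have hgate : refl P c (z 0) + t' * lrefl P c (u 0) ∈ rel P c := by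
        rw [refl_line hc]; exact hc
      obtain ⟨t₁, h1, h2⟩ := ih (fun r => refl P c (z r)) (fun r => lrefl P c (u r)) c t' hw
        ((continuous_refl c).comp hz) ((continuous_lrefl c).comp hu) (by
          intro r hr i hi j
          rw [sd_refl, neg_ne_zero]
          exact hg r hr (i + 1) (by simpa using hi) j) hgate hp'
      have h3 : z 1 + t₁ * u 1 ∈ rel P c := by
        have h4 : refl P c (z 1 + t₁ * u 1) ∈ rel P c := by
          rw [refl_add]; exact h1
        have h5 := H_of_mem_rel h4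
        rw [H_refl, neg_eq_zero] at h5
        rw [refl_fix h5] at h4
        exact h4
      have hv := hg0 1 (by simp) c
      have h6 : t₁ = s' := by
        rw [← (of_cross hv h3).2, ← (of_cross hv hc1).2]
      subst h6
      exact ⟨s, ha1, t₁, hss, hU1, hc1, h2⟩

end Pool.Agent.BCX
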