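import Pool.Agent.BCX.Stmts3
import Pool.Agent.BCX.COVER
import Pool.Agent.BCX.FOLD

/-!
# A finite net of frames for the big box
-/

open Set Filter Topology Metric MeasureTheory
open scoped ComplexConjugate

namespace Pool.Agent.BCX

open Pool.Agent.Billiard Pool.Agent.Lib_helper45.Bil

namespace M_NET

variable {P : Polygon}

/-- A generic line close to a frame is in the box of the frame. -/
theorem near_frame {ε R T : ℝ} {b e p v : ℂ} {c : ZMod P.k} {w : List (ZMod P.k)} {t' : ℝ}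
    (hε : 0 < ε) (hε1 : ε ≤ 1) (hR : 1 ≤ R) (he : ‖e‖ = 1) (hv : ‖v‖ = 1)
    (hb : dist p b ≤ ε / 16) (hve : ‖v - e‖ ≤ ε / (8 * R)) (ht' : 0 ≤ t') (hT : 1 + t' ≤ T)
    (hrel : p ∈ rel P c) (hpath : PathT P p v 0 w t') (hgen : Gen P p v w) :
    ∃ y s τ t₁ x l : ℝ, 0 < l ∧ lz b e y = p + (x : ℂ) * v ∧ lu e s = (l : ℂ) * v ∧
      RealAt P ε R T b e c w y s τ t₁ := by
  have hR0 : 0 < R := by linarith
  have hee : e * conj e = 1 := mul_conj_one he
  set q : ℂ := v * conj e with hq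
  have hq1 : q = 1 + (v - e) * conj e := by
    rw [hq]; linear_combination hee
  have hn : ‖(v - e) * conj e‖ = ‖v - e‖ := by rw [norm_mul, RCLike.norm_conj, he, mul_one]
  have hre : |q.re - 1| ≤ ‖v - e‖ := by
    have h1 : q.re - 1 = ((v - e) * conj e).re := by rw [hq1]; simp
    rw [h1, ← hn]
    exact Complex.abs_re_le_norm _
  have him : |q.im| ≤ ‖v - e‖ := by
    have h1 : q.im = ((v - e) * conj e).im := by rw [hq1]; simp
    rw [h1, ← hn]
    exact Complex.abs_im_le_norm _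
  have hδ : ε / (8 * R) ≤ 1 / 8 := by
    rw [div_le_div_iff₀ (by positivity) (by norm_num)]
    nlinarith
  have h1 := (abs_le.1 hre).1
  have hv1 : 1 / 2 ≤ q.re := by linarith
  have hv1' : 0 < q.re := by linarith
  have hv1'' : q.re ≤ 1 := by
    have h2 : ‖q‖ = 1 := by rw [hq, norm_mul, RCLike.norm_conj, he, mul_one, hv]
    have h3 := (abs_le.1 (Complex.abs_re_le_norm q)).2
    rwa [h2] at h3
  have hvq : v = ((q.re : ℂ) + q.im * Complex.I) * e := by
    rw [Complex.re_add_im, hq]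
    linear_combination (-v) * hee
  set s : ℝ := q.im / q.re with hs
  set τ : ℝ := tc b e p with hτ
  set h : ℝ := hc b e p with hh
  set y : ℝ := h - s * τ with hy
  have hp := tc_hc_add b e he p
  rw [← hτ, ← hh] at hp
  have hqc : (q.re : ℂ) ≠ 0 := by exact_mod_cast hv1'.ne'
  have hlu : ((q.re⁻¹ : ℝ) : ℂ) * v = lu e s := by
    have h2 : ((s : ℝ) : ℂ) = (q.im : ℂ) / (q.re : ℂ) := by rw [hs]; push_cast; rfl
    unfold lu
    rw [h2]
    have h3 : ((q.re⁻¹ : ℝ) : ℂ) = (q.re : ℂ)⁻¹ := by push_cast; rfl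
    calc ((q.re⁻¹ : ℝ) : ℂ) * v = (q.re : ℂ)⁻¹ * (((q.re : ℂ) + q.im * Complex.I) * e) := by
          rw [h3, ← hvq]
      _ = (1 + (q.im : ℂ) / (q.re : ℂ) * Complex.I) * e := by field_simp
  have hlz : p + ((-(τ / q.re) : ℝ) : ℂ) * v = lz b e y := by
    have h2 : ((-(τ / q.re) : ℝ) : ℂ) * v = -(τ : ℂ) * lu e s := by
      rw [← hlu]; push_cast; ring
    rw [h2]
    unfold lz lu
    rw [hy]
    push_cast
    linear_combination hp
  have hst : |s| ≤ ε / (4 * R) := by
    rw [hs, abs_div, abs_of_pos hv1', div_le_div_iff₀ hv1' (by positivity)]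
    have h2 : |q.im| ≤ ε / (8 * R) := him.trans hve
    rw [le_div_iff₀ (by positivity)] at h2
    nlinarith
  have hd1 : |τ| ≤ ε / 16 := by
    have h2 := abs_tc_sub_le (b := b) he p b
    have h3 : tc b e b = 0 := by unfold tc; simp
    rw [h3, sub_zero] at h2
    exact h2.trans hb
  have hd2 : |h| ≤ ε / 16 := by
    have h2 : |((p - b) * conj e).im| ≤ ‖(p - b) * conj e‖ := Complex.abs_im_le_norm _
    rw [norm_mul, RCLike.norm_conj, he, mul_one, ← dist_eq_norm] at h2
    exact h2.trans hb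
  have hR4 : ε / (4 * R) * R = ε / 4 := by field_simp
  have hs1 : |s| ≤ 1 := by
    refine hst.trans ?_
    rw [div_le_one (by positivity)]
    linarith
  have hbox : Box ε R y s := by
    unfold Box
    have h2 : |y| ≤ |h| + |s| * |τ| := by
      rw [hy, ← abs_mul]
      exact abs_sub _ _
    have h3 : |s| * R ≤ ε / 4 := by
      rw [← hR4]
      exact mul_le_mul_of_nonneg_right hst hR0.le
    have h4 : |s| * |τ| ≤ 1 * (ε / 16) := mul_le_mul hs1 hd1 (abs_nonneg _) zero_le_one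
    linarith
  have hrp := M_GENREP.reparam (P := P) hv1' (-(τ / q.re)) hpath
  have e1 : q.re * (0 - -(τ / q.re)) = τ := by field_simp; ring
  have e2 : q.re * (t' - -(τ / q.re)) = q.re * t' + τ := by field_simp; ring
  rw [hlz, hlu, e1, e2] at hrp
  refine ⟨y, s, τ, q.re * t' + τ, -(τ / q.re), q.re⁻¹, inv_pos.2 hv1', hlz.symm, hlu.symm,
    hbox, ?_, ?_, ?_, hrp, ?_⟩
  · have := (abs_le.1 hd1).1
    linarith
  · have h2 := (abs_le.1 hd1).2
    have h3 : q.re * t' ≤ 1 * t' := mul_le_mul_of_nonneg_right hv1'' ht'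
    linarith
  · have h2 : lz b e y + (τ : ℂ) * lu e s = p := by
      unfold lz lu
      rw [hy]
      push_cast
      linear_combination -hp
    rw [h2]; exact hrel
  · intro i hi j
    have h2 := M_GENREP.sd_reparam p v (dev P (w.take i) (P.vertex j)) (-(τ / q.re)) q.re
    rw [hlz, hlu] at h2
    rw [h2]
    exact mul_ne_zero (inv_pos.2 hv1').ne' (hgen i hi j)

theorem gen_of_cons {a : ZMod P.k} {w : List (ZMod P.k)} {z u : ℂ}
    (h : Gen P (Lib_helper45.Bil.refl P a z) (lrefl P a u) (a :: w)) : Gen P z u w := by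
  intro i hi j h0
  refine h (i + 1) (by simpa using hi) j ?_
  have e : dev P ((a :: w).take (i + 1)) (P.vertex j) =
      Lib_helper45.Bil.refl P a (dev P (w.take i) (P.vertex j)) := rfl
  have h1 := FOLD.sd_refl (P := P) a z u
    (Lib_helper45.Bil.refl P a (dev P (w.take i) (P.vertex j)))
  rw [Lib_helper45.Bil.refl_refl, h0] at h1
  rw [e]
  linarith

end M_NET

open M_NET in
theorem m_NET : Stmt_NET := by
  intro P D M hD
  obtain ⟨ρ, hρ⟩ := P.isCompact.isBounded.subset_closedBall (0 : ℂ)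
  set r : ℝ := max ρ 0 with hr
  have hr0 : 0 ≤ r := le_max_right _ _
  have hreg : ∀ p ∈ P.region, ‖p‖ ≤ r := by
    intro p hp
    have h1 := hρ hp
    rw [mem_closedBall, dist_zero_right] at h1
    exact h1.trans (le_max_left _ _)
  refine ⟨(64 * r + 5) ^ 2 * 69, ?_, ?_⟩
  · have h2 : (1 : ℝ) ≤ (64 * r + 5) ^ 2 := by nlinarith
    nlinarith
  intro n R T hT hTR
  have hD1 := hD.1
  have hnD : (0 : ℝ) ≤ n * D := by positivity
  have hR2 : 2 ≤ R := by linarith
  set η : ℝ := 1 / 32 with hη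
  have hη0 : 0 < η := by positivity
  set δ : ℝ := 1 / (8 * R) with hδ
  have hδ0 : 0 < δ := by positivity
  set N : ℕ := ⌈r / η⌉₊ + 1 with hN
  set L : ℕ := ⌈4 / δ⌉₊ + 1 with hL
  have hN1 : r / η + 1 ≤ N := by
    rw [hN]; push_cast
    linarith [Nat.le_ceil (r / η)]
  have hL1 : 4 / δ + 1 ≤ L := by
    rw [hL]; push_cast
    linarith [Nat.le_ceil (4 / δ)]
  set bb : ℤ → ℤ → ℂ := fun i j => ((i * η : ℝ) : ℂ) + ((j * η : ℝ) : ℂ) * Complex.I with hbb
  set ex : ℤ → ℂ := fun l => Complex.exp (Complex.I * ((l * δ : ℝ) : ℂ)) with hex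
  have hexn : ∀ l, ‖ex l‖ = 1 := fun l => Complex.norm_exp_I_mul_ofReal _
  set K : Finset (ℤ × ℤ × ℤ) :=
    (Finset.Icc (-(N : ℤ)) N) ×ˢ (Finset.Icc (-(N : ℤ)) N) ×ˢ
      (Finset.Icc (-(L : ℤ)) L) with hK
  classical
  refine ⟨K.image fun κ => (bb κ.1 κ.2.1, ex κ.2.2), ?_, ?_, ?_⟩
  · have hKc : K.card = (2 * N + 1) * ((2 * N + 1) * (2 * L + 1)) := by
      rw [hK, Finset.card_product, Finset.card_product, Int.card_Icc, Int.card_Icc]
      have e1 : ((N : ℤ) + 1 - -(N : ℤ)).toNat = 2 * N + 1 := by omega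
      have e2 : ((L : ℤ) + 1 - -(L : ℤ)).toNat = 2 * L + 1 := by omega
      rw [e1, e2]
    have hNle : (2 * (N : ℝ) + 1) ≤ (64 * r + 5) * R := by
      have h3 : (N : ℝ) ≤ r / η + 2 := by
        rw [hN]; push_cast
        linarith [(Nat.ceil_lt_add_one (by positivity : 0 ≤ r / η)).le]
      have h4 : r / η = 32 * r := by rw [hη]; field_simp
      have h5 : 32 * r ≤ 32 * r * R := by nlinarith
      have h6 : (64 * r + 5) * R = 2 * (32 * r * R) + 5 * R := by ring
      rw [h6]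
      linarith
    have hLle : (2 * (L : ℝ) + 1) ≤ 69 * R := by
      have h3 : (L : ℝ) ≤ 4 / δ + 2 := by
        rw [hL]; push_cast
        linarith [(Nat.ceil_lt_add_one (by positivity : 0 ≤ 4 / δ)).le]
      have h4 : 4 / δ = 32 * R := by rw [hδ]; field_simp; norm_num
      linarith
    have h1 : ((K.image fun κ => (bb κ.1 κ.2.1, ex κ.2.2)).card : ℝ) ≤ K.card := by
      exact_mod_cast Finset.card_image_le
    refine h1.trans ?_
    rw [hKc]
    push_cast
    have h5 : (2 * (N : ℝ) + 1) * ((2 * (N : ℝ) + 1) * (2 * (L : ℝ) + 1)) ≤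
        ((64 * r + 5) * R) * (((64 * r + 5) * R) * (69 * R)) := by gcongr
    refine h5.trans ?_
    have h7 : R ^ 3 ≤ R ^ 4 := pow_le_pow_right₀ (by linarith) (by norm_num)
    have h8 : ((64 * r + 5) * R) * (((64 * r + 5) * R) * (69 * R)) =
        (64 * r + 5) ^ 2 * 69 * R ^ 3 := by ring
    rw [h8]
    gcongr
  · intro p hp
    obtain ⟨κ, _, rfl⟩ := Finset.mem_image.1 hp
    exact hexn _
  · intro a w z u t t' hw hRz
    obtain ⟨hu, hrel, hpath, hgen⟩ := hRz
    have hgen' := gen_of_cons hgen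
    have hun : 0 < ‖u‖ := norm_pos_iff.2 hu
    set p : ℂ := z + t * u with hp
    set v : ℂ := ((‖u‖⁻¹ : ℝ) : ℂ) * u with hv'
    have hv : ‖v‖ = 1 := by
      rw [hv', norm_mul, Complex.norm_real, Real.norm_eq_abs, abs_of_pos (inv_pos.2 hun)]
      exact inv_mul_cancel₀ hun.ne'
    have hpath' := M_GENREP.reparam (P := P) hun t hpath
    rw [sub_self, mul_zero] at hpath'
    have hgenv : Gen P p v w := by
      intro i hi j
      rw [hp, hv', M_GENREP.sd_reparam]
      exact mul_ne_zero (inv_pos.2 hun).ne' (hgen' i hi j)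
    have hpr : ‖p‖ ≤ r := hreg p (Gam_subset (rel_subset_Gam a hrel))
    have hve : Complex.exp (Complex.I * (Complex.arg v : ℝ)) = v := by
      have h1 := Complex.norm_mul_exp_arg_mul_I v
      rw [hv, Complex.ofReal_one, one_mul] at h1
      rw [mul_comm]; exact h1
    have ht0 : 0 ≤ ‖u‖ * (t' - t) := hpath'.le
    have ht1 := M_COVER.end_le hD hv hrel hpath'
    rw [hw] at ht1
    have hd : dist p (bb ⌊p.re / η⌋ ⌊p.im / η⌋) ≤ 1 / 16 := by
      have h1 := M_COVER.dist_floor hη0 p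
      have h2 : 2 * η = 1 / 16 := by rw [hη]; norm_num
      rw [h2] at h1
      exact h1
    have hd2 : ‖v - ex ⌊Complex.arg v / δ⌋‖ ≤ 1 / (8 * R) := by
      have h1 := M_COVER.norm_exp_sub (x := Complex.arg v) (y := ⌊Complex.arg v / δ⌋ * δ)
      rw [hve] at h1
      exact h1.trans (M_COVER.floor_near hδ0)
    obtain ⟨y, s, τ, t₁, x, l, hl, e1, e2, hR⟩ := near_frame (P := P) one_pos le_rfl
      (by linarith) (hexn _) hv hd hd2 ht0 (by linarith : 1 + ‖u‖ * (t' - t) ≤ T) hrel hpath' hgenv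
    refine ⟨(bb ⌊p.re / η⌋ ⌊p.im / η⌋, ex ⌊Complex.arg v / δ⌋), ?_, y, s, τ, t₁,
      t + x * ‖u‖⁻¹, l * ‖u‖⁻¹, mul_pos hl (inv_pos.2 hun), ?_, ?_, hR⟩
    · rw [Finset.mem_image]
      refine ⟨(⌊p.re / η⌋, ⌊p.im / η⌋, ⌊Complex.arg v / δ⌋), ?_, rfl⟩
      rw [hK]
      simp only [Finset.mem_product]
      refine ⟨?_, ?_, ?_⟩
      · exact M_COVER.floor_mem hη0 ((Complex.abs_re_le_norm p).trans hpr) hN1
      · exact M_COVER.floor_mem hη0 ((Complex.abs_im_le_norm p).trans hpr) hN1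
      · exact M_COVER.floor_mem hδ0 ((Complex.abs_arg_le_pi v).trans Real.pi_le_four) hL1
    · rw [e1, hp, hv']
      push_cast
      ring
    · rw [e2, hv']
      push_cast
      ring

end Pool.Agent.BCX
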