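import Pool.Agent.BCX.Stmts3
import Pool.Agent.BCX.FOLD

/-!
# Time reversal
-/

open Set Filter Topology Metric
open scoped ComplexConjugate

namespace Pool.Agent.BCX

open Pool.Agent.Billiard Pool.Agent.Lib_helper45.Bil

namespace REV

open FOLD

variable {P : Polygon}

theorem foldz_append (W V : List (ZMod P.k)) : ∀ z, foldz P (W ++ V) z = foldz P V (foldz P W z) := by
  induction W with
  | nil => intro z; rfl
  | cons a W ih => intro z; exact ih _

theorem foldu_append (W V : List (ZMod P.k)) : ∀ z, foldu P (W ++ V) z = foldu P V (foldu P W z) := by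
  induction W with
  | nil => intro z; rfl
  | cons a W ih => intro z; exact ih _

theorem foldz_dev (W : List (ZMod P.k)) (q : ℂ) : foldz P W (dev P W q) = q := by
  induction W with
  | nil => rfl
  | cons a W ih =>
    show foldz P W (Lib_helper45.Bil.refl P a (Lib_helper45.Bil.refl P a (dev P W q))) = q
    rw [refl_refl, ih]

theorem dev_foldz (W : List (ZMod P.k)) : ∀ q : ℂ, dev P W (foldz P W q) = q := by
  induction W with
  | nil => intro q; rfl
  | cons a W ih =>
    intro q
    show Lib_helper45.Bil.refl P a (dev P W (foldz P W (Lib_helper45.Bil.refl P a q))) = q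
    rw [ih, refl_refl]

theorem dev_reverse (W : List (ZMod P.k)) : ∀ q : ℂ, dev P W.reverse q = foldz P W q := by
  induction W with
  | nil => intro q; rfl
  | cons a W ih =>
    intro q
    rw [List.reverse_cons, dev_append, ih]
    rfl

theorem foldz_reverse (W : List (ZMod P.k)) (z : ℂ) : foldz P W.reverse (foldz P W z) = z := by
  rw [← dev_reverse W.reverse, List.reverse_reverse, dev_foldz]

theorem foldu_reverse (W : List (ZMod P.k)) : ∀ u : ℂ, foldu P W.reverse (foldu P W u) = u := by
  induction W with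
  | nil => intro u; rfl
  | cons a W ih =>
    intro u
    rw [List.reverse_cons, foldu_append]
    show lrefl P a (foldu P W.reverse (foldu P W (lrefl P a u))) = u
    rw [ih, lrefl_lrefl]

theorem foldu_neg (W : List (ZMod P.k)) : ∀ u : ℂ, foldu P W (-u) = -foldu P W u := by
  induction W with
  | nil => intro u; rfl
  | cons a W ih =>
    intro u
    show foldu P W (lrefl P a (-u)) = -foldu P W (lrefl P a u)
    rw [← ih]
    congr 1
    exact rd_neg _ _

theorem foldu_ne (W : List (ZMod P.k)) {u : ℂ} (hu : u ≠ 0) : foldu P W u ≠ 0 := by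
  rw [← norm_ne_zero_iff, norm_foldu]
  exact norm_ne_zero_iff.2 hu

theorem pathT_concat (W₁ : List (ZMod P.k)) : ∀ (W₂ : List (ZMod P.k)) (z u : ℂ) (t t₁ T : ℝ),
    PathT P z u t W₁ t₁ → PathT P (foldz P W₁ z) (foldu P W₁ u) t₁ W₂ T →
    PathT P z u t (W₁ ++ W₂) T := by
  induction W₁ with
  | nil =>
    intro W₂ z u t t₁ T h h'
    have : t₁ = t := h
    subst this
    exact h'
  | cons a W₁ ih =>
    rintro W₂ z u t t₁ T ⟨t', ht, h1, h2, h⟩ h'
    exact ⟨t', ht, h1, h2, ih _ _ _ _ _ _ h h'⟩

theorem pathT_rev (x : ZMod P.k) (w : List (ZMod P.k)) :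
    ∀ (a : ZMod P.k) (z u : ℂ) (t t' : ℝ), z + t * u ∈ rel P a → PathT P z u t (w ++ [x]) t' →
    foldz P w z + t' * foldu P w u ∈ rel P x ∧
    PathT P (foldz P w z) (-foldu P w u) (-t') (w.reverse ++ [a]) (-t) := by
  have seg : ∀ (z u : ℂ) (a : ZMod P.k) (t t₁ : ℝ), t < t₁ → z + t * u ∈ rel P a →
      (∀ τ ∈ Ioo t t₁, z + τ * u ∈ U P) → PathT P z (-u) (-t₁) [a] (-t) := by
    intro z u a t t₁ ht ha hs
    refine ⟨-t, by linarith, fun τ hτ => ?_, ?_, rfl⟩
    · have h1 := hs (-τ) ⟨by linarith [hτ.2], by linarith [hτ.1]⟩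
      have h2 : z + (τ : ℂ) * -u = z + ((-τ : ℝ) : ℂ) * u := by push_cast; ring
      rw [h2]; exact h1
    · have h2 : z + ((-t : ℝ) : ℂ) * -u = z + t * u := by push_cast; ring
      rw [h2]; exact ha
  induction w with
  | nil =>
    rintro a z u t t' ha ⟨t₁, ht, h1, h2, h⟩
    have h3 : t' = t₁ := h
    subst h3
    exact ⟨h2, seg z u a t t' ht ha h1⟩
  | cons b v ih =>
    rintro a z u t t' ha ⟨t₁, ht, h1, h2, h⟩
    have h3 : Lib_helper45.Bil.refl P b z + t₁ * lrefl P b u ∈ rel P b := by
      rw [refl_line h2]; exact h2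
    obtain ⟨h4, h5⟩ := ih b _ _ t₁ t' h3 h
    refine ⟨h4, ?_⟩
    rw [List.reverse_cons]
    apply pathT_concat _ _ _ _ _ _ _ h5
    have h6 : foldz P (v.reverse ++ [b]) (foldz P v (Lib_helper45.Bil.refl P b z)) = z := by
      rw [← List.reverse_cons]
      exact foldz_reverse (b :: v) z
    have h7 : foldu P (v.reverse ++ [b]) (-foldu P v (lrefl P b u)) = -u := by
      rw [← List.reverse_cons, foldu_neg]
      exact congrArg _ (foldu_reverse (b :: v) u)
    rw [h6, h7]
    exact seg z u a t t₁ ht ha h1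

/-! ### Invariance -/

/-- preserves the absolute value of the cross product -/
def Iso (G : ℂ → ℂ) : Prop := ∀ p q r, |cr (G p - G q) (G r - G q)| = |cr (p - q) (r - q)|

theorem Iso.comp {G H : ℂ → ℂ} (hG : Iso G) (hH : Iso H) : Iso (fun p => G (H p)) := by
  intro p q r
  show |cr (G (H p) - G (H q)) (G (H r) - G (H q))| = _
  rw [hG, hH]

theorem iso_refl (a : ZMod P.k) : Iso (Lib_helper45.Bil.refl P a) := by
  intro p q r
  have h1 : ∀ p q : ℂ, Lib_helper45.Bil.refl P a p - Lib_helper45.Bil.refl P a q =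
      lrefl P a (p - q) := by
    intro p q
    have h2 := refl_add' (P := P) a q (p - q)
    rw [add_sub_cancel] at h2
    rw [h2]; ring
  unfold cr
  rw [h1, h1, lrefl_conj, Complex.conj_im, abs_neg]

theorem iso_foldz (W : List (ZMod P.k)) : Iso (foldz P W) := by
  induction W with
  | nil => intro p q r; rfl
  | cons a W ih =>
    show Iso (fun p => foldz P W (Lib_helper45.Bil.refl P a p))
    exact Iso.comp ih (iso_refl a)

theorem iso_dev (W : List (ZMod P.k)) : Iso (dev P W) := by
  induction W with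
  | nil => intro p q r; rfl
  | cons a W ih =>
    show Iso (fun p => Lib_helper45.Bil.refl P a (dev P W p))
    exact Iso.comp (iso_refl a) ih

theorem sd_neg (z u q : ℂ) : sd z (-u) q = -sd z u q := by
  unfold sd
  rw [map_neg, mul_neg, Complex.neg_im]

theorem ld_neg (z u q : ℂ) : ld z (-u) q = ld z u q := by
  unfold ld
  rw [sd_neg, abs_neg, norm_neg]

theorem ld_dev (W : List (ZMod P.k)) (z u q : ℂ) :
    ld z u (dev P W q) = ld (foldz P W z) (foldu P W u) q := by
  unfold ld
  rw [sd_dev, abs_mul, norm_foldu]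
  simp

theorem ld_foldz (W : List (ZMod P.k)) (z u q : ℂ) :
    ld (foldz P W z) (foldu P W u) (foldz P W q) = ld z u q := by
  rw [← ld_dev, dev_foldz]

theorem bad_iff {Λ d : ℝ} {z₁ u₁ z₂ u₂ : ℂ} {w v : List (ZMod P.k)} (m : ℕ)
    (hw : w.length = m) (hv : v.length = m) (G : ℂ → ℂ) (hG : Iso G)
    (hl : ∀ p, ld z₁ u₁ (G p) = ld z₂ u₂ p)
    (hd : ∀ l < m, ∀ q, dev P (w.take l) q = G (dev P (v.take (m - 1 - l)) q)) :
    Bad P Λ z₁ u₁ w d ↔ Bad P Λ z₂ u₂ v d := by
  constructor
  · rintro ⟨l₁, h1, l₂, h2, l₃, h3, j₁, j₂, j₃, h4, h5, h6, h7⟩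
    rw [hw] at h1 h2 h3
    refine ⟨m - 1 - l₁, by omega, m - 1 - l₂, by omega, m - 1 - l₃, by omega, j₁, j₂, j₃, ?_⟩
    rw [hd l₁ h1, hd l₂ h2, hd l₃ h3, hG] at h7
    rw [hd l₁ h1, hl] at h4
    rw [hd l₂ h2, hl] at h5
    rw [hd l₃ h3, hl] at h6
    exact ⟨h4, h5, h6, h7⟩
  · rintro ⟨l₁, h1, l₂, h2, l₃, h3, j₁, j₂, j₃, h4, h5, h6, h7⟩
    rw [hv] at h1 h2 h3
    refine ⟨m - 1 - l₁, by omega, m - 1 - l₂, by omega, m - 1 - l₃, by omega, j₁, j₂, j₃, ?_⟩
    have e : ∀ l < m, ∀ q, dev P (w.take (m - 1 - l)) q = G (dev P (v.take l) q) := by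
      intro l hl' q
      rw [hd (m - 1 - l) (by omega), show m - 1 - (m - 1 - l) = l by omega]
    rw [e l₁ h1, e l₂ h2, e l₃ h3, hl, hl, hl, hG]
    exact ⟨h4, h5, h6, h7⟩

/-- unfolded vertices of the reversed word -/
theorem dev_take_reverse (w : List (ZMod P.k)) (l l' : ℕ) (h : l + l' = w.length) (q : ℂ) :
    dev P (w.reverse.take l) q = foldz P w (dev P (w.take l') q) := by
  have h1 : w.reverse.take l = (w.drop l').reverse := by
    rw [List.take_reverse]
    congr 2
    omega
  rw [h1, dev_reverse]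
  conv_rhs => rw [← List.take_append_drop l' w, foldz_append]
  rw [List.take_append_of_le_length (by rw [List.length_take]; omega), List.take_take, min_self,
    foldz_dev]

end REV

open FOLD REV

theorem m_REV : Stmt_REV := by
  rintro P m a w₁ w₂ z u t t' hm h1 h2 ⟨hu, hza, hp, hgen⟩
  have hlen : (w₁ ++ w₂).length = 2 * m := by rw [List.length_append]; omega
  have hne : w₁ ++ w₂ ≠ [] := by
    intro h
    rw [h] at hlen
    simp at hlen
    omega
  obtain ⟨w, x, hwx⟩ : ∃ w x, w₁ ++ w₂ = w ++ [x] :=
    ⟨_, _, (List.dropLast_append_getLast hne).symm⟩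
  have hwl : w.length = 2 * m - 1 := by
    have : (w ++ [x]).length = 2 * m := by rw [← hwx]; exact hlen
    rw [List.length_append] at this
    simp at this
    omega
  rw [hwx] at hp hgen
  obtain ⟨h3, h4⟩ := pathT_rev x w a z u t t' hza hp
  have hVl : (w.reverse ++ [a]).length = 2 * m := by
    rw [List.length_append, List.length_reverse]; simp; omega
  have hA : x :: (w.reverse ++ [a]) = (a :: (w ++ [x])).reverse := by
    simp
  have hsplit : (w.reverse ++ [a]).take m ++ (w.reverse ++ [a]).drop m = w.reverse ++ [a] :=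
    List.take_append_drop _ _
  have ht1 : ((w.reverse ++ [a]).take m).length = m := by
    rw [List.length_take]; omega
  have ht2 : ((w.reverse ++ [a]).drop m).length = m := by
    rw [List.length_drop]; omega
  have hle1 : ∀ l ≤ 2 * m - 1, (w.reverse ++ [a]).take l = w.reverse.take l := by
    intro l hl
    rw [List.take_append_of_le_length (by rw [List.length_reverse]; omega)]
  have hle2 : ∀ l ≤ 2 * m - 1, (w₁ ++ w₂).take l = w.take l := by
    intro l hl
    rw [hwx, List.take_append_of_le_length (by omega)]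
  refine ⟨x, (w.reverse ++ [a]).take m, (w.reverse ++ [a]).drop m, foldz P w z, -foldu P w u, -t',
    -t, ht1, ht2, ?_, ?_, ?_, ?_⟩
  · rw [hsplit, hwx, hA]
  · rw [hsplit]
    refine ⟨neg_ne_zero.2 (foldu_ne w hu), ?_, h4, ?_⟩
    · have h5 : foldz P w z + ((-t' : ℝ) : ℂ) * -foldu P w u = foldz P w z + t' * foldu P w u := by
        push_cast; ring
      rw [h5]; exact h3
    · rw [hA]
      have hz : Lib_helper45.Bil.refl P x (foldz P w z) =
          foldz P (a :: (w ++ [x])) (Lib_helper45.Bil.refl P a z) := by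
        show _ = foldz P (w ++ [x]) (Lib_helper45.Bil.refl P a (Lib_helper45.Bil.refl P a z))
        rw [refl_refl, foldz_append]
        rfl
      have hv : lrefl P x (-foldu P w u) =
          -foldu P (a :: (w ++ [x])) (lrefl P a u) := by
        show _ = -foldu P (w ++ [x]) (lrefl P a (lrefl P a u))
        rw [lrefl_lrefl, foldu_append]
        exact rd_neg _ _
      rw [hz, hv]
      intro i hi j
      rw [List.length_reverse] at hi
      rw [sd_neg]
      apply neg_ne_zero.2
      have h6 : (a :: (w ++ [x])).reverse.take i =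
          ((a :: (w ++ [x])).drop ((a :: (w ++ [x])).length - i)).reverse := by
        rw [List.take_reverse]
      have h7 := hgen ((a :: (w ++ [x])).length - i) (Nat.sub_le _ _) j
      rw [sd_dev] at h7
      rw [sd_dev, h6]
      generalize (a :: (w ++ [x])).length - i = k at h7 ⊢
      generalize (a :: (w ++ [x])) = A at h7 ⊢
      have h8 : ∀ y : ℂ, foldz P (A.drop k).reverse (foldz P A y) = foldz P (A.take k) y := by
        intro y
        have e : foldz P A y = foldz P (A.drop k) (foldz P (A.take k) y) := by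
          rw [← foldz_append, List.take_append_drop]
        rw [e, foldz_reverse]
      have h9 : ∀ y : ℂ, foldu P (A.drop k).reverse (foldu P A y) = foldu P (A.take k) y := by
        intro y
        have e : foldu P A y = foldu P (A.drop k) (foldu P (A.take k) y) := by
          rw [← foldu_append, List.take_append_drop]
        rw [e, foldu_reverse]
      rw [h8, h9]
      exact mul_ne_zero (by simp) (right_ne_zero_of_mul h7)
  · intro Λ d
    apply bad_iff m ht1 h2 (fun p => foldz P w (dev P w₁ p)) (Iso.comp (iso_foldz w) (iso_dev w₁))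
    · intro p
      show ld (foldz P w z) (-foldu P w u) (foldz P w (dev P w₁ p)) = _
      rw [ld_neg, ld_foldz, ld_dev]
    · intro l hl q
      show _ = foldz P w (dev P w₁ (dev P (w₂.take (m - 1 - l)) q))
      rw [List.take_take, min_eq_left hl.le, hle1 l (by omega),
        dev_take_reverse w l (2 * m - 1 - l) (by omega), ← hle2 _ (by omega), ← dev_append]
      congr 2
      rw [show 2 * m - 1 - l = w₁.length + (m - 1 - l) by omega, List.take_length_add_append]
  · intro Λ d
    apply bad_iff m ht2 h1 (fun p => foldz P ((w.reverse ++ [a]).take m) (foldz P w p))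
      (Iso.comp (iso_foldz _) (iso_foldz w))
    · intro p
      show ld _ _ (foldz P ((w.reverse ++ [a]).take m) (foldz P w p)) = _
      rw [ld_foldz, ld_neg, ld_foldz]
    · intro l hl q
      show _ = foldz P ((w.reverse ++ [a]).take m) (foldz P w (dev P (w₁.take (m - 1 - l)) q))
      have h5 : w₁.take (m - 1 - l) = w.take (m - 1 - l) := by
        rw [← hle2 _ (by omega), List.take_append_of_le_length (by omega)]
      rw [h5, ← dev_take_reverse w (m + l) (m - 1 - l) (by omega), ← hle1 _ (by omega)]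
      have h6 : (w.reverse ++ [a]).take (m + l) =
          (w.reverse ++ [a]).take m ++ ((w.reverse ++ [a]).drop m).take l := by
        conv_lhs => rw [← hsplit]
        conv_lhs => rw [show m + l = ((w.reverse ++ [a]).take m).length + l by omega]
        rw [List.take_length_add_append]
      rw [h6, dev_append, foldz_dev]

end Pool.Agent.BCX
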