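import Pool.Agent.BCX.Stmts2

/-!
# Upper bounds for the billiard complexity of every polygon: the sign rule   (helper42)
-/

open Set Filter Topology Metric
open scoped ComplexConjugate

namespace Pool.Agent.BCX

open Pool.Agent.Billiard Pool.Agent.Lib_helper45.Bil

namespace M_RULE

theorem cr_frame {b e : ℂ} (he : ‖e‖ = 1) (q q' q'' : ℂ) :
    cr (q' - q) (q'' - q) = (hc b e q' - hc b e q) * (tc b e q'' - tc b e q) -
      (tc b e q' - tc b e q) * (hc b e q'' - hc b e q) := by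
  have h1 : q' - q = ((tc b e q' - tc b e q : ℝ) + (hc b e q' - hc b e q : ℝ) * Complex.I) * e := by
    have h2 := tc_hc_add b e he q'
    have h3 := tc_hc_add b e he q
    push_cast
    linear_combination h2 - h3
  have h1' : q'' - q =
      ((tc b e q'' - tc b e q : ℝ) + (hc b e q'' - hc b e q : ℝ) * Complex.I) * e := by
    have h2 := tc_hc_add b e he q''
    have h3 := tc_hc_add b e he q
    push_cast
    linear_combination h2 - h3
  have h4 := mul_conj_one he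
  unfold cr
  rw [h1, h1']
  generalize tc b e q' - tc b e q = A
  generalize hc b e q' - hc b e q = B
  generalize tc b e q'' - tc b e q = A'
  generalize hc b e q'' - hc b e q = B'
  have h5 : ((A : ℂ) + (B : ℂ) * Complex.I) * e * conj (((A' : ℂ) + (B' : ℂ) * Complex.I) * e) =
      ((A : ℂ) + (B : ℂ) * Complex.I) * ((A' : ℂ) - (B' : ℂ) * Complex.I) := by
    simp only [map_mul, map_add, Complex.conj_ofReal, Complex.conj_I]
    linear_combination (((A : ℂ) + (B : ℂ) * Complex.I) * ((A' : ℂ) - (B' : ℂ) * Complex.I)) * h4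
  rw [h5]
  simp
  ring

theorem pos_iff_of_mul_pos {x p : ℝ} (h : 0 < x * p) : 0 < p ↔ 0 < x := by
  constructor
  · intro hp
    exact pos_of_mul_pos_left h hp.le
  · intro hx
    exact pos_of_mul_pos_right h hx.le

theorem pos_iff_of_mul_neg {x p : ℝ} (h : x * p < 0) : 0 < p ↔ x < 0 := by
  constructor
  · intro hp
    by_contra hx
    exact absurd h (not_lt.2 (mul_nonneg (not_lt.1 hx) hp.le))
  · intro hx
    by_contra hp
    exact absurd h (not_lt.2 (mul_nonneg_of_nonpos_of_nonpos hx.le (not_lt.1 hp)))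

/-- The abstract sign rule. -/
theorem abstract_rule {K : Type} (N M m : ℕ) (D ζ : ℝ) (A τ : ℕ → K → ℝ) (str : ℕ → K → Prop)
    (hD : 0 < D) (hζ : 0 ≤ ζ) (hne : ∀ l < N, ∀ j, A l j ≠ 0)
    (hid : ∀ l₁ < N, ∀ l₂ < N, ∀ l₃ < N, ∀ j₁ j₂ j₃, str l₁ j₁ → str l₂ j₂ → str l₃ j₃ →
      |(τ l₂ j₂ - τ l₁ j₁) * A l₃ j₃ -
        ((τ l₂ j₂ - τ l₃ j₃) * A l₁ j₁ + (τ l₃ j₃ - τ l₁ j₁) * A l₂ j₂)| ≤ ζ)
    (hlate : ∀ l l', l + M ≤ l' → l' < N → ∀ j j', D / 2 ≤ τ l' j' - τ l j)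
    (hspan : ∀ l < N, ∀ l' < N, ∀ j j', |τ l j - τ l' j'| ≤ (m + 2) * D)
    (hpin : ∀ l < N, ∀ l' < N, ∀ j j', D / 2 ≤ |τ l j - τ l' j'| →
      |A l j| ≤ (4 * m + 10) * ζ / D → (4 * m + 10) * ζ / D < |A l' j'|) :
    ∃ (i i₂ : ℕ) (κ β₁ β₂ : Prop), i ≤ N ∧ i₂ ≤ N ∧
      ∀ l < N, ∀ j, str l j →
        (l < i → (0 < A l j ↔ κ)) ∧ (i + M < l → l < i₂ → (0 < A l j ↔ β₁)) ∧
        (i + M < l → i₂ + M < l → (0 < A l j ↔ β₂)) := by
  classical
  -- both signs among the stages at most `n`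
  let S : ℕ → Prop := fun n => ∃ l₁ ≤ n, ∃ l₂ ≤ n, ∃ j₁ j₂, str l₁ j₁ ∧ str l₂ j₂ ∧
    A l₁ j₁ < 0 ∧ 0 < A l₂ j₂
  have hκ : ∀ i ≤ N, (∀ n < i, ¬ S n) → ∀ l < i, ∀ j, str l j →
      (0 < A l j ↔ ∃ l' < i, ∃ j', str l' j' ∧ 0 < A l' j') := by
    intro i hi hS l hl j hj
    constructor
    · intro h
      exact ⟨l, hl, j, hj, h⟩
    · rintro ⟨l', hl', j', hj', h'⟩
      by_contra hn
      have hneg : A l j < 0 := lt_of_le_of_ne (not_lt.1 hn) (hne l (by omega) j)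
      exact hS (max l l') (max_lt hl hl')
        ⟨l, le_max_left _ _, l', le_max_right _ _, j, j', hj, hj', hneg, h'⟩
  by_cases hex : ∃ n, n < N ∧ S n
  swap
  · have hno : ∀ n < N, ¬ S n := fun n hn hSn => hex ⟨n, hn, hSn⟩
    refine ⟨N, N, ∃ l' < N, ∃ j', str l' j' ∧ 0 < A l' j', True, True, le_rfl, le_rfl, ?_⟩
    intro l hl j hj
    exact ⟨fun _ => hκ N le_rfl hno l hl j hj, fun h => by omega, fun h => by omega⟩
  obtain ⟨i, ⟨hiN, hSi⟩, hmin⟩ : ∃ i, (i < N ∧ S i) ∧ ∀ n < i, ¬ S n := by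
    refine ⟨Nat.find hex, Nat.find_spec hex, fun n hn hSn => ?_⟩
    exact Nat.find_min hex hn ⟨hn.trans (Nat.find_spec hex).1, hSn⟩
  have hk := hκ i hiN.le hmin
  by_cases hA : ∃ l₁ ≤ i, ∃ l₂ ≤ i, ∃ j₁ j₂, str l₁ j₁ ∧ str l₂ j₂ ∧
    A l₁ j₁ < 0 ∧ 0 < A l₂ j₂ ∧ 2 * ζ / D < |A l₁ j₁| + |A l₂ j₂|
  · -- case A
    obtain ⟨l₁, hl₁, l₂, hl₂, j₁, j₂, s₁, s₂, n₁, p₂, hbig⟩ := hA
    have key : ∀ l < N, ∀ j, str l j → i + M < l →
        (0 < A l j ↔ 0 < τ l₂ j₂ - τ l₁ j₁) := by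
      intro l hl j hj hil
      apply pos_iff_of_mul_pos
      have h1 := abs_le.1 (hid l₁ (by omega) l₂ (by omega) l hl j₁ j₂ j s₁ s₂ hj)
      have h2 := hlate l₁ l (by omega) hl j₁ j
      have h3 := hlate l₂ l (by omega) hl j₂ j
      rw [abs_of_neg n₁, abs_of_pos p₂, div_lt_iff₀ hD] at hbig
      have h4 : D / 2 * (-A l₁ j₁) ≤ (τ l j - τ l₂ j₂) * (-A l₁ j₁) :=
        mul_le_mul_of_nonneg_right h3 (by linarith)
      have h5 : D / 2 * A l₂ j₂ ≤ (τ l j - τ l₁ j₁) * A l₂ j₂ :=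
        mul_le_mul_of_nonneg_right h2 p₂.le
      nlinarith [h1.1]
    refine ⟨i, N, ∃ l' < i, ∃ j', str l' j' ∧ 0 < A l' j', 0 < τ l₂ j₂ - τ l₁ j₁,
      0 < τ l₂ j₂ - τ l₁ j₁, hiN.le, le_rfl, ?_⟩
    intro l hl j hj
    exact ⟨fun h => hk l h j hj, fun h _ => key l hl j hj h, fun h _ => key l hl j hj h⟩
  · -- case B
    have hsm : ∀ l₁ ≤ i, ∀ l₂ ≤ i, ∀ j₁ j₂, str l₁ j₁ → str l₂ j₂ →
        A l₁ j₁ < 0 → 0 < A l₂ j₂ → |A l₁ j₁| + |A l₂ j₂| ≤ 2 * ζ / D := by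
      intro l₁ h₁ l₂ h₂ j₁ j₂ s₁ s₂ n₁ p₂
      by_contra hh
      exact hA ⟨l₁, h₁, l₂, h₂, j₁, j₂, s₁, s₂, n₁, p₂, not_le.1 hh⟩
    obtain ⟨l₀, hl₀, lp, hlp, j₀, jp, s₀, sp, n₀, pp⟩ := hSi
    have h0 : |A l₀ j₀| ≤ 2 * ζ / D := by
      have := hsm l₀ hl₀ lp hlp j₀ jp s₀ sp n₀ pp
      have h' := abs_nonneg (A lp jp)
      linarith
    have h00 : |A l₀ j₀| ≤ (4 * m + 10) * ζ / D := by
      refine h0.trans ?_
      apply div_le_div_of_nonneg_right _ hD.le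
      have hm0 : (0 : ℝ) ≤ m := Nat.cast_nonneg m
      nlinarith
    -- the late stage
    let Q : ℕ → Prop := fun n => i < n ∧ n < N ∧ ∃ j, str n j ∧ D / 2 ≤ |τ n j - τ l₀ j₀|
    have hβ₁ : ∀ i₂ : ℕ, (∀ n < i₂, ¬ Q n) → ∀ l < N, ∀ j, str l j → i + M < l → ¬ l < i₂ := by
      intro i₂ hQ l hl j hj hil hl2
      apply hQ l hl2
      refine ⟨by omega, hl, j, hj, ?_⟩
      exact (hlate l₀ l (by omega) hl j₀ j).trans (le_abs_self _)
    by_cases hQ : ∃ n, Q n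
    swap
    · have hno : ∀ n < N, ¬ Q n := fun n _ hQn => hQ ⟨n, hQn⟩
      refine ⟨i, N, ∃ l' < i, ∃ j', str l' j' ∧ 0 < A l' j', True, True, hiN.le, le_rfl, ?_⟩
      intro l hl j hj
      exact ⟨fun h => hk l h j hj, fun h h' => absurd h' (hβ₁ N hno l hl j hj h),
        fun _ h => by omega⟩
    obtain ⟨i₂, ⟨hi2, hi2N, j₂, s₂, hτ₂⟩, hmin2⟩ : ∃ i₂, Q i₂ ∧ ∀ n < i₂, ¬ Q n :=
      ⟨Nat.find hQ, Nat.find_spec hQ, fun n hn => Nat.find_min hQ hn⟩
    have hbig : (4 * m + 10) * ζ / D < |A i₂ j₂| := by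
      refine hpin l₀ (by omega) i₂ hi2N j₀ j₂ ?_ h00
      rwa [abs_sub_comm]
    refine ⟨i, i₂, ∃ l' < i, ∃ j', str l' j' ∧ 0 < A l' j', True,
      0 < (τ i₂ j₂ - τ l₀ j₀) * A i₂ j₂, hiN.le, hi2N.le, ?_⟩
    intro l hl j hj
    refine ⟨fun h => hk l h j hj, fun h h' => absurd h' (hβ₁ i₂ hmin2 l hl j hj h),
      fun h h' => ?_⟩
    have h1 := abs_le.1 (hid l₀ (by omega) i₂ hi2N l hl j₀ j₂ j s₀ s₂ hj)
    have h2 := hlate l₀ l (by omega) hl j₀ j
    have h3 := hlate i₂ l (by omega) hl j₂ j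
    have h4 := hspan l hl i₂ hi2N j j₂
    have h5 : |(τ i₂ j₂ - τ l j) * A l₀ j₀| ≤ (2 * m + 4) * ζ := by
      rw [abs_mul, abs_sub_comm]
      calc |τ l j - τ i₂ j₂| * |A l₀ j₀| ≤ ((m + 2) * D) * (2 * ζ / D) :=
            mul_le_mul h4 h0 (abs_nonneg _) (by positivity)
        _ = (2 * m + 4) * ζ := by field_simp; ring
    have h6 := abs_le.1 h5
    have h7 : (2 * m + 5) * ζ < (τ l j - τ l₀ j₀) * |A i₂ j₂| := by
      have h8 : D / 2 * ((4 * m + 10) * ζ / D) < D / 2 * |A i₂ j₂| :=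
        mul_lt_mul_of_pos_left hbig (by positivity)
      have h9 : D / 2 * |A i₂ j₂| ≤ (τ l j - τ l₀ j₀) * |A i₂ j₂| :=
        mul_le_mul_of_nonneg_right h2 (abs_nonneg _)
      have h10 : D / 2 * ((4 * m + 10) * ζ / D) = (2 * m + 5) * ζ := by
        field_simp; ring
      linarith
    rcases lt_or_gt_of_ne (hne i₂ hi2N j₂) with hneg | hpos
    · rw [abs_of_neg hneg] at h7
      have h8 : (τ i₂ j₂ - τ l₀ j₀) * A l j < 0 := by
        have e : (τ l j - τ l₀ j₀) * -A i₂ j₂ = -((τ l j - τ l₀ j₀) * A i₂ j₂) := by ring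
        rw [e] at h7
        nlinarith [h1.2, h6.2]
      rw [pos_iff_of_mul_neg h8]
      constructor
      · intro hx
        exact mul_pos_of_neg_of_neg hx hneg
      · intro hx
        by_contra hx2
        exact absurd hx (not_lt.2 (mul_nonpos_of_nonneg_of_nonpos (not_lt.1 hx2) hneg.le))
    · rw [abs_of_pos hpos] at h7
      have h8 : 0 < (τ i₂ j₂ - τ l₀ j₀) * A l j := by
        nlinarith [h1.1, h6.1]
      rw [pos_iff_of_mul_pos h8]
      constructor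
      · intro hx
        exact mul_pos hx hpos
      · intro hx
        exact pos_of_mul_pos_left hx hpos.le

end M_RULE

open M_RULE in
/-- The sign rule for unpinned lines. -/
theorem m_RULE : Stmt_RULE := by
  intro P D M hTimes m ζ δ ε R T b e y₀ s₀ a hGap hζ hε hT hR hδ he w y s t t' hwm hreal hpin
  have hD1 : 1 ≤ D := hTimes.1
  have hD : 0 < D := by linarith
  obtain ⟨hbox, hra⟩ := hreal
  have hs1 : |s| ≤ 1 := hra.1.slope_le (by linarith) (by linarith)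
  obtain ⟨r, hmono, hrange, hstep, hdist, hfar⟩ := hra.times hTimes he
  have hgen := hra.2.2.2.2.2
  have hlu := (norm_lu he s).2
  have hlate : ∀ l l', l + M ≤ l' → l' < w.length → ∀ j j' : ZMod P.k,
      D / 2 ≤ tc b e (dev P (w.take l') (P.vertex j')) - tc b e (dev P (w.take l) (P.vertex j)) := by
    intro l l' hll hl' j j'
    have h1 := hfar l l' hll hl'.le
    have h2 := hmono l l' (by omega) hl'.le
    have h3 : ‖lu e s‖ * (r l' - r l) ≤ 2 * (r l' - r l) :=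
      mul_le_mul_of_nonneg_right (by linarith) (by linarith)
    have h4 := abs_le.1 (hdist l (by omega) j)
    have h5 := abs_le.1 (hdist l' hl'.le j')
    linarith
  have hspan : ∀ l < w.length, ∀ l' < w.length, ∀ j j' : ZMod P.k,
      |tc b e (dev P (w.take l) (P.vertex j)) - tc b e (dev P (w.take l') (P.vertex j'))|
        ≤ (m + 2) * D := by
    intro l hl l' hl' j j'
    have h4 := abs_le.1 (hdist l hl.le j)
    have h5 := abs_le.1 (hdist l' hl'.le j')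
    have hwm' : (w.length : ℝ) ≤ m := by exact_mod_cast hwm
    have h6 : |r l - r l'| ≤ m * D := by
      rcases le_total l l' with h | h
      · have h7 := hstep l l' h hl'.le
        have h8 := hmono l l' h hl'.le
        have h9 : ((l' : ℝ) - l) ≤ m := by
          have : (l' : ℝ) ≤ w.length := by exact_mod_cast hl'.le
          have h0 : (0 : ℝ) ≤ l := Nat.cast_nonneg l
          linarith
        have h10 : ((l' : ℝ) - l) * D ≤ m * D := mul_le_mul_of_nonneg_right h9 hD.le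
        rw [abs_le]
        constructor <;> nlinarith
      · have h7 := hstep l' l h hl.le
        have h8 := hmono l' l h hl.le
        have h9 : ((l : ℝ) - l') ≤ m := by
          have : (l : ℝ) ≤ w.length := by exact_mod_cast hl.le
          have h0 : (0 : ℝ) ≤ l' := Nat.cast_nonneg l'
          linarith
        have h10 : ((l : ℝ) - l') * D ≤ m * D := mul_le_mul_of_nonneg_right h9 hD.le
        rw [abs_le]
        constructor <;> nlinarith
    have h7 := abs_le.1 h6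
    rw [abs_le]
    constructor <;> linarith
  have hne : ∀ l < w.length, ∀ j : ZMod P.k,
      sd (lz b e y) (lu e s) (dev P (w.take l) (P.vertex j)) ≠ 0 := fun l hl j =>
    hgen l hl.le j
  have hid : ∀ l₁ < w.length, ∀ l₂ < w.length, ∀ l₃ < w.length, ∀ j₁ j₂ j₃ : ZMod P.k,
      |hr b e y₀ s₀ (dev P (w.take l₁) (P.vertex j₁))| ≤ ε →
      |hr b e y₀ s₀ (dev P (w.take l₂) (P.vertex j₂))| ≤ ε →
      |hr b e y₀ s₀ (dev P (w.take l₃) (P.vertex j₃))| ≤ ε →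
      |(tc b e (dev P (w.take l₂) (P.vertex j₂)) - tc b e (dev P (w.take l₁) (P.vertex j₁))) *
          sd (lz b e y) (lu e s) (dev P (w.take l₃) (P.vertex j₃)) -
        ((tc b e (dev P (w.take l₂) (P.vertex j₂)) - tc b e (dev P (w.take l₃) (P.vertex j₃))) *
          sd (lz b e y) (lu e s) (dev P (w.take l₁) (P.vertex j₁)) +
        (tc b e (dev P (w.take l₃) (P.vertex j₃)) - tc b e (dev P (w.take l₁) (P.vertex j₁))) *
          sd (lz b e y) (lu e s) (dev P (w.take l₂) (P.vertex j₂)))| ≤ ζ := by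
    intro l₁ h₁ l₂ h₂ l₃ h₃ j₁ j₂ j₃ s₁ s₂ s₃
    have hG := hGap (w.take l₁) (w.take l₂) (w.take l₃) (by simp; omega) (by simp; omega)
      (by simp; omega) j₁ j₂ j₃
    have hsp2 := hspan l₂ h₂ l₁ h₁ j₂ j₁
    have hsp3 := hspan l₃ h₃ l₁ h₁ j₃ j₁
    generalize dev P (w.take l₁) (P.vertex j₁) = q₁ at *
    generalize dev P (w.take l₂) (P.vertex j₂) = q₂ at *
    generalize dev P (w.take l₃) (P.vertex j₃) = q₃ at *
    rw [cr_frame (b := b) he] at hG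
    unfold hr at s₁ s₂ s₃
    rw [sd_frame he, sd_frame he, sd_frame he]
    generalize tc b e q₁ = τ₁ at *
    generalize tc b e q₂ = τ₂ at *
    generalize tc b e q₃ = τ₃ at *
    generalize hc b e q₁ = x₁ at *
    generalize hc b e q₂ = x₂ at *
    generalize hc b e q₃ = x₃ at *
    have e1 : (τ₂ - τ₁) * (x₃ - (y + s * τ₃)) -
        ((τ₂ - τ₃) * (x₁ - (y + s * τ₁)) + (τ₃ - τ₁) * (x₂ - (y + s * τ₂))) =
        -((x₂ - x₁) * (τ₃ - τ₁) - (τ₂ - τ₁) * (x₃ - x₁)) := by ring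
    rw [e1, abs_neg]
    have e2 : (x₂ - x₁) * (τ₃ - τ₁) - (τ₂ - τ₁) * (x₃ - x₁) =
        ((x₂ - (y₀ + s₀ * τ₂)) - (x₁ - (y₀ + s₀ * τ₁))) * (τ₃ - τ₁) -
        (τ₂ - τ₁) * ((x₃ - (y₀ + s₀ * τ₃)) - (x₁ - (y₀ + s₀ * τ₁))) := by ring
    have h4 : |(x₂ - x₁) * (τ₃ - τ₁) - (τ₂ - τ₁) * (x₃ - x₁)| < δ := by
      rw [e2]
      have h5 : |((x₂ - (y₀ + s₀ * τ₂)) - (x₁ - (y₀ + s₀ * τ₁))) * (τ₃ - τ₁)| ≤
          (2 * ε) * ((m + 2) * D) := by
        rw [abs_mul]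
        refine mul_le_mul ?_ hsp3 (abs_nonneg _) (by positivity)
        calc _ ≤ |x₂ - (y₀ + s₀ * τ₂)| + |x₁ - (y₀ + s₀ * τ₁)| := abs_sub _ _
          _ ≤ 2 * ε := by linarith
      have h6 : |(τ₂ - τ₁) * ((x₃ - (y₀ + s₀ * τ₃)) - (x₁ - (y₀ + s₀ * τ₁)))| ≤
          ((m + 2) * D) * (2 * ε) := by
        rw [abs_mul]
        refine mul_le_mul hsp2 ?_ (abs_nonneg _) (by positivity)
        calc _ ≤ |x₃ - (y₀ + s₀ * τ₃)| + |x₁ - (y₀ + s₀ * τ₁)| := abs_sub _ _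
          _ ≤ 2 * ε := by linarith
      have h7 := abs_sub (((x₂ - (y₀ + s₀ * τ₂)) - (x₁ - (y₀ + s₀ * τ₁))) * (τ₃ - τ₁))
        ((τ₂ - τ₁) * ((x₃ - (y₀ + s₀ * τ₃)) - (x₁ - (y₀ + s₀ * τ₁))))
      have h8 : (2 * ε) * ((m + 2) * D) + ((m + 2) * D) * (2 * ε) = 4 * ε * (m + 2) * D := by ring
      linarith
    rcases hG with h | h
    · exact h
    · linarith
  have hpin' : ∀ l < w.length, ∀ l' < w.length, ∀ j j' : ZMod P.k,
      D / 2 ≤ |tc b e (dev P (w.take l) (P.vertex j)) - tc b e (dev P (w.take l') (P.vertex j'))| →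
      |sd (lz b e y) (lu e s) (dev P (w.take l) (P.vertex j))| ≤ (4 * m + 10) * ζ / D →
      (4 * m + 10) * ζ / D < |sd (lz b e y) (lu e s) (dev P (w.take l') (P.vertex j'))| := by
    intro l hl l' hl' j j' h1 h2
    by_contra h3
    exact hpin ⟨l, hl, l', hl', j, j', h1, h2, not_lt.1 h3⟩
  exact abstract_rule w.length M m D ζ
    (fun l j => sd (lz b e y) (lu e s) (dev P (w.take l) (P.vertex j)))
    (fun l j => tc b e (dev P (w.take l) (P.vertex j)))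
    (fun l j => |hr b e y₀ s₀ (dev P (w.take l) (P.vertex j))| ≤ ε)
    hD hζ hne hid hlate hspan hpin'

end Pool.Agent.BCX
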