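import Pool.Agent.BCX.Stmts3
import Pool.Agent.BCX.RULE

/-!
# A quasi-polynomial bound for the billiard complexity of every polygon: the sign rule for good
lines   (helper76)
-/

open Set Filter Topology Metric
open scoped ComplexConjugate

namespace Pool.Agent.BCX

open Pool.Agent.Billiard Pool.Agent.Lib_helper45.Bil

namespace M_RULE2

open M_RULE

/-- The abstract sign rule with relative errors. -/
theorem abstract_rule2 {K : Type} (N M m : ℕ) (D Λ : ℝ) (A τ : ℕ → K → ℝ) (str : ℕ → K → Prop)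
    (hD : 1 ≤ D) (hΛ : 40 * ((m : ℝ) + 2) ≤ Λ) (hne : ∀ l < N, ∀ j, A l j ≠ 0)
    (hid : ∀ l₁ < N, ∀ l₂ < N, ∀ l₃ < N, ∀ j₁ j₂ j₃, str l₁ j₁ → str l₂ j₂ → str l₃ j₃ →
      Λ * |(τ l₂ j₂ - τ l₁ j₁) * A l₃ j₃ -
        ((τ l₂ j₂ - τ l₃ j₃) * A l₁ j₁ + (τ l₃ j₃ - τ l₁ j₁) * A l₂ j₂)| ≤
        max (max |A l₁ j₁| |A l₂ j₂|) |A l₃ j₃|)
    (hlate : ∀ l l', l + M ≤ l' → l' < N → ∀ j j', D / 2 ≤ τ l' j' - τ l j)
    (hspan : ∀ l < N, ∀ l' < N, ∀ j j', |τ l j - τ l' j'| ≤ (m + 2) * D) :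
    ∃ (i i₂ : ℕ) (κ β₁ β₂ : Prop), i ≤ N ∧ i₂ ≤ N ∧
      ∀ l < N, ∀ j, str l j →
        (l < i → (0 < A l j ↔ κ)) ∧ (i + M < l → l < i₂ → (0 < A l j ↔ β₁)) ∧
        (i + M < l → i₂ + M < l → (0 < A l j ↔ β₂)) := by
  classical
  have hm0 : (0 : ℝ) ≤ m := Nat.cast_nonneg m
  have hΛ80 : 80 ≤ Λ := by linarith
  have hΛ0 : 0 < Λ := by linarith
  have hD0 : 0 < D := by linarith
  -- both signs among the stages at most `n`
  let S : ℕ → Prop := fun n => ∃ l₁ ≤ n, ∃ l₂ ≤ n, ∃ j₁ j₂, str l₁ j₁ ∧ str l₂ j₂ ∧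
    A l₁ j₁ < 0 ∧ 0 < A l₂ j₂
  have hκ : ∀ i ≤ N, (∀ n < i, ¬ S n) → ∀ l < i, ∀ j, str l j →
      (0 < A l j ↔ ∃ l' < i, ∃ j', str l' j' ∧ 0 < A l' j') := by
    intro i hi hS l hl j hj
    constructor
    · intro h
      exact ⟨l, hl, j, hj, h⟩
    · rintro ⟨l', hl', j', hj', h'⟩
      by_contra hn
      have hneg : A l j < 0 := lt_of_le_of_ne (not_lt.1 hn) (hne l (by omega) j)
      exact hS (max l l') (max_lt hl hl')
        ⟨l, le_max_left _ _, l', le_max_right _ _, j, j', hj, hj', hneg, h'⟩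
  by_cases hex : ∃ n, n < N ∧ S n
  swap
  · have hno : ∀ n < N, ¬ S n := fun n hn hSn => hex ⟨n, hn, hSn⟩
    refine ⟨N, N, ∃ l' < N, ∃ j', str l' j' ∧ 0 < A l' j', True, True, le_rfl, le_rfl, ?_⟩
    intro l hl j hj
    exact ⟨fun _ => hκ N le_rfl hno l hl j hj, fun h => by omega, fun h => by omega⟩
  obtain ⟨i, ⟨hiN, hSi⟩, hmin⟩ : ∃ i, (i < N ∧ S i) ∧ ∀ n < i, ¬ S n := by
    refine ⟨Nat.find hex, Nat.find_spec hex, fun n hn hSn => ?_⟩
    exact Nat.find_min hex hn ⟨hn.trans (Nat.find_spec hex).1, hSn⟩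
  have hk := hκ i hiN.le hmin
  obtain ⟨l₁, hl₁, l₂, hl₂, j₁, j₂, s₁, s₂, n₁, p₂⟩ := hSi
  -- the error of the triple with the vertex `(n, j)`
  let c : ℕ → K → ℝ := fun n j => (τ l₂ j₂ - τ l₁ j₁) * A n j -
    ((τ l₂ j₂ - τ n j) * A l₁ j₁ + (τ n j - τ l₁ j₁) * A l₂ j₂)
  let s : ℝ := -A l₁ j₁ + A l₂ j₂
  have hs0 : 0 < s := by
    show 0 < -A l₁ j₁ + A l₂ j₂
    linarith
  have key : ∀ l < N, ∀ j, str l j → i + M < l → |c l j| < D / 2 * s →
      (0 < A l j ↔ 0 < τ l₂ j₂ - τ l₁ j₁) := by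
    intro l hl j hj hil hc
    apply pos_iff_of_mul_pos
    have h1 := abs_lt.1 hc
    have h2 := hlate l₁ l (by omega) hl j₁ j
    have h3 := hlate l₂ l (by omega) hl j₂ j
    have h4 : D / 2 * (-A l₁ j₁) ≤ (τ l j - τ l₂ j₂) * (-A l₁ j₁) :=
      mul_le_mul_of_nonneg_right h3 (by linarith)
    have h5 : D / 2 * A l₂ j₂ ≤ (τ l j - τ l₁ j₁) * A l₂ j₂ :=
      mul_le_mul_of_nonneg_right h2 p₂.le
    have h6 : -(D / 2 * (-A l₁ j₁ + A l₂ j₂)) < (τ l₂ j₂ - τ l₁ j₁) * A l j -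
      ((τ l₂ j₂ - τ l j) * A l₁ j₁ + (τ l j - τ l₁ j₁) * A l₂ j₂) := h1.1
    nlinarith [h6]
  let Q : ℕ → Prop := fun n => i + M < n ∧ n < N ∧ ∃ j, str n j ∧ D / 2 * s ≤ |c n j|
  by_cases hQ : ∃ n, Q n
  swap
  · refine ⟨i, N, ∃ l' < i, ∃ j', str l' j' ∧ 0 < A l' j', 0 < τ l₂ j₂ - τ l₁ j₁, True,
      hiN.le, le_rfl, ?_⟩
    intro l hl j hj
    refine ⟨fun h => hk l h j hj, fun h _ => key l hl j hj h ?_, fun _ h => by omega⟩
    by_contra h'
    exact hQ ⟨l, h, hl, j, hj, not_lt.1 h'⟩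
  obtain ⟨i₂, ⟨hi2, hi2N, j', s', hc2⟩, hmin2⟩ : ∃ i₂, Q i₂ ∧ ∀ n < i₂, ¬ Q n :=
    ⟨Nat.find hQ, Nat.find_spec hQ, fun n hn => Nat.find_min hQ hn⟩
  -- the vertex `q₂ = (i₂, j')` is far from the line
  have hB : Λ * (D / 2 * s) ≤ |A i₂ j'| := by
    have h1 := hid l₁ (by omega) l₂ (by omega) i₂ hi2N j₁ j₂ j' s₁ s₂ s'
    have h2 : Λ * (D / 2 * s) ≤ Λ * |c i₂ j'| := mul_le_mul_of_nonneg_left hc2 hΛ0.le
    have h3 : Λ * |c i₂ j'| ≤ max (max |A l₁ j₁| |A l₂ j₂|) |A i₂ j'| := h1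
    have h4 : s < Λ * (D / 2 * s) := by
      have : 1 < Λ * (D / 2) := by nlinarith
      calc s = 1 * s := (one_mul s).symm
        _ < Λ * (D / 2) * s := mul_lt_mul_of_pos_right this hs0
        _ = Λ * (D / 2 * s) := by ring
    have h5 : |A l₁ j₁| ≤ s := by
      rw [abs_of_neg n₁]
      show -A l₁ j₁ ≤ -A l₁ j₁ + A l₂ j₂
      linarith
    have h6 : |A l₂ j₂| ≤ s := by
      rw [abs_of_pos p₂]
      show A l₂ j₂ ≤ -A l₁ j₁ + A l₂ j₂
      linarith
    rcases le_max_iff.1 (h2.trans h3) with h | h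
    · exact absurd (h.trans (max_le h5 h6)) (not_le.2 h4)
    · exact h
  have hA1 : |A l₁ j₁| * (Λ * D) ≤ 2 * |A i₂ j'| := by
    have h5 : |A l₁ j₁| ≤ s := by
      rw [abs_of_neg n₁]
      show -A l₁ j₁ ≤ -A l₁ j₁ + A l₂ j₂
      linarith
    have h6 : |A l₁ j₁| * (Λ * D) ≤ s * (Λ * D) := mul_le_mul_of_nonneg_right h5 (by positivity)
    nlinarith
  have hA1' : |A l₁ j₁| ≤ |A i₂ j'| := by
    have h0 := abs_nonneg (A l₁ j₁)
    have h1 : 2 ≤ Λ * D := by nlinarith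
    nlinarith
  refine ⟨i, i₂, ∃ l' < i, ∃ j', str l' j' ∧ 0 < A l' j', 0 < τ l₂ j₂ - τ l₁ j₁,
    0 < A i₂ j', hiN.le, hi2N.le, ?_⟩
  intro l hl j hj
  refine ⟨fun h => hk l h j hj, fun h h' => key l hl j hj h ?_, fun h h' => ?_⟩
  · by_contra h''
    exact hmin2 l h' ⟨h, hl, j, hj, not_lt.1 h''⟩
  have h1 := hid l₁ (by omega) i₂ hi2N l hl j₁ j' j s₁ s' hj
  have h2 := hlate l₁ i₂ (by omega) hi2N j₁ j'
  have h3 := hlate i₂ l (by omega) hl j' j
  have h4 := hspan i₂ hi2N l hl j' j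
  have h4' := hspan l hl l₁ (by omega) j j₁
  rw [max_eq_right hA1'] at h1
  have hBpos : 0 < |A i₂ j'| := abs_pos.2 (hne i₂ hi2N j')
  set B := A i₂ j' with hBdef
  set a := A l₁ j₁ with hadef
  set x := A l j with hxdef
  set σ := τ i₂ j' - τ l₁ j₁ with hσ
  set e := σ * x - ((τ i₂ j' - τ l j) * a + (τ l j - τ l₁ j₁) * B) with he
  have hterm1 : |(τ i₂ j' - τ l j) * a| ≤ D * |B| / 20 := by
    rw [abs_mul]
    have h5 : |τ i₂ j' - τ l j| * |a| ≤ ((m + 2) * D) * |a| :=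
      mul_le_mul_of_nonneg_right h4 (abs_nonneg _)
    have h6 : 40 * (((m : ℝ) + 2) * D * |a|) ≤ Λ * D * |a| := by
      have : 0 ≤ D * |a| := by positivity
      nlinarith
    have h7 : Λ * D * |a| ≤ 2 * |B| := by linarith
    have h8 : |B| ≤ D * |B| := by nlinarith
    linarith
  have hx : |x| ≤ 8 * (m + 2) * |B| := by
    by_cases hxB : |x| ≤ |B|
    · have : |B| ≤ 8 * (m + 2) * |B| := by nlinarith
      linarith
    rw [max_eq_right (not_le.1 hxB).le] at h1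
    have h5 : σ * x = e + ((τ i₂ j' - τ l j) * a + (τ l j - τ l₁ j₁) * B) := by
      rw [he]; ring
    have h6 : |σ * x| ≤ |e| + (|(τ i₂ j' - τ l j) * a| + |(τ l j - τ l₁ j₁) * B|) := by
      rw [h5]
      have h51 := abs_add_le ((τ i₂ j' - τ l j) * a) ((τ l j - τ l₁ j₁) * B)
      exact (abs_add_le _ _).trans (by linarith)
    have h7 : |(τ l j - τ l₁ j₁) * B| ≤ ((m + 2) * D) * |B| := by
      rw [abs_mul]
      exact mul_le_mul_of_nonneg_right h4' (abs_nonneg _)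
    have h8 : |σ * x| = σ * |x| := by
      rw [abs_mul, abs_of_nonneg (by linarith)]
    have h9 : D / 2 * |x| ≤ σ * |x| := mul_le_mul_of_nonneg_right h2 (abs_nonneg _)
    have h10 : |e| ≤ D / 80 * |x| := by
      have : 80 * |e| ≤ Λ * |e| := mul_le_mul_of_nonneg_right hΛ80 (abs_nonneg _)
      have : |x| ≤ D * |x| := by nlinarith [abs_nonneg x]
      linarith
    have h11 : D * |B| / 20 ≤ (m + 2) * D * |B| / 40 := by
      have : 2 * (D * |B|) ≤ (m + 2) * (D * |B|) := by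
        apply mul_le_mul_of_nonneg_right _ (by positivity)
        linarith
      linarith
    have h12 : D * (39 / 80 * |x|) ≤ D * (41 / 40 * ((m + 2) * |B|)) := by
      nlinarith
    have h13 := le_of_mul_le_mul_left h12 hD0
    have h14 : 0 ≤ (m + 2) * |B| := by positivity
    linarith
  have he' : |e| ≤ |B| / 5 := by
    have h5 : Λ * |e| ≤ 8 * (m + 2) * |B| := by
      refine h1.trans (max_le ?_ hx)
      nlinarith
    have h6 : 40 * (m + 2) * |e| ≤ Λ * |e| := mul_le_mul_of_nonneg_right hΛ (abs_nonneg _)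
    have h7 : ((m : ℝ) + 2) * |e| ≤ (m + 2) * (|B| / 5) := by linarith
    exact le_of_mul_le_mul_left h7 (by positivity)
  have h5 : D * |B| ≤ (τ l j - τ l₁ j₁) * |B| := by
    apply mul_le_mul_of_nonneg_right _ (abs_nonneg _)
    linarith
  have h6 : |B| ≤ D * |B| := by nlinarith
  have h7 := abs_le.1 he'
  have h8 := abs_le.1 hterm1
  have h9 : e = σ * x - ((τ i₂ j' - τ l j) * a + (τ l j - τ l₁ j₁) * B) := he
  have hσ0 : 0 < σ := by linarith
  rcases lt_or_gt_of_ne (hne i₂ hi2N j') with hneg | hpos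
  · have hneg' : B < 0 := hneg
    rw [abs_of_neg hneg'] at h5 h6 h7 h8
    have h10 : σ * x < 0 := by nlinarith
    have h11 : x < 0 := by
      by_contra hh
      exact absurd h10 (not_lt.2 (mul_nonneg hσ0.le (not_lt.1 hh)))
    exact iff_of_false (not_lt.2 h11.le) (not_lt.2 hneg'.le)
  · have hpos' : 0 < B := hpos
    rw [abs_of_pos hpos'] at h5 h6 h7 h8
    have h10 : 0 < σ * x := by nlinarith
    have h11 : 0 < x := by
      by_contra hh
      exact absurd h10 (not_lt.2 (mul_nonpos_of_nonneg_of_nonpos hσ0.le (not_lt.1 hh)))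
    exact iff_of_true h11 hpos'

end M_RULE2

open M_RULE M_RULE2 in
/-- The sign rule for good lines. -/
theorem m_RULE2 : Stmt_RULE2 := by
  intro P D M hTimes m Λ ε R T b e y₀ s₀ a hΛ hT hR he w y s t t' hwm hreal hgood
  have hD1 : 1 ≤ D := hTimes.1
  have hD : 0 < D := by linarith
  obtain ⟨hbox, hra⟩ := hreal
  have hs1 : |s| ≤ 1 := hra.1.slope_le (by linarith) (by linarith)
  obtain ⟨r, hmono, hrange, hstep, hdist, hfar⟩ := hra.times hTimes he
  have hgen := hra.2.2.2.2.2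
  have hlu := (norm_lu he s).2
  have hlate : ∀ l l', l + M ≤ l' → l' < w.length → ∀ j j' : ZMod P.k,
      D / 2 ≤ tc b e (dev P (w.take l') (P.vertex j')) - tc b e (dev P (w.take l) (P.vertex j)) := by
    intro l l' hll hl' j j'
    have h1 := hfar l l' hll hl'.le
    have h2 := hmono l l' (by omega) hl'.le
    have h3 : ‖lu e s‖ * (r l' - r l) ≤ 2 * (r l' - r l) :=
      mul_le_mul_of_nonneg_right (by linarith) (by linarith)
    have h4 := abs_le.1 (hdist l (by omega) j)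
    have h5 := abs_le.1 (hdist l' hl'.le j')
    linarith
  have hspan : ∀ l < w.length, ∀ l' < w.length, ∀ j j' : ZMod P.k,
      |tc b e (dev P (w.take l) (P.vertex j)) - tc b e (dev P (w.take l') (P.vertex j'))|
        ≤ (m + 2) * D := by
    intro l hl l' hl' j j'
    have h4 := abs_le.1 (hdist l hl.le j)
    have h5 := abs_le.1 (hdist l' hl'.le j')
    have hwm' : (w.length : ℝ) ≤ m := by exact_mod_cast hwm
    have h6 : |r l - r l'| ≤ m * D := by
      rcases le_total l l' with h | h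
      · have h7 := hstep l l' h hl'.le
        have h8 := hmono l l' h hl'.le
        have h9 : ((l' : ℝ) - l) ≤ m := by
          have : (l' : ℝ) ≤ w.length := by exact_mod_cast hl'.le
          have h0 : (0 : ℝ) ≤ l := Nat.cast_nonneg l
          linarith
        have h10 : ((l' : ℝ) - l) * D ≤ m * D := mul_le_mul_of_nonneg_right h9 hD.le
        rw [abs_le]
        constructor <;> nlinarith
      · have h7 := hstep l' l h hl.le
        have h8 := hmono l' l h hl.le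
        have h9 : ((l : ℝ) - l') ≤ m := by
          have : (l : ℝ) ≤ w.length := by exact_mod_cast hl.le
          have h0 : (0 : ℝ) ≤ l' := Nat.cast_nonneg l'
          linarith
        have h10 : ((l : ℝ) - l') * D ≤ m * D := mul_le_mul_of_nonneg_right h9 hD.le
        rw [abs_le]
        constructor <;> nlinarith
    have h7 := abs_le.1 h6
    rw [abs_le]
    constructor <;> linarith
  have hne : ∀ l < w.length, ∀ j : ZMod P.k,
      sd (lz b e y) (lu e s) (dev P (w.take l) (P.vertex j)) ≠ 0 := fun l hl j =>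
    hgen l hl.le j
  have hid : ∀ l₁ < w.length, ∀ l₂ < w.length, ∀ l₃ < w.length, ∀ j₁ j₂ j₃ : ZMod P.k,
      |hr b e y₀ s₀ (dev P (w.take l₁) (P.vertex j₁))| ≤ ε →
      |hr b e y₀ s₀ (dev P (w.take l₂) (P.vertex j₂))| ≤ ε →
      |hr b e y₀ s₀ (dev P (w.take l₃) (P.vertex j₃))| ≤ ε →
      Λ * |(tc b e (dev P (w.take l₂) (P.vertex j₂)) - tc b e (dev P (w.take l₁) (P.vertex j₁))) *
          sd (lz b e y) (lu e s) (dev P (w.take l₃) (P.vertex j₃)) -
        ((tc b e (dev P (w.take l₂) (P.vertex j₂)) - tc b e (dev P (w.take l₃) (P.vertex j₃))) *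
          sd (lz b e y) (lu e s) (dev P (w.take l₁) (P.vertex j₁)) +
        (tc b e (dev P (w.take l₃) (P.vertex j₃)) - tc b e (dev P (w.take l₁) (P.vertex j₁))) *
          sd (lz b e y) (lu e s) (dev P (w.take l₂) (P.vertex j₂)))| ≤
        max (max |sd (lz b e y) (lu e s) (dev P (w.take l₁) (P.vertex j₁))|
          |sd (lz b e y) (lu e s) (dev P (w.take l₂) (P.vertex j₂))|)
          |sd (lz b e y) (lu e s) (dev P (w.take l₃) (P.vertex j₃))| := by
    intro l₁ h₁ l₂ h₂ l₃ h₃ j₁ j₂ j₃ s₁ s₂ s₃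
    have hG := hgood l₁ h₁ l₂ h₂ l₃ h₃ j₁ j₂ j₃ s₁ s₂ s₃
    generalize dev P (w.take l₁) (P.vertex j₁) = q₁ at *
    generalize dev P (w.take l₂) (P.vertex j₂) = q₂ at *
    generalize dev P (w.take l₃) (P.vertex j₃) = q₃ at *
    refine le_trans (le_of_eq ?_) hG
    congr 1
    rw [cr_frame (b := b) he, sd_frame he, sd_frame he, sd_frame he, ← abs_neg]
    congr 1
    ring
  exact abstract_rule2 w.length M m D Λ
    (fun l j => sd (lz b e y) (lu e s) (dev P (w.take l) (P.vertex j)))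
    (fun l j => tc b e (dev P (w.take l) (P.vertex j)))
    (fun l j => |hr b e y₀ s₀ (dev P (w.take l) (P.vertex j))| ≤ ε)
    hD1 hΛ hne hid hlate hspan

end Pool.Agent.BCX
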