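import Pool.Agent.BCX.Stmts3
import Pool.Agent.BCX.FOLD

/-!
# Doubling: the closest bad triple and time reversal
-/

open Set Filter Topology Metric MeasureTheory
open scoped ComplexConjugate

namespace Pool.Agent.BCX

open Pool.Agent.Billiard Pool.Agent.Lib_helper45.Bil

namespace STEP

variable {P : Polygon}

theorem lrefl_lrefl' (a : ZMod P.k) (u : ℂ) : lrefl P a (lrefl P a u) = u := by
  have h := refl_add' (P := P) a (Lib_helper45.Bil.refl P a 0) (lrefl P a u)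
  have h2 := refl_add' (P := P) a 0 u
  rw [zero_add] at h2
  rw [← h2, refl_refl, refl_refl, zero_add] at h
  exact h.symm

/-- The line misses the vertices of the stages of the word. -/
theorem sd_ne {a : ZMod P.k} {w : List (ZMod P.k)} {z u : ℂ}
    (h : Gen P (Lib_helper45.Bil.refl P a z) (lrefl P a u) (a :: w)) :
    ∀ i ≤ w.length, ∀ j, sd z u (dev P (w.take i) (P.vertex j)) ≠ 0 := by
  intro i hi j h0
  have h1 := h (i + 1) (by simpa using hi) j
  apply h1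
  rw [List.take_succ_cons]
  show sd _ _ (Lib_helper45.Bil.refl P a (dev P (w.take i) (P.vertex j))) = 0
  rw [FOLD.sd_refl, refl_refl, lrefl_lrefl', h0, neg_zero]

theorem sd_ne_fold {w₁ w₂ : List (ZMod P.k)} {z u : ℂ}
    (h : ∀ i ≤ (w₁ ++ w₂).length, ∀ j, sd z u (dev P ((w₁ ++ w₂).take i) (P.vertex j)) ≠ 0) :
    ∀ i ≤ w₂.length, ∀ j,
      sd (foldz P w₁ z) (foldu P w₁ u) (dev P (w₂.take i) (P.vertex j)) ≠ 0 := by
  intro i hi j h0
  apply h (w₁.length + i) (by rw [List.length_append]; omega) j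
  rw [List.take_length_add_append, FOLD.dev_append, FOLD.sd_dev, h0, mul_zero]

/-- The least distance of a bad triple. -/
theorem exists_min {Λ : ℝ} {z u : ℂ} {w : List (ZMod P.k)} (hu : u ≠ 0)
    (hne : ∀ i ≤ w.length, ∀ j, sd z u (dev P (w.take i) (P.vertex j)) ≠ 0)
    {d : ℝ} (hd : Bad P Λ z u w d) :
    ∃ d₀ : ℝ, 0 < d₀ ∧ Bad P Λ z u w d₀ ∧ ∀ d' : ℝ, Bad P Λ z u w d' → d₀ ≤ d' := by
  classical
  haveI : NeZero P.k := ⟨by have := P.three_le; omega⟩
  let I := (Fin w.length × Fin w.length × Fin w.length) × (ZMod P.k × ZMod P.k × ZMod P.k)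
  let q : Fin w.length → ZMod P.k → ℂ := fun l j => dev P (w.take l) (P.vertex j)
  let val : I → ℝ := fun x => max (max (ld z u (q x.1.1 x.2.1)) (ld z u (q x.1.2.1 x.2.2.1)))
    (ld z u (q x.1.2.2 x.2.2.2))
  let χ : I → ℝ := fun x => |cr (q x.1.2.1 x.2.2.1 - q x.1.1 x.2.1)
    (q x.1.2.2 x.2.2.2 - q x.1.1 x.2.1)|
  have key : ∀ d : ℝ, Bad P Λ z u w d ↔ ∃ x : I, val x ≤ d ∧ d < Λ * χ x := by
    intro d
    constructor
    · rintro ⟨l₁, h1, l₂, h2, l₃, h3, j₁, j₂, j₃, a1, a2, a3, a4⟩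
      exact ⟨((⟨l₁, h1⟩, ⟨l₂, h2⟩, ⟨l₃, h3⟩), (j₁, j₂, j₃)), max_le (max_le a1 a2) a3, a4⟩
    · rintro ⟨x, h1, h2⟩
      exact ⟨x.1.1, x.1.1.2, x.1.2.1, x.1.2.1.2, x.1.2.2, x.1.2.2.2, x.2.1, x.2.2.1, x.2.2.2,
        (le_max_left _ _).trans ((le_max_left _ _).trans h1),
        (le_max_right _ _).trans ((le_max_left _ _).trans h1),
        (le_max_right _ _).trans h1, h2⟩
  obtain ⟨x₀, hx₀, hx₀'⟩ := (key d).1 hd
  let G : Finset I := Finset.univ.filter fun x => val x < Λ * χ x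
  have hG : G.Nonempty := ⟨x₀, by
    simp only [G, Finset.mem_filter, Finset.mem_univ, true_and]; linarith⟩
  obtain ⟨x₁, hx₁, hmin⟩ := G.exists_min_image val hG
  have hx₁' : val x₁ < Λ * χ x₁ := by
    simpa only [G, Finset.mem_filter, Finset.mem_univ, true_and] using hx₁
  refine ⟨val x₁, ?_, (key _).2 ⟨x₁, le_rfl, hx₁'⟩, ?_⟩
  · refine lt_of_lt_of_le ?_ ((le_max_left _ _).trans (le_max_left _ _))
    unfold ld
    apply div_pos
    · exact abs_pos.2 (hne _ x₁.1.1.2.le _)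
    · exact norm_pos_iff.2 hu
  · intro d' hd'
    obtain ⟨x, h1, h2⟩ := (key d').1 hd'
    exact (hmin x (by
      simp only [G, Finset.mem_filter, Finset.mem_univ, true_and]; linarith)).trans h1

end STEP

open STEP

theorem m_STEP (hTI : Stmt_TIMES) (hTR : Stmt_TRI) (hRE : Stmt_REV) (hGR : Stmt_GREP)
    (hHA : Stmt_HALF) : Stmt_STEP := by
  intro P
  obtain ⟨D, M, hD⟩ := hTI P
  obtain ⟨l₀, hl₀, htri⟩ := hTR P D M hD
  obtain ⟨C, hC⟩ := hHA P D M hD (max 40 l₀) (le_max_left _ _)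
  refine ⟨2 * C, fun m hm => ?_⟩
  have hCm := hC m hm
  haveI : NeZero P.k := ⟨by have := P.three_le; omega⟩
  set Λ : ℝ := max 40 l₀ * (m + 2) with hΛ
  have hΛl : l₀ ≤ Λ := by
    have h1 : l₀ ≤ max 40 l₀ := le_max_right _ _
    have h2 : (1 : ℝ) ≤ (m : ℝ) + 2 := by
      have : (0 : ℝ) ≤ m := Nat.cast_nonneg _
      linarith
    have h3 : (0 : ℝ) ≤ max 40 l₀ := le_trans (by norm_num) (le_max_left _ _)
    nlinarith
  set S : Set (List (ZMod P.k)) := {W : List (ZMod P.k) | ∃ (a : ZMod P.k)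
    (w₁ w₂ : List (ZMod P.k)) (z u : ℂ) (t t' : ℝ),
      W = a :: (w₁ ++ w₂) ∧ w₁.length = m ∧ w₂.length = m ∧ Rz P a (w₁ ++ w₂) z u t t' ∧
      Dom P Λ z u w₁ w₂} with hS
  have hfin : S.Finite := by
    apply (List.finite_length_eq (ZMod P.k) (2 * m + 1)).subset
    rintro W ⟨a, w₁, w₂, z, u, t, t', rfl, h1, h2, -, -⟩
    simp [h1, h2]; omega
  have hsub : WS P (2 * m + 1) ⊆ S ∪ List.reverse '' S := by
    rintro W ⟨hl, hW⟩
    obtain _ | ⟨a, w⟩ := W
    · simp at hl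
    have hwl : w.length = 2 * m := by simpa using hl
    obtain ⟨z, u, t, t', hR⟩ := hGR.1 P a w hW
    obtain ⟨w₁, w₂, rfl, h1, h2⟩ : ∃ w₁ w₂ : List (ZMod P.k), w = w₁ ++ w₂ ∧ w₁.length = m ∧
        w₂.length = m := ⟨w.take m, w.drop m, (List.take_append_drop m w).symm,
          by rw [List.length_take]; omega, by rw [List.length_drop]; omega⟩
    obtain ⟨hu, hx, hp, hg⟩ := id hR
    obtain ⟨t₁, hp1, hp2, hx2⟩ := FOLD.pathT_append w₁ w₂ z u t t' a hx hp
    have hne := sd_ne hg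
    have hne1 : ∀ i ≤ w₁.length, ∀ j, sd z u (dev P (w₁.take i) (P.vertex j)) ≠ 0 := by
      intro i hi j
      have h4 := hne i (by rw [List.length_append]; omega) j
      rwa [List.take_append_of_le_length hi] at h4
    have hne2 := sd_ne_fold hne
    have hu2 : foldu P w₁ u ≠ 0 := by
      rw [← norm_pos_iff, norm_foldu]; exact norm_pos_iff.2 hu
    have hw1 : w₁ ≠ [] := by rintro rfl; simp at h1; omega
    have hw2 : w₂ ≠ [] := by rintro rfl; simp at h2; omega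
    obtain ⟨d₁, hd₁, hb₁, hm₁⟩ := exists_min hu hne1 (htri Λ hΛl a w₁ z u t t₁ hw1 hu hx hp1)
    obtain ⟨d₂, hd₂, hb₂, hm₂⟩ := exists_min hu2 hne2
      (htri Λ hΛl _ w₂ _ _ t₁ t' hw2 hu2 hx2 hp2)
    rcases le_or_gt d₁ d₂ with h12 | h12
    · left
      exact ⟨a, w₁, w₂, z, u, t, t', rfl, h1, h2, hR, d₁, hd₁, hb₁, fun d' hd' hb =>
        absurd (hm₂ d' hb) (by linarith)⟩
    · right
      obtain ⟨a', w₁', w₂', z', u', s₁, s₂, h1', h2', hrev, hR', hB1, hB2⟩ :=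
        hRE P m a w₁ w₂ z u t t' hm h1 h2 hR
      refine ⟨a' :: (w₁' ++ w₂'), ⟨a', w₁', w₂', z', u', s₁, s₂, rfl, h1', h2', hR', d₂, hd₂,
        (hB1 Λ d₂).2 hb₂, fun d' hd' hb => ?_⟩, ?_⟩
      · exact absurd (hm₁ d' ((hB2 Λ d').1 hb)) (by linarith)
      · rw [hrev, List.reverse_reverse]
  calc P.complexity (2 * m + 1) = (WS P (2 * m + 1)).ncard := complexity_eq _
    _ ≤ (S ∪ List.reverse '' S).ncard := Set.ncard_le_ncard hsub (hfin.union (hfin.image _))
    _ ≤ S.ncard + (List.reverse '' S).ncard := Set.ncard_union_le _ _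
    _ ≤ S.ncard + S.ncard := by
        have := Set.ncard_image_le (f := List.reverse) hfin
        omega
    _ ≤ 2 * (C * m ^ C * P.complexity (m + 1)) := by omega
    _ ≤ 2 * C * m ^ (2 * C) * P.complexity (m + 1) := by
        have h1 : m ^ C ≤ m ^ (2 * C) := Nat.pow_le_pow_right hm (by omega)
        have h2 : C * m ^ C * P.complexity (m + 1) ≤ C * m ^ (2 * C) * P.complexity (m + 1) := by
          gcongr
        calc 2 * (C * m ^ C * P.complexity (m + 1))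
            ≤ 2 * (C * m ^ (2 * C) * P.complexity (m + 1)) := by omega
          _ = 2 * C * m ^ (2 * C) * P.complexity (m + 1) := by ring

end Pool.Agent.BCX
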