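import Pool.Agent.BCX.Stmts2

/-!
# Covering a box by smaller boxes
-/

open Set Filter Topology Metric MeasureTheory
open scoped ComplexConjugate

namespace Pool.Agent.BCX

open Pool.Agent.Billiard Pool.Agent.Lib_helper45.Bil

namespace SUBC

/-- Rounding to a grid. -/
theorem grid {ε' h v : ℝ} {G : ℕ} (hh : 0 < h) (hG : 1 ≤ G) (h1 : |v| ≤ ε') (h2 : 2 * ε' ≤ G * h) :
    |v - (round (v / h) : ℤ) * h| ≤ h / 2 ∧ round (v / h) ∈ Finset.Icc (-(G : ℤ)) (G : ℤ) := by
  have hr := abs_sub_round (v / h)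
  have e1 : v - (round (v / h) : ℤ) * h = (v / h - (round (v / h) : ℤ)) * h := by
    field_simp
  constructor
  · rw [e1, abs_mul, abs_of_pos hh]
    nlinarith
  · have hG' : (1 : ℝ) ≤ G := by exact_mod_cast hG
    have h3 : |v / h| ≤ G / 2 := by
      rw [abs_div, abs_of_pos hh, div_le_iff₀ hh]
      linarith
    have h4 : |((round (v / h) : ℤ) : ℝ)| ≤ G := by
      have := abs_sub_abs_le_abs_sub ((round (v / h) : ℤ) : ℝ) (v / h)
      rw [abs_sub_comm] at this
      linarith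
    rw [abs_le] at h4
    rw [Finset.mem_Icc]
    constructor
    · have : (-(G : ℝ)) ≤ ((round (v / h) : ℤ) : ℝ) := h4.1
      exact_mod_cast this
    · exact_mod_cast h4.2

end SUBC

/-- Cover a box by smaller boxes. -/
theorem m_SUBC : Stmt_SUBC := by
  intro P ε' ε'' R T G n X b e a hε hR hG h4 hX y₀ s₀
  classical
  set f : ℤ × ℤ → Set (List (ZMod P.k)) := fun p =>
    {w : List (ZMod P.k) | w.length = n ∧
      RealC P ε'' R T b e (y₀ + p.1 * (ε'' / 2)) (s₀ + p.2 * (ε'' / (2 * R))) a w} with hf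
  set I : Finset (ℤ × ℤ) := Finset.Icc (-(G : ℤ)) (G : ℤ) ×ˢ Finset.Icc (-(G : ℤ)) (G : ℤ) with hI
  have hfin : ∀ p, (f p).Finite := by
    intro p
    exact (List.finite_length_eq (ZMod P.k) n).subset (fun w hw => hw.1)
  have hsub : {w : List (ZMod P.k) | w.length = n ∧ RealC P ε' R T b e y₀ s₀ a w} ⊆
      ⋃ p ∈ I, f p := by
    rintro w ⟨hn, y, s, t, t', hb, hr⟩
    have hb' : |y - y₀| + |s - s₀| * R ≤ ε' := hb
    have hy : |y - y₀| ≤ ε' := by
      have : 0 ≤ |s - s₀| * R := by positivity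
      linarith
    have hs : |(s - s₀) * R| ≤ ε' := by
      rw [abs_mul, abs_of_pos hR]
      have : 0 ≤ |y - y₀| := abs_nonneg _
      linarith
    obtain ⟨g1, g2⟩ := SUBC.grid (h := ε'' / 2) (G := G) (by positivity) hG hy (by linarith)
    obtain ⟨g3, g4⟩ := SUBC.grid (h := ε'' / 2) (G := G) (by positivity) hG hs (by linarith)
    simp only [mem_iUnion]
    refine ⟨(round ((y - y₀) / (ε'' / 2)), round ((s - s₀) * R / (ε'' / 2))), ?_, ?_⟩
    · rw [hI, Finset.mem_product]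
      exact ⟨g2, g4⟩
    · refine ⟨hn, y, s, t, t', ?_, hr⟩
      show |y - (y₀ + _ * (ε'' / 2))| + |s - (s₀ + _ * (ε'' / (2 * R)))| * R ≤ ε''
      have e1 : |y - (y₀ + (round ((y - y₀) / (ε'' / 2)) : ℤ) * (ε'' / 2))| ≤ ε'' / 2 / 2 := by
        have : y - (y₀ + (round ((y - y₀) / (ε'' / 2)) : ℤ) * (ε'' / 2)) =
          (y - y₀) - (round ((y - y₀) / (ε'' / 2)) : ℤ) * (ε'' / 2) := by ring
        rw [this]; exact g1
      have e2 : |s - (s₀ + (round ((s - s₀) * R / (ε'' / 2)) : ℤ) * (ε'' / (2 * R)))| * R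
          ≤ ε'' / 2 / 2 := by
        have : (s - (s₀ + (round ((s - s₀) * R / (ε'' / 2)) : ℤ) * (ε'' / (2 * R)))) * R =
          (s - s₀) * R - (round ((s - s₀) * R / (ε'' / 2)) : ℤ) * (ε'' / 2) := by
          generalize ((round ((s - s₀) * R / (ε'' / 2)) : ℤ) : ℝ) = r
          field_simp
          ring
        rw [← abs_of_pos hR, ← abs_mul, abs_of_pos hR, this]; exact g3
      linarith
  have hU : (⋃ p ∈ I, f p).Finite := I.finite_toSet.biUnion (fun p _ => hfin p)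
  calc {w : List (ZMod P.k) | w.length = n ∧ RealC P ε' R T b e y₀ s₀ a w}.ncard
      ≤ (⋃ p ∈ I, f p).ncard := Set.ncard_le_ncard hsub hU
    _ ≤ ∑ p ∈ I, (f p).ncard := Finset.set_ncard_biUnion_le I f
    _ ≤ ∑ _p ∈ I, X := Finset.sum_le_sum (fun p _ => hX _ _)
    _ = (2 * G + 1) ^ 2 * X := by
      rw [Finset.sum_const, hI, Finset.card_product, Int.card_Icc, smul_eq_mul]
      have : ((G : ℤ) + 1 - -(G : ℤ)).toNat = 2 * G + 1 := by omega
      rw [this]; ring

end Pool.Agent.BCX
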