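import Pool.Agent.BCX.Stmts3
import Pool.Agent.BCX.RULE
import Pool.Agent.BCX.SUBC
import Pool.Agent.BCX.FOLD

/-!
# A quasi-polynomial bound for every polygon: the sub-box of a line whose first half dominates
-/

open Set Filter Topology Metric
open scoped ComplexConjugate

namespace Pool.Agent.BCX

open Pool.Agent.Billiard Pool.Agent.Lib_helper45.Bil

namespace M_SUBBOX

/-- The cross product in terms of signed heights over a line. -/
theorem cr_sd {b e : ℂ} (he : ‖e‖ = 1) (y s : ℝ) (q q' q'' : ℂ) :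
    cr (q' - q) (q'' - q) =
      (sd (lz b e y) (lu e s) q' - sd (lz b e y) (lu e s) q) * (tc b e q'' - tc b e q) -
      (tc b e q' - tc b e q) * (sd (lz b e y) (lu e s) q'' - sd (lz b e y) (lu e s) q) := by
  rw [M_RULE.cr_frame he, sd_frame he, sd_frame he, sd_frame he]
  ring

/-- The line `(y, s)` is close to the line through two points with different times. -/
theorem near_line {b e : ℂ} (he : ‖e‖ = 1) {y s d R L : ℝ} {q q' : ℂ}
    (hR : |tc b e q| ≤ R) (hL : 0 ≤ L) (hne : tc b e q' - tc b e q ≠ 0)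
    (hd : 4 * d ≤ L * |tc b e q' - tc b e q|)
    (h1 : |sd (lz b e y) (lu e s) q| ≤ 2 * d) (h2 : |sd (lz b e y) (lu e s) q'| ≤ 2 * d) :
    |s - cs b e q q'| ≤ L ∧ |y - cy b e q q'| ≤ 2 * d + L * R := by
  rw [sd_frame he] at h1 h2
  have hpos : 0 < |tc b e q' - tc b e q| := abs_pos.2 hne
  have e1 : (cs b e q q' - s) * (tc b e q' - tc b e q) =
      (hc b e q' - (y + s * tc b e q')) - (hc b e q - (y + s * tc b e q)) := by
    have h3 : cs b e q q' * (tc b e q' - tc b e q) = hc b e q' - hc b e q := by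
      unfold cs
      field_simp
    linear_combination h3
  have h4 : |cs b e q q' - s| * |tc b e q' - tc b e q| ≤ L * |tc b e q' - tc b e q| := by
    rw [← abs_mul, e1]
    calc _ ≤ |hc b e q' - (y + s * tc b e q')| + |hc b e q - (y + s * tc b e q)| := abs_sub _ _
      _ ≤ _ := by linarith
  have h5 : |cs b e q q' - s| ≤ L := le_of_mul_le_mul_right h4 hpos
  refine ⟨by rw [abs_sub_comm]; exact h5, ?_⟩
  have e2 : cy b e q q' - y = (hc b e q - (y + s * tc b e q)) -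
      (cs b e q q' - s) * tc b e q := by
    unfold cy
    ring
  rw [abs_sub_comm, e2]
  calc _ ≤ |hc b e q - (y + s * tc b e q)| + |(cs b e q q' - s) * tc b e q| := abs_sub _ _
    _ = |hc b e q - (y + s * tc b e q)| + |cs b e q q' - s| * |tc b e q| := by rw [abs_mul]
    _ ≤ 2 * d + L * R := add_le_add h1 (mul_le_mul h5 hR (abs_nonneg _) hL)

/-- Signed height against the height over the centre line. -/
theorem sd_hr {b e : ℂ} (he : ‖e‖ = 1) {y s y₀ s₀ ε R : ℝ} {q : ℂ} (hR : |tc b e q| ≤ R)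
    (hb : BoxC ε R y₀ s₀ y s) (hq : |hr b e y₀ s₀ q| ≤ ε) :
    |sd (lz b e y) (lu e s) q| ≤ 2 * ε := by
  have e1 : sd (lz b e y) (lu e s) q = hr b e y₀ s₀ q - ((y - y₀) + (s - s₀) * tc b e q) := by
    rw [sd_frame he]
    unfold hr
    ring
  rw [e1]
  have hb' : |y - y₀| + |s - s₀| * R ≤ ε := hb
  have h1 : |(s - s₀) * tc b e q| ≤ |s - s₀| * R := by
    rw [abs_mul]
    exact mul_le_mul_of_nonneg_left hR (abs_nonneg _)
  calc |hr b e y₀ s₀ q - ((y - y₀) + (s - s₀) * tc b e q)|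
      ≤ |hr b e y₀ s₀ q| + |(y - y₀) + (s - s₀) * tc b e q| := abs_sub _ _
    _ ≤ |hr b e y₀ s₀ q| + (|y - y₀| + |(s - s₀) * tc b e q|) := by
        gcongr
        exact abs_add_le _ _
    _ ≤ 2 * ε := by linarith

end M_SUBBOX

open M_SUBBOX FOLD in
theorem m_SUBBOX : Stmt_FOLD → Stmt_SUBBOX := by
  classical
  intro _ P D M hD m G Λ R T b e a w₁ w₂ y s t t' hm hl₁ hl₂ hΛ hT hR he hG h hdom
  obtain ⟨d, hd, hbad, hmin⟩ := hdom
  obtain ⟨l₁, hL₁, l₂, hL₂, l₃, hL₃, j₁, j₂, j₃, b₁, b₂, b₃, hχ⟩ := hbad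
  rw [hl₁] at hL₁ hL₂ hL₃
  have hD1 : 1 ≤ D := hD.1
  have hR2 : 2 ≤ R := by linarith
  have hR0 : 0 < R := by linarith
  have hm0 : (0 : ℝ) ≤ m := Nat.cast_nonneg m
  have hm2 : (0 : ℝ) < (m : ℝ) + 2 := by linarith
  have hlen : (w₁ ++ w₂).length = m + m := by rw [List.length_append, hl₁, hl₂]
  have htk : ∀ l < m, w₁.take l = (w₁ ++ w₂).take l := by
    intro l hl
    rw [List.take_append_of_le_length (by omega)]
  -- the three vertices
  set q₁ : ℂ := dev P (w₁.take l₁) (P.vertex j₁) with hq₁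
  set q₂ : ℂ := dev P (w₁.take l₂) (P.vertex j₂) with hq₂
  set q₃ : ℂ := dev P (w₁.take l₃) (P.vertex j₃) with hq₃
  set χ : ℝ := |cr (q₂ - q₁) (q₃ - q₁)| with hχd
  have hχ0 : 0 < χ := by
    by_contra hcon
    have : Λ * χ ≤ 0 := mul_nonpos_of_nonneg_of_nonpos (by linarith) (not_lt.1 hcon)
    linarith
  have hbox : Box 1 R y s := h.1
  have hs1 : |s| ≤ 1 := hbox.slope_le hR0 (by linarith)
  have hn1 : 1 ≤ ‖lu e s‖ := (norm_lu he s).1
  have hn2 : ‖lu e s‖ ≤ 2 := (norm_lu he s).2.trans (by linarith)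
  have hA : ∀ q : ℂ, ld (lz b e y) (lu e s) q ≤ d → |sd (lz b e y) (lu e s) q| ≤ 2 * d := by
    intro q hq
    unfold ld at hq
    rw [div_le_iff₀ (by linarith)] at hq
    nlinarith
  have a₁ := hA q₁ b₁
  have a₂ := hA q₂ b₂
  have a₃ := hA q₃ b₃
  -- times
  obtain ⟨r, hr1, hr2, hr3, hr4, -⟩ := h.times hD he
  have hspan : ∀ l < m, ∀ l' < m, ∀ j j' : ZMod P.k,
      |tc b e (dev P (w₁.take l') (P.vertex j')) - tc b e (dev P (w₁.take l) (P.vertex j))| ≤
        (m + 2) * D := by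
    intro l hl l' hl' j j'
    rw [htk l hl, htk l' hl']
    have c1 := abs_le.1 (hr4 l (by omega) j)
    have c2 := abs_le.1 (hr4 l' (by omega) j')
    have c3 : ∀ i i' : ℕ, i ≤ i' → i' < m → 0 ≤ r i' - r i ∧ r i' - r i ≤ m * D := by
      intro i i' hii hi'
      have c4 := hr1 i i' hii (by omega)
      have c5 := hr3 i i' hii (by omega)
      have c6 : ((i' : ℝ) - i) * D ≤ m * D := by
        apply mul_le_mul_of_nonneg_right _ (by linarith)
        have c7 : (i' : ℝ) ≤ m := by exact_mod_cast hi'.le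
        have c8 : (0 : ℝ) ≤ i := Nat.cast_nonneg i
        linarith
      exact ⟨by linarith, by linarith⟩
    rw [abs_le]
    rcases le_total l l' with hll | hll
    · obtain ⟨c4, c5⟩ := c3 l l' hll hl'
      constructor <;> nlinarith
    · obtain ⟨c4, c5⟩ := c3 l' l hll hl
      constructor <;> nlinarith
  have hτ₁ : |tc b e q₁| ≤ R := by
    rw [hq₁, htk l₁ hL₁]
    exact h.tc_le hD he hT hR l₁ (by omega) j₁
  have hcr := cr_sd (b := b) he y s q₁ q₂ q₃
  -- the cross product is small compared with the times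
  have hsum : χ ≤ 4 * d * (|tc b e q₂ - tc b e q₁| + |tc b e q₃ - tc b e q₁|) := by
    rw [hχd, hcr]
    have c1 : |sd (lz b e y) (lu e s) q₂ - sd (lz b e y) (lu e s) q₁| ≤ 4 * d :=
      (abs_sub _ _).trans (by linarith)
    have c2 : |sd (lz b e y) (lu e s) q₃ - sd (lz b e y) (lu e s) q₁| ≤ 4 * d :=
      (abs_sub _ _).trans (by linarith)
    refine (abs_sub _ _).trans ?_
    rw [abs_mul, abs_mul]
    have c3 := mul_le_mul_of_nonneg_right c1 (abs_nonneg (tc b e q₃ - tc b e q₁))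
    have c4 := mul_le_mul_of_nonneg_left c2 (abs_nonneg (tc b e q₂ - tc b e q₁))
    linarith
  -- the choice of the second point
  obtain ⟨g, hg⟩ : ∃ g : Bool, χ ≤ 8 * d * |tc b e (if g then q₂ else q₃) - tc b e q₁| ∧
      |sd (lz b e y) (lu e s) (if g then q₂ else q₃)| ≤ 2 * d ∧
      |tc b e (if g then q₂ else q₃) - tc b e q₁| ≤ (m + 2) * D := by
    rcases le_total |tc b e q₂ - tc b e q₁| |tc b e q₃ - tc b e q₁| with hc | hc
    · refine ⟨false, ?_⟩
      simp only [Bool.false_eq_true, if_false]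
      refine ⟨?_, a₃, hspan l₁ hL₁ l₃ hL₃ j₁ j₃⟩
      nlinarith
    · refine ⟨true, ?_⟩
      simp only [if_true]
      refine ⟨?_, a₂, hspan l₁ hL₁ l₂ hL₂ j₁ j₂⟩
      nlinarith
  set q' : ℂ := if g then q₂ else q₃ with hq'
  obtain ⟨hg1, hg2, hg3⟩ := hg
  have hΔ : 0 < |tc b e q' - tc b e q₁| := by
    by_contra hcon
    have : |tc b e q' - tc b e q₁| = 0 := le_antisymm (not_lt.1 hcon) (abs_nonneg _)
    rw [this, mul_zero] at hg1
    linarith
  have hχd2 : χ ≤ 8 * d * ((m + 2) * D) :=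
    hg1.trans (mul_le_mul_of_nonneg_left hg3 (by linarith))
  -- the line is close to the line through the two points
  have hfour : 4 * d ≤ 32 * Λ * d * |tc b e q' - tc b e q₁| := by
    have c1 : d ≤ Λ * (8 * d * |tc b e q' - tc b e q₁|) :=
      hχ.le.trans (mul_le_mul_of_nonneg_left hg1 (by linarith))
    linarith
  obtain ⟨hs, hy⟩ := near_line he (d := d) (R := R) (L := 32 * Λ * d) hτ₁ (by positivity)
    (abs_pos.1 hΔ) hfour a₁ hg2
  set ε₁ : ℝ := 66 * Λ ^ 2 * R * χ with hε₁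
  have hΛd : Λ * d ≤ Λ ^ 2 * χ := by nlinarith
  have hRd : R * (Λ * d) ≤ R * (Λ ^ 2 * χ) := mul_le_mul_of_nonneg_left hΛd hR0.le
  have hdR : d ≤ R * (Λ * d) := by
    have c1 : d ≤ Λ * d := by nlinarith
    have c2 : Λ * d ≤ R * (Λ * d) := by
      have : 0 ≤ Λ * d := by positivity
      nlinarith
    linarith
  have hy1 : |y - cy b e q₁ q'| ≤ ε₁ := by
    refine hy.trans ?_
    rw [hε₁]
    nlinarith
  have hs1' : |(s - cs b e q₁ q') * R| ≤ ε₁ := by
    rw [abs_mul, abs_of_pos hR0]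
    have c1 := mul_le_mul_of_nonneg_right hs hR0.le
    rw [hε₁]
    nlinarith
  set ε₂ : ℝ := χ / (64 * (m + 2) * D) with hε₂
  have hden : (0 : ℝ) < 64 * (m + 2) * D := by positivity
  have hε₂0 : 0 < ε₂ := div_pos hχ0 hden
  have hGε : 4 * ε₁ ≤ G * ε₂ := by
    have c1 : 16896 * Λ ^ 2 * R * (m + 2) * D * ε₂ ≤ G * ε₂ :=
      mul_le_mul_of_nonneg_right hG hε₂0.le
    have c2 : 16896 * Λ ^ 2 * R * (m + 2) * D * ε₂ = 4 * ε₁ := by
      rw [hε₂, hε₁]
      field_simp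
      ring
    linarith
  have hG1 : 1 ≤ G := by
    have c1 : (0 : ℝ) < G := by
      have : 0 < 16896 * Λ ^ 2 * R * (m + 2) * D := by positivity
      linarith
    have c2 : 0 < G := by exact_mod_cast c1
    omega
  obtain ⟨g1, g2⟩ := SUBC.grid (h := ε₂ / 2) (G := G) (by positivity) hG1 hy1 (by linarith)
  obtain ⟨g3, g4⟩ := SUBC.grid (h := ε₂ / 2) (G := G) (by positivity) hG1 hs1' (by linarith)
  set i : ℤ := round ((y - cy b e q₁ q') / (ε₂ / 2)) with hi
  set j : ℤ := round ((s - cs b e q₁ q') * R / (ε₂ / 2)) with hj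
  rw [Finset.mem_Icc] at g2 g4
  refine ⟨l₁, hL₁, l₂, hL₂, l₃, hL₃, j₁, j₂, j₃, g, i, j, abs_le.2 g2, abs_le.2 g4, ?_⟩
  intro p₁ p₂ p₃ p' X E Y S e₁ e₂ e₃ e₄ e₅ e₆ e₇ e₈
  rw [← hq₁] at e₁
  rw [← hq₂] at e₂
  rw [← hq₃] at e₃
  subst e₁ e₂ e₃
  rw [← hq'] at e₄
  subst e₄
  rw [← hχd] at e₅
  subst e₅
  rw [← hε₂] at e₆
  subst e₆
  refine ⟨hχ0, ?_⟩
  -- the line is in the sub-box
  have hbc : BoxC ε₂ R Y S y s := by
    show |y - Y| + |s - S| * R ≤ ε₂
    have c1 : |y - Y| ≤ ε₂ / 2 / 2 := by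
      have : y - Y = (y - cy b e q₁ q') - (i : ℝ) * (ε₂ / 2) := by rw [e₇]; ring
      rw [this]; exact g1
    have c2 : |s - S| * R ≤ ε₂ / 2 / 2 := by
      have : (s - S) * R = (s - cs b e q₁ q') * R - (j : ℝ) * (ε₂ / 2) := by
        rw [e₈]
        generalize ((j : ℤ) : ℝ) = x
        field_simp
        ring
      have hab : |s - S| * R = |(s - S) * R| := by rw [abs_mul, abs_of_pos hR0]
      rw [hab, this]; exact g3
    linarith
  obtain ⟨hbx, ht, ht', hx, hp, hgen⟩ := h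
  obtain ⟨t₁, h1, h2, h3⟩ := pathT_append w₁ w₂ _ _ t t' a hx hp
  have ha : |((-1 : ℝ)) ^ m| = 1 := by simp
  have hmm : ∀ x x' : ℝ, |(-1 : ℝ) ^ m * x - (-1 : ℝ) ^ m * x'| = |x - x'| := by
    intro x x'
    rw [← mul_sub, abs_mul, ha, one_mul]
  have hm1 : ∀ x : ℝ, |(-1 : ℝ) ^ m * x| = |x| := by
    intro x
    rw [abs_mul, ha, one_mul]
  have h1le := h1.le
  have h2le := h2.le
  have fz := fz_lz (P := P) w₁ b e y
  have fu := fu_lu (P := P) w₁ e s
  rw [hl₁] at fz fu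
  have he' : ‖foldu P w₁ e‖ = 1 := by rw [norm_foldu, he]
  have hbc' : BoxC ε₂ R ((-1) ^ m * Y) ((-1) ^ m * S) ((-1) ^ m * y) ((-1) ^ m * s) := by
    unfold BoxC at hbc ⊢
    rw [hmm, hmm]; exact hbc
  have hreal : RealAt P 1 R T (foldz P w₁ b) (foldu P w₁ e) (w₁.getLastD a) w₂
      ((-1) ^ m * y) ((-1) ^ m * s) t₁ t' := by
    refine ⟨?_, by linarith, ht', ?_, ?_, ?_⟩
    · unfold Box at hbx ⊢
      rw [hm1, hm1]; exact hbx
    · rw [← fz, ← fu]; exact h3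
    · rw [← fz, ← fu]; exact h2
    · intro i' hi' j' h0
      have h4 := hgen (w₁.length + i') (by rw [List.length_append]; omega) j'
      apply h4
      rw [List.take_length_add_append, dev_append, sd_dev, fz, fu, h0, mul_zero]
  refine ⟨(-1) ^ m * y, (-1) ^ m * s, t₁, t', ⟨hbc', hreal⟩, ?_⟩
  -- the second half is good
  intro k₁ hk₁ k₂ hk₂ k₃ hk₃ i₁ i₂ i₃ s₁ s₂ s₃
  have htc := hreal.tc_le hD he' hT hR
  have v₁ := sd_hr he' (htc k₁ hk₁.le i₁) hbc' s₁
  have v₂ := sd_hr he' (htc k₂ hk₂.le i₂) hbc' s₂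
  have v₃ := sd_hr he' (htc k₃ hk₃.le i₃) hbc' s₃
  have hn' : 1 ≤ ‖lu (foldu P w₁ e) ((-1) ^ m * s)‖ := (norm_lu he' _).1
  have hld : ∀ q : ℂ, ld (lz (foldz P w₁ b) (foldu P w₁ e) ((-1) ^ m * y))
      (lu (foldu P w₁ e) ((-1) ^ m * s)) q ≤
      |sd (lz (foldz P w₁ b) (foldu P w₁ e) ((-1) ^ m * y))
        (lu (foldu P w₁ e) ((-1) ^ m * s)) q| := by
    intro q
    unfold ld
    exact div_le_self (abs_nonneg _) hn'
  have hε₂d : 2 * ε₂ < d := by
    have c1 : ε₂ * (64 * (m + 2) * D) = χ := by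
      rw [hε₂]
      field_simp
    have c2 : ε₂ * (64 * (m + 2) * D) ≤ d / 8 * (64 * (m + 2) * D) := by
      rw [c1]
      linarith
    have c3 : ε₂ ≤ d / 8 := le_of_mul_le_mul_right c2 hden
    linarith
  set z' : ℂ := lz (foldz P w₁ b) (foldu P w₁ e) ((-1) ^ m * y) with hz'
  set u' : ℂ := lu (foldu P w₁ e) ((-1) ^ m * s) with hu'
  set x₁ : ℂ := dev P (w₂.take k₁) (P.vertex i₁) with hx₁
  set x₂ : ℂ := dev P (w₂.take k₂) (P.vertex i₂) with hx₂
  set x₃ : ℂ := dev P (w₂.take k₃) (P.vertex i₃) with hx₃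
  set d' : ℝ := max (max (ld z' u' x₁) (ld z' u' x₂)) (ld z' u' x₃) with hd'
  have hd'd : d' < d := by
    rw [hd']
    refine max_lt (max_lt ?_ ?_) ?_
    · exact (hld x₁).trans_lt (v₁.trans_lt hε₂d)
    · exact (hld x₂).trans_lt (v₂.trans_lt hε₂d)
    · exact (hld x₃).trans_lt (v₃.trans_lt hε₂d)
  have hnb := hmin d' hd'd
  rw [fz, fu] at hnb
  have hle : Λ * |cr (x₂ - x₁) (x₃ - x₁)| ≤ d' := by
    by_contra hcon
    exact hnb ⟨k₁, hk₁, k₂, hk₂, k₃, hk₃, i₁, i₂, i₃,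
      (le_max_left _ _).trans (le_max_left _ _), (le_max_right _ _).trans (le_max_left _ _),
      le_max_right _ _, not_le.1 hcon⟩
  exact hle.trans (max_le_max (max_le_max (hld x₁) (hld x₂)) (hld x₃))

end Pool.Agent.BCX
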