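import Pool.Agent.BCX.Stmts

/-!
# Upper bounds for the billiard complexity: crossing times
-/

open Set Filter Topology Metric MeasureTheory
open scoped ComplexConjugate

namespace Pool.Agent.BCX

open Pool.Agent.Billiard Pool.Agent.Lib_helper45.Bil

namespace TIMES

theorem rel_region {P : Polygon} {a : ZMod P.k} {x : ℂ} (h : x ∈ rel P a) : x ∈ P.region :=
  Gam_subset (rel_subset_Gam a h)

theorem core (P : Polygon) {D δ : ℝ} {M₀ : ℕ} (hD : ∀ x ∈ P.region, ∀ y ∈ P.region, dist x y ≤ D)
    (hM : ∀ (n : ℕ) (W : List (ZMod P.k)) (z u : ℂ) (t T : ℝ) (a : ZMod P.k), W.length = n →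
      u ≠ 0 → z + t * u ∈ rel P a → PathT P z u t W T →
      (W.length : ℝ) ≤ M₀ * (1 + ‖u‖ * (T - t) / δ)) :
    ∀ (w : List (ZMod P.k)) (z u : ℂ) (t t' : ℝ) (a : ZMod P.k), u ≠ 0 →
      z + t * u ∈ rel P a → PathT P z u t w t' →
      ∃ s : ℕ → ℝ, s 0 = t ∧ s w.length = t' ∧ (∀ i < w.length, s i ≤ s (i + 1)) ∧
        (∀ i < w.length, ‖u‖ * (s (i + 1) - s i) ≤ D) ∧
        (∀ i ≤ w.length, ∀ j, dist (z + s i * u) (dev P (w.take i) (P.vertex j)) ≤ D) ∧
        (∀ i ≤ w.length, PathT P z u t (w.take i) (s i)) ∧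
        (∀ i i' : ℕ, i ≤ i' → i' ≤ w.length →
          ((i' : ℝ) - i) ≤ M₀ * (1 + ‖u‖ * (s i' - s i) / δ)) := by
  intro w
  induction w with
  | nil =>
    intro z u t t' a hu hx hp
    refine ⟨fun _ => t, rfl, ?_, ?_, ?_, ?_, ?_, ?_⟩
    · exact (show t' = t from hp).symm
    · intro i hi
      simp at hi
    · intro i hi
      simp at hi
    · intro i hi j
      have h0 : ([] : List (ZMod P.k)).take i = [] := by simp
      rw [h0]
      exact hD _ (rel_region hx) _ (Gam_subset (vertex_mem_Gam j))
    · intro i hi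
      have h0 : ([] : List (ZMod P.k)).take i = [] := by simp
      rw [h0]
      exact rfl
    · intro i i' h1 h2
      have hi' : i' = 0 := by simpa using h2
      have hi : i = 0 := by omega
      subst hi' hi
      simp
  | cons c w ih =>
    rintro z u t T a hu hx ⟨t', ht, hU, hc, hp⟩
    have hx' : refl P c z + t' * lrefl P c u ∈ rel P c := by rw [refl_line hc]; exact hc
    obtain ⟨s', h0, hT, hm, hd, hv, hpre, hl⟩ := ih _ _ _ _ c (lrefl_ne_zero c hu) hx' hp
    rw [norm_lrefl] at hd hl
    set s : ℕ → ℝ := fun i => Nat.casesOn i t s' with hs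
    have hs0 : s 0 = t := rfl
    have hss : ∀ i, s (i + 1) = s' i := fun i => rfl
    have hdist : dist (z + t * u) (z + t' * u) = ‖u‖ * (t' - t) := by
      rw [dist_eq_norm]
      have : z + t * u - (z + t' * u) = ((t - t' : ℝ) : ℂ) * u := by push_cast; ring
      rw [this, norm_mul, Complex.norm_real, Real.norm_eq_abs, abs_of_neg (by linarith)]; ring
    have hpre' : ∀ i ≤ (c :: w).length, PathT P z u t ((c :: w).take i) (s i) := by
      intro i hi
      cases i with
      | zero => exact rfl
      | succ i =>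
        rw [List.length_cons] at hi
        rw [hss, List.take_succ_cons]
        exact ⟨t', ht, hU, hc, hpre i (by omega)⟩
    refine ⟨s, hs0, ?_, ?_, ?_, ?_, hpre', ?_⟩
    · rw [List.length_cons, hss]
      exact hT
    · intro i hi
      cases i with
      | zero => rw [hs0, hss, h0]; exact ht.le
      | succ i =>
        rw [List.length_cons] at hi
        rw [hss, hss]
        exact hm i (by omega)
    · intro i hi
      cases i with
      | zero =>
        rw [hss, hs0, h0, ← hdist]
        exact hD _ (rel_region hx) _ (rel_region hc)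
      | succ i =>
        rw [List.length_cons] at hi
        rw [hss, hss]
        exact hd i (by omega)
    · intro i hi j
      cases i with
      | zero =>
        rw [List.take_zero, hs0]
        exact hD _ (rel_region hx) _ (Gam_subset (vertex_mem_Gam j))
      | succ i =>
        rw [List.length_cons] at hi
        rw [hss, List.take_succ_cons]
        have h1 : z + s' i * u = refl P c (refl P c z + s' i * lrefl P c u) := by
          rw [refl_add, refl_refl, lrefl_lrefl]
        have h2 : dev P (c :: w.take i) (P.vertex j) = refl P c (dev P (w.take i) (P.vertex j)) := rfl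
        rw [h1, h2, dist_refl]
        exact hv i (by omega) j
    · intro i i' h1 h2
      cases i with
      | zero =>
        have h3 := hM _ _ _ _ _ _ a rfl hu hx (hpre' i' h2)
        rw [List.length_take, min_eq_left h2] at h3
        rw [hs0, Nat.cast_zero, sub_zero]
        exact h3
      | succ i =>
        obtain ⟨k, rfl⟩ : ∃ k, i' = k + 1 := ⟨i' - 1, by omega⟩
        rw [List.length_cons] at h2
        rw [hss, hss]
        have h3 := hl i k (by omega) (by omega)
        push_cast
        linarith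

end TIMES

/-- Crossing times. -/
theorem m_TIMES : Stmt_TIMES := by
  intro P
  obtain ⟨C, hC⟩ := Metric.isBounded_iff.1 P.isCompact.isBounded
  obtain ⟨M₀, δ, hδ, hM₀, hM⟩ := length_bound P
  set D : ℝ := max 1 C with hD
  have hD1 : 1 ≤ D := le_max_left _ _
  have hDC : ∀ x ∈ P.region, ∀ y ∈ P.region, dist x y ≤ D := fun x hx y hy =>
    (hC hx hy).trans (le_max_right _ _)
  obtain ⟨M, hMM⟩ := exists_nat_gt ((M₀ : ℝ) * (1 + 5 * D / δ))
  refine ⟨D, M, hD1, ?_⟩
  intro z u t t' w a hu hx hp
  obtain ⟨s, h0, hT, hm, hd, hv, hpre, hl⟩ := TIMES.core P hDC hM w z u t t' a hu hx hp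
  refine ⟨s, h0, hT, hm, hd, hv, ?_⟩
  intro i i' h1 h2
  have h3 := hl i i' (by omega) h2
  have h4 : ((i : ℝ) + M) ≤ i' := by exact_mod_cast h1
  by_contra hcon
  push Not at hcon
  have h5 : ‖u‖ * (s i' - s i) / δ ≤ 5 * D / δ := div_le_div_of_nonneg_right hcon.le hδ.le
  have h6 : (M₀ : ℝ) * (1 + ‖u‖ * (s i' - s i) / δ) ≤ M₀ * (1 + 5 * D / δ) :=
    mul_le_mul_of_nonneg_left (by linarith) (Nat.cast_nonneg _)
  linarith

end Pool.Agent.BCX
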