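import Pool.Agent.BCX.Stmts3

/-!
# There always are bad triples
-/

open Set Filter Topology Metric
open scoped ComplexConjugate

namespace Pool.Agent.BCX

open Pool.Agent.Billiard Pool.Agent.Lib_helper45.Bil

namespace M_TRI

/-- consecutive sides which point in opposite directions overlap -/
theorem overlap {a b c : ℂ} {l : ℝ} (hl : l < 0) (hc : c - b = l * (b - a)) (hab : a ≠ b) :
    ∃ p, p ∈ segment ℝ a b ∧ p ∈ segment ℝ b c ∧ p ≠ b := by
  have hd : b - a ≠ 0 := sub_ne_zero.2 (Ne.symm hab)
  set ε : ℝ := min 1 (-l) with hε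
  have h0 : 0 < ε := lt_min one_pos (by linarith)
  have h1 : ε ≤ 1 := min_le_left _ _
  have h2 : ε ≤ -l := min_le_right _ _
  refine ⟨b - ε * (b - a), ?_, ?_, ?_⟩
  · refine ⟨ε, 1 - ε, h0.le, by linarith, by ring, ?_⟩
    simp only [Complex.real_smul]
    push_cast
    ring
  · have h3 : 0 ≤ ε / (-l) := div_nonneg h0.le (by linarith)
    have h4 : ε / (-l) ≤ 1 := by
      rw [div_le_one (by linarith)]
      exact h2
    refine ⟨1 - ε / (-l), ε / (-l), by linarith, h3, by ring, ?_⟩
    simp only [Complex.real_smul]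
    have hl' : (l : ℂ) ≠ 0 := by
      exact_mod_cast hl.ne
    have e1 : c = b + l * (b - a) := by rw [← hc]; ring
    rw [e1]
    push_cast
    field_simp
    ring
  · intro h
    have h3 : (ε : ℂ) * (b - a) = 0 := by
      have : b - (ε : ℂ) * (b - a) - b = 0 := by rw [h]; ring
      linear_combination -this
    rcases mul_eq_zero.1 h3 with h4 | h4
    · exact h0.ne' (by exact_mod_cast h4)
    · exact hd h4

theorem dir_ne (P : Polygon) (i : ZMod P.k) : dir P i ≠ 0 := by
  unfold dir
  rw [sub_ne_zero]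
  intro h
  have h1 := P.injective h
  have h2 : (1 : ZMod P.k) = 0 := by linear_combination h1
  have h3 := P.three_le
  have : Fact (1 < P.k) := ⟨by omega⟩
  exact one_ne_zero h2

theorem exists_turn (P : Polygon) : ∃ i : ZMod P.k, cr (dir P i) (dir P (i + 1)) ≠ 0 := by
  by_contra hcon
  push Not at hcon
  -- next direction is a positive multiple
  have step : ∀ i : ZMod P.k, ∃ l : ℝ, 0 < l ∧ dir P (i + 1) = l * dir P i := by
    intro i
    have h1 := hcon i
    unfold cr at h1
    have hd := dir_ne P i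
    have hd' := dir_ne P (i + 1)
    set ρ : ℝ := (dir P i * conj (dir P (i + 1))).re with hρ
    have e1 : dir P i * conj (dir P (i + 1)) = (ρ : ℂ) :=
      Complex.ext (by simp [hρ]) (by simpa using h1)
    have e2 : conj (dir P i) * dir P (i + 1) = (ρ : ℂ) := by
      have := congrArg conj e1
      simpa using this
    have hn : (Complex.normSq (dir P i) : ℂ) ≠ 0 := by
      exact_mod_cast (Complex.normSq_pos.2 hd).ne'
    have e3 : dir P (i + 1) = ((ρ / Complex.normSq (dir P i) : ℝ) : ℂ) * dir P i := by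
      push_cast
      rw [div_mul_eq_mul_div, eq_div_iff hn, ← e2]
      rw [← Complex.mul_conj]
      ring
    have hnpos := Complex.normSq_pos.2 hd
    have hl0 : ρ / Complex.normSq (dir P i) ≠ 0 := by
      intro h0
      rw [h0] at e3
      apply hd'
      rw [e3]
      simp
    rcases lt_or_gt_of_ne hl0 with hl | hl
    · exfalso
      obtain ⟨p, p1, p2, p3⟩ := overlap (a := P.vertex i) (b := P.vertex (i + 1))
        (c := P.vertex (i + 1 + 1)) hl e3 (by
          intro h
          apply hd
          unfold dir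
          rw [h, sub_self])
      have h3 := P.inter_next i
      have h4 : p ∈ sideOf P.vertex i ∩ sideOf P.vertex (i + 1) := ⟨p1, p2⟩
      rw [h3] at h4
      exact p3 h4
    · exact ⟨_, hl, e3⟩
  have all : ∀ n : ℕ, ∃ l : ℝ, 0 < l ∧ dir P (n : ZMod P.k) = l * dir P 0 := by
    intro n
    induction n with
    | zero => exact ⟨1, one_pos, by simp⟩
    | succ n ih =>
      obtain ⟨l, l0, l1⟩ := ih
      obtain ⟨m, m0, m1⟩ := step (n : ZMod P.k)
      refine ⟨m * l, mul_pos m0 l0, ?_⟩
      rw [Nat.cast_succ, m1, l1]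
      push_cast
      ring
  have all' : ∀ i : ZMod P.k, ∃ l : ℝ, 0 < l ∧ dir P i = l * dir P 0 := by
    intro i
    obtain ⟨l, l0, l1⟩ := all i.val
    rw [ZMod.natCast_zmod_val] at l1
    exact ⟨l, l0, l1⟩
  choose l hl0 hl using all'
  have hsum : ∑ i : ZMod P.k, dir P i = 0 := by
    unfold dir
    rw [Finset.sum_sub_distrib]
    have := Equiv.sum_comp (Equiv.addRight (1 : ZMod P.k)) P.vertex
    simp only [Equiv.coe_addRight] at this
    rw [this, sub_self]
  have h2 : ((∑ i : ZMod P.k, l i : ℝ) : ℂ) * dir P 0 = 0 := by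
    push_cast
    rw [Finset.sum_mul, ← hsum]
    exact Finset.sum_congr rfl fun i _ => (hl i).symm
  rcases mul_eq_zero.1 h2 with h3 | h3
  · have h4 : ∑ i : ZMod P.k, l i = 0 := by exact_mod_cast h3
    have h5 : 0 < ∑ i : ZMod P.k, l i := Finset.sum_pos (fun i _ => hl0 i) ⟨0, Finset.mem_univ _⟩
    exact h5.ne' h4
  · exact dir_ne P 0 h3

theorem ld_le {z u q : ℂ} {t : ℝ} (hu : u ≠ 0) : ld z u q ≤ dist (z + t * u) q := by
  unfold ld
  rw [div_le_iff₀ (norm_pos_iff.2 hu)]
  have e1 : sd z u q = ((q - (z + t * u)) * conj u).im := by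
    unfold sd
    have : (q - (z + t * u)) * conj u = (q - z) * conj u - ((t * Complex.normSq u : ℝ) : ℂ) := by
      push_cast
      rw [← Complex.mul_conj]
      ring
    rw [this, Complex.sub_im, Complex.ofReal_im, sub_zero]
  rw [e1]
  refine (Complex.abs_im_le_norm _).trans ?_
  rw [norm_mul, Complex.norm_conj, dist_comm, dist_eq_norm]

end M_TRI

open M_TRI in
theorem m_TRI : Stmt_TRI := by
  intro P D M hD
  obtain ⟨i, hi⟩ := exists_turn P
  have hc : cr (P.vertex (i + 1) - P.vertex i) (P.vertex (i + 1 + 1) - P.vertex i) ≠ 0 := by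
    have e : cr (P.vertex (i + 1) - P.vertex i) (P.vertex (i + 1 + 1) - P.vertex i) =
        cr (dir P i) (dir P (i + 1)) := by
      unfold cr dir
      have h1 : (P.vertex (i + 1) - P.vertex i) * conj (P.vertex (i + 1 + 1) - P.vertex i) =
          (P.vertex (i + 1) - P.vertex i) * conj (P.vertex (i + 1 + 1) - P.vertex (i + 1)) +
          (P.vertex (i + 1) - P.vertex i) * conj (P.vertex (i + 1) - P.vertex i) := by
        simp only [map_sub]
        ring
      rw [h1, Complex.add_im, Complex.mul_conj, Complex.ofReal_im, add_zero]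
    rw [e]
    exact hi
  have hpos := abs_pos.2 hc
  refine ⟨max 1 ((D + 1) / |cr (P.vertex (i + 1) - P.vertex i)
    (P.vertex (i + 1 + 1) - P.vertex i)|), le_max_left _ _, ?_⟩
  intro Λ hΛ a w z u t t' hw hu hrel hp
  have hlen : 0 < w.length := List.length_pos_iff.2 hw
  obtain ⟨s, s0, -, -, -, hs, -⟩ := hD.2 z u t t' w a hu hrel hp
  have hdist : ∀ j, ld z u (P.vertex j) ≤ D := by
    intro j
    have h1 := hs 0 (Nat.zero_le _) j
    rw [s0] at h1
    simp only [List.take_zero, dev] at h1
    exact (ld_le (t := t) hu).trans h1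
  refine ⟨0, hlen, 0, hlen, 0, hlen, i, i + 1, i + 1 + 1, ?_, ?_, ?_, ?_⟩
  · simpa [dev] using hdist i
  · simpa [dev] using hdist (i + 1)
  · simpa [dev] using hdist (i + 1 + 1)
  · simp only [List.take_zero, dev]
    have h1 := (le_max_right _ _).trans hΛ
    rw [div_le_iff₀ hpos] at h1
    linarith

end Pool.Agent.BCX
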