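import Pool.Agent.BCX.Stmts

/-!
# A line crosses an open side at most once

Module of helper10 for the project BCX of helper60 (MP_aaed04_an).
-/

open Set Filter Topology Metric
open scoped ComplexConjugate

namespace Pool.Agent.BCX

open Pool.Agent.Billiard Pool.Agent.Lib_helper45.Bil

namespace UNIQaux

theorem swap (x y : ℂ) : (x * conj y).im = -(y * conj x).im := by
  simp only [Complex.mul_im, Complex.conj_re, Complex.conj_im]
  ring

theorem time_unique {P : Polygon} {z u : ℂ} {a : ZMod P.k} {t₁ t₂ : ℝ}
    (h0 : sd z u (P.vertex a) ≠ 0) (h1 : z + t₁ * u ∈ rel P a) (h2 : z + t₂ * u ∈ rel P a) :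
    t₁ = t₂ := by
  have e1 := H_of_mem_rel h1
  have e2 := H_of_mem_rel h2
  rw [H_add] at e1 e2
  have htr : tr P a u ≠ 0 := by
    intro htr
    apply h0
    obtain ⟨l, _, _, hl⟩ := mem_rel_iff.1 h1
    have h3 : P.vertex a - z = t₁ * u - l * dir P a := by linear_combination -hl
    unfold sd
    rw [h3]
    have h4 : (t₁ * u - l * dir P a) * conj u = t₁ * (u * conj u) - l * (dir P a * conj u) := by
      ring
    rw [h4, Complex.sub_im, Complex.im_ofReal_mul, Complex.im_ofReal_mul, Complex.mul_conj,
      Complex.ofReal_im, swap (dir P a) u]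
    unfold tr at htr
    rw [htr]
    ring
  have h3 : (t₁ - t₂) * tr P a u = 0 := by linear_combination e1 - e2
  rcases mul_eq_zero.1 h3 with h | h
  · linarith
  · exact absurd h htr

end UNIQaux

theorem m_UNIQ : Stmt_UNIQ := by
  intro P z u a t₁ t₂ w w' h0 h1 h2 p1 p2 hl
  have := UNIQaux.time_unique h0 h1 h2
  subst this
  exact p1.unique p2 hl

end Pool.Agent.BCX
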