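import Pool.Agent.BCX.Stmts3

/-!
# Good lines of a box follow few words (counting by keys)
-/

open Set Filter Topology Metric MeasureTheory
open scoped ComplexConjugate

namespace Pool.Agent.BCX

open Pool.Agent.Billiard Pool.Agent.Lib_helper45.Bil

/-- The finite key of a word, apart from the two stages. -/
abbrev GKey (P : Polygon) (M : ℕ) : Type :=
  (Bool × Bool × Bool) × (Fin (M + 1) → ZMod P.k → Bool) × (Fin (M + 1) → ZMod P.k → Bool)

open Classical in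
/-- The key `K = (i, i₂, (κ, β₁, β₂), f, g)` describes the signs along the word `w`. -/
def GDesc (P : Polygon) (M m N : ℕ) (ε R T : ℝ) (b e : ℂ) (y₀ s₀ : ℝ) (a : ZMod P.k)
    (w : List (ZMod P.k)) (K : Fin (m + 1) × Fin (m + 1) × GKey P M) : Prop :=
  w.length = N ∧ ∃ y s t t', RealAtC P ε R T b e y₀ s₀ a w y s t t' ∧
    (∀ l < w.length, ∀ j, |hr b e y₀ s₀ (dev P (w.take l) (P.vertex j))| ≤ ε →
        (l < (K.1 : ℕ) → (0 < sd (lz b e y) (lu e s) (dev P (w.take l) (P.vertex j)) ↔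
          K.2.2.1.1 = true)) ∧
        ((K.1 : ℕ) + M < l → l < (K.2.1 : ℕ) →
          (0 < sd (lz b e y) (lu e s) (dev P (w.take l) (P.vertex j)) ↔ K.2.2.1.2.1 = true)) ∧
        ((K.1 : ℕ) + M < l → (K.2.1 : ℕ) + M < l →
          (0 < sd (lz b e y) (lu e s) (dev P (w.take l) (P.vertex j)) ↔
            K.2.2.1.2.2 = true))) ∧
    (∀ (r : Fin (M + 1)) (j : ZMod P.k),
      (0 < sd (lz b e y) (lu e s) (dev P (w.take ((K.1 : ℕ) + r)) (P.vertex j)) ↔
        K.2.2.2.1 r j = true)) ∧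
    (∀ (r : Fin (M + 1)) (j : ZMod P.k),
      (0 < sd (lz b e y) (lu e s) (dev P (w.take ((K.2.1 : ℕ) + r)) (P.vertex j)) ↔
        K.2.2.2.2 r j = true))

theorem GDesc.unique (h : Stmt_DET) {P : Polygon} {D : ℝ} {M : ℕ} (hT : TimesOK P D M)
    {m N : ℕ} {ε R T : ℝ} (hT0 : 0 ≤ T) (hR : T + D + 1 ≤ R) {b e : ℂ} (he : ‖e‖ = 1)
    {y₀ s₀ : ℝ} {a : ZMod P.k} {w w' : List (ZMod P.k)} {K : Fin (m + 1) × Fin (m + 1) × GKey P M}
    (h1 : GDesc P M m N ε R T b e y₀ s₀ a w K)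
    (h2 : GDesc P M m N ε R T b e y₀ s₀ a w' K) : w = w' := by
  obtain ⟨hl, y, s, t, t1, hr1, hrule, hf, hg⟩ := h1
  obtain ⟨hl', y', s', t', t1', hr1', hrule', hf', hg'⟩ := h2
  refine h P D M hT ε R T b e y₀ s₀ a w w' y s t t1 y' s' t' t1' hT0 hR he (by omega) hr1 hr1' ?_
  intro l hlw htake j hj
  have hlw' : l < w'.length := by omega
  have A := hrule l hlw j hj
  have hj' : |hr b e y₀ s₀ (dev P (w'.take l) (P.vertex j))| ≤ ε := by rw [← htake]; exact hj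
  have A' := hrule' l hlw' j hj'
  rw [← htake] at A'
  by_cases c1 : l < (K.1 : ℕ)
  · rw [A.1 c1, A'.1 c1]
  by_cases c2 : l ≤ (K.1 : ℕ) + M
  · have hr0 : l - (K.1 : ℕ) < M + 1 := by omega
    have e1 := hf ⟨l - (K.1 : ℕ), hr0⟩ j
    have e2 := hf' ⟨l - (K.1 : ℕ), hr0⟩ j
    have e3 : (K.1 : ℕ) + (l - (K.1 : ℕ)) = l := by omega
    simp only [e3] at e1 e2
    rw [← htake] at e2
    rw [e1, e2]
  by_cases c3 : l < (K.2.1 : ℕ)
  · rw [A.2.1 (by omega) c3, A'.2.1 (by omega) c3]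
  by_cases c4 : l ≤ (K.2.1 : ℕ) + M
  · have hr0 : l - (K.2.1 : ℕ) < M + 1 := by omega
    have e1 := hg ⟨l - (K.2.1 : ℕ), hr0⟩ j
    have e2 := hg' ⟨l - (K.2.1 : ℕ), hr0⟩ j
    have e3 : (K.2.1 : ℕ) + (l - (K.2.1 : ℕ)) = l := by omega
    simp only [e3] at e1 e2
    rw [← htake] at e2
    rw [e1, e2]
  · rw [A.2.2 (by omega) (by omega), A'.2.2 (by omega) (by omega)]

theorem GDesc.exists (h : Stmt_RULE2) {P : Polygon} {D : ℝ} {M : ℕ} (hT : TimesOK P D M)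
    {m N : ℕ} {Λ ε R T : ℝ} (hΛ : 40 * ((m : ℝ) + 2) ≤ Λ)
    (hT0 : 0 ≤ T) (hR : T + D + 1 ≤ R) {b e : ℂ} (he : ‖e‖ = 1)
    {y₀ s₀ : ℝ} {a : ZMod P.k} {w : List (ZMod P.k)} (hN : N ≤ m) (hw : w.length = N)
    {y s t t' : ℝ} (hr1 : RealAtC P ε R T b e y₀ s₀ a w y s t t')
    (hp : Good P Λ ε b e y₀ s₀ y s w) :
    ∃ K : Fin (m + 1) × Fin (m + 1) × GKey P M,
      GDesc P M m N ε R T b e y₀ s₀ a w K := by
  classical
  obtain ⟨i, i₂, κ, β₁, β₂, hi, hi₂, hrule⟩ := h P D M hT m Λ ε R T b e y₀ s₀ a hΛ hT0 hR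
    he w y s t t' (by omega) hr1 hp
  refine ⟨(⟨i, by omega⟩, ⟨i₂, by omega⟩, (decide κ, decide β₁, decide β₂),
    (fun r j => decide (0 < sd (lz b e y) (lu e s) (dev P (w.take (i + r)) (P.vertex j)))),
    (fun r j => decide (0 < sd (lz b e y) (lu e s) (dev P (w.take (i₂ + r)) (P.vertex j))))),
    hw, y, s, t, t', hr1, ?_, ?_, ?_⟩
  · intro l hl j hj
    obtain ⟨h1, h2, h3⟩ := hrule l hl j hj
    refine ⟨fun hh => ?_, fun hh hh' => ?_, fun hh hh' => ?_⟩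
    · simpa only [decide_eq_true_eq] using h1 hh
    · simpa only [decide_eq_true_eq] using h2 hh hh'
    · simpa only [decide_eq_true_eq] using h3 hh hh'
  · intro r j
    simp only [decide_eq_true_eq]
  · intro r j
    simp only [decide_eq_true_eq]

theorem m_UNP2 : Stmt_DET → Stmt_RULE2 → Stmt_UNP2 := by
  intro hDET hRULE P D M hT
  classical
  refine ⟨4 * Fintype.card (GKey P M), ?_, ?_⟩
  · have : 0 < Fintype.card (GKey P M) := Fintype.card_pos
    omega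
  intro m Λ ε R T hm hΛ hT0 hR b e y₀ s₀ a he
  set S : Set (List (ZMod P.k)) := {w : List (ZMod P.k) | w.length = m ∧ ∃ y s t t',
    RealAtC P ε R T b e y₀ s₀ a w y s t t' ∧ Good P Λ ε b e y₀ s₀ y s w} with hS
  have key : ∀ w ∈ S, ∃ K : Fin (m + 1) × Fin (m + 1) × GKey P M,
      GDesc P M m m ε R T b e y₀ s₀ a w K := by
    rintro w ⟨hw, y, s, t, t', hr1, hp⟩
    exact GDesc.exists hRULE hT hΛ hT0 hR he le_rfl hw hr1 hp
  have h0 : ∀ w : List (ZMod P.k), ∃ K : Fin (m + 1) × Fin (m + 1) × GKey P M, w ∈ S →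
      GDesc P M m m ε R T b e y₀ s₀ a w K := by
    intro w
    by_cases hw : w ∈ S
    · obtain ⟨K, hK⟩ := key w hw
      exact ⟨K, fun _ => hK⟩
    · exact ⟨(0, 0, (true, true, true), fun _ _ => true, fun _ _ => true), fun h => absurd h hw⟩
  choose f hf using h0
  have hinj : Set.InjOn f S := by
    intro w hw w' hw' hww
    have h1 := hf w hw
    have h2 := hf w' hw'
    rw [← hww] at h2
    exact GDesc.unique hDET hT hT0 hR he h1 h2
  have hcard : S.ncard ≤ (Set.univ : Set (Fin (m + 1) × Fin (m + 1) × GKey P M)).ncard :=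
    Set.ncard_le_ncard_of_injOn f (fun w _ => Set.mem_univ _) hinj Set.finite_univ
  have hc2 : (Set.univ : Set (Fin (m + 1) × Fin (m + 1) × GKey P M)).ncard
      = (m + 1) * ((m + 1) * Fintype.card (GKey P M)) := by
    rw [Set.ncard_univ, Nat.card_eq_fintype_card, Fintype.card_prod, Fintype.card_prod,
      Fintype.card_fin]
  have hc3 : (m + 1) * (m + 1) ≤ 4 * m ^ 2 := by nlinarith
  calc S.ncard ≤ (m + 1) * ((m + 1) * Fintype.card (GKey P M)) := by rw [← hc2]; exact hcard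
    _ = ((m + 1) * (m + 1)) * Fintype.card (GKey P M) := by ring
    _ ≤ (4 * m ^ 2) * Fintype.card (GKey P M) := Nat.mul_le_mul_right _ hc3
    _ = 4 * Fintype.card (GKey P M) * m ^ 2 := by ring

end Pool.Agent.BCX
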