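import Pool.Agent.BCX.QP
import Pool.Agent.BCX.TIMES
import Pool.Agent.BCX.LC
import Pool.Agent.BCX.UNIQ
import Pool.Agent.BCX.GENREP
import Pool.Agent.BCX.DET
import Pool.Agent.BCX.FOLD
import Pool.Agent.BCX.RULE2
import Pool.Agent.BCX.UNP2
import Pool.Agent.BCX.GREP
import Pool.Agent.BCX.REV
import Pool.Agent.BCX.NET
import Pool.Agent.BCX.TRI
import Pool.Agent.BCX.SUBBOX
import Pool.Agent.BCX.HALF
import Pool.Agent.BCX.STEP

/-!
# A quasi-polynomial bound for the billiard complexity of every polygon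
-/

open Set Filter Topology Metric MeasureTheory
open scoped ComplexConjugate

namespace Pool.Agent.BCX

open Pool.Agent.Billiard Pool.Agent.Lib_helper45.Bil

/-- Doubling: `F (2 m + 1) ≤ C m ^ C F (m + 1)`. -/
theorem step : Stmt_STEP :=
  m_STEP m_TIMES m_TRI m_REV (m_GREP m_GENREP)
    (m_HALF m_NET (m_SUBBOX m_FOLD) (m_UNP2 (m_DET m_LC m_UNIQ) m_RULE2) (m_GREP m_GENREP))

/-- Every polygon: `F n ≤ exp (C (log n) ^ 2)`. -/
theorem quasi (P : Polygon) : ∃ C : ℝ, ∀ n : ℕ, 2 ≤ n →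
    (P.complexity n : ℝ) ≤ Real.exp (C * (Real.log n) ^ 2) :=
  quasi_poly step P

end Pool.Agent.BCX
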