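import Pool.Agent.BCX.Stmts4
import Pool.Agent.BCX.FOLD

/-!
# Time gap of two close vertices (module GAP0)
-/

open Set Filter Topology Metric MeasureTheory
open scoped ComplexConjugate

namespace Pool.Agent.BCX

open Pool.Agent.Billiard Pool.Agent.Lib_helper45.Bil

namespace GAP0aux

variable {P : Polygon}

theorem SP_pathT (W : List (SL P)) : ∀ (z u : ℂ) (t : ℝ), SP P z u t W →
    ∃ T, PathT P z u t (lets W) T := by
  induction W with
  | nil => intro z u t _; exact ⟨t, rfl⟩
  | cons c W ih =>
    rintro z u t ⟨_, _, t', ht, hU, hc, h3⟩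
    obtain ⟨T, hT⟩ := ih _ _ _ h3
    exact ⟨T, t', ht, hU, hc, hT⟩

theorem dist_dev (V : List (ZMod P.k)) (p q : ℂ) : dist (dev P V p) (dev P V q) = dist p q := by
  induction V with
  | nil => rfl
  | cons a V ih =>
    show dist (Lib_helper45.Bil.refl P a (dev P V p)) (Lib_helper45.Bil.refl P a (dev P V q)) = _
    rw [Lib_helper45.Bil.dist_refl, ih]

/-- a positive lower bound for the positive elements of a finite set -/
theorem exists_lb {S : Set ℝ} (hS : S.Finite) : ∃ c : ℝ, 0 < c ∧ ∀ x ∈ S, 0 < x → c ≤ x := by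
  induction S, hS using Set.Finite.induction_on with
  | empty => exact ⟨1, one_pos, fun x hx => absurd hx (Set.notMem_empty x)⟩
  | insert _ _ ih =>
    rename_i a S _ _
    obtain ⟨c, hc, h⟩ := ih
    by_cases ha : 0 < a
    · refine ⟨min c a, lt_min hc ha, fun x hx h0 => ?_⟩
      rcases Set.mem_insert_iff.1 hx with rfl | hx
      · exact min_le_right _ _
      · exact (min_le_left _ _).trans (h x hx h0)
    · refine ⟨c, hc, fun x hx h0 => ?_⟩
      rcases Set.mem_insert_iff.1 hx with rfl | hx
      · exact absurd h0 ha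
      · exact h x hx h0

theorem dist_le_coord {b e : ℂ} (he : ‖e‖ = 1) (p q : ℂ) :
    dist p q ≤ |tc b e p - tc b e q| + |hc b e p - hc b e q| := by
  have h : p - q = (((tc b e p - tc b e q : ℝ) : ℂ) + ((hc b e p - hc b e q : ℝ) : ℂ) * Complex.I) *
      e := by
    push_cast
    linear_combination tc_hc_add b e he p - tc_hc_add b e he q
  rw [dist_eq_norm, h, norm_mul, he, mul_one]
  refine (norm_add_le _ _).trans ?_
  rw [norm_mul, Complex.norm_I, mul_one, Complex.norm_real, Complex.norm_real, Real.norm_eq_abs,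
    Real.norm_eq_abs]

theorem key {D : ℝ} {M : ℕ} (hT : TimesOK P D M) {c : ℝ} (hc1 : 4 * c ≤ 1)
    (hcd : ∀ v : List (ZMod P.k), v.length ≤ M → ∀ j j' : ZMod P.k,
      0 < dist (P.vertex j) (dev P v (P.vertex j')) →
      4 * c ≤ dist (P.vertex j) (dev P v (P.vertex j')))
    {g : ZMod P.k} {W : List (SL P)} {b e : ℂ} {y s : ℝ} (he : ‖e‖ = 1) (hs : |s| ≤ 1)
    (h : SR P g W (lz b e y) (lu e s)) {i i' : ℕ} (hii : i ≤ i') (hi' : i' < W.length)
    (j j' : ZMod P.k)
    (hne : dev P ((lets W).take i) (P.vertex j) ≠ dev P ((lets W).take i') (P.vertex j'))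
    (h1 : |sd (lz b e y) (lu e s) (dev P ((lets W).take i) (P.vertex j))| ≤ c)
    (h2 : |sd (lz b e y) (lu e s) (dev P ((lets W).take i') (P.vertex j'))| ≤ c) :
    c ≤ |tc b e (dev P ((lets W).take i) (P.vertex j)) -
      tc b e (dev P ((lets W).take i') (P.vertex j'))| := by
  by_cases hM : i' < i + M
  · -- close stages
    have hd : dist (dev P ((lets W).take i) (P.vertex j)) (dev P ((lets W).take i') (P.vertex j')) =
        dist (P.vertex j) (dev P (((lets W).drop i).take (i' - i)) (P.vertex j')) := by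
      have h3 : (lets W).take i' = (lets W).take i ++ ((lets W).drop i).take (i' - i) := by
        rw [← List.take_add, Nat.add_sub_cancel' hii]
      rw [h3, FOLD.dev_append, dist_dev]
    have h4 := hcd (((lets W).drop i).take (i' - i)) ((List.length_take_le _ _).trans (by omega)) j j'
      (by rw [← hd]; exact dist_pos.2 hne)
    rw [← hd] at h4
    set q := dev P ((lets W).take i) (P.vertex j) with hq
    set q' := dev P ((lets W).take i') (P.vertex j') with hq'
    have h5 := dist_le_coord (b := b) he q q'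
    have h6 : hc b e q - hc b e q' = sd (lz b e y) (lu e s) q - sd (lz b e y) (lu e s) q' +
        s * (tc b e q - tc b e q') := by
      rw [sd_frame he, sd_frame he]
      ring
    have h7 : |hc b e q - hc b e q'| ≤ c + c + |tc b e q - tc b e q'| := by
      rw [h6]
      refine (abs_add_le _ _).trans (add_le_add ((abs_sub _ _).trans (add_le_add h1 h2)) ?_)
      rw [abs_mul]
      exact mul_le_of_le_one_left (abs_nonneg _) hs
    linarith
  · -- distant stages
    obtain ⟨hu, t, ht, hSP⟩ := h
    obtain ⟨T, hPT⟩ := SP_pathT _ _ _ _ hSP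
    obtain ⟨hD, hT⟩ := hT
    obtain ⟨τ, -, -, -, -, hdist, hgap⟩ := hT _ _ _ _ _ _ hu ht hPT
    have hlen : (lets W).length = W.length := by simp [lets]
    have h3 := hdist i (by omega) j
    have h4 := hdist i' (by omega) j'
    have h5 := hgap i i' (by omega) (by omega)
    have h6 := (abs_tc_sub_le (b := b) he _ _).trans h3
    have h7 := (abs_tc_sub_le (b := b) he _ _).trans h4
    rw [tc_line he] at h6 h7
    have hn := (norm_lu he s).2
    have hn1 := (norm_lu he s).1
    have h8 : 5 * D ≤ 2 * (τ i' - τ i) := by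
      have h9 : 0 ≤ τ i' - τ i := by
        by_contra h10
        push Not at h10
        have h11 : ‖lu e s‖ * (τ i' - τ i) ≤ 0 :=
          mul_nonpos_of_nonneg_of_nonpos (by linarith) h10.le
        linarith
      have h12 : ‖lu e s‖ * (τ i' - τ i) ≤ 2 * (τ i' - τ i) :=
        mul_le_mul_of_nonneg_right (by linarith) h9
      linarith
    set q := dev P ((lets W).take i) (P.vertex j) with hq
    set q' := dev P ((lets W).take i') (P.vertex j') with hq'
    have h9 := abs_le.1 h6
    have h10 := abs_le.1 h7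
    rw [abs_sub_comm]
    refine le_trans ?_ (le_abs_self _)
    linarith [h9.1, h9.2, h10.1, h10.2]

end GAP0aux

/-- Time gap of two close vertices. -/
theorem m_GAP0 : Stmt_GAP0 := by
  intro P D M hT
  have hfin : {x : ℝ | ∃ v : List (ZMod P.k), v.length ≤ M ∧ ∃ j j' : ZMod P.k,
      x = dist (P.vertex j) (dev P v (P.vertex j'))}.Finite := by
    have h1 : ({v : List (ZMod P.k) | v.length ≤ M} ×ˢ (Set.univ : Set (ZMod P.k × ZMod P.k))).Finite :=
      (List.finite_length_le (ZMod P.k) M).prod Set.finite_univ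
    refine (h1.image fun x => dist (P.vertex x.2.1) (dev P x.1 (P.vertex x.2.2))).subset ?_
    rintro x ⟨v, hv, j, j', rfl⟩
    exact ⟨(v, (j, j')), ⟨hv, Set.mem_univ _⟩, rfl⟩
  obtain ⟨c₀, hc₀, hlb⟩ := GAP0aux.exists_lb hfin
  have hpos : 0 < min 1 c₀ / 4 := by positivity
  have hle1 : 4 * (min 1 c₀ / 4) ≤ 1 := by linarith [min_le_left (1 : ℝ) c₀]
  have hlec : 4 * (min 1 c₀ / 4) ≤ c₀ := by linarith [min_le_right (1 : ℝ) c₀]
  refine ⟨min 1 c₀ / 4, hpos, by linarith, ?_⟩
  have hc : ∀ v : List (ZMod P.k), v.length ≤ M → ∀ j j' : ZMod P.k,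
      0 < dist (P.vertex j) (dev P v (P.vertex j')) →
      4 * (min 1 c₀ / 4) ≤ dist (P.vertex j) (dev P v (P.vertex j')) := by
    intro v hv j j' h0
    exact hlec.trans (hlb _ ⟨v, hv, j, j', rfl⟩ h0)
  rintro g W b e y s he hs h q ⟨i, hi, j, rfl⟩ q' ⟨i', hi', j', rfl⟩ hne h1 h2
  rcases le_total i i' with hii | hii
  · exact GAP0aux.key hT hle1 hc he hs h hii hi' j j' hne h1 h2
  · rw [abs_sub_comm]
    exact GAP0aux.key hT hle1 hc he hs h hii hi j' j hne.symm h2 h1

end Pool.Agent.BCX
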