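import Pool.Agent.BCX.Stmts4
import Pool.Agent.BCX.Base

/-!
# Moving from a line towards another line of the same word (module HOMO)
-/

open Set Filter Topology Metric MeasureTheory
open scoped ComplexConjugate

namespace Pool.Agent.BCX

open Pool.Agent.Billiard Pool.Agent.Lib_helper45.Bil

namespace HOMOaux

theorem mix_pos {f g r : ℝ} (h : 0 < f * g) (h0 : 0 ≤ r) (h1 : r ≤ 1) :
    0 < f * ((1 - r) * f + r * g) := by
  have hf : 0 < f ^ 2 := by
    have : f ≠ 0 := by
      rintro rfl
      simp at h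
    positivity
  rcases lt_or_eq_of_le h1 with h2 | h2
  · have h3 : 0 < (1 - r) * f ^ 2 := mul_pos (by linarith) hf
    have h4 : 0 ≤ r * (f * g) := mul_nonneg h0 h.le
    nlinarith
  · rw [h2]
    simpa using h

theorem mix_abs {f g r : ℝ} (h : 0 < f * g) (h0 : 0 ≤ r) (h1 : r ≤ 1) :
    r * |g| ≤ |(1 - r) * f + r * g| := by
  have h2 : 0 ≤ 1 - r := by linarith
  rcases lt_trichotomy f 0 with hf | hf | hf
  · have hg : g < 0 := by
      by_contra hg
      push Not at hg
      nlinarith
    have h3 : (1 - r) * f + r * g ≤ 0 := by nlinarith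
    rw [abs_of_neg hg, abs_of_nonpos h3]
    nlinarith
  · rw [hf] at h; simp at h
  · have hg : 0 < g := by
      by_contra hg
      push Not at hg
      nlinarith
    have h3 : 0 ≤ (1 - r) * f + r * g := by nlinarith
    rw [abs_of_pos hg, abs_of_nonneg h3]
    nlinarith

end HOMOaux

open HOMOaux in
theorem m_HOMO : Stmt_SGN → Stmt_HOMO := by
  intro hSGN P g W b e y s y' s' r he hW h0 h1 h2 h3
  have hs := (hSGN P g).2.1 W _ _ _ _ h2 h3
  refine ⟨(hSGN P g).1 W b e y s _ _ he hW h2 fun q hq => ?_, fun q hq => ?_⟩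
  · rw [sd_mix he]
    exact mix_pos (hs q hq) h0 h1
  · rw [sd_mix he]
    exact mix_abs (hs q hq) h0 h1

end Pool.Agent.BCX
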