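import Pool.Agent.BCX.Stmts4

/-!
# `F_P(n) ≤ exp (C (log n)^{3/2})`: module INV (reparametrisation, frames)
-/

open Set Filter Topology Metric
open scoped ComplexConjugate

namespace Pool.Agent.BCX

open Pool.Agent.Billiard Pool.Agent.Lib_helper45.Bil

namespace INV

variable {P : Polygon}

theorem refl_addI (g : ZMod P.k) (z w : ℂ) :
    Lib_helper45.Bil.refl P g (z + w) = Lib_helper45.Bil.refl P g z + lrefl P g w := by
  unfold Lib_helper45.Bil.refl lrefl reflectDir
  simp only [map_add, map_sub]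
  ring

theorem lrefl_real (g : ZMod P.k) (l : ℝ) (u : ℂ) :
    lrefl P g (l * u) = l * lrefl P g u := by
  unfold lrefl reflectDir
  simp only [map_mul, Complex.conj_ofReal]
  ring

theorem lrefl_cplx (g : ZMod P.k) (w u : ℂ) :
    lrefl P g (w * u) = conj w * lrefl P g u := by
  unfold lrefl reflectDir
  simp only [map_mul]
  ring

theorem sd_repar (z u q : ℂ) (x l : ℝ) : sd (z + x * u) (l * u) q = l * sd z u q := by
  unfold sd
  have e : (q - (z + x * u)) * conj ((l : ℂ) * u) =
      (l : ℂ) * ((q - z) * conj u) - ((l * x * (Complex.normSq u) : ℝ) : ℂ) := by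
    rw [map_mul, Complex.conj_ofReal]
    push_cast
    rw [Complex.normSq_eq_conj_mul_self]
    ring
  rw [e, Complex.sub_im, Complex.ofReal_im, sub_zero, Complex.im_ofReal_mul]

theorem SP_repar {l : ℝ} (hl : 0 < l) (x : ℝ) : ∀ (W : List (SL P)) (z u : ℂ) (t : ℝ),
    SP P z u t W → SP P (z + x * u) (l * u) ((t - x) / l) W := by
  intro W
  induction W with
  | nil => intro z u t _; trivial
  | cons c W ih =>
    intro z u t h
    obtain ⟨h1, h2, t', h3, h4, h5, h6⟩ := h
    have hp : ∀ τ : ℝ, z + x * u + τ * (l * u) = z + ((x + τ * l : ℝ) : ℂ) * u := by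
      intro τ; push_cast; ring
    refine ⟨fun j => ?_, ?_, (t' - x) / l, ?_, fun τ hτ => ?_, ?_, ?_⟩
    · rw [sd_repar]
      exact mul_ne_zero hl.ne' (h1 j)
    · rw [h2]
      funext j
      unfold sgv
      rw [sd_repar]
      exact decide_eq_decide.2 (by rw [mul_pos_iff_of_pos_left hl])
    · exact div_lt_div_of_pos_right (by linarith) hl
    · rw [hp]
      refine h4 _ ⟨?_, ?_⟩
      · have := hτ.1
        rw [div_lt_iff₀ hl] at this
        linarith
      · have := hτ.2
        rw [lt_div_iff₀ hl] at this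
        linarith
    · rw [hp, div_mul_cancel₀ _ hl.ne', add_sub_cancel]
      exact h5
    · rw [refl_addI, lrefl_real, lrefl_real]
      exact ih _ _ _ h6

end INV

open INV in
theorem m_INV : Stmt_INV := by
  intro P b e z u y s
  have hlz : ∀ g : ZMod P.k, Lib_helper45.Bil.refl P g (lz b e y) =
      lz (Lib_helper45.Bil.refl P g b) (-lrefl P g e) y := by
    intro g
    unfold lz
    rw [refl_addI, lrefl_cplx]
    simp only [map_mul, Complex.conj_ofReal, Complex.conj_I]
    ring
  have hlu : ∀ g : ZMod P.k, -lrefl P g (lu e s) = lu (-lrefl P g e) (-s) := by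
    intro g
    unfold lu
    rw [lrefl_cplx]
    simp only [map_mul, map_add, map_one, Complex.conj_ofReal, Complex.conj_I]
    push_cast
    ring
  refine ⟨?_, ?_, hlz, hlu, ?_, ?_, ?_, ?_⟩
  · rintro g W ⟨x, l, hl, h1, h2⟩ ⟨hu, t, ht, hS⟩
    rw [h1, h2]
    refine ⟨mul_ne_zero (Complex.ofReal_ne_zero.2 hl.ne') hu, (t - x) / l, ?_, SP_repar hl x W z u t hS⟩
    have hp : z + x * u + (((t - x) / l : ℝ) : ℂ) * (l * u) = z + t * u := by
      have h3 : (((t - x) / l : ℝ) : ℂ) * l = ((t - x : ℝ) : ℂ) := by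
        rw [← Complex.ofReal_mul, div_mul_cancel₀ _ hl.ne']
      rw [← mul_assoc, h3]
      push_cast
      ring
    rw [hp]
    exact ht
  · rintro q ⟨x, l, hl, h1, h2⟩
    rw [h1, h2]
    unfold ld
    rw [sd_repar, abs_mul, norm_mul, Complex.norm_real, Real.norm_eq_abs]
    exact mul_div_mul_left _ _ (abs_pos.2 hl.ne').ne'
  · rintro g ⟨x, l, hl, h1, h2⟩
    refine ⟨-x, l, hl, ?_, ?_⟩
    · rw [← hlz, h1, refl_addI, lrefl_real]
      push_cast
      ring
    · rw [← hlu, h2, lrefl_real]
      ring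
  · unfold lz
    simp
  · unfold lu
    simp
  · intro hu
    have hn : 0 < ‖u‖ := norm_pos_iff.2 hu
    refine ⟨0, 1 / ‖u‖, by positivity, ?_, ?_⟩
    · unfold lz
      simp
    · unfold lu
      push_cast
      ring

end Pool.Agent.BCX
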