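import Mathlib

/-!
# The iteration of the recursion `N (2m) ≤ C a^C N m + C m^C (N (C m / a) + 1)`
-/

open Finset

namespace Pool.Agent.BCX

namespace ITERW

/-- `x^{3/2}`. -/
noncomputable def g (x : ℝ) : ℝ := x * √x

theorem g_mono {x y : ℝ} (hx : 0 ≤ x) (hxy : x ≤ y) : g x ≤ g y := by
  unfold g
  exact mul_le_mul hxy (Real.sqrt_le_sqrt hxy) (Real.sqrt_nonneg _) (hx.trans hxy)

theorem g_pos {x : ℝ} (hx : 0 < x) : 0 < g x := mul_pos hx (Real.sqrt_pos.2 hx)

theorem g_rpow {x : ℝ} (hx : 0 ≤ x) : x ^ ((3 : ℝ) / 2) = g x := by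
  unfold g
  rcases hx.eq_or_lt with h | h
  · rw [← h]; simp
  · rw [Real.sqrt_eq_rpow, show (3 : ℝ) / 2 = 1 + 1 / 2 by norm_num, Real.rpow_add h,
      Real.rpow_one]

/-- The step in real numbers. -/
theorem step (C : ℕ) (hC : 1 ≤ C) : ∃ m₀ : ℕ, C ≤ m₀ ∧ ∀ m : ℕ, m₀ ≤ m →
    ∃ a : ℕ, C ≤ a ∧ a ≤ m ∧ ∀ (K : ℝ), 12 * (C : ℝ) + 12 ≤ K → ∀ (ν n : ℕ) (x y z : ℝ),
      ν * a ≤ C * m → 2 * m ≤ n → 0 ≤ x → 0 ≤ y →
      x ≤ Real.exp (K * g (Real.log (m + 2))) → y ≤ Real.exp (K * g (Real.log (ν + 2))) →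
      z ≤ C * (C * a ^ C * x + C * m ^ C * (y + 1)) → z ≤ Real.exp (K * g (Real.log (n + 2))) := by
  obtain ⟨m₁, hm₁⟩ : ∃ m₁ : ℕ, ∀ m : ℕ, m₁ ≤ m →
      (4 + 2 * (C : ℝ)) ^ 2 ≤ Real.log (m + 2) := by
    have h1 : Filter.Tendsto (fun m : ℕ => Real.log ((m : ℝ) + 2)) Filter.atTop Filter.atTop :=
      Real.tendsto_log_atTop.comp
        (Filter.tendsto_atTop_add_const_right _ _ tendsto_natCast_atTop_atTop)
    exact (Filter.eventually_atTop.1 (h1.eventually_ge_atTop ((4 + 2 * (C : ℝ)) ^ 2)))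
  refine ⟨max C (max m₁ 4), le_max_left _ _, fun m hm => ?_⟩
  have hmC : C ≤ m := (le_max_left _ _).trans hm
  have hm1 : m₁ ≤ m := (le_max_left _ _).trans ((le_max_right _ _).trans hm)
  have hm4 : 4 ≤ m := (le_max_right _ _).trans ((le_max_right _ _).trans hm)
  have hCr : (1 : ℝ) ≤ C := by exact_mod_cast hC
  have hm4r : (4 : ℝ) ≤ m := by exact_mod_cast hm4
  set l : ℝ := Real.log (m + 2) with hl
  have hl1 : (4 + 2 * (C : ℝ)) ^ 2 ≤ l := hm₁ m hm1
  have hl0 : 0 ≤ l := le_trans (by positivity) hl1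
  set r : ℝ := √l with hr
  have hr2 : r * r = l := Real.mul_self_sqrt hl0
  have hr4 : 4 + 2 * (C : ℝ) ≤ r := by
    rw [hr]; exact Real.le_sqrt_of_sq_le hl1
  have hr0 : 0 < r := by linarith
  have hl16 : 16 ≤ l := by nlinarith
  have hexpl : Real.exp l = m + 2 := by rw [hl]; exact Real.exp_log (by linarith)
  -- the number a
  have hea : Real.exp r ≤ m - 1 := by
    have h1 : r ≤ l / 4 := by nlinarith
    have h2 : Real.exp r ≤ Real.exp (l / 4) := Real.exp_le_exp.2 h1
    set q := Real.exp (l / 4) with hq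
    have h3 : q ^ 4 = m + 2 := by
      rw [hq, ← Real.exp_nat_mul, ← hexpl]; congr 1; push_cast; ring
    have h4 : 5 ≤ q := by
      have := Real.add_one_le_exp (l / 4)
      linarith
    have h5 : q + 3 ≤ q ^ 4 := by
      have h6 : 125 ≤ q ^ 3 := by
        calc (125 : ℝ) = 5 ^ 3 := by norm_num
          _ ≤ q ^ 3 := by gcongr
      nlinarith
    linarith
  set a : ℕ := ⌈Real.exp r⌉₊ with ha
  have ha1 : Real.exp r ≤ a := Nat.le_ceil _
  have ha2 : (a : ℝ) ≤ Real.exp r + 1 := (Nat.ceil_lt_add_one (Real.exp_pos _).le).le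
  have haC : (C : ℝ) ≤ a := by
    have := Real.add_one_le_exp r
    linarith
  have ham : (a : ℝ) ≤ m := by linarith
  refine ⟨a, by exact_mod_cast haC, by exact_mod_cast ham, ?_⟩
  intro K hK ν n x y z hν hn hx hy hxm hyν hz
  have hK0 : 0 ≤ K := by linarith
  have ha3 : (a : ℝ) ≤ Real.exp (r + 1) := by
    rw [Real.exp_add]
    have h1 : (2 : ℝ) ≤ Real.exp 1 := by
      have := Real.add_one_le_exp (1 : ℝ)
      linarith
    have h2 : (1 : ℝ) ≤ Real.exp r := Real.one_le_exp hr0.le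
    nlinarith
  have haC2 : (a : ℝ) ^ C ≤ Real.exp (C * (r + 1)) := by
    rw [Real.exp_nat_mul]
    exact pow_le_pow_left₀ (by positivity) ha3 C
  have hmC2 : (m : ℝ) ^ C ≤ Real.exp (C * l) := by
    rw [Real.exp_nat_mul, hexpl]
    exact pow_le_pow_left₀ (by positivity) (by linarith) C
  have hCe : (C : ℝ) ≤ Real.exp C := by
    have := Real.add_one_le_exp (C : ℝ)
    linarith
  have h2e : (2 : ℝ) ≤ Real.exp 1 := by
    have := Real.add_one_le_exp (1 : ℝ)
    linarith
  -- the logarithm at n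
  have hL : l + 1 / 3 ≤ Real.log (n + 2) := by
    have h1 : (2 : ℝ) * m ≤ n := by exact_mod_cast hn
    have h2 : (3 : ℝ) / 2 * (m + 2) ≤ n + 2 := by linarith
    have h3 : Real.log (3 / 2 * ((m : ℝ) + 2)) ≤ Real.log (n + 2) :=
      Real.log_le_log (by linarith) h2
    rw [Real.log_mul (by norm_num) (by linarith)] at h3
    have h4 : (1 : ℝ) / 3 ≤ Real.log (3 / 2) := by
      have := Real.one_sub_inv_le_log_of_pos (x := (3 : ℝ) / 2) (by norm_num)
      norm_num at this ⊢
      linarith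
    linarith
  have hgL : g l + r / 3 ≤ g (Real.log (n + 2)) := by
    refine le_trans ?_ (g_mono (by linarith) hL)
    unfold g
    have h1 : r ≤ √(l + 1 / 3) := Real.sqrt_le_sqrt (by linarith)
    have h2 : (l + 1 / 3) * r ≤ (l + 1 / 3) * √(l + 1 / 3) := by
      apply mul_le_mul_of_nonneg_left h1; linarith
    have h3 : l * √l = l * r := by rw [hr]
    rw [h3]
    linarith
  -- the first term
  have hT1 : (C : ℝ) * (C * a ^ C * x) ≤ Real.exp (K * g (Real.log (n + 2))) / 2 := by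
    have h1 : (C : ℝ) * (C * a ^ C * x) ≤
        Real.exp C * (Real.exp C * Real.exp (C * (r + 1)) * Real.exp (K * g l)) := by
      gcongr
    have h2 : Real.exp C * (Real.exp C * Real.exp (C * (r + 1)) * Real.exp (K * g l)) * 2 ≤
        Real.exp (C + (C + C * (r + 1) + K * g l) + 1) := by
      rw [Real.exp_add, Real.exp_add, Real.exp_add, Real.exp_add]
      gcongr
    have h3 : (C : ℝ) + (C + C * (r + 1) + K * g l) + 1 ≤ K * g (Real.log (n + 2)) := by
      have h4 : K * (g l + r / 3) ≤ K * g (Real.log (n + 2)) :=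
        mul_le_mul_of_nonneg_left hgL hK0
      have h5 : (12 * (C : ℝ) + 12) * (r / 3) ≤ K * (r / 3) := by
        apply mul_le_mul_of_nonneg_right hK; positivity
      nlinarith
    have h4 := Real.exp_le_exp.2 h3
    linarith
  -- the second term
  have hlν : Real.log (ν + 2) ≤ l - r / 2 := by
    have h1 : (ν : ℝ) * a ≤ C * m := by exact_mod_cast hν
    have h2 : (ν : ℝ) * Real.exp r ≤ C * m :=
      le_trans (mul_le_mul_of_nonneg_left ha1 (by positivity)) h1
    have h3 : (ν : ℝ) + 2 ≤ Real.exp (l - r / 2) := by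
      have h4 : Real.exp (l - r / 2) = (m + 2) * Real.exp (-r) * Real.exp (r / 2) := by
        rw [← hexpl, ← Real.exp_add, ← Real.exp_add]; congr 1; ring
      have h5 : (C : ℝ) + 2 ≤ Real.exp (r / 2) := by
        have := Real.add_one_le_exp (r / 2)
        linarith
      have h6 : Real.exp r * Real.exp (-r) = 1 := by rw [← Real.exp_add]; simp
      have h7 : 0 < Real.exp (-r) := Real.exp_pos _
      have h8 : (ν : ℝ) ≤ C * m * Real.exp (-r) := by
        have := mul_le_mul_of_nonneg_right h2 h7.le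
        rw [mul_assoc, h6, mul_one] at this
        exact this
      have h9 : 1 ≤ (m + 2) * Real.exp (-r) := by
        have := mul_le_mul_of_nonneg_right (show Real.exp r ≤ (m : ℝ) + 2 by linarith) h7.le
        rw [h6] at this
        exact this
      rw [h4]
      calc (ν : ℝ) + 2 ≤ C * ((m + 2) * Real.exp (-r)) + 2 * ((m + 2) * Real.exp (-r)) := by
            have : C * m * Real.exp (-r) ≤ C * ((m + 2) * Real.exp (-r)) := by
              rw [mul_assoc]
              gcongr
              linarith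
            linarith
        _ = (m + 2) * Real.exp (-r) * (C + 2) := by ring
        _ ≤ _ := by gcongr
    calc Real.log (ν + 2) ≤ Real.log (Real.exp (l - r / 2)) :=
          Real.log_le_log (by positivity) h3
      _ = _ := Real.log_exp _
  have hgν : g (Real.log (ν + 2)) ≤ g l - l / 2 := by
    have h0 : 0 ≤ Real.log ((ν : ℝ) + 2) :=
      Real.log_nonneg (by linarith [(Nat.cast_nonneg ν : (0 : ℝ) ≤ ν)])
    refine (g_mono h0 hlν).trans ?_
    unfold g
    have h1 : √(l - r / 2) ≤ r := Real.sqrt_le_sqrt (by linarith)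
    have h2 : 0 ≤ l - r / 2 := h0.trans hlν
    have h3 : (l - r / 2) * √(l - r / 2) ≤ (l - r / 2) * r := mul_le_mul_of_nonneg_left h1 h2
    have h4 : l * √l = l * r := by rw [hr]
    rw [h4]
    nlinarith
  have hT2 : (C : ℝ) * (C * m ^ C * (y + 1)) ≤ Real.exp (K * g (Real.log (n + 2))) / 2 := by
    have hy1 : y + 1 ≤ 2 * Real.exp (K * (g l - l / 2)) := by
      have h1 : Real.exp (K * g (Real.log (ν + 2))) ≤ Real.exp (K * (g l - l / 2)) :=
        Real.exp_le_exp.2 (mul_le_mul_of_nonneg_left hgν hK0)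
      have h2 : 1 ≤ Real.exp (K * (g l - l / 2)) := by
        apply Real.one_le_exp
        apply mul_nonneg hK0
        unfold g
        rw [← hr]
        nlinarith
      linarith
    have h1 : (C : ℝ) * (C * m ^ C * (y + 1)) ≤
        Real.exp C * (Real.exp C * Real.exp (C * l) * (2 * Real.exp (K * (g l - l / 2)))) := by
      gcongr
    have h2 : Real.exp C * (Real.exp C * Real.exp (C * l) * (2 * Real.exp (K * (g l - l / 2)))) * 2 ≤
        Real.exp (C + (C + C * l + (1 + K * (g l - l / 2))) + 1) := by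
      rw [Real.exp_add, Real.exp_add, Real.exp_add, Real.exp_add, Real.exp_add]
      gcongr
    have h3 : (C : ℝ) + (C + C * l + (1 + K * (g l - l / 2))) + 1 ≤
        K * g (Real.log (n + 2)) := by
      have h4 : K * (g l + r / 3) ≤ K * g (Real.log (n + 2)) :=
        mul_le_mul_of_nonneg_left hgL hK0
      have h5 : (12 * (C : ℝ) + 12) * (l / 2) ≤ K * (l / 2) := by
        apply mul_le_mul_of_nonneg_right hK; positivity
      have h6 : 0 ≤ K * (r / 3) := by positivity
      nlinarith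
    have h4 := Real.exp_le_exp.2 h3
    linarith
  calc z ≤ C * (C * a ^ C * x + C * m ^ C * (y + 1)) := hz
    _ = C * (C * a ^ C * x) + C * (C * m ^ C * (y + 1)) := by ring
    _ ≤ _ := by linarith

end ITERW

open ITERW in
theorem iterW (N : ℕ → ℕ) (C : ℕ) (h1 : ∀ n, N (n + 1) ≤ C * N n)
    (h2 : ∀ m a : ℕ, C ≤ m → C ≤ a → a ≤ m → ∃ ν : ℕ, ν * a ≤ C * m ∧
      N (2 * m) ≤ C * a ^ C * N m + C * m ^ C * (N ν + 1)) :
    ∃ K : ℝ, 0 < K ∧ ∀ n : ℕ, (N n : ℝ) ≤ Real.exp (K * Real.log (n + 2) ^ ((3 : ℝ) / 2)) := by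
  -- we may enlarge `C`
  set C' : ℕ := C + 1 with hC'
  obtain ⟨m₀, hm₀, hst⟩ := step C' (by omega)
  set K : ℝ := 12 * (C' : ℝ) + 12 + (∑ i ∈ range (2 * m₀ + 2), (N i : ℝ)) / g (Real.log 2) with hK
  have hg2 : 0 < g (Real.log 2) := g_pos (Real.log_pos (by norm_num))
  have hsum0 : 0 ≤ ∑ i ∈ range (2 * m₀ + 2), (N i : ℝ) := Finset.sum_nonneg fun i _ => by positivity
  have hK1 : 12 * (C' : ℝ) + 12 ≤ K := by
    rw [hK]
    have := div_nonneg hsum0 hg2.le
    linarith
  have hK0 : 0 < K := by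
    have : (0 : ℝ) ≤ C' := by positivity
    linarith
  refine ⟨K, hK0, ?_⟩
  have key : ∀ n : ℕ, (N n : ℝ) ≤ Real.exp (K * g (Real.log (n + 2))) := by
    intro n
    induction n using Nat.strong_induction_on with
    | _ n ih =>
      rcases lt_or_ge n (2 * m₀ + 2) with hn | hn
      · have e1 : (N n : ℝ) ≤ ∑ i ∈ range (2 * m₀ + 2), (N i : ℝ) :=
          Finset.single_le_sum (f := fun i => (N i : ℝ)) (fun i _ => by positivity)
            (Finset.mem_range.2 hn)
        have e2 : ∑ i ∈ range (2 * m₀ + 2), (N i : ℝ) ≤ K * g (Real.log 2) := by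
          have : (∑ i ∈ range (2 * m₀ + 2), (N i : ℝ)) / g (Real.log 2) ≤ K := by
            rw [hK]
            have : (0 : ℝ) ≤ 12 * (C' : ℝ) + 12 := by positivity
            linarith
          rwa [div_le_iff₀ hg2] at this
        have e3 : g (Real.log 2) ≤ g (Real.log (n + 2)) := by
          apply g_mono (Real.log_nonneg (by norm_num))
          apply Real.log_le_log (by norm_num)
          have : (0 : ℝ) ≤ n := Nat.cast_nonneg n
          linarith
        have e4 : K * g (Real.log 2) ≤ K * g (Real.log (n + 2)) :=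
          mul_le_mul_of_nonneg_left e3 hK0.le
        have e5 := Real.add_one_le_exp (K * g (Real.log (n + 2)))
        linarith
      · obtain ⟨m, hm⟩ : ∃ m, n = 2 * m ∨ n = 2 * m + 1 := ⟨n / 2, by omega⟩
        have hmm : m₀ ≤ m := by omega
        obtain ⟨a, haC, ham, hstep⟩ := hst m hmm
        obtain ⟨ν, hν, hrec⟩ := h2 m a (by omega) (by omega) ham
        have hνm : ν ≤ m := by
          have : ν * a ≤ m * a := by
            calc ν * a ≤ C * m := hν
              _ ≤ a * m := Nat.mul_le_mul_right _ (by omega)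
              _ = m * a := Nat.mul_comm _ _
          exact Nat.le_of_mul_le_mul_right this (by omega)
        have hνn : ν < n := by omega
        have hmn : m < n := by omega
        refine hstep K hK1 ν n (N m) (N ν) (N n) ?_ (by omega) (by positivity) (by positivity)
          (ih m hmn) (ih ν hνn) ?_
        · calc ν * a ≤ C * m := hν
            _ ≤ C' * m := Nat.mul_le_mul_right _ (by omega)
        · have e1 : N n ≤ C' * N (2 * m) := by
            rcases hm with h | h
            · rw [h]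
              exact Nat.le_mul_of_pos_left _ (by omega)
            · rw [h]
              exact (h1 (2 * m)).trans (Nat.mul_le_mul_right _ (by omega))
          have e2 : N (2 * m) ≤ C' * a ^ C' * N m + C' * m ^ C' * (N ν + 1) := by
            refine hrec.trans ?_
            have ha1 : 1 ≤ a := by omega
            have hm1 : 1 ≤ m := by omega
            have e3 : a ^ C ≤ a ^ C' := Nat.pow_le_pow_right ha1 (by omega)
            have e4 : m ^ C ≤ m ^ C' := Nat.pow_le_pow_right hm1 (by omega)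
            have e5 : C ≤ C' := by omega
            gcongr
          have e3 : N n ≤ C' * (C' * a ^ C' * N m + C' * m ^ C' * (N ν + 1)) :=
            e1.trans (Nat.mul_le_mul_left _ e2)
          exact_mod_cast e3
  intro n
  have h0 : 0 ≤ Real.log ((n : ℝ) + 2) :=
    Real.log_nonneg (by linarith [(Nat.cast_nonneg n : (0 : ℝ) ≤ n)])
  rw [g_rpow h0]
  exact key n

/-- The same for the complexity: `F (n + 1) ≤ N n`. -/
theorem iterW_final (F N : ℕ → ℕ) (C : ℕ) (hF : ∀ n, 1 ≤ n → F (n + 1) ≤ N n)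
    (h1 : ∀ n, N (n + 1) ≤ C * N n)
    (h2 : ∀ m a : ℕ, C ≤ m → C ≤ a → a ≤ m → ∃ ν : ℕ, ν * a ≤ C * m ∧
      N (2 * m) ≤ C * a ^ C * N m + C * m ^ C * (N ν + 1)) :
    ∃ K : ℝ, 0 < K ∧ ∀ n : ℕ, 2 ≤ n → (F n : ℝ) ≤ Real.exp (K * Real.log n ^ ((3 : ℝ) / 2)) := by
  obtain ⟨K, hK, hN⟩ := iterW N C h1 h2
  refine ⟨K * 2 ^ ((3 : ℝ) / 2), by positivity, fun n hn => ?_⟩
  obtain ⟨m, rfl⟩ : ∃ m, n = m + 1 := ⟨n - 1, by omega⟩
  have e1 : (F (m + 1) : ℝ) ≤ N m := by exact_mod_cast hF m (by omega)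
  refine e1.trans ((hN m).trans (Real.exp_le_exp.2 ?_))
  have hmr : (1 : ℝ) ≤ m := by
    have : 1 ≤ m := by omega
    exact_mod_cast this
  have hlog0 : 0 ≤ Real.log ((m : ℝ) + 1) := Real.log_nonneg (by linarith)
  have e2 : Real.log ((m : ℝ) + 2) ≤ 2 * Real.log ((m : ℝ) + 1) := by
    rw [show 2 * Real.log ((m : ℝ) + 1) = Real.log (((m : ℝ) + 1) ^ 2) by
      rw [Real.log_pow]; norm_num]
    apply Real.log_le_log (by linarith)
    nlinarith
  have e3 : Real.log ((m : ℝ) + 2) ^ ((3 : ℝ) / 2) ≤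
      (2 * Real.log ((m : ℝ) + 1)) ^ ((3 : ℝ) / 2) := by
    apply Real.rpow_le_rpow (Real.log_nonneg (by linarith)) e2 (by norm_num)
  rw [Real.mul_rpow (by norm_num) hlog0] at e3
  push_cast
  calc K * Real.log ((m : ℝ) + 2) ^ ((3 : ℝ) / 2) ≤
        K * (2 ^ ((3 : ℝ) / 2) * Real.log ((m : ℝ) + 1) ^ ((3 : ℝ) / 2)) := by gcongr
    _ = _ := by ring

end Pool.Agent.BCX
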