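import Pool.Agent.BCX.Stmts4

/-!
# KAP: the line through a tight pair as the axis of a frame (helper80)
-/

open Set Filter Topology Metric MeasureTheory
open scoped ComplexConjugate

namespace Pool.Agent.BCX

open Pool.Agent.Billiard Pool.Agent.Lib_helper45.Bil

namespace KAP

/-- the line `z + τ u` in the frame `(q, e)` -/
theorem coord {z u q e : ℂ} (he : ‖e‖ = 1) (hA : 0 < (u * conj e).re) :
    Coord q e z u (-(sd z u q) / (u * conj e).re) ((u * conj e).im / (u * conj e).re) := by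
  set A := (u * conj e).re with hAd
  set B := (u * conj e).im with hBd
  set C := ((q - z) * conj e).re with hCd
  set D := ((q - z) * conj e).im with hDd
  have hee : e * conj e = 1 := by
    rw [Complex.mul_conj, Complex.normSq_eq_norm_sq, he]
    norm_num
  have hue : u * conj e = A + B * Complex.I := (Complex.re_add_im _).symm
  have hqe : (q - z) * conj e = C + D * Complex.I := (Complex.re_add_im _).symm
  have hu : u = (A + B * Complex.I) * e := by
    calc u = u * (e * conj e) := by rw [hee, mul_one]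
      _ = (u * conj e) * e := by ring
      _ = _ := by rw [hue]
  have hq : q - z = (C + D * Complex.I) * e := by
    calc q - z = (q - z) * (e * conj e) := by rw [hee, mul_one]
      _ = ((q - z) * conj e) * e := by ring
      _ = _ := by rw [hqe]
  have hsd : sd z u q = D * A - C * B := by
    have h1 : (q - z) * conj u = (C + D * Complex.I) * (A - B * Complex.I) := by
      rw [hq]
      conv_lhs => rw [hu]
      rw [map_mul, map_add, map_mul, Complex.conj_I, Complex.conj_ofReal, Complex.conj_ofReal]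
      linear_combination ((C + D * Complex.I) * (A - B * Complex.I)) * hee
    unfold sd
    rw [h1]
    simp only [Complex.mul_im, Complex.add_re, Complex.add_im, Complex.sub_re, Complex.sub_im,
      Complex.mul_re, Complex.ofReal_re, Complex.ofReal_im, Complex.I_re, Complex.I_im]
    ring
  have hA0 : (A : ℂ) ≠ 0 := by exact_mod_cast hA.ne'
  refine ⟨C / A, 1 / A, by positivity, ?_, ?_⟩
  · unfold lz
    rw [hsd]
    have h2 : q = z + (C + D * Complex.I) * e := by rw [← hq]; ring
    conv_lhs => rw [h2]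
    conv_rhs => rw [hu]
    push_cast
    field_simp
    ring
  · unfold lu
    conv_rhs => rw [hu]
    push_cast
    field_simp

end KAP

theorem m_KAP : Stmt_KAP := by
  intro z u q q' ε c R hu hc hc1 hR hqq hε h1 h2
  have hun : 0 < ‖u‖ := norm_pos_iff.2 hu
  have hN : 0 < ‖q' - q‖ := by
    rw [dist_comm, dist_eq_norm] at hqq
    linarith
  have hNc : c ≤ ‖q' - q‖ := by rwa [dist_comm, dist_eq_norm] at hqq
  have hε0 : 0 ≤ ε := le_trans (div_nonneg (abs_nonneg _) (norm_nonneg _)) h1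
  have s1 : |sd z u q| ≤ ε * ‖u‖ := (div_le_iff₀ hun).1 h1
  have s2 : |sd z u q'| ≤ ε * ‖u‖ := (div_le_iff₀ hun).1 h2
  -- the sign
  set w : ℂ := u * conj (q' - q) with hw
  have hwim : |w.im| ≤ 2 * (ε * ‖u‖) := by
    have e1 : w.im = sd z u q - sd z u q' := by
      rw [hw]
      unfold sd
      simp only [Complex.mul_im, Complex.conj_re, Complex.conj_im, Complex.sub_re, Complex.sub_im]
      ring
    rw [e1]
    refine (abs_sub _ _).trans ?_
    linarith
  have hwsq : w.re ^ 2 + w.im ^ 2 = (‖u‖ * ‖q' - q‖) ^ 2 := by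
    have e1 : ‖w‖ = ‖u‖ * ‖q' - q‖ := by rw [hw, norm_mul, Complex.norm_conj]
    rw [← e1, ← Complex.normSq_eq_norm_sq, Complex.normSq_apply]
    ring
  have hNu : 0 < ‖u‖ * ‖q' - q‖ := mul_pos hun hN
  have h8 : 4 * |w.im| ≤ ‖u‖ * ‖q' - q‖ := by
    have : ‖u‖ * (8 * ε) ≤ ‖u‖ * ‖q' - q‖ :=
      mul_le_mul_of_nonneg_left (hε.trans hNc) hun.le
    linarith
  have hre : 9 / 10 * (‖u‖ * ‖q' - q‖) ≤ |w.re| := by
    have e1 : |w.im| ^ 2 = w.im ^ 2 := sq_abs _
    have e2 : 16 * w.im ^ 2 ≤ (‖u‖ * ‖q' - q‖) ^ 2 := by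
      have := pow_le_pow_left₀ (by positivity) h8 2
      rw [mul_pow, e1] at this
      linarith
    refine abs_le_of_sq_le_sq' ?_ (abs_nonneg _) |>.2
    rw [sq_abs]
    nlinarith
  obtain ⟨θ, hθ, hθw⟩ : ∃ θ : ℝ, (θ = 1 ∨ θ = -1) ∧ θ * w.re = |w.re| := by
    rcases le_total 0 w.re with h | h
    · exact ⟨1, Or.inl rfl, by rw [one_mul, abs_of_nonneg h]⟩
    · exact ⟨-1, Or.inr rfl, by rw [abs_of_nonpos h]; ring⟩
  have hθ1 : |θ| = 1 := by
    rcases hθ with h | h <;> rw [h] <;> norm_num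
  refine ⟨θ, hθ, ?_, ?_⟩
  · rw [norm_div, norm_mul, Complex.norm_real, Complex.norm_real, Real.norm_eq_abs, hθ1, one_mul,
      Real.norm_eq_abs, abs_of_pos hN]
    exact div_self hN.ne'
  set e : ℂ := (θ : ℂ) * (q' - q) / (‖q' - q‖ : ℂ) with he
  have hen : ‖e‖ = 1 := by
    rw [he, norm_div, norm_mul, Complex.norm_real, Complex.norm_real, Real.norm_eq_abs, hθ1,
      one_mul, Real.norm_eq_abs, abs_of_pos hN]
    exact div_self hN.ne'
  have hue : u * conj e = ((θ / ‖q' - q‖ : ℝ) : ℂ) * w := by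
    rw [he, hw, map_div₀, map_mul, Complex.conj_ofReal, Complex.conj_ofReal]
    push_cast
    ring
  have hre' : (u * conj e).re = |w.re| / ‖q' - q‖ := by
    rw [hue, Complex.re_ofReal_mul, ← hθw]
    ring
  have him' : |(u * conj e).im| ≤ 2 * (ε * ‖u‖) / ‖q' - q‖ := by
    rw [hue, Complex.im_ofReal_mul, abs_mul, abs_div, hθ1, abs_of_pos hN, one_div,
      div_eq_inv_mul]
    exact mul_le_mul_of_nonneg_left hwim (by positivity)
  have hA9 : 9 / 10 * ‖u‖ ≤ (u * conj e).re := by
    rw [hre', le_div_iff₀ hN]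
    linarith
  have hA : 0 < (u * conj e).re := lt_of_lt_of_le (by positivity) hA9
  refine ⟨_, _, KAP.coord hen hA, ?_, ?_⟩
  · rw [abs_div, abs_of_pos hA, div_le_iff₀ hA]
    have e1 : 2 * (ε * ‖u‖) / ‖q' - q‖ ≤ ‖u‖ / 4 := by
      rw [div_le_div_iff₀ hN (by norm_num)]
      have : ‖u‖ * (8 * ε) ≤ ‖u‖ * ‖q' - q‖ :=
        mul_le_mul_of_nonneg_left (hε.trans hNc) hun.le
      linarith
    linarith
  · have ey : |(-(sd z u q)) / (u * conj e).re| ≤ 2 * ε := by
      rw [abs_div, abs_neg, abs_of_pos hA, div_le_iff₀ hA]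
      have : ε * (9 / 10 * ‖u‖) ≤ ε * (u * conj e).re := mul_le_mul_of_nonneg_left hA9 hε0
      nlinarith
    have es : |(u * conj e).im / (u * conj e).re| ≤ 3 * ε / c := by
      rw [abs_div, abs_of_pos hA, div_le_div_iff₀ hA hc]
      have e1 : |(u * conj e).im| * c ≤ 2 * (ε * ‖u‖) := by
        calc |(u * conj e).im| * c ≤ 2 * (ε * ‖u‖) / ‖q' - q‖ * ‖q' - q‖ :=
              mul_le_mul him' hNc hc.le (by positivity)
          _ = 2 * (ε * ‖u‖) := div_mul_cancel₀ _ hN.ne'
      have : ε * (9 / 10 * ‖u‖) ≤ ε * (u * conj e).re := mul_le_mul_of_nonneg_left hA9 hε0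
      nlinarith [mul_nonneg hε0 hun.le]
    have hεR : 0 ≤ ε * R := mul_nonneg hε0 (by linarith)
    have e3 : 2 * ε ≤ 2 * ε * R / c := by
      rw [le_div_iff₀ hc]
      have a1 : 2 * ε * c ≤ 2 * ε * 1 := mul_le_mul_of_nonneg_left hc1 (by linarith)
      have a2 : 2 * ε * 1 ≤ 2 * ε * R := mul_le_mul_of_nonneg_left hR (by linarith)
      linarith
    have e4 : |(u * conj e).im / (u * conj e).re| * R ≤ 3 * ε / c * R :=
      mul_le_mul_of_nonneg_right es (by linarith)
    calc |(-(sd z u q)) / (u * conj e).re| + |(u * conj e).im / (u * conj e).re| * R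
        ≤ 2 * ε * R / c + 3 * ε / c * R := add_le_add (ey.trans e3) e4
      _ = 5 * (ε * R / c) := by ring
      _ ≤ 8 * (ε * R / c) := by
          have : 0 ≤ ε * R / c := div_nonneg hεR hc.le
          linarith
      _ = 8 * ε * R / c := by ring

end Pool.Agent.BCX
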