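import Pool.Agent.BCX.Stmts4

/-!
# First half: two lines of the same word are close, or there is a tight pair
-/

open Set Filter Topology Metric
open scoped ComplexConjugate

namespace Pool.Agent.BCX

open Pool.Agent.Billiard Pool.Agent.Lib_helper45.Bil

namespace NEARA

theorem Ap_eq {b e : ℂ} (he : ‖e‖ = 1) (y s : ℝ) (q : ℂ) :
    Ap y s (tc b e q, hc b e q) = sd (lz b e y) (lu e s) q := by
  rw [sd_frame he]
  rfl

/-- Distance in coordinates. -/
theorem dist_le {b e : ℂ} (he : ‖e‖ = 1) (q q' : ℂ) :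
    dist q q' ≤ |tc b e q - tc b e q'| + |hc b e q - hc b e q'| := by
  have h1 := tc_hc_add b e he q
  have h2 := tc_hc_add b e he q'
  rw [dist_eq_norm]
  have h3 : q - q' = ((tc b e q - tc b e q' : ℝ) + ((hc b e q - hc b e q' : ℝ) : ℂ) * Complex.I) * e := by
    push_cast
    linear_combination h1 - h2
  rw [h3, norm_mul, he, mul_one]
  calc ‖((tc b e q - tc b e q' : ℝ) : ℂ) + ((hc b e q - hc b e q' : ℝ) : ℂ) * Complex.I‖
      ≤ ‖((tc b e q - tc b e q' : ℝ) : ℂ)‖ + ‖((hc b e q - hc b e q' : ℝ) : ℂ) * Complex.I‖ :=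
        norm_add_le _ _
    _ = _ := by
        rw [norm_mul, Complex.norm_I, mul_one, Complex.norm_real, Complex.norm_real,
          Real.norm_eq_abs, Real.norm_eq_abs]

end NEARA

open NEARA in
theorem m_NEARA : Stmt_PFAT → Stmt_VXL → Stmt_SGN → Stmt_WID → Stmt_NEARA := by
  intro hF hV hS hWID P D M hD
  obtain ⟨K₀, hK₀, hwid⟩ := hWID P D M hD
  refine ⟨K₀ + 6, by omega, ?_⟩
  intro g W b e z u R r y₁ s₁ y₂ s₂ ρ hW he hR hr hs₁ hs₂ hTB hopt h₁ h₂ hd
  obtain ⟨-, -, -, -, -, hld⟩ := hV P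
  obtain ⟨hS1, hS2, -⟩ := hS P g
  have hρ := hopt.pos
  have hR0 : 0 < R := by linarith
  have hr0 : 0 < r := by linarith
  set d : ℝ := |y₁ - y₂| + |s₁ - s₂| * R with hdd
  have hd0 : 0 ≤ d := by positivity
  rcases hd0.eq_or_lt with h0 | h0
  · left
    rw [← h0]
    positivity
  have hdK : d ≤ K₀ * R * ρ :=
    hwid g W b e z u R y₁ s₁ y₂ s₂ ρ hW he hR hs₁ hs₂ hTB hopt h₁ h₂ hd
  set V : Set (ℝ × ℝ) := {p | ∃ q ∈ VX P W, p = (tc b e q, hc b e q)} with hVdef
  have hVR : ∀ p ∈ V, |p.1| ≤ R := by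
    rintro p ⟨q, hq, rfl⟩
    exact hTB q hq
  have hVs : ∀ p ∈ V, 0 < Ap y₁ s₁ p * Ap y₂ s₂ p := by
    rintro p ⟨q, hq, rfl⟩
    rw [Ap_eq he, Ap_eq he]
    exact hS2 W _ _ _ _ h₁ h₂ q hq
  rcases hF V R r y₁ s₁ y₂ s₂ d hR0 hr hdd h0 hVR hVs with ⟨y, -, hy⟩ | ⟨p, hp, p', hp', hne, ht, ha, ha'⟩
  · left
    have hsm : |(s₁ + s₂) / 2| ≤ 1 := by
      rw [abs_le] at hs₁ hs₂ ⊢
      constructor <;> linarith
    have hreal : SR P g W (lz b e y) (lu e ((s₁ + s₂) / 2)) := by
      refine hS1 W b e y₁ s₁ y ((s₁ + s₂) / 2) he hW h₁ ?_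
      intro q hq
      have := (hy _ ⟨q, hq, rfl⟩).1
      rwa [Ap_eq he, Ap_eq he] at this
    have hcl : Cl P (d / (400 * r)) W (lz b e y) (lu e ((s₁ + s₂) / 2)) := by
      intro q hq
      have h3 := (hy _ ⟨q, hq, rfl⟩).2
      rw [Ap_eq he] at h3
      have h4 := (hld (lz b e y) e q ((s₁ + s₂) / 2) he hsm).2
      have h5 : d / (400 * r) = d / (200 * r) / 2 := by
        field_simp
        ring
      rw [h5]
      linarith
    have h6 := hopt.max _ _ _ hreal hcl
    rw [div_le_iff₀ (by positivity)] at h6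
    linarith
  · right
    obtain ⟨q, hq, rfl⟩ := hp
    obtain ⟨q', hq', rfl⟩ := hp'
    rw [Ap_eq he] at ha ha'
    have hqq : q ≠ q' := by
      rintro rfl
      exact hne rfl
    have hKR : (K₀ : ℝ) * R * ρ ≤ ((K₀ + 6 : ℕ) : ℝ) * R * ρ := by
      push_cast
      have : 0 ≤ 6 * R * ρ := by positivity
      linarith
    have hdr : d / (50 * r) ≤ ((K₀ + 6 : ℕ) : ℝ) * R * ρ := by
      refine le_trans ?_ (hdK.trans hKR)
      rw [div_le_iff₀ (by positivity)]
      nlinarith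
    have hdr2 : d / (50 * r) ≤ 2 * R / r := by
      rw [div_le_div_iff₀ (by positivity) hr0]
      nlinarith
    refine ⟨q, hq, q', hq', hqq, ?_, ?_, ?_⟩
    · refine (dist_le (b := b) he q q').trans ?_
      have h3 : |hc b e q - hc b e q'| ≤ |sd (lz b e y₁) (lu e s₁) q| +
          |sd (lz b e y₁) (lu e s₁) q'| + |tc b e q - tc b e q'| := by
        have h4 : hc b e q - hc b e q' = sd (lz b e y₁) (lu e s₁) q -
            sd (lz b e y₁) (lu e s₁) q' + s₁ * (tc b e q - tc b e q') := by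
          rw [sd_frame he, sd_frame he]
          ring
        rw [h4]
        calc |sd (lz b e y₁) (lu e s₁) q - sd (lz b e y₁) (lu e s₁) q' +
              s₁ * (tc b e q - tc b e q')|
            ≤ |sd (lz b e y₁) (lu e s₁) q - sd (lz b e y₁) (lu e s₁) q'| +
              |s₁ * (tc b e q - tc b e q')| := abs_add_le _ _
          _ ≤ |sd (lz b e y₁) (lu e s₁) q| + |sd (lz b e y₁) (lu e s₁) q'| +
              |tc b e q - tc b e q'| := by
              apply add_le_add (abs_sub _ _)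
              rw [abs_mul]
              exact mul_le_of_le_one_left (abs_nonneg _) hs₁
      have h5 : |tc b e q - tc b e q'| ≤ R / r := ht
      have h6 : ((K₀ + 6 : ℕ) : ℝ) * R / r = K₀ * (R / r) + 6 * (R / r) := by
        push_cast
        ring
      have h7 : 2 * R / r = 2 * (R / r) := by ring
      have h8 : 0 ≤ (K₀ : ℝ) * (R / r) := by positivity
      rw [h6]
      rw [h7] at hdr2
      linarith
    · exact ((hld _ e q s₁ he hs₁).1.trans ha).trans hdr
    · exact ((hld _ e q' s₁ he hs₁).1.trans ha').trans hdr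

end Pool.Agent.BCX
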