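import Mathlib

/-!
# Two statements on affine functions at planar points

For a point `p = (t, h)` and a line `(y, s)` we use the number `h - (y + s t)`.
-/

open Set

namespace Pool.Agent.BCX

theorem pure_same_sign {x y : ℝ} (h : 0 < x * y) : |x + y| = |x| + |y| := by
  rcases lt_trichotomy x 0 with hx | hx | hx
  · have hy : y < 0 := by
      by_contra hy
      push Not at hy
      nlinarith
    rw [abs_of_neg hx, abs_of_neg hy, abs_of_neg (by linarith)]; ring
  · rw [hx] at h; simp at h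
  · have hy : 0 < y := by
      by_contra hy
      push Not at hy
      nlinarith
    rw [abs_of_pos hx, abs_of_pos hy, abs_of_pos (by linarith)]

/-- Fat cell, or two close points: two lines with the same signs at all points of `V` at distance
`d`; either a parallel line close to the midpoint has clearance `d / (200 r)`, or two different points
at time distance at most `R / r` are within `d / (50 r)` of the first line. -/
theorem pure_FAT (V : Set (ℝ × ℝ)) (R r y1 s1 y2 s2 d : ℝ) (hR : 0 < R) (hr : 1 ≤ r)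
    (hd : d = |y1 - y2| + |s1 - s2| * R) (hd0 : 0 < d) (hV : ∀ p ∈ V, |p.1| ≤ R)
    (hs : ∀ p ∈ V, 0 < (p.2 - (y1 + s1 * p.1)) * (p.2 - (y2 + s2 * p.1))) :
    (∃ y, |y - (y1 + y2) / 2| ≤ d / (200 * r) ∧ ∀ p ∈ V,
      0 < (p.2 - (y1 + s1 * p.1)) * (p.2 - (y + (s1 + s2) / 2 * p.1)) ∧
      d / (200 * r) ≤ |p.2 - (y + (s1 + s2) / 2 * p.1)|) ∨
    (∃ p ∈ V, ∃ p' ∈ V, p ≠ p' ∧ |p.1 - p'.1| ≤ R / r ∧
      |p.2 - (y1 + s1 * p.1)| ≤ d / (50 * r) ∧ |p'.2 - (y1 + s1 * p'.1)| ≤ d / (50 * r)) := by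
  have _ := hR
  set η : ℝ := d / (100 * r) with hη
  have hr0 : 0 < r := by linarith
  have hη0 : 0 < η := by rw [hη]; positivity
  have h200 : d / (200 * r) = η / 2 := by rw [hη]; field_simp; ring
  have h50 : d / (50 * r) = 2 * η := by rw [hη]; field_simp; ring
  have hηd : η ≤ d / 100 := by
    rw [hη]
    apply div_le_div_of_nonneg_left hd0.le (by norm_num) (by linarith)
  rw [h200, h50]
  -- the midpoint
  have hmid : ∀ p ∈ V, |p.2 - ((y1 + y2) / 2 + (s1 + s2) / 2 * p.1)| =
      (|p.2 - (y1 + s1 * p.1)| + |p.2 - (y2 + s2 * p.1)|) / 2 := by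
    intro p hp
    rw [← pure_same_sign (hs p hp)]
    rw [show p.2 - ((y1 + y2) / 2 + (s1 + s2) / 2 * p.1) =
      (p.2 - (y1 + s1 * p.1) + (p.2 - (y2 + s2 * p.1))) / 2 by ring, abs_div, abs_two]
  have hsgn : ∀ p ∈ V, 0 < (p.2 - (y1 + s1 * p.1)) *
      (p.2 - ((y1 + y2) / 2 + (s1 + s2) / 2 * p.1)) := by
    intro p hp
    have h1 := hs p hp
    have h2 : (p.2 - (y1 + s1 * p.1)) * (p.2 - ((y1 + y2) / 2 + (s1 + s2) / 2 * p.1)) =
      ((p.2 - (y1 + s1 * p.1)) ^ 2 + (p.2 - (y1 + s1 * p.1)) * (p.2 - (y2 + s2 * p.1))) / 2 := by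
      ring
    rw [h2]
    nlinarith [sq_nonneg (p.2 - (y1 + s1 * p.1))]
  have hv : ∀ p ∈ V, |(y2 - y1) + (s2 - s1) * p.1| ≤
      2 * |p.2 - ((y1 + y2) / 2 + (s1 + s2) / 2 * p.1)| := by
    intro p hp
    rw [hmid p hp]
    have : (y2 - y1) + (s2 - s1) * p.1 = (p.2 - (y1 + s1 * p.1)) - (p.2 - (y2 + s2 * p.1)) := by
      ring
    rw [this]
    have := abs_sub (p.2 - (y1 + s1 * p.1)) (p.2 - (y2 + s2 * p.1))
    linarith
  by_cases hall : ∀ p ∈ V, η < |p.2 - ((y1 + y2) / 2 + (s1 + s2) / 2 * p.1)|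
  · left
    refine ⟨(y1 + y2) / 2, by rw [sub_self, abs_zero]; positivity, fun p hp => ⟨hsgn p hp, ?_⟩⟩
    linarith [hall p hp]
  push Not at hall
  obtain ⟨p, hp, hpη⟩ := hall
  by_cases hex : ∃ p' ∈ V, p ≠ p' ∧ |p'.2 - ((y1 + y2) / 2 + (s1 + s2) / 2 * p'.1)| ≤ η
  · right
    obtain ⟨p', hp', hne, hp'η⟩ := hex
    have h1 := hv p hp
    have h2 := hv p' hp'
    have hA : ∀ q ∈ V, |q.2 - ((y1 + y2) / 2 + (s1 + s2) / 2 * q.1)| ≤ η →
        |q.2 - (y1 + s1 * q.1)| ≤ 2 * η := by
      intro q hq hqη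
      rw [hmid q hq] at hqη
      have := abs_nonneg (q.2 - (y2 + s2 * q.1))
      linarith
    refine ⟨p, hp, p', hp', hne, ?_, hA p hp hpη, hA p' hp' hp'η⟩
    have h3 : |s1 - s2| * |p.1 - p'.1| ≤ 4 * η := by
      rw [← abs_mul]
      have : (s1 - s2) * (p.1 - p'.1) = ((y2 - y1) + (s2 - s1) * p'.1) -
        ((y2 - y1) + (s2 - s1) * p.1) := by ring
      rw [this]
      have := abs_sub ((y2 - y1) + (s2 - s1) * p'.1) ((y2 - y1) + (s2 - s1) * p.1)
      linarith
    have h4 : |y1 - y2| ≤ 2 * η + |s1 - s2| * R := by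
      have h5 : y1 - y2 = (s2 - s1) * p.1 - ((y2 - y1) + (s2 - s1) * p.1) := by ring
      rw [h5]
      have h6 := abs_sub ((s2 - s1) * p.1) ((y2 - y1) + (s2 - s1) * p.1)
      have h7 : |(s2 - s1) * p.1| ≤ |s1 - s2| * R := by
        rw [abs_mul, abs_sub_comm]
        exact mul_le_mul_of_nonneg_left (hV p hp) (abs_nonneg _)
      linarith
    have h5 : 49 / 100 * d ≤ |s1 - s2| * R := by linarith
    rw [le_div_iff₀ hr0]
    have h6 : η * (100 * r) = d := by rw [hη]; field_simp
    have h7 : 0 < |s1 - s2| := by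
      rcases (abs_nonneg (s1 - s2)).eq_or_lt with h | h
      · rw [← h] at h5; simp at h5; linarith
      · exact h
    have h8 : |s1 - s2| * (|p.1 - p'.1| * r) ≤ |s1 - s2| * R := by
      calc |s1 - s2| * (|p.1 - p'.1| * r) = |s1 - s2| * |p.1 - p'.1| * r := by ring
        _ ≤ 4 * η * r := mul_le_mul_of_nonneg_right h3 hr0.le
        _ = d / 25 := by rw [← h6]; ring
        _ ≤ |s1 - s2| * R := by linarith
    exact le_of_mul_le_mul_left h8 h7
  · left
    push Not at hex
    set a : ℝ := p.2 - ((y1 + y2) / 2 + (s1 + s2) / 2 * p.1) with ha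
    -- shift away from `p`
    obtain ⟨e, he, hea⟩ : ∃ e : ℝ, |e| = η / 2 ∧ 0 < e * a := by
      have ha0 : a ≠ 0 := by
        intro h0
        have := hsgn p hp
        rw [← ha, h0] at this
        simp at this
      rcases lt_or_gt_of_ne ha0 with h | h
      · exact ⟨-(η / 2), by rw [abs_neg, abs_of_pos (by positivity)], by nlinarith⟩
      · exact ⟨η / 2, abs_of_pos (by positivity), by positivity⟩
    refine ⟨(y1 + y2) / 2 - e, ?_, fun q hq => ?_⟩
    · rw [show (y1 + y2) / 2 - e - (y1 + y2) / 2 = -e by ring, abs_neg, he]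
    · set b : ℝ := q.2 - ((y1 + y2) / 2 + (s1 + s2) / 2 * q.1) with hb
      have hbe : q.2 - ((y1 + y2) / 2 - e + (s1 + s2) / 2 * q.1) = b + e := by rw [hb]; ring
      rw [hbe]
      have hc := hsgn q hq
      rw [← hb] at hc
      set c : ℝ := q.2 - (y1 + s1 * q.1)
      by_cases hqp : q = p
      · have hba : b = a := by rw [hb, ha, hqp]
        rw [hba] at hc ⊢
        have h1 : 0 < a * e := by linarith
        have h2 : |a + e| = |a| + |e| := pure_same_sign h1
        constructor
        · rcases lt_trichotomy a 0 with h | h | h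
          · have he' : e < 0 := by
              by_contra hh; push Not at hh; nlinarith
            have hc' : c < 0 := by
              by_contra hh; push Not at hh; nlinarith
            nlinarith
          · rw [h] at hc; simp at hc
          · have he' : 0 < e := by
              by_contra hh; push Not at hh; nlinarith
            have hc' : 0 < c := by
              by_contra hh; push Not at hh; nlinarith
            positivity
        · rw [h2, he]; linarith [abs_nonneg a]
      · have hbη := hex q hq (fun h => hqp h.symm)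
        rw [← hb] at hbη
        have h1 := abs_le.1 (le_of_eq he)
        rcases lt_trichotomy b 0 with h | h | h
        · rw [abs_of_neg h] at hbη
          have hc' : c < 0 := by
            by_contra hh; push Not at hh; nlinarith
          constructor
          · nlinarith
          · rw [abs_of_neg (by linarith)]; linarith
        · rw [h] at hc; simp at hc
        · rw [abs_of_pos h] at hbη
          have hc' : 0 < c := by
            by_contra hh; push Not at hh; nlinarith
          constructor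
          · have : 0 < b + e := by linarith
            positivity
          · rw [abs_of_pos (by linarith)]; linarith

/-- Scale selection: the `t`-axis has clearance `ρ`, this is nearly maximal among the lines with the
same signs, and these lines are close; then three points of `V` have a determinant comparable with
`ρ` up to a factor `R ^ 2 / c0 ^ 2`. -/
theorem pure_TRIP (V : Set (ℝ × ℝ)) (R c0 X ρ : ℝ) (hρ : 0 < ρ) (hc0 : 0 < c0) (hc1 : c0 ≤ 1)
    (hR : 1 ≤ R) (hρX : ρ ≤ X) (hXR : 300 * X * R ≤ c0) (hV : ∀ p ∈ V, |p.1| ≤ R)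
    (hcl : ∀ p ∈ V, ρ ≤ |p.2|)
    (hgap : ∀ p ∈ V, ∀ p' ∈ V, p ≠ p' → |p.2| ≤ c0 → |p'.2| ≤ c0 → c0 ≤ |p.1 - p'.1|)
    (hX : ∀ y s : ℝ, |s| ≤ 1 → |y| + |s| * R ≤ 3 * X →
      (∀ p ∈ V, 0 < p.2 * (p.2 - (y + s * p.1))) → |y| + |s| * R ≤ X)
    (hmax : ∀ y s : ℝ, |s| ≤ 1 → (∀ p ∈ V, 0 < p.2 * (p.2 - (y + s * p.1))) →
      ∃ p ∈ V, |p.2 - (y + s * p.1)| ≤ 4 * ρ) :
    ∃ p1 ∈ V, ∃ p2 ∈ V, ∃ p3 ∈ V,
      c0 * ρ / 16 ≤ |(p2.2 - p1.2) * (p3.1 - p1.1) - (p2.1 - p1.1) * (p3.2 - p1.2)| ∧
      |(p2.2 - p1.2) * (p3.1 - p1.1) - (p2.1 - p1.1) * (p3.2 - p1.2)| ≤ 1000 * R ^ 2 * X / c0 := by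
  have hX0 : 0 < X := by linarith
  have hXc : 300 * X ≤ c0 := by nlinarith
  -- the sign lemma
  have hsg : ∀ u v : ℝ, |v| < |u| → 0 < u * (u + v) := by
    intro u v huv
    rcases lt_trichotomy u 0 with h | h | h
    · rw [abs_of_neg h] at huv
      have := abs_lt.1 huv
      nlinarith
    · rw [h, abs_zero] at huv
      exact absurd huv (not_lt.2 (abs_nonneg v))
    · rw [abs_of_pos h] at huv
      have := abs_lt.1 huv
      have : 0 < u + v := by linarith
      positivity
  have hne0 : ∀ p ∈ V, p.2 ≠ 0 := by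
    intro p hp h
    have := hcl p hp
    rw [h, abs_zero] at this
    linarith
  -- two different points near the axis
  obtain ⟨p1, hp1, p2, hp2, hne, h1X, h2X⟩ : ∃ p1 ∈ V, ∃ p2 ∈ V, p1 ≠ p2 ∧ |p1.2| ≤ 3 * X ∧
      |p2.2| ≤ 3 * X := by
    by_contra hcon
    push Not at hcon
    by_cases hQ : ∃ p1 ∈ V, |p1.2| ≤ 3 * X
    · obtain ⟨p1, hp1, h1X⟩ := hQ
      obtain ⟨e, he, hea⟩ : ∃ e : ℝ, |e| = 2 * X ∧ 0 < e * p1.2 := by
        rcases lt_or_gt_of_ne (hne0 p1 hp1) with h | h
        · exact ⟨-(2 * X), by rw [abs_neg, abs_of_pos (by positivity)], by nlinarith⟩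
        · exact ⟨2 * X, abs_of_pos (by positivity), by positivity⟩
      have h := hX (-e) 0 (by simp) (by rw [abs_neg, he]; simp; linarith) (fun p hp => by
        by_cases hpp : p = p1
        · rw [hpp]
          have : p1.2 * (p1.2 - (-e + 0 * p1.1)) = p1.2 ^ 2 + e * p1.2 := by ring
          rw [this]; positivity
        · have h3 : 3 * X < |p.2| := by
            by_contra hh
            push Not at hh
            have := hcon p1 hp1 p hp (fun h => hpp h.symm) h1X
            linarith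
          have h4 := hsg p.2 e (by rw [he]; linarith)
          have : p.2 * (p.2 - (-e + 0 * p.1)) = p.2 * (p.2 + e) := by ring
          rw [this]; exact h4)
      rw [abs_neg, he] at h
      simp at h
      linarith
    · push Not at hQ
      have h := hX (2 * X) 0 (by simp) (by rw [abs_of_pos (by positivity)]; simp; linarith)
        (fun p hp => by
          have h4 := hsg p.2 (-(2 * X)) (by
            rw [abs_neg, abs_of_pos (by positivity)]; linarith [hQ p hp])
          have : p.2 * (p.2 - (2 * X + 0 * p.1)) = p.2 * (p.2 + -(2 * X)) := by ring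
          rw [this]; exact h4)
      rw [abs_of_pos (by positivity)] at h
      simp at h
      linarith
  have hgap' : c0 ≤ |p2.1 - p1.1| := by
    rw [abs_sub_comm]
    exact hgap p1 hp1 p2 hp2 hne (by linarith) (by linarith)
  have hdt : p2.1 - p1.1 ≠ 0 := by
    intro h; rw [h, abs_zero] at hgap'; linarith
  have hdt0 : 0 < |p2.1 - p1.1| := by linarith
  -- the line through the two points
  set σ : ℝ := (p2.2 - p1.2) / (p2.1 - p1.1) with hσ
  set β : ℝ := p1.2 - σ * p1.1 with hβ
  have hσ1 : |σ| * c0 ≤ 6 * X := by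
    have h3 : |σ| * |p2.1 - p1.1| = |p2.2 - p1.2| := by
      rw [← abs_mul, hσ, div_mul_cancel₀ _ hdt]
    have h4 : |p2.2 - p1.2| ≤ 6 * X := by
      have := abs_sub p2.2 p1.2
      linarith
    have h5 : |σ| * c0 ≤ |σ| * |p2.1 - p1.1| := mul_le_mul_of_nonneg_left hgap' (abs_nonneg _)
    linarith
  set Y : ℝ := 15 * X * R / c0 with hY
  have hY1 : 15 * X ≤ Y := by
    rw [hY, le_div_iff₀ hc0]
    nlinarith
  have hσ2 : |σ| ≤ 6 * X / c0 := by rw [le_div_iff₀ hc0]; exact hσ1
  have hβ1 : |β| + |σ| * R ≤ Y := by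
    have h3 : |β| ≤ 3 * X + |σ| * R := by
      rw [hβ]
      have h4 := abs_sub p1.2 (σ * p1.1)
      have h5 : |σ * p1.1| ≤ |σ| * R := by
        rw [abs_mul]; exact mul_le_mul_of_nonneg_left (hV p1 hp1) (abs_nonneg _)
      linarith
    have h4 : |σ| * R ≤ 6 * X / c0 * R := mul_le_mul_of_nonneg_right hσ2 (by linarith)
    have h5 : 3 * X ≤ 3 * X * R / c0 := by
      rw [le_div_iff₀ hc0]
      nlinarith
    have h6 : Y = 3 * X * R / c0 + 2 * (6 * X / c0 * R) := by rw [hY]; ring
    linarith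
  have hκ : ∀ p ∈ V, |β + σ * p.1| ≤ Y := by
    intro p hp
    have h3 := abs_add_le β (σ * p.1)
    have h4 : |σ * p.1| ≤ |σ| * R := by
      rw [abs_mul]; exact mul_le_mul_of_nonneg_left (hV p hp) (abs_nonneg _)
    linarith
  -- the third point
  obtain ⟨p3, hp3, h3a, h3b⟩ : ∃ p3 ∈ V, ρ / 16 ≤ |p3.2 - (β + σ * p3.1)| ∧ |p3.2| ≤ 20 * Y := by
    by_contra hcon
    push Not at hcon
    have hs1 : |(-15 * σ)| ≤ 1 := by
      rw [abs_mul, abs_neg, abs_of_pos (by norm_num : (0 : ℝ) < 15)]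
      have : 6 * X / c0 ≤ 1 / 50 := by
        rw [div_le_iff₀ hc0]; linarith
      linarith
    have hbig : ∀ p ∈ V, 0 < p.2 * (p.2 - (-15 * β + -15 * σ * p.1)) ∧
        4 * ρ < |p.2 - (-15 * β + -15 * σ * p.1)| := by
      intro p hp
      by_cases h3 : ρ / 16 ≤ |p.2 - (β + σ * p.1)|
      · have h4 := hcon p hp h3
        have h5 := hκ p hp
        have h6 : p.2 - (-15 * β + -15 * σ * p.1) = p.2 + 15 * (β + σ * p.1) := by ring
        have h7 : |15 * (β + σ * p.1)| ≤ 15 * Y := by
          rw [abs_mul, abs_of_pos (by norm_num : (0 : ℝ) < 15)]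
          linarith
        rw [h6]
        constructor
        · exact hsg _ _ (by linarith)
        · have h8 := abs_sub_abs_le_abs_sub p.2 (-(15 * (β + σ * p.1)))
          rw [abs_neg, sub_neg_eq_add] at h8
          linarith
      · push Not at h3
        have h4 := hcl p hp
        have h6 : p.2 - (-15 * β + -15 * σ * p.1) =
          16 * p.2 + -(15 * (p.2 - (β + σ * p.1))) := by ring
        have h7 : |-(15 * (p.2 - (β + σ * p.1)))| < 15 * (ρ / 16) := by
          rw [abs_neg, abs_mul, abs_of_pos (by norm_num : (0 : ℝ) < 15)]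
          linarith
        have h9 : |16 * p.2| = 16 * |p.2| := by
          rw [abs_mul, abs_of_pos (by norm_num : (0 : ℝ) < 16)]
        rw [h6]
        constructor
        · have h8 := hsg (16 * p.2) (-(15 * (p.2 - (β + σ * p.1)))) (by
            rw [h9]; linarith)
          nlinarith
        · have h8 := abs_sub_abs_le_abs_sub (16 * p.2) (15 * (p.2 - (β + σ * p.1)))
          rw [abs_neg] at h7
          rw [h9] at h8
          rw [← sub_eq_add_neg]
          linarith
    obtain ⟨p, hp, hp'⟩ := hmax (-15 * β) (-15 * σ) hs1 (fun p hp => (hbig p hp).1)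
    exact absurd hp' (not_le.2 (hbig p hp).2)
  refine ⟨p1, hp1, p2, hp2, p3, hp3, ?_⟩
  have hcross : (p2.2 - p1.2) * (p3.1 - p1.1) - (p2.1 - p1.1) * (p3.2 - p1.2) =
      -((p2.1 - p1.1) * (p3.2 - (β + σ * p3.1))) := by
    have h4 : p2.2 - p1.2 = σ * (p2.1 - p1.1) := by rw [hσ, div_mul_cancel₀ _ hdt]
    rw [h4, hβ]; ring
  rw [hcross, abs_neg, abs_mul]
  constructor
  · calc c0 * ρ / 16 = c0 * (ρ / 16) := by ring
      _ ≤ |p2.1 - p1.1| * |p3.2 - (β + σ * p3.1)| :=
          mul_le_mul hgap' h3a (by positivity) (abs_nonneg _)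
  · have h4 : |p2.1 - p1.1| ≤ 2 * R := by
      have := abs_sub p2.1 p1.1
      have := hV p1 hp1
      have := hV p2 hp2
      linarith
    have h5 : |p3.2 - (β + σ * p3.1)| ≤ 21 * Y := by
      have := abs_sub p3.2 (β + σ * p3.1)
      have := hκ p3 hp3
      linarith
    calc |p2.1 - p1.1| * |p3.2 - (β + σ * p3.1)| ≤ 2 * R * (21 * Y) :=
          mul_le_mul h4 h5 (abs_nonneg _) (by linarith)
      _ = 630 * R ^ 2 * X / c0 := by rw [hY]; ring
      _ ≤ 1000 * R ^ 2 * X / c0 := by
          apply div_le_div_of_nonneg_right _ hc0.le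
          have : 0 ≤ R ^ 2 * X := by positivity
          nlinarith

end Pool.Agent.BCX
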