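import Pool.Agent.BCX.Stmts4
import Pool.Agent.BCX.PureW

/-!
# The dichotomy for the second half
-/

open Set Filter Topology Metric MeasureTheory
open scoped ComplexConjugate

namespace Pool.Agent.BCX

open Pool.Agent.Billiard Pool.Agent.Lib_helper45.Bil

private theorem dist_le_tc_hc {b e : ℂ} (he : ‖e‖ = 1) (q q' : ℂ) :
    dist q q' ≤ |tc b e q - tc b e q'| + |hc b e q - hc b e q'| := by
  have h : q - q' = (((tc b e q - tc b e q' : ℝ) : ℂ) +
      ((hc b e q - hc b e q' : ℝ) : ℂ) * Complex.I) * e := by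
    have h1 := tc_hc_add b e he q
    have h2 := tc_hc_add b e he q'
    push_cast
    linear_combination h1 - h2
  rw [dist_eq_norm, h, norm_mul, he, mul_one]
  refine (norm_add_le _ _).trans ?_
  rw [norm_mul, Complex.norm_real, Complex.norm_real, Complex.norm_I, mul_one, Real.norm_eq_abs,
    Real.norm_eq_abs]

theorem m_NEARB : Stmt_SGN → Stmt_NEARB := by
  intro hSGN P g W b e R r y₁ s₁ y₂ s₂ ρ hW he hR hr hρ hs1 hs2 hTB hSR1 hSR2 hcl
  obtain ⟨hsg1, hsg2, -⟩ := hSGN P g
  have hr0 : 0 < r := by linarith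
  set d₀ : ℝ := |y₁ - y₂| + |s₁ - s₂| * R with hd₀
  set d : ℝ := 400 * r * ρ with hd
  have hd0 : 0 < d := by positivity
  by_cases hcase : d₀ ≤ d
  · left
    refine ⟨y₂, s₂, hs2, ?_, hSR2, hcl⟩
    rw [abs_sub_comm y₂ y₁, abs_sub_comm s₂ s₁]
    exact hcase
  push Not at hcase
  -- the intermediate line
  have hd₀pos : 0 < d₀ := hd0.trans hcase
  set x : ℝ := d / d₀ with hx
  have hx0 : 0 < x := by positivity
  have hx1 : x ≤ 1 := by
    rw [hx, div_le_one hd₀pos]
    exact hcase.le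
  set y' : ℝ := (1 - x) * y₁ + x * y₂ with hy'
  set s' : ℝ := (1 - x) * s₁ + x * s₂ with hs'
  have hs'1 : |s'| ≤ 1 := by
    have h1 := abs_le.1 hs1
    have h2 := abs_le.1 hs2
    rw [abs_le, hs']
    constructor <;> nlinarith
  have hdist : d = |y₁ - y'| + |s₁ - s'| * R := by
    have h1 : y₁ - y' = x * (y₁ - y₂) := by rw [hy']; ring
    have h2 : s₁ - s' = x * (s₁ - s₂) := by rw [hs']; ring
    rw [h1, h2, abs_mul, abs_mul, abs_of_pos hx0]
    have h3 : x * |y₁ - y₂| + x * |s₁ - s₂| * R = x * d₀ := by rw [hd₀]; ring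
    rw [h3, hx, div_mul_cancel₀ _ hd₀pos.ne']
  -- the points
  set V : Set (ℝ × ℝ) := (fun q => (tc b e q, hc b e q)) '' VX P W with hV
  have hVR : ∀ p ∈ V, |p.1| ≤ R := by
    rintro p ⟨q, hq, rfl⟩
    exact hTB q hq
  have hsame : ∀ p ∈ V, 0 < (p.2 - (y₁ + s₁ * p.1)) * (p.2 - (y' + s' * p.1)) := by
    rintro p ⟨q, hq, rfl⟩
    show 0 < (hc b e q - (y₁ + s₁ * tc b e q)) * (hc b e q - (y' + s' * tc b e q))
    rw [← sd_frame he, ← sd_frame he, hy', hs', sd_mix he]
    have h1 := hsg2 W _ _ _ _ hSR1 hSR2 q hq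
    have h2 : 0 ≤ sd (lz b e y₁) (lu e s₁) q ^ 2 := sq_nonneg _
    nlinarith [mul_pos hx0 h1, mul_nonneg (sub_nonneg.2 hx1) h2]
  rcases pure_FAT V R r y₁ s₁ y' s' d (by linarith) hr hdist hd0 hVR hsame with
    ⟨y, hy, hall⟩ | ⟨p, ⟨q, hq, rfl⟩, p', ⟨q', hq', rfl⟩, hne, hdt, h1, h2⟩
  · left
    have h200 : d / (200 * r) = 2 * ρ := by
      rw [hd]; field_simp; ring
    rw [h200] at hy hall
    refine ⟨y, (s₁ + s') / 2, ?_, ?_, ?_, ?_⟩
    · have h1 := abs_le.1 hs1
      have h2 := abs_le.1 hs'1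
      rw [abs_le]
      constructor <;> linarith
    · have h1 : |y - y₁| ≤ 2 * ρ + |y₁ - y'| / 2 := by
        have h3 : y - y₁ = (y - (y₁ + y') / 2) - (y₁ - y') / 2 := by ring
        rw [h3]
        have h4 := abs_sub (y - (y₁ + y') / 2) ((y₁ - y') / 2)
        have h5 : |(y₁ - y') / 2| = |y₁ - y'| / 2 := by
          rw [abs_div, abs_two]
        linarith
      have h2 : |(s₁ + s') / 2 - s₁| = |s₁ - s'| / 2 := by
        rw [show (s₁ + s') / 2 - s₁ = -((s₁ - s') / 2) by ring, abs_neg, abs_div, abs_two]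
      rw [h2]
      have h3 : 4 * ρ ≤ d := by rw [hd]; nlinarith
      have h4 : |s₁ - s'| / 2 * R = |s₁ - s'| * R / 2 := by ring
      rw [h4]
      linarith
    · apply hsg1 W b e y₁ s₁ y ((s₁ + s') / 2) he hW hSR1
      intro q hq
      have := (hall (tc b e q, hc b e q) ⟨q, hq, rfl⟩).1
      rw [sd_frame he, sd_frame he]
      exact this
    · intro q hq
      have := (hall (tc b e q, hc b e q) ⟨q, hq, rfl⟩).2
      rw [sd_frame he]
      have h3 : 2 * ρ ≤ |hc b e q - (y + (s₁ + s') / 2 * tc b e q)| := this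
      linarith
  · right
    have h50 : d / (50 * r) = 8 * ρ := by
      rw [hd]; field_simp; ring
    rw [h50] at h1 h2
    change |hc b e q - (y₁ + s₁ * tc b e q)| ≤ 8 * ρ at h1
    change |hc b e q' - (y₁ + s₁ * tc b e q')| ≤ 8 * ρ at h2
    change |tc b e q - tc b e q'| ≤ R / r at hdt
    refine ⟨q, hq, q', hq', ?_, ?_, ?_, ?_⟩
    · rintro rfl
      exact hne rfl
    · have h3 := dist_le_tc_hc (b := b) he q q'
      have h4 : |hc b e q - hc b e q'| ≤ 16 * ρ + R / r := by
        have h5 : hc b e q - hc b e q' = (hc b e q - (y₁ + s₁ * tc b e q)) -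
          (hc b e q' - (y₁ + s₁ * tc b e q')) + s₁ * (tc b e q - tc b e q') := by ring
        rw [h5]
        have h6 := abs_add_le ((hc b e q - (y₁ + s₁ * tc b e q)) -
          (hc b e q' - (y₁ + s₁ * tc b e q'))) (s₁ * (tc b e q - tc b e q'))
        have h7 := abs_sub (hc b e q - (y₁ + s₁ * tc b e q))
          (hc b e q' - (y₁ + s₁ * tc b e q'))
        have h8 : |s₁ * (tc b e q - tc b e q')| ≤ R / r := by
          rw [abs_mul]
          calc |s₁| * |tc b e q - tc b e q'| ≤ 1 * |tc b e q - tc b e q'| :=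
                mul_le_mul_of_nonneg_right hs1 (abs_nonneg _)
            _ ≤ R / r := by rw [one_mul]; exact hdt
        linarith
      have h9 : 2 * R / r = R / r + R / r := by ring
      rw [h9]
      linarith
    · unfold ld
      rw [sd_frame he]
      exact (div_le_self (abs_nonneg _) (norm_lu he s₁).1).trans h1
    · unfold ld
      rw [sd_frame he]
      exact (div_le_self (abs_nonneg _) (norm_lu he s₁).1).trans h2

end Pool.Agent.BCX
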