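import Pool.Agent.BCX.Stmts4

/-!
# `PAIR`: words of length `2 m` are pairs at the middle gate
-/

open Set Filter Topology Metric MeasureTheory
open scoped ComplexConjugate

namespace Pool.Agent.BCX

open Pool.Agent.Billiard Pool.Agent.Lib_helper45.Bil

namespace PAIR

/-- the pair of the word `X` at the gate in the middle -/
def mid (P : Polygon) (m : ℕ) (X : ZMod P.k × List (SL P)) :
    ZMod P.k × List (SL P) × List (SL P) :=
  (lg X.1 (X.2.take m), rv X.1 (X.2.take m), X.2.drop m)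

lemma mid_injective (hS : Stmt_SPLIT) (P : Polygon) (m : ℕ) : Function.Injective (mid P m) := by
  rintro ⟨g, W⟩ ⟨g', W'⟩ h
  simp only [mid, Prod.mk.injEq] at h
  obtain ⟨h1, h2, h3⟩ := h
  obtain ⟨-, a2, a3⟩ := (hS P).1 g (W.take m)
  obtain ⟨-, b2, b3⟩ := (hS P).1 g' (W'.take m)
  rw [h1, h2] at a2 a3
  have e1 : g = g' := a2.symm.trans b2
  have e2 : W.take m = W'.take m := a3.symm.trans b3
  have e3 : W = W' := by
    rw [← List.take_append_drop m W, ← List.take_append_drop m W', e2, h3]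
  rw [e1, e3]

lemma finite_right (hN : Stmt_SNB) (P : Polygon) (m : ℕ) :
    {X : ZMod P.k × List (SL P) × List (SL P) | X.2.1.length = m ∧ X.2.2.length = m ∧
      ∃ z u, TS P X.1 X.2.1 X.2.2 z u}.Finite := by
  have hf := (hN P).2.2 m
  refine ((hf.prod hf).image fun Y => (Y.1.1, Y.1.2, Y.2.2)).subset ?_
  rintro ⟨g, A, B⟩ ⟨h1, h2, -⟩
  exact ⟨((g, A), (g, B)), ⟨h1, h2⟩, rfl⟩

end PAIR

theorem m_PAIR : Stmt_SPLIT → Stmt_SNB → Stmt_PAIR := by
  intro hS hN P m _
  unfold SN
  refine Set.ncard_le_ncard_of_injOn (PAIR.mid P m) ?_ ((PAIR.mid_injective hS P m).injOn)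
    (PAIR.finite_right hN P m)
  rintro ⟨g, W⟩ ⟨hl, z, u, hr⟩
  simp only at hl hr
  have hW : W.take m ++ W.drop m = W := List.take_append_drop m W
  rw [← hW] at hr
  have h1 := ((hS P).1 g (W.take m)).1
  have h2 := ((hS P).2.2 g (W.take m) (W.drop m) z u hr).2
  refine ⟨?_, ?_, _, _, h2⟩
  · simp only [PAIR.mid]
    rw [h1, List.length_take]
    omega
  · simp only [PAIR.mid]
    rw [List.length_drop]
    omega

end Pool.Agent.BCX
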