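import Pool.Agent.BCX.Stmts4
import Pool.Agent.BCX.PureW

/-!
# The pure lemmas `PFAT` and `PTRIP`
-/

namespace Pool.Agent.BCX

theorem m_PFAT : Stmt_PFAT := by
  intro V R r y₁ s₁ y₂ s₂ d hR hr hd hd0 hV hs
  exact pure_FAT V R r y₁ s₁ y₂ s₂ d hR hr hd hd0 hV hs

theorem m_PTRIP : Stmt_PTRIP := by
  intro V R c X ρ hR hc hc1 hρ hρX hXR hV hcl hgap hX hmax
  exact pure_TRIP V R c X ρ hρ hc hc1 hR hρX hXR hV hcl hgap hX hmax

end Pool.Agent.BCX
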