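import Pool.Agent.BCX.Stmts4

/-!
# `F_P(n) ≤ exp (C (log n)^{3/2})`: module PLINE (the poor case, the line)
-/

open Set Filter Topology Metric
open scoped ComplexConjugate

namespace Pool.Agent.BCX

open Pool.Agent.Billiard Pool.Agent.Lib_helper45.Bil

namespace PLINE

variable {P : Polygon}

theorem abs_tc_le {b e : ℂ} (he : ‖e‖ = 1) (q : ℂ) : |tc b e q| ≤ dist b q := by
  unfold tc
  calc |((q - b) * conj e).re| ≤ ‖(q - b) * conj e‖ := Complex.abs_re_le_norm _
    _ = dist b q := by rw [norm_mul, RCLike.norm_conj, he, mul_one, dist_comm, dist_eq_norm]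

theorem lrefl_neg (g : ZMod P.k) (u : ℂ) : lrefl P g (-u) = -lrefl P g u := by
  unfold lrefl reflectDir
  simp only [map_neg]
  ring

theorem tight_mono {W : List (SL P)} {z u z' u' : ℂ} {ε ε' δ δ' : ℝ}
    (hl : ∀ q, ld z' u' q = ld z u q) (h1 : ε ≤ ε') (h2 : δ ≤ δ') (h : Tight P W z' u' ε δ) :
    Tight P W z u ε' δ' := by
  obtain ⟨q, hq, q', hq', hne, hd, h3, h4⟩ := h
  exact ⟨q, hq, q', hq', hne, hd.trans h2, by rw [← hl]; exact h3.trans h1,
    by rw [← hl]; exact h4.trans h1⟩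

end PLINE

open PLINE in
theorem m_PLINE (hVXL : Stmt_VXL) (hINV : Stmt_INV) (hSIZE : Stmt_SIZE) (hANG : Stmt_ANG)
    (hOPT : Stmt_OPT) (hNA : Stmt_NEARA) (hNB : Stmt_NEARB) : Stmt_PLINE := by
  intro P D M hD
  obtain ⟨C, hC1, hANG⟩ := hANG P D M hD
  obtain ⟨K₁, hK1, hNA⟩ := hNA P D M hD
  have hD1 : 1 ≤ D := hD.1
  have hC1' : (1 : ℝ) ≤ C := by exact_mod_cast hC1
  have hK1' : (1 : ℝ) ≤ K₁ := by exact_mod_cast hK1
  obtain ⟨K, hK⟩ := exists_nat_ge (12 * K₁ * D + 50 * D + C : ℝ)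
  have hKK : 12 * K₁ * D ≤ (K : ℝ) := by nlinarith
  have hK40 : 50 * D ≤ (K : ℝ) := by nlinarith
  have hK50 : (50 : ℝ) ≤ K := by linarith
  have hKC : (C : ℝ) ≤ K := by nlinarith
  refine ⟨K, by exact_mod_cast (by linarith : (1 : ℝ) ≤ K), ?_⟩
  intro m a hKm ha ham R hR g A B zA uA z u zB uB ρA ρB hA hB oA oB hTS hρ hTA hTB b e hb he
  have hKm' : (K : ℝ) ≤ m := by exact_mod_cast hKm
  have ha' : (1 : ℝ) ≤ a := by exact_mod_cast ha
  have ham' : (a : ℝ) ≤ m := by exact_mod_cast ham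
  have hm50 : (50 : ℝ) ≤ m := by linarith
  have hm0 : 0 < m := by
    have : (0 : ℝ) < m := by linarith
    exact_mod_cast this
  have hCm : C ≤ m := by exact_mod_cast (hKC.trans hKm')
  have hRlow : 2 * (m : ℝ) + 10 ≤ R := by rw [hR]; nlinarith
  have hR0 : 0 < R := by linarith
  have hR1 : 1 ≤ R := by linarith
  have hR12 : R ≤ 12 * D * m := by rw [hR]; nlinarith
  have hRm : (m + 2) * D ≤ R := by rw [hR]; nlinarith
  have heA : ‖uA‖ = 1 := oA.unit
  have he1 : ‖e‖ = 1 := by rw [he, norm_neg, norm_lrefl]; exact heA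
  have hbz : b = zA := by rw [hb]; exact refl_fix (H_of_mem_rel oA.start)
  obtain ⟨hSB, hSA⟩ := hTS
  have hAne : A ≠ [] := by
    intro h; rw [h] at hA; simp at hA; omega
  have hBne : B ≠ [] := by
    intro h; rw [h] at hB; simp at hB; omega
  have hTBA : TB P R zA uA A := by
    intro q hq
    have h1 := (hSIZE P D M hD g A zA uA oA.real).2.1 zA oA.start q hq
    rw [hA] at h1
    exact (abs_tc_le heA q).trans (h1.trans hRm)
  have hTBB : TB P R b e B := by
    intro q hq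
    have h1 := (hSIZE P D M hD g B z u hSB).2.1 b (by rw [hbz]; exact oA.start) q hq
    rw [hB] at h1
    exact (abs_tc_le he1 q).trans (h1.trans hRm)
  refine ⟨he1, hTBB, ?_⟩
  -- the line in the frame of the optimal line of A
  have i6 : lz zA uA 0 = zA := (hINV P zA uA zA uA 0 0).2.2.2.2.2.1
  have i7 : lu uA 0 = uA := (hINV P zA uA zA uA 0 0).2.2.2.2.2.2.1
  have hS00 : SR P g A (lz zA uA 0) (lu uA 0) := by rw [i6, i7]; exact oA.real
  obtain ⟨y', s', hco, hs1, hys⟩ := hANG g A zA uA (Lib_helper45.Bil.refl P g z)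
    (-lrefl P g u) R 0 0 (by rw [hA]; exact hCm) heA hR0 (by rw [hA]; exact hR12)
    (by norm_num) hTBA hS00 hSA
  rw [zero_sub, zero_sub, abs_neg, abs_neg] at hys
  have hs2 : |s'| ≤ 1 / 2 := by
    have h1 : |s'| * R ≤ C := by linarith [abs_nonneg y']
    have h2 : |s'| * (2 * C) ≤ |s'| * R := by
      apply mul_le_mul_of_nonneg_left _ (abs_nonneg _)
      linarith
    have h3 : 0 < (C : ℝ) := by linarith
    nlinarith [abs_nonneg s']
  have hcoB : Coord b e z u y' (-s') := by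
    have h1 := (hINV P zA uA (Lib_helper45.Bil.refl P g z) (-lrefl P g u) y' s').2.2.2.2.1 g hco
    rw [refl_refl, lrefl_neg, neg_neg, lrefl_lrefl, ← hb, ← he] at h1
    exact h1
  have hSB' : SR P g B (lz b e y') (lu e (-s')) :=
    (hINV P b e z u y' (-s')).1 g B hcoB hSB
  obtain ⟨y₂, s₂, hco2, hs3, hys2⟩ := hANG g B b e zB uB R y' (-s') (by rw [hB]; exact hCm) he1
    hR0 (by rw [hB]; exact hR12) (by rw [abs_neg]; exact hs2) hTBB hSB' oB.real
  have hSA' : SR P g A (lz zA uA y') (lu uA s') :=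
    (hINV P zA uA _ _ y' s').1 g A hco hSA
  have hρA0 : 0 < ρA := oA.pos
  have hC100 : (C : ℝ) ≤ 100 * R := by linarith
  -- tight pair bounds
  have hK1R : K₁ * R ≤ K * m := by
    calc K₁ * R ≤ K₁ * (12 * D * m) := by gcongr
      _ = (12 * K₁ * D) * m := by ring
      _ ≤ K * m := by gcongr
  have hnear : |y'| + |s'| * R ≤ 800 * a * ρA := by
    have h1 := hNA g A zA uA zA uA R a y' s' 0 0 ρA hAne heA hR1 ha' hs1 (by norm_num) hTBA oA
      hSA' hS00 (by rw [sub_zero, sub_zero]; linarith)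
    rw [sub_zero, sub_zero] at h1
    rcases h1 with h1 | h1
    · exact h1
    · exfalso
      apply hTA
      refine tight_mono (fun q => ?_) ?_ ?_ h1
      · exact (hINV P zA uA _ _ y' s').2.1 q hco
      · exact mul_le_mul_of_nonneg_right hK1R hρA0.le
      · exact div_le_div_of_nonneg_right hK1R (by linarith)
  have hcl2 : ∀ q ∈ VX P B, ρA ≤ |sd (lz b e y₂) (lu e s₂) q| := by
    intro q hq
    have h1 := oB.cl q hq
    rw [← (hINV P b e zB uB y₂ s₂).2.1 q hco2] at h1
    have h2 := ((hVXL P).2.2.2.2.2 (lz b e y₂) e q s₂ he1 hs3).1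
    linarith
  rcases hNB P g B b e R a y' (-s') y₂ s₂ ρA hBne he1 hR1 ha' hρA0 (by rw [abs_neg]; exact hs1) hs3
    hTBB hSB' ((hINV P b e zB uB y₂ s₂).1 g B hco2 oB.real) hcl2 with h1 | h1
  · obtain ⟨y, s, _, h2, h3, h4⟩ := h1
    refine ⟨y, s, ?_, h3, h4⟩
    have h5 : |y| ≤ |y - y'| + |y'| := by
      calc |y| = |(y - y') + y'| := by ring_nf
        _ ≤ _ := abs_add_le _ _
    have h6 : |s| ≤ |s - -s'| + |s'| := by
      calc |s| = |(s - -s') + -s'| := by ring_nf
        _ ≤ |s - -s'| + |-s'| := abs_add_le _ _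
        _ = _ := by rw [abs_neg]
    have h7 : |s| * R ≤ (|s - -s'| + |s'|) * R := mul_le_mul_of_nonneg_right h6 hR0.le
    nlinarith
  · exfalso
    apply hTB
    have hρD : ρA ≤ D := (hOPT P D M hD g A zA uA hAne oA.real).2 ρA oA.cl
    have ha0 : (0 : ℝ) < a := by linarith
    refine tight_mono (fun q => ?_) ?_ ?_ h1
    · exact (hINV P b e z u y' (-s')).2.1 q hcoB
    · refine mul_le_mul_of_nonneg_right ?_ hρA0.le
      nlinarith
    · have h2 : 16 * ρA ≤ 16 * D * m / a := by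
        rw [le_div_iff₀ ha0]
        have : ρA * a ≤ D * m := mul_le_mul hρD ham' ha0.le (by linarith)
        linarith
      have h3 : 2 * R / a ≤ 24 * D * m / a := by
        apply div_le_div_of_nonneg_right _ ha0.le
        linarith
      calc 2 * R / a + 16 * ρA ≤ 24 * D * m / a + 16 * D * m / a := add_le_add h3 h2
        _ = (40 * D) * m / a := by ring
        _ ≤ K * m / a := by
          apply div_le_div_of_nonneg_right _ ha0.le
          apply mul_le_mul_of_nonneg_right _ (by linarith)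
          linarith

end Pool.Agent.BCX
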