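import Pool.Agent.BCX.Stmts4

/-!
# The poor case: count
-/

open Set Filter Topology Metric MeasureTheory
open scoped ComplexConjugate

namespace Pool.Agent.BCX

open Pool.Agent.Billiard Pool.Agent.Lib_helper45.Bil

namespace Poor

/-- `Tight` is monotone in both bounds. -/
theorem tight_mono {P : Polygon} {W : List (SL P)} {z u : ℂ} {ε δ ε' δ' : ℝ} (h1 : ε ≤ ε')
    (h2 : δ ≤ δ') (h : Tight P W z u ε δ) : Tight P W z u ε' δ' := by
  obtain ⟨q, hq, q', hq', hne, hd, h3, h4⟩ := h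
  exact ⟨q, hq, q', hq', hne, hd.trans h2, h3.trans h1, h4.trans h1⟩

/-- the integer part of a number of absolute value `≤ N` -/
theorem floor_mem {x : ℝ} {N : ℕ} (h : |x| ≤ N) : ⌊x⌋ ∈ Finset.Icc (-(N : ℤ)) N := by
  obtain ⟨h1, h2⟩ := abs_le.1 h
  rw [Finset.mem_Icc]
  constructor
  · rw [Int.le_floor]
    push_cast
    exact h1
  · have h3 : (⌊x⌋ : ℝ) ≤ (N : ℝ) := (Int.floor_le x).trans h2
    exact_mod_cast h3

end Poor

/-- POOR. -/
theorem m_POOR (hP : Stmt_PLINE) (hC : Stmt_CELL) : Stmt_POOR := by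
  intro P D M hT
  obtain ⟨K₁, hK₁, h⟩ := hP P D M hT
  have hD : 1 ≤ D := hT.1
  refine ⟨max K₁ (4801 ^ 2), le_trans hK₁ (le_max_left _ _), ?_⟩
  set K : ℕ := max K₁ (4801 ^ 2) with hK
  intro m a hm ha ham g A zA uA ρA hA hopt
  have hKK : K₁ ≤ K := le_max_left _ _
  have hKR : (K₁ : ℝ) ≤ K := by exact_mod_cast hKK
  have hρ : 0 < ρA := hopt.pos
  have ha0 : (0 : ℝ) < a := by exact_mod_cast ha
  have hm0 : (0 : ℝ) ≤ m := Nat.cast_nonneg m
  set R : ℝ := (2 * m + 10) * D with hR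
  have hR0 : 0 < R := by positivity
  set b : ℂ := Lib_helper45.Bil.refl P g zA with hb
  set e : ℂ := -lrefl P g uA with he
  set S : Set (List (SL P)) := {B : List (SL P) | B.length = m ∧
      ∃ (z u zB uB : ℂ) (ρB : ℝ), TS P g A B z u ∧
      Opt P g B zB uB ρB ∧ ρA ≤ ρB ∧
      ¬ Tight P A (Lib_helper45.Bil.refl P g z) (-lrefl P g u) (K * m * ρA) (K * m / a) ∧
      ¬ Tight P B z u (K * m * ρA) (K * m / a)} with hS
  have b1 : (K₁ : ℝ) * m * ρA ≤ K * m * ρA := by gcongr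
  have b2 : (K₁ : ℝ) * m / a ≤ K * m / a := by gcongr
  have key : ∀ B ∈ S, ∃ y s : ℝ, B.length = m ∧ ‖e‖ = 1 ∧ TB P R b e B ∧
      |y| + |s| * R ≤ 1200 * a * ρA ∧
      SR P g B (lz b e y) (lu e s) ∧ ∀ q ∈ VX P B, ρA ≤ |sd (lz b e y) (lu e s) q| := by
    rintro B ⟨hB, z, u, zB, uB, ρB, hTS, hoB, hAB, ht1, ht2⟩
    obtain ⟨h1, h2, y, s, h3, h4, h5⟩ := h m a (hKK.trans hm) ha ham R hR g A B zA uA z u zB uB
      ρA ρB hA hB hopt hoB hTS hAB (fun ht => ht1 (Poor.tight_mono b1 b2 ht))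
      (fun ht => ht2 (Poor.tight_mono b1 b2 ht)) b e hb he
    exact ⟨y, s, hB, h1, h2, h3, h4, h5⟩
  choose! y s hl he1 hTB hbd hSR hcl using key
  set N : ℕ := 2400 * a with hN
  set t : Finset (ℤ × ℤ) := Finset.Icc (-(N : ℤ)) N ×ˢ Finset.Icc (-(N : ℤ)) N with ht
  have hcard : S.ncard ≤ (t : Set (ℤ × ℤ)).ncard := by
    refine Set.ncard_le_ncard_of_injOn
      (fun B => (⌊2 * y B / ρA⌋, ⌊2 * (s B * R) / ρA⌋)) ?_ ?_ t.finite_toSet
    · intro B hB
      have h0 := hbd B hB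
      have h1 : 0 ≤ |s B| * R := by positivity
      have h2 := abs_nonneg (y B)
      rw [Finset.mem_coe, ht, Finset.mem_product]
      constructor
      · refine Poor.floor_mem ?_
        rw [abs_div, abs_of_pos hρ, div_le_iff₀ hρ, abs_mul, hN]
        push_cast
        rw [abs_of_pos (by norm_num : (0 : ℝ) < 2)]
        linarith
      · refine Poor.floor_mem ?_
        rw [abs_div, abs_of_pos hρ, div_le_iff₀ hρ, abs_mul, abs_mul, abs_of_pos hR0, hN]
        push_cast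
        rw [abs_of_pos (by norm_num : (0 : ℝ) < 2)]
        linarith
    · intro B hB B' hB' hBB
      simp only [Prod.mk.injEq] at hBB
      exact hC P g B B' b e R ρA (y B) (s B) (y B') (s B') (he1 B hB) hR0 hρ
        ((hl B hB).trans (hl B' hB').symm) (hSR B hB) (hSR B' hB') (hTB B hB) (hcl B hB) hBB.1 hBB.2
  refine hcard.trans ?_
  rw [Set.ncard_coe_finset, ht, Finset.card_product, Int.card_Icc]
  have h1 : ((N : ℤ) + 1 - -(N : ℤ)).toNat = 2 * N + 1 := by omega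
  rw [h1, hN]
  have h2 : 2 * (2400 * a) + 1 ≤ 4801 * a := by omega
  have h3 : 4801 ^ 2 ≤ K := le_max_right _ _
  have h4 : 2 ≤ K := le_trans (by norm_num) h3
  calc (2 * (2400 * a) + 1) * (2 * (2400 * a) + 1) ≤ (4801 * a) * (4801 * a) :=
        Nat.mul_le_mul h2 h2
    _ = 4801 ^ 2 * a ^ 2 := by ring
    _ ≤ K * a ^ K := Nat.mul_le_mul h3 (Nat.pow_le_pow_right ha h4)

end Pool.Agent.BCX
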