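import Pool.Agent.BCX.Stmts2

/-!
# Rank of the angles
-/

open Set Filter Topology Metric
open scoped ComplexConjugate

namespace Pool.Agent.BCX

open Pool.Agent.Billiard Pool.Agent.Lib_helper45.Bil

namespace RANK

/-- Common denominator of a finite family of rationals. -/
theorem common_den {ι : Type*} [Fintype ι] (c : ι → ℚ) :
    ∃ N : ℕ, 1 ≤ N ∧ ∃ m : ι → ℤ, ∀ i, (N : ℚ) * c i = m i := by
  classical
  refine ⟨∏ i, (c i).den, ?_, ?_⟩
  · exact Nat.one_le_iff_ne_zero.2 (Finset.prod_ne_zero_iff.2 fun i _ => (c i).den_ne_zero)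
  · have h : ∀ i, ∃ m : ℤ, ((∏ j, (c j).den : ℕ) : ℚ) * c i = m := by
      intro i
      obtain ⟨q, hq⟩ := Finset.dvd_prod_of_mem (fun j => (c j).den) (Finset.mem_univ i)
      refine ⟨q * (c i).num, ?_⟩
      rw [hq]
      push_cast
      have h1 : ((c i).den : ℚ) * c i = (c i).num := by
        rw [mul_comm]; exact Rat.mul_den_eq_num (c i)
      calc ((c i).den : ℚ) * q * c i = q * (((c i).den : ℚ) * c i) := by ring
        _ = q * (c i).num := by rw [h1]
    choose m hm using h
    exact ⟨m, hm⟩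

/-- Integer coordinates with respect to `π` and `r` further numbers. -/
theorem coords {ι : Type*} [Fintype ι] (x : ι → ℝ) (p : ℝ) (hp : p ≠ 0) (r : ℕ)
    (h : Module.finrank ℚ (Submodule.span ℚ (insert p (Set.range x))) ≤ r + 1) :
    ∃ (N : ℕ) (θ : Fin r → ℝ) (A : ι → ℤ) (F : ι → Fin r → ℤ), 1 ≤ N ∧
      ∀ i, (N : ℝ) * x i = A i * p + ∑ j, (F i j : ℝ) * θ j := by
  classical
  set V := Submodule.span ℚ (insert p (Set.range x)) with hV
  have : FiniteDimensional ℚ V :=
    FiniteDimensional.span_of_finite ℚ ((Set.finite_range x).insert p)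
  have hpV : p ∈ V := Submodule.subset_span (Set.mem_insert _ _)
  have hxV : ∀ i, x i ∈ V := fun i =>
    Submodule.subset_span (Set.mem_insert_of_mem _ (Set.mem_range_self i))
  set p' : V := ⟨p, hpV⟩ with hp'
  have hp'0 : p' ≠ 0 := by
    intro h0
    exact hp (by simpa [hp'] using congrArg Subtype.val h0)
  set S : Submodule ℚ V := Submodule.span ℚ {p'} with hS
  have hfS : Module.finrank ℚ S = 1 := finrank_span_singleton hp'0
  have hq : Module.finrank ℚ (V ⧸ S) ≤ r := by
    have := Submodule.finrank_quotient_add_finrank S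
    omega
  set b := Module.finBasis ℚ (V ⧸ S) with hb
  set d := Module.finrank ℚ (V ⧸ S) with hd
  have hlift : ∀ j : Fin d, ∃ v : V, S.mkQ v = b j := fun j =>
    Submodule.mkQ_surjective S (b j)
  choose v hv using hlift
  -- coordinates of `x i`
  have hco : ∀ i, ∃ q : ℚ, (x i : ℝ) = q * p + ∑ j : Fin d,
      ((b.repr (S.mkQ ⟨x i, hxV i⟩) j : ℚ) : ℝ) * (v j : ℝ) := by
    intro i
    set xi : V := ⟨x i, hxV i⟩ with hxi
    have h1 : S.mkQ (xi - ∑ j, b.repr (S.mkQ xi) j • v j) = 0 := by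
      rw [map_sub, map_sum]
      simp only [map_smul, hv]
      rw [b.sum_repr, sub_self]
    rw [Submodule.mkQ_apply, Submodule.Quotient.mk_eq_zero] at h1
    obtain ⟨q, hq'⟩ := Submodule.mem_span_singleton.1 h1
    refine ⟨q, ?_⟩
    have h2 : xi = q • p' + ∑ j, b.repr (S.mkQ xi) j • v j := by
      rw [hq']; abel
    have h3 := congrArg (fun t : V => (t : ℝ)) h2
    simp only [Submodule.coe_add, Submodule.coe_smul, Submodule.coe_sum] at h3
    rw [hxi] at h3
    simpa [Rat.smul_def, hp'] using h3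
  choose q hq2 using hco
  set c : ι → Fin d → ℚ := fun i j => b.repr (S.mkQ ⟨x i, hxV i⟩) j with hc
  obtain ⟨N, hN, m, hm⟩ := common_den (fun t : ι × Option (Fin d) =>
    match t.2 with
    | none => q t.1
    | some j => c t.1 j)
  have hmq : ∀ i, (N : ℝ) * (q i : ℝ) = (m (i, none) : ℝ) := by
    intro i
    have := hm (i, none)
    simp only at this
    exact_mod_cast this
  have hmc : ∀ i j, (N : ℝ) * (c i j : ℝ) = (m (i, some j) : ℝ) := by
    intro i j
    have := hm (i, some j)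
    simp only at this
    exact_mod_cast this
  refine ⟨N, fun j => if hj : (j : ℕ) < d then (v ⟨j, hj⟩ : ℝ) else 0, fun i => m (i, none),
    fun i j => if hj : (j : ℕ) < d then m (i, some ⟨j, hj⟩) else 0, hN, ?_⟩
  intro i
  have hsum : ∑ j : Fin d, (m (i, some j) : ℝ) * (v j : ℝ) =
      ∑ j : Fin r, (((if hj : (j : ℕ) < d then m (i, some ⟨j, hj⟩) else 0 : ℤ) : ℝ)) *
        (if hj : (j : ℕ) < d then (v ⟨j, hj⟩ : ℝ) else 0) := by
    apply Fintype.sum_of_injective (Fin.castLE hq) (Fin.castLE_injective hq)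
    · intro j hj
      have : ¬ (j : ℕ) < d := by
        intro hlt
        exact hj ⟨⟨j, hlt⟩, by ext; simp⟩
      simp [this]
    · intro j
      simp
  rw [← hsum]
  have h4 : (N : ℝ) * x i = (N : ℝ) * (q i : ℝ) * p +
      ∑ j : Fin d, ((N : ℝ) * (c i j : ℝ)) * (v j : ℝ) := by
    rw [hq2 i, mul_add, Finset.mul_sum]
    congr 1
    · ring
    · exact Finset.sum_congr rfl fun j _ => by rw [hc]; ring
  rw [h4, hmq i]
  congr 1
  exact Finset.sum_congr rfl fun j _ => by rw [hmc i j]

theorem div_conj {z : ℂ} (hz : z ≠ 0) :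
    z / conj z = Complex.exp (2 * (Complex.arg z : ℂ) * Complex.I) := by
  have h1 : (‖z‖ : ℂ) * Complex.exp (Complex.arg z * Complex.I) = z :=
    Complex.norm_mul_exp_arg_mul_I z
  have h2 : conj z = (‖z‖ : ℂ) * Complex.exp (-(Complex.arg z * Complex.I)) := by
    conv_lhs => rw [← h1]
    rw [map_mul, Complex.conj_ofReal, ← Complex.exp_conj]
    congr 2
    rw [map_mul, Complex.conj_ofReal, Complex.conj_I]
    ring
  have h0 : (‖z‖ : ℂ) ≠ 0 := by exact_mod_cast norm_ne_zero_iff.2 hz
  rw [h2]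
  nth_rewrite 1 [← h1]
  rw [mul_div_mul_left _ _ h0, ← Complex.exp_sub]
  congr 1
  ring

variable (P : Polygon)

/-- `c a`. -/
noncomputable def cc (a : ZMod P.k) : ℂ := dir P a / conj (dir P a)

theorem extAngle_eq (i : ZMod P.k) : extAngle P i = Complex.arg (dir P (i + 1) / dir P i) := by
  unfold extAngle dir
  rw [show i + 2 = i + 1 + 1 by ring]

theorem cc_ne (a : ZMod P.k) : cc P a ≠ 0 := by
  unfold cc
  exact div_ne_zero (dir_ne a) ((map_ne_zero _).2 (dir_ne a))

theorem cc_succ (a : ZMod P.k) :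
    cc P (a + 1) = cc P a * Complex.exp (2 * (extAngle P a : ℂ) * Complex.I) := by
  rw [extAngle_eq, ← div_conj (div_ne_zero (dir_ne _) (dir_ne _))]
  unfold cc
  have h1 := dir_ne (P := P) a
  have h2 := dir_ne (P := P) (a + 1)
  have h3 : conj (dir P a) ≠ 0 := (map_ne_zero _).2 h1
  have h4 : conj (dir P (a + 1)) ≠ 0 := (map_ne_zero _).2 h2
  rw [map_div₀]
  field_simp

theorem cc_nat (n : ℕ) : cc P (n : ZMod P.k) =
    cc P 0 * ∏ i ∈ Finset.range n,
      Complex.exp (2 * (extAngle P (i : ZMod P.k) : ℂ) * Complex.I) := by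
  induction n with
  | zero => simp
  | succ n ih =>
    rw [Finset.prod_range_succ, ← mul_assoc, ← ih, ← cc_succ]
    push_cast
    rfl

theorem rank_of_coords (r N : ℕ) (θ : Fin r → ℝ) (A : ZMod P.k → ℤ) (F : ZMod P.k → Fin r → ℤ)
    (hN : 1 ≤ N)
    (h : ∀ i, (N : ℝ) * extAngle P i = A i * Real.pi + ∑ j, (F i j : ℝ) * θ j) :
    RankLE P r := by
  have hN0 : (N : ℂ) ≠ 0 := by exact_mod_cast (by omega : N ≠ 0)
  set ζ : ℂ := Complex.exp (2 * Real.pi * Complex.I / N) with hζ
  have hζ0 : ζ ≠ 0 := Complex.exp_ne_zero _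
  have hζN : ζ ^ N = 1 := by
    rw [hζ, ← Complex.exp_nat_mul, mul_div_cancel₀ _ hN0]
    exact Complex.exp_two_pi_mul_I
  set g : Fin r → ℂ := fun j => Complex.exp (((2 * θ j / N : ℝ) : ℂ) * Complex.I) with hg
  have hg1 : ∀ j, ‖g j‖ = 1 := fun j => Complex.norm_exp_ofReal_mul_I _
  have hg0 : ∀ j, g j ≠ 0 := fun j => Complex.exp_ne_zero _
  -- one step
  have hstep : ∀ i : ZMod P.k, Complex.exp (2 * (extAngle P i : ℂ) * Complex.I) =
      ζ ^ (A i) * ∏ j, g j ^ (F i j) := by
    intro i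
    have hNr : (N : ℝ) ≠ 0 := by exact_mod_cast (by omega : N ≠ 0)
    have h1 : extAngle P i = (A i * Real.pi + ∑ j, (F i j : ℝ) * θ j) / N := by
      rw [← h i]; field_simp
    rw [hζ, ← Complex.exp_int_mul]
    have h2 : ∀ j, g j ^ (F i j) = Complex.exp ((F i j : ℂ) * (((2 * θ j / N : ℝ) : ℂ) * Complex.I)) :=
      fun j => by rw [hg, ← Complex.exp_int_mul]
    rw [Finset.prod_congr rfl fun j _ => h2 j, ← Complex.exp_sum, ← Complex.exp_add]
    congr 1
    rw [h1]
    push_cast
    rw [mul_div_assoc', div_mul_eq_mul_div, mul_add, add_mul, add_div]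
    congr 1
    · ring
    · rw [Finset.mul_sum, Finset.sum_mul, Finset.sum_div]
      exact Finset.sum_congr rfl fun j _ => by ring
  -- the products
  have hprod : ∀ a : ZMod P.k, cc P a = cc P 0 *
      (ζ ^ (∑ i ∈ Finset.range a.val, A (i : ZMod P.k)) *
        ∏ j, g j ^ (∑ i ∈ Finset.range a.val, F (i : ZMod P.k) j)) := by
    intro a
    have h1 := cc_nat P a.val
    rw [ZMod.natCast_zmod_val] at h1
    rw [h1]
    congr 1
    rw [Finset.prod_congr rfl fun i _ => hstep _, Finset.prod_mul_distrib]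
    have hz : ∀ (u : ℂ), u ≠ 0 → ∀ (s : Finset ℕ) (e : ℕ → ℤ),
        ∏ i ∈ s, u ^ (e i) = u ^ (∑ i ∈ s, e i) := by
      intro u hu s e
      classical
      induction s using Finset.induction_on with
      | empty => simp
      | insert x s hx ih => rw [Finset.prod_insert hx, Finset.sum_insert hx, ih, zpow_add₀ hu]
    congr 1
    · exact hz ζ hζ0 _ _
    · rw [Finset.prod_comm]
      exact Finset.prod_congr rfl fun j _ => hz (g j) (hg0 j) _ _
  refine ⟨N, ζ, g, fun a => ((∑ i ∈ Finset.range a.val, A (i : ZMod P.k)) % (N : ℤ)).toNat,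
    fun a j => ∑ i ∈ Finset.range a.val, F (i : ZMod P.k) j, hN, hζN, hg1, ?_⟩
  intro a
  have h1 := hprod a
  unfold cc at h1
  rw [h1, mul_assoc]
  congr 2
  set E : ℤ := ∑ i ∈ Finset.range a.val, A (i : ZMod P.k) with hE
  have hNz : (N : ℤ) ≠ 0 := by exact_mod_cast (by omega : N ≠ 0)
  have h2 : (((E % (N : ℤ)).toNat : ℕ) : ℤ) = E % (N : ℤ) :=
    Int.toNat_of_nonneg (Int.emod_nonneg _ hNz)
  rw [← zpow_natCast ζ, h2]
  conv_lhs => rw [← Int.emod_add_mul_ediv E (N : ℤ)]
  rw [zpow_add₀ hζ0, zpow_mul, zpow_natCast, hζN, one_zpow, mul_one]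

/-- The exterior angles add up to a multiple of `2π`. -/
theorem sum_ext : ∃ m : ℤ, ∑ i : ZMod P.k, extAngle P i = m * (2 * Real.pi) := by
  have h1 : ∏ i : ZMod P.k, (dir P (i + 1) / dir P i) = 1 := by
    rw [Finset.prod_div_distrib]
    have h2 : ∏ i : ZMod P.k, dir P (i + 1) = ∏ i : ZMod P.k, dir P i :=
      Fintype.prod_equiv (Equiv.addRight (1 : ZMod P.k)) _ _ fun i => rfl
    rw [h2]
    exact div_self (Finset.prod_ne_zero_iff.2 fun i _ => dir_ne i)
  have h3 : ∏ i : ZMod P.k, (dir P (i + 1) / dir P i) =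
      (∏ i : ZMod P.k, (‖dir P (i + 1) / dir P i‖ : ℂ)) *
        Complex.exp ((∑ i : ZMod P.k, extAngle P i : ℝ) * Complex.I) := by
    rw [Complex.ofReal_sum, Finset.sum_mul, Complex.exp_sum, ← Finset.prod_mul_distrib]
    refine Finset.prod_congr rfl fun i _ => ?_
    rw [extAngle_eq]
    exact (Complex.norm_mul_exp_arg_mul_I _).symm
  have h4 : ∏ i : ZMod P.k, (‖dir P (i + 1) / dir P i‖ : ℂ) = 1 := by
    have := congrArg norm h1
    rw [norm_prod, norm_one] at this
    exact_mod_cast this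
  rw [h1, h4, one_mul] at h3
  obtain ⟨m, hm⟩ := Complex.exp_eq_one_iff.1 h3.symm
  refine ⟨m, ?_⟩
  have h5 : ((∑ i : ZMod P.k, extAngle P i : ℝ) : ℂ) * Complex.I =
      ((m * (2 * Real.pi) : ℝ) : ℂ) * Complex.I := by
    rw [hm]; push_cast; ring
  exact_mod_cast mul_right_cancel₀ Complex.I_ne_zero h5

theorem finrank_le : Module.finrank ℚ
    (Submodule.span ℚ (insert Real.pi (Set.range (extAngle P)))) ≤ P.k := by
  classical
  set s : Finset ℝ := insert Real.pi ((Finset.univ.erase (0 : ZMod P.k)).image (extAngle P)) with hs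
  have hsub : Submodule.span ℚ (insert Real.pi (Set.range (extAngle P))) ≤
      Submodule.span ℚ (s : Set ℝ) := by
    rw [Submodule.span_le]
    have hpi : Real.pi ∈ Submodule.span ℚ (s : Set ℝ) :=
      Submodule.subset_span (by simp [hs])
    have hne : ∀ i : ZMod P.k, i ≠ 0 → extAngle P i ∈ Submodule.span ℚ (s : Set ℝ) := by
      intro i hi
      apply Submodule.subset_span
      rw [hs]
      simp only [Finset.coe_insert, Finset.coe_image]
      right
      exact ⟨i, by simp [hi], rfl⟩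
    rintro y (rfl | ⟨i, rfl⟩)
    · exact hpi
    · by_cases hi : i = 0
      · subst hi
        obtain ⟨m, hm⟩ := sum_ext P
        have h1 : extAngle P 0 = (2 * m : ℚ) • Real.pi -
            ∑ i ∈ Finset.univ.erase (0 : ZMod P.k), extAngle P i := by
          rw [← Finset.add_sum_erase _ _ (Finset.mem_univ (0 : ZMod P.k))] at hm
          rw [Rat.smul_def]
          push_cast
          linarith
        show extAngle P 0 ∈ Submodule.span ℚ (s : Set ℝ)
        rw [h1]
        apply Submodule.sub_mem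
        · exact Submodule.smul_mem _ _ hpi
        · exact Submodule.sum_mem _ fun i hi => hne i (Finset.ne_of_mem_erase hi)
      · exact hne i hi
  have : FiniteDimensional ℚ (Submodule.span ℚ (s : Set ℝ)) :=
    FiniteDimensional.span_of_finite ℚ s.finite_toSet
  refine (Submodule.finrank_mono hsub).trans ((finrank_span_finset_le_card s).trans ?_)
  have h1 : s.card ≤ ((Finset.univ.erase (0 : ZMod P.k)).image (extAngle P)).card + 1 :=
    Finset.card_insert_le _ _
  have h2 : ((Finset.univ.erase (0 : ZMod P.k)).image (extAngle P)).card ≤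
      (Finset.univ.erase (0 : ZMod P.k)).card := Finset.card_image_le
  have h3 : (Finset.univ.erase (0 : ZMod P.k)).card = P.k - 1 := by
    rw [Finset.card_erase_of_mem (Finset.mem_univ _), Finset.card_univ, ZMod.card]
  have := P.three_le
  omega

end RANK

theorem m_RANK : Stmt_RANK := by
  have h2 : ∀ (P : Polygon) (r : ℕ), Module.finrank ℚ
      (Submodule.span ℚ (insert Real.pi (Set.range (extAngle P)))) ≤ r + 1 → RankLE P r := by
    intro P r h
    obtain ⟨N, θ, A, F, hN, hF⟩ := RANK.coords (extAngle P) Real.pi Real.pi_ne_zero r h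
    exact RANK.rank_of_coords P r N θ A F hN hF
  refine ⟨fun P => h2 P (P.k - 1) ?_, h2, RANK.finrank_le⟩
  have := P.three_le
  have h3 := RANK.finrank_le P
  omega

end Pool.Agent.BCX
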