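import Pool.Agent.BCX.Stmts2

/-!
# Module BCX_REP: cross products as small integer combinations of few numbers
-/

open Set Filter Topology Metric
open scoped ComplexConjugate

namespace Pool.Agent.BCX

open Pool.Agent.Billiard Pool.Agent.Lib_helper45.Bil

namespace M_REP

/-! ### Monomials -/

/-- Products of powers of `ζ` and of the `g i`, with exponents of the `g i` at most `E L`. -/
def Mon {r : ℕ} (ζ : ℂ) (g : Fin r → ℂ) (E L : ℕ) (γ : ℂ) : Prop :=
  ∃ (z : ℕ) (h : Fin r → ℤ), (∀ i, |h i| ≤ (E * L : ℕ)) ∧ γ = ζ ^ z * ∏ i, g i ^ h i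

section Mon

variable {r : ℕ} {ζ : ℂ} {g : Fin r → ℂ} {E L L' : ℕ} {γ γ' : ℂ}

lemma Mon.one : Mon ζ g E 0 1 := ⟨0, 0, by simp, by simp⟩

lemma Mon.mono (h : Mon ζ g E L γ) (hL : L ≤ L') : Mon ζ g E L' γ := by
  obtain ⟨z, f, hf, rfl⟩ := h
  exact ⟨z, f, fun i => (hf i).trans (by exact_mod_cast Nat.mul_le_mul_left E hL), rfl⟩

lemma Mon.mul (hg : ∀ i, ‖g i‖ = 1) (h : Mon ζ g E L γ) (h' : Mon ζ g E L' γ') :
    Mon ζ g E (L + L') (γ * γ') := by
  obtain ⟨z, f, hf, rfl⟩ := h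
  obtain ⟨z', f', hf', rfl⟩ := h'
  refine ⟨z + z', f + f', fun i => ?_, ?_⟩
  · have h1 := abs_add_le (f i) (f' i)
    have h2 := hf i
    have h3 := hf' i
    push_cast at h2 h3 ⊢
    show |f i + f' i| ≤ _
    nlinarith
  · have h0 : ∀ i, g i ≠ 0 := fun i h => by
      have := hg i
      rw [h, norm_zero] at this
      norm_num at this
    have : ∏ i, g i ^ (f + f') i = (∏ i, g i ^ f i) * ∏ i, g i ^ f' i := by
      rw [← Finset.prod_mul_distrib]
      exact Finset.prod_congr rfl fun i _ => zpow_add₀ (h0 i) _ _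
    rw [this, pow_add]
    ring

lemma conj_eq_inv {z : ℂ} (hz : ‖z‖ = 1) : conj z = z⁻¹ := by
  have h := Complex.mul_conj z
  rw [Complex.normSq_eq_norm_sq, hz] at h
  have h1 : z * conj z = 1 := by rw [h]; norm_num
  exact eq_inv_of_mul_eq_one_right h1

lemma Mon.conj {N : ℕ} (hN : 1 ≤ N) (hζ : ζ ^ N = 1) (hg : ∀ i, ‖g i‖ = 1)
    (h : Mon ζ g E L γ) : Mon ζ g E L (conj γ) := by
  obtain ⟨z, f, hf, rfl⟩ := h
  have hζ1 : ‖ζ‖ = 1 := by
    have h1 : ‖ζ‖ ^ N = 1 := by rw [← norm_pow, hζ, norm_one]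
    exact (pow_eq_one_iff_of_nonneg (norm_nonneg _) (by omega)).1 h1
  have hζc : conj ζ = ζ ^ (N - 1) := by
    rw [conj_eq_inv hζ1]
    have h2 : ζ * ζ ^ (N - 1) = 1 := by
      rw [← pow_succ', Nat.sub_add_cancel hN, hζ]
    exact (eq_inv_of_mul_eq_one_right h2).symm
  refine ⟨(N - 1) * z, -f, fun i => ?_, ?_⟩
  · show |-(f i)| ≤ _
    rw [abs_neg]; exact hf i
  · rw [map_mul, map_pow, hζc, ← pow_mul, map_prod]
    congr 1
    refine Finset.prod_congr rfl fun i _ => ?_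
    rw [map_zpow₀, conj_eq_inv (hg i), inv_zpow']
    rfl

end Mon

/-! ### Sums of few numbers -/

/-- `x` is a sum of at most `H` terms from `S ∪ -S`. -/
def Cb (S : Set ℂ) (H : ℕ) (x : ℂ) : Prop :=
  ∃ l : List ℂ, l.length ≤ H ∧ (∀ y ∈ l, y ∈ S ∨ -y ∈ S) ∧ x = l.sum

section Cb

variable {S S' S'' : Set ℂ} {H H' : ℕ} {x y : ℂ}

lemma Cb.zero : Cb S 0 0 := ⟨[], by simp, by simp, by simp⟩

lemma Cb.of_mem (h : x ∈ S) : Cb S 1 x := ⟨[x], by simp, by simpa using Or.inl h, by simp⟩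

lemma Cb.mono (h : Cb S H x) (hH : H ≤ H') : Cb S H' x := by
  obtain ⟨l, h1, h2, h3⟩ := h
  exact ⟨l, h1.trans hH, h2, h3⟩

lemma Cb.add (h : Cb S H x) (h' : Cb S H' y) : Cb S (H + H') (x + y) := by
  obtain ⟨l, h1, h2, rfl⟩ := h
  obtain ⟨l', h1', h2', rfl⟩ := h'
  refine ⟨l ++ l', ?_, ?_, ?_⟩
  · rw [List.length_append]; omega
  · intro y hy
    rcases List.mem_append.1 hy with h | h
    · exact h2 y h
    · exact h2' y h
  · rw [List.sum_append]

lemma Cb.map (f : ℂ →+ ℂ) (hf : ∀ a ∈ S, f a ∈ S' ∨ -(f a) ∈ S') (h : Cb S H x) :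
    Cb S' H (f x) := by
  obtain ⟨l, h1, h2, rfl⟩ := h
  refine ⟨l.map f, by simpa using h1, ?_, ?_⟩
  · intro y hy
    obtain ⟨a, ha, rfl⟩ := List.mem_map.1 hy
    rcases h2 a ha with h | h
    · exact hf a h
    · have := hf _ h
      rw [map_neg, neg_neg] at this
      exact this.symm
  · rw [map_list_sum]

lemma Cb.neg (h : Cb S H x) : Cb S H (-x) := by
  refine h.map (S' := S) (f := negAddMonoidHom) fun a ha => Or.inr ?_
  simpa using ha

lemma Cb.sub (h : Cb S H x) (h' : Cb S H' y) : Cb S (H + H') (x - y) := by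
  rw [sub_eq_add_neg]
  exact h.add h'.neg

lemma Cb.mul (hS : ∀ a ∈ S, ∀ b ∈ S', a * b ∈ S'') (h : Cb S H x) (h' : Cb S' H' y) :
    Cb S'' (H * H') (x * y) := by
  obtain ⟨l, h1, h2, rfl⟩ := h
  have key : ∀ l : List ℂ, (∀ y ∈ l, y ∈ S ∨ -y ∈ S) → Cb S'' (l.length * H') (l.sum * y) := by
    intro l
    induction l with
    | nil => intro _; simpa using Cb.zero
    | cons a l ih =>
      intro hl
      have h3 := ih fun y hy => hl y (List.mem_cons_of_mem _ hy)
      have h4 : Cb S'' H' (a * y) := by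
        refine h'.map (f := AddMonoidHom.mulLeft a) fun b hb => ?_
        rcases hl a List.mem_cons_self with h | h
        · exact Or.inl (hS a h b hb)
        · refine Or.inr ?_
          have := hS _ h b hb
          simpa using this
      have h5 := h4.add h3
      rw [List.sum_cons, add_mul, List.length_cons, Nat.add_mul, one_mul, add_comm (l.length * H')]
      exact h5
  exact (key l h2).mono (Nat.mul_le_mul_right _ h1)

/-- Sums of few numbers as integer combinations of an enumeration. -/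
lemma Cb.exists_coeff {Δ : ℕ} {t : Fin Δ → ℂ} (ht : ∀ y ∈ S, ∃ i, y = t i) (h : Cb S H x) :
    ∃ F : Fin Δ → ℤ, (∀ i, |F i| ≤ H) ∧ x = ∑ i, (F i : ℂ) * t i := by
  obtain ⟨l, h1, h2, rfl⟩ := h
  have key : ∀ l : List ℂ, (∀ y ∈ l, y ∈ S ∨ -y ∈ S) →
      ∃ F : Fin Δ → ℤ, (∀ i, |F i| ≤ l.length) ∧ l.sum = ∑ i, (F i : ℂ) * t i := by
    intro l
    induction l with
    | nil => intro _; exact ⟨0, by simp, by simp⟩
    | cons a l ih =>
      intro hl
      obtain ⟨F, hF1, hF2⟩ := ih fun y hy => hl y (List.mem_cons_of_mem _ hy)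
      have h3 : ∃ (i : Fin Δ) (c : ℤ), |c| ≤ 1 ∧ a = (c : ℂ) * t i := by
        rcases hl a List.mem_cons_self with h | h
        · obtain ⟨i, hi⟩ := ht a h
          exact ⟨i, 1, by simp, by simpa using hi⟩
        · obtain ⟨i, hi⟩ := ht (-a) h
          refine ⟨i, -1, by simp, ?_⟩
          rw [← hi]; simp
      obtain ⟨i, c, hc, ha⟩ := h3
      refine ⟨fun x => F x + (if x = i then c else 0), fun x => ?_, ?_⟩
      · have h4 := abs_add_le (F x) (if x = i then c else 0)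
        have h5 : |(if x = i then c else 0)| ≤ 1 := by
          split_ifs
          · exact hc
          · simp
        have h6 := hF1 x
        rw [List.length_cons]
        push_cast
        linarith
      · rw [List.sum_cons, hF2, ha]
        push_cast
        simp only [add_mul, Finset.sum_add_distrib, ite_mul, zero_mul, Finset.sum_ite_eq',
          Finset.mem_univ, if_true]
        ring
  obtain ⟨F, hF1, hF2⟩ := key l h2
  exact ⟨F, fun i => (hF1 i).trans (by exact_mod_cast h1), hF2⟩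

end Cb

/-! ### Unfolded vertices -/

section Dev

variable {r : ℕ} (P : Polygon) (ζ : ℂ) (g : Fin r → ℂ) (E L : ℕ) (c0 : ℂ)

/-- The terms of unfolded vertices. -/
def T1 : Set ℂ :=
  {y | ∃ γ i, Mon ζ g E L γ ∧ (y = γ * P.vertex i ∨ y = γ * (c0 * conj (P.vertex i)))}

/-- The numbers `p`. -/
noncomputable def pv (q : Fin 3) (i j : ZMod P.k) : ℂ :=
  if q = 0 then P.vertex i * conj (P.vertex j)
  else if q = 1 then conj c0 * (P.vertex i * P.vertex j)
  else c0 * (conj (P.vertex i) * conj (P.vertex j))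

/-- The terms of the products. -/
def T2 : Set ℂ := {y | ∃ γ q i j, Mon ζ g E L γ ∧ y = γ * pv P c0 q i j}

variable {P ζ g E L c0}

lemma T1.mono {L' : ℕ} (hL : L ≤ L') : T1 P ζ g E L c0 ⊆ T1 P ζ g E L' c0 := by
  rintro y ⟨γ, i, hγ, h⟩
  exact ⟨γ, i, hγ.mono hL, h⟩

lemma T1.mul {N : ℕ} (hN : 1 ≤ N) (hζ : ζ ^ N = 1) (hg : ∀ i, ‖g i‖ = 1)
    (hc : c0 * conj c0 = 1) {a b : ℂ} (ha : a ∈ T1 P ζ g E L c0) (hb : b ∈ T1 P ζ g E L c0) :
    a * conj b ∈ T2 P ζ g E (L + L) c0 := by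
  obtain ⟨γ, i, hγ, h⟩ := ha
  obtain ⟨γ', j, hγ', h'⟩ := hb
  have hm := hγ.mul hg (hγ'.conj hN hζ hg)
  rcases h with rfl | rfl <;> rcases h' with rfl | rfl
  · refine ⟨_, 0, i, j, hm, ?_⟩
    simp only [pv, if_true, map_mul]
    ring
  · refine ⟨_, 1, i, j, hm, ?_⟩
    simp only [pv, map_mul, Complex.conj_conj, one_ne_zero, if_false, if_true]
    ring
  · refine ⟨_, 2, i, j, hm, ?_⟩
    have h2 : (2 : Fin 3) ≠ 0 := by decide
    have h3 : (2 : Fin 3) ≠ 1 := by decide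
    simp only [pv, map_mul, h2, h3, if_false]
    ring
  · refine ⟨_, 0, j, i, hm, ?_⟩
    simp only [pv, if_true, map_mul, Complex.conj_conj]
    linear_combination (γ * conj γ' * P.vertex j * conj (P.vertex i)) * hc

lemma cb_dev {N : ℕ} (hN : 1 ≤ N) (hζ : ζ ^ N = 1) (hg : ∀ i, ‖g i‖ = 1)
    (hc : c0 * conj c0 = 1) {γ : ZMod P.k → ℂ} (hγ : ∀ a, Mon ζ g E 1 (γ a))
    (hdir : ∀ a, dir P a / conj (dir P a) = c0 * γ a) (j : ZMod P.k) :
    ∀ w : List (ZMod P.k), Cb (T1 P ζ g E w.length c0) (2 * w.length + 1) (dev P w (P.vertex j)) := by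
  intro w
  induction w with
  | nil =>
    refine Cb.of_mem ⟨1, j, Mon.one, Or.inl ?_⟩
    rw [one_mul]
    rfl
  | cons a w ih =>
    have h1 : dev P (a :: w) (P.vertex j) =
        P.vertex a + ((AddMonoidHom.mulLeft (c0 * γ a)).comp
          (starRingEnd ℂ).toAddMonoidHom (dev P w (P.vertex j)) +
          -(γ a * (c0 * conj (P.vertex a)))) := by
      show Lib_helper45.Bil.refl P a (dev P w (P.vertex j)) = _
      have h2 : ∀ x : ℂ, Lib_helper45.Bil.refl P a x =
          P.vertex a + dir P a / conj (dir P a) * conj (x - P.vertex a) := by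
        intro x
        show P.vertex a + reflectDir (dir P a) (x - P.vertex a) = _
        unfold reflectDir
        ring
      rw [h2, hdir]
      simp only [AddMonoidHom.coe_comp, AddMonoidHom.coe_mulLeft, RingHom.toAddMonoidHom_eq_coe,
        AddMonoidHom.coe_coe, Function.comp_apply, map_sub]
      ring
    rw [h1]
    have h3 : Cb (T1 P ζ g E (a :: w).length c0) 1 (P.vertex a) :=
      Cb.of_mem ⟨1, a, Mon.one.mono (Nat.zero_le _), Or.inl (one_mul _).symm⟩
    have h4 : Cb (T1 P ζ g E (a :: w).length c0) 1 (-(γ a * (c0 * conj (P.vertex a)))) := by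
      refine Cb.neg (Cb.of_mem ⟨γ a, a, (hγ a).mono ?_, Or.inr rfl⟩)
      rw [List.length_cons]; omega
    have h5 : Cb (T1 P ζ g E (a :: w).length c0) (2 * w.length + 1)
        ((AddMonoidHom.mulLeft (c0 * γ a)).comp
          (starRingEnd ℂ).toAddMonoidHom (dev P w (P.vertex j))) := by
      refine ih.map _ fun b hb => Or.inl ?_
      obtain ⟨δ, i, hδ, h⟩ := hb
      have hm : Mon ζ g E (a :: w).length (γ a * conj δ) := by
        have := (hγ a).mul hg (hδ.conj hN hζ hg)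
        rwa [List.length_cons, add_comm]
      simp only [AddMonoidHom.coe_comp, AddMonoidHom.coe_mulLeft, RingHom.toAddMonoidHom_eq_coe,
        AddMonoidHom.coe_coe, Function.comp_apply]
      rcases h with rfl | rfl
      · refine ⟨_, i, hm, Or.inr ?_⟩
        rw [map_mul]
        ring
      · refine ⟨_, i, hm, Or.inl ?_⟩
        rw [map_mul, map_mul, Complex.conj_conj]
        linear_combination (γ a * conj δ * P.vertex i) * hc
    refine (h3.add (h5.add h4)).mono ?_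
    rw [List.length_cons]
    omega

lemma two_I_cr (p q : ℂ) : 2 * Complex.I * (cr p q : ℂ) = p * conj q - q * conj p := by
  unfold cr
  have h := Complex.sub_conj (p * conj q)
  rw [map_mul, Complex.conj_conj] at h
  rw [show q * conj p = conj p * q by ring, h]
  push_cast
  ring

end Dev

end M_REP

open M_REP in
theorem m_REP : Stmt_REP := by
  classical
  rintro P r ⟨N, ζ, g, z, f, hN, hζ, hg, hdir⟩
  -- the exponents
  obtain ⟨E, hE⟩ : ∃ E : ℕ, ∀ a i, |f a i| ≤ (E : ℤ) := by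
    refine ⟨∑ a, ∑ i, (f a i).natAbs, fun a i => ?_⟩
    have h1 : (f a i).natAbs ≤ ∑ a, ∑ i, (f a i).natAbs :=
      (Finset.single_le_sum (f := fun i => (f a i).natAbs) (fun _ _ => Nat.zero_le _)
        (Finset.mem_univ i)).trans
        (Finset.single_le_sum (f := fun a => ∑ i, (f a i).natAbs) (fun _ _ => Nat.zero_le _)
          (Finset.mem_univ a))
    rw [Int.abs_eq_natAbs]
    exact_mod_cast h1
  set c0 : ℂ := dir P 0 / conj (dir P 0) with hc0
  have hd0 : dir P 0 ≠ 0 := dir_ne 0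
  have hc : c0 * conj c0 = 1 := by
    have h1 : conj (dir P 0) ≠ 0 := (map_ne_zero _).2 hd0
    rw [hc0, map_div₀, Complex.conj_conj]
    field_simp
  set γ : ZMod P.k → ℂ := fun a => ζ ^ (z a) * ∏ i, g i ^ (f a i) with hγdef
  have hγ : ∀ a, Mon ζ g E 1 (γ a) := fun a => ⟨z a, f a, fun i => by simpa using hE a i, rfl⟩
  have hdir' : ∀ a, dir P a / conj (dir P a) = c0 * γ a := by
    intro a
    rw [hdir a, hγdef]
    ring
  refine ⟨72 + N * (4 * E + 1) ^ r * (3 * (P.k * P.k)), by omega, fun m hm => ?_⟩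
  let I : Type := Fin N × (Fin r → Fin (4 * E * m + 1)) × Fin 3 × ZMod P.k × ZMod P.k
  let val : I → ℂ := fun x => ζ ^ (x.1 : ℕ) *
    (∏ i, g i ^ (((x.2.1 i : ℕ) : ℤ) - (2 * E * m : ℕ))) * pv P c0 x.2.2.1 x.2.2.2.1 x.2.2.2.2
  have hcard : Fintype.card I = N * ((4 * E * m + 1) ^ r * (3 * (P.k * P.k))) := by
    simp only [I, Fintype.card_prod, Fintype.card_fin, Fintype.card_pi, Finset.prod_const,
      Finset.card_univ, ZMod.card]
  have hk : 1 ≤ P.k := by have := P.three_le; omega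
  refine ⟨Fintype.card I, fun x => val ((Fintype.equivFin I).symm x), ?_, ?_, ?_⟩
  · rw [hcard]
    have h1 : 1 ≤ (4 * E * m + 1) ^ r := Nat.one_le_pow _ _ (by omega)
    have h2 : 1 ≤ 3 * (P.k * P.k) := by nlinarith
    exact Nat.mul_pos hN (Nat.mul_pos h1 h2)
  · rw [hcard]
    have h1 : (4 * E * m + 1) ^ r ≤ (4 * E + 1) ^ r * m ^ r := by
      rw [← mul_pow]
      refine Nat.pow_le_pow_left ?_ r
      nlinarith
    calc N * ((4 * E * m + 1) ^ r * (3 * (P.k * P.k)))
        ≤ N * (((4 * E + 1) ^ r * m ^ r) * (3 * (P.k * P.k))) :=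
          Nat.mul_le_mul_left _ (Nat.mul_le_mul_right _ h1)
      _ = (N * (4 * E + 1) ^ r * (3 * (P.k * P.k))) * m ^ r := by ring
      _ ≤ (72 + N * (4 * E + 1) ^ r * (3 * (P.k * P.k))) * m ^ r :=
          Nat.mul_le_mul_right _ (Nat.le_add_left _ _)
  · intro w₁ w₂ w₃ h₁ h₂ h₃ j₁ j₂ j₃
    have hX : ∀ (w : List (ZMod P.k)) (j : ZMod P.k), w.length ≤ m →
        Cb (T1 P ζ g E m c0) (2 * m + 1) (dev P w (P.vertex j)) := by
      intro w j hw
      have h := cb_dev hN hζ hg hc hγ hdir' j w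
      have h' : Cb (T1 P ζ g E m c0) (2 * w.length + 1) (dev P w (P.vertex j)) := by
        obtain ⟨l, h1, h2, h3⟩ := h
        exact ⟨l, h1, fun y hy => (h2 y hy).imp (fun h => T1.mono hw h) fun h => T1.mono hw h, h3⟩
      exact h'.mono (by omega)
    have hprod : ∀ p q : ℂ, Cb (T1 P ζ g E m c0) (4 * m + 2) p →
        Cb (T1 P ζ g E m c0) (4 * m + 2) q →
        Cb (T2 P ζ g E (m + m) c0) ((4 * m + 2) * (4 * m + 2)) (p * conj q) := by
      intro p q hp hq
      have hq' : Cb ((starRingEnd ℂ) '' (T1 P ζ g E m c0)) (4 * m + 2) (conj q) :=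
        hq.map (starRingEnd ℂ).toAddMonoidHom fun a ha => Or.inl ⟨a, ha, rfl⟩
      refine hp.mul ?_ hq'
      rintro a ha _ ⟨b, hb, rfl⟩
      exact T1.mul hN hζ hg hc ha hb
    have hp := ((hX w₂ j₂ h₂).sub (hX w₁ j₁ h₁)).mono (H' := 4 * m + 2) (by omega)
    have hq := ((hX w₃ j₃ h₃).sub (hX w₁ j₁ h₁)).mono (H' := 4 * m + 2) (by omega)
    have hmain := (hprod _ _ hp hq).sub (hprod _ _ hq hp)
    rw [← two_I_cr] at hmain
    have henum : ∀ y ∈ T2 P ζ g E (m + m) c0, ∃ x : Fin (Fintype.card I),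
        y = val ((Fintype.equivFin I).symm x) := by
      rintro y ⟨δ, q, i, j, ⟨z', h, hh, rfl⟩, rfl⟩
      have hb : ∀ l, 0 ≤ h l + (2 * E * m : ℕ) ∧ h l + (2 * E * m : ℕ) < (4 * E * m + 1 : ℕ) := by
        intro l
        have h1 := abs_le.1 (hh l)
        push_cast at h1 ⊢
        constructor
        · nlinarith [h1.1]
        · nlinarith [h1.2]
      refine ⟨Fintype.equivFin I (⟨z' % N, Nat.mod_lt _ hN⟩,
        fun l => ⟨(h l + (2 * E * m : ℕ)).toNat, ?_⟩, q, i, j), ?_⟩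
      · have := hb l
        omega
      · rw [Equiv.symm_apply_apply]
        show _ = ζ ^ (z' % N) * (∏ l, g l ^ ((((h l + (2 * E * m : ℕ)).toNat : ℕ) : ℤ) -
          (2 * E * m : ℕ))) * pv P c0 q i j
        have h1 : ζ ^ z' = ζ ^ (z' % N) := pow_eq_pow_mod z' hζ
        rw [h1]
        congr 2
        refine Finset.prod_congr rfl fun l _ => ?_
        rw [Int.toNat_of_nonneg (hb l).1]
        congr 1
        ring
    obtain ⟨F, hF1, hF2⟩ := hmain.exists_coeff henum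
    refine ⟨F, fun x => ?_, hF2⟩
    refine (hF1 x).trans ?_
    have h1 : (4 * m + 2) * (4 * m + 2) + (4 * m + 2) * (4 * m + 2) ≤ 72 * m ^ 2 := by nlinarith
    have h2 : 72 * m ^ 2 ≤ (72 + N * (4 * E + 1) ^ r * (3 * (P.k * P.k))) * m ^ 2 :=
      Nat.mul_le_mul_right _ (Nat.le_add_right _ _)
    exact_mod_cast h1.trans h2

end Pool.Agent.BCX
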