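import Pool.Agent.BCX.Stmts4
import Pool.Agent.BCX.FOLD
import Pool.Agent.BCX.REV

/-!
# Rich case: folding
-/

open Set Filter Topology Metric
open scoped ComplexConjugate

namespace Pool.Agent.BCX

open Pool.Agent.Billiard Pool.Agent.Lib_helper45.Bil

namespace RFOLD

open FOLD REV

variable {P : Polygon}

theorem refl_sub' (a : ZMod P.k) (p q : ℂ) :
    Lib_helper45.Bil.refl P a p - Lib_helper45.Bil.refl P a q = lrefl P a (p - q) := by
  have h2 := refl_add' (P := P) a q (p - q)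
  rw [add_sub_cancel] at h2
  rw [h2]; ring

theorem tc_refl (a : ZMod P.k) (b e q : ℂ) :
    tc (Lib_helper45.Bil.refl P a b) (lrefl P a e) (Lib_helper45.Bil.refl P a q) = tc b e q := by
  unfold tc
  rw [refl_sub', lrefl_conj, Complex.conj_re]

theorem tc_dev (W : List (ZMod P.k)) : ∀ (b e q : ℂ),
    tc b e (dev P W q) = tc (foldz P W b) (foldu P W e) q := by
  induction W with
  | nil => intro b e q; rfl
  | cons a W ih =>
    intro b e q
    show tc b e (Lib_helper45.Bil.refl P a (dev P W q)) =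
      tc (foldz P W (Lib_helper45.Bil.refl P a b)) (foldu P W (lrefl P a e)) q
    rw [← ih, ← tc_refl a b e, refl_refl]

theorem tc_neg (b e q : ℂ) : tc b (-e) q = -tc b e q := by
  unfold tc
  rw [map_neg, mul_neg, Complex.neg_re]

end RFOLD

open FOLD REV RFOLD

theorem m_RFOLD : Stmt_SPLIT → Stmt_VXL → Stmt_INV → Stmt_RFOLD := by
  intro hSPLIT hVXL hINV P g V B b e b₁ e₁ b₂ e₂ R ρ y s y₁ s₁ he hSR hTB hcl hb₁ he₁ hb₂ he₂ hy₁ hs₁
  obtain ⟨-, -, hsp⟩ := hSPLIT P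
  obtain ⟨-, hv2, hv3, hv4, -, -⟩ := hVXL P
  obtain ⟨-, hB, hA⟩ := hsp g V B _ _ hSR
  have hlen : (lets V).length = V.length := by simp [lets]
  have hz : foldz P (lets V) (lz b e y) = lz b₁ e₁ y₁ := by
    rw [fz_lz, hlen, hb₁, he₁, hy₁]
  have hu : foldu P (lets V) (lu e s) = lu e₁ s₁ := by
    rw [fu_lu, hlen, he₁, hs₁]
  rw [hz, hu] at hB hA
  obtain ⟨-, -, hi3, hi4, -, -, -, -⟩ := hINV P b₁ e₁ b₁ e₁ y₁ s₁
  have hz2 : Lib_helper45.Bil.refl P (lg g V) (lz b₁ e₁ y₁) = lz b₂ e₂ y₁ := by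
    rw [hi3, hb₂, he₂]
  have hu2 : -lrefl P (lg g V) (lu e₁ s₁) = lu e₂ (-s₁) := by
    rw [hi4, he₂]
  have hn1 : ‖e₁‖ = 1 := by rw [he₁, norm_foldu, he]
  have hn2 : ‖e₂‖ = 1 := by rw [he₂, norm_neg, norm_lrefl, hn1]
  have hsd1 : ∀ p, |sd (lz b₁ e₁ y₁) (lu e₁ s₁) p| =
      |sd (lz b e y) (lu e s) (dev P (lets V) p)| := by
    intro p
    rw [sd_dev, hz, hu, abs_mul]
    simp
  have hsd2 : ∀ p, |sd (lz b₂ e₂ y₁) (lu e₂ (-s₁)) p| =
      |sd (lz b₁ e₁ y₁) (lu e₁ s₁) (Lib_helper45.Bil.refl P (lg g V) p)| := by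
    intro p
    rw [← hz2, ← hu2, sd_neg, sd_refl]
  have htc1 : ∀ p, tc b₁ e₁ p = tc b e (dev P (lets V) p) := by
    intro p
    rw [tc_dev, hb₁, he₁]
  have htc2 : ∀ p, tc b₂ e₂ p = -tc b₁ e₁ (Lib_helper45.Bil.refl P (lg g V) p) := by
    intro p
    rw [hb₂, he₂, tc_neg, ← tc_refl (lg g V) b₁ e₁, refl_refl]
  refine ⟨hn1, hn2, ?_, ?_, hB, ?_, ?_, ?_⟩
  · intro q hq
    rw [htc1]
    exact hTB _ (hv2 V B q hq)
  · intro q hq
    rw [htc2, abs_neg, htc1]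
    exact hTB _ (hv3 V B _ (hv4 g V q hq))
  · rw [← hz2, ← hu2]
    exact hA
  · intro p hp
    rw [hsd1]
    exact hcl _ (hv2 V B p hp)
  · intro p hp
    rw [hsd2, hsd1]
    exact hcl _ (hv3 V B _ (hv4 g V p hp))

end Pool.Agent.BCX
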