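import Pool.Agent.BCX.Stmts4

/-!
# The rich case: count
-/

open Set Filter Topology Metric MeasureTheory
open scoped ComplexConjugate

namespace Pool.Agent.BCX

open Pool.Agent.Billiard Pool.Agent.Lib_helper45.Bil

namespace Rich

/-- the integer part of a number of absolute value `≤ N` -/
theorem floor_mem {x : ℝ} {N : ℕ} (h : |x| ≤ N) : ⌊x⌋ ∈ Finset.Icc (-(N : ℤ)) N := by
  obtain ⟨h1, h2⟩ := abs_le.1 h
  rw [Finset.mem_Icc]
  constructor
  · rw [Int.le_floor]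
    push_cast
    exact h1
  · have h3 : (⌊x⌋ : ℝ) ≤ (N : ℝ) := (Int.floor_le x).trans h2
    exact_mod_cast h3

/-- the integers of a line within `E σ` -/
theorem floors {E : ℕ} {y s R σ : ℝ} (hσ : 0 < σ) (hR : 0 < R) (h : |y| + |s| * R ≤ E * σ) :
    ⌊2 * y / σ⌋ ∈ Finset.Icc (-((2 * E : ℕ) : ℤ)) (2 * E : ℕ) ∧
      ⌊2 * (s * R) / σ⌋ ∈ Finset.Icc (-((2 * E : ℕ) : ℤ)) (2 * E : ℕ) := by
  have h1 : 0 ≤ |s| * R := by positivity
  have h2 := abs_nonneg y
  constructor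
  · refine floor_mem ?_
    rw [abs_div, abs_of_pos hσ, div_le_iff₀ hσ, abs_mul, abs_of_pos (by norm_num : (0 : ℝ) < 2)]
    push_cast
    linarith
  · refine floor_mem ?_
    rw [abs_div, abs_of_pos hσ, div_le_iff₀ hσ, abs_mul, abs_mul, abs_of_pos hR,
      abs_of_pos (by norm_num : (0 : ℝ) < 2)]
    push_cast
    linarith

/-- initial parts of a realised word -/
theorem SR_take (hSp : Stmt_SPLIT) {P : Polygon} {g : ZMod P.k} {W : List (SL P)} {z u : ℂ}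
    (l : ℕ) (h : SR P g W z u) : SR P g (W.take l) z u := by
  have h' : SR P g (W.take l ++ W.drop l) z u := by
    rw [List.take_append_drop]
    exact h
  exact ((hSp P).2.2 g _ _ z u h').1

/-- the axis of the frame of the tight pair -/
noncomputable def ax (θ : ℝ) (q q' : ℂ) : ℂ := (θ : ℂ) * (q' - q) / (‖q' - q‖ : ℂ)

/-- The data of an element of the set. -/
structure Dat (P : Polygon) (m C : ℕ) (a : ℕ) (R : ℝ) (S : Finset ℝ) (g : ZMod P.k)
    (A B : List (SL P)) (i n : ℕ) (j j' : ZMod P.k) (θ σ y₁ s₁ y₃ s₃ : ℝ) : Prop where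
  lA : A.length = m
  lB : B.length = m
  hin : i + n < m
  hna : n * a ≤ C * m
  hθ : θ = 1 ∨ θ = -1
  hσ : σ ∈ S
  e1 : ‖ax θ (P.vertex j) (dev P (lets ((B.drop i).take n)) (P.vertex j'))‖ = 1
  e2 : ‖-lrefl P (lg g (B.take i))
    (ax θ (P.vertex j) (dev P (lets ((B.drop i).take n)) (P.vertex j')))‖ = 1
  e3 : ‖-lrefl P g (ax θ (dev P ((lets B).take i) (P.vertex j))
    (dev P ((lets B).take (i + n)) (P.vertex j')))‖ = 1
  t1 : TB P R (P.vertex j) (ax θ (P.vertex j) (dev P (lets ((B.drop i).take n)) (P.vertex j')))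
    (B.drop i)
  t2 : TB P R (Lib_helper45.Bil.refl P (lg g (B.take i)) (P.vertex j))
    (-lrefl P (lg g (B.take i))
      (ax θ (P.vertex j) (dev P (lets ((B.drop i).take n)) (P.vertex j')))) (rv g (B.take i))
  t3 : TB P R (Lib_helper45.Bil.refl P g (dev P ((lets B).take i) (P.vertex j)))
    (-lrefl P g (ax θ (dev P ((lets B).take i) (P.vertex j))
      (dev P ((lets B).take (i + n)) (P.vertex j')))) A
  b1 : |y₁| + |s₁| * R ≤ ((C * m ^ C : ℕ) : ℝ) * σ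
  b3 : |y₃| + |s₃| * R ≤ ((C * m ^ C : ℕ) : ℝ) * σ
  r1 : SR P (lg g (B.take i)) (B.drop i)
    (lz (P.vertex j) (ax θ (P.vertex j) (dev P (lets ((B.drop i).take n)) (P.vertex j'))) y₁)
    (lu (ax θ (P.vertex j) (dev P (lets ((B.drop i).take n)) (P.vertex j'))) s₁)
  r2 : SR P (lg g (B.take i)) (rv g (B.take i))
    (lz (Lib_helper45.Bil.refl P (lg g (B.take i)) (P.vertex j))
      (-lrefl P (lg g (B.take i))
        (ax θ (P.vertex j) (dev P (lets ((B.drop i).take n)) (P.vertex j')))) y₁)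
    (lu (-lrefl P (lg g (B.take i))
      (ax θ (P.vertex j) (dev P (lets ((B.drop i).take n)) (P.vertex j')))) (-s₁))
  r3 : SR P g A
    (lz (Lib_helper45.Bil.refl P g (dev P ((lets B).take i) (P.vertex j)))
      (-lrefl P g (ax θ (dev P ((lets B).take i) (P.vertex j))
        (dev P ((lets B).take (i + n)) (P.vertex j')))) y₃)
    (lu (-lrefl P g (ax θ (dev P ((lets B).take i) (P.vertex j))
      (dev P ((lets B).take (i + n)) (P.vertex j')))) s₃)
  c1 : ∀ p ∈ VX P (B.drop i), σ ≤ |sd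
    (lz (P.vertex j) (ax θ (P.vertex j) (dev P (lets ((B.drop i).take n)) (P.vertex j'))) y₁)
    (lu (ax θ (P.vertex j) (dev P (lets ((B.drop i).take n)) (P.vertex j'))) s₁) p|
  c2 : ∀ p ∈ VX P (rv g (B.take i)), σ ≤ |sd
    (lz (Lib_helper45.Bil.refl P (lg g (B.take i)) (P.vertex j))
      (-lrefl P (lg g (B.take i))
        (ax θ (P.vertex j) (dev P (lets ((B.drop i).take n)) (P.vertex j')))) y₁)
    (lu (-lrefl P (lg g (B.take i))
      (ax θ (P.vertex j) (dev P (lets ((B.drop i).take n)) (P.vertex j')))) (-s₁)) p|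
  c3 : ∀ p ∈ VX P A, σ ≤ |sd
    (lz (Lib_helper45.Bil.refl P g (dev P ((lets B).take i) (P.vertex j)))
      (-lrefl P g (ax θ (dev P ((lets B).take i) (P.vertex j))
        (dev P ((lets B).take (i + n)) (P.vertex j')))) y₃)
    (lu (-lrefl P g (ax θ (dev P ((lets B).take i) (P.vertex j))
      (dev P ((lets B).take (i + n)) (P.vertex j')))) s₃) p|

/-- The key determines the element. -/
theorem Dat.inj (hC : Stmt_CELL) (hSp : Stmt_SPLIT) {P : Polygon} {m C a : ℕ} {R : ℝ}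
    {S : Finset ℝ} (hR : 0 < R) (hS : ∀ σ ∈ S, 0 < σ) {g : ZMod P.k} {A B : List (SL P)}
    {i n : ℕ} {j j' : ZMod P.k} {θ σ y₁ s₁ y₃ s₃ : ℝ}
    (h : Dat P m C a R S g A B i n j j' θ σ y₁ s₁ y₃ s₃)
    {g' : ZMod P.k} {A' B' : List (SL P)} {n' : ℕ} {z₁ u₁ z₃ u₃ : ℝ}
    (h' : Dat P m C a R S g' A' B' i n' j j' θ σ z₁ u₁ z₃ u₃)
    (hg : lg g (B.take i) = lg g' (B'.take i)) (hU : (B.drop i).take n = (B'.drop i).take n')
    (k1 : ⌊2 * y₁ / σ⌋ = ⌊2 * z₁ / σ⌋) (k2 : ⌊2 * (s₁ * R) / σ⌋ = ⌊2 * (u₁ * R) / σ⌋)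
    (k3 : ⌊2 * (-s₁ * R) / σ⌋ = ⌊2 * (-u₁ * R) / σ⌋) (k4 : ⌊2 * y₃ / σ⌋ = ⌊2 * z₃ / σ⌋)
    (k5 : ⌊2 * (s₃ * R) / σ⌋ = ⌊2 * (u₃ * R) / σ⌋) : g = g' ∧ A = A' ∧ B = B' := by
  have hσ : 0 < σ := hS σ h.hσ
  have hn : n = n' := by
    have l1 : ((B.drop i).take n).length = n := by
      rw [List.length_take, List.length_drop, h.lB]
      have := h.hin
      omega
    have l2 : ((B'.drop i).take n').length = n' := by
      rw [List.length_take, List.length_drop, h'.lB]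
      have := h'.hin
      omega
    rw [← l1, ← l2, hU]
  subst hn
  have a1 := h'.r1
  have a2 := h'.r2
  rw [← hg, ← hU] at a1 a2
  have hd : B.drop i = B'.drop i := by
    refine hC P (lg g (B.take i)) (B.drop i) (B'.drop i) _ _ R σ y₁ s₁ z₁ u₁ h.e1 hR hσ ?_ h.r1 a1
      h.t1 h.c1 k1 k2
    rw [List.length_drop, List.length_drop, h.lB, h'.lB]
  obtain ⟨l1, m1, m2⟩ := (hSp P).1 g (B.take i)
  obtain ⟨l2, m3, m4⟩ := (hSp P).1 g' (B'.take i)
  have hr : rv g (B.take i) = rv g' (B'.take i) := by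
    refine hC P (lg g (B.take i)) (rv g (B.take i)) (rv g' (B'.take i)) _ _ R σ y₁ (-s₁) z₁ (-u₁)
      h.e2 hR hσ ?_ h.r2 a2 h.t2 h.c2 k1 k3
    rw [l1, l2, List.length_take, List.length_take, h.lB, h'.lB]
  have eg : g = g' := by
    rw [← m1, ← m3, hg, hr]
  have et : B.take i = B'.take i := by
    rw [← m2, ← m4, hg, hr]
  have eB : B = B' := by
    rw [← List.take_append_drop i B, ← List.take_append_drop i B', et, hd]
  subst eg
  subst eB
  refine ⟨rfl, ?_, rfl⟩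
  exact hC P g A A' _ _ R σ y₃ s₃ z₃ u₃ h.e3 hR hσ (h.lA.trans h'.lA.symm) h.r3 h'.r3 h.t3 h.c3
    k4 k5

end Rich

open Rich in
/-- RICH. -/
theorem m_RICH (hK : Stmt_RKEY) (hC : Stmt_CELL) (hSp : Stmt_SPLIT) (hN : Stmt_SNB) :
    Stmt_RICH := by
  classical
  intro P D M hT K
  have : NeZero P.k := ⟨by have := P.three_le; omega⟩
  obtain ⟨C₁, hC₁, h⟩ := hK P D M hT K
  have hD : 1 ≤ D := hT.1
  set C : ℕ := C₁ + (1 + 6 * C₁) + 6250 * P.k ^ 2 * C₁ ^ 6 with hCdef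
  have hC1 : C₁ ≤ C := by omega
  have hC2 : 1 + 6 * C₁ ≤ C := by omega
  have hC3 : 6250 * P.k ^ 2 * C₁ ^ 6 ≤ C := by omega
  refine ⟨C, by omega, ?_⟩
  intro m a hm ha ham
  obtain ⟨S, hScard, hSpos, hkey⟩ := h m (hC1.trans hm)
  have hm1 : 1 ≤ m := by omega
  have hm1R : (1 : ℝ) ≤ m := by exact_mod_cast hm1
  set R : ℝ := (2 * m + 10) * D with hR
  have hR0 : 0 < R := by positivity
  set X : Set (ZMod P.k × List (SL P) × List (SL P)) :=
    {X | X.2.1.length = m ∧ X.2.2.length = m ∧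
      ∃ (z u zA uA zB uB : ℂ) (ρA ρB : ℝ), TS P X.1 X.2.1 X.2.2 z u ∧ Opt P X.1 X.2.1 zA uA ρA ∧
        Opt P X.1 X.2.2 zB uB ρB ∧ C * (m : ℝ) ^ C * min ρA ρB ≤ 1 ∧
        Tight P X.2.2 z u (K * m * min ρA ρB) (K * m / a)} with hX
  -- the data
  have key : ∀ x ∈ X, ∃ (i n : ℕ) (j j' : ZMod P.k) (θ σ y₁ s₁ y₃ s₃ : ℝ),
      Dat P m C₁ a R S x.1 x.2.1 x.2.2 i n j j' θ σ y₁ s₁ y₃ s₃ := by
    rintro ⟨g, A, B⟩ ⟨hA, hB, z, u, zA, uA, zB, uB, ρA, ρB, hTS, hoA, hoB, hsm, htt⟩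
    have hmin : 0 < min ρA ρB := lt_min hoA.pos hoB.pos
    have hsm' : C₁ * (m : ℝ) ^ C₁ * min ρA ρB ≤ 1 := by
      refine le_trans ?_ hsm
      have q1 : (C₁ : ℝ) ≤ C := by exact_mod_cast hC1
      have q2 : (m : ℝ) ^ C₁ ≤ (m : ℝ) ^ C := pow_le_pow_right₀ hm1R hC1
      gcongr
    obtain ⟨i, n, j, j', θ, σ, p1, p2, p3, p4, p5⟩ := hkey a ha ham R hR g A B z u zA uA zB uB
      ρA ρB hA hB hTS hoA hoB hsm' htt
    obtain ⟨f1, f2, f3, f4, f5, f6, y₁, s₁, y₃, s₃, f7, f8, f9, f10, f11, f12, f13, f14⟩ :=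
      p5 _ _ _ _ _ _ _ _ _ rfl rfl rfl rfl rfl rfl rfl rfl rfl
    refine ⟨i, n, j, j', θ, σ, y₁, s₁, y₃, s₃, hA, hB, p1, p2, p3, p4, f1, f2, f3, f4, f5, f6,
      ?_, ?_, f9, f10, f11, f12, f13, f14⟩
    · push_cast
      exact f7
    · push_cast
      exact f8
  choose! i n j j' θ σ y₁ s₁ y₃ s₃ hdat using key
  -- the finite set of keys
  have hfin : ∀ l : ℕ, {Y : ZMod P.k × List (SL P) | Y.2.length = l ∧
      ∃ z u, SR P Y.1 Y.2 z u}.Finite := fun l =>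
    ((hN P).2.2 l).subset (fun Y hY => hY.1)
  set F : Finset (ZMod P.k × List (SL P)) :=
    (Finset.range (C * m / a + 1)).biUnion (fun l => (hfin l).toFinset) with hF
  have hFcard : F.card ≤ ∑ l ∈ Finset.range (C * m / a + 1), SN P l := by
    refine Finset.card_biUnion_le.trans (le_of_eq ?_)
    refine Finset.sum_congr rfl (fun l _ => ?_)
    rw [SN, Set.ncard_eq_toFinset_card _ (hfin l)]
  set E : ℕ := C₁ * m ^ C₁ with hE
  set I : Finset ℤ := Finset.Icc (-((2 * E : ℕ) : ℤ)) (2 * E : ℕ) with hI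
  set T : Finset (ℕ × (ZMod P.k × List (SL P)) × ZMod P.k × ZMod P.k × ℝ × ℝ ×
      ℤ × ℤ × ℤ × ℤ × ℤ) :=
    Finset.range m ×ˢ F ×ˢ (Finset.univ : Finset (ZMod P.k)) ×ˢ
      (Finset.univ : Finset (ZMod P.k)) ×ˢ ({1, -1} : Finset ℝ) ×ˢ S ×ˢ I ×ˢ I ×ˢ I ×ˢ I ×ˢ I
    with hTdef
  have hcard : X.ncard ≤ (T : Set (ℕ × (ZMod P.k × List (SL P)) × ZMod P.k × ZMod P.k × ℝ × ℝ ×
      ℤ × ℤ × ℤ × ℤ × ℤ)).ncard := by
    refine Set.ncard_le_ncard_of_injOn (fun x => (i x, (lg x.1 (x.2.2.take (i x)),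
      (x.2.2.drop (i x)).take (n x)), j x, j' x, θ x, σ x, ⌊2 * y₁ x / σ x⌋,
      ⌊2 * (s₁ x * R) / σ x⌋, ⌊2 * (-s₁ x * R) / σ x⌋, ⌊2 * y₃ x / σ x⌋,
      ⌊2 * (s₃ x * R) / σ x⌋)) ?_ ?_ T.finite_toSet
    · intro x hx
      have d := hdat x hx
      have hσ : 0 < σ x := hSpos _ d.hσ
      have g1 := floors hσ hR0 d.b1
      have g2 := floors (y := y₁ x) (s := -s₁ x) hσ hR0 (by rw [abs_neg]; exact d.b1)
      have g3 := floors hσ hR0 d.b3
      have l1 : ((x.2.2.drop (i x)).take (n x)).length = n x := by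
        rw [List.length_take, List.length_drop, d.lB]
        have := d.hin
        omega
      have hmemF : ((lg x.1 (x.2.2.take (i x)), (x.2.2.drop (i x)).take (n x)) :
          ZMod P.k × List (SL P)) ∈ F := by
        rw [hF, Finset.mem_biUnion]
        refine ⟨n x, ?_, ?_⟩
        · rw [Finset.mem_range, Nat.lt_succ_iff, Nat.le_div_iff_mul_le (by omega)]
          exact d.hna.trans (Nat.mul_le_mul_right _ hC1)
        · rw [Set.Finite.mem_toFinset]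
          exact ⟨l1, _, _, SR_take hSp (n x) d.r1⟩
      have hθ : θ x ∈ ({1, -1} : Finset ℝ) := by
        rw [Finset.mem_insert, Finset.mem_singleton]
        exact d.hθ
      simp only [hTdef, Finset.coe_product, Set.mem_prod, Finset.mem_coe]
      refine ⟨?_, hmemF, Finset.mem_univ _, Finset.mem_univ _, hθ, d.hσ, g1.1, g1.2, g2.2, g3.1,
        g3.2⟩
      rw [Finset.mem_range]
      have := d.hin
      omega
    · intro x hx x' hx' hxx
      have d := hdat x hx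
      have d' := hdat x' hx'
      simp only [Prod.mk.injEq] at hxx
      obtain ⟨w1, ⟨w2, w3⟩, w4, w5, w6, w7, w8, w9, w10, w11, w12⟩ := hxx
      rw [← w1, ← w4, ← w5, ← w6, ← w7] at d'
      rw [← w1] at w2 w3
      rw [← w7] at w8 w9 w10 w11 w12
      obtain ⟨v1, v2, v3⟩ := d.inj hC hSp hR0 hSpos d' w2 w3 w8 w9 w10 w11 w12
      exact Prod.ext v1 (Prod.ext v2 v3)
  refine hcard.trans ?_
  rw [Set.ncard_coe_finset, hTdef]
  simp only [Finset.card_product, Finset.card_range, Finset.card_univ, ZMod.card]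
  have hIc : I.card = 4 * E + 1 := by
    rw [hI, Int.card_Icc]
    omega
  have hθc : ({1, -1} : Finset ℝ).card ≤ 2 := Finset.card_le_two
  have hE1 : 1 ≤ E := Nat.mul_pos hC₁ (pow_pos hm1 _)
  have hI5 : I.card ≤ 5 * E := by omega
  set Q : ℕ := ∑ l ∈ Finset.range (C * m / a + 1), SN P l with hQ
  calc m * (F.card * (P.k * (P.k * (({1, -1} : Finset ℝ).card * (S.card *
        (I.card * (I.card * (I.card * (I.card * I.card)))))))))
      ≤ m * (Q * (P.k * (P.k * (2 * (E * ((5 * E) * ((5 * E) * ((5 * E) *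
        ((5 * E) * (5 * E))))))))) ) := by gcongr
    _ = (6250 * P.k ^ 2 * C₁ ^ 6) * m ^ (1 + 6 * C₁) * Q := by
        rw [hE]
        ring
    _ ≤ C * m ^ C * Q := by
        gcongr

end Pool.Agent.BCX
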