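import Pool.Agent.BCX.Stmts4
import Pool.Agent.BCX.REV

/-!
# Rich case: the key
-/

open Set Filter Topology Metric
open scoped ComplexConjugate

namespace Pool.Agent.BCX

open Pool.Agent.Billiard Pool.Agent.Lib_helper45.Bil

namespace RKEY

open FOLD REV

variable {P : Polygon}

theorem foldu_real (W : List (ZMod P.k)) : ∀ (r : ℝ) (u : ℂ),
    foldu P W ((r : ℂ) * u) = (r : ℂ) * foldu P W u := by
  induction W with
  | nil => intro r u; rfl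
  | cons a W ih =>
    intro r u
    show foldu P W (lrefl P a ((r : ℂ) * u)) = (r : ℂ) * foldu P W (lrefl P a u)
    rw [← ih]
    congr 1
    exact rd_real_mul _ _ _

theorem foldu_sub (W : List (ZMod P.k)) (p q : ℂ) :
    foldu P W (p - q) = foldz P W p - foldz P W q := by
  have h := foldz_add (P := P) W q (p - q)
  rw [add_sub_cancel] at h
  rw [h]; ring

theorem foldu_dir (W : List (ZMod P.k)) (p q : ℂ) (θ : ℝ) :
    foldu P W ((θ : ℂ) * (p - q) / (‖p - q‖ : ℂ)) =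
      (θ : ℂ) * (foldz P W p - foldz P W q) / (‖foldz P W p - foldz P W q‖ : ℂ) := by
  rw [← foldu_sub, norm_foldu]
  have h1 : (θ : ℂ) * (p - q) / (‖p - q‖ : ℂ) = ((θ / ‖p - q‖ : ℝ) : ℂ) * (p - q) := by
    push_cast; ring
  rw [h1, foldu_real]
  push_cast; ring

theorem absm (n : ℕ) (x : ℝ) : |(-1 : ℝ) ^ n * x| = |x| := by
  rw [abs_mul]; simp

end RKEY

open FOLD REV RKEY

theorem m_RKEY : Stmt_RLINES → Stmt_SCL → Stmt_RFOLD → Stmt_RKEY := by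
  intro hRL hSC hRF P D M hT K
  obtain ⟨C₁, hC₁, hR⟩ := hRL P D M hT K
  obtain ⟨C₂, hC₂, hS⟩ := hSC P D M hT
  set C := C₁ * C₂ + C₁ + C₂ with hCd
  have hCC₁ : C₁ ≤ C := by rw [hCd]; nlinarith [Nat.zero_le (C₁ * C₂)]
  have hCC₂ : C₂ ≤ C := by rw [hCd]; nlinarith [Nat.zero_le (C₁ * C₂)]
  refine ⟨C, by omega, fun m hm => ?_⟩
  have hm1 : 1 ≤ m := by omega
  have hmR : (1 : ℝ) ≤ m := by exact_mod_cast hm1
  obtain ⟨S, hScard, hSpos, hSσ⟩ := hS m hm1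
  refine ⟨S, hScard.trans (Nat.mul_le_mul hCC₂ (Nat.pow_le_pow_right hm1 hCC₂)), hSpos, ?_⟩
  intro a ha ham R hRd g A B z u zA uA zB uB ρA ρB hAl hBl hTS hOA hOB hsm hti
  have hρ : 0 < min ρA ρB := lt_min hOA.pos hOB.pos
  have hle1 : (C₁ : ℝ) * (m : ℝ) ^ C₁ ≤ C * (m : ℝ) ^ C := by
    have h1 : (C₁ : ℝ) ≤ C := by exact_mod_cast hCC₁
    have h2 : (m : ℝ) ^ C₁ ≤ (m : ℝ) ^ C := pow_le_pow_right₀ hmR hCC₁
    exact mul_le_mul h1 h2 (by positivity) (by positivity)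
  have hle2 : (C₁ : ℝ) * (m : ℝ) ^ C₁ * (C₂ * (m : ℝ) ^ C₂) ≤ C * (m : ℝ) ^ C := by
    have h1 : ((C₁ * C₂ : ℕ) : ℝ) ≤ C := by
      have : C₁ * C₂ ≤ C := by rw [hCd]; omega
      exact_mod_cast this
    have h2 : (m : ℝ) ^ (C₁ + C₂) ≤ (m : ℝ) ^ C :=
      pow_le_pow_right₀ hmR (by rw [hCd]; nlinarith [Nat.zero_le (C₁ * C₂)])
    calc (C₁ : ℝ) * (m : ℝ) ^ C₁ * (C₂ * (m : ℝ) ^ C₂) = ((C₁ * C₂ : ℕ) : ℝ) * (m : ℝ) ^ (C₁ + C₂) := by
          push_cast; rw [pow_add]; ring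
      _ ≤ _ := mul_le_mul h1 h2 (by positivity) (by positivity)
  obtain ⟨i, i', hii, hi', hia, j, j', θ, hθ, hmain⟩ := hR m a (hCC₁.trans hm) ha ham R hRd g A B z u zA uA
    zB uB ρA ρB (min ρA ρB) hAl hBl hTS hOA hOB hρ (min_le_left _ _) (min_le_right _ _)
    ((mul_le_mul_of_nonneg_right hle1 hρ.le).trans hsm) hti
  obtain ⟨σ, hσS, hσ1, hσ2⟩ : ∃ σ ∈ S, σ ≤ min ρA ρB ∧ min ρA ρB ≤ C₂ * (m : ℝ) ^ C₂ * σ := by
    rcases le_total ρA ρB with h | h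
    · rw [min_eq_left h]
      exact hSσ g A zA uA ρA hAl hOA
    · rw [min_eq_right h]
      exact hSσ g B zB uB ρB hBl hOB
  have hσ0 : 0 < σ := hSpos σ hσS
  have hbd : (C₁ : ℝ) * (m : ℝ) ^ C₁ * min ρA ρB ≤ C * (m : ℝ) ^ C * σ := by
    calc (C₁ : ℝ) * (m : ℝ) ^ C₁ * min ρA ρB ≤ C₁ * (m : ℝ) ^ C₁ * (C₂ * (m : ℝ) ^ C₂ * σ) := by gcongr
      _ = (C₁ * (m : ℝ) ^ C₁ * (C₂ * (m : ℝ) ^ C₂)) * σ := by ring
      _ ≤ _ := mul_le_mul_of_nonneg_right hle2 hσ0.le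
  refine ⟨i, i' - i, j, j', θ, σ, by omega, hia.trans (Nat.mul_le_mul_right _ hCC₁), hθ, hσS, ?_⟩
  intro b₁ e₁ b₂ e₂ q q' e b' e' hb₁ he₁ hb₂ he₂ hq hq' he hb' he'
  have hni : i + (i' - i) = i' := by omega
  rw [hni] at hq'
  obtain ⟨hen, hTB, hTA, ⟨y, s, hs, hys, hSR, hcl⟩, ⟨y₃, s₃, hs₃, hys₃, hSR₃, hcl₃⟩⟩ :=
    hmain q q' e b' e' hq hq' he hb' he'
  have hsplit : B.take i ++ B.drop i = B := List.take_append_drop _ _
  have hlV : lets (B.take i) = (lets B).take i := by simp [lets, List.map_take]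
  have hlU : lets ((B.drop i).take (i' - i)) = ((lets B).drop i).take (i' - i) := by
    simp [lets, List.map_take, List.map_drop]
  have hVl : (B.take i).length = i := by rw [List.length_take]; omega
  have hfq : foldz P (lets (B.take i)) q = b₁ := by
    rw [hb₁, hq, hlV, foldz_dev]
  have hfq' : foldz P (lets (B.take i)) q' = dev P (lets ((B.drop i).take (i' - i))) (P.vertex j') := by
    have h1 : (lets B).take i' = (lets B).take i ++ ((lets B).drop i).take (i' - i) := by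
      rw [← List.take_add, hni]
    rw [hq', hlV, hlU, h1, dev_append, foldz_dev]
  have hfe : e₁ = foldu P (lets (B.take i)) e := by
    rw [he, foldu_dir, hfq, hfq', he₁]
  obtain ⟨r1, r2, r3, r4, r5, r6, r7, r8⟩ := hRF P g (B.take i) (B.drop i) q e b₁ e₁ b₂ e₂ R (min ρA ρB) y s
    ((-1) ^ (B.take i).length * y) ((-1) ^ (B.take i).length * s) hen (by rw [hsplit]; exact hSR)
    (by rw [hsplit]; exact hTB) (by rw [hsplit]; exact hcl) hfq.symm hfe hb₂ he₂ rfl rfl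
  have he'n : ‖e'‖ = 1 := by rw [he', norm_neg, norm_lrefl, hen]
  refine ⟨r1, r2, he'n, r3, r4, hTA, (-1) ^ (B.take i).length * y, (-1) ^ (B.take i).length * s, y₃, s₃,
    ?_, hys₃.trans hbd, r5, r6, hSR₃, fun p hp => hσ1.trans (r7 p hp), fun p hp => hσ1.trans (r8 p hp),
    fun p hp => hσ1.trans (hcl₃ p hp)⟩
  rw [absm, absm]
  exact hys.trans hbd

end Pool.Agent.BCX
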