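import Pool.Agent.BCX.Stmts4

/-!
# `F_P(n) ≤ exp (C (log n)^{3/2})`: module RLINES (the rich case, lines in the frame of the tight pair)
-/

open Set Filter Topology Metric
open scoped ComplexConjugate

namespace Pool.Agent.BCX

open Pool.Agent.Billiard Pool.Agent.Lib_helper45.Bil

namespace RLINES

/-- One half of the word: from the common line towards the optimal line. -/
theorem half {P : Polygon} {D : ℝ} {Ca K₀ : ℕ} (hINV : Stmt_INV) (hVXL : Stmt_VXL)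
    (hHOMO : Stmt_HOMO)
    (hANG : ∀ (g : ZMod P.k) (W : List (SL P)) (b e z u : ℂ) (R y s : ℝ), Ca ≤ W.length →
      ‖e‖ = 1 → 0 < R → R ≤ 12 * D * W.length → |s| ≤ 1 / 2 → TB P R b e W →
      SR P g W (lz b e y) (lu e s) → SR P g W z u →
      ∃ y' s' : ℝ, Coord b e z u y' s' ∧ |s'| ≤ 1 ∧ |y - y'| + |s - s'| * R ≤ Ca)
    (hWID : ∀ (g : ZMod P.k) (W : List (SL P)) (b e z u : ℂ) (R y₁ s₁ y₂ s₂ ρ : ℝ), W ≠ [] →
      ‖e‖ = 1 → 1 ≤ R → |s₁| ≤ 1 → |s₂| ≤ 1 → TB P R b e W → Opt P g W z u ρ →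
      SR P g W (lz b e y₁) (lu e s₁) → SR P g W (lz b e y₂) (lu e s₂) →
      |y₁ - y₂| + |s₁ - s₂| * R ≤ 100 * R → |y₁ - y₂| + |s₁ - s₂| * R ≤ K₀ * R * ρ)
    {g : ZMod P.k} {W : List (SL P)} {b e z u zW uW : ℂ} {R y s ρW ρ X : ℝ}
    (hW : W ≠ []) (hlen : Ca ≤ W.length) (he : ‖e‖ = 1) (hR1 : 1 ≤ R)
    (hR : R ≤ 12 * D * W.length) (hRC : (Ca : ℝ) ≤ 100 * R) (hTB : TB P R b e W)
    (hSR : SR P g W z u) (hc : Coord b e z u y s) (hs : |s| ≤ 1 / 2)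
    (hX : |y| + |s| * R ≤ X) (hopt : Opt P g W zW uW ρW) (hρ : 0 < ρ) (hρW : ρ ≤ ρW) :
    ∃ y' s' : ℝ, |s'| ≤ 1 ∧ |y'| + |s'| * R ≤ X + K₀ * R * ρ ∧
      SR P g W (lz b e y') (lu e s') ∧
      ∀ p ∈ VX P W, ρ ≤ |sd (lz b e y') (lu e s') p| := by
  have hSR1 : SR P g W (lz b e y) (lu e s) := (hINV P b e z u y s).1 g W hc hSR
  obtain ⟨y₂, s₂, hc2, hs2, hd2⟩ := hANG g W b e zW uW R y s hlen he (by linarith) hR hs hTB hSR1
    hopt.real
  have hSR2 : SR P g W (lz b e y₂) (lu e s₂) := (hINV P b e zW uW y₂ s₂).1 g W hc2 hopt.real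
  have hw := hWID g W b e zW uW R y s y₂ s₂ ρW hW he hR1 (by linarith) hs2 hTB hopt hSR1 hSR2
    (hd2.trans hRC)
  have hρW0 : 0 < ρW := hopt.pos
  obtain ⟨r, hr⟩ : ∃ r : ℝ, r = ρ / ρW := ⟨_, rfl⟩
  have hr0 : 0 ≤ r := by rw [hr]; positivity
  have hr1 : r ≤ 1 := by rw [hr]; exact (div_le_one hρW0).2 hρW
  have hrρ : r * ρW = ρ := by rw [hr]; exact div_mul_cancel₀ _ hρW0.ne'
  obtain ⟨h1, h2⟩ := hHOMO P g W b e y s y₂ s₂ r he hW hr0 hr1 hSR1 hSR2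
  have hR0 : 0 < R := by linarith
  refine ⟨(1 - r) * y + r * y₂, (1 - r) * s + r * s₂, ?_, ?_, h1, ?_⟩
  · have h3 := abs_add_le ((1 - r) * s) (r * s₂)
    rw [abs_mul, abs_mul, abs_of_nonneg (by linarith : 0 ≤ 1 - r), abs_of_nonneg hr0] at h3
    have h4 : (1 - r) * |s| ≤ (1 - r) * 1 := mul_le_mul_of_nonneg_left (by linarith) (by linarith)
    have h5 : r * |s₂| ≤ r * 1 := mul_le_mul_of_nonneg_left hs2 hr0
    linarith
  · have e1 : (1 - r) * y + r * y₂ = y - r * (y - y₂) := by ring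
    have e2 : (1 - r) * s + r * s₂ = s - r * (s - s₂) := by ring
    rw [e1, e2]
    have h3 := abs_sub y (r * (y - y₂))
    have h4 := abs_sub s (r * (s - s₂))
    rw [abs_mul, abs_of_nonneg hr0] at h3 h4
    have h5 : |s - r * (s - s₂)| * R ≤ (|s| + r * |s - s₂|) * R :=
      mul_le_mul_of_nonneg_right h4 hR0.le
    have h6 : r * (|y - y₂| + |s - s₂| * R) ≤ r * (K₀ * R * ρW) :=
      mul_le_mul_of_nonneg_left hw hr0
    have h7 : r * (K₀ * R * ρW) = K₀ * R * ρ := by rw [← hrρ]; ring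
    rw [h7] at h6
    linarith
  · intro p hp
    refine le_trans ?_ (h2 p hp)
    have h3 : ρW ≤ ld zW uW p := hopt.cl p hp
    rw [← (hINV P b e zW uW y₂ s₂).2.1 p hc2] at h3
    have h4 := ((hVXL P).2.2.2.2.2 (lz b e y₂) e p s₂ he hs2).1
    rw [← hrρ]
    exact mul_le_mul_of_nonneg_left (h3.trans h4) hr0

/-- Points of the gate are fixed by the reflection. -/
theorem refl_gate {P : Polygon} {g : ZMod P.k} {x : ℂ} (hx : x ∈ rel P g) :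
    Lib_helper45.Bil.refl P g x = x := by
  apply refl_fix
  obtain ⟨l, _, _, rfl⟩ := (mem_rel_iff (P := P)).1 hx
  exact H_line g l

theorem tb_B {P : Polygon} {D : ℝ} {M : ℕ} (hT : TimesOK P D M) (hSIZE : Stmt_SIZE)
    {g : ZMod P.k} {W : List (SL P)} {z u q e : ℂ} {R : ℝ} (he : ‖e‖ = 1) (hSR : SR P g W z u)
    (hq : q ∈ VX P W) (hR : (W.length + 2) * D ≤ R) : TB P R q e W := by
  intro p hp
  have h1 := abs_tc_sub_le (b := q) he p q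
  have h2 : tc q e q = 0 := by simp [tc]
  rw [h2, sub_zero] at h1
  exact h1.trans (((hSIZE P D M hT g W z u hSR).1 p hp q hq).trans hR)

theorem tb_A {P : Polygon} {D : ℝ} {M : ℕ} (hT : TimesOK P D M) (hSIZE : Stmt_SIZE)
    {g : ZMod P.k} {A B : List (SL P)} {z u q e : ℂ} {R : ℝ} (he : ‖e‖ = 1)
    (hTS : TS P g A B z u) (hq : q ∈ VX P B)
    (hR : (A.length + 2) * D + (B.length + 2) * D ≤ R) :
    TB P R (Lib_helper45.Bil.refl P g q) e A := by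
  obtain ⟨hB, hA⟩ := hTS
  obtain ⟨x, hx⟩ : ∃ x, x ∈ rel P g := by
    obtain ⟨_, t, hx, _⟩ := hB
    exact ⟨_, hx⟩
  intro p hp
  have h1 := abs_tc_sub_le (b := Lib_helper45.Bil.refl P g q) he p (Lib_helper45.Bil.refl P g q)
  have h2 : tc (Lib_helper45.Bil.refl P g q) e (Lib_helper45.Bil.refl P g q) = 0 := by simp [tc]
  rw [h2, sub_zero] at h1
  have h3 := (hSIZE P D M hT g A _ _ hA).2.1 x hx p hp
  have h4 := (hSIZE P D M hT g B z u hB).2.1 x hx q hq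
  have h5 : dist x (Lib_helper45.Bil.refl P g q) = dist x q := by
    conv_lhs => rw [← refl_gate hx]
    exact dist_refl g x q
  have h6 := dist_triangle p x (Lib_helper45.Bil.refl P g q)
  rw [dist_comm p x, h5] at h6
  linarith

theorem gap {P : Polygon} {c ε : ℝ} (hINV : Stmt_INV) (hVXL : Stmt_VXL)
    (hgap : ∀ (g : ZMod P.k) (W : List (SL P)) (b e : ℂ) (y s : ℝ), ‖e‖ = 1 → |s| ≤ 1 →
      SR P g W (lz b e y) (lu e s) → ∀ q ∈ VX P W, ∀ q' ∈ VX P W, q ≠ q' →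
      |sd (lz b e y) (lu e s) q| ≤ c → |sd (lz b e y) (lu e s) q'| ≤ c →
      c ≤ |tc b e q - tc b e q'|)
    {g : ZMod P.k} {W : List (SL P)} {z u q q' : ℂ} (hSR : SR P g W z u) (hq : q ∈ VX P W)
    (hq' : q' ∈ VX P W) (hne : q ≠ q') (h1 : ld z u q ≤ ε) (h2 : ld z u q' ≤ ε)
    (hε : 2 * ε ≤ c) : c ≤ dist q q' := by
  have hu : u ≠ 0 := hSR.1
  obtain ⟨e, he⟩ : ∃ e, e = u / (‖u‖ : ℂ) := ⟨_, rfl⟩
  have hc : Coord z e z u 0 0 := by
    rw [he]; exact (hINV P z u z u 0 0).2.2.2.2.2.2.2 hu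
  have he1 : ‖e‖ = 1 := by
    rw [he, norm_div, Complex.norm_real, norm_norm, div_self (norm_ne_zero_iff.2 hu)]
  have hSR1 : SR P g W (lz z e 0) (lu e 0) := (hINV P z e z u 0 0).1 g W hc hSR
  have k : ∀ p, ld z u p ≤ ε → |sd (lz z e 0) (lu e 0) p| ≤ c := by
    intro p hp
    have h3 := ((hVXL P).2.2.2.2.2 (lz z e 0) e p 0 he1 (by simp)).2
    rw [(hINV P z e z u 0 0).2.1 p hc] at h3
    linarith
  exact (hgap g W z e 0 0 he1 (by simp) hSR1 q hq q' hq' hne (k q h1) (k q' h2)).trans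
    (abs_tc_sub_le he1 q q')

/-- The constants. -/
theorem consts {m C K K₀ : ℕ} {D c R ρ : ℝ} (hD : 1 ≤ D) (hc0 : 0 < c) (hm : C ≤ m) (hC : 10 ≤ C)
    (hC1 : 24 * K * D / c + 3 * K₀ * D ≤ C) (hC2 : 8 * K / c ≤ C)
    (hR : R = (2 * m + 10) * D) (hρ : 0 < ρ) (hs : C * (m : ℝ) ^ C * ρ ≤ 1) :
    1 ≤ R ∧ (m : ℝ) ≤ R ∧ R ≤ 12 * D * m ∧ ((m : ℝ) + 2) * D + ((m : ℝ) + 2) * D ≤ R ∧
    8 * (K * m * ρ) ≤ c ∧ 8 * (K * m * ρ) * R / c + K₀ * R * ρ ≤ C * (m : ℝ) ^ C * ρ := by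
  have hm' : (10 : ℝ) ≤ m := by exact_mod_cast hC.trans hm
  have hm1 : (1 : ℝ) ≤ m := by linarith
  have hmD : (m : ℝ) ≤ m * D := le_mul_of_one_le_right (by linarith) hD
  have hR3 : R ≤ 3 * (m * D) := by
    rw [hR]
    nlinarith
  have hR0 : (m : ℝ) ≤ R := by
    rw [hR]
    nlinarith
  have hR1 : 1 ≤ R := by linarith
  have hp1 : (m : ℝ) ≤ (m : ℝ) ^ C := by
    calc (m : ℝ) = (m : ℝ) ^ 1 := (pow_one _).symm
      _ ≤ (m : ℝ) ^ C := pow_le_pow_right₀ hm1 (by omega)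
  have hp2 : (m : ℝ) ^ 2 ≤ (m : ℝ) ^ C := pow_le_pow_right₀ hm1 (by omega)
  have hC0 : (0 : ℝ) ≤ C := Nat.cast_nonneg _
  have hK0 : (0 : ℝ) ≤ K := Nat.cast_nonneg _
  have hK00 : (0 : ℝ) ≤ K₀ := Nat.cast_nonneg _
  refine ⟨hR1, hR0, by nlinarith, by rw [hR]; nlinarith, ?_, ?_⟩
  · have h1 : 8 * (K : ℝ) ≤ C * c := by rwa [div_le_iff₀ hc0] at hC2
    calc 8 * (K * m * ρ) = (8 * K) * (m * ρ) := by ring
      _ ≤ (C * c) * ((m : ℝ) ^ C * ρ) := by gcongr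
      _ = c * (C * (m : ℝ) ^ C * ρ) := by ring
      _ ≤ c * 1 := by gcongr
      _ = c := mul_one c
  · calc 8 * (K * m * ρ) * R / c + K₀ * R * ρ
        ≤ 8 * (K * m * ρ) * (3 * (m * D)) / c + K₀ * (3 * (m * D)) * ρ := by gcongr
      _ = (24 * K * D / c) * ((m : ℝ) ^ 2 * ρ) + (3 * K₀ * D) * (m * ρ) := by ring
      _ ≤ (24 * K * D / c) * ((m : ℝ) ^ C * ρ) + (3 * K₀ * D) * ((m : ℝ) ^ C * ρ) := by gcongr
      _ = (24 * K * D / c + 3 * K₀ * D) * ((m : ℝ) ^ C * ρ) := by ring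
      _ ≤ C * ((m : ℝ) ^ C * ρ) := by gcongr
      _ = C * (m : ℝ) ^ C * ρ := by ring

/-- The number of copies between two vertices. -/
theorem stages {m a C K M i i' : ℕ} {D d : ℝ} (hD : 1 ≤ D) (ha : 1 ≤ a) (ham : a ≤ m)
    (hC : M * K + 2 * M ≤ C) (hi : i ≤ i') (hd : d ≤ K * m / a)
    (h : ((i' : ℝ) - i) ≤ M * ((d + 2 * D) / (5 * D) + 1)) : (i' - i) * a ≤ C * m := by
  have ha0 : (0 : ℝ) < a := by exact_mod_cast ha
  have ham' : (a : ℝ) ≤ m := by exact_mod_cast ham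
  have hM0 : (0 : ℝ) ≤ M := Nat.cast_nonneg _
  have hK0 : (0 : ℝ) ≤ K := Nat.cast_nonneg _
  have hm0 : (0 : ℝ) ≤ m := Nat.cast_nonneg _
  have hC' : (M : ℝ) * K + 2 * M ≤ C := by exact_mod_cast hC
  have hd' : d * a ≤ K * m := by rwa [le_div_iff₀ ha0] at hd
  have h1 : ((d + 2 * D) / (5 * D) + 1) * a ≤ K * m + 2 * m := by
    have h2 : ((d + 2 * D) / (5 * D)) * a ≤ K * m + m := by
      rw [div_mul_eq_mul_div, div_le_iff₀ (by linarith)]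
      have h3 : (d + 2 * D) * a ≤ K * m + 2 * D * m := by nlinarith
      have h4 : (K * m + 2 * D * m) ≤ (K * m + m) * (5 * D) := by
        have h5 : K * (m : ℝ) ≤ K * m * (5 * D) :=
          le_mul_of_one_le_right (by positivity) (by linarith)
        have h6 : 2 * D * m ≤ m * (5 * D) := by nlinarith
        linarith
      exact h3.trans h4
    linarith
  have h7 : ((i' : ℝ) - i) * a ≤ C * m := by
    calc ((i' : ℝ) - i) * a ≤ (M * ((d + 2 * D) / (5 * D) + 1)) * a := by gcongr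
      _ = M * (((d + 2 * D) / (5 * D) + 1) * a) := by ring
      _ ≤ M * (K * m + 2 * m) := by gcongr
      _ = (M * K + 2 * M) * m := by ring
      _ ≤ C * m := by gcongr
  have h8 : (((i' - i) * a : ℕ) : ℝ) ≤ ((C * m : ℕ) : ℝ) := by
    push_cast [Nat.cast_sub hi]
    exact h7
  exact_mod_cast h8

end RLINES

open RLINES in
theorem m_RLINES (hINV : Stmt_INV) (hVXL : Stmt_VXL) (hGAP0 : Stmt_GAP0) (hSIZE : Stmt_SIZE)
    (hANG : Stmt_ANG) (hWID : Stmt_WID) (hHOMO : Stmt_HOMO) (hKAP : Stmt_KAP) :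
    Stmt_RLINES := by
  intro P D M hT K
  have hD : 1 ≤ D := hT.1
  obtain ⟨c, hc0, hc1, hgap⟩ := hGAP0 P D M hT
  obtain ⟨Ca, hCa, hang⟩ := hANG P D M hT
  obtain ⟨K₀, hK₀, hwid⟩ := hWID P D M hT
  obtain ⟨C₁, hC₁⟩ := exists_nat_ge (24 * K * D / c + 3 * K₀ * D)
  obtain ⟨C₂, hC₂⟩ := exists_nat_ge (8 * K / c)
  obtain ⟨C, hC⟩ : ∃ C : ℕ, C = C₁ + C₂ + Ca + (M * K + 2 * M) + 10 := ⟨_, rfl⟩
  refine ⟨C, by omega, ?_⟩
  intro m a hm ha ham R hR g A B z u zA uA zB uB ρA ρB ρ hA hB hTS hoA hoB hρ hρA hρB hsm htight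
  have hCC1 : (C₁ : ℝ) ≤ C := by exact_mod_cast (by omega : C₁ ≤ C)
  have hCC2 : (C₂ : ℝ) ≤ C := by exact_mod_cast (by omega : C₂ ≤ C)
  obtain ⟨hR1, hRm, hR12, hR2, h8, hfin⟩ := consts (K := K) (K₀ := K₀) hD hc0 hm (by omega)
    (hC₁.trans hCC1) (hC₂.trans hCC2) hR hρ hsm
  have hRC : (Ca : ℝ) ≤ 100 * R := by
    have h1 : (Ca : ℝ) ≤ m := by exact_mod_cast (by omega : Ca ≤ m)
    linarith
  have hD0 : 0 ≤ ((m : ℝ) + 2) * D := by positivity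
  have hSRB := hTS.1
  have hSRA := hTS.2
  have core : ∀ (i i' : ℕ) (j j' : ZMod P.k) (q q' : ℂ), i ≤ i' → i' < m →
      q = dev P ((lets B).take i) (P.vertex j) → q' = dev P ((lets B).take i') (P.vertex j') →
      q ≠ q' → dist q q' ≤ K * m / a → ld z u q ≤ K * m * ρ → ld z u q' ≤ K * m * ρ →
      ∃ i i' : ℕ, i ≤ i' ∧ i' < m ∧ (i' - i) * a ≤ C * m ∧
      ∃ (j j' : ZMod P.k) (θ : ℝ), (θ = 1 ∨ θ = -1) ∧
      ∀ (q q' e b' e' : ℂ), q = dev P ((lets B).take i) (P.vertex j) →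
        q' = dev P ((lets B).take i') (P.vertex j') → e = (θ : ℂ) * (q' - q) / (‖q' - q‖ : ℂ) →
        b' = Lib_helper45.Bil.refl P g q → e' = -lrefl P g e →
        ‖e‖ = 1 ∧ TB P R q e B ∧ TB P R b' e' A ∧
        (∃ y s : ℝ, |s| ≤ 1 ∧ |y| + |s| * R ≤ C * (m : ℝ) ^ C * ρ ∧ SR P g B (lz q e y) (lu e s) ∧
          ∀ p ∈ VX P B, ρ ≤ |sd (lz q e y) (lu e s) p|) ∧
        (∃ y s : ℝ, |s| ≤ 1 ∧ |y| + |s| * R ≤ C * (m : ℝ) ^ C * ρ ∧
          SR P g A (lz b' e' y) (lu e' s) ∧ ∀ p ∈ VX P A, ρ ≤ |sd (lz b' e' y) (lu e' s) p|) := by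
    intro i i' j j' q q' hii hi'm hq hq' hne hdist hl hl'
    have hqV : q ∈ VX P B := ⟨i, by omega, j, hq⟩
    have hqV' : q' ∈ VX P B := ⟨i', by omega, j', hq'⟩
    have hKmρ : 0 ≤ (K : ℝ) * m * ρ := by positivity
    have hcd : c ≤ dist q q' := gap hINV hVXL hgap hSRB hqV hqV' hne hl hl' (by linarith)
    obtain ⟨θ, hθ, hθ1, y, s, hco, hs, hys⟩ := hKAP z u q q' (K * m * ρ) c R hSRB.1 hc0 hc1 hR1
      hcd h8 hl hl'
    have hst := (hSIZE P D M hT g B z u hSRB).2.2 i i' hii (by omega) j j'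
    rw [← hq, ← hq'] at hst
    refine ⟨i, i', hii, hi'm, stages hD ha ham (by omega) hii hdist hst, j, j', θ, hθ, ?_⟩
    intro r r' e b' e' hr hr' he hb' he'
    obtain rfl : r = q := by rw [hr, hq]
    obtain rfl : r' = q' := by rw [hr', hq']
    rw [← he] at hθ1 hco
    have he1 : ‖e'‖ = 1 := by rw [he', norm_neg, norm_lrefl, hθ1]
    have hTB : TB P R r e B := tb_B hT hSIZE hθ1 hSRB hqV (by rw [hB]; linarith)
    have hTA : TB P R b' e' A := by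
      rw [hb']
      exact tb_A hT hSIZE he1 hTS hqV (by rw [hA, hB]; exact hR2)
    have hcoA : Coord b' e' (Lib_helper45.Bil.refl P g z) (-lrefl P g u) y (-s) := by
      rw [hb', he']
      exact (hINV P r e z u y s).2.2.2.2.1 g hco
    refine ⟨hθ1, hTB, hTA, ?_, ?_⟩
    · obtain ⟨y', s', h1, h2, h3, h4⟩ := half hINV hVXL hHOMO hang hwid
        (by rintro rfl; simp at hB; omega) (by omega) hθ1 hR1 (by rw [hB]; exact hR12) hRC hTB
        hSRB hco hs hys hoB hρ hρB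
      exact ⟨y', s', h1, h2.trans hfin, h3, h4⟩
    · obtain ⟨y', s', h1, h2, h3, h4⟩ := half (X := 8 * (K * m * ρ) * R / c) hINV hVXL hHOMO
        hang hwid (by rintro rfl; simp at hA; omega) (by omega) he1 hR1 (by rw [hA]; exact hR12) hRC hTA
        hSRA hcoA (by rw [abs_neg]; exact hs) (by rw [abs_neg]; exact hys) hoA hρ hρA
      exact ⟨y', s', h1, h2.trans hfin, h3, h4⟩
  obtain ⟨q, ⟨i, hi, j, hq⟩, q', ⟨i', hi', j', hq'⟩, hne, hdist, hl, hl'⟩ := htight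
  rcases le_total i i' with h | h
  · exact core i i' j j' q q' h (by omega) hq hq' hne hdist hl hl'
  · exact core i' i j' j q' q h (by omega) hq' hq hne.symm (by rw [dist_comm]; exact hdist) hl' hl

end Pool.Agent.BCX
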