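import Pool.Agent.BCX.Stmts2

/-!
# BCX, module SCALES: greedy choice of scales
-/

set_option autoImplicit false

open Set Filter Topology Metric
open scoped ComplexConjugate

namespace Pool.Agent.BCX

open Pool.Agent.Billiard Pool.Agent.Lib_helper45.Bil

namespace SCALES

/-- The cross product of three unfolded vertices. -/
noncomputable def X (P : Polygon)
    (q : (List (ZMod P.k) × List (ZMod P.k) × List (ZMod P.k)) × (ZMod P.k × ZMod P.k × ZMod P.k)) :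
    ℝ :=
  cr (dev P q.1.2.1 (P.vertex q.2.2.1) - dev P q.1.1 (P.vertex q.2.1))
    (dev P q.1.2.2 (P.vertex q.2.2.2) - dev P q.1.1 (P.vertex q.2.1))

/-- The nonzero absolute values of level `m`. -/
def V (P : Polygon) (m : ℕ) : Set ℝ :=
  {v | v ≠ 0 ∧ ∃ q : (List (ZMod P.k) × List (ZMod P.k) × List (ZMod P.k)) ×
      (ZMod P.k × ZMod P.k × ZMod P.k),
    (q.1.1.length ≤ m ∧ q.1.2.1.length ≤ m ∧ q.1.2.2.length ≤ m) ∧ v = |X P q|}

theorem V_finite (P : Polygon) (m : ℕ) : (V P m).Finite := by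
  have hL := List.finite_length_le (ZMod P.k) m
  have hS : {q : (List (ZMod P.k) × List (ZMod P.k) × List (ZMod P.k)) ×
      (ZMod P.k × ZMod P.k × ZMod P.k) |
      q.1.1.length ≤ m ∧ q.1.2.1.length ≤ m ∧ q.1.2.2.length ≤ m}.Finite := by
    refine Set.Finite.subset ((hL.prod (hL.prod hL)).prod (finite_univ)) ?_
    rintro ⟨⟨w₁, w₂, w₃⟩, j⟩ ⟨h1, h2, h3⟩
    exact ⟨⟨h1, h2, h3⟩, mem_univ _⟩
  refine (hS.image (fun q => |X P q|)).subset ?_
  rintro v ⟨-, q, hq, rfl⟩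
  exact ⟨q, hq, rfl⟩

/-- The next scale. -/
noncomputable def next (F : Finset ℝ) (Γ x : ℝ) : ℝ :=
  if h : (F.filter (fun v => v < x / Γ)).Nonempty then (F.filter (fun v => v < x / Γ)).max' h else 0

theorem next_mem {F : Finset ℝ} {Γ x : ℝ} (h : next F Γ x ≠ 0) :
    next F Γ x ∈ F ∧ next F Γ x < x / Γ := by
  unfold next at h ⊢
  by_cases hn : (F.filter (fun v => v < x / Γ)).Nonempty
  · rw [dif_pos hn]
    have := Finset.max'_mem _ hn
    exact Finset.mem_filter.1 this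
  · rw [dif_neg hn] at h
    exact absurd rfl h

theorem next_ge {F : Finset ℝ} {Γ x v : ℝ} (hv : v ∈ F) (hx : v < x / Γ) : v ≤ next F Γ x := by
  have hm : v ∈ F.filter (fun v => v < x / Γ) := Finset.mem_filter.2 ⟨hv, hx⟩
  unfold next
  rw [dif_pos ⟨v, hm⟩]
  exact Finset.le_max' _ _ hm

theorem next_nonneg {F : Finset ℝ} (hF : ∀ v ∈ F, 0 < v) (Γ x : ℝ) : 0 ≤ next F Γ x := by
  by_cases h : next F Γ x = 0
  · exact h.ge
  · exact (hF _ (next_mem h).1).le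

end SCALES

open SCALES in
/-- Few scales. -/
theorem m_SCALES : Stmt_SIEG → Stmt_REP → Stmt_SCALES := by
  classical
  intro hSieg hRep P r hr
  obtain ⟨C₀, hC₀, hrep⟩ := hRep P r hr
  refine ⟨6 * C₀ ^ 2, by nlinarith, ?_⟩
  intro m hm
  obtain ⟨Δ, t, hΔ1, hΔ, hF⟩ := hrep m hm
  have hm0 : (1 : ℝ) ≤ m := by exact_mod_cast hm
  have hC0' : (1 : ℝ) ≤ C₀ := by exact_mod_cast hC₀
  set Γ : ℝ := ((6 * C₀ ^ 2 : ℕ) : ℝ) * (m : ℝ) ^ (r + 2) with hΓ
  have hΓpos : 0 < Γ := by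
    rw [hΓ]
    positivity
  set H : ℕ := C₀ * m ^ 2 with hH
  have hH1 : 1 ≤ H := by
    rw [hH]
    exact Nat.one_le_iff_ne_zero.2 (by positivity)
  have hΓge : 4 * (Δ : ℝ) * H + 2 ≤ Γ := by
    have h1 : (Δ : ℝ) ≤ C₀ * (m : ℝ) ^ r := by exact_mod_cast hΔ
    have h2 : (H : ℝ) = C₀ * (m : ℝ) ^ 2 := by rw [hH]; push_cast; ring
    have h3 : (Δ : ℝ) * H ≤ (C₀ * (m : ℝ) ^ r) * (C₀ * (m : ℝ) ^ 2) := by
      rw [h2]
      exact mul_le_mul_of_nonneg_right h1 (by positivity)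
    have h4 : (C₀ * (m : ℝ) ^ r) * (C₀ * (m : ℝ) ^ 2) = C₀ ^ 2 * (m : ℝ) ^ (r + 2) := by
      rw [pow_add]; ring
    have h5 : (1 : ℝ) ≤ C₀ ^ 2 * (m : ℝ) ^ (r + 2) := by
      have ha : (1 : ℝ) ≤ (C₀ : ℝ) ^ 2 := one_le_pow₀ hC0'
      have hb : (1 : ℝ) ≤ (m : ℝ) ^ (r + 2) := one_le_pow₀ hm0
      nlinarith
    have h6 : Γ = 6 * (C₀ ^ 2 * (m : ℝ) ^ (r + 2)) := by
      rw [hΓ]; push_cast; ring
    rw [h6]
    nlinarith
  have hVfin := V_finite P m
  set F : Finset ℝ := hVfin.toFinset with hFd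
  have hFpos : ∀ v ∈ F, 0 < v := by
    intro v hv
    rw [hFd, Set.Finite.mem_toFinset] at hv
    obtain ⟨h0, q, -, rfl⟩ := hv
    exact lt_of_le_of_ne (abs_nonneg _) (Ne.symm h0)
  obtain ⟨σ, hσ0, hσs⟩ : ∃ σ : ℕ → ℝ, σ 0 = 1 ∧ ∀ i, σ (i + 1) = next F Γ (σ i) :=
    ⟨fun n => Nat.rec (motive := fun _ => ℝ) 1 (fun _ x => next F Γ x) n, rfl, fun i => rfl⟩
  have hσnn : ∀ i, 0 ≤ σ i := by
    intro i
    cases i with
    | zero => rw [hσ0]; exact zero_le_one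
    | succ i => rw [hσs]; exact next_nonneg hFpos _ _
  -- some scale is zero
  have hzero : ∃ i ≤ 2 * Δ, σ i = 0 := by
    by_contra hcon
    push Not at hcon
    have hx : ∀ i, ∃ z : ℂ, i < 2 * Δ →
        ((∃ G : Fin Δ → ℤ, (∀ j, |G j| ≤ H) ∧ z = ∑ j, (G j : ℂ) * t j) ∧ ‖z‖ = 2 * σ (i + 1)) := by
      intro i
      by_cases hi : i < 2 * Δ
      · have hne : σ (i + 1) ≠ 0 := hcon (i + 1) hi
        rw [hσs] at hne
        have hmem := (next_mem hne).1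
        rw [hFd, Set.Finite.mem_toFinset] at hmem
        obtain ⟨-, q, ⟨hq1, hq2, hq3⟩, hq⟩ := hmem
        obtain ⟨G, hG, hGe⟩ := hF q.1.1 q.1.2.1 q.1.2.2 hq1 hq2 hq3 q.2.1 q.2.2.1 q.2.2.2
        refine ⟨2 * Complex.I * (X P q : ℂ), fun _ => ⟨⟨G, ?_, hGe⟩, ?_⟩⟩
        · intro j
          rw [hH]
          push_cast
          exact hG j
        · rw [hσs, hFd, ← hFd, hq]
          rw [norm_mul, norm_mul, Complex.norm_I, Complex.norm_real, Real.norm_eq_abs]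
          simp
      · exact ⟨0, fun h => absurd h hi⟩
    choose x hx using hx
    have hlt := hSieg Δ H (2 * Δ) t x hΔ1 hH1 (fun i hi => (hx i hi).1)
      (fun i hi => by
        have h1 := (hx i hi).2
        have h2 : 0 < σ (i + 1) := lt_of_le_of_ne (hσnn _) (Ne.symm (hcon (i + 1) hi))
        rw [← norm_pos_iff, h1]
        positivity)
      (fun i hi => by
        rw [(hx (i + 1) hi).2, (hx i (by omega)).2]
        have hne : σ (i + 1 + 1) ≠ 0 := hcon (i + 1 + 1) hi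
        have hne' := hne
        rw [hσs] at hne'
        have h1 := (next_mem hne').2
        rw [← hσs, lt_div_iff₀ hΓpos] at h1
        have h2 : 0 ≤ σ (i + 1 + 1) := hσnn _
        nlinarith [mul_le_mul_of_nonneg_right hΓge h2])
    omega
  have hex : ∃ i, σ i = 0 := by
    obtain ⟨i, -, h⟩ := hzero
    exact ⟨i, h⟩
  refine ⟨Nat.find hex, σ, ?_, ?_, hσ0, Nat.find_spec hex, ?_, ?_⟩
  · rw [Nat.one_le_iff_ne_zero]
    intro h0
    have := Nat.find_spec hex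
    rw [h0, hσ0] at this
    exact one_ne_zero this
  · obtain ⟨i, hi, h⟩ := hzero
    have h1 : Nat.find hex ≤ i := Nat.find_min' hex h
    have h2 : 2 * Δ ≤ 6 * C₀ ^ 2 * m ^ r := by
      have h3 : C₀ * m ^ r ≤ C₀ ^ 2 * m ^ r := by
        refine Nat.mul_le_mul_right _ ?_
        nlinarith
      nlinarith
    omega
  · intro i hi
    exact lt_of_le_of_ne (hσnn i) (Ne.symm (Nat.find_min hex hi))
  · intro i _ w₁ w₂ w₃ hw₁ hw₂ hw₃ j₁ j₂ j₃
    by_cases hlt : |X P ((w₁, w₂, w₃), (j₁, j₂, j₃))| < σ i / Γ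
    · left
      by_cases h0 : |X P ((w₁, w₂, w₃), (j₁, j₂, j₃))| = 0
      · change |X P ((w₁, w₂, w₃), (j₁, j₂, j₃))| ≤ σ (i + 1)
        rw [h0]
        exact hσnn _
      · change |X P ((w₁, w₂, w₃), (j₁, j₂, j₃))| ≤ σ (i + 1)
        rw [hσs]
        refine next_ge ?_ hlt
        rw [hFd, Set.Finite.mem_toFinset]
        exact ⟨h0, ((w₁, w₂, w₃), (j₁, j₂, j₃)), ⟨hw₁, hw₂, hw₃⟩, rfl⟩
    · right
      exact not_lt.1 hlt

end Pool.Agent.BCX
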