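import Pool.Agent.BCX.Stmts4

/-!
# BCX part 4, module SCL: few scales (helper32)
-/

set_option autoImplicit false

open Set Filter Topology Metric
open scoped ComplexConjugate

namespace Pool.Agent.BCX

open Pool.Agent.Billiard Pool.Agent.Lib_helper45.Bil

theorem m_SCL : Stmt_RANK → Stmt_SCALES → Stmt_TRIP → Stmt_OPT → Stmt_SCL := by
  classical
  intro hRank hScales hTrip hOpt P D M hT
  obtain ⟨C₁, hC₁, hsc⟩ := hScales P (P.k - 1) (hRank.1 P)
  obtain ⟨C₂, hC₂, htr⟩ := hTrip P D M hT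
  have hD1 : 1 ≤ D := hT.1
  set r : ℕ := P.k - 1 with hr
  set N : ℕ := ⌈D⌉₊ with hN
  have hDN : D ≤ (N : ℝ) := Nat.le_ceil D
  refine ⟨C₁ * C₂ ^ 2 + N * C₂ + C₁ + 1 + (2 * C₂ + r + 2), by omega, ?_⟩
  intro m hm
  set C : ℕ := C₁ * C₂ ^ 2 + N * C₂ + C₁ + 1 + (2 * C₂ + r + 2) with hC
  obtain ⟨Q, σ, hQ1, hQ, hσ0, hσQ, hσpos, hgap⟩ := hsc m hm
  have hm' : (1 : ℝ) ≤ (m : ℝ) := by exact_mod_cast hm
  have hmpow : ∀ {a b : ℕ}, a ≤ b → (m : ℝ) ^ a ≤ (m : ℝ) ^ b := fun h =>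
    pow_le_pow_right₀ hm' h
  have hmone : ∀ a : ℕ, (1 : ℝ) ≤ (m : ℝ) ^ a := fun a => one_le_pow₀ hm'
  have hC₁' : (1 : ℝ) ≤ (C₁ : ℝ) := by exact_mod_cast hC₁
  have hC₂' : (1 : ℝ) ≤ (C₂ : ℝ) := by exact_mod_cast hC₂
  set A : ℝ := C₂ * (m : ℝ) ^ C₂ with hA
  set Γ : ℝ := C₁ * (m : ℝ) ^ (r + 2) with hΓ
  have hA1 : 1 ≤ A := by
    have := hmone C₂
    nlinarith
  have hΓ1 : 1 ≤ Γ := by
    have := hmone (r + 2)
    nlinarith
  have hA0 : 0 < A := by linarith
  have hΓ0 : 0 < Γ := by linarith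
  have hCr : (C : ℝ) = C₁ * C₂ ^ 2 + N * C₂ + C₁ + 1 + (2 * C₂ + r + 2) := by
    rw [hC]; push_cast; ring
  have hN0 : (0 : ℝ) ≤ (N : ℝ) := Nat.cast_nonneg _
  have hr0 : (0 : ℝ) ≤ (r : ℝ) := Nat.cast_nonneg _
  -- the two size estimates
  have hsize1 : D * A ≤ C * (m : ℝ) ^ C := by
    have h1 : (m : ℝ) ^ C₂ ≤ (m : ℝ) ^ C := hmpow (by omega)
    have h2 : D * C₂ ≤ (C : ℝ) := by
      rw [hCr]
      have h3 : D * C₂ ≤ N * C₂ := mul_le_mul_of_nonneg_right hDN (by linarith)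
      have h4 : (0 : ℝ) ≤ C₁ * C₂ ^ 2 := by positivity
      nlinarith
    calc D * A = (D * C₂) * (m : ℝ) ^ C₂ := by rw [hA]; ring
      _ ≤ (C : ℝ) * (m : ℝ) ^ C := mul_le_mul h2 h1 (by positivity) (by positivity)
  have hsize2 : A ^ 2 * Γ ≤ C * (m : ℝ) ^ C := by
    have h1 : (m : ℝ) ^ (2 * C₂ + r + 2) ≤ (m : ℝ) ^ C := hmpow (by omega)
    have h2 : (C₁ : ℝ) * C₂ ^ 2 ≤ (C : ℝ) := by
      rw [hCr]
      have h4 : (0 : ℝ) ≤ N * C₂ := by positivity
      nlinarith
    calc A ^ 2 * Γ = (C₁ * C₂ ^ 2) * (m : ℝ) ^ (2 * C₂ + r + 2) := by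
          rw [hA, hΓ]; ring
      _ ≤ (C : ℝ) * (m : ℝ) ^ C := mul_le_mul h2 h1 (by positivity) (by positivity)
  refine ⟨insert (1 / A) ((Finset.range Q).image (fun i => σ i / (Γ * A))), ?_, ?_, ?_⟩
  · -- cardinality
    have h1 : (insert (1 / A) ((Finset.range Q).image (fun i => σ i / (Γ * A)))).card ≤ Q + 1 := by
      refine (Finset.card_insert_le _ _).trans ?_
      have := Finset.card_image_le (s := Finset.range Q) (f := fun i => σ i / (Γ * A))
      rw [Finset.card_range] at this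
      omega
    refine h1.trans ?_
    have h2 : 1 ≤ m ^ r := Nat.one_le_pow _ _ hm
    have h3 : Q + 1 ≤ (C₁ + 1) * m ^ r := by nlinarith
    refine h3.trans (Nat.mul_le_mul ?_ (Nat.pow_le_pow_right hm ?_))
    · rw [hC]
      have : 0 ≤ C₁ * C₂ ^ 2 + N * C₂ := Nat.zero_le _
      omega
    · omega
  · intro s hs
    rw [Finset.mem_insert, Finset.mem_image] at hs
    rcases hs with rfl | ⟨i, hi, rfl⟩
    · positivity
    · have := hσpos i (Finset.mem_range.1 hi)
      positivity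
  · intro g W z u ρ hW hO
    have hρ := hO.pos
    have hW0 : W ≠ [] := by
      rintro rfl
      simp at hW
      omega
    have hρD : ρ ≤ D := (hOpt P D M hT g W z u hW0 hO.real).2 ρ hO.cl
    by_cases hcase : A * ρ ≤ 1
    · obtain ⟨q₁, ⟨i₁, hi₁, j₁, rfl⟩, q₂, ⟨i₂, hi₂, j₂, rfl⟩, q₃, ⟨i₃, hi₃, j₃, rfl⟩, hlow, hup⟩ :=
        htr m g W z u ρ hm hW hO hcase
      set χ : ℝ := |cr (dev P ((lets W).take i₂) (P.vertex j₂) - dev P ((lets W).take i₁) (P.vertex j₁))
        (dev P ((lets W).take i₃) (P.vertex j₃) - dev P ((lets W).take i₁) (P.vertex j₁))| with hχ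
      change ρ ≤ A * χ at hlow
      change χ ≤ A * ρ at hup
      have hχ0 : 0 < χ := by
        by_contra hcon
        have : A * χ ≤ 0 := mul_nonpos_of_nonneg_of_nonpos hA0.le (not_lt.1 hcon)
        linarith
      have hχ1 : χ ≤ 1 := hup.trans hcase
      have hex : ∃ j, σ j < χ := ⟨Q, by rw [hσQ]; exact hχ0⟩
      have hj := Nat.find_spec hex
      have hjQ : Nat.find hex ≤ Q := Nat.find_min' hex (by rw [hσQ]; exact hχ0)
      have hj0 : Nat.find hex ≠ 0 := by
        intro h0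
        rw [h0, hσ0] at hj
        linarith
      obtain ⟨i, hi⟩ := Nat.exists_eq_succ_of_ne_zero hj0
      have hiQ : i < Q := by omega
      have hlt : σ (i + 1) < χ := by
        have := hj
        rw [hi] at this
        exact this
      have hge : χ ≤ σ i := by
        have := Nat.find_min hex (m := i) (by omega)
        exact not_lt.1 this
      have hlen : ∀ l : ℕ, ((lets W).take l).length ≤ m := by
        intro l
        rw [List.length_take]
        have : (lets W).length = m := by rw [lets, List.length_map, hW]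
        omega
      have hg := hgap i hiQ ((lets W).take i₁) ((lets W).take i₂) ((lets W).take i₃) (hlen i₁)
        (hlen i₂) (hlen i₃) j₁ j₂ j₃
      rw [← hχ] at hg
      have hg' : σ i / Γ ≤ χ := by
        rcases hg with hg | hg
        · linarith
        · exact hg
      refine ⟨σ i / (Γ * A), ?_, ?_, ?_⟩
      · rw [Finset.mem_insert, Finset.mem_image]
        exact Or.inr ⟨i, Finset.mem_range.2 hiQ, rfl⟩
      · rw [div_le_iff₀ (by positivity)]
        rw [div_le_iff₀ hΓ0] at hg'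
        nlinarith
      · have h1 : ρ ≤ A * σ i := hlow.trans (mul_le_mul_of_nonneg_left hge hA0.le)
        have h2 : A * σ i = A ^ 2 * Γ * (σ i / (Γ * A)) := by
          field_simp
        rw [h2] at h1
        refine h1.trans (mul_le_mul_of_nonneg_right hsize2 ?_)
        have := hσpos i hiQ
        positivity
    · have hcase' : 1 < A * ρ := not_le.1 hcase
      refine ⟨1 / A, Finset.mem_insert_self _ _, ?_, ?_⟩
      · rw [div_le_iff₀ hA0]
        nlinarith
      · have h1 : D = D * A * (1 / A) := by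
          field_simp
        calc ρ ≤ D := hρD
          _ = D * A * (1 / A) := h1
          _ ≤ C * (m : ℝ) ^ C * (1 / A) :=
            mul_le_mul_of_nonneg_right hsize1 (by positivity)

end Pool.Agent.BCX
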