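import Pool.Agent.BCX.Stmts4
import Pool.Agent.BCX.FOLD
import Pool.Agent.BCX.UNIQ

/-!
# Same signs, same word (module SGN)
-/

open Set Filter Topology Metric MeasureTheory
open scoped ComplexConjugate

namespace Pool.Agent.BCX

open Pool.Agent.Billiard Pool.Agent.Lib_helper45.Bil

namespace SGNaux

variable {P : Polygon}

/-- The sign conditions of a signed word. -/
def Sg (P : Polygon) : List (SL P) → ℂ → ℂ → Prop
  | [], _, _ => True
  | c :: W, z, u => (∀ j, sd z u (P.vertex j) ≠ 0) ∧ c.1 = sgv P z u ∧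
      Sg P W (Lib_helper45.Bil.refl P c.2 z) (lrefl P c.2 u)

theorem SP_iff (W : List (SL P)) : ∀ (z u : ℂ) (t : ℝ),
    SP P z u t W ↔ Path P z u t (lets W) ∧ Sg P W z u := by
  induction W with
  | nil => intro z u t; exact ⟨fun _ => ⟨trivial, trivial⟩, fun _ => trivial⟩
  | cons c W ih =>
    intro z u t
    constructor
    · rintro ⟨h1, h2, t', ht, hU, hc, h3⟩
      obtain ⟨h4, h5⟩ := (ih _ _ _).1 h3
      exact ⟨⟨t', ht, hU, hc, h4⟩, h1, h2, h5⟩
    · rintro ⟨⟨t', ht, hU, hc, h4⟩, h1, h2, h5⟩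
      exact ⟨h1, h2, t', ht, hU, hc, (ih _ _ _).2 ⟨h4, h5⟩⟩

theorem VX_head (c : SL P) (W : List (SL P)) (j : ZMod P.k) : P.vertex j ∈ VX P (c :: W) :=
  ⟨0, by simp, j, by simp [dev]⟩

theorem VX_tail (c : SL P) (W : List (SL P)) {q : ℂ} (hq : q ∈ VX P W) :
    Lib_helper45.Bil.refl P c.2 q ∈ VX P (c :: W) := by
  obtain ⟨i, hi, j, rfl⟩ := hq
  exact ⟨i + 1, by simpa using hi, j, rfl⟩

theorem VX_cases (c : SL P) (W : List (SL P)) {q : ℂ} (hq : q ∈ VX P (c :: W)) :
    (∃ j, q = P.vertex j) ∨ ∃ q' ∈ VX P W, q = Lib_helper45.Bil.refl P c.2 q' := by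
  obtain ⟨i, hi, j, rfl⟩ := hq
  cases i with
  | zero => exact Or.inl ⟨j, by simp [dev]⟩
  | succ i =>
    right
    exact ⟨_, ⟨i, by simpa using hi, j, rfl⟩, rfl⟩

theorem Sg_same (W : List (SL P)) : ∀ (z u z' u' : ℂ), Sg P W z u →
    (∀ q ∈ VX P W, 0 < sd z u q * sd z' u' q) → Sg P W z' u' := by
  induction W with
  | nil => intro z u z' u' _ _; trivial
  | cons c W ih =>
    rintro z u z' u' ⟨h1, h2, h3⟩ h
    refine ⟨?_, ?_, ?_⟩
    · intro j h0
      have := h _ (VX_head c W j)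
      rw [h0, mul_zero] at this
      exact lt_irrefl _ this
    · rw [h2]
      funext j
      unfold sgv
      have hp := h _ (VX_head c W j)
      apply decide_eq_decide.2
      constructor
      · intro h4
        exact (pos_iff_pos_of_mul_pos hp).1 h4
      · intro h4
        exact (pos_iff_pos_of_mul_pos hp).2 h4
    · refine ih _ _ _ _ h3 ?_
      intro q hq
      have hp := h _ (VX_tail c W hq)
      rw [FOLD.sd_refl, FOLD.sd_refl, neg_mul_neg] at hp
      exact hp

theorem Sg_pos (W : List (SL P)) : ∀ (z u z' u' : ℂ), Sg P W z u → Sg P W z' u' →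
    ∀ q ∈ VX P W, 0 < sd z u q * sd z' u' q := by
  induction W with
  | nil =>
    intro z u z' u' _ _ q hq
    obtain ⟨i, hi, _⟩ := hq
    simp at hi
  | cons c W ih =>
    rintro z u z' u' ⟨h1, h2, h3⟩ ⟨h1', h2', h3'⟩ q hq
    rcases VX_cases c W hq with ⟨j, rfl⟩ | ⟨q', hq', rfl⟩
    · have h4 : sgv P z u j = sgv P z' u' j := by rw [← h2, ← h2']
      unfold sgv at h4
      have h5 := decide_eq_decide.1 h4
      rcases lt_or_gt_of_ne (h1 j) with h6 | h6
      · have h7 : sd z' u' (P.vertex j) < 0 := by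
          rcases lt_or_gt_of_ne (h1' j) with h8 | h8
          · exact h8
          · exact absurd (h5.2 h8) (not_lt.2 h6.le)
        exact mul_pos_of_neg_of_neg h6 h7
      · exact mul_pos h6 (h5.1 h6)
    · rw [FOLD.sd_refl, FOLD.sd_refl, neg_mul_neg]
      exact ih _ _ _ _ h3 h3' q' hq'

theorem Sg_unique (W : List (SL P)) : ∀ (W' : List (SL P)) (z u : ℂ), Sg P W z u → Sg P W' z u →
    lets W = lets W' → W = W' := by
  induction W with
  | nil =>
    intro W' z u _ _ h
    cases W' with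
    | nil => rfl
    | cons c' W' => simp [lets] at h
  | cons c W ih =>
    intro W' z u h h' hl
    cases W' with
    | nil => simp [lets] at hl
    | cons c' W' =>
      obtain ⟨_, h2, h3⟩ := h
      obtain ⟨_, h2', h3'⟩ := h'
      have hl' : c.2 = c'.2 ∧ lets W = lets W' := by
        simpa [lets] using hl
      have hc : c = c' := Prod.ext (by rw [h2, h2']) hl'.1
      subst hc
      rw [ih W' _ _ h3 h3' hl'.2]

theorem part1 (hLC : Stmt_LC) (g : ZMod P.k) (W : List (SL P)) (b e : ℂ) (y s y' s' : ℝ)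
    (he : ‖e‖ = 1) (hW : W ≠ []) (h : SR P g W (lz b e y) (lu e s))
    (hs : ∀ q ∈ VX P W, 0 < sd (lz b e y) (lu e s) q * sd (lz b e y') (lu e s') q) :
    SR P g W (lz b e y') (lu e s') := by
  obtain ⟨_, t, ht, hSP⟩ := h
  obtain ⟨hp, hg⟩ := (SP_iff _ _ _ _).1 hSP
  obtain ⟨t₁, h1, h2⟩ := hLC P (fun r => lz b e ((1 - r) * y + r * y'))
    (fun r => lu e ((1 - r) * s + r * s')) g (lets W) t
    (by
      intro h0
      exact hW (List.map_eq_nil_iff.1 h0))
    (by unfold lz; fun_prop) (by unfold lu; fun_prop)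
    (by
      intro r hr i hi j
      have hq : dev P ((lets W).take i) (P.vertex j) ∈ VX P W :=
        ⟨i, by simpa [lets] using hi, j, rfl⟩
      have hpos := hs _ hq
      rw [sd_mix he]
      set x := sd (lz b e y) (lu e s) (dev P ((lets W).take i) (P.vertex j))
      set x' := sd (lz b e y') (lu e s') (dev P ((lets W).take i) (P.vertex j))
      intro h0
      have hx : x ≠ 0 := by
        rintro h3
        rw [h3, zero_mul] at hpos
        exact lt_irrefl _ hpos
      have h4 : (1 - r) * (x * x) + r * (x * x') = 0 := by linear_combination x * h0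
      have h5 : 0 < x * x := mul_self_pos.2 hx
      rcases eq_or_lt_of_le hr.1 with h6 | h6
      · rw [← h6] at h4
        linarith
      · have h7 := mul_pos h6 hpos
        have h8 := mul_nonneg (sub_nonneg.2 hr.2) h5.le
        linarith)
    (by simpa using ht) (by simpa using hp)
  simp only [sub_self, zero_mul, one_mul, zero_add] at h1 h2
  exact ⟨lu_ne he s', t₁, h1, (SP_iff _ _ _ _).2 ⟨h2, Sg_same _ _ _ _ _ hg hs⟩⟩

theorem part3 (g : ZMod P.k) (W W' : List (SL P)) (z u : ℂ) (h : SR P g W z u)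
    (h' : SR P g W' z u) (hl : W.length = W'.length) : W = W' := by
  obtain ⟨_, t, ht, hSP⟩ := h
  obtain ⟨_, t', ht', hSP'⟩ := h'
  cases W with
  | nil => exact (List.eq_nil_of_length_eq_zero hl.symm).symm
  | cons c W =>
    have hne : sd z u (P.vertex g) ≠ 0 := hSP.1 g
    have htt : t = t' := UNIQaux.time_unique hne ht ht'
    subst htt
    obtain ⟨hp, hg⟩ := (SP_iff _ _ _ _).1 hSP
    obtain ⟨hp', hg'⟩ := (SP_iff _ _ _ _).1 hSP'
    exact Sg_unique _ _ _ _ hg hg' (hp.unique hp' (by simpa [lets] using hl))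

end SGNaux

/-- Same signs, same word. -/
theorem m_SGN : Stmt_LC → Stmt_SGN := by
  intro hLC P g
  refine ⟨fun W b e y s y' s' he hW h hs => SGNaux.part1 hLC g W b e y s y' s' he hW h hs, ?_,
    fun W W' z u h h' hl => SGNaux.part3 g W W' z u h h' hl⟩
  intro W z u z' u' h h' q hq
  obtain ⟨_, t, _, hSP⟩ := h
  obtain ⟨_, t', _, hSP'⟩ := h'
  exact SGNaux.Sg_pos W _ _ _ _ ((SGNaux.SP_iff _ _ _ _).1 hSP).2
    ((SGNaux.SP_iff _ _ _ _).1 hSP').2 q hq

end Pool.Agent.BCX
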