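import Pool.Agent.BCX.Stmts2

/-!
# Siegel's lemma bounds the number of scales
-/

namespace Pool.Agent.BCX

namespace SIEG

/-- Geometric decay bounds the tail. -/
lemma tail_le {q : ℝ} (y : ℕ → ℝ) (hy : ∀ i, 0 ≤ y i) (n : ℕ)
    (h : ∀ i, i + 1 < n → q * y (i + 1) ≤ y i) :
    ∀ d N i : ℕ, N ≤ n → i < N → N = i + 1 + d →
      (q - 1) * ∑ j ∈ Finset.Ico (i + 1) N, y j ≤ y i := by
  intro d
  induction d with
  | zero =>
    intro N i _ _ hN
    subst hN
    simpa using hy i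
  | succ d ih =>
    intro N i hNn hiN hN
    have h1 : i + 1 < N := by omega
    have h2 := ih N (i + 1) hNn h1 (by omega)
    rw [Finset.sum_eq_sum_Ico_succ_bot h1]
    have h3 := h i (by omega)
    nlinarith

end SIEG

attribute [local instance] Matrix.seminormedAddCommGroup Matrix.normedAddCommGroup

open SIEG in
theorem m_SIEG : Stmt_SIEG := by
  intro Δ H n t x hΔ hH hF hx hdec
  by_contra hcon
  push Not at hcon
  choose! F hFb hFx using hF
  set A : Matrix (Fin Δ) (Fin (2 * Δ)) ℤ := Matrix.of fun j i => F i j with hA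
  have hAnorm : ‖A‖ ≤ (H : ℝ) := by
    rw [Matrix.norm_le_iff (by positivity)]
    intro j i
    have h1 := hFb i (lt_of_lt_of_le i.2 hcon) j
    rw [Int.norm_eq_abs]
    have h2 : ((|F i j| : ℤ) : ℝ) ≤ (H : ℝ) := by exact_mod_cast h1
    simpa [hA] using h2
  obtain ⟨c, hc0, hcA, hcn⟩ := Int.Matrix.exists_ne_zero_int_vec_norm_le A
    (by simp only [Fintype.card_fin]; omega) (by simp only [Fintype.card_fin]; omega)
  have hΔ' : (1 : ℝ) ≤ Δ := by exact_mod_cast hΔ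
  have hH' : (1 : ℝ) ≤ H := by exact_mod_cast hH
  have hcn' : ‖c‖ ≤ 2 * Δ * H := by
    refine hcn.trans ?_
    simp only [Fintype.card_fin]
    have e1 : ((Δ : ℝ) / (((2 * Δ : ℕ) : ℝ) - Δ)) = 1 := by
      push_cast
      rw [show 2 * (Δ : ℝ) - Δ = Δ by ring]
      exact div_self (by positivity)
    rw [e1, Real.rpow_one]
    push_cast
    exact mul_le_mul_of_nonneg_left (max_le hH' hAnorm) (by positivity)
  have hci : ∀ i, |((c i : ℤ) : ℝ)| ≤ 2 * Δ * H := by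
    intro i
    have := norm_le_pi_norm c i
    rw [Int.norm_eq_abs] at this
    exact this.trans hcn'
  -- the relation
  have hrel : ∑ i : Fin (2 * Δ), ((c i : ℤ) : ℂ) * x i = 0 := by
    have h1 : ∀ i : Fin (2 * Δ), x i = ∑ j, (F i j : ℂ) * t j := fun i =>
      hFx i (lt_of_lt_of_le i.2 hcon)
    calc ∑ i : Fin (2 * Δ), ((c i : ℤ) : ℂ) * x i
        = ∑ i : Fin (2 * Δ), ((c i : ℤ) : ℂ) * ∑ j, (F i j : ℂ) * t j :=
          Finset.sum_congr rfl fun i _ => by rw [← h1 i]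
      _ = ∑ i : Fin (2 * Δ), ∑ j, ((c i : ℤ) : ℂ) * ((F i j : ℂ) * t j) :=
          Finset.sum_congr rfl fun i _ => Finset.mul_sum _ _ _
      _ = ∑ j, ∑ i : Fin (2 * Δ), ((c i : ℤ) : ℂ) * ((F i j : ℂ) * t j) := Finset.sum_comm
      _ = ∑ j, ((∑ i : Fin (2 * Δ), F i j * c i : ℤ) : ℂ) * t j := by
          apply Finset.sum_congr rfl
          intro j _
          push_cast
          rw [Finset.sum_mul]
          exact Finset.sum_congr rfl fun i _ => by ring
      _ = 0 := by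
          apply Finset.sum_eq_zero
          intro j _
          have h2 : (∑ i : Fin (2 * Δ), F i j * c i : ℤ) = 0 := by
            have := congrFun hcA j
            simpa [Matrix.mulVec, dotProduct, hA] using this
          rw [h2]
          simp
  -- the least index with a nonzero coefficient
  have hex : ∃ i : ℕ, ∃ hi : i < 2 * Δ, c ⟨i, hi⟩ ≠ 0 := by
    by_contra hne
    push Not at hne
    exact hc0 (funext fun i => hne i.1 i.2)
  classical
  obtain ⟨hi₀, hci₀⟩ := Nat.find_spec hex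
  have hmin : ∀ i < Nat.find hex, ∀ hi : i < 2 * Δ, c ⟨i, hi⟩ = 0 := by
    intro i hi hi'
    by_contra hne
    exact Nat.find_min hex hi ⟨hi', hne⟩
  set i₀ := Nat.find hex with hi₀def
  -- natural indices
  set c' : ℕ → ℤ := fun i => if hi : i < 2 * Δ then c ⟨i, hi⟩ else 0 with hc'
  have hrel' : ∑ i ∈ Finset.range (2 * Δ), ((c' i : ℤ) : ℂ) * x i = 0 := by
    rw [← Fin.sum_univ_eq_sum_range (fun i => ((c' i : ℤ) : ℂ) * x i)]
    rw [← hrel]
    apply Finset.sum_congr rfl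
    intro i _
    have : c' i = c i := by simp [hc']
    rw [this]
  have hc'b : ∀ i, |((c' i : ℤ) : ℝ)| ≤ 2 * Δ * H := by
    intro i
    by_cases hi : i < 2 * Δ
    · have : c' i = c ⟨i, hi⟩ := by simp [hc', hi]
      rw [this]
      exact hci _
    · have : c' i = 0 := by simp [hc', hi]
      rw [this]
      simp
      positivity
  have hsplit : ∑ i ∈ Finset.range (2 * Δ), ((c' i : ℤ) : ℂ) * x i
      = ((c' i₀ : ℤ) : ℂ) * x i₀ + ∑ i ∈ Finset.Ico (i₀ + 1) (2 * Δ), ((c' i : ℤ) : ℂ) * x i := by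
    rw [Finset.range_eq_Ico, ← Finset.sum_Ico_consecutive _ (Nat.zero_le i₀) hi₀.le,
      Finset.sum_eq_sum_Ico_succ_bot hi₀]
    have : ∑ i ∈ Finset.Ico 0 i₀, ((c' i : ℤ) : ℂ) * x i = 0 := by
      apply Finset.sum_eq_zero
      intro i hi
      have hi1 := (Finset.mem_Ico.1 hi).2
      have : c' i = 0 := by
        have h2 : i < 2 * Δ := by omega
        simp only [hc', h2, dif_pos]
        exact hmin i hi1 h2
      rw [this]
      simp
    rw [this, zero_add]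
  rw [hsplit] at hrel'
  have hnorm : ‖x i₀‖ ≤ 2 * Δ * H * ∑ i ∈ Finset.Ico (i₀ + 1) (2 * Δ), ‖x i‖ := by
    have h1 : ((c' i₀ : ℤ) : ℂ) * x i₀
        = -∑ i ∈ Finset.Ico (i₀ + 1) (2 * Δ), ((c' i : ℤ) : ℂ) * x i :=
      eq_neg_of_add_eq_zero_left hrel'
    have hci1 : (1 : ℝ) ≤ |((c' i₀ : ℤ) : ℝ)| := by
      have h2 : c' i₀ ≠ 0 := by
        simp only [hc', hi₀, dif_pos]
        exact hci₀
      have h3 : (1 : ℤ) ≤ |c' i₀| := Int.one_le_abs h2
      exact_mod_cast h3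
    have h4 : ‖((c' i₀ : ℤ) : ℂ) * x i₀‖ = |((c' i₀ : ℤ) : ℝ)| * ‖x i₀‖ := by
      rw [norm_mul, Complex.norm_intCast]
    calc ‖x i₀‖ = 1 * ‖x i₀‖ := (one_mul _).symm
      _ ≤ |((c' i₀ : ℤ) : ℝ)| * ‖x i₀‖ := mul_le_mul_of_nonneg_right hci1 (norm_nonneg _)
      _ = ‖∑ i ∈ Finset.Ico (i₀ + 1) (2 * Δ), ((c' i : ℤ) : ℂ) * x i‖ := by
          rw [← h4, h1, norm_neg]
      _ ≤ ∑ i ∈ Finset.Ico (i₀ + 1) (2 * Δ), ‖((c' i : ℤ) : ℂ) * x i‖ := norm_sum_le _ _
      _ ≤ ∑ i ∈ Finset.Ico (i₀ + 1) (2 * Δ), 2 * Δ * H * ‖x i‖ := by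
          apply Finset.sum_le_sum
          intro i _
          rw [norm_mul, Complex.norm_intCast]
          exact mul_le_mul_of_nonneg_right (hc'b i) (norm_nonneg _)
      _ = 2 * Δ * H * ∑ i ∈ Finset.Ico (i₀ + 1) (2 * Δ), ‖x i‖ := by rw [Finset.mul_sum]
  have hq : (1 : ℝ) < 4 * Δ * H + 2 := by
    have : (0 : ℝ) ≤ 4 * Δ * H := by positivity
    linarith
  have htail := tail_le (fun i => ‖x i‖) (fun i => norm_nonneg _) n hdec
    (2 * Δ - (i₀ + 1)) (2 * Δ) i₀ hcon hi₀ (by omega)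
  have hpos : 0 < ‖x i₀‖ := norm_pos_iff.2 (hx i₀ (lt_of_lt_of_le hi₀ hcon))
  have hS : 0 ≤ ∑ i ∈ Finset.Ico (i₀ + 1) (2 * Δ), ‖x i‖ :=
    Finset.sum_nonneg fun i _ => norm_nonneg _
  nlinarith

end Pool.Agent.BCX
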