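import Pool.Agent.BCX.Stmts4

/-!
# Part 4: sizes
-/

open Set Filter Topology Metric
open scoped ComplexConjugate

namespace Pool.Agent.BCX

open Pool.Agent.Billiard Pool.Agent.Lib_helper45.Bil

namespace SIZE

theorem SP_path (P : Polygon) : ∀ (W : List (SL P)) (z u : ℂ) (t : ℝ), SP P z u t W →
    ∃ T : ℝ, PathT P z u t (lets W) T := by
  intro W
  induction W with
  | nil => intro z u t _; exact ⟨t, rfl⟩
  | cons c W ih =>
    rintro z u t ⟨-, -, t', ht, hU, hc, h⟩
    obtain ⟨T, hT⟩ := ih _ _ _ h
    exact ⟨T, t', ht, hU, hc, hT⟩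

/-- points of a closed side are within `D` of a point which is within `D` of the vertices -/
theorem side_dist {P : Polygon} {D : ℝ} {g : ZMod P.k} {x p : ℂ} (hx : x ∈ rel P g)
    (h : ∀ j, dist p (P.vertex j) ≤ D) : dist x p ≤ D := by
  have h1 : x ∈ segment ℝ (P.vertex g) (P.vertex (g + 1)) := openSegment_subset_segment _ _ _ hx
  have h2 : segment ℝ (P.vertex g) (P.vertex (g + 1)) ⊆ closedBall p D := by
    apply (convex_closedBall p D).segment_subset
    · rw [mem_closedBall, dist_comm]; exact h g
    · rw [mem_closedBall, dist_comm]; exact h (g + 1)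
  exact h2 h1

end SIZE

open SIZE in
theorem m_SIZE : Stmt_SIZE := by
  rintro P D M ⟨hD1, hT⟩ g W z u ⟨hu, t, htg, hSP⟩
  obtain ⟨T, hpath⟩ := SP_path P W z u t hSP
  obtain ⟨s, hs0, -, hmono, hstep, hv, hgap⟩ := hT z u t T (lets W) g hu htg hpath
  have hlen : (lets W).length = W.length := by simp [lets]
  rw [hlen] at hmono hstep hv hgap
  have hD0 : 0 < D := by linarith
  have hu0 : 0 < ‖u‖ := norm_pos_iff.2 hu
  -- telescoping
  have hup : ∀ l i : ℕ, i + l ≤ W.length → ‖u‖ * (s (i + l) - s i) ≤ l * D := by
    intro l
    induction l with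
    | zero => intro i _; simp
    | succ l ih =>
      intro i hi
      have h1 := ih i (by omega)
      have h2 := hstep (i + l) (by omega)
      rw [show i + (l + 1) = i + l + 1 from rfl]
      push_cast
      nlinarith
  have hmon : ∀ l i : ℕ, i + l ≤ W.length → s i ≤ s (i + l) := by
    intro l
    induction l with
    | zero => intro i _; simp
    | succ l ih =>
      intro i hi
      exact (ih i (by omega)).trans (hmono (i + l) (by omega))
  have hpt : ∀ a b : ℝ, dist (z + a * u) (z + b * u) = ‖u‖ * |b - a| := by
    intro a b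
    rw [dist_comm, dist_eq_norm]
    have : z + b * u - (z + a * u) = ((b - a : ℝ) : ℂ) * u := by push_cast; ring
    rw [this, norm_mul, Complex.norm_real, Real.norm_eq_abs, mul_comm]
  have hdist : ∀ i i' : ℕ, i ≤ i' → i' ≤ W.length →
      dist (z + s i * u) (z + s i' * u) = ‖u‖ * (s i' - s i) ∧
        ‖u‖ * (s i' - s i) ≤ W.length * D := by
    intro i i' h h'
    obtain ⟨l, rfl⟩ := Nat.exists_eq_add_of_le h
    constructor
    · rw [hpt, abs_of_nonneg (by linarith [hmon l i h'])]
    · refine (hup l i h').trans ?_
      have : (l : ℝ) ≤ W.length := by exact_mod_cast (by omega : l ≤ W.length)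
      nlinarith
  have hVX : ∀ i < W.length, ∀ j, dist (z + s i * u) (dev P ((lets W).take i) (P.vertex j)) ≤ D :=
    fun i hi j => hv i hi.le j
  refine ⟨?_, ?_, ?_⟩
  · -- vertices
    have key : ∀ i i' : ℕ, i ≤ i' → i' < W.length → ∀ j j' : ZMod P.k,
        dist (dev P ((lets W).take i) (P.vertex j)) (dev P ((lets W).take i') (P.vertex j')) ≤
          (W.length + 2) * D := by
      intro i i' h h' j j'
      obtain ⟨h1, h2⟩ := hdist i i' h h'.le
      have h3 := hVX i (by omega) j
      have h4 := hVX i' h' j'
      calc dist (dev P ((lets W).take i) (P.vertex j)) (dev P ((lets W).take i') (P.vertex j'))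
          ≤ dist (dev P ((lets W).take i) (P.vertex j)) (z + s i * u) +
            dist (z + s i * u) (z + s i' * u) +
            dist (z + s i' * u) (dev P ((lets W).take i') (P.vertex j')) := dist_triangle4 _ _ _ _
        _ ≤ D + W.length * D + D := by
            rw [dist_comm _ (z + s i * u)]
            linarith
        _ = (W.length + 2) * D := by ring
    rintro q ⟨i, hi, j, rfl⟩ q' ⟨i', hi', j', rfl⟩
    rcases le_total i i' with h | h
    · exact key i i' h hi' j j'
    · rw [dist_comm]; exact key i' i h hi j' j
  · -- points of the gate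
    rintro x hx q ⟨i, hi, j, rfl⟩
    have h0 : dist x (z + s 0 * u) ≤ D := by
      apply side_dist hx
      intro j
      have := hv 0 (Nat.zero_le _) j
      rw [List.take_zero] at this
      exact this
    obtain ⟨h1, h2⟩ := hdist 0 i (Nat.zero_le _) hi.le
    have h3 := hVX i hi j
    calc dist x (dev P ((lets W).take i) (P.vertex j))
        ≤ dist x (z + s 0 * u) + dist (z + s 0 * u) (z + s i * u) +
          dist (z + s i * u) (dev P ((lets W).take i) (P.vertex j)) := dist_triangle4 _ _ _ _
      _ ≤ D + W.length * D + D := by linarith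
      _ = (W.length + 2) * D := by ring
  · -- number of copies
    intro i i' h h' j j'
    have hM : 1 ≤ M := by
      by_contra hM
      have hM0 : M = 0 := by omega
      have := hgap 0 0 (by omega) (Nat.zero_le _)
      simp at this
      linarith
    set d : ℝ := dist (dev P ((lets W).take i) (P.vertex j))
        (dev P ((lets W).take i') (P.vertex j')) with hd
    obtain ⟨h1, -⟩ := hdist i i' h h'.le
    have h3 := hVX i (by omega) j
    have h4 := hVX i' h' j'
    have h5 : ‖u‖ * (s i' - s i) ≤ d + 2 * D := by
      rw [← h1]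
      calc dist (z + s i * u) (z + s i' * u) ≤
          dist (z + s i * u) (dev P ((lets W).take i) (P.vertex j)) + d +
          dist (dev P ((lets W).take i') (P.vertex j')) (z + s i' * u) := dist_triangle4 _ _ _ _
        _ ≤ D + d + D := by
            rw [dist_comm _ (z + s i' * u)]
            linarith
        _ = d + 2 * D := by ring
    -- telescoping from below
    have hlow : ∀ l i : ℕ, i + l * M ≤ W.length → 5 * D * l ≤ ‖u‖ * (s (i + l * M) - s i) := by
      intro l
      induction l with
      | zero => intro i _; simp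
      | succ l ih =>
        intro i hi
        have e1 : i + (l + 1) * M = i + l * M + M := by ring
        rw [e1] at hi ⊢
        have h6 := ih i (by omega)
        have h7 := hgap (i + l * M) (i + l * M + M) le_rfl hi
        push_cast
        nlinarith
    obtain ⟨n, rfl⟩ := Nat.exists_eq_add_of_le h
    set l := n / M with hl
    have hlM : l * M ≤ n := Nat.div_mul_le_self n M
    have hnl : n < (l + 1) * M := by
      have e1 := Nat.div_add_mod n M
      have e2 := Nat.mod_lt n (by omega : 0 < M)
      rw [← hl] at e1
      nlinarith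
    have h8 := hlow l i (by omega)
    have h9 : s (i + l * M) ≤ s (i + n) := by
      have := hmon (n - l * M) (i + l * M) (by omega)
      rwa [show i + l * M + (n - l * M) = i + n by omega] at this
    have h10 : 5 * D * l ≤ d + 2 * D := by nlinarith
    have h11 : (l : ℝ) ≤ (d + 2 * D) / (5 * D) := by
      rw [le_div_iff₀ (by positivity)]
      linarith
    have h12 : ((n : ℕ) : ℝ) ≤ ((l : ℝ) + 1) * M := by exact_mod_cast hnl.le
    push_cast
    calc ((i : ℝ) + n) - i = n := by ring
      _ ≤ ((l : ℝ) + 1) * M := h12
      _ ≤ M * ((d + 2 * D) / (5 * D) + 1) := by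
          have : (0 : ℝ) ≤ M := Nat.cast_nonneg M
          nlinarith

end Pool.Agent.BCX
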