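import Pool.Agent.BCX.Stmts4
import Pool.Agent.BCX.FOLD

/-!
# `SNB`: signed words versus complexity
-/

open Set Filter Topology Metric MeasureTheory
open scoped ComplexConjugate

namespace Pool.Agent.BCX

open Pool.Agent.Billiard Pool.Agent.Lib_helper45.Bil

namespace SNB

variable {P : Polygon}

/-- initial parts of a signed word -/
theorem SP_left (V B : List (SL P)) : ∀ (z u : ℂ) (t : ℝ), SP P z u t (V ++ B) → SP P z u t V := by
  induction V with
  | nil => intro z u t _; trivial
  | cons c V ih =>
    rintro z u t ⟨h1, h2, t', ht, h3, h4, h5⟩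
    exact ⟨h1, h2, t', ht, h3, h4, ih _ _ _ h5⟩

/-- a path which misses the vertices gives a signed word -/
theorem SP_of_path : ∀ (w : List (ZMod P.k)) (z u : ℂ) (t t' : ℝ), PathT P z u t w t' →
    (∀ i < w.length, ∀ j, sd z u (dev P (w.take i) (P.vertex j)) ≠ 0) →
    ∃ W : List (SL P), lets W = w ∧ SP P z u t W := by
  intro w
  induction w with
  | nil => intro z u t t' _ _; exact ⟨[], rfl, trivial⟩
  | cons a w ih =>
    rintro z u t t' ⟨t₁, ht, h1, h2, h3⟩ hg
    have hg0 : ∀ j, sd z u (P.vertex j) ≠ 0 := by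
      intro j
      have := hg 0 (by simp) j
      rw [List.take_zero] at this
      exact this
    have hg' : ∀ i < w.length, ∀ j,
        sd (Lib_helper45.Bil.refl P a z) (lrefl P a u) (dev P (w.take i) (P.vertex j)) ≠ 0 := by
      intro i hi j hj
      have h4 := hg (i + 1) (by simpa using hi) j
      rw [List.take_succ_cons] at h4
      apply h4
      have h5 := FOLD.sd_refl a z u (dev P (w.take i) (P.vertex j))
      rw [hj, neg_zero] at h5
      exact h5
    obtain ⟨W, hW, hS⟩ := ih _ _ _ _ h3 hg'
    exact ⟨(sgv P z u, a) :: W, by simp [lets] at hW ⊢; exact hW, hg0, rfl, t₁, ht, h1, h2, hS⟩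

/-- the realised signed words -/
def RS (P : Polygon) (n : ℕ) : Set (ZMod P.k × List (SL P)) :=
  {X | X.2.length = n ∧ ∃ z u, SR P X.1 X.2 z u}

theorem SN_eq (n : ℕ) : SN P n = (RS P n).ncard := rfl

theorem all_finite (P : Polygon) (n : ℕ) :
    {X : ZMod P.k × List (SL P) | X.2.length = n}.Finite := by
  have h1 : {W : List (SL P) | W.length = n}.Finite := List.finite_length_eq (SL P) n
  refine ((Set.finite_univ (α := ZMod P.k)).prod h1).subset ?_
  rintro ⟨g, W⟩ h
  exact ⟨Set.mem_univ _, h⟩

theorem RS_finite (P : Polygon) (n : ℕ) : (RS P n).Finite :=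
  (all_finite P n).subset fun _ h => h.1

/-- a code gives a realised signed word -/
theorem exists_signed (hG : Stmt_GREP) (P : Polygon) (a : ZMod P.k) (w : List (ZMod P.k))
    (h : P.IsCode (a :: w)) : ∃ W : List (SL P), lets W = w ∧ ∃ z u, SR P a W z u := by
  obtain ⟨z, u, t, t', hu, hr, hp, hg⟩ := hG.1 P a w h
  have hg' : ∀ i < w.length, ∀ j, sd z u (dev P (w.take i) (P.vertex j)) ≠ 0 := by
    intro i hi j hj
    have h1 := hg (i + 1) (by simp; omega) j
    rw [List.take_succ_cons] at h1
    apply h1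
    show sd (Lib_helper45.Bil.refl P a z) (lrefl P a u)
      (Lib_helper45.Bil.refl P a (dev P (w.take i) (P.vertex j))) = 0
    have h2 := FOLD.sd_refl a (Lib_helper45.Bil.refl P a z) (lrefl P a u)
      (dev P (w.take i) (P.vertex j))
    rw [refl_refl, lrefl_lrefl, hj, neg_zero] at h2
    exact h2
  obtain ⟨W, hW, hS⟩ := SP_of_path w z u t t' hp hg'
  exact ⟨W, hW, z, u, hu, t, hr, hS⟩

theorem part1 (hG : Stmt_GREP) (P : Polygon) (n : ℕ) : P.complexity (n + 1) ≤ SN P n := by
  classical
  rw [SN_eq]
  unfold Polygon.complexity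
  have hch : ∀ v : List (ZMod P.k), ∃ X : ZMod P.k × List (SL P),
      v ∈ {w : List (ZMod P.k) | w.length = n + 1 ∧ P.IsCode w} →
        v = X.1 :: lets X.2 ∧ X ∈ RS P n := by
    intro v
    by_cases hv : v ∈ {w : List (ZMod P.k) | w.length = n + 1 ∧ P.IsCode w}
    · obtain ⟨h1, h2⟩ := hv
      match v, h1, h2 with
      | a :: w, h1, h2 =>
        obtain ⟨W, hW, z, u, hS⟩ := exists_signed hG P a w h2
        refine ⟨(a, W), fun _ => ⟨by rw [hW], ?_, z, u, hS⟩⟩
        have h3 : W.length = w.length := by rw [← hW]; simp [lets]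
        show W.length = n
        rw [h3]
        simpa using h1
    · exact ⟨(0, []), fun h => absurd h hv⟩
  choose f hf using hch
  refine Set.ncard_le_ncard_of_injOn f (fun v hv => (hf v hv).2) ?_ (RS_finite P n)
  intro v hv v' hv' h
  rw [(hf v hv).1, (hf v' hv').1, h]

theorem part2 (P : Polygon) : ∃ C : ℕ, ∀ n : ℕ, SN P (n + 1) ≤ C * SN P n := by
  classical
  refine ⟨Nat.card (SL P), fun n => ?_⟩
  rw [SN_eq, SN_eq]
  have hfin : (Set.univ : Set (SL P)).Finite := Set.finite_univ
  have h1 : (RS P (n + 1)).ncard ≤ ((Set.univ : Set (SL P)) ×ˢ RS P n).ncard := by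
    let f : ZMod P.k × List (SL P) → SL P × (ZMod P.k × List (SL P)) :=
      fun X => (X.2.getLastD (fun _ => true, 0), (X.1, X.2.dropLast))
    refine Set.ncard_le_ncard_of_injOn f ?_ ?_ (hfin.prod (RS_finite P n))
    · rintro ⟨g, W⟩ ⟨hl, z, u, hu, t, hr, hS⟩
      refine ⟨Set.mem_univ _, ?_, z, u, hu, t, hr, ?_⟩
      · show W.dropLast.length = n
        rw [List.length_dropLast]
        have : W.length = n + 1 := hl
        omega
      · have hne : W ≠ [] := by
          intro h0
          have : W.length = n + 1 := hl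
          rw [h0] at this
          simp at this
        have h2 : W.dropLast ++ [W.getLast hne] = W := List.dropLast_append_getLast hne
        show SP P z u t W.dropLast
        refine SP_left W.dropLast [W.getLast hne] z u t ?_
        rw [h2]; exact hS
    · rintro ⟨g, W⟩ ⟨hl, -⟩ ⟨g', W'⟩ ⟨hl', -⟩ h
      have hW : W.length = n + 1 := hl
      have hW' : W'.length = n + 1 := hl'
      have hne : W ≠ [] := by
        intro h0
        rw [h0] at hW
        simp at hW
      have hne' : W' ≠ [] := by
        intro h0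
        rw [h0] at hW'
        simp at hW'
      simp only [f, Prod.mk.injEq] at h
      obtain ⟨ha, hb, hc⟩ := h
      have h2 : W.dropLast ++ [W.getLast hne] = W := List.dropLast_append_getLast hne
      have h2' : W'.dropLast ++ [W'.getLast hne'] = W' := List.dropLast_append_getLast hne'
      have h3 : W.getLast hne = W'.getLast hne' := by
        rw [List.getLastD_eq_getLast?, List.getLastD_eq_getLast?,
          List.getLast?_eq_getLast_of_ne_nil hne, List.getLast?_eq_getLast_of_ne_nil hne'] at ha
        simpa using ha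
      rw [Prod.mk.injEq]
      refine ⟨hb, ?_⟩
      rw [← h2, ← h2', hc, h3]
  refine h1.trans (le_of_eq ?_)
  rw [Set.ncard_prod, Set.ncard_univ]

end SNB

theorem m_SNB : Stmt_GREP → Stmt_SNB := fun hG P =>
  ⟨fun n _ => SNB.part1 hG P n, SNB.part2 P, SNB.all_finite P⟩

end Pool.Agent.BCX
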