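import Pool.Agent.BCX.Stmts4
import Pool.Agent.BCX.REV

/-!
# Reversal and splitting of signed words
-/

open Set Filter Topology Metric
open scoped ComplexConjugate

namespace Pool.Agent.BCX

open Pool.Agent.Billiard Pool.Agent.Lib_helper45.Bil

namespace SPLITaux

open FOLD REV

variable {P : Polygon}

theorem neg_neg' (σ : ZMod P.k → Bool) : neg (neg σ) = σ := by
  funext j
  simp [neg]

theorem lg_append (V W : List (SL P)) : ∀ g : ZMod P.k, lg g (V ++ W) = lg (lg g V) W := by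
  induction V with
  | nil => intro g; rfl
  | cons c V ih => intro g; exact ih c.2

theorem rv_append (V W : List (SL P)) : ∀ g : ZMod P.k,
    rv g (V ++ W) = rv (lg g V) W ++ rv g V := by
  induction V with
  | nil => intro g; simp [rv, lg]
  | cons c V ih =>
    intro g
    show rv c.2 (V ++ W) ++ [(neg c.1, g)] = rv (lg c.2 V) W ++ (rv c.2 V ++ [(neg c.1, g)])
    rw [ih, List.append_assoc]

theorem rv_length (V : List (SL P)) : ∀ g : ZMod P.k, (rv g V).length = V.length := by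
  induction V with
  | nil => intro g; rfl
  | cons c V ih =>
    intro g
    show (rv c.2 V ++ [(neg c.1, g)]).length = _
    rw [List.length_append, ih]
    simp

theorem lg_rv (V : List (SL P)) : ∀ g : ZMod P.k, lg (lg g V) (rv g V) = g := by
  induction V with
  | nil => intro g; rfl
  | cons c V ih =>
    intro g
    show lg (lg c.2 V) (rv c.2 V ++ [(neg c.1, g)]) = g
    rw [lg_append]
    rfl

theorem rv_rv (V : List (SL P)) : ∀ g : ZMod P.k, rv (lg g V) (rv g V) = V := by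
  induction V with
  | nil => intro g; rfl
  | cons c V ih =>
    intro g
    show rv (lg c.2 V) (rv c.2 V ++ [(neg c.1, g)]) = c :: V
    rw [rv_append, lg_rv, ih]
    show [(neg (neg c.1), c.2)] ++ V = c :: V
    rw [neg_neg']
    rfl

theorem lrefl_neg (g : ZMod P.k) (u : ℂ) : lrefl P g (-u) = -lrefl P g u := rd_neg _ _

theorem sgv_neg {z u : ℂ} (h : ∀ j, sd z u (P.vertex j) ≠ 0) :
    sgv P z (-u) = neg (sgv P z u) := by
  funext j
  show decide (0 < sd z (-u) (P.vertex j)) = !decide (0 < sd z u (P.vertex j))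
  rw [sd_neg]
  rcases lt_or_gt_of_ne (h j) with h1 | h1
  · rw [decide_eq_true (show (0 : ℝ) < -sd z u (P.vertex j) by linarith),
      decide_eq_false (show ¬ (0 : ℝ) < sd z u (P.vertex j) by linarith)]
    rfl
  · rw [decide_eq_false (show ¬ (0 : ℝ) < -sd z u (P.vertex j) by linarith), decide_eq_true h1]
    rfl

/-- initial parts of a word -/
theorem SP_left (V B : List (SL P)) : ∀ (z u : ℂ) (t : ℝ), SP P z u t (V ++ B) → SP P z u t V := by
  induction V with
  | nil => intro z u t _; trivial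
  | cons c V ih =>
    rintro z u t ⟨h1, h2, t', ht, h3, h4, h5⟩
    exact ⟨h1, h2, t', ht, h3, h4, ih _ _ _ h5⟩

/-- the reversed segment -/
theorem SP_rev (g : ZMod P.k) (A : List (SL P)) (z u : ℂ) (t t₁ : ℝ) (ht : t < t₁)
    (hz : z + t * u ∈ rel P g) (hs : ∀ τ ∈ Ioo t t₁, z + τ * u ∈ U P)
    (hv : ∀ j, sd z u (P.vertex j) ≠ 0)
    (hA : SP P (Lib_helper45.Bil.refl P g z) (-lrefl P g u) (-t) A) :
    SP P z (-u) (-t₁) ((neg (sgv P z u), g) :: A) := by
  refine ⟨fun j => ?_, (sgv_neg hv).symm, -t, by linarith, fun τ hτ => ?_, ?_, ?_⟩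
  · rw [sd_neg]; exact neg_ne_zero.2 (hv j)
  · have h1 := hs (-τ) ⟨by linarith [hτ.2], by linarith [hτ.1]⟩
    have h2 : z + (τ : ℂ) * -u = z + ((-τ : ℝ) : ℂ) * u := by push_cast; ring
    rw [h2]; exact h1
  · have h2 : z + ((-t : ℝ) : ℂ) * -u = z + t * u := by push_cast; ring
    show z + ((-t : ℝ) : ℂ) * -u ∈ rel P g
    rw [h2]; exact hz
  · show SP P (Lib_helper45.Bil.refl P g z) (lrefl P g (-u)) (-t) A
    rw [lrefl_neg]; exact hA

theorem key (V : List (SL P)) : ∀ (B A : List (SL P)) (g : ZMod P.k) (z u : ℂ) (t : ℝ), u ≠ 0 →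
    z + t * u ∈ rel P g → SP P z u t (V ++ B) →
    SP P (Lib_helper45.Bil.refl P g z) (-lrefl P g u) (-t) A →
    ∃ t' : ℝ, foldz P (lets V) z + t' * foldu P (lets V) u ∈ rel P (lg g V) ∧
      SP P (foldz P (lets V) z) (foldu P (lets V) u) t' B ∧
      SP P (Lib_helper45.Bil.refl P (lg g V) (foldz P (lets V) z))
        (-lrefl P (lg g V) (foldu P (lets V) u)) (-t') (rv g V ++ A) := by
  induction V with
  | nil =>
    intro B A g z u t _ hz hB hA
    exact ⟨t, hz, hB, hA⟩
  | cons c V ih =>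
    rintro B A g z u t hu hz ⟨h1, h2, t₁, ht, h3, h4, h5⟩ hA
    have h6 : Lib_helper45.Bil.refl P c.2 z + t₁ * lrefl P c.2 u ∈ rel P c.2 := by
      rw [refl_line h4]; exact h4
    have h7 : SP P (Lib_helper45.Bil.refl P c.2 (Lib_helper45.Bil.refl P c.2 z))
        (-lrefl P c.2 (lrefl P c.2 u)) (-t₁) ((neg c.1, g) :: A) := by
      rw [refl_refl, lrefl_lrefl, h2]
      exact SP_rev g A z u t t₁ ht hz h3 h1 hA
    obtain ⟨t', k1, k2, k3⟩ := ih B ((neg c.1, g) :: A) c.2 _ _ t₁ (lrefl_ne_zero c.2 hu) h6 h5 h7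
    refine ⟨t', k1, k2, ?_⟩
    have h8 : rv g (c :: V) ++ A = rv c.2 V ++ (neg c.1, g) :: A := by
      show (rv c.2 V ++ [(neg c.1, g)]) ++ A = _
      rw [List.append_assoc]
      rfl
    rw [h8]
    exact k3

end SPLITaux

open SPLITaux REV FOLD

theorem m_SPLIT : Stmt_SPLIT := by
  intro P
  refine ⟨fun g V => ⟨rv_length V g, lg_rv V g, rv_rv V g⟩, ?_, ?_⟩
  · rintro g A B z u ⟨hB, hA⟩
    refine ⟨hA, ?_⟩
    rw [refl_refl, lrefl_neg, lrefl_lrefl, neg_neg]
    exact hB
  · rintro g V B z u ⟨hu, t, hz, hs⟩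
    obtain ⟨t', k1, k2, k3⟩ := key V B [] g z u t hu hz hs trivial
    have hf : foldu P (lets V) u ≠ 0 := foldu_ne _ hu
    rw [List.append_nil] at k3
    refine ⟨⟨hu, t, hz, SP_left V B z u t hs⟩, ⟨hf, t', k1, k2⟩,
      neg_ne_zero.2 (lrefl_ne_zero _ hf), -t', ?_, k3⟩
    have h2 : Lib_helper45.Bil.refl P (lg g V) (foldz P (lets V) z) +
        ((-t' : ℝ) : ℂ) * -lrefl P (lg g V) (foldu P (lets V) u) =
        Lib_helper45.Bil.refl P (lg g V) (foldz P (lets V) z) +
        t' * lrefl P (lg g V) (foldu P (lets V) u) := by push_cast; ring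
    rw [h2, refl_line k1]
    exact k1

end Pool.Agent.BCX
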