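import Pool.Agent.BCX.Stmts4

/-!
# `STEP4`: the recursion
-/

open Set Filter Topology Metric MeasureTheory
open scoped ComplexConjugate

namespace Pool.Agent.BCX

open Pool.Agent.Billiard Pool.Agent.Lib_helper45.Bil

namespace STEP4

/-- all pairs of words of length `m` with a gate -/
def Big (P : Polygon) (m : ℕ) : Set (ZMod P.k × List (SL P) × List (SL P)) :=
  {X | X.2.1.length = m ∧ X.2.2.length = m}

lemma big_finite (hN : Stmt_SNB) (P : Polygon) (m : ℕ) : (Big P m).Finite := by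
  have hf := (hN P).2.2 m
  refine ((hf.prod hf).image fun Y => (Y.1.1, Y.1.2, Y.2.2)).subset ?_
  rintro ⟨g, A, B⟩ ⟨h1, h2⟩
  exact ⟨((g, A), (g, B)), ⟨h1, h2⟩, rfl⟩

/-- the realised words of length `m` -/
def Real' (P : Polygon) (m : ℕ) : Set (ZMod P.k × List (SL P)) :=
  {X | X.2.length = m ∧ ∃ z u, SR P X.1 X.2 z u}

lemma real_finite (hN : Stmt_SNB) (P : Polygon) (m : ℕ) : (Real' P m).Finite :=
  ((hN P).2.2 m).subset fun _ h => h.1

/-- exchange of the two words -/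
def sw {P : Polygon} (X : ZMod P.k × List (SL P) × List (SL P)) :
    ZMod P.k × List (SL P) × List (SL P) := (X.1, X.2.2, X.2.1)

lemma sw_injective {P : Polygon} : Function.Injective (sw (P := P)) := by
  rintro ⟨g, A, B⟩ ⟨g', A', B'⟩ h
  simp only [sw, Prod.mk.injEq] at h
  obtain ⟨h1, h2, h3⟩ := h
  rw [h1, h2, h3]

/-- counting a set fibred over a finite set -/
lemma fibre {P : Polygon} {s : Set (ZMod P.k × List (SL P))} (hs : s.Finite)
    (S : ZMod P.k × List (SL P) → Set (List (SL P))) (hS : ∀ Y ∈ s, (S Y).Finite) {k : ℕ}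
    (hk : ∀ Y ∈ s, (S Y).ncard ≤ k) (Q : Set (ZMod P.k × List (SL P) × List (SL P)))
    (hQ : ∀ X ∈ Q, (X.1, X.2.1) ∈ s ∧ X.2.2 ∈ S (X.1, X.2.1)) : Q.ncard ≤ s.ncard * k := by
  classical
  have h0 : ∀ Y : ZMod P.k × List (SL P), (S Y ∩ {_B | Y ∈ s}).Finite := by
    intro Y
    by_cases h : Y ∈ s
    · exact (hS Y h).subset Set.inter_subset_left
    · refine Set.Finite.subset Set.finite_empty ?_
      rintro B ⟨-, hB⟩
      exact absurd hB h
  let T : Finset (ZMod P.k × List (SL P) × List (SL P)) :=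
    hs.toFinset.biUnion fun Y => (h0 Y).toFinset.image fun B => (Y.1, Y.2, B)
  have hT : T.card ≤ s.ncard * k := by
    rw [Set.ncard_eq_toFinset_card s hs]
    refine Finset.card_biUnion_le_card_mul _ _ _ fun Y hY => ?_
    rw [Set.Finite.mem_toFinset] at hY
    refine Finset.card_image_le.trans ?_
    refine le_trans ?_ (hk Y hY)
    rw [Set.ncard_eq_toFinset_card (S Y) (hS Y hY)]
    refine Finset.card_le_card fun B hB => ?_
    rw [Set.Finite.mem_toFinset] at hB ⊢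
    exact hB.1
  refine le_trans ?_ hT
  rw [← Set.ncard_coe_finset]
  refine Set.ncard_le_ncard ?_ (Finset.finite_toSet T)
  rintro ⟨g, A, B⟩ hX
  obtain ⟨h1, h2⟩ := hQ _ hX
  simp only [T, Finset.coe_biUnion, Set.mem_iUnion]
  refine ⟨(g, A), ?_, ?_⟩
  · rw [Finset.mem_coe, Set.Finite.mem_toFinset]
    exact h1
  · rw [Finset.coe_image]
    refine ⟨B, ?_, rfl⟩
    rw [Finset.mem_coe, Set.Finite.mem_toFinset]
    exact ⟨h2, h1⟩

/-- choice of the optimal lines -/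
lemma choose_opt (hO : Stmt_OPT) {P : Polygon} {D : ℝ} {M : ℕ} (hT : TimesOK P D M) :
    ∃ f : ZMod P.k × List (SL P) → ℂ × ℂ × ℝ, ∀ Y : ZMod P.k × List (SL P), Y.2 ≠ [] →
      (∃ z u, SR P Y.1 Y.2 z u) → Opt P Y.1 Y.2 (f Y).1 (f Y).2.1 (f Y).2.2 := by
  classical
  have h : ∀ Y : ZMod P.k × List (SL P), ∃ t : ℂ × ℂ × ℝ, Y.2 ≠ [] →
      (∃ z u, SR P Y.1 Y.2 z u) → Opt P Y.1 Y.2 t.1 t.2.1 t.2.2 := by
    intro Y
    by_cases h1 : Y.2 ≠ [] ∧ ∃ z u, SR P Y.1 Y.2 z u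
    · obtain ⟨h2, z, u, h3⟩ := h1
      obtain ⟨⟨z', u', ρ, h4⟩, -⟩ := hO P D M hT Y.1 Y.2 z u h2 h3
      exact ⟨(z', u', ρ), fun _ _ => h4⟩
    · exact ⟨(0, 0, 0), fun h2 h3 => absurd ⟨h2, h3⟩ h1⟩
  choose f hf using h
  exact ⟨f, hf⟩

end STEP4

open STEP4 in
theorem m_STEP4 : Stmt_TIMES → Stmt_OPT → Stmt_POOR → Stmt_RICH → Stmt_FATC → Stmt_SPLIT →
    Stmt_SNB → Stmt_PAIR → Stmt_STEP4 := by
  intro hTI hO hPO hRI hFA hSP hN hPA P
  classical
  obtain ⟨D, M, hT⟩ := hTI P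
  obtain ⟨K, hK1, hPO⟩ := hPO P D M hT
  obtain ⟨C₁, hC1, hRI⟩ := hRI P D M hT K
  obtain ⟨C₂, hFA⟩ := hFA P D M hT C₁
  obtain ⟨f, hf⟩ := choose_opt hO hT
  refine ⟨C₂ ^ 2 + 2 * C₂ + 4 * C₁ ^ 2 + C₁ + 1 + 3 * K, ?_⟩
  intro m a hm ha ham
  have hmK : K ≤ m := le_trans (by nlinarith) hm
  have hmC : C₁ ≤ m := le_trans (by nlinarith) hm
  have hm1 : 1 ≤ m := hC1.trans hmC
  have ha1 : 1 ≤ a := le_trans (by nlinarith) ha
  have hbig := big_finite hN P m
  have hreal := real_finite hN P m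
  set ρ₀ : ℝ := 1 / (C₁ * (m : ℝ) ^ C₁) with hρ₀
  have hCm : (0 : ℝ) < C₁ * (m : ℝ) ^ C₁ := by
    have : (0 : ℝ) < C₁ := by exact_mod_cast hC1
    have : (0 : ℝ) < m := by exact_mod_cast hm1
    positivity
  obtain ⟨hFf, hFc⟩ := hFA m hm1 ρ₀ (by
    rw [hρ₀, mul_one_div, div_self hCm.ne'])
  -- the five sets
  let ra : ZMod P.k × List (SL P) × List (SL P) → ℝ := fun X => (f (X.1, X.2.1)).2.2
  let rb : ZMod P.k × List (SL P) × List (SL P) → ℝ := fun X => (f (X.1, X.2.2)).2.2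
  let Sa : Set (ZMod P.k × List (SL P) × List (SL P)) :=
    {X | X ∈ Big P m ∧ (X.1, X.2.1) ∈ Fat P ρ₀ m ∧ (X.1, X.2.2) ∈ Fat P ρ₀ m}
  let Sb : Set (ZMod P.k × List (SL P) × List (SL P)) :=
    {X | X.2.1.length = m ∧ X.2.2.length = m ∧
      ∃ (z u zA uA zB uB : ℂ) (ρA ρB : ℝ), TS P X.1 X.2.1 X.2.2 z u ∧ Opt P X.1 X.2.1 zA uA ρA ∧
        Opt P X.1 X.2.2 zB uB ρB ∧ C₁ * (m : ℝ) ^ C₁ * min ρA ρB ≤ 1 ∧
        Tight P X.2.2 z u (K * m * min ρA ρB) (K * m / a)}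
  let Sc : Set (ZMod P.k × List (SL P) × List (SL P)) := {X | sw X ∈ Sb}
  let Sp : ZMod P.k × List (SL P) → Set (List (SL P)) := fun Y =>
    {B : List (SL P) | B.length = m ∧ ∃ (z u zB uB : ℂ) (ρB : ℝ), TS P Y.1 Y.2 B z u ∧
      Opt P Y.1 B zB uB ρB ∧ (f Y).2.2 ≤ ρB ∧
      ¬ Tight P Y.2 (Lib_helper45.Bil.refl P Y.1 z) (-lrefl P Y.1 u) (K * m * (f Y).2.2)
        (K * m / a) ∧
      ¬ Tight P B z u (K * m * (f Y).2.2) (K * m / a)}
  let Sd : Set (ZMod P.k × List (SL P) × List (SL P)) :=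
    {X | X ∈ Big P m ∧ (X.1, X.2.1) ∈ Real' P m ∧ X.2.2 ∈ Sp (X.1, X.2.1)}
  let Se : Set (ZMod P.k × List (SL P) × List (SL P)) := {X | sw X ∈ Sd}
  have hsub : {X : ZMod P.k × List (SL P) × List (SL P) | X.2.1.length = m ∧ X.2.2.length = m ∧
      ∃ z u, TS P X.1 X.2.1 X.2.2 z u} ⊆ Sa ∪ (Sb ∪ (Sc ∪ (Sd ∪ Se))) := by
    rintro ⟨g, A, B⟩ ⟨hA, hB, z, u, hTS⟩
    simp only at hA hB hTS
    have hA0 : A ≠ [] := by
      rintro rfl
      rw [List.length_nil] at hA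
      omega
    have hB0 : B ≠ [] := by
      rintro rfl
      rw [List.length_nil] at hB
      omega
    have hTS' := (hSP P).2.1 g A B z u hTS
    have oA := hf (g, A) hA0 ⟨_, _, hTS.2⟩
    have oB := hf (g, B) hB0 ⟨_, _, hTS.1⟩
    simp only at oA oB
    by_cases h1 : 1 < C₁ * (m : ℝ) ^ C₁ * min (f (g, A)).2.2 (f (g, B)).2.2
    · left
      have h2 : ρ₀ ≤ min (f (g, A)).2.2 (f (g, B)).2.2 := by
        rw [hρ₀, div_le_iff₀ hCm, mul_comm]
        exact h1.le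
      refine ⟨⟨hA, hB⟩, ⟨hA, _, _, oA.real, fun q hq => ?_⟩, ⟨hB, _, _, oB.real, fun q hq => ?_⟩⟩
      · exact (h2.trans (min_le_left _ _)).trans (oA.cl q hq)
      · exact (h2.trans (min_le_right _ _)).trans (oB.cl q hq)
    · rw [not_lt] at h1
      right
      by_cases h2 : Tight P B z u (K * m * min (f (g, A)).2.2 (f (g, B)).2.2) (K * m / a)
      · left
        exact ⟨hA, hB, z, u, _, _, _, _, _, _, hTS, oA, oB, h1, h2⟩
      right
      by_cases h3 : Tight P A (Lib_helper45.Bil.refl P g z) (-lrefl P g u)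
          (K * m * min (f (g, A)).2.2 (f (g, B)).2.2) (K * m / a)
      · left
        refine ⟨hB, hA, _, _, _, _, _, _, _, _, hTS', oB, oA, ?_, ?_⟩
        · rw [min_comm]
          exact h1
        · rw [min_comm]
          exact h3
      right
      rcases le_total (f (g, A)).2.2 (f (g, B)).2.2 with h4 | h4
      · left
        rw [min_eq_left h4] at h2 h3
        exact ⟨⟨hA, hB⟩, ⟨hA, _, _, hTS.2⟩, hB, z, u, _, _, _, hTS, oB, h4, h3, h2⟩
      · right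
        rw [min_eq_right h4] at h2 h3
        refine ⟨⟨hB, hA⟩, ⟨hB, _, _, hTS.1⟩, hA, _, _, _, _, _, hTS', oA, h4, ?_, h3⟩
        have hrr : Lib_helper45.Bil.refl P g (Lib_helper45.Bil.refl P g z) = z := Lib_helper45.Bil.refl_refl g z
        have hll : -lrefl P g (-lrefl P g u) = u := by
          have h5 : lrefl P g (-lrefl P g u) = -lrefl P g (lrefl P g u) := by
            unfold lrefl
            unfold reflectDir
            rw [map_neg, mul_neg, neg_div]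
          rw [h5, lrefl_lrefl, neg_neg]
        simp only [sw]
        rw [hrr, hll]
        exact h2
  have hfin : (Sa ∪ (Sb ∪ (Sc ∪ (Sd ∪ Se)))).Finite := by
    have hswap : ∀ X : ZMod P.k × List (SL P) × List (SL P), sw X ∈ Big P m → X ∈ Big P m :=
      fun X h => ⟨h.2, h.1⟩
    refine hbig.subset ?_
    rintro X (h | h | h | h | h)
    · exact h.1
    · exact ⟨h.1, h.2.1⟩
    · exact hswap X ⟨h.1, h.2.1⟩
    · exact h.1
    · exact hswap X h.1
  have hSbf : Sb.Finite := hbig.subset fun X h => ⟨h.1, h.2.1⟩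
  have hSdf : Sd.Finite := hbig.subset fun X h => h.1
  have ha' : Sa.ncard ≤ (C₂ * m ^ C₂) ^ 2 := by
    have h1 : Sa.ncard ≤ (Fat P ρ₀ m ×ˢ Fat P ρ₀ m).ncard := by
      refine Set.ncard_le_ncard_of_injOn (fun X => ((X.1, X.2.1), (X.1, X.2.2))) ?_ ?_
        (hFf.prod hFf)
      · rintro X ⟨-, h2, h3⟩
        exact ⟨h2, h3⟩
      · rintro ⟨g, A, B⟩ - ⟨g', A', B'⟩ - h
        simp only [Prod.mk.injEq] at h
        obtain ⟨⟨h1, h2⟩, -, h3⟩ := h
        rw [h1, h2, h3]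
    rw [Set.ncard_prod] at h1
    refine h1.trans ?_
    rw [sq]
    exact Nat.mul_le_mul hFc hFc
  have hb' : Sb.ncard ≤ C₁ * m ^ C₁ * ∑ n ∈ Finset.range (C₁ * m / a + 1), SN P n :=
    hRI m a hmC ha1 ham
  have hc' : Sc.ncard ≤ C₁ * m ^ C₁ * ∑ n ∈ Finset.range (C₁ * m / a + 1), SN P n := by
    refine le_trans ?_ hb'
    exact Set.ncard_le_ncard_of_injOn sw (fun X h => h) (sw_injective.injOn) hSbf
  have hd' : Sd.ncard ≤ SN P m * (K * a ^ K) := by
    have h1 : SN P m = (Real' P m).ncard := rfl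
    rw [h1]
    refine fibre hreal Sp ?_ ?_ Sd fun X h => ⟨h.2.1, h.2.2⟩
    · intro Y _
      refine ((((hN P).2.2 m).image Prod.snd)).subset ?_
      rintro B ⟨h2, -⟩
      exact ⟨(Y.1, B), h2, rfl⟩
    · rintro ⟨g, A⟩ ⟨h2, h3⟩
      simp only at h2 h3
      have hA0 : A ≠ [] := by
        rintro rfl
        rw [List.length_nil] at h2
        omega
      have oA := hf (g, A) hA0 h3
      exact hPO m a hmK ha1 ham g A _ _ _ h2 oA
  have he' : Se.ncard ≤ SN P m * (K * a ^ K) := by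
    refine le_trans ?_ hd'
    exact Set.ncard_le_ncard_of_injOn sw (fun X h => h) (sw_injective.injOn) hSdf
  -- the maximiser
  obtain ⟨ν, hν, hνm⟩ := Finset.exists_max_image (Finset.range (C₁ * m / a + 1)) (SN P)
    ⟨0, Finset.mem_range.2 (Nat.succ_pos _)⟩
  have hνa : ν * a ≤ C₁ * m := by
    rw [Finset.mem_range, Nat.lt_succ_iff] at hν
    exact (Nat.mul_le_mul_right a hν).trans (Nat.div_mul_le_self _ _)
  have hsum : ∑ n ∈ Finset.range (C₁ * m / a + 1), SN P n ≤ (2 * (C₁ * m)) * SN P ν := by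
    refine (Finset.sum_le_card_nsmul _ _ _ hνm).trans ?_
    rw [Finset.card_range, smul_eq_mul]
    refine Nat.mul_le_mul_right _ ?_
    have h1 : C₁ * m / a ≤ C₁ * m := Nat.div_le_self _ _
    have h2 : 1 ≤ C₁ * m := Nat.mul_pos hC1 hm1
    omega
  have hall : SN P (2 * m) ≤ (C₂ * m ^ C₂) ^ 2 +
      (C₁ * m ^ C₁ * (2 * (C₁ * m) * SN P ν) + (C₁ * m ^ C₁ * (2 * (C₁ * m) * SN P ν) +
      (SN P m * (K * a ^ K) + SN P m * (K * a ^ K)))) := by
    refine (hPA P m hm1).trans ?_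
    refine (Set.ncard_le_ncard hsub hfin).trans ?_
    refine (Set.ncard_union_le _ _).trans (Nat.add_le_add ha' ?_)
    refine (Set.ncard_union_le _ _).trans (Nat.add_le_add (hb'.trans (Nat.mul_le_mul_left _ hsum)) ?_)
    refine (Set.ncard_union_le _ _).trans (Nat.add_le_add (hc'.trans (Nat.mul_le_mul_left _ hsum)) ?_)
    exact (Set.ncard_union_le _ _).trans (Nat.add_le_add hd' he')
  set C : ℕ := C₂ ^ 2 + 2 * C₂ + 4 * C₁ ^ 2 + C₁ + 1 + 3 * K with hC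
  refine ⟨ν, ?_, ?_⟩
  · refine hνa.trans (Nat.mul_le_mul_right _ ?_)
    rw [hC]
    nlinarith
  · refine hall.trans ?_
    have e1 : (C₂ * m ^ C₂) ^ 2 ≤ C * m ^ C := by
      have h1 : (C₂ * m ^ C₂) ^ 2 = C₂ ^ 2 * m ^ (2 * C₂) := by
        rw [mul_pow, ← pow_mul, mul_comm C₂ 2]
      rw [h1]
      refine Nat.mul_le_mul ?_ (Nat.pow_le_pow_right hm1 ?_)
      · rw [hC]; nlinarith
      · rw [hC]; nlinarith
    have e2 : C₁ * m ^ C₁ * (2 * (C₁ * m) * SN P ν) + C₁ * m ^ C₁ * (2 * (C₁ * m) * SN P ν) ≤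
        C * m ^ C * SN P ν := by
      have h1 : C₁ * m ^ C₁ * (2 * (C₁ * m) * SN P ν) + C₁ * m ^ C₁ * (2 * (C₁ * m) * SN P ν) =
          4 * C₁ ^ 2 * m ^ (C₁ + 1) * SN P ν := by
        rw [pow_succ]
        ring
      rw [h1]
      refine Nat.mul_le_mul_right _ (Nat.mul_le_mul ?_ (Nat.pow_le_pow_right hm1 ?_))
      · rw [hC]; nlinarith
      · rw [hC]; nlinarith
    have e3 : SN P m * (K * a ^ K) + SN P m * (K * a ^ K) ≤ C * a ^ C * SN P m := by
      have h1 : SN P m * (K * a ^ K) + SN P m * (K * a ^ K) = 2 * K * a ^ K * SN P m := by ring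
      rw [h1]
      refine Nat.mul_le_mul_right _ (Nat.mul_le_mul ?_ (Nat.pow_le_pow_right ha1 ?_))
      · rw [hC]; nlinarith
      · rw [hC]; nlinarith
    calc _ = (C₂ * m ^ C₂) ^ 2 + (C₁ * m ^ C₁ * (2 * (C₁ * m) * SN P ν) +
          C₁ * m ^ C₁ * (2 * (C₁ * m) * SN P ν)) +
          (SN P m * (K * a ^ K) + SN P m * (K * a ^ K)) := by ring
      _ ≤ C * m ^ C + C * m ^ C * SN P ν + C * a ^ C * SN P m :=
          Nat.add_le_add (Nat.add_le_add e1 e2) e3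
      _ = _ := by ring

end Pool.Agent.BCX
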