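import Pool.Agent.BCX.Stmts4
import Pool.Agent.BCX.Base

/-!
# The cross product of three vertices gives the scale of an optimal line
-/

open Set Filter Topology Metric MeasureTheory
open scoped ComplexConjugate

namespace Pool.Agent.BCX

open Pool.Agent.Billiard Pool.Agent.Lib_helper45.Bil

namespace M_TRIP

theorem cr_coord {e : ℂ} (he : ‖e‖ = 1) (b q₁ q₂ q₃ : ℂ) :
    cr (q₂ - q₁) (q₃ - q₁) =
      (hc b e q₂ - hc b e q₁) * (tc b e q₃ - tc b e q₁) -
      (tc b e q₂ - tc b e q₁) * (hc b e q₃ - hc b e q₁) := by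
  have h2 := mul_conj_one he
  have key : (q₂ - q₁) * conj (q₃ - q₁) =
      ((q₂ - b) * conj e - (q₁ - b) * conj e) * conj ((q₃ - b) * conj e - (q₁ - b) * conj e) := by
    simp only [map_sub, map_mul, Complex.conj_conj]
    linear_combination (-(q₂ - q₁) * (conj q₃ - conj q₁)) * h2
  unfold cr hc tc
  rw [key, Complex.mul_im, Complex.conj_re, Complex.conj_im]
  simp only [Complex.sub_re, Complex.sub_im]
  ring

end M_TRIP

theorem m_TRIP : Stmt_PTRIP → Stmt_GAP0 → Stmt_WID → Stmt_SGN → Stmt_VXL → Stmt_SIZE →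
    Stmt_TRIP := by
  intro hPT hGAP hWID hSGN hVXL hSIZE P D M hT
  obtain ⟨c, hc0, hc1, hgap⟩ := hGAP P D M hT
  obtain ⟨K, hK1, hwid⟩ := hWID P D M hT
  have hD1 : 1 ≤ D := hT.1
  have hK1' : (1 : ℝ) ≤ K := by exact_mod_cast hK1
  obtain ⟨C, hC⟩ := exists_nat_ge (64000 * K * D ^ 3 / c)
  have hbig : 1 ≤ K * D ^ 3 / c := by
    rw [le_div_iff₀ hc0]
    have h3 : (1 : ℝ) ≤ D ^ 3 := one_le_pow₀ hD1
    nlinarith
  have hCbig : (64000 : ℝ) ≤ C := by
    have : 64000 * K * D ^ 3 / c = 64000 * (K * D ^ 3 / c) := by ring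
    rw [this] at hC
    linarith
  have hC3 : 3 ≤ C := by
    have : (3 : ℝ) ≤ C := by linarith
    exact_mod_cast this
  refine ⟨C, by omega, ?_⟩
  intro m g W z u ρ hm hlen hopt hsmall
  have hm1 : (1 : ℝ) ≤ m := by exact_mod_cast hm
  have hu : ‖u‖ = 1 := hopt.unit
  have hρ := hopt.pos
  obtain ⟨hfin, -, -, -, -, hld⟩ := hVXL P
  obtain ⟨hs1, -, -⟩ := hSGN P g
  obtain ⟨-, hsz, -⟩ := hSIZE P D M hT g W z u hopt.real
  have hWne : W ≠ [] := by
    intro h
    rw [h] at hlen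
    simp at hlen
    omega
  have hz0 : lz z u 0 = z := by simp [lz]
  have hu0 : lu u 0 = u := by simp [lu]
  have hsr0 : SR P g W (lz z u 0) (lu u 0) := by rw [hz0, hu0]; exact hopt.real
  have hhc : ∀ q, hc z u q = sd z u q := fun q => rfl
  have hmC : (m : ℝ) ^ 3 ≤ (m : ℝ) ^ C := pow_le_pow_right₀ hm1 hC3
  have hmC1 : (1 : ℝ) ≤ (m : ℝ) ^ C := one_le_pow₀ hm1
  have hRdef : ((m : ℝ) + 3) * D ≤ 4 * m * D := by nlinarith
  have hR1 : 1 ≤ ((m : ℝ) + 3) * D := by nlinarith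
  set R : ℝ := ((m : ℝ) + 3) * D with hR
  have hR0 : 0 < R := by linarith
  -- times are bounded
  have htc : ∀ q ∈ VX P W, |tc z u q| ≤ R := by
    intro q hq
    have h1 := hsz z hopt.start q hq
    have h2 := abs_tc_sub_le (b := z) hu q z
    have h3 : tc z u z = 0 := by simp [tc]
    rw [h3, sub_zero, dist_comm] at h2
    rw [hlen] at h1
    have : ((m : ℝ) + 2) * D ≤ R := by rw [hR]; nlinarith
    linarith
  have hTB : TB P R z u W := htc
  -- the scale
  have hX : 300 * (K * R * ρ) * R ≤ c := by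
    have h1 : R ^ 2 ≤ 16 * m ^ 3 * D ^ 3 := by
      have : R ^ 2 ≤ (4 * m * D) ^ 2 := pow_le_pow_left₀ hR0.le hRdef 2
      have h5 : (4 * (m : ℝ) * D) ^ 2 ≤ 16 * m ^ 3 * D ^ 3 := by
        have e1 : (4 * (m : ℝ) * D) ^ 2 = 16 * (m ^ 2 * D ^ 2) := by ring
        have e2 : 16 * (m : ℝ) ^ 3 * D ^ 3 = 16 * (m ^ 2 * D ^ 2) * (m * D) := by ring
        rw [e1, e2]
        have : 1 ≤ (m : ℝ) * D := by nlinarith
        have : 0 ≤ 16 * ((m : ℝ) ^ 2 * D ^ 2) := by positivity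
        nlinarith
      linarith
    have h2 : 300 * (K * R * ρ) * R = 300 * K * R ^ 2 * ρ := by ring
    have h3 : 300 * K * R ^ 2 * ρ ≤ 300 * K * (16 * m ^ 3 * D ^ 3) * ρ := by gcongr
    have h4 : 64000 * K * D ^ 3 ≤ C * c := by
      rwa [div_le_iff₀ hc0] at hC
    have h6 : 300 * K * (16 * m ^ 3 * D ^ 3) * ρ ≤ (64000 * K * D ^ 3) * (m ^ 3 * ρ) := by
      have : 0 ≤ (K : ℝ) * D ^ 3 * (m ^ 3 * ρ) := by positivity
      nlinarith
    have h7 : (64000 * K * D ^ 3) * (m ^ 3 * ρ) ≤ (C * c) * (m ^ 3 * ρ) := by gcongr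
    have h8 : (C * c) * (m ^ 3 * ρ) ≤ c * (C * (m : ℝ) ^ C * ρ) := by
      have : (m : ℝ) ^ 3 * ρ ≤ (m : ℝ) ^ C * ρ := by gcongr
      have h9 : (C * c) * (m ^ 3 * ρ) ≤ (C * c) * ((m : ℝ) ^ C * ρ) := by gcongr
      linarith
    have h10 : c * (C * (m : ℝ) ^ C * ρ) ≤ c := by nlinarith
    linarith
  have hX0 : 0 < K * R * ρ := by positivity
  have hXR : K * R * ρ ≤ 300 * (K * R * ρ) * R := by nlinarith
  have hX1 : K * R * ρ ≤ 1 := by linarith
  have hρX : ρ ≤ K * R * ρ := by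
    have : 1 ≤ K * R := by nlinarith
    nlinarith
  have hsdp : ∀ (y s : ℝ) (q : ℂ), Ap y s (tc z u q, hc z u q) = sd (lz z u y) (lu u s) q := by
    intro y s q
    rw [sd_frame hu]; rfl
  have hsd0 : ∀ q, sd (lz z u 0) (lu u 0) q = hc z u q := by
    intro q; rw [hz0, hu0]; rfl
  -- realisation by lines with the same signs
  have hreal : ∀ y s : ℝ,
      (∀ p ∈ (fun q => (tc z u q, hc z u q)) '' VX P W, 0 < p.2 * Ap y s p) →
      SR P g W (lz z u y) (lu u s) := by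
    intro y s hp
    refine hs1 W z u 0 0 y s hu hWne hsr0 ?_
    intro q hq
    have := hp _ ⟨q, hq, rfl⟩
    rw [hsdp] at this
    rw [hsd0]
    exact this
  obtain ⟨p₁, ⟨q₁, hq₁, rfl⟩, p₂, ⟨q₂, hq₂, rfl⟩, p₃, ⟨q₃, hq₃, rfl⟩, hlo, hup⟩ :=
    hPT ((fun q => (tc z u q, hc z u q)) '' VX P W) R c (K * R * ρ) ρ hR1 hc0 hc1 hρ hρX hX
      (by
        rintro p ⟨q, hq, rfl⟩
        exact htc q hq)
      (by
        rintro p ⟨q, hq, rfl⟩
        have h1 := hopt.cl q hq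
        unfold ld at h1
        rw [hu, div_one] at h1
        exact h1)
      (by
        rintro p ⟨q, hq, rfl⟩ p' ⟨q', hq', rfl⟩ hne h1 h2
        have hqne : q ≠ q' := by
          rintro rfl; exact hne rfl
        exact hgap g W z u 0 0 hu (by simp) hsr0 q hq q' hq' hqne
          (by rw [hsd0]; exact h1) (by rw [hsd0]; exact h2))
      (by
        intro y s hs hys hp
        have h1 := hwid g W z u z u R y s 0 0 ρ hWne hu hR1 hs (by simp) hTB hopt (hreal y s hp)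
          hsr0 (by simp only [sub_zero]; linarith)
        simpa using h1)
      (by
        intro y s hs hp
        by_contra hcon
        push Not at hcon
        have hr := hreal y s hp
        have hne : (VX P W).Nonempty := by
          refine ⟨dev P ((lets W).take 0) (P.vertex 0), 0, by omega, 0, rfl⟩
        obtain ⟨q0, hq0, hmin⟩ := Set.exists_min_image (VX P W)
          (fun q => ld (lz z u y) (lu u s) q) (hfin W) hne
        have h1 : ld (lz z u y) (lu u s) q0 ≤ 2 * ρ :=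
          hopt.max _ _ _ hr (fun q hq => hmin q hq)
        have h2 := (hld z u q0 s hu hs)
        have h3 := hcon _ ⟨q0, hq0, rfl⟩
        rw [hsdp] at h3
        -- `|sd| ≤ 2 ld`
        have h4 : |sd (lz z u y) (lu u s) q0| ≤ 2 * ld (lz z u y) (lu u s) q0 :=
          (hld (lz z u y) u q0 s hu hs).2
        linarith)
  refine ⟨q₁, hq₁, q₂, hq₂, q₃, hq₃, ?_, ?_⟩
  · rw [M_TRIP.cr_coord hu z]
    have h1 : ρ ≤ 16 / c * |(hc z u q₂ - hc z u q₁) * (tc z u q₃ - tc z u q₁) -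
        (tc z u q₂ - tc z u q₁) * (hc z u q₃ - hc z u q₁)| := by
      rw [div_mul_eq_mul_div, le_div_iff₀ hc0]
      have := hlo
      simp only at this
      linarith
    have h2 : 16 / c ≤ C * (m : ℝ) ^ C := by
      have h3 : 16 / c ≤ C := by
        have : 16 / c ≤ 64000 * K * D ^ 3 / c := by
          apply div_le_div_of_nonneg_right _ hc0.le
          have : (1 : ℝ) ≤ K * D ^ 3 := by
            have h3 : (1 : ℝ) ≤ D ^ 3 := one_le_pow₀ hD1
            nlinarith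
          nlinarith
        linarith
      have hC0 : (0 : ℝ) ≤ C := by linarith
      nlinarith
    have h3 : 16 / c * |(hc z u q₂ - hc z u q₁) * (tc z u q₃ - tc z u q₁) -
        (tc z u q₂ - tc z u q₁) * (hc z u q₃ - hc z u q₁)| ≤ C * (m : ℝ) ^ C *
        |(hc z u q₂ - hc z u q₁) * (tc z u q₃ - tc z u q₁) -
        (tc z u q₂ - tc z u q₁) * (hc z u q₃ - hc z u q₁)| := by gcongr
    linarith
  · rw [M_TRIP.cr_coord hu z]
    refine le_trans hup ?_
    have h1 : R ^ 3 ≤ 64 * m ^ 3 * D ^ 3 := by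
      have : R ^ 3 ≤ (4 * m * D) ^ 3 := pow_le_pow_left₀ hR0.le hRdef 3
      have e : (4 * (m : ℝ) * D) ^ 3 = 64 * m ^ 3 * D ^ 3 := by ring
      linarith
    have h2 : 1000 * R ^ 2 * (K * R * ρ) / c = 1000 * K * R ^ 3 / c * ρ := by ring
    rw [h2]
    have h3 : 1000 * K * R ^ 3 / c ≤ 64000 * K * D ^ 3 / c * m ^ 3 := by
      rw [div_mul_eq_mul_div]
      apply div_le_div_of_nonneg_right _ hc0.le
      have : 1000 * K * R ^ 3 ≤ 1000 * K * (64 * m ^ 3 * D ^ 3) := by gcongr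
      linarith
    have h4 : 64000 * K * D ^ 3 / c * m ^ 3 ≤ C * (m : ℝ) ^ C := by
      have h5 : 64000 * K * D ^ 3 / c * (m : ℝ) ^ 3 ≤ C * (m : ℝ) ^ 3 := by gcongr
      have hC0 : (0 : ℝ) ≤ C := by linarith
      have h6 : C * (m : ℝ) ^ 3 ≤ C * (m : ℝ) ^ C := by gcongr
      linarith
    have : 1000 * K * R ^ 3 / c * ρ ≤ C * (m : ℝ) ^ C * ρ := by
      have := le_trans h3 h4
      gcongr
    exact this

end Pool.Agent.BCX
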