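import Pool.Agent.BCX.Stmts4
import Pool.Agent.BCX.Base
import Pool.Agent.BCX.FOLD
import Pool.Agent.BCX.SGN

/-!
# Vertices of signed words (module VXL)
-/

open Set Filter Topology Metric
open scoped ComplexConjugate

namespace Pool.Agent.BCX

open Pool.Agent.Billiard Pool.Agent.Lib_helper45.Bil

namespace VXLaux

open SGNaux

variable {P : Polygon}

theorem vfin (W : List (SL P)) : (VX P W).Finite := by
  refine (Set.finite_range (fun x : Fin W.length × ZMod P.k =>
    dev P ((lets W).take x.1) (P.vertex x.2))).subset ?_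
  rintro q ⟨i, hi, j, rfl⟩
  exact ⟨(⟨i, hi⟩, j), rfl⟩

theorem vright (V B : List (SL P)) (p : ℂ) (hp : p ∈ VX P B) : dev P (lets V) p ∈ VX P (V ++ B) := by
  induction V with
  | nil => exact hp
  | cons c V ih => exact VX_tail c (V ++ B) ih

theorem vleft (V B : List (SL P)) (p : ℂ) (hp : p ∈ VX P V) : p ∈ VX P (V ++ B) := by
  obtain ⟨i, hi, j, rfl⟩ := hp
  refine ⟨i, by rw [List.length_append]; omega, j, ?_⟩
  have h1 : lets (V ++ B) = lets V ++ lets B := List.map_append
  have h2 : i ≤ (lets V).length := by simpa [lets] using hi.le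
  rw [h1, List.take_append_of_le_length h2]

theorem vkey (V : List (SL P)) : ∀ (g : ZMod P.k) (p : ℂ),
    dev P (lets V) (Lib_helper45.Bil.refl P (lg g V) (dev P (lets (rv g V)) p)) =
      Lib_helper45.Bil.refl P g p := by
  induction V with
  | nil => intro g p; rfl
  | cons c V ih =>
    intro g p
    have h1 : lets (rv g (c :: V)) = lets (rv c.2 V) ++ [g] := by
      show lets (rv c.2 V ++ [(neg c.1, g)]) = _
      simp [lets]
    rw [h1, FOLD.dev_append]
    show Lib_helper45.Bil.refl P c.2 (dev P (lets V) (Lib_helper45.Bil.refl P (lg c.2 V)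
      (dev P (lets (rv c.2 V)) (Lib_helper45.Bil.refl P g p)))) = _
    rw [ih, refl_refl]

theorem vlast (W : List (SL P)) (c : SL P) {p : ℂ} (hp : p ∈ VX P (W ++ [c])) :
    p ∈ VX P W ∨ ∃ j, p = dev P (lets W) (P.vertex j) := by
  obtain ⟨i, hi, j, rfl⟩ := hp
  have h1 : lets (W ++ [c]) = lets W ++ lets [c] := List.map_append
  have h3 : (lets W).length = W.length := by simp [lets]
  rw [List.length_append, List.length_singleton] at hi
  rcases Nat.lt_or_ge i W.length with h | h
  · left
    refine ⟨i, h, j, ?_⟩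
    rw [h1, List.take_append_of_le_length (by omega)]
  · right
    have h4 : i = (lets W).length := by omega
    refine ⟨j, ?_⟩
    rw [h1, h4, List.take_left]

theorem vrev (V : List (SL P)) : ∀ (g : ZMod P.k) (p : ℂ), p ∈ VX P (rv g V) →
    dev P (lets V) (Lib_helper45.Bil.refl P (lg g V) p) ∈ VX P V := by
  induction V with
  | nil =>
    intro g p hp
    obtain ⟨i, hi, _⟩ := hp
    exact absurd hi (Nat.not_lt_zero i)
  | cons c V ih =>
    intro g p hp
    rcases vlast (rv c.2 V) (neg c.1, g) hp with h | ⟨j, rfl⟩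
    · exact VX_tail c V (ih c.2 p h)
    · have h1 : dev P (lets (c :: V)) (Lib_helper45.Bil.refl P (lg g (c :: V))
          (dev P (lets (rv c.2 V)) (P.vertex j))) = P.vertex j := by
        show Lib_helper45.Bil.refl P c.2 (dev P (lets V) (Lib_helper45.Bil.refl P (lg c.2 V)
          (dev P (lets (rv c.2 V)) (P.vertex j)))) = _
        rw [vkey, refl_refl]
      rw [h1]
      exact VX_head c V j

theorem vne (W : List (SL P)) : ∀ (z u : ℂ), Sg P W z u → ∀ q ∈ VX P W, sd z u q ≠ 0 := by
  induction W with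
  | nil =>
    intro z u _ q hq
    obtain ⟨i, hi, _⟩ := hq
    exact absurd hi (Nat.not_lt_zero i)
  | cons c W ih =>
    rintro z u ⟨h1, _, h3⟩ q hq
    rcases VX_cases c W hq with ⟨j, rfl⟩ | ⟨q', hq', rfl⟩
    · exact h1 j
    · rw [FOLD.sd_refl]
      exact neg_ne_zero.2 (ih _ _ h3 q' hq')

end VXLaux

open VXLaux in
theorem m_VXL : Stmt_VXL := by
  intro P
  refine ⟨vfin, vright, vleft, fun g V p hp => vrev V g p hp, ?_, ?_⟩
  · rintro g W z u ⟨_, t, _, h⟩ q hq
    exact vne W z u ((SGNaux.SP_iff W z u t).1 h).2 q hq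
  · intro z e q s he hs
    obtain ⟨h1, h2⟩ := norm_lu he s
    have h3 : (0 : ℝ) < ‖lu e s‖ := by linarith
    unfold ld
    constructor
    · exact div_le_self (abs_nonneg _) h1
    · have h4 : |sd z (lu e s) q| = |sd z (lu e s) q| / ‖lu e s‖ * ‖lu e s‖ := by
        field_simp
      have h5 : 0 ≤ |sd z (lu e s) q| / ‖lu e s‖ := by positivity
      calc |sd z (lu e s) q| = |sd z (lu e s) q| / ‖lu e s‖ * ‖lu e s‖ := h4
        _ ≤ |sd z (lu e s) q| / ‖lu e s‖ * 2 := by
          apply mul_le_mul_of_nonneg_left _ h5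
          linarith
        _ = 2 * (|sd z (lu e s) q| / ‖lu e s‖) := by ring

end Pool.Agent.BCX
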