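import Pool.Agent.BCX.Stmts4
import Pool.Agent.BCX.PureW

/-!
# The width of a cell
-/

open Set Filter Topology Metric
open scoped ComplexConjugate

namespace Pool.Agent.BCX

open Pool.Agent.Billiard Pool.Agent.Lib_helper45.Bil

theorem m_WID : Stmt_SGN → Stmt_GAP0 → Stmt_WID := by
  intro hS hG P D M hT
  obtain ⟨c, hc0, hc1, hG⟩ := hG P D M hT
  have hK : (1600 : ℝ) / c ≤ ⌈(1600 : ℝ) / c⌉₊ := Nat.le_ceil _
  have hK1 : 1 ≤ ⌈(1600 : ℝ) / c⌉₊ := Nat.one_le_ceil_iff.2 (by positivity)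
  refine ⟨⌈(1600 : ℝ) / c⌉₊, hK1, ?_⟩
  intro g W b e z u R y₁ s₁ y₂ s₂ ρ hW he hR hs₁ hs₂ hTB hO h1 h2 hd100
  have hρ := hO.pos
  set d : ℝ := |y₁ - y₂| + |s₁ - s₂| * R with hd
  have hR0 : 0 < R := by linarith
  have hd0 : 0 ≤ d := by
    have := abs_nonneg (y₁ - y₂)
    have := mul_nonneg (abs_nonneg (s₁ - s₂)) hR0.le
    linarith
  rcases hd0.eq_or_lt with hd' | hd'
  · rw [← hd']
    positivity
  set r : ℝ := 2 * R / c with hr
  have hr1 : 1 ≤ r := by
    rw [hr, le_div_iff₀ hc0]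
    linarith
  have hr0 : 0 < r := by linarith
  obtain ⟨hS1, hS2, -⟩ := hS P g
  have key := pure_FAT {p : ℝ × ℝ | ∃ q ∈ VX P W, p = (tc b e q, hc b e q)} R r y₁ s₁ y₂ s₂ d hR0 hr1
    hd hd' (by
      rintro p ⟨q, hq, rfl⟩
      exact hTB q hq) (by
      rintro p ⟨q, hq, rfl⟩
      have := hS2 W _ _ _ _ h1 h2 q hq
      rw [sd_frame he, sd_frame he] at this
      exact this)
  rcases key with ⟨y, -, hy⟩ | ⟨p, ⟨q, hq, rfl⟩, p', ⟨q', hq', rfl⟩, hne, ht, ha, ha'⟩
  · have hSR : SR P g W (lz b e y) (lu e ((s₁ + s₂) / 2)) := by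
      refine hS1 W b e y₁ s₁ y _ he hW h1 fun q hq => ?_
      rw [sd_frame he, sd_frame he]
      exact (hy _ ⟨q, hq, rfl⟩).1
    have hs : |(s₁ + s₂) / 2| ≤ 1 := by
      rw [abs_le] at *
      constructor <;> linarith [hs₁.1, hs₁.2, hs₂.1, hs₂.2]
    have hlu := norm_lu he ((s₁ + s₂) / 2)
    have hCl : Cl P (d / (400 * r)) W (lz b e y) (lu e ((s₁ + s₂) / 2)) := by
      intro q hq
      have h := (hy _ ⟨q, hq, rfl⟩).2
      unfold ld
      rw [sd_frame he]
      rw [le_div_iff₀ (by linarith [hlu.1])]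
      have e1 : d / (400 * r) * ‖lu e ((s₁ + s₂) / 2)‖ ≤ d / (400 * r) * 2 :=
        mul_le_mul_of_nonneg_left (by linarith [hlu.2]) (by positivity)
      have e2 : d / (400 * r) * 2 = d / (200 * r) := by
        field_simp
        norm_num
      exact (e1.trans e2.le).trans h
    have hmax := hO.max _ _ _ hSR hCl
    rw [div_le_iff₀ (by positivity)] at hmax
    have e3 : 2 * ρ * (400 * r) = 1600 / c * R * ρ := by
      rw [hr]
      field_simp
      ring
    rw [e3] at hmax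
    refine hmax.trans ?_
    exact mul_le_mul_of_nonneg_right (mul_le_mul_of_nonneg_right hK hR0.le) hρ.le
  · exfalso
    have e1 : d / (50 * r) ≤ c := by
      rw [div_le_iff₀ (by positivity)]
      have : c * (50 * r) = 100 * R := by
        rw [hr]
        field_simp
        norm_num
      rw [this]
      exact hd100
    have e2 : R / r = c / 2 := by
      rw [hr]
      field_simp
    have hqq : q ≠ q' := by
      rintro rfl
      exact hne rfl
    have h3 := hG g W b e y₁ s₁ he hs₁ h1 q hq q' hq' hqq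
      (by rw [sd_frame he]; exact ha.trans e1) (by rw [sd_frame he]; exact ha'.trans e1)
    rw [e2] at ht
    simp only at ht
    linarith

end Pool.Agent.BCX
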