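import Pool.Agent.BCX.Final3
import Pool.Agent.BCX.ITERW
import Pool.Agent.BCX.RANK
import Pool.Agent.BCX.SIEG
import Pool.Agent.BCX.REP
import Pool.Agent.BCX.SCALES
import Pool.Agent.BCX.PFAT
import Pool.Agent.BCX.SPLIT
import Pool.Agent.BCX.VXL
import Pool.Agent.BCX.INV
import Pool.Agent.BCX.SGN
import Pool.Agent.BCX.CELL
import Pool.Agent.BCX.HOMO
import Pool.Agent.BCX.GAP0
import Pool.Agent.BCX.SIZE
import Pool.Agent.BCX.ANG
import Pool.Agent.BCX.OPT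
import Pool.Agent.BCX.WID
import Pool.Agent.BCX.NEARA
import Pool.Agent.BCX.NEARB
import Pool.Agent.BCX.KAP
import Pool.Agent.BCX.RFOLD
import Pool.Agent.BCX.SNB
import Pool.Agent.BCX.PAIR
import Pool.Agent.BCX.POOR
import Pool.Agent.BCX.TRIP
import Pool.Agent.BCX.SCL
import Pool.Agent.BCX.FATC
import Pool.Agent.BCX.PLINE
import Pool.Agent.BCX.RKEY
import Pool.Agent.BCX.RLINES
import Pool.Agent.BCX.RICH
import Pool.Agent.BCX.STEP4

/-!
# The bound `F n ≤ exp (C (log n) ^ (3/2))` for the billiard complexity of every polygon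
-/

open Set Filter Topology Metric MeasureTheory
open scoped ComplexConjugate

namespace Pool.Agent.BCX

open Pool.Agent.Billiard Pool.Agent.Lib_helper45.Bil

theorem i_SGN : Stmt_SGN := m_SGN m_LC

theorem i_WID : Stmt_WID := m_WID i_SGN m_GAP0

theorem i_OPT : Stmt_OPT := m_OPT m_VXL

theorem i_SCL : Stmt_SCL :=
  m_SCL m_RANK (m_SCALES m_SIEG m_REP) (m_TRIP m_PTRIP m_GAP0 i_WID i_SGN m_VXL m_SIZE) i_OPT

theorem i_POOR : Stmt_POOR :=
  m_POOR (m_PLINE m_VXL m_INV m_SIZE m_ANG i_OPT (m_NEARA m_PFAT m_VXL i_SGN i_WID)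
    (m_NEARB i_SGN)) (m_CELL i_SGN)

theorem i_SNB : Stmt_SNB := m_SNB (m_GREP m_GENREP)

theorem i_RICH : Stmt_RICH :=
  m_RICH (m_RKEY (m_RLINES m_INV m_VXL m_GAP0 m_SIZE m_ANG i_WID (m_HOMO i_SGN) m_KAP) i_SCL
    (m_RFOLD m_SPLIT m_VXL m_INV)) (m_CELL i_SGN) m_SPLIT i_SNB

/-- The recursion `S (2 m) ≤ C a ^ C S m + C m ^ C (S ν + 1)`, `ν a ≤ C m`. -/
theorem step4 : Stmt_STEP4 :=
  m_STEP4 m_TIMES i_OPT i_POOR i_RICH (m_FATC m_SIZE i_SGN m_INV) m_SPLIT i_SNB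
    (m_PAIR m_SPLIT i_SNB)

/-- Every polygon: `F n ≤ exp (C (log n) ^ (3/2))`. -/
theorem threeHalves (P : Polygon) : ∃ C : ℝ, ∀ n : ℕ, 2 ≤ n →
    (P.complexity n : ℝ) ≤ Real.exp (C * Real.log n ^ ((3 : ℝ) / 2)) := by
  obtain ⟨C₁, h₁⟩ := step4 P
  obtain ⟨hF, ⟨C₂, h₂⟩, -⟩ := i_SNB P
  set C : ℕ := C₁ + C₂ + 1 with hC
  obtain ⟨K, -, hK⟩ := iterW_final P.complexity (SN P) C hF
    (fun n => (h₂ n).trans (Nat.mul_le_mul_right _ (by omega)))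
    (fun m a hm ha ham => by
      obtain ⟨ν, hν, h⟩ := h₁ m a (by omega) (by omega) ham
      refine ⟨ν, hν.trans (Nat.mul_le_mul_right _ (by omega)), h.trans ?_⟩
      have ha1 : 1 ≤ a := by omega
      have hm1 : 1 ≤ m := by omega
      have e1 : C₁ * a ^ C₁ ≤ C * a ^ C :=
        Nat.mul_le_mul (by omega) (Nat.pow_le_pow_right ha1 (by omega))
      have e2 : C₁ * m ^ C₁ ≤ C * m ^ C :=
        Nat.mul_le_mul (by omega) (Nat.pow_le_pow_right hm1 (by omega))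
      exact Nat.add_le_add (Nat.mul_le_mul_right _ e1) (Nat.mul_le_mul_right _ e2))
  exact ⟨K, hK⟩

end Pool.Agent.BCX
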