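import Pool.Agent.BCX.Stmts

/-!
# Upper bounds for the billiard complexity: iteration over windows
-/

open Set Filter Topology Metric
open scoped ComplexConjugate

namespace Pool.Agent.BCX

open Pool.Agent.Billiard Pool.Agent.Lib_helper45.Bil

namespace M_ITER

variable {P : Polygon}

theorem refl_lz (c : ZMod P.k) (b e : ℂ) (y : ℝ) :
    refl P c (lz b e y) = lz (refl P c b) (lrefl P c e) (-y) := by
  unfold lz
  rw [refl_add', lrefl_mul]
  simp

theorem lrefl_lu (c : ZMod P.k) (e : ℂ) (s : ℝ) :
    lrefl P c (lu e s) = lu (lrefl P c e) (-s) := by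
  unfold lu
  rw [lrefl_mul]
  simp

theorem refl_sub (c : ZMod P.k) (p q : ℂ) : refl P c p - refl P c q = lrefl P c (p - q) := by
  have h := refl_add' c q (p - q)
  rw [add_sub_cancel] at h
  rw [h]; ring

theorem sd_refl (c : ZMod P.k) (z u q : ℂ) :
    sd (refl P c z) (lrefl P c u) (refl P c q) = - sd z u q := by
  unfold sd
  rw [refl_sub, lrefl_conj, Complex.conj_im]

theorem sd_refl' (c : ZMod P.k) (z u q : ℂ) :
    sd (refl P c z) (lrefl P c u) q = - sd z u (refl P c q) := by
  have h := sd_refl c z u (refl P c q)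
  rw [refl_refl] at h
  exact h

theorem realAt_cons {ε R T : ℝ} {b e : ℂ} {a c : ZMod P.k} {w : List (ZMod P.k)}
    {y s t t' : ℝ} (h : RealAt P ε R T b e a (c :: w) y s t t') :
    ∃ t₂ : ℝ, RealAt P ε R T (refl P c b) (lrefl P c e) c w (-y) (-s) t₂ t' := by
  obtain ⟨hbox, ht, ht', hx, ⟨t₂, h1, h2, h3, h4⟩, hgen⟩ := h
  refine ⟨t₂, ?_, by linarith, ht', ?_, ?_, ?_⟩
  · unfold Box at hbox ⊢
    rw [abs_neg, abs_neg]
    exact hbox
  · rw [← refl_lz, ← lrefl_lu, refl_line h3]
    exact h3
  · rw [← refl_lz, ← lrefl_lu]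
    exact h4
  · intro i hi j
    rw [← refl_lz, ← lrefl_lu, sd_refl']
    have h5 := hgen (i + 1) (by simp only [List.length_cons]; omega) j
    rw [List.take_succ_cons] at h5
    exact neg_ne_zero.2 h5

theorem realAt_right {ε R T : ℝ} {w₂ : List (ZMod P.k)} (w₁ : List (ZMod P.k)) :
    ∀ {b e : ℂ} {a : ZMod P.k} {y s t t' : ℝ}, RealAt P ε R T b e a (w₁ ++ w₂) y s t t' →
    RealW P ε R T (foldz P w₁ b) (foldu P w₁ e) (w₁.getLastD a) w₂ := by
  induction w₁ with
  | nil =>
    intro b e a y s t t' h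
    exact ⟨y, s, t, t', h⟩
  | cons c w₁ ih =>
    intro b e a y s t t' h
    obtain ⟨t₂, h2⟩ := realAt_cons h
    have h3 := ih h2
    rw [List.getLastD_cons]
    exact h3

theorem realAt_left {ε R T : ℝ} {w₁ w₂ : List (ZMod P.k)}
    {b e : ℂ} {a : ZMod P.k} {y s t t' : ℝ} (h : RealAt P ε R T b e a (w₁ ++ w₂) y s t t') :
    RealW P ε R T b e a w₁ := by
  obtain ⟨hbox, ht, ht', hx, hp, hgen⟩ := h
  obtain ⟨T₁, z', u', a', h1, h2, _, _⟩ := PathT.split hx hp
  refine ⟨y, s, t, T₁, hbox, ht, ?_, hx, h1, ?_⟩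
  · have := h2.le
    linarith
  · intro i hi j
    have h5 := hgen i (by rw [List.length_append]; omega) j
    rw [List.take_append_of_le_length hi] at h5
    exact h5

theorem split {ε R T : ℝ} {w₁ w₂ : List (ZMod P.k)}
    {b e : ℂ} {a : ZMod P.k} (h : RealW P ε R T b e a (w₁ ++ w₂)) :
    RealW P ε R T b e a w₁ ∧
      RealW P ε R T (foldz P w₁ b) (foldu P w₁ e) (w₁.getLastD a) w₂ := by
  obtain ⟨y, s, t, t', h⟩ := h
  exact ⟨realAt_left h, realAt_right w₁ h⟩

end M_ITER

open M_ITER in
theorem m_ITER : Stmt_ITER := by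
  classical
  intro P ε R T m X hX l
  have hfin : ∀ (n : ℕ) (b e : ℂ) (a : ZMod P.k),
      {w : List (ZMod P.k) | w.length = n ∧ RealW P ε R T b e a w}.Finite := by
    intro n b e a
    exact (List.finite_length_eq (ZMod P.k) n).subset fun _ h => h.1
  induction l with
  | zero =>
    intro b e a _
    rw [pow_zero]
    have hsub : {w : List (ZMod P.k) | w.length = 0 * m ∧ RealW P ε R T b e a w} ⊆
        {([] : List (ZMod P.k))} := by
      intro w hw
      have h1 : w.length = 0 * m := hw.1
      rw [zero_mul] at h1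
      rw [mem_singleton_iff]
      exact List.length_eq_zero_iff.1 h1
    calc _ ≤ ({([] : List (ZMod P.k))} : Set (List (ZMod P.k))).ncard :=
          ncard_le_ncard hsub (finite_singleton _)
      _ = 1 := ncard_singleton _
  | succ l ih =>
    intro b e a he
    set F := (hfin m b e a).toFinset with hF
    let G : List (ZMod P.k) → Finset (List (ZMod P.k)) := fun w₁ =>
      ((hfin (l * m) (foldz P w₁ b) (foldu P w₁ e) (w₁.getLastD a)).toFinset).image
        (fun w₂ => w₁ ++ w₂)
    have hsub : {w : List (ZMod P.k) | w.length = (l + 1) * m ∧ RealW P ε R T b e a w} ⊆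
        ((F.biUnion G : Finset (List (ZMod P.k))) : Set (List (ZMod P.k))) := by
      intro w hw
      obtain ⟨hl, hr⟩ := hw
      have hlen : w.length = m + l * m := by rw [hl]; ring
      have hw' : w = w.take m ++ w.drop m := (List.take_append_drop m w).symm
      have h1 : (w.take m).length = m := by
        rw [List.length_take]; omega
      have h2 : (w.drop m).length = l * m := by
        rw [List.length_drop]; omega
      rw [hw'] at hr
      obtain ⟨h3, h4⟩ := split hr
      rw [Finset.mem_coe, Finset.mem_biUnion]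
      refine ⟨w.take m, ?_, ?_⟩
      · rw [hF, Set.Finite.mem_toFinset]
        exact ⟨h1, h3⟩
      · rw [Finset.mem_image]
        refine ⟨w.drop m, ?_, hw'.symm⟩
        rw [Set.Finite.mem_toFinset]
        exact ⟨h2, h4⟩
    have hG : ∀ w₁ ∈ F, (G w₁).card ≤ X ^ l := by
      intro w₁ _
      refine Finset.card_image_le.trans ?_
      rw [← Set.ncard_eq_toFinset_card _
        (hfin (l * m) (foldz P w₁ b) (foldu P w₁ e) (w₁.getLastD a))]
      apply ih
      rw [norm_foldu]
      exact he
    have hFc : F.card ≤ X := by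
      rw [hF, ← Set.ncard_eq_toFinset_card _ (hfin m b e a)]
      exact hX b e a he
    calc _ ≤ ((F.biUnion G : Finset (List (ZMod P.k))) : Set (List (ZMod P.k))).ncard :=
          ncard_le_ncard hsub (Finset.finite_toSet _)
      _ = (F.biUnion G).card := Set.ncard_coe_finset _
      _ ≤ F.card * X ^ l := Finset.card_biUnion_le_card_mul _ _ _ hG
      _ ≤ X * X ^ l := Nat.mul_le_mul_right _ hFc
      _ = X ^ (l + 1) := by ring

end Pool.Agent.BCX
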