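import Pool.Agent.BCX.Stmts2

/-!
# The last scale
-/

open Set Filter Topology Metric
open scoped ComplexConjugate

namespace Pool.Agent.BCX

open Pool.Agent.Billiard Pool.Agent.Lib_helper45.Bil

namespace LAST

theorem fin_len {k : ℕ} [NeZero k] (n : ℕ) (Q : List (ZMod k) → Prop) :
    {w : List (ZMod k) | w.length = n ∧ Q w}.Finite :=
  (List.finite_length_eq (ZMod k) n).subset fun _ hw => hw.1

theorem ncard_union_le {α β : Type} {A : Set α} (hA : A.Finite) (F : α → Set β) (n : ℕ)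
    (h : ∀ a ∈ A, (F a).ncard ≤ n) : (⋃ a ∈ A, F a).ncard ≤ A.ncard * n := by
  classical
  have h1 : (⋃ a ∈ A, F a) = ⋃ a ∈ hA.toFinset, F a := by
    ext x; simp
  rw [h1]
  refine (Finset.set_ncard_biUnion_le _ _).trans ?_
  rw [Set.ncard_eq_toFinset_card A hA]
  calc ∑ a ∈ hA.toFinset, (F a).ncard ≤ ∑ a ∈ hA.toFinset, n :=
        Finset.sum_le_sum fun a ha => h a (by simpa using ha)
    _ = hA.toFinset.card * n := by rw [Finset.sum_const, smul_eq_mul]

end LAST

open LAST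

theorem m_LAST : Stmt_FOLD → Stmt_LAST := by
  intro hF P D m ε R T K₁ hK l
  induction l with
  | zero =>
    intro b e y₀ s₀ a he
    have h1 : {w : List (ZMod P.k) | w.length = 0 * m ∧ RealC P ε R T b e y₀ s₀ a w} ⊆ {[]} := by
      rintro w ⟨hw, _⟩
      rw [zero_mul] at hw
      exact List.length_eq_zero_iff.1 hw
    calc _ ≤ ({[]} : Set (List (ZMod P.k))).ncard := Set.ncard_le_ncard h1 (Set.finite_singleton _)
      _ = 1 := Set.ncard_singleton _
      _ = K₁ ^ 0 := (pow_zero _).symm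
  | succ l ih =>
    intro b e y₀ s₀ a he
    set A : Set (List (ZMod P.k)) := {w | w.length = m ∧ ∃ y s t t',
      RealAtC P ε R T b e y₀ s₀ a w y s t t' ∧ ¬ Pin P 0 D b e y s w} with hA
    have hAf : A.Finite := fin_len m _
    set B : List (ZMod P.k) → Set (List (ZMod P.k)) := fun w₁ =>
      {w | w.length = l * m ∧ RealC P ε R T (foldz P w₁ b) (foldu P w₁ e)
        ((-1) ^ w₁.length * y₀) ((-1) ^ w₁.length * s₀) (w₁.getLastD a) w} with hB
    have hsub : {w : List (ZMod P.k) | w.length = (l + 1) * m ∧ RealC P ε R T b e y₀ s₀ a w} ⊆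
        ⋃ w₁ ∈ A, (fun w₂ => w₁ ++ w₂) '' (B w₁) := by
      rintro w ⟨hw, y, s, t, t', hr⟩
      have hlen : w.length = l * m + m := by rw [hw]; ring
      have hsplit : w = w.take m ++ w.drop m := (List.take_append_drop m w).symm
      have hr' : RealAtC P ε R T b e y₀ s₀ a (w.take m ++ w.drop m) y s t t' := by
        rw [← hsplit]; exact hr
      obtain ⟨⟨t₁, h1⟩, h2, h3⟩ := hF P ε R T b e y₀ s₀ a (w.take m) (w.drop m) y s t t' he hr'
      rw [mem_iUnion₂]
      refine ⟨w.take m, ⟨by rw [List.length_take]; omega, y, s, t, t₁, h1, ?_⟩,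
        w.drop m, ⟨by rw [List.length_drop]; omega, h3⟩, List.take_append_drop m w⟩
      rintro ⟨i, hi, _, _, j, _, _, h4, _⟩
      exact h1.2.2.2.2.2.2 i hi.le j (abs_nonpos_iff.1 h4)
    have hfin : (⋃ w₁ ∈ A, (fun w₂ => w₁ ++ w₂) '' (B w₁)).Finite :=
      hAf.biUnion fun w₁ _ => (fin_len (l * m) _).image _
    calc _ ≤ (⋃ w₁ ∈ A, (fun w₂ => w₁ ++ w₂) '' (B w₁)).ncard := Set.ncard_le_ncard hsub hfin
      _ ≤ A.ncard * K₁ ^ l := by
          apply ncard_union_le hAf
          intro w₁ _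
          exact (Set.ncard_image_le (fin_len (l * m) _)).trans
            (ih _ _ _ _ _ (by rw [norm_foldu, he]))
      _ ≤ K₁ * K₁ ^ l := Nat.mul_le_mul_right _ (hK m b e y₀ s₀ a le_rfl he)
      _ = K₁ ^ (l + 1) := by rw [pow_succ]; ring

end Pool.Agent.BCX
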