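import Pool.Agent.BCX.Stmts

namespace Pool.Agent.BCX

open Finset MvPolynomial

/-- Expansion of the evaluation over the support. -/
theorem LIOU_aeval_eq {R ι : Type} [CommRing R] [Fintype ι] (a : ι → R) (Q : MvPolynomial ι ℤ) :
    MvPolynomial.aeval a Q = ∑ d ∈ Q.support, ((Q.coeff d : ℤ) : R) * ∏ i, a i ^ d i := by
  rw [MvPolynomial.aeval_def, MvPolynomial.eval₂_eq']
  refine Finset.sum_congr rfl fun d _ => ?_
  simp

theorem LIOU_deg_le {ι : Type} [Fintype ι] (Q : MvPolynomial ι ℤ) (d : ι →₀ ℕ)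
    (hd : d ∈ Q.support) : ∑ i, d i ≤ Q.totalDegree := by
  have h := MvPolynomial.le_totalDegree hd
  rwa [Finsupp.sum_fintype] at h
  intro i
  rfl

theorem LIOU_len_nonneg {ι : Type} (Q : MvPolynomial ι ℤ) : 0 ≤ len Q :=
  Finset.sum_nonneg fun _ _ => abs_nonneg _

/-- Upper bound of an integer polynomial. -/
theorem LIOU_upper {ι : Type} [Fintype ι] (z : ι → ℂ) (B : ℝ) (hB : 1 ≤ B) (hz : ∀ i, ‖z i‖ ≤ B)
    (Q : MvPolynomial ι ℤ) : ‖MvPolynomial.aeval z Q‖ ≤ len Q * B ^ Q.totalDegree := by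
  rw [LIOU_aeval_eq]
  refine (norm_sum_le _ _).trans ?_
  unfold len
  rw [Finset.sum_mul]
  refine Finset.sum_le_sum fun d hd => ?_
  rw [norm_mul, norm_prod]
  have h1 : ‖((Q.coeff d : ℤ) : ℂ)‖ = |((Q.coeff d : ℤ) : ℝ)| := by
    rw [Complex.norm_intCast]
  rw [h1]
  refine mul_le_mul_of_nonneg_left ?_ (abs_nonneg _)
  calc ∏ i, ‖z i ^ d i‖ ≤ ∏ i, B ^ d i := by
        refine Finset.prod_le_prod (fun i _ => norm_nonneg _) fun i _ => ?_
        rw [norm_pow]
        exact pow_le_pow_left₀ (norm_nonneg _) (hz i) _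
    _ = B ^ ∑ i, d i := Finset.prod_pow_eq_pow_sum _ _ _
    _ ≤ B ^ Q.totalDegree := pow_le_pow_right₀ hB (LIOU_deg_le Q d hd)

theorem LIOU_intCast (K : Type) [Field K] (z : ℤ) : IsIntegral ℤ (z : K) := by
  have h := isIntegral_algebraMap (R := ℤ) (A := K) (x := z)
  rwa [eq_intCast] at h

/-- Integrality after multiplication by a power of a common denominator. -/
theorem LIOU_integral {K ι : Type} [Field K] [Fintype ι] (a : ι → K) (q : ℤ)
    (hq : ∀ i, IsIntegral ℤ ((q : K) * a i)) (Q : MvPolynomial ι ℤ) :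
    IsIntegral ℤ ((q : K) ^ Q.totalDegree * MvPolynomial.aeval a Q) := by
  rw [LIOU_aeval_eq, Finset.mul_sum]
  refine IsIntegral.sum _ fun d hd => ?_
  have hle := LIOU_deg_le Q d hd
  have e : (q : K) ^ Q.totalDegree * (((Q.coeff d : ℤ) : K) * ∏ i, a i ^ d i) =
      ((Q.coeff d : ℤ) : K) * ((q : K) ^ (Q.totalDegree - ∑ i, d i) * ∏ i, ((q : K) * a i) ^ d i) := by
    have h1 : ∏ i, ((q : K) * a i) ^ d i = (q : K) ^ (∑ i, d i) * ∏ i, a i ^ d i := by
      rw [← Finset.prod_pow_eq_pow_sum, ← Finset.prod_mul_distrib]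
      exact Finset.prod_congr rfl fun i _ => mul_pow _ _ _
    rw [h1]
    have h2 : (q : K) ^ Q.totalDegree = (q : K) ^ (Q.totalDegree - ∑ i, d i) * (q : K) ^ (∑ i, d i) := by
      rw [← pow_add]
      congr 1
      omega
    rw [h2]
    ring
  rw [e]
  refine IsIntegral.mul ?_ (IsIntegral.mul ?_ ?_)
  · exact LIOU_intCast K _
  · exact IsIntegral.pow (LIOU_intCast K _) _
  · exact IsIntegral.prod _ fun i _ => (hq i).pow _

/-- Liouville's inequality in a number field. -/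
theorem LIOU_field {K ι : Type} [Field K] [NumberField K] [Fintype ι] (φ : K →+* ℂ) (a : ι → K) :
    ∃ A : ℝ, 0 < A ∧ ∀ Q : MvPolynomial ι ℤ, MvPolynomial.aeval a Q = 0 ∨
      Real.exp (-A * (Q.totalDegree + 1)) * (1 + len Q) ^ (-A) ≤ ‖φ (MvPolynomial.aeval a Q)‖ := by
  classical
  have halg : ∀ i, IsAlgebraic ℤ (a i) := fun i =>
    (IsFractionRing.isAlgebraic_iff ℤ ℚ K).2 (Algebra.IsAlgebraic.isAlgebraic (a i))
  choose r hr0 hr using fun i => (halg i).exists_integral_multiple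
  obtain ⟨q, hq0, hq⟩ : ∃ q : ℤ, q ≠ 0 ∧ ∀ i, IsIntegral ℤ ((q : K) * a i) := by
    refine ⟨∏ i, r i, Finset.prod_ne_zero_iff.2 fun i _ => hr0 i, fun i => ?_⟩
    have e : (((∏ i, r i : ℤ)) : K) * a i =
        ((∏ j ∈ univ.erase i, r j : ℤ) : K) * (r i • a i) := by
      rw [← Finset.prod_erase_mul univ r (mem_univ i), Int.cast_mul, zsmul_eq_mul]
      ring
    rw [e]
    refine IsIntegral.mul ?_ (hr i)
    exact LIOU_intCast K _
  set B : ℝ := 1 + ∑ i, NumberField.house (a i) with hBdef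
  have hhn : ∀ i, 0 ≤ NumberField.house (a i) := fun i => NumberField.house_nonneg _
  have hB1 : 1 ≤ B := by
    rw [hBdef]
    linarith [Finset.sum_nonneg fun i (_ : i ∈ univ) => hhn i]
  have hBi : ∀ (σ : K →+* ℂ) (i : ι), ‖σ (a i)‖ ≤ B := by
    intro σ i
    have h1 := NumberField.norm_embedding_le_house (a i) σ
    have h2 := Finset.single_le_sum (f := fun i => NumberField.house (a i)) (fun i _ => hhn i) (mem_univ i)
    rw [hBdef]
    linarith
  set P : ℝ := |(q : ℝ)| * B with hPdef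
  have hq1 : (1 : ℝ) ≤ |(q : ℝ)| := by
    have : (1 : ℤ) ≤ |q| := Int.one_le_abs hq0
    exact_mod_cast this
  have hP1 : 1 ≤ P := by
    rw [hPdef]
    nlinarith
  set D : ℕ := Module.finrank ℚ K with hD
  set A : ℝ := D + D * Real.log P + 1 with hA
  have hlogP : 0 ≤ Real.log P := Real.log_nonneg hP1
  have hApos : 0 < A := by
    rw [hA]
    positivity
  refine ⟨A, hApos, fun Q => ?_⟩
  by_cases h0 : MvPolynomial.aeval a Q = 0
  · exact Or.inl h0
  right
  set N : ℕ := Q.totalDegree with hN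
  set β : K := (q : K) ^ N * MvPolynomial.aeval a Q with hβ
  have hβ0 : β ≠ 0 := mul_ne_zero (pow_ne_zero _ (by exact_mod_cast hq0)) h0
  have hint : IsIntegral ℤ β := LIOU_integral a q hq Q
  have hnint : IsIntegral ℤ (Algebra.norm ℚ β) := Algebra.isIntegral_norm ℚ hint
  obtain ⟨z, hz⟩ := IsIntegrallyClosed.isIntegral_iff.1 hnint
  have hz0 : z ≠ 0 := by
    intro h
    rw [h, map_zero] at hz
    exact (Algebra.norm_ne_zero_iff.2 hβ0) hz.symm
  have hn1 : (1 : ℝ) ≤ ‖Algebra.norm ℚ β‖ := by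
    rw [← hz]
    have : (1 : ℤ) ≤ |z| := Int.one_le_abs hz0
    have h3 : ‖(algebraMap ℤ ℚ) z‖ = |(z : ℝ)| := by
      simp [Int.norm_eq_abs]
    rw [h3]
    exact_mod_cast this
  have hmain := NumberField.norm_norm_le_norm_mul_house_pow β φ
  have hemb : ∀ σ : K →+* ℂ, ‖σ β‖ ≤ P ^ N * (1 + len Q) := by
    intro σ
    have e1 : σ β = (q : ℂ) ^ N * MvPolynomial.aeval (fun i => σ (a i)) Q := by
      rw [hβ, map_mul, map_pow, map_intCast]
      congr 1
      rw [LIOU_aeval_eq, LIOU_aeval_eq, map_sum]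
      refine Finset.sum_congr rfl fun d _ => ?_
      rw [map_mul, map_prod, map_intCast]
      congr 1
      exact Finset.prod_congr rfl fun i _ => map_pow _ _ _
    rw [e1, norm_mul, norm_pow, Complex.norm_intCast]
    have h4 := LIOU_upper (fun i => σ (a i)) B hB1 (hBi σ) Q
    calc |(q : ℝ)| ^ N * ‖MvPolynomial.aeval (fun i => σ (a i)) Q‖
        ≤ |(q : ℝ)| ^ N * (len Q * B ^ N) := mul_le_mul_of_nonneg_left h4 (by positivity)
      _ = P ^ N * len Q := by
        rw [hPdef, mul_pow]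
        ring
      _ ≤ P ^ N * (1 + len Q) := mul_le_mul_of_nonneg_left (by linarith) (by positivity)
  have hlen := LIOU_len_nonneg Q
  set M : ℝ := P ^ N * (1 + len Q) with hM
  have hPN : 1 ≤ P ^ N := one_le_pow₀ hP1
  have hM1 : 1 ≤ M := by
    rw [hM]
    nlinarith
  have hhouse : NumberField.house β ≤ M := by
    rw [NumberField.house_eq_sup']
    have : ∀ σ ∈ (univ : Finset (K →+* ℂ)), ‖σ β‖₊ ≤ ⟨M, by linarith⟩ := fun σ _ => hemb σ
    exact_mod_cast Finset.sup'_le _ _ this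
  have hD1 : 1 ≤ D := Module.finrank_pos
  have hβφ : ‖φ β‖ ≤ P ^ N * ‖φ (MvPolynomial.aeval a Q)‖ := by
    rw [hβ, map_mul, map_pow, map_intCast, norm_mul, norm_pow, Complex.norm_intCast]
    refine mul_le_mul_of_nonneg_right ?_ (norm_nonneg _)
    refine pow_le_pow_left₀ (abs_nonneg _) ?_ _
    rw [hPdef]
    nlinarith
  have hfin : 1 ≤ (P ^ N) ^ D * (1 + len Q) ^ D * ‖φ (MvPolynomial.aeval a Q)‖ := by
    calc (1 : ℝ) ≤ ‖φ β‖ * NumberField.house β ^ (D - 1) := hn1.trans hmain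
      _ ≤ (P ^ N * ‖φ (MvPolynomial.aeval a Q)‖) * M ^ (D - 1) := by
        refine mul_le_mul hβφ (pow_le_pow_left₀ (NumberField.house_nonneg _) hhouse _)
          (pow_nonneg (NumberField.house_nonneg _) _) ?_
        positivity
      _ = (P ^ N) ^ D * (1 + len Q) ^ (D - 1) * ‖φ (MvPolynomial.aeval a Q)‖ := by
        obtain ⟨k, hk⟩ : ∃ k, D = k + 1 := ⟨D - 1, by omega⟩
        rw [hM, hk, Nat.add_sub_cancel, mul_pow (P ^ N) (1 + len Q) k]
        ring
      _ ≤ (P ^ N) ^ D * (1 + len Q) ^ D * ‖φ (MvPolynomial.aeval a Q)‖ := by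
        refine mul_le_mul_of_nonneg_right (mul_le_mul_of_nonneg_left ?_ (by positivity)) (norm_nonneg _)
        exact pow_le_pow_right₀ (by linarith) (by omega)
  have hX : 0 < (P ^ N) ^ D := by positivity
  have hY : 0 < (1 + len Q) ^ D := by positivity
  have h5 : Real.exp (-A * ((N : ℝ) + 1)) ≤ ((P ^ N) ^ D)⁻¹ := by
    rw [← Real.exp_log hX, ← Real.exp_neg, Real.exp_le_exp, Real.log_pow, Real.log_pow]
    have hN0 : (0 : ℝ) ≤ N := Nat.cast_nonneg _
    have hD0 : (0 : ℝ) ≤ D := Nat.cast_nonneg _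
    have h6 : (D : ℝ) * Real.log P ≤ A := by
      rw [hA]
      linarith
    have h7 : (0 : ℝ) ≤ D * Real.log P := mul_nonneg hD0 hlogP
    nlinarith
  have h6 : (1 + len Q) ^ (-A) ≤ ((1 + len Q) ^ D)⁻¹ := by
    rw [Real.rpow_neg (by linarith)]
    refine inv_anti₀ hY ?_
    rw [← Real.rpow_natCast]
    refine Real.rpow_le_rpow_of_exponent_le (by linarith) ?_
    rw [hA]
    have hD0 : (0 : ℝ) ≤ D := Nat.cast_nonneg _
    nlinarith [mul_nonneg hD0 hlogP]
  calc Real.exp (-A * ((N : ℝ) + 1)) * (1 + len Q) ^ (-A)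
      ≤ ((P ^ N) ^ D)⁻¹ * ((1 + len Q) ^ D)⁻¹ := by
        refine mul_le_mul h5 h6 (Real.rpow_nonneg (by linarith) _) (by positivity)
    _ ≤ ‖φ (MvPolynomial.aeval a Q)‖ := by
        rw [← mul_inv, inv_le_iff_one_le_mul₀ (by positivity)]
        linarith

theorem m_LIOU : Stmt_LIOU := by
  intro ι _ α hα
  set K : IntermediateField ℚ ℂ := IntermediateField.adjoin ℚ (Set.range α) with hK
  have hfd : FiniteDimensional ℚ K :=
    IntermediateField.finiteDimensional_adjoin fun x hx => by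
      obtain ⟨i, rfl⟩ := hx
      exact (hα i).isIntegral
  have hnf : NumberField K := { to_charZero := inferInstance, to_finiteDimensional := hfd }
  obtain ⟨A, hA, h⟩ := LIOU_field (K := K) (algebraMap K ℂ)
    (fun i => ⟨α i, IntermediateField.subset_adjoin ℚ _ ⟨i, rfl⟩⟩)
  refine ⟨A, hA, fun Q => ?_⟩
  have e : (algebraMap K ℂ) (MvPolynomial.aeval
      (fun i => (⟨α i, IntermediateField.subset_adjoin ℚ _ ⟨i, rfl⟩⟩ : K)) Q) =
      MvPolynomial.aeval α Q := by
    rw [LIOU_aeval_eq, LIOU_aeval_eq, map_sum]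
    refine Finset.sum_congr rfl fun d _ => ?_
    rw [map_mul, map_prod, map_intCast]
    congr 1
  rcases h Q with h1 | h1
  · left
    rw [← e, h1, map_zero]
  · right
    rw [e] at h1
    exact h1

end Pool.Agent.BCX
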