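import Pool.Agent.BCX.Stmts

/-!
# Upper bounds for the billiard complexity: the general bound from the separation property
-/

open Set Filter Topology Metric MeasureTheory
open scoped ComplexConjugate

namespace Pool.Agent.BCX

open Pool.Agent.Billiard Pool.Agent.Lib_helper45.Bil

theorem complexity_succ (P : Polygon) (n : ℕ) : P.complexity n ≤ P.complexity (n + 1) := by
  rw [complexity_eq, complexity_eq]
  have h : ∀ w : List (ZMod P.k), w ∈ WS P n → ∃ c, c :: w ∈ WS P (n + 1) := by
    rintro w ⟨hl, hw⟩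
    obtain ⟨c, hc⟩ := left_ext hw
    exact ⟨c, by simp [hl], hc⟩
  choose! f hf using h
  apply Set.ncard_le_ncard_of_injOn (fun w => f w :: w) (fun w hw => hf w hw) _ (WS_finite (n + 1))
  intro w _ w' _ he
  exact (List.cons.inj he).2

theorem complexity_mono (P : Polygon) : Monotone P.complexity :=
  monotone_nat_of_le_succ (complexity_succ P)

theorem m_MAIN (hT : Stmt_TIMES) (hW : Stmt_WINDOW) (hI : Stmt_ITER) (hC : Stmt_COVER) :
    Stmt_MAIN := by
  intro P
  obtain ⟨D, M, hD⟩ := hT P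
  obtain ⟨C₁, hC₁, hwin⟩ := hW P D M hD
  obtain ⟨C₂, hC₂, hcov⟩ := hC P D M hD
  have hD1 : 1 ≤ D := hD.1
  have hlog2 : 0 < Real.log 2 := Real.log_pos (by norm_num)
  have hC₁r : (1 : ℝ) ≤ C₁ := by exact_mod_cast hC₁
  have hlC₁ : 0 ≤ Real.log C₁ := Real.log_nonneg hC₁r
  have hlC₂ : 0 ≤ Real.log C₂ := Real.log_nonneg hC₂
  have h64 : (1 : ℝ) ≤ 64 * D ^ 2 := by nlinarith
  have hlD : 0 ≤ Real.log (64 * D ^ 2) := Real.log_nonneg h64
  set K₀ : ℝ := (Real.log C₂ + 4 * Real.log (64 * D ^ 2) + Real.log C₁) / Real.log 2 with hK₀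
  have hK₀0 : 0 ≤ K₀ := by positivity
  refine ⟨13 + K₀, by positivity, fun m δ hm hδ hδ1 hsep n hn => ?_⟩
  set l : ℕ := n / m + 1 with hl
  set N : ℕ := l * m with hN
  have hmr : (1 : ℝ) ≤ m := by exact_mod_cast hm
  have hnr : (1 : ℝ) ≤ n := by exact_mod_cast hn
  have hnN : n ≤ N := by
    have h1 := Nat.div_add_mod n m
    have h2 := Nat.mod_lt n hm
    rw [hN, hl, add_mul, one_mul, mul_comm]
    omega
  have hNn : (N : ℝ) ≤ n + m := by
    have h1 : N ≤ n + m := by
      rw [hN, hl, add_mul, one_mul]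
      have := Nat.div_mul_le_self n m
      omega
    exact_mod_cast h1
  have hlr : (l : ℝ) ≤ n / m + 1 := by
    rw [hl]; push_cast
    have := Nat.cast_div_le (α := ℝ) (m := n) (n := m)
    linarith
  set T : ℝ := N * D + 2 with hTd
  set R : ℝ := T + D + 1 with hRd
  set ε : ℝ := δ / (8 * (m + 2) * D) with hε
  have hND : 0 ≤ (N : ℝ) * D := by positivity
  have hε0 : 0 < ε := by positivity
  have hε1 : ε ≤ 1 := by
    rw [hε, div_le_one (by positivity)]
    nlinarith
  have hTpos : 0 ≤ T := by linarith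
  have hR1 : 1 ≤ R := by linarith
  have hεδ : 4 * ε * (m + 2) * D < δ := by
    have : 4 * ε * (m + 2) * D = δ / 2 := by
      rw [hε]; field_simp; norm_num
    rw [this]; linarith
  have h1 : ∀ (b e : ℂ) (a : ZMod P.k), ‖e‖ = 1 →
      {w : List (ZMod P.k) | w.length = m ∧ RealW P ε R T b e a w}.ncard ≤ C₁ * m := fun b e a he =>
    hwin m δ ε R T b e a hm hsep hε0 (hε1.trans hR1) hTpos le_rfl hεδ he
  have h2 := hI P ε R T m (C₁ * m) h1 l
  have h3 := hcov N ((C₁ * m) ^ l) ε R T hε0 hε1 le_rfl (by linarith) h2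
  have h4 : (P.complexity n : ℝ) ≤ P.complexity N := by exact_mod_cast complexity_mono P hnN
  refine (h4.trans h3).trans ?_
  have hRε : R / ε ≤ 64 * D ^ 2 * (n + 1) * (m + 1) ^ 2 * (1 / δ) := by
    have e1 : R / ε = R * (8 * (m + 2) * D) * (1 / δ) := by
      rw [hε]; field_simp
    rw [e1]
    apply mul_le_mul_of_nonneg_right _ (by positivity)
    have e2 : R ≤ (n + m + 4) * D := by
      have : (N : ℝ) * D ≤ (n + m) * D := mul_le_mul_of_nonneg_right hNn (by positivity)
      rw [hRd, hTd]; nlinarith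
    have e3 : (n : ℝ) + m + 4 ≤ 4 * ((n + 1) * (m + 1)) := by nlinarith
    have e4 : R ≤ 4 * ((n + 1) * (m + 1)) * D :=
      e2.trans (mul_le_mul_of_nonneg_right e3 (by positivity))
    have e5 : 8 * ((m : ℝ) + 2) * D ≤ 16 * (m + 1) * D := by nlinarith
    calc R * (8 * (m + 2) * D) ≤ (4 * ((n + 1) * (m + 1)) * D) * (16 * (m + 1) * D) := by
          apply mul_le_mul e4 e5 (by positivity) (by positivity)
      _ = 64 * D ^ 2 * (n + 1) * (m + 1) ^ 2 := by ring
  have hRε0 : 0 < R / ε := by positivity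
  have hX0 : 0 < (C₁ : ℝ) * m := by positivity
  have hlogR : Real.log (R / ε) ≤ Real.log (64 * D ^ 2) + Real.log (n + 1) +
      2 * Real.log (m + 1) + Real.log (1 / δ) := by
    have := Real.log_le_log hRε0 hRε
    rw [Real.log_mul (by positivity) (by positivity), Real.log_mul (by positivity) (by positivity),
      Real.log_mul (by positivity) (by positivity), Real.log_pow] at this
    push_cast at this
    exact this
  have hval : 0 < C₂ * (R / ε) ^ 4 * (((C₁ * m) ^ l : ℕ) : ℝ) := by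
    push_cast; positivity
  rw [← Real.log_le_iff_le_exp hval]
  push_cast
  rw [Real.log_mul (by positivity) (by positivity), Real.log_mul (by positivity) (by positivity),
    Real.log_pow, Real.log_pow, Real.log_mul (by positivity) (by positivity)]
  push_cast
  set Y : ℝ := (n / m + 1) * Real.log (m + 1) with hY
  have hlm1 : Real.log 2 ≤ Real.log (m + 1) := Real.log_le_log (by norm_num) (by linarith)
  have hnm : 0 ≤ (n : ℝ) / m := by positivity
  have hY1 : Real.log (m + 1) ≤ Y := by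
    rw [hY]; nlinarith
  have hY2 : Real.log 2 * (n / m + 1) ≤ Y := by
    rw [hY]; nlinarith
  have hlmm : Real.log m ≤ Real.log (m + 1) := Real.log_le_log (by linarith) (by linarith)
  have h5 : (l : ℝ) * (Real.log C₁ + Real.log m) ≤
      (n / m + 1) * Real.log C₁ + Y := by
    have h6 : 0 ≤ Real.log m := Real.log_nonneg hmr
    have h7 : (l : ℝ) * (Real.log C₁ + Real.log m) ≤ (n / m + 1) * (Real.log C₁ + Real.log m) :=
      mul_le_mul_of_nonneg_right hlr (by positivity)
    have h8 : ((n : ℝ) / m + 1) * Real.log m ≤ Y := by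
      rw [hY]
      exact mul_le_mul_of_nonneg_left hlmm (by positivity)
    nlinarith
  have hln : 0 ≤ Real.log ((n : ℝ) + 1) := Real.log_nonneg (by linarith)
  have hlδ : 0 ≤ Real.log (1 / δ) := Real.log_nonneg (by rw [le_div_iff₀ hδ]; linarith)
  have hYlog : Real.log 2 ≤ Y := hlm1.trans hY1
  have h9 : Real.log C₂ + 4 * Real.log (64 * D ^ 2) + (n / m + 1) * Real.log C₁ ≤ K₀ * Y := by
    have e1 : K₀ * Y = (Real.log C₂ + 4 * Real.log (64 * D ^ 2)) * (Y / Real.log 2) +
        Real.log C₁ * (Y / Real.log 2) := by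
      rw [hK₀]; field_simp
    have e2 : 1 ≤ Y / Real.log 2 := by rw [le_div_iff₀ hlog2]; linarith
    have e3 : (n : ℝ) / m + 1 ≤ Y / Real.log 2 := by rw [le_div_iff₀ hlog2]; linarith
    rw [e1]
    have e4 : (Real.log C₂ + 4 * Real.log (64 * D ^ 2)) * 1 ≤
        (Real.log C₂ + 4 * Real.log (64 * D ^ 2)) * (Y / Real.log 2) :=
      mul_le_mul_of_nonneg_left e2 (by positivity)
    have e5 : Real.log C₁ * (n / m + 1) ≤ Real.log C₁ * (Y / Real.log 2) :=
      mul_le_mul_of_nonneg_left e3 hlC₁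
    linarith
  have hY0 : 0 ≤ Y := by linarith
  have e6 : 0 ≤ K₀ * Real.log (1 / δ) := by positivity
  have e7 : 0 ≤ K₀ * Real.log ((n : ℝ) + 1) := by positivity
  nlinarith

end Pool.Agent.BCX
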