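import Pool.Agent.BCX.Stmts2
import Pool.Agent.BCX.MAIN

/-!
# Upper bounds for the billiard complexity of every polygon: descent over the scales
-/

open Set Filter Topology Metric MeasureTheory
open scoped ComplexConjugate

namespace Pool.Agent.BCX

open Pool.Agent.Billiard Pool.Agent.Lib_helper45.Bil

/-- Descent over the scales. -/
theorem descent {P : Polygon} {D : ℝ} {M : ℕ} (hD : TimesOK P D M) (hRec : Stmt_REC)
    (hL : Stmt_LAST) (hS : Stmt_SUBC) (hU : Stmt_UNP) :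
    ∃ C : ℕ, 1 ≤ C ∧ ∀ (m Q : ℕ) (Γ : ℝ) (σ : ℕ → ℝ), 1 ≤ m → 1 ≤ Γ → σ Q = 0 →
      (∀ i < Q, 0 < σ i) → (∀ i < Q, Gap P m (σ (i + 1)) (σ i / Γ)) →
      ∀ (R T : ℝ) (G L : ℕ), 0 ≤ T → T + D + 1 ≤ R → 1 ≤ G →
        32 * Γ * (4 * m + 10) * (m + 2) * (1 + 8 * R / D) ≤ G →
      ∀ j i : ℕ, i + j + 1 = Q → ∀ l ≤ L, ∀ (b e : ℂ) (y₀ s₀ : ℝ) (a : ZMod P.k), ‖e‖ = 1 →
        {w : List (ZMod P.k) | w.length = l * m ∧
          RealC P (σ i / (8 * Γ * (m + 2) * D)) R T b e y₀ s₀ a w}.ncard ≤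
          (1 + L * (m * (C * m ^ 2) * (P.k * m) ^ 2) * (2 * G + 1) ^ 2) ^ j *
            (C * m ^ 2) ^ l := by
  obtain ⟨C, hC, hunp⟩ := hU P D M hD
  refine ⟨C, hC, fun m Q Γ σ hm hΓ hσQ hσ hgap R T G L hT hR hG hGG j => ?_⟩
  have hD1 : 1 ≤ D := hD.1
  have hmr : (1 : ℝ) ≤ m := by exact_mod_cast hm
  have hRpos : 0 < R := by linarith
  set B : ℕ := 1 + L * (m * (C * m ^ 2) * (P.k * m) ^ 2) * (2 * G + 1) ^ 2 with hB
  have hB1 : 1 ≤ B := by omega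
  have hden : 0 < 8 * Γ * (m + 2) * D := by positivity
  have hεpos : ∀ i < Q, 0 < σ i / (8 * Γ * (m + 2) * D) := fun i hi => div_pos (hσ i hi) hden
  have hε : ∀ i < Q, 4 * (σ i / (8 * Γ * (m + 2) * D)) * (m + 2) * D < σ i / Γ := by
    intro i hi
    have h1 : 4 * (σ i / (8 * Γ * (m + 2) * D)) * (m + 2) * D = σ i / Γ / 2 := by
      field_simp; ring
    rw [h1]
    have := div_pos (hσ i hi) (show 0 < Γ by linarith)
    linarith
  have hσnn : ∀ i < Q, 0 ≤ σ (i + 1) := by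
    intro i hi
    by_cases h : i + 1 = Q
    · rw [h, hσQ]
    · exact (hσ (i + 1) (by omega)).le
  induction j with
  | zero =>
    intro i hi l _ b e y₀ s₀ a he
    have hiQ : i < Q := by omega
    have hi1 : σ (i + 1) = 0 := by rw [show i + 1 = Q by omega, hσQ]
    have h1 := hunp m (σ (i + 1)) (σ i / Γ) (σ i / (8 * Γ * (m + 2) * D)) R T hm (hgap i hiQ)
      (hσnn i hiQ) (hεpos i hiQ) hT hR (hε i hiQ)
    have h2 : (4 * (m : ℝ) + 10) * σ (i + 1) / D = 0 := by rw [hi1]; simp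
    simp only [h2] at h1
    have h3 := hL P D m (σ i / (8 * Γ * (m + 2) * D)) R T (C * m ^ 2) h1 l b e y₀ s₀ a he
    simpa using h3
  | succ j ih =>
    intro i hi l hl b e y₀ s₀ a he
    have hiQ : i < Q := by omega
    have hi1Q : i + 1 < Q := by omega
    have h1 := hunp m (σ (i + 1)) (σ i / Γ) (σ i / (8 * Γ * (m + 2) * D)) R T hm (hgap i hiQ)
      (hσnn i hiQ) (hεpos i hiQ) hT hR (hε i hiQ)
    set ζ : ℝ := (4 * (m : ℝ) + 10) * σ (i + 1) / D with hζ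
    have hζ0 : 0 ≤ ζ := by have := hσnn i hiQ; positivity
    have h2 : ∀ l : ℕ, l ≤ L → ∀ (b e : ℂ) (y₀ s₀ : ℝ) (a : ZMod P.k), ‖e‖ = 1 →
        {w : List (ZMod P.k) | w.length = l * m ∧
          RealC P (ζ * (1 + 8 * R / D)) R T b e y₀ s₀ a w}.ncard ≤
          ((2 * G + 1) ^ 2 * B ^ j) * (C * m ^ 2) ^ l := by
      intro l hl b e y₀ s₀ a he
      have h3 := hS P (ζ * (1 + 8 * R / D)) (σ (i + 1) / (8 * Γ * (m + 2) * D)) R T G (l * m)
        (B ^ j * (C * m ^ 2) ^ l) b e a (hεpos (i + 1) hi1Q) hRpos hG (by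
          have h4 := hσ (i + 1) hi1Q
          have h5 : 4 * (ζ * (1 + 8 * R / D)) =
              (32 * Γ * (4 * m + 10) * (m + 2) * (1 + 8 * R / D)) *
                (σ (i + 1) / (8 * Γ * (m + 2) * D)) := by
            rw [hζ]; field_simp; ring
          rw [h5]
          exact mul_le_mul_of_nonneg_right hGG (hεpos (i + 1) hi1Q).le)
        (fun y₀ s₀ => ih (i + 1) (by omega) l hl b e y₀ s₀ a he) y₀ s₀
      rw [mul_assoc]
      exact h3
    have h4 := hRec P D M hD m L ζ (σ i / (8 * Γ * (m + 2) * D)) (ζ * (1 + 8 * R / D)) R T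
      (C * m ^ 2) (C * m ^ 2) ((2 * G + 1) ^ 2 * B ^ j) hm hζ0 hT hR le_rfl le_rfl h1 h2
      l hl b e y₀ s₀ a he
    refine h4.trans (Nat.mul_le_mul_right _ ?_)
    have h5 : 1 ≤ B ^ j := Nat.one_le_pow _ _ hB1
    calc 1 + l * (m * (C * m ^ 2) * (P.k * m) ^ 2) * ((2 * G + 1) ^ 2 * B ^ j)
        ≤ B ^ j + L * (m * (C * m ^ 2) * (P.k * m) ^ 2) * ((2 * G + 1) ^ 2 * B ^ j) := by
          gcongr
      _ = B ^ (j + 1) := by rw [pow_succ, hB]; ring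

theorem realW_sub {P : Polygon} {R T : ℝ} {b e : ℂ} {a : ZMod P.k} {w : List (ZMod P.k)}
    (h : RealW P 1 R T b e a w) : RealC P 1 R T b e 0 0 a w := by
  obtain ⟨y, s, t, t', h⟩ := h
  refine ⟨y, s, t, t', ?_, h⟩
  have := h.1
  unfold Box at this
  unfold BoxC
  simpa using this

theorem log_poly {q A u : ℝ} {p : ℕ} (hq : 0 < q) (hA : 1 ≤ A) (hu : 0 < u)
    (hu1 : 1 ≤ Real.log u) (h : q ≤ A * u ^ p) : Real.log q ≤ (Real.log A + p) * Real.log u := by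
  have h1 := Real.log_le_log hq h
  rw [Real.log_mul (by positivity) (by positivity), Real.log_pow] at h1
  have h2 : 0 ≤ Real.log A := Real.log_nonneg hA
  nlinarith

/-- The final calculation. -/
theorem final_calc {LR LG LB Lu Lm lm Q q l x L₂ L₁ a₁ a₂ a₃ g : ℝ}
    (e1 : LR ≤ (a₁ + 1) * Lu) (e2 : LG ≤ (a₂ + 1) * Lu) (e3 : LB ≤ (a₃ + 12) * Lu)
    (e4 : q ≤ Q) (hLB : 0 ≤ LB) (hQ : 1 ≤ Q) (hl : 0 ≤ l) (hlx : l ≤ x) (hx : 0 ≤ x)
    (hlm : lm ≤ Lm) (hlm0 : 0 ≤ lm) (hg : g ≤ Lm) (hg0 : 0 < g) (hLu : 1 ≤ Lu) (hL₂ : 0 ≤ L₂)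
    (hL₁ : 0 ≤ L₁) (ha₁ : 0 ≤ a₁) (ha₂ : 0 ≤ a₂) (ha₃ : 0 ≤ a₃) (hq : 0 ≤ q) :
    L₂ + 4 * LR + (2 * LG + (q * LB + l * (L₁ + 2 * lm))) ≤
      (L₂ + 4 * (a₁ + 1) + 2 * (a₂ + 1) + (a₃ + 12) + (L₁ / g + 2)) * (Q * Lu + x * Lm) := by
  have hQL : Lu ≤ Q * Lu := le_mul_of_one_le_left (by linarith) hQ
  have hQL1 : 1 ≤ Q * Lu := hLu.trans hQL
  have f1 : L₂ ≤ L₂ * (Q * Lu) := le_mul_of_one_le_right hL₂ hQL1
  have f2 : 4 * LR ≤ 4 * (a₁ + 1) * (Q * Lu) := by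
    have h5 : (a₁ + 1) * Lu ≤ (a₁ + 1) * (Q * Lu) := mul_le_mul_of_nonneg_left hQL (by linarith)
    linarith
  have f3 : 2 * LG ≤ 2 * (a₂ + 1) * (Q * Lu) := by
    have h5 : (a₂ + 1) * Lu ≤ (a₂ + 1) * (Q * Lu) := mul_le_mul_of_nonneg_left hQL (by linarith)
    linarith
  have f4 : q * LB ≤ (a₃ + 12) * (Q * Lu) := by
    have h5 : q * LB ≤ Q * ((a₃ + 12) * Lu) := mul_le_mul e4 e3 hLB (by linarith)
    have h6 : Q * ((a₃ + 12) * Lu) = (a₃ + 12) * (Q * Lu) := by ring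
    rw [← h6]; exact h5
  have f5 : L₁ + 2 * lm ≤ (L₁ / g + 2) * Lm := by
    have h5 : L₁ ≤ L₁ / g * Lm := by
      rw [div_mul_eq_mul_div, le_div_iff₀ hg0]
      exact mul_le_mul_of_nonneg_left hg hL₁
    rw [add_mul]; linarith
  have f6 : l * (L₁ + 2 * lm) ≤ (L₁ / g + 2) * (x * Lm) := by
    have h5 : l * (L₁ + 2 * lm) ≤ x * ((L₁ / g + 2) * Lm) :=
      mul_le_mul hlx f5 (by linarith) hx
    have h6 : x * ((L₁ / g + 2) * Lm) = (L₁ / g + 2) * (x * Lm) := by ring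
    rw [← h6]; exact h5
  have hLm0 : 0 ≤ Lm := by linarith
  have hxL : 0 ≤ x * Lm := mul_nonneg hx hLm0
  have hc1 : 0 ≤ (L₂ + 4 * (a₁ + 1) + 2 * (a₂ + 1) + (a₃ + 12)) * (x * Lm) := by positivity
  have hc2 : 0 ≤ (L₁ / g + 2) * (Q * Lu) := by positivity
  have hexp : (L₂ + 4 * (a₁ + 1) + 2 * (a₂ + 1) + (a₃ + 12) + (L₁ / g + 2)) * (Q * Lu + x * Lm) =
      (L₂ * (Q * Lu) + 4 * (a₁ + 1) * (Q * Lu) + 2 * (a₂ + 1) * (Q * Lu) +
        (a₃ + 12) * (Q * Lu)) + (L₂ + 4 * (a₁ + 1) + 2 * (a₂ + 1) + (a₃ + 12)) * (x * Lm) +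
        (L₁ / g + 2) * (Q * Lu) + (L₁ / g + 2) * (x * Lm) := by ring
  rw [hexp]
  linarith

theorem m_MAIN2 (hT : Stmt_TIMES) (hC : Stmt_COVER) (hRec : Stmt_REC)
    (hL : Stmt_LAST) (hS : Stmt_SUBC) (hU : Stmt_UNP) : Stmt_MAIN2 := by
  intro P
  obtain ⟨D, M, hD⟩ := hT P
  obtain ⟨C₁, hC₁, hdesc⟩ := descent hD hRec hL hS hU
  obtain ⟨C₂, hC₂, hcov⟩ := hC P D M hD
  have hD1 : 1 ≤ D := hD.1
  have hC₁r : (1 : ℝ) ≤ C₁ := by exact_mod_cast hC₁
  have hlog2 : 0 < Real.log 2 := Real.log_pos (by norm_num)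
  have hk : (3 : ℝ) ≤ P.k := by exact_mod_cast P.three_le
  set A₁ : ℝ := 4 * D with hA₁
  set A₂ : ℝ := 67 * D with hA₂
  set A₃ : ℝ := 1 + C₁ * P.k ^ 2 * 29571 ^ 2 with hA₃
  have h1A₁ : 1 ≤ A₁ := by rw [hA₁]; linarith
  have h1A₂ : 1 ≤ A₂ := by rw [hA₂]; linarith
  have h1A₃ : 1 ≤ A₃ := by
    rw [hA₃]
    have : (0 : ℝ) ≤ C₁ * P.k ^ 2 * 29571 ^ 2 := by positivity
    linarith
  have hlC₂ : 0 ≤ Real.log C₂ := Real.log_nonneg hC₂
  have hlC₁ : 0 ≤ Real.log C₁ := Real.log_nonneg hC₁r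
  have hlA₁ : 0 ≤ Real.log A₁ := Real.log_nonneg h1A₁
  have hlA₂ : 0 ≤ Real.log A₂ := Real.log_nonneg h1A₂
  have hlA₃ : 0 ≤ Real.log A₃ := Real.log_nonneg h1A₃
  refine ⟨Real.log C₂ + 4 * (Real.log A₁ + 1) + 2 * (Real.log A₂ + 1) +
    (Real.log A₃ + 12) + (Real.log C₁ / Real.log 2 + 2), by positivity,
    fun m Q Γ σ hm hQ hΓ hσ0 hσQ hσ hgap n hn => ?_⟩
  set l : ℕ := n / m + 1 with hl
  set N : ℕ := l * m with hN
  have hmr : (1 : ℝ) ≤ m := by exact_mod_cast hm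
  have hnr : (1 : ℝ) ≤ n := by exact_mod_cast hn
  have hnN : n ≤ N := by
    have h1 := Nat.div_add_mod n m
    have h2 := Nat.mod_lt n hm
    rw [hN, hl, add_mul, one_mul, mul_comm]
    omega
  have hNn : (N : ℝ) ≤ n + m := by
    have h1 : N ≤ n + m := by
      rw [hN, hl, add_mul, one_mul]
      have := Nat.div_mul_le_self n m
      omega
    exact_mod_cast h1
  have hlr : (l : ℝ) ≤ n / m + 1 := by
    rw [hl]; push_cast
    have := Nat.cast_div_le (α := ℝ) (m := n) (n := m)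
    linarith
  set u : ℝ := Γ * (n + m + 1) with hu
  have hnm : (n : ℝ) + m + 1 ≤ u := le_mul_of_one_le_left (by positivity) hΓ
  have hu3 : 3 ≤ u := by linarith
  have hu0 : 0 < u := by linarith
  have hlu : 1 ≤ Real.log u := by
    rw [Real.le_log_iff_exp_le hu0]
    have := Real.exp_one_lt_d9
    linarith
  have hΓm : Γ * (m + 2) ≤ u := mul_le_mul_of_nonneg_left (by linarith) (by linarith)
  set T : ℝ := N * D + 2 with hTd
  set R : ℝ := T + D + 1 with hRd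
  have hND : 0 ≤ (N : ℝ) * D := by positivity
  have hTpos : 0 ≤ T := by linarith
  have hR1 : 1 ≤ R := by linarith
  have hRu : R ≤ A₁ * u ^ 1 := by
    have h1 : (N : ℝ) * D ≤ (n + m) * D := mul_le_mul_of_nonneg_right hNn (by positivity)
    have h2 : R ≤ 4 * D * (n + m + 1) := by
      have h3 : (3 : ℝ) ≤ 3 * D := by linarith
      have h4 : 0 ≤ (n : ℝ) * D := by positivity
      have h5 : 0 ≤ (m : ℝ) * D := by positivity
      rw [hRd, hTd]; linarith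
    rw [hA₁, pow_one]
    exact h2.trans (mul_le_mul_of_nonneg_left hnm (by positivity))
  -- the numbers of sub-boxes
  set G₀ : ℕ := ⌈32 * Γ * (m + 2) * D⌉₊ with hG₀
  set G : ℕ := ⌈32 * Γ * (4 * m + 10) * (m + 2) * (1 + 8 * R / D)⌉₊ with hG
  have hΓm1 : 1 ≤ Γ * (m + 2) := one_le_mul_of_one_le_of_one_le hΓ (by linarith)
  have hG₀1 : 1 ≤ G₀ := by
    rw [hG₀, Nat.one_le_ceil_iff]; positivity
  have hG1 : 1 ≤ G := by
    rw [hG, Nat.one_le_ceil_iff]; positivity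
  have hG₀u : (2 * (G₀ : ℝ) + 1) ≤ A₂ * u ^ 1 := by
    have h1 := (Nat.ceil_lt_add_one (show 0 ≤ 32 * Γ * (m + 2) * D by positivity)).le
    rw [← hG₀] at h1
    have h2 : 32 * Γ * (m + 2) * D ≤ 32 * D * u := by
      have h3 : 32 * Γ * (m + 2) * D = 32 * D * (Γ * (m + 2)) := by ring
      rw [h3]
      exact mul_le_mul_of_nonneg_left hΓm (by positivity)
    have h3 : (3 : ℝ) ≤ 3 * (D * u) := by
      have : 1 ≤ D * u := one_le_mul_of_one_le_of_one_le hD1 (by linarith)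
      linarith
    rw [hA₂, pow_one]; linarith
  have hRD : 1 + 8 * R / D ≤ 33 * u := by
    have h1 : R / D ≤ 4 * u := by
      rw [div_le_iff₀ (by linarith)]
      rw [hA₁, pow_one] at hRu; linarith
    have h2 : 8 * R / D = 8 * (R / D) := by ring
    rw [h2]; linarith
  have hGu : (2 * (G : ℝ) + 1) ≤ 29571 * u ^ 3 := by
    have h1 := (Nat.ceil_lt_add_one
      (show 0 ≤ 32 * Γ * (4 * m + 10) * (m + 2) * (1 + 8 * R / D) by positivity)).le
    rw [← hG] at h1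
    have h2 : (4 * (m : ℝ) + 10) ≤ 14 * u := by linarith
    have h3 : 32 * Γ * (4 * m + 10) * (m + 2) * (1 + 8 * R / D) ≤ 14784 * u ^ 3 := by
      calc 32 * Γ * (4 * m + 10) * (m + 2) * (1 + 8 * R / D)
          = 32 * ((Γ * (m + 2)) * (4 * m + 10) * (1 + 8 * R / D)) := by ring
        _ ≤ 32 * (u * (14 * u) * (33 * u)) := by
            have h4 : 0 ≤ 1 + 8 * R / D := by positivity
            gcongr
        _ = 14784 * u ^ 3 := by ring
    have h4 : 1 ≤ u ^ 3 := one_le_pow₀ (by linarith)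
    linarith
  set B : ℕ := 1 + l * (m * (C₁ * m ^ 2) * (P.k * m) ^ 2) * (2 * G + 1) ^ 2 with hB
  have hB1 : 1 ≤ B := by omega
  have hlu' : (l : ℝ) ≤ u := by
    have : (n : ℝ) / m ≤ n := div_le_self (by linarith) hmr
    linarith
  have hmu : (m : ℝ) ≤ u := by linarith
  have hBu : (B : ℝ) ≤ A₃ * u ^ 12 := by
    rw [hB]; push_cast
    have h1 : (l : ℝ) * (m * (C₁ * m ^ 2) * (P.k * m) ^ 2) * (2 * G + 1) ^ 2 ≤
        u * (u * (C₁ * u ^ 2) * (P.k * u) ^ 2) * (29571 * u ^ 3) ^ 2 := by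
      gcongr
    have h2 : u * (u * (C₁ * u ^ 2) * (P.k * u) ^ 2) * (29571 * u ^ 3) ^ 2 =
        (C₁ * P.k ^ 2 * 29571 ^ 2) * u ^ 12 := by ring
    have h3 : 1 ≤ u ^ 12 := one_le_pow₀ (by linarith)
    rw [hA₃, add_mul]
    linarith
  set K : ℕ := C₁ * m ^ 2 with hK
  have hK1 : 1 ≤ K := by
    rw [hK]; exact Nat.one_le_iff_ne_zero.2 (by positivity)
  -- the bound at the first scale
  have h0 := hdesc m Q Γ σ hm hΓ hσQ hσ hgap R T G l hTpos le_rfl hG1 (Nat.le_ceil _) (Q - 1) 0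
    (by omega) l le_rfl
  rw [hσ0] at h0
  have hε0 : (0 : ℝ) < 1 / (8 * Γ * (m + 2) * D) := by positivity
  have h1 : ∀ (b e : ℂ) (a : ZMod P.k), ‖e‖ = 1 →
      {w : List (ZMod P.k) | w.length = N ∧ RealW P 1 R T b e a w}.ncard ≤
        (2 * G₀ + 1) ^ 2 * (B ^ (Q - 1) * K ^ l) := by
    intro b e a he
    have h2 := hS P 1 (1 / (8 * Γ * (m + 2) * D)) R T G₀ (l * m) (B ^ (Q - 1) * K ^ l) b e a hε0
      (by linarith) hG₀1 (by
        have h3 := Nat.le_ceil (32 * Γ * (m + 2) * D)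
        rw [← hG₀] at h3
        have h4 : (4 : ℝ) * 1 = (32 * Γ * (m + 2) * D) * (1 / (8 * Γ * (m + 2) * D)) := by
          field_simp; norm_num
        rw [h4]
        exact mul_le_mul_of_nonneg_right h3 hε0.le)
      (fun y₀ s₀ => h0 b e y₀ s₀ a he) 0 0
    refine le_trans (Set.ncard_le_ncard ?_ ?_) h2
    · rintro w ⟨hw, hr⟩
      exact ⟨hw, realW_sub hr⟩
    · exact (List.finite_length_eq (ZMod P.k) (l * m)).subset fun w hw => hw.1
  have h3 := hcov N _ 1 R T one_pos le_rfl le_rfl (by linarith) h1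
  have h4 : (P.complexity n : ℝ) ≤ P.complexity N := by exact_mod_cast complexity_mono P hnN
  refine (h4.trans h3).trans ?_
  have hB0 : (0 : ℝ) < B := by exact_mod_cast hB1
  have hK0 : (0 : ℝ) < K := by exact_mod_cast hK1
  have hG₀0 : (0 : ℝ) < 2 * G₀ + 1 := by positivity
  rw [div_one, ← Real.log_le_iff_le_exp (by push_cast; positivity)]
  push_cast
  rw [Real.log_mul (by positivity) (by positivity), Real.log_mul (by positivity) (by positivity),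
    Real.log_mul (by positivity) (by positivity), Real.log_mul (by positivity) (by positivity),
    Real.log_pow, Real.log_pow, Real.log_pow, Real.log_pow]
  have hQr : (1 : ℝ) ≤ Q := by exact_mod_cast hQ
  have e1 : Real.log R ≤ (Real.log A₁ + 1) * Real.log u := by
    have := log_poly (by linarith : 0 < R) h1A₁ hu0 hlu hRu
    exact_mod_cast this
  have e2 : Real.log (2 * (G₀ : ℝ) + 1) ≤ (Real.log A₂ + 1) * Real.log u := by
    have := log_poly hG₀0 h1A₂ hu0 hlu hG₀u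
    exact_mod_cast this
  have e3 : Real.log (B : ℝ) ≤ (Real.log A₃ + 12) * Real.log u := by
    have := log_poly hB0 h1A₃ hu0 hlu hBu
    exact_mod_cast this
  have e4 : ((Q - 1 : ℕ) : ℝ) ≤ Q := by
    have : Q - 1 ≤ Q := Nat.sub_le _ _
    exact_mod_cast this
  have hK' : Real.log (K : ℝ) = Real.log C₁ + 2 * Real.log m := by
    rw [hK]; push_cast
    rw [Real.log_mul (by positivity) (by positivity), Real.log_pow]
    push_cast; ring
  have h5 : 0 ≤ Real.log (B : ℝ) := Real.log_nonneg (by exact_mod_cast hB1)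
  have h6 : Real.log (m : ℝ) ≤ Real.log (m + 1) := Real.log_le_log (by linarith) (by linarith)
  have h7 : 0 ≤ Real.log (m : ℝ) := Real.log_nonneg hmr
  have hLm2 : Real.log 2 ≤ Real.log ((m : ℝ) + 1) := Real.log_le_log (by norm_num) (by linarith)
  have hfin := final_calc (LR := Real.log R) (LG := Real.log (2 * (G₀ : ℝ) + 1))
    (LB := Real.log (B : ℝ)) (Lu := Real.log u) (Lm := Real.log ((m : ℝ) + 1))
    (lm := Real.log (m : ℝ)) (Q := Q) (q := ((Q - 1 : ℕ) : ℝ)) (l := l) (x := n / m + 1)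
    (L₂ := Real.log C₂) (L₁ := Real.log C₁) (a₁ := Real.log A₁) (a₂ := Real.log A₂)
    (a₃ := Real.log A₃) (g := Real.log 2) e1 e2 e3 e4 h5 hQr (by positivity) hlr (by positivity)
    h6 h7 hLm2 hlog2 hlu hlC₂ hlC₁ hlA₁ hlA₂ hlA₃ (by positivity)
  rw [hK']
  push_cast at hfin ⊢
  exact hfin

end Pool.Agent.BCX
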