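import Pool.Agent.BCX.INV
import Pool.Agent.BCX.TRI
import Pool.Agent.BCX.SIZE

/-!
# Part 4, module OPT: optimal lines exist (helper90)
-/

open Set Filter Topology Metric
open scoped ComplexConjugate

namespace Pool.Agent.BCX

open Pool.Agent.Billiard Pool.Agent.Lib_helper45.Bil

namespace OPT

/-- the clearance of a line of `W` is at most `D` -/
theorem bound {P : Polygon} {D : ℝ} {M : ℕ} (hT : TimesOK P D M) {g : ZMod P.k} {W : List (SL P)}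
    {z u : ℂ} (hW : W ≠ []) (h : SR P g W z u) {ρ : ℝ} (hρ : Cl P ρ W z u) : ρ ≤ D := by
  obtain ⟨hu, t, htg, hSP⟩ := h
  obtain ⟨T, hpath⟩ := SIZE.SP_path P W z u t hSP
  obtain ⟨s, hs0, -, -, -, hv, -⟩ := hT.2 z u t T (lets W) g hu htg hpath
  have h1 := hv 0 (Nat.zero_le _) 0
  rw [List.take_zero, hs0] at h1
  have h2 : P.vertex 0 ∈ VX P W := ⟨0, List.length_pos_iff.2 hW, 0, by rw [List.take_zero]; rfl⟩
  exact (hρ _ h2).trans ((M_TRI.ld_le hu).trans h1)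

/-- a line of `W` has a positive clearance -/
theorem exists_pos {P : Polygon} {W : List (SL P)} {z u : ℂ} (hf : (VX P W).Finite) (hu : u ≠ 0)
    (h : ∀ q ∈ VX P W, sd z u q ≠ 0) : ∃ ρ : ℝ, 0 < ρ ∧ Cl P ρ W z u := by
  have hpos : ∀ q ∈ VX P W, 0 < ld z u q := fun q hq =>
    div_pos (abs_pos.2 (h q hq)) (norm_pos_iff.2 hu)
  rcases (VX P W).eq_empty_or_nonempty with h0 | h0
  · refine ⟨1, one_pos, fun q hq => ?_⟩
    rw [h0] at hq
    exact absurd hq (Set.notMem_empty q)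
  · obtain ⟨q₀, hq₀, hmin⟩ := hf.exists_minimalFor (ld z u) (VX P W) h0
    refine ⟨ld z u q₀, hpos q₀ hq₀, fun q hq => ?_⟩
    rcases le_total (ld z u q₀) (ld z u q) with h1 | h1
    · exact h1
    · exact hmin hq h1

/-- normalisation of a line -/
theorem normalise {P : Polygon} {g : ZMod P.k} {W : List (SL P)} {z u : ℂ} {ρ : ℝ}
    (h : SR P g W z u) (hρ : Cl P ρ W z u) :
    ∃ z' u' : ℂ, ‖u'‖ = 1 ∧ z' ∈ rel P g ∧ SR P g W z' u' ∧ Cl P ρ W z' u' := by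
  obtain ⟨hu, t, htg, hSP⟩ := h
  have hn : 0 < ‖u‖ := norm_pos_iff.2 hu
  have hl : 0 < 1 / ‖u‖ := by positivity
  have hnorm : ‖((1 / ‖u‖ : ℝ) : ℂ) * u‖ = 1 := by
    rw [norm_mul, Complex.norm_real, Real.norm_eq_abs, abs_of_pos hl]
    field_simp
  refine ⟨z + t * u, ((1 / ‖u‖ : ℝ) : ℂ) * u, hnorm, htg, ⟨?_, 0, ?_, ?_⟩, ?_⟩
  · intro h0
    rw [h0, norm_zero] at hnorm
    exact zero_ne_one hnorm
  · rw [Complex.ofReal_zero, zero_mul, add_zero]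
    exact htg
  · have := INV.SP_repar hl t W z u t hSP
    rwa [sub_self, zero_div] at this
  · intro q hq
    have h1 := hρ q hq
    unfold ld at h1 ⊢
    rw [INV.sd_repar, hnorm, div_one, abs_mul, abs_of_pos hl]
    have : 1 / ‖u‖ * |sd z u q| = |sd z u q| / ‖u‖ := by ring
    rw [this]
    exact h1

end OPT

open OPT in
theorem m_OPT : Stmt_VXL → Stmt_OPT := by
  intro hVXL P D M hT g W z u hW h
  refine ⟨?_, fun ρ hρ => bound hT hW h hρ⟩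
  obtain ⟨hfin, -, -, -, hsd, -⟩ := hVXL P
  obtain ⟨ρ₀, hρ₀, hcl₀⟩ := exists_pos (hfin W) h.1 (hsd g W z u h)
  set S : Set ℝ := {ρ | ∃ z' u' : ℂ, SR P g W z' u' ∧ Cl P ρ W z' u'} with hS
  have hbdd : BddAbove S := ⟨D, by
    rintro ρ ⟨z', u', h1, h2⟩
    exact bound hT hW h1 h2⟩
  have hmem : ρ₀ ∈ S := ⟨z, u, h, hcl₀⟩
  have hsup : 0 < sSup S := hρ₀.trans_le (le_csSup hbdd hmem)
  obtain ⟨ρ, ⟨z', u', h1, h2⟩, hlt⟩ := exists_lt_of_lt_csSup ⟨ρ₀, hmem⟩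
    (show sSup S / 2 < sSup S by linarith)
  obtain ⟨z'', u'', a1, a2, a3, a4⟩ := normalise h1 h2
  refine ⟨z'', u'', ρ, a1, a2, a3, by linarith, a4, fun w v ρ' b1 b2 => ?_⟩
  have : ρ' ≤ sSup S := le_csSup hbdd ⟨w, v, b1, b2⟩
  linarith

end Pool.Agent.BCX
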