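import Pool.Agent.BCX.Stmts

/-!
# Small values of a real polynomial in one variable (POLY1)
-/

set_option autoImplicit false

open Set Filter Topology Metric MeasureTheory

namespace Pool.Agent.BCX

namespace POLY1

/-- If the product of the distances to the points of a multiset is smaller than `r ^ card`, one of
the distances is smaller than `r`. -/
theorem exists_lt (x : ℂ) (r : ℝ) (hr : 0 < r) : ∀ (s : Multiset ℂ),
    (s.map fun a => ‖x - a‖).prod < r ^ s.card → ∃ a ∈ s, ‖x - a‖ < r := by
  intro s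
  induction s using Multiset.induction_on with
  | empty => intro h; simp at h
  | cons a s ih =>
    intro h
    by_cases ha : ‖x - a‖ < r
    · exact ⟨a, Multiset.mem_cons_self a s, ha⟩
    · rw [Multiset.map_cons, Multiset.prod_cons, Multiset.card_cons, pow_succ, mul_comm (r ^ _)] at h
      have h1 : (s.map fun a => ‖x - a‖).prod < r ^ s.card := by
        by_contra h2
        rw [not_lt] at h2 ha
        exact absurd h (not_lt.2 (mul_le_mul ha h2 (by positivity) (norm_nonneg _)))
      obtain ⟨b, hb, hb'⟩ := ih h1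
      exact ⟨b, Multiset.mem_cons_of_mem hb, hb'⟩

theorem norm_eval (p : Polynomial ℝ) (x : ℝ) :
    |p.eval x| = |p.leadingCoeff| *
      (((p.map (algebraMap ℝ ℂ)).roots.map fun a => ‖(x : ℂ) - a‖).prod) := by
  have h0 : (p.map (algebraMap ℝ ℂ)).eval (x : ℂ) = ((p.eval x : ℝ) : ℂ) := by
    have := Polynomial.eval_map_apply (f := algebraMap ℝ ℂ) (p := p) x
    exact this
  have h1 := (IsAlgClosed.splits (p.map (algebraMap ℝ ℂ))).eval_eq_prod_roots (x : ℂ)
  have h2 : (p.map (algebraMap ℝ ℂ)).leadingCoeff = ((p.leadingCoeff : ℝ) : ℂ) :=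
    Polynomial.leadingCoeff_map _
  rw [h0, h2] at h1
  have h3 := congrArg norm h1
  rw [norm_mul, Complex.norm_real, Complex.norm_real, Real.norm_eq_abs, Real.norm_eq_abs] at h3
  rw [h3]
  congr 1
  have h4 := map_multiset_prod (normHom : ℂ →*₀ ℝ)
    ((p.map (algebraMap ℝ ℂ)).roots.map fun a => (x : ℂ) - a)
  rw [Multiset.map_map] at h4
  exact h4

end POLY1

open POLY1 in
theorem m_POLY1 : Stmt_POLY1 := by
  intro p l δ hN hl hlc hδ
  set N := p.natDegree with hNdef
  have hN0 : (0 : ℝ) < N := by exact_mod_cast hN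
  set r : ℝ := (δ / l) ^ (1 / (N : ℝ)) with hr
  have hr0 : 0 < r := Real.rpow_pos_of_pos (by positivity) _
  have hrN : r ^ N = δ / l := by
    rw [hr, ← Real.rpow_natCast, ← Real.rpow_mul (by positivity), one_div,
      inv_mul_cancel₀ hN0.ne', Real.rpow_one]
  set R := (p.map (algebraMap ℝ ℂ)).roots with hR
  have hcard : R.card = N := by
    rw [hR, ← (IsAlgClosed.splits (p.map (algebraMap ℝ ℂ))).natDegree_eq_card_roots,
      Polynomial.natDegree_map]
  have hsub : {x : ℝ | |p.eval x| < δ} ⊆ ⋃ a ∈ R.toFinset, ball a.re r := by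
    intro x hx
    rw [mem_ofPred_eq, norm_eval] at hx
    have h1 : (R.map fun a => ‖(x : ℂ) - a‖).prod < r ^ R.card := by
      rw [hcard, hrN, lt_div_iff₀ hl]
      have h2 : 0 ≤ (R.map fun a => ‖(x : ℂ) - a‖).prod := by
        refine Multiset.prod_nonneg fun y hy => ?_
        obtain ⟨a, _, rfl⟩ := Multiset.mem_map.1 hy
        exact norm_nonneg _
      calc (R.map fun a => ‖(x : ℂ) - a‖).prod * l
          ≤ (R.map fun a => ‖(x : ℂ) - a‖).prod * |p.leadingCoeff| :=
            mul_le_mul_of_nonneg_left hlc h2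
        _ < δ := by rw [mul_comm]; exact hx
    obtain ⟨a, ha, h⟩ := exists_lt (x : ℂ) r hr0 R h1
    refine mem_iUnion₂.2 ⟨a, Multiset.mem_toFinset.2 ha, ?_⟩
    rw [mem_ball, Real.dist_eq]
    refine lt_of_le_of_lt ?_ h
    have := Complex.abs_re_le_norm ((x : ℂ) - a)
    simpa using this
  calc volume {x : ℝ | |p.eval x| < δ} ≤ volume (⋃ a ∈ R.toFinset, ball a.re r) :=
        measure_mono hsub
    _ ≤ ∑ a ∈ R.toFinset, volume (ball a.re r) := measure_biUnion_finset_le _ _
    _ = ∑ a ∈ R.toFinset, ENNReal.ofReal (2 * r) := by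
        refine Finset.sum_congr rfl fun a _ => ?_
        rw [Real.volume_ball]
    _ = (R.toFinset.card : ENNReal) * ENNReal.ofReal (2 * r) := by
        rw [Finset.sum_const, nsmul_eq_mul]
    _ ≤ (N : ENNReal) * ENNReal.ofReal (2 * r) := by
        gcongr
        rw [← hcard]
        exact Multiset.toFinset_card_le R
    _ = ENNReal.ofReal (2 * N * r) := by
        rw [← ENNReal.ofReal_natCast, ← ENNReal.ofReal_mul (by positivity)]
        congr 1
        ring

end Pool.Agent.BCX
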