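import Pool.Agent.BCX.Stmts

/-!
# Small values of an integer polynomial in several variables (POLYMEAS)
-/

set_option autoImplicit false

open Set Filter Topology Metric MeasureTheory

namespace Pool.Agent.BCX

namespace POLYMEAS

theorem aeval_eq {d : ℕ} (Q : MvPolynomial (Fin d) ℤ) (x : Fin d → ℝ) :
    MvPolynomial.aeval x Q = MvPolynomial.eval x (MvPolynomial.map (Int.castRingHom ℝ) Q) := by
  rw [MvPolynomial.eval_map]
  rfl

theorem continuous_aeval {d : ℕ} (Q : MvPolynomial (Fin d) ℤ) :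
    Continuous fun x : Fin d → ℝ => MvPolynomial.aeval x Q := by
  simp only [aeval_eq]
  exact MvPolynomial.continuous_eval _

theorem measurable_set {d : ℕ} (Q : MvPolynomial (Fin d) ℤ) (ρ δ : ℝ) :
    MeasurableSet {x : Fin d → ℝ | (∀ i, |x i| ≤ ρ) ∧ |MvPolynomial.aeval x Q| < δ} := by
  refine MeasurableSet.inter ?_ ?_
  · have : {x : Fin d → ℝ | ∀ i, |x i| ≤ ρ} = ⋂ i, {x : Fin d → ℝ | |x i| ≤ ρ} := by
      ext x
      simp
    show MeasurableSet {x : Fin d → ℝ | ∀ i, |x i| ≤ ρ}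
    rw [this]
    exact MeasurableSet.iInter fun i =>
      measurableSet_le ((measurable_pi_apply i).abs) measurable_const
  · exact (isOpen_lt (continuous_aeval Q).abs continuous_const).measurableSet

theorem measurable_box (d : ℕ) (ρ : ℝ) : MeasurableSet {x : Fin d → ℝ | ∀ i, |x i| ≤ ρ} := by
  have : {x : Fin d → ℝ | ∀ i, |x i| ≤ ρ} = ⋂ i, {x : Fin d → ℝ | |x i| ≤ ρ} := by
    ext x
    simp
  rw [this]
  exact MeasurableSet.iInter fun i =>
    measurableSet_le ((measurable_pi_apply i).abs) measurable_const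

theorem volume_box (d : ℕ) {ρ : ℝ} (hρ : 0 < ρ) :
    volume {x : Fin d → ℝ | ∀ i, |x i| ≤ ρ} = ENNReal.ofReal ((2 * ρ) ^ d) := by
  have h : {x : Fin d → ℝ | ∀ i, |x i| ≤ ρ} = Set.pi univ fun _ => Icc (-ρ) ρ := by
    ext x
    simp only [mem_ofPred_eq, Set.mem_pi, mem_univ, forall_true_left, mem_Icc, abs_le]
  rw [h, volume_pi_pi]
  simp only [Real.volume_Icc, Finset.prod_const, Finset.card_univ, Fintype.card_fin]
  rw [← ENNReal.ofReal_pow (by linarith)]
  congr 2
  ring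

/-- The polynomial in the first variable. -/
noncomputable def sl {d : ℕ} (Q : MvPolynomial (Fin (d + 1)) ℤ) (y : Fin d → ℝ) :
    Polynomial ℝ :=
  (MvPolynomial.finSuccEquiv ℤ d Q).map
    ((MvPolynomial.aeval y : MvPolynomial (Fin d) ℤ →ₐ[ℤ] ℝ) : MvPolynomial (Fin d) ℤ →+* ℝ)

theorem aeval_cons {d : ℕ} (Q : MvPolynomial (Fin (d + 1)) ℤ) (t : ℝ) (y : Fin d → ℝ) :
    MvPolynomial.aeval (Fin.cons t y : Fin (d + 1) → ℝ) Q = (sl Q y).eval t := by
  have h : (MvPolynomial.aeval (Fin.cons t y : Fin (d + 1) → ℝ) :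
      MvPolynomial (Fin (d + 1)) ℤ →ₐ[ℤ] ℝ).toRingHom =
      ((Polynomial.evalRingHom t).comp ((Polynomial.mapRingHom
        ((MvPolynomial.aeval y : MvPolynomial (Fin d) ℤ →ₐ[ℤ] ℝ) :
          MvPolynomial (Fin d) ℤ →+* ℝ)).comp
            (MvPolynomial.finSuccEquiv ℤ d).toAlgHom.toRingHom)) := by
    refine MvPolynomial.ringHom_ext' (RingHom.ext_int _ _) fun i => ?_
    refine Fin.cases ?_ (fun j => ?_) i
    · simp [MvPolynomial.finSuccEquiv_X_zero]
    · simp [MvPolynomial.finSuccEquiv_X_succ]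
  exact DFunLike.congr_fun h Q

theorem slice (hP : Stmt_POLY1) {d : ℕ} (Q : MvPolynomial (Fin (d + 1)) ℤ) {N : ℕ} (hN : 1 ≤ N)
    (hQN : Q.totalDegree ≤ N) {δ : ℝ} (hδ : 0 < δ) (hδ1 : δ ≤ 1) (y : Fin d → ℝ)
    (hy : √δ ≤ |MvPolynomial.aeval y (MvPolynomial.finSuccEquiv ℤ d Q).leadingCoeff|) :
    volume {t : ℝ | |(sl Q y).eval t| < δ} ≤ ENNReal.ofReal (2 * N * √δ ^ (1 / (N : ℝ))) := by
  set q := MvPolynomial.finSuccEquiv ℤ d Q with hq
  have hs0 : 0 < √δ := Real.sqrt_pos.2 hδ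
  have hs1 : √δ ≤ 1 := Real.sqrt_le_one.2 hδ1
  have hc : (MvPolynomial.aeval y q.leadingCoeff : ℝ) ≠ 0 := by
    intro h
    rw [h, abs_zero] at hy
    linarith
  have hc' : ((MvPolynomial.aeval y : MvPolynomial (Fin d) ℤ →ₐ[ℤ] ℝ) :
      MvPolynomial (Fin d) ℤ →+* ℝ) q.leadingCoeff ≠ 0 := hc
  have hdeg : (sl Q y).natDegree = q.natDegree :=
    Polynomial.natDegree_map_of_leadingCoeff_ne_zero _ hc'
  have hlc : (sl Q y).leadingCoeff = MvPolynomial.aeval y q.leadingCoeff :=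
    Polynomial.leadingCoeff_map_of_leadingCoeff_ne_zero _ hc'
  have hkN : q.natDegree ≤ N := by
    rw [hq, MvPolynomial.natDegree_finSuccEquiv]
    exact (MvPolynomial.degreeOf_le_totalDegree Q 0).trans hQN
  rcases Nat.eq_zero_or_pos q.natDegree with h0 | h0
  · have h1 : {t : ℝ | |(sl Q y).eval t| < δ} = ∅ := by
      rw [eq_empty_iff_forall_notMem]
      intro t ht
      have h2 : (sl Q y).eval t = (sl Q y).leadingCoeff := by
        rw [Polynomial.eq_C_of_natDegree_eq_zero (hdeg.trans h0)]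
        simp
      rw [mem_ofPred_eq, h2, hlc] at ht
      have h3 : δ ≤ √δ := by
        calc δ = √δ * √δ := (Real.mul_self_sqrt hδ.le).symm
          _ ≤ √δ * 1 := mul_le_mul_of_nonneg_left hs1 hs0.le
          _ = √δ := mul_one _
      linarith
    rw [h1, measure_empty]
    exact zero_le
  · have h1 := hP (sl Q y) (√δ) δ (by rw [hdeg]; exact h0) hs0 (by rw [hlc]; exact hy) hδ
    refine h1.trans (ENNReal.ofReal_le_ofReal ?_)
    rw [hdeg, Real.div_sqrt]
    have hk0 : (0 : ℝ) < q.natDegree := by exact_mod_cast h0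
    have hkN' : (q.natDegree : ℝ) ≤ N := by exact_mod_cast hkN
    have h2 : √δ ^ (1 / (q.natDegree : ℝ)) ≤ √δ ^ (1 / (N : ℝ)) :=
      Real.rpow_le_rpow_of_exponent_ge hs0 hs1 (one_div_le_one_div_of_le hk0 hkN')
    have h3 : 0 ≤ √δ ^ (1 / (q.natDegree : ℝ)) := Real.rpow_nonneg hs0.le _
    exact mul_le_mul (by linarith) h2 h3 (by positivity)

theorem symm_apply {d : ℕ} (t : ℝ) (y : Fin d → ℝ) :
    (MeasurableEquiv.piFinSuccAbove (fun _ : Fin (d + 1) => ℝ) 0).symm (t, y) =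
      (Fin.cons t y : Fin (d + 1) → ℝ) := by
  show (Fin.insertNthEquiv (fun _ : Fin (d + 1) => ℝ) 0) (t, y) = _
  rw [Fin.insertNthEquiv_zero]
  rfl

end POLYMEAS

open POLYMEAS in
theorem m_POLYMEAS : Stmt_POLY1 → Stmt_POLYMEAS := by
  intro hP d
  induction d with
  | zero =>
    intro ρ _
    refine ⟨1, one_pos, fun N Q _ hQ0 _ δ hδ hδ1 => ?_⟩
    have h1 : {x : Fin 0 → ℝ | (∀ i, |x i| ≤ ρ) ∧ |MvPolynomial.aeval x Q| < δ} = ∅ := by
      rw [eq_empty_iff_forall_notMem]
      rintro x ⟨-, hx⟩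
      rw [MvPolynomial.eq_C_of_isEmpty Q, MvPolynomial.aeval_C] at hx
      have h2 : MvPolynomial.coeff 0 Q ≠ 0 := by
        intro h
        apply hQ0
        rw [MvPolynomial.eq_C_of_isEmpty Q, h, map_zero]
      have h3 : (1 : ℝ) ≤ |((MvPolynomial.coeff 0 Q : ℤ) : ℝ)| := by
        have : 1 ≤ |MvPolynomial.coeff 0 Q| := Int.one_le_abs h2
        exact_mod_cast this
      have h4 : |((MvPolynomial.coeff 0 Q : ℤ) : ℝ)| < δ := hx
      linarith
    rw [h1, measure_empty]
    exact zero_le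
  | succ d ih =>
    intro ρ hρ
    obtain ⟨C, hC, ih⟩ := ih ρ hρ
    refine ⟨2 * ρ * C + 2 * (2 * ρ) ^ d, by positivity, fun N Q hN hQ0 hQN δ hδ hδ1 => ?_⟩
    have hs0 : 0 < √δ := Real.sqrt_pos.2 hδ
    have hs1 : √δ ≤ 1 := Real.sqrt_le_one.2 hδ1
    have hNr : (1 : ℝ) ≤ N := by exact_mod_cast hN
    set q := MvPolynomial.finSuccEquiv ℤ d Q with hq
    have hq0 : q ≠ 0 := (map_ne_zero_iff _ (MvPolynomial.finSuccEquiv ℤ d).injective).2 hQ0
    have hc0 : q.leadingCoeff ≠ 0 := Polynomial.leadingCoeff_ne_zero.2 hq0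
    have hcN : q.leadingCoeff.totalDegree ≤ N := by
      have := MvPolynomial.totalDegree_coeff_finSuccEquiv_add_le Q q.natDegree hc0
      exact (Nat.le_of_add_right_le this).trans hQN
    have hIH := ih N q.leadingCoeff hN hc0 hcN (√δ) hs0 hs1
    set B := {y : Fin d → ℝ | (∀ i, |y i| ≤ ρ) ∧ |MvPolynomial.aeval y q.leadingCoeff| < √δ}
      with hB
    set X := {y : Fin d → ℝ | ∀ i, |y i| ≤ ρ} with hX
    have hBm : MeasurableSet B := measurable_set _ _ _
    have hXm : MeasurableSet X := measurable_box d ρ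
    set S := {x : Fin (d + 1) → ℝ | (∀ i, |x i| ≤ ρ) ∧ |MvPolynomial.aeval x Q| < δ} with hS
    have hSm : MeasurableSet S := measurable_set _ _ _
    set e := MeasurableEquiv.piFinSuccAbove (fun _ : Fin (d + 1) => ℝ) 0 with he
    have hp : MeasurePreserving e.symm volume volume :=
      (volume_preserving_piFinSuccAbove (fun _ : Fin (d + 1) => ℝ) 0).symm e
    have hvol : volume S = ∫⁻ y : Fin d → ℝ, volume {t : ℝ | e.symm (t, y) ∈ S} := by
      rw [← hp.measure_preimage_equiv S, Measure.volume_eq_prod,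
        Measure.prod_apply_symm (e.symm.measurable hSm)]
      rfl
    set c1 := ENNReal.ofReal (2 * ρ) with hc1
    set c2 := ENNReal.ofReal (2 * N * √δ ^ (1 / (N : ℝ))) with hc2
    have hpt : ∀ y : Fin d → ℝ, volume {t : ℝ | e.symm (t, y) ∈ S} ≤
        B.indicator (fun _ => c1) y + X.indicator (fun _ => c2) y := by
      intro y
      have hmem : ∀ t : ℝ, e.symm (t, y) ∈ S ↔ (|t| ≤ ρ ∧ ∀ i, |y i| ≤ ρ) ∧
          |(sl Q y).eval t| < δ := by
        intro t
        rw [he, symm_apply, hS, mem_ofPred_eq, Fin.forall_iff_succ, aeval_cons]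
        simp only [Fin.cons_zero, Fin.cons_succ]
      by_cases hyX : ∀ i, |y i| ≤ ρ
      · by_cases hyB : |MvPolynomial.aeval y q.leadingCoeff| < √δ
        · have h1 : volume {t : ℝ | e.symm (t, y) ∈ S} ≤ c1 := by
            have h2 : {t : ℝ | e.symm (t, y) ∈ S} ⊆ Icc (-ρ) ρ := fun t ht =>
              abs_le.1 ((hmem t).1 ht).1.1
            refine (measure_mono h2).trans ?_
            rw [Real.volume_Icc, hc1]
            apply le_of_eq
            congr 1
            ring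
          rw [indicator_of_mem (show y ∈ B from ⟨hyX, hyB⟩)]
          exact h1.trans le_self_add
        · rw [not_lt] at hyB
          have h1 : volume {t : ℝ | e.symm (t, y) ∈ S} ≤ c2 := by
            have h2 : {t : ℝ | e.symm (t, y) ∈ S} ⊆ {t : ℝ | |(sl Q y).eval t| < δ} :=
              fun t ht => ((hmem t).1 ht).2
            exact (measure_mono h2).trans (slice hP Q hN hQN hδ hδ1 y hyB)
          rw [indicator_of_mem (show y ∈ X from hyX)]
          exact h1.trans le_add_self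
      · have h1 : {t : ℝ | e.symm (t, y) ∈ S} = ∅ := by
          rw [eq_empty_iff_forall_notMem]
          exact fun t ht => hyX ((hmem t).1 ht).1.2
        rw [h1, measure_empty]
        exact zero_le
    have hle : volume S ≤ c1 * volume B + c2 * volume X := by
      rw [hvol]
      refine (lintegral_mono hpt).trans ?_
      rw [lintegral_add_left (measurable_const.indicator hBm), lintegral_indicator_const hBm,
        lintegral_indicator_const hXm]
    refine hle.trans ?_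
    rw [hX, volume_box d hρ]
    refine (add_le_add_left (mul_le_mul_right hIH c1) _).trans ?_
    rw [hc1, hc2, ← ENNReal.ofReal_mul (by positivity), ← ENNReal.ofReal_mul (by positivity),
      ← ENNReal.ofReal_add (by positivity) (by positivity)]
    refine ENNReal.ofReal_le_ofReal ?_
    have hE : √δ ^ (1 / ((2 : ℝ) ^ d * N)) = δ ^ (1 / ((2 : ℝ) ^ (d + 1) * N)) := by
      rw [Real.sqrt_eq_rpow, ← Real.rpow_mul hδ.le]
      congr 1
      rw [pow_succ]
      field_simp
    have hE' : √δ ^ (1 / (N : ℝ)) ≤ √δ ^ (1 / ((2 : ℝ) ^ d * N)) := by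
      refine Real.rpow_le_rpow_of_exponent_ge hs0 hs1 ?_
      refine one_div_le_one_div_of_le (by positivity) ?_
      exact le_mul_of_one_le_left (by positivity) (one_le_pow₀ (by norm_num))
    rw [← hE]
    set E := √δ ^ (1 / ((2 : ℝ) ^ d * N)) with hEdef
    have h1 : 2 * (N : ℝ) * √δ ^ (1 / (N : ℝ)) * (2 * ρ) ^ d ≤ 2 * (N : ℝ) * E * (2 * ρ) ^ d := by
      gcongr
    calc 2 * ρ * (C * N * E) + 2 * (N : ℝ) * √δ ^ (1 / (N : ℝ)) * (2 * ρ) ^ d
        ≤ 2 * ρ * (C * N * E) + 2 * (N : ℝ) * E * (2 * ρ) ^ d := by linarith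
      _ = (2 * ρ * C + 2 * (2 * ρ) ^ d) * N * E := by ring

end Pool.Agent.BCX
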