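import Pool.Agent.BCX.Stmts3
import Pool.Agent.BCX.MAIN

/-!
# A quasi-polynomial bound for the billiard complexity of every polygon: the induction
-/

open Set Filter Topology Metric MeasureTheory
open scoped ComplexConjugate

namespace Pool.Agent.BCX

open Pool.Agent.Billiard Pool.Agent.Lib_helper45.Bil

theorem quasi_poly (h : Stmt_STEP) (P : Polygon) :
    ∃ C : ℝ, ∀ n : ℕ, 2 ≤ n → (P.complexity n : ℝ) ≤ Real.exp (C * (Real.log n) ^ 2) := by
  obtain ⟨C, hC⟩ := h P
  set A : ℕ := 2 ^ C * (C + 1) * (P.complexity 2 + 1) with hA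
  have hA1 : 1 ≤ A := by
    rw [hA]; exact Nat.one_le_iff_ne_zero.2 (by positivity)
  have hCA : C ≤ A := by
    rw [hA]
    calc C ≤ 1 * (C + 1) * 1 := by omega
      _ ≤ 2 ^ C * (C + 1) * (P.complexity 2 + 1) := by
          apply Nat.mul_le_mul (Nat.mul_le_mul_right _ Nat.one_le_two_pow) (by omega)
  have h2A : 2 ^ C ≤ A := by
    rw [hA, mul_assoc]
    exact Nat.le_mul_of_pos_right _ (by positivity)
  have hFA : P.complexity 2 ≤ A := by
    rw [hA]
    calc P.complexity 2 ≤ 1 * (P.complexity 2 + 1) := by omega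
      _ ≤ 2 ^ C * (C + 1) * (P.complexity 2 + 1) := by
          apply Nat.mul_le_mul_right
          exact Nat.one_le_iff_ne_zero.2 (by positivity)
  have key : ∀ j : ℕ, P.complexity (2 ^ j + 1) ≤ A ^ (j + 1) ^ 2 := by
    intro j
    induction j with
    | zero => simpa using hFA
    | succ j ih =>
      have h1 := hC (2 ^ j) Nat.one_le_two_pow
      have h2 : 2 * 2 ^ j + 1 = 2 ^ (j + 1) + 1 := by rw [pow_succ]; ring
      rw [h2] at h1
      refine h1.trans ?_
      have h3 : (2 ^ j) ^ C ≤ A ^ j := by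
        rw [← pow_mul, mul_comm, pow_mul]
        exact Nat.pow_le_pow_left h2A j
      calc C * (2 ^ j) ^ C * P.complexity (2 ^ j + 1)
          ≤ A * A ^ j * A ^ (j + 1) ^ 2 := Nat.mul_le_mul (Nat.mul_le_mul hCA h3) ih
        _ = A ^ (1 + j + (j + 1) ^ 2) := by rw [pow_add, pow_add, pow_one]
        _ ≤ A ^ (j + 1 + 1) ^ 2 := by
            apply Nat.pow_le_pow_right hA1
            ring_nf
            omega
  have hl2 : 0 < Real.log 2 := Real.log_pos (by norm_num)
  have hlA : 0 ≤ Real.log (A : ℝ) := Real.log_nonneg (by exact_mod_cast hA1)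
  refine ⟨Real.log A * (9 / (Real.log 2) ^ 2), fun n hn => ?_⟩
  have hnr : (2 : ℝ) ≤ n := by exact_mod_cast hn
  set j : ℕ := Nat.log 2 n + 1 with hj
  have h1 : n ≤ 2 ^ j + 1 := by
    have := Nat.lt_pow_succ_log_self (b := 2) (by norm_num) n
    rw [hj]; omega
  have h2 : P.complexity n ≤ A ^ (j + 1) ^ 2 := (complexity_mono P h1).trans (key j)
  have h3 : (P.complexity n : ℝ) ≤ (A : ℝ) ^ ((j + 1) ^ 2) := by exact_mod_cast h2
  refine h3.trans ?_
  have hA0 : (0 : ℝ) < A := by exact_mod_cast hA1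
  rw [← Real.log_le_iff_le_exp (by positivity), Real.log_pow]
  have h4 : (Nat.log 2 n : ℝ) ≤ Real.log n / Real.log 2 := by
    rw [le_div_iff₀ hl2]
    have h5 : (2 : ℝ) ^ (Nat.log 2 n) ≤ n := by
      exact_mod_cast Nat.pow_log_le_self 2 (by omega)
    have h6 := Real.log_le_log (by positivity) h5
    rwa [Real.log_pow] at h6
  have hln : Real.log 2 ≤ Real.log n := Real.log_le_log (by norm_num) hnr
  have h5 : (1 : ℝ) ≤ Real.log n / Real.log 2 := by rw [le_div_iff₀ hl2]; linarith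
  have h6 : ((j : ℝ) + 1) ≤ 3 * (Real.log n / Real.log 2) := by
    rw [hj]; push_cast; linarith
  have h7 : ((j : ℝ) + 1) ^ 2 ≤ (3 * (Real.log n / Real.log 2)) ^ 2 :=
    pow_le_pow_left₀ (by positivity) h6 2
  have h8 : (3 * (Real.log n / Real.log 2)) ^ 2 = 9 / (Real.log 2) ^ 2 * (Real.log n) ^ 2 := by
    field_simp; ring
  push_cast
  calc ((j : ℝ) + 1) ^ 2 * Real.log A ≤ (9 / (Real.log 2) ^ 2 * (Real.log n) ^ 2) * Real.log A := by
        rw [← h8]; exact mul_le_mul_of_nonneg_right h7 hlA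
    _ = Real.log A * (9 / (Real.log 2) ^ 2) * (Real.log n) ^ 2 := by ring

end Pool.Agent.BCX
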