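import Pool.Agent.BCX.Stmts2

/-!
# Upper bounds for the billiard complexity of every polygon: recursion over the scales
-/

open Set Filter Topology Metric
open scoped ComplexConjugate

namespace Pool.Agent.BCX

open Pool.Agent.Billiard Pool.Agent.Lib_helper45.Bil

namespace M_REC

/-- Slope of the line through two points in frame coordinates. -/
noncomputable def slp (b e q q' : ℂ) : ℝ := (hc b e q - hc b e q') / (tc b e q - tc b e q')

/-- Height of the line through two points in frame coordinates. -/
noncomputable def hgt (b e q q' : ℂ) : ℝ := hc b e q - slp b e q q' * tc b e q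

/-- A line which passes near two points with different times is in the box around the line
through the two points. -/
theorem near {b e : ℂ} (he : ‖e‖ = 1) {D R ζ ε' y s : ℝ} {q q' : ℂ} (hD : 0 < D) (hR : 0 ≤ R)
    (hε : ζ * (1 + 8 * R / D) ≤ ε') (hτ : |tc b e q| ≤ R)
    (hd : D / 2 ≤ |tc b e q - tc b e q'|)
    (h1 : |sd (lz b e y) (lu e s) q| ≤ ζ) (h2 : |sd (lz b e y) (lu e s) q'| ≤ ζ) :
    BoxC ε' R (hgt b e q q') (slp b e q q') y s := by
  have hne : tc b e q - tc b e q' ≠ 0 := by
    intro h
    rw [h, abs_zero] at hd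
    linarith
  have hpos : 0 < |tc b e q - tc b e q'| := by linarith
  rw [sd_frame he] at h1 h2
  have e1 : (slp b e q q' - s) * (tc b e q - tc b e q') =
      (hc b e q - (y + s * tc b e q)) - (hc b e q' - (y + s * tc b e q')) := by
    have h3 : slp b e q q' * (tc b e q - tc b e q') = hc b e q - hc b e q' := by
      unfold slp
      field_simp
    linear_combination h3
  have h4 : |slp b e q q' - s| * |tc b e q - tc b e q'| ≤ 2 * ζ := by
    rw [← abs_mul, e1]
    calc _ ≤ |hc b e q - (y + s * tc b e q)| + |hc b e q' - (y + s * tc b e q')| := abs_sub _ _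
      _ ≤ 2 * ζ := by linarith
  have h5 : |slp b e q q' - s| * (D / 2) ≤ 2 * ζ :=
    (mul_le_mul_of_nonneg_left hd (abs_nonneg _)).trans h4
  have h6 : |slp b e q q' - s| ≤ 4 * ζ / D := by
    rw [le_div_iff₀ hD]
    linarith
  have h7 : |hgt b e q q' - y| ≤ ζ + |slp b e q q' - s| * R := by
    have e2 : hgt b e q q' - y = (hc b e q - (y + s * tc b e q)) -
        (slp b e q q' - s) * tc b e q := by
      unfold hgt
      ring
    rw [e2]
    calc _ ≤ |hc b e q - (y + s * tc b e q)| + |(slp b e q q' - s) * tc b e q| := abs_sub _ _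
      _ = |hc b e q - (y + s * tc b e q)| + |slp b e q q' - s| * |tc b e q| := by rw [abs_mul]
      _ ≤ ζ + |slp b e q q' - s| * R := add_le_add h1 (mul_le_mul_of_nonneg_left hτ (abs_nonneg _))
  unfold BoxC
  rw [abs_sub_comm y, abs_sub_comm s]
  refine le_trans ?_ hε
  have h8 : |slp b e q q' - s| * R ≤ 4 * ζ / D * R := mul_le_mul_of_nonneg_right h6 hR
  have h9 : ζ * (1 + 8 * R / D) = ζ + 2 * (4 * ζ / D * R) := by ring
  rw [h9]
  linarith

variable {P : Polygon}

/-- The first pinned stage. -/
theorem first_pin {ζ D : ℝ} {b e : ℂ} {y s : ℝ} {w : List (ZMod P.k)} {m : ℕ}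
    (hm : m ≤ w.length) (h : Pin P ζ D b e y s (w.take m)) :
    ∃ N < m, ¬ Pin P ζ D b e y s (w.take N) ∧ ∃ l ≤ N, ∃ l' ≤ N, ∃ j j' : ZMod P.k,
      D / 2 ≤ |tc b e (dev P ((w.take N).take l) (P.vertex j)) -
        tc b e (dev P ((w.take N).take l') (P.vertex j'))| ∧
      |sd (lz b e y) (lu e s) (dev P ((w.take N).take l) (P.vertex j))| ≤ ζ ∧
      |sd (lz b e y) (lu e s) (dev P ((w.take N).take l') (P.vertex j'))| ≤ ζ := by
  classical
  have hex : ∃ N, Pin P ζ D b e y s (w.take N) := ⟨m, h⟩
  have h1 : Pin P ζ D b e y s (w.take (Nat.find hex)) := Nat.find_spec hex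
  have h2 : Nat.find hex ≤ m := Nat.find_min' hex h
  have h0 : Nat.find hex ≠ 0 := by
    intro h3
    rw [h3] at h1
    obtain ⟨l, hl, _⟩ := h1
    simp at hl
  obtain ⟨N, hN⟩ := Nat.exists_eq_succ_of_ne_zero h0
  rw [hN] at h1 h2
  refine ⟨N, by omega, Nat.find_min hex (by omega), ?_⟩
  obtain ⟨l, hl, l', hl', j, j', h4, h5, h6⟩ := h1
  have hlen : (w.take (N + 1)).length = N + 1 := by
    rw [List.length_take]; omega
  rw [Nat.succ_eq_add_one, hlen] at hl hl'
  have e1 : ∀ i ≤ N, (w.take N.succ).take i = (w.take N).take i := by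
    intro i hi
    rw [List.take_take, List.take_take]
    congr 1
    omega
  rw [e1 l (by omega)] at h4 h5
  rw [e1 l' (by omega)] at h4 h6
  exact ⟨l, by omega, l', by omega, j, j', h4, h5, h6⟩

end M_REC

open M_REC in
theorem m_REC : Stmt_FOLD → Stmt_REC := by
  classical
  intro hfold P D M hD m L ζ ε ε' R T K₁ K A hm hζ hT hR hε hK hun hA l
  have hD1 : 1 ≤ D := hD.1
  have hR0 : 0 ≤ R := by linarith
  have hfin : ∀ (n : ℕ) (p : List (ZMod P.k) → Prop),
      {w : List (ZMod P.k) | w.length = n ∧ p w}.Finite := by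
    intro n p
    exact (List.finite_length_eq (ZMod P.k) n).subset fun _ h => h.1
  induction l with
  | zero =>
    intro _ b e y₀ s₀ a _
    have hsub : {w : List (ZMod P.k) | w.length = 0 * m ∧ RealC P ε R T b e y₀ s₀ a w} ⊆
        {([] : List (ZMod P.k))} := by
      intro w hw
      have h1 : w.length = 0 * m := hw.1
      rw [zero_mul] at h1
      rw [mem_singleton_iff]
      exact List.length_eq_zero_iff.1 h1
    calc _ ≤ ({([] : List (ZMod P.k))} : Set (List (ZMod P.k))).ncard :=
          ncard_le_ncard hsub (finite_singleton _)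
      _ = 1 := ncard_singleton _
      _ = (1 + 0 * (m * K₁ * (P.k * m) ^ 2) * A) * K ^ 0 := by
          rw [pow_zero, mul_one, zero_mul, zero_mul, add_zero]
  | succ l ih =>
    intro hL b e y₀ s₀ a he
    -- unpinned words of length `N`
    let F : ℕ → Finset (List (ZMod P.k)) := fun N => (hfin N (fun w => ∃ y s t t',
      RealAtC P ε R T b e y₀ s₀ a w y s t t' ∧ ¬ Pin P ζ D b e y s w)).toFinset
    have hF : ∀ N ≤ m, (F N).card ≤ K₁ := by
      intro N hN
      have h1 := hun N b e y₀ s₀ a hN he
      rw [Set.ncard_eq_toFinset_card _ (hfin N _)] at h1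
      exact h1
    -- continuations
    let G : List (ZMod P.k) → Finset (List (ZMod P.k)) := fun w₁ =>
      ((hfin (l * m) (RealC P ε R T (foldz P w₁ b) (foldu P w₁ e) ((-1) ^ w₁.length * y₀)
        ((-1) ^ w₁.length * s₀) (w₁.getLastD a))).toFinset).image (fun w₂ => w₁ ++ w₂)
    let X : ℕ := (1 + l * (m * K₁ * (P.k * m) ^ 2) * A) * K ^ l
    have hG : ∀ w₁ ∈ F m, (G w₁).card ≤ X := by
      intro w₁ _
      refine Finset.card_image_le.trans ?_
      rw [← Set.ncard_eq_toFinset_card _ (hfin (l * m) _)]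
      apply ih (by omega)
      rw [norm_foldu]
      exact he
    -- pinned words
    let Q : List (ZMod P.k) → (Fin m × Fin m) × (ZMod P.k × ZMod P.k) → ℂ × ℂ := fun v κ =>
      (dev P (v.take κ.1.1) (P.vertex κ.2.1), dev P (v.take κ.1.2) (P.vertex κ.2.2))
    let H : List (ZMod P.k) → (Fin m × Fin m) × (ZMod P.k × ZMod P.k) →
        Finset (List (ZMod P.k)) := fun v κ =>
      (hfin ((l + 1) * m) (RealC P ε' R T b e (hgt b e (Q v κ).1 (Q v κ).2)
        (slp b e (Q v κ).1 (Q v κ).2) a)).toFinset
    have hH : ∀ v κ, (H v κ).card ≤ A * K ^ (l + 1) := by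
      intro v κ
      rw [← Set.ncard_eq_toFinset_card _ (hfin ((l + 1) * m) _)]
      exact hA (l + 1) hL b e _ _ a he
    let S₁ : Finset (List (ZMod P.k)) := (F m).biUnion G
    let S₂ : Finset (List (ZMod P.k)) := (Finset.range m).biUnion fun N => (F N).biUnion fun v =>
      (Finset.univ : Finset ((Fin m × Fin m) × (ZMod P.k × ZMod P.k))).biUnion fun κ => H v κ
    have hsub : {w : List (ZMod P.k) | w.length = (l + 1) * m ∧ RealC P ε R T b e y₀ s₀ a w} ⊆
        ((S₁ ∪ S₂ : Finset (List (ZMod P.k))) : Set (List (ZMod P.k))) := by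
      intro w hw
      obtain ⟨hl, y, s, t, t', hr⟩ := hw
      have hlen : w.length = m + l * m := by rw [hl]; ring
      have hsp : ∀ N, w = w.take N ++ w.drop N := fun N => (List.take_append_drop N w).symm
      have hfw : ∀ N, (∃ t₁ : ℝ, RealAtC P ε R T b e y₀ s₀ a (w.take N) y s t t₁) ∧
          ‖foldu P (w.take N) e‖ = 1 ∧ RealC P ε R T (foldz P (w.take N) b)
            (foldu P (w.take N) e) ((-1) ^ (w.take N).length * y₀)
            ((-1) ^ (w.take N).length * s₀) ((w.take N).getLastD a) (w.drop N) := by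
        intro N
        apply hfold P ε R T b e y₀ s₀ a (w.take N) (w.drop N) y s t t' he
        rw [← hsp N]
        exact hr
      rw [Finset.coe_union]
      by_cases hp : Pin P ζ D b e y s (w.take m)
      · right
        obtain ⟨N, hN, hnp, i, hi, i', hi', j, j', h1, h2, h3⟩ :=
          first_pin (by omega : m ≤ w.length) hp
        rw [Finset.mem_coe, Finset.mem_biUnion]
        refine ⟨N, Finset.mem_range.2 hN, ?_⟩
        rw [Finset.mem_biUnion]
        have hlN : (w.take N).length = N := by
          rw [List.length_take]; omega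
        refine ⟨w.take N, ?_, ?_⟩
        · obtain ⟨⟨t₁, h4⟩, _⟩ := hfw N
          simp only [F, Set.Finite.mem_toFinset, Set.mem_ofPred_eq]
          exact ⟨hlN, y, s, t, t₁, h4, hnp⟩
        · rw [Finset.mem_biUnion]
          refine ⟨((⟨i, by omega⟩, ⟨i', by omega⟩), (j, j')), Finset.mem_univ _, ?_⟩
          simp only [H, Q, Set.Finite.mem_toFinset, Set.mem_ofPred_eq]
          refine ⟨hl, y, s, t, t', ?_, hr.2⟩
          refine near he (by linarith) hR0 hε ?_ h1 h2 h3
          have h5 := hr.2.tc_le hD he hT hR i (by omega) j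
          have e1 : (w.take N).take i = w.take i := by
            rw [List.take_take]
            congr 1
            omega
          rw [e1]
          exact h5
      · left
        rw [Finset.mem_coe, Finset.mem_biUnion]
        obtain ⟨⟨t₁, h4⟩, _, h5⟩ := hfw m
        refine ⟨w.take m, ?_, ?_⟩
        · simp only [F, Set.Finite.mem_toFinset, Set.mem_ofPred_eq]
          refine ⟨?_, y, s, t, t₁, h4, hp⟩
          rw [List.length_take]; omega
        · simp only [G, Finset.mem_image]
          refine ⟨w.drop m, ?_, (hsp m).symm⟩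
          rw [Set.Finite.mem_toFinset]
          refine ⟨?_, h5⟩
          rw [List.length_drop]; omega
    have hS₁ : S₁.card ≤ K * X :=
      (Finset.card_biUnion_le_card_mul _ _ _ hG).trans (Nat.mul_le_mul_right _
        ((hF m le_rfl).trans hK))
    have hcard : (Finset.univ : Finset ((Fin m × Fin m) × (ZMod P.k × ZMod P.k))).card =
        (P.k * m) ^ 2 := by
      rw [Finset.card_univ, Fintype.card_prod, Fintype.card_prod, Fintype.card_prod,
        Fintype.card_fin, ZMod.card]
      ring
    have hS₂ : S₂.card ≤ m * (K₁ * ((P.k * m) ^ 2 * (A * K ^ (l + 1)))) := by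
      refine (Finset.card_biUnion_le_card_mul _ _ (K₁ * ((P.k * m) ^ 2 * (A * K ^ (l + 1)))) ?_).trans
        (by rw [Finset.card_range])
      intro N hN
      rw [Finset.mem_range] at hN
      refine (Finset.card_biUnion_le_card_mul _ _ ((P.k * m) ^ 2 * (A * K ^ (l + 1))) ?_).trans
        (Nat.mul_le_mul_right _ (hF N hN.le))
      intro v _
      refine (Finset.card_biUnion_le_card_mul _ _ (A * K ^ (l + 1)) (fun κ _ => hH v κ)).trans ?_
      rw [hcard]
    calc _ ≤ ((S₁ ∪ S₂ : Finset (List (ZMod P.k))) : Set (List (ZMod P.k))).ncard :=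
          ncard_le_ncard hsub (Finset.finite_toSet _)
      _ = (S₁ ∪ S₂).card := Set.ncard_coe_finset _
      _ ≤ S₁.card + S₂.card := Finset.card_union_le _ _
      _ ≤ K * X + m * (K₁ * ((P.k * m) ^ 2 * (A * K ^ (l + 1)))) := Nat.add_le_add hS₁ hS₂
      _ = (1 + (l + 1) * (m * K₁ * (P.k * m) ^ 2) * A) * K ^ (l + 1) := by
          simp only [X]
          ring

end Pool.Agent.BCX
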