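import Pool.Agent.BCX.Stmts

/-!
# Almost all polygons are separated at level `exp (-c m^2)`
-/

open Set Filter Topology Metric MeasureTheory
open scoped ComplexConjugate

namespace Pool.Agent.BCX

open Pool.Agent.Billiard Pool.Agent.Lib_helper45.Bil

namespace SEPAEaux

variable {k : ℕ} [NeZero k]

/-- The index of a residue class. -/
def idx (a : ZMod k) : Fin k := ⟨a.val, ZMod.val_lt a⟩

theorem idx_cast (a : ZMod k) : (((idx a : Fin k) : ℕ) : ZMod k) = a := ZMod.natCast_zmod_val a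

theorem idx_natCast (i : Fin k) : idx ((i : ℕ) : ZMod k) = i := by
  apply Fin.ext
  exact ZMod.val_cast_of_lt i.isLt

/-- Real coordinates. -/
noncomputable def L (k : ℕ) [NeZero k] : (Fin k → ℂ) ≃ₗ[ℝ] (ZMod k × Bool → ℝ) where
  toFun v p := if p.2 then (v (idx p.1)).im else (v (idx p.1)).re
  map_add' v w := by
    funext p
    rcases p with ⟨a, b⟩
    cases b <;> simp
  map_smul' r v := by
    funext p
    rcases p with ⟨a, b⟩
    cases b <;> simp
  invFun x i := ⟨x (((i : ℕ) : ZMod k), false), x (((i : ℕ) : ZMod k), true)⟩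
  left_inv v := by
    funext i
    apply Complex.ext
    · simp [idx_natCast]
    · simp [idx_natCast]
  right_inv x := by
    funext p
    rcases p with ⟨a, b⟩
    cases b <;> simp [idx_cast]

theorem L_apply (v : Fin k → ℂ) (p : ZMod k × Bool) :
    L k v p = if p.2 then (v (idx p.1)).im else (v (idx p.1)).re := rfl

/-- Almost everywhere properties of the coordinates. -/
theorem ae_L {p : (ZMod k × Bool → ℝ) → Prop} (h : ∀ᵐ x : ZMod k × Bool → ℝ, p x) :
    ∀ᵐ v : Fin k → ℂ, p (L k v) := by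
  have h1 : Measure.QuasiMeasurePreserving (L k).toContinuousLinearEquiv
      (volume : Measure (Fin k → ℂ)) (volume : Measure (ZMod k × Bool → ℝ)) := by
    refine ⟨(L k).toContinuousLinearEquiv.continuous.measurable, ?_⟩
    have h2 := ContinuousLinearEquiv.isAddHaarMeasure_map (L k).toContinuousLinearEquiv
      (volume : Measure (Fin k → ℂ))
    exact Measure.absolutelyContinuous_isAddHaarMeasure _ _
  exact h1.ae h

/-- The words of length at most `m`. -/
def W (k : ℕ) [NeZero k] : ℕ → Finset (List (ZMod k))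
  | 0 => {[]}
  | m + 1 => insert [] (Finset.image (fun p : ZMod k × List (ZMod k) => p.1 :: p.2)
      (Finset.univ ×ˢ W k m))

theorem mem_W : ∀ (m : ℕ) (w : List (ZMod k)), w.length ≤ m → w ∈ W k m := by
  intro m
  induction m with
  | zero =>
    intro w hw
    have : w = [] := List.eq_nil_of_length_eq_zero (by omega)
    rw [this]
    simp [W]
  | succ m ih =>
    intro w hw
    cases w with
    | nil => simp [W]
    | cons a w =>
      have h1 := ih w (by simpa using hw)
      unfold W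
      rw [Finset.mem_insert]
      right
      rw [Finset.mem_image]
      exact ⟨(a, w), Finset.mem_product.2 ⟨Finset.mem_univ _, h1⟩, rfl⟩

theorem card_W : ∀ m : ℕ, (W k m).card ≤ (k + 1) ^ m := by
  intro m
  induction m with
  | zero => simp [W]
  | succ m ih =>
    unfold W
    refine (Finset.card_insert_le _ _).trans ?_
    have h1 : (Finset.image (fun p : ZMod k × List (ZMod k) => p.1 :: p.2)
        (Finset.univ ×ˢ W k m)).card ≤ k * (k + 1) ^ m := by
      refine Finset.card_image_le.trans ?_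
      rw [Finset.card_product, Finset.card_univ, ZMod.card]
      exact Nat.mul_le_mul_left _ ih
    have h2 : 1 ≤ (k + 1) ^ m := Nat.one_le_pow _ _ (by omega)
    calc _ ≤ k * (k + 1) ^ m + 1 := by omega
      _ ≤ k * (k + 1) ^ m + (k + 1) ^ m := by omega
      _ = (k + 1) ^ (m + 1) := by ring

/-- Triples of words and of indices. -/
abbrev Idx (k : ℕ) : Type :=
  (List (ZMod k) × List (ZMod k) × List (ZMod k)) × (ZMod k × ZMod k × ZMod k)

/-- All triples of words of length at most `m` and indices. -/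
def TT (k : ℕ) [NeZero k] (m : ℕ) : Finset (Idx k) :=
  (W k m ×ˢ W k m ×ˢ W k m) ×ˢ (Finset.univ ×ˢ Finset.univ ×ˢ Finset.univ)

theorem card_TT {m : ℕ} (hm : 1 ≤ m) : (TT k m).card ≤ (k + 1) ^ (6 * m) := by
  unfold TT
  rw [Finset.card_product, Finset.card_product, Finset.card_product, Finset.card_product,
    Finset.card_product, Finset.card_univ, ZMod.card]
  have h1 := card_W (k := k) m
  have h2 : k ≤ (k + 1) ^ m := by
    calc k ≤ (k + 1) ^ 1 := by rw [pow_one]; omega
      _ ≤ (k + 1) ^ m := Nat.pow_le_pow_right (by omega) hm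
  calc (W k m).card * ((W k m).card * (W k m).card) * (k * (k * k)) ≤
        (k + 1) ^ m * ((k + 1) ^ m * (k + 1) ^ m) *
          ((k + 1) ^ m * ((k + 1) ^ m * (k + 1) ^ m)) := by gcongr
    _ = (k + 1) ^ (6 * m) := by ring

end SEPAEaux

open SEPAEaux

theorem m_SEPAE : Stmt_AEPOLY → Stmt_DEVPOLY → Stmt_SEPAE := by
  intro hAE hDEV k hk
  have : NeZero k := ⟨by omega⟩
  classical
  obtain ⟨B, hB1, hB⟩ := hDEV k
  choose! F hF using hB
  let Ω : ℕ → Finset (MvPolynomial (ZMod k × Bool) ℤ) := fun m =>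
    (TT k m).image (fun t => if t.1.1.length ≤ m ∧ t.1.2.1.length ≤ m ∧ t.1.2.2.length ≤ m then
      F m t.1.1 t.1.2.1 t.1.2.2 t.2.1 t.2.2.1 t.2.2.2 else 0)
  have hlk : 0 ≤ Real.log (k + 1) := Real.log_nonneg (by
    have : (0 : ℝ) ≤ k := Nat.cast_nonneg k
    linarith)
  have hae := hAE (ZMod k × Bool) Ω (10 + 6 * Real.log (k + 1)) (by
    intro m hm
    have h1 : (Ω m).card ≤ (k + 1) ^ (6 * m) := Finset.card_image_le.trans (card_TT hm)
    have hm0 : (0 : ℝ) ≤ m := Nat.cast_nonneg m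
    calc ((Ω m).card : ℝ) ≤ (((k + 1) ^ (6 * m) : ℕ) : ℝ) := by exact_mod_cast h1
      _ = Real.exp (6 * m * Real.log (k + 1)) := by
        push_cast
        rw [show 6 * (m : ℝ) * Real.log (k + 1) = ((6 * m : ℕ) : ℝ) * Real.log (k + 1) by
          push_cast; ring, Real.exp_nat_mul, Real.exp_log (by positivity)]
      _ ≤ _ := by
        apply Real.exp_le_exp.2
        nlinarith) (by
    intro m hm Q hQ
    have hm1 : (1 : ℝ) ≤ m := by exact_mod_cast hm
    have hdeg : Q.totalDegree ≤ 8 * m + 2 := by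
      rw [Finset.mem_image] at hQ
      obtain ⟨t, _, rfl⟩ := hQ
      split_ifs with h
      · exact (hF m t.1.1 t.1.2.1 t.1.2.2 t.2.1 t.2.2.1 t.2.2.2 h.1 h.2.1 h.2.2).1
      · simp
    have h2 : (Q.totalDegree : ℝ) ≤ 8 * m + 2 := by exact_mod_cast hdeg
    nlinarith [mul_nonneg hlk (by linarith : (0 : ℝ) ≤ m)])
  have hae2 := ae_L hae
  filter_upwards [hae2] with v hv P hP hPv
  subst hP
  obtain ⟨c, hc0, hc⟩ := hv
  have hcf : cf P.vertex = L P.k v := by
    funext p
    rw [SEPAEaux.L_apply, cf, ← hPv (idx p.1), idx_cast]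
  -- the bound for the sides
  set ρ : ℝ := 1 + ∑ a : ZMod P.k, ‖P.vertex (a + 1) - P.vertex a‖ with hρ
  have hρ1 : 1 ≤ ρ := by
    have : 0 ≤ ∑ a : ZMod P.k, ‖P.vertex (a + 1) - P.vertex a‖ :=
      Finset.sum_nonneg (fun a _ => norm_nonneg _)
    linarith
  have hρa : ∀ a : ZMod P.k, ‖P.vertex (a + 1) - P.vertex a‖ ≤ ρ := by
    intro a
    have h1 : ‖P.vertex (a + 1) - P.vertex a‖ ≤ ∑ a : ZMod P.k, ‖P.vertex (a + 1) - P.vertex a‖ :=
      Finset.single_le_sum (f := fun a : ZMod P.k => ‖P.vertex (a + 1) - P.vertex a‖)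
        (fun a _ => norm_nonneg _) (Finset.mem_univ a)
    linarith
  have hne : ∀ a : ZMod P.k, P.vertex (a + 1) ≠ P.vertex a := by
    intro a h
    have h1 := P.injective h
    have h2 : (1 : ZMod P.k) = 0 := by
      have : a + 1 = a + 0 := by rw [add_zero]; exact h1
      exact add_left_cancel this
    have h3 := P.three_le
    have : Fact (1 < P.k) := ⟨by omega⟩
    exact one_ne_zero h2
  have hlρ : 0 ≤ Real.log ρ := Real.log_nonneg hρ1
  have hρ0 : 0 < ρ := by linarith
  refine ⟨c + 8 * Real.log ρ, by positivity, ?_⟩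
  intro m hm w₁ w₂ w₃ h₁ h₂ h₃ j₁ j₂ j₃
  have hm1 : (1 : ℝ) ≤ m := by exact_mod_cast hm
  rw [dev_eq_gdev, dev_eq_gdev, dev_eq_gdev]
  obtain ⟨-, -, hg⟩ := hF m w₁ w₂ w₃ j₁ j₂ j₃ h₁ h₂ h₃
  obtain ⟨g, hg0, hgρ, hgF⟩ := hg P.vertex ρ hne hρ1 hρa
  set x := cr (gdev P.vertex w₂ (P.vertex j₂) - gdev P.vertex w₁ (P.vertex j₁))
    (gdev P.vertex w₃ (P.vertex j₃) - gdev P.vertex w₁ (P.vertex j₁)) with hx
  by_cases hF0 : F m w₁ w₂ w₃ j₁ j₂ j₃ = 0
  · left
    rw [hF0, map_zero] at hgF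
    rcases mul_eq_zero.1 hgF.symm with h | h
    · exact absurd h hg0.ne'
    · exact h
  · right
    have hmem : F m w₁ w₂ w₃ j₁ j₂ j₃ ∈ Ω m := by
      rw [Finset.mem_image]
      refine ⟨((w₁, w₂, w₃), (j₁, j₂, j₃)), ?_, ?_⟩
      · unfold TT
        simp only [Finset.mem_product, Finset.mem_univ, and_true]
        exact ⟨mem_W m w₁ h₁, mem_W m w₂ h₂, mem_W m w₃ h₃⟩
      · rw [if_pos ⟨h₁, h₂, h₃⟩]
    have h4 := hc m hm _ hmem hF0
    rw [← hcf, hgF, abs_mul, abs_of_pos hg0] at h4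
    have h5 : g * |x| ≤ ρ ^ (8 * m) * |x| := mul_le_mul_of_nonneg_right hgρ (abs_nonneg x)
    have h6 : ρ ^ (8 * m) = Real.exp (8 * m * Real.log ρ) := by
      rw [show 8 * (m : ℝ) * Real.log ρ = ((8 * m : ℕ) : ℝ) * Real.log ρ by push_cast; ring,
        Real.exp_nat_mul, Real.exp_log hρ0]
    rw [h6] at h5
    have h7 : Real.exp (-c * (m : ℝ) ^ 2) * Real.exp (-(8 * m * Real.log ρ)) ≤ |x| := by
      rw [Real.exp_neg (8 * m * Real.log ρ), ← div_eq_mul_inv, div_le_iff₀ (Real.exp_pos _)]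
      linarith
    refine le_trans ?_ h7
    rw [← Real.exp_add]
    apply Real.exp_le_exp.2
    have h8 : (m : ℝ) ≤ (m : ℝ) ^ 2 := by nlinarith
    nlinarith [mul_le_mul_of_nonneg_right h8 hlρ]

end Pool.Agent.BCX
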