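import Pool.Agent.BCX.Stmts

/-!
# Algebraic polygons are exponentially separated
-/

open Set Filter Topology Metric MeasureTheory
open scoped ComplexConjugate

namespace Pool.Agent.BCX

open Pool.Agent.Billiard Pool.Agent.Lib_helper45.Bil

namespace SEPALGaux

theorem alg_conj {z : ℂ} (h : IsAlgebraic ℚ z) : IsAlgebraic ℚ (conj z) := by
  obtain ⟨p, hp, hz⟩ := h
  refine ⟨p, hp, ?_⟩
  have h1 := Polynomial.aeval_algHom_apply (Complex.conjAe.toAlgHom.restrictScalars ℚ) z p
  have h2 : (Complex.conjAe.toAlgHom.restrictScalars ℚ) z = conj z := rfl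
  rw [← h2, h1, hz, map_zero]

theorem alg_re {z : ℂ} (h : IsAlgebraic ℚ z) : IsAlgebraic ℚ ((z.re : ℝ) : ℂ) := by
  have h1 : ((z.re : ℝ) : ℂ) = (z + conj z) * algebraMap ℚ ℂ (1 / 2) := by
    rw [Complex.add_conj]
    simp
    ring
  rw [h1]
  exact (h.add (alg_conj h)).mul (isAlgebraic_algebraMap _)

theorem alg_I : IsAlgebraic ℚ Complex.I := by
  refine ⟨Polynomial.X ^ 2 + 1, ?_, ?_⟩
  · intro h
    have h1 : (Polynomial.X ^ 2 + 1 : Polynomial ℚ).eval 0 = 0 := by rw [h]; simp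
    simp at h1
  · simp

theorem alg_im {z : ℂ} (h : IsAlgebraic ℚ z) : IsAlgebraic ℚ ((z.im : ℝ) : ℂ) := by
  have h1 : ((z.im : ℝ) : ℂ) = (z - conj z) * Complex.I * algebraMap ℚ ℂ (-1 / 2) := by
    rw [Complex.sub_conj]
    have : (2 * (z.im : ℂ) * Complex.I) * Complex.I = -(2 * (z.im : ℂ)) := by
      linear_combination (2 * (z.im : ℂ)) * Complex.I_sq
    push_cast
    rw [this]
    simp
    ring
  rw [h1]
  exact ((h.sub (alg_conj h)).mul alg_I).mul (isAlgebraic_algebraMap _)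

theorem aeval_cast {ι : Type} (x : ι → ℝ) (Q : MvPolynomial ι ℤ) :
    MvPolynomial.aeval (fun i => ((x i : ℝ) : ℂ)) Q = ((MvPolynomial.aeval x Q : ℝ) : ℂ) := by
  have h := MvPolynomial.aeval_algebraMap_apply (A := ℝ) ℂ x Q
  exact h

end SEPALGaux

open SEPALGaux

theorem m_SEPALG : Stmt_LIOU → Stmt_DEVPOLY → Stmt_SEPALG := by
  intro hL hDEV P halg
  classical
  have hk := P.three_le
  have : NeZero P.k := ⟨by omega⟩
  obtain ⟨B, hB1, hB⟩ := hDEV P.k
  have hα : ∀ p : ZMod P.k × Bool, IsAlgebraic ℚ ((cf P.vertex p : ℝ) : ℂ) := by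
    intro p
    unfold cf
    split_ifs with h
    · exact alg_im (halg p.1)
    · exact alg_re (halg p.1)
  obtain ⟨A, hA0, hA⟩ := hL (ZMod P.k × Bool) (fun p => ((cf P.vertex p : ℝ) : ℂ)) hα
  -- the bound for the sides
  set ρ : ℝ := 1 + ∑ a : ZMod P.k, ‖P.vertex (a + 1) - P.vertex a‖ with hρ
  have hρ1 : 1 ≤ ρ := by
    have : 0 ≤ ∑ a : ZMod P.k, ‖P.vertex (a + 1) - P.vertex a‖ :=
      Finset.sum_nonneg (fun a _ => norm_nonneg _)
    linarith
  have hρa : ∀ a : ZMod P.k, ‖P.vertex (a + 1) - P.vertex a‖ ≤ ρ := by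
    intro a
    have h1 : ‖P.vertex (a + 1) - P.vertex a‖ ≤ ∑ a : ZMod P.k, ‖P.vertex (a + 1) - P.vertex a‖ :=
      Finset.single_le_sum (f := fun a : ZMod P.k => ‖P.vertex (a + 1) - P.vertex a‖)
        (fun a _ => norm_nonneg _) (Finset.mem_univ a)
    linarith
  have hne : ∀ a : ZMod P.k, P.vertex (a + 1) ≠ P.vertex a := by
    intro a h
    have h1 := P.injective h
    have h2 : (1 : ZMod P.k) = 0 := by
      have : a + 1 = a + 0 := by rw [add_zero]; exact h1
      exact add_left_cancel this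
    have : Fact (1 < P.k) := ⟨by omega⟩
    exact one_ne_zero h2
  have hlρ : 0 ≤ Real.log ρ := Real.log_nonneg hρ1
  have hρ0 : 0 < ρ := by linarith
  have hlB : 0 ≤ Real.log B := Real.log_nonneg hB1
  have hB0 : 0 < B := by linarith
  refine ⟨A * (12 + 2 * Real.log B) + 8 * Real.log ρ, by positivity, ?_⟩
  intro m hm w₁ w₂ w₃ h₁ h₂ h₃ j₁ j₂ j₃
  have hm1 : (1 : ℝ) ≤ m := by exact_mod_cast hm
  rw [dev_eq_gdev, dev_eq_gdev, dev_eq_gdev]
  obtain ⟨F, hdeg, hlen, hg⟩ := hB m w₁ w₂ w₃ j₁ j₂ j₃ h₁ h₂ h₃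
  obtain ⟨g, hg0, hgρ, hgF⟩ := hg P.vertex ρ hne hρ1 hρa
  set x := cr (gdev P.vertex w₂ (P.vertex j₂) - gdev P.vertex w₁ (P.vertex j₁))
    (gdev P.vertex w₃ (P.vertex j₃) - gdev P.vertex w₁ (P.vertex j₁)) with hx
  have hF := hA F
  rw [aeval_cast (cf P.vertex) F] at hF
  rcases hF with hF | hF
  · left
    have h1 : MvPolynomial.aeval (cf P.vertex) F = 0 := by exact_mod_cast hF
    rw [h1] at hgF
    rcases mul_eq_zero.1 hgF.symm with h | h
    · exact absurd h hg0.ne'
    · exact h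
  · right
    rw [Complex.norm_real, Real.norm_eq_abs, hgF, abs_mul, abs_of_pos hg0] at hF
    have h5 : g * |x| ≤ ρ ^ (8 * m) * |x| := mul_le_mul_of_nonneg_right hgρ (abs_nonneg x)
    have h6 : ρ ^ (8 * m) = Real.exp (8 * m * Real.log ρ) := by
      rw [show 8 * (m : ℝ) * Real.log ρ = ((8 * m : ℕ) : ℝ) * Real.log ρ by push_cast; ring,
        Real.exp_nat_mul, Real.exp_log hρ0]
    rw [h6] at h5
    -- the length
    have hl0 : 0 ≤ len F := Finset.sum_nonneg fun _ _ => abs_nonneg _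
    have hl1 : 1 + len F ≤ Real.exp (m * (1 + 2 * Real.log B)) := by
      have e1 : B ^ (m + 1) = Real.exp ((m + 1) * Real.log B) := by
        rw [show ((m : ℝ) + 1) * Real.log B = ((m + 1 : ℕ) : ℝ) * Real.log B by push_cast; ring,
          Real.exp_nat_mul, Real.exp_log hB0]
      have e2 : (1 : ℝ) ≤ Real.exp ((m + 1) * Real.log B) := Real.one_le_exp (by positivity)
      have e3 : (2 : ℝ) ≤ Real.exp 1 := by
        have := Real.add_one_le_exp (1 : ℝ)
        linarith
      calc 1 + len F ≤ 2 * Real.exp ((m + 1) * Real.log B) := by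
            rw [e1] at hlen
            linarith
        _ ≤ Real.exp 1 * Real.exp ((m + 1) * Real.log B) :=
            mul_le_mul_of_nonneg_right e3 (Real.exp_pos _).le
        _ = Real.exp (1 + (m + 1) * Real.log B) := (Real.exp_add _ _).symm
        _ ≤ Real.exp (m * (1 + 2 * Real.log B)) := by
            apply Real.exp_le_exp.2
            nlinarith
    have hl2 : Real.exp (-(A * (m * (1 + 2 * Real.log B)))) ≤ (1 + len F) ^ (-A) := by
      have e1 : Real.exp (-(A * (m * (1 + 2 * Real.log B)))) =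
          (Real.exp (m * (1 + 2 * Real.log B))) ^ (-A) := by
        rw [← Real.exp_mul]
        congr 1
        ring
      rw [e1]
      exact Real.rpow_le_rpow_of_nonpos (by linarith) hl1 (by linarith)
    have hd : (F.totalDegree : ℝ) ≤ 8 * m + 2 := by exact_mod_cast hdeg
    have hl3 : Real.exp (-(A * (11 * m))) ≤ Real.exp (-A * (F.totalDegree + 1)) := by
      apply Real.exp_le_exp.2
      have : A * ((F.totalDegree : ℝ) + 1) ≤ A * (11 * m) :=
        mul_le_mul_of_nonneg_left (by linarith) hA0.le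
      linarith
    have hl4 : Real.exp (-(A * (11 * m))) * Real.exp (-(A * (m * (1 + 2 * Real.log B)))) ≤
        g * |x| :=
      (mul_le_mul hl3 hl2 (Real.exp_pos _).le (Real.exp_pos _).le).trans hF
    have h7 : Real.exp (-(A * (11 * m))) * Real.exp (-(A * (m * (1 + 2 * Real.log B)))) *
        Real.exp (-(8 * m * Real.log ρ)) ≤ |x| := by
      rw [Real.exp_neg (8 * m * Real.log ρ), ← div_eq_mul_inv, div_le_iff₀ (Real.exp_pos _)]
      linarith
    refine le_trans (le_of_eq ?_) h7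
    rw [← Real.exp_add, ← Real.exp_add]
    congr 1
    ring

end Pool.Agent.BCX
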