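import Pool.Agent.BCX.Stmts

/-!
# The extreme lines of a thin box

Module of helper10 for the project BCX of helper60 (MP_aaed04_an).
-/

open Set Filter Topology Metric
open scoped ComplexConjugate

namespace Pool.Agent.BCX

open Pool.Agent.Billiard Pool.Agent.Lib_helper45.Bil

theorem m_SIDE (hLC : Stmt_LC) : Stmt_SIDE := by
  intro P D M hD ε R T b e a w y s t t' hε hT hR he hreal κ hκ i hi1 hil hyp
  have hreal' := hreal
  obtain ⟨hbox, ht, ht', hx, hp, hgen⟩ := hreal
  have hκ2 : κ * κ = 1 := by rcases hκ with rfl | rfl <;> norm_num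
  have hκabs : |κ| = 1 := by rcases hκ with rfl | rfl <;> norm_num
  have hbox' : Box ε R (κ * ε) 0 := by
    unfold Box
    rw [abs_mul, hκabs, abs_of_pos hε, abs_zero]
    linarith
  -- all lines of the family avoid the vertices
  have key : ∀ r ∈ Icc (0 : ℝ) 1, ∀ i' < i, ∀ j,
      sd (lz b e ((1 - r) * y + r * (κ * ε))) (lu e ((1 - r) * s + r * 0))
        (dev P (w.take i') (P.vertex j)) ≠ 0 := by
    intro r hr i' hi' j
    obtain ⟨hr0, hr1⟩ := hr
    have htc := RealAt.tc_le hD he hT hR hreal' i' (by omega) j
    set q := dev P (w.take i') (P.vertex j) with hq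
    rw [sd_mix he]
    rcases le_or_gt |hc b e q| ε with hle | hgt
    · have hA := hyp i' hi' j hle
      rw [← hq] at hA
      have hfr := sd_frame (b := b) he y s q
      have hfr' := sd_frame (b := b) he (κ * ε) 0 q
      have hτ := hbox.abs_le htc
      have hB : κ * sd (lz b e (κ * ε)) (lu e 0) q < 0 := by
        rw [hfr']
        have h1 : κ * (hc b e q - (κ * ε + 0 * tc b e q)) = κ * hc b e q - ε := by
          linear_combination (-ε) * hκ2
        rw [h1]
        have h2 : κ * hc b e q ≤ ε := by
          calc κ * hc b e q ≤ |κ * hc b e q| := le_abs_self _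
            _ = |hc b e q| := by rw [abs_mul, hκabs, one_mul]
            _ ≤ ε := hle
        have h3 : κ * (y + s * tc b e q) ≤ ε := by
          calc κ * (y + s * tc b e q) ≤ |κ * (y + s * tc b e q)| := le_abs_self _
            _ = |y + s * tc b e q| := by rw [abs_mul, hκabs, one_mul]
            _ ≤ ε := hτ
        rw [hfr] at hA
        have h4 : κ * (hc b e q - (y + s * tc b e q)) =
            κ * hc b e q - κ * (y + s * tc b e q) := by ring
        rw [h4] at hA
        linarith
      intro hz
      have h5 : κ * ((1 - r) * sd (lz b e y) (lu e s) q + r * sd (lz b e (κ * ε)) (lu e 0) q) = 0 := by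
        rw [hz, mul_zero]
      have h6 : κ * ((1 - r) * sd (lz b e y) (lu e s) q + r * sd (lz b e (κ * ε)) (lu e 0) q) =
          (1 - r) * (κ * sd (lz b e y) (lu e s) q) +
            r * (κ * sd (lz b e (κ * ε)) (lu e 0) q) := by ring
      rw [h6] at h5
      rcases eq_or_lt_of_le hr0 with h0 | h0
      · rw [← h0] at h5
        linarith
      · have h7 := mul_neg_of_pos_of_neg h0 hB
        have h8 := mul_nonneg (sub_nonneg.2 hr1) (neg_nonneg.2 hA.le)
        linarith
    · have hA := sign_of_far he hbox htc hgt
      have hB := sign_of_far he hbox' htc hgt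
      have hne : hc b e q ≠ 0 := by
        intro h0
        rw [h0, abs_zero] at hgt
        linarith
      rcases lt_or_gt_of_ne hne with h | h
      · have hA' := hA.2 h
        have hB' := hB.2 h
        intro hz
        rcases eq_or_lt_of_le hr0 with h0 | h0
        · rw [← h0] at hz
          linarith
        · have h7 := mul_neg_of_pos_of_neg h0 hB'
          have h8 := mul_nonneg (sub_nonneg.2 hr1) (neg_nonneg.2 hA'.le)
          linarith
      · have hA' := hA.1 h
        have hB' := hB.1 h
        intro hz
        rcases eq_or_lt_of_le hr0 with h0 | h0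
        · rw [← h0] at hz
          linarith
        · have h7 := mul_pos h0 hB'
          have h8 := mul_nonneg (sub_nonneg.2 hr1) hA'.le
          linarith
  have e0 : (1 - 1) * y + 1 * (κ * ε) = κ * ε := by ring
  have e1 : (1 - 1) * s + 1 * (0 : ℝ) = 0 := by ring
  have e2 : (1 - 0) * y + 0 * (κ * ε) = y := by ring
  have e3 : (1 - 0) * s + 0 * (0 : ℝ) = s := by ring
  constructor
  · have h := key 1 ⟨zero_le_one, le_rfl⟩ 0 (by omega) a
    rw [e0, e1, List.take_zero] at h
    exact h
  · have hlen : (w.take i).length = i := by
      rw [List.length_take]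
      omega
    have h := hLC P (fun r => lz b e ((1 - r) * y + r * (κ * ε)))
      (fun r => lu e ((1 - r) * s + r * 0)) a (w.take i) t
      (by
        intro h0
        rw [h0, List.length_nil] at hlen
        omega)
      (by
        unfold lz
        fun_prop)
      (by
        unfold lu
        fun_prop)
      (by
        intro r hr i' hi' j
        rw [hlen] at hi'
        have h1 : (w.take i).take i' = w.take i' := by
          rw [List.take_take, min_eq_left hi'.le]
        rw [h1]
        exact key r hr i' hi' j)
      (by
        show lz b e ((1 - 0) * y + 0 * (κ * ε)) + (t : ℂ) * lu e ((1 - 0) * s + 0 * 0) ∈ rel P a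
        rw [e2, e3]
        exact hx)
      (by
        show Path P (lz b e ((1 - 0) * y + 0 * (κ * ε))) (lu e ((1 - 0) * s + 0 * 0)) t (w.take i)
        rw [e2, e3]
        have h1 : Path P (lz b e y) (lu e s) t (w.take i ++ w.drop i) := by
          rw [List.take_append_drop]
          exact hp.path
        exact h1.pre)
    obtain ⟨t₁, h1, h2⟩ := h
    refine ⟨t₁, ?_, ?_⟩
    · have h3 : lz b e ((1 - 1) * y + 1 * (κ * ε)) + (t₁ : ℂ) * lu e ((1 - 1) * s + 1 * 0) ∈
          rel P a := h1
      rw [e0, e1] at h3
      exact h3
    · have h3 : Path P (lz b e ((1 - 1) * y + 1 * (κ * ε))) (lu e ((1 - 1) * s + 1 * 0)) t₁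
          (w.take i) := h2
      rw [e0, e1] at h3
      exact h3

end Pool.Agent.BCX
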