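import Pool.Agent.BCX.Base

/-!
# Upper bounds for the billiard complexity: statements of the modules

`F_P(n) ≤ exp(C √(n log n))` for every polygon with algebraic vertices, and
`F_P(n) ≤ exp(C n^{2/3} (log n)^{2/3})` for almost every polygon. Each `Stmt_X` is a proposition
proved in the file `Pool/Agent/BCX/X.lean` as `theorem m_X`.
-/

open Set Filter Topology Metric MeasureTheory
open scoped ComplexConjugate

namespace Pool.Agent.BCX

open Pool.Agent.Billiard Pool.Agent.Lib_helper45.Bil

/-- Local constancy of the code. A continuous family of lines, `r ∈ [0,1]`, avoids all unfolded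
vertices of the stages `0, …, w.length - 1`; if the first line crosses the open side `a` and then
the sides of `w`, so does the last one.

Proof. One step (`w = [c]`): no line of the family passes through a vertex of `P`, so for every `r`
the line crosses the open sides `a` and `c` transversally, at times `ta r`, `tc r` which depend
continuously on `r` (the signs of `sd` at the end points of the sides are constant). Let `S` be the
set of the `r` with `ta r < tc r` and all points with times in `(ta r, tc r)` in `U P`. `S` is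
closed: in the limit `ta ≤ tc`, equality would give `a = c` (`rel_unique`), which `side_ne`
excludes for points of `S`; the open segment lies in the closure `P.region` of `U P`, and a point of
`Gam P` on it is not a vertex, lies on an open side `c'` which the line crosses transversally (a
line parallel to the side would pass through its vertices), so the nearby lines cross `c'` inside
their segments, a contradiction. `S` is open: otherwise there are points of `Gam P` on the open
segments of nearby lines, they converge to a point of `Gam P` on the closed segment, hence to one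
of its end points, and near an open side `Gam P` is only that side (`exists_ball`). Induction over
`w`: apply the statement to the family `refl P c (z r)`, `lrefl P c (u r)` and the gate `c`, as
`sd (refl P c z) (lrefl P c u) q = - sd z u (refl P c q)`. -/
def Stmt_LC : Prop :=
  ∀ (P : Polygon) (z u : ℝ → ℂ) (a : ZMod P.k) (w : List (ZMod P.k)) (t₀ : ℝ),
    w ≠ [] → Continuous z → Continuous u →
    (∀ r ∈ Icc (0 : ℝ) 1, ∀ i < w.length, ∀ j,
      sd (z r) (u r) (dev P (w.take i) (P.vertex j)) ≠ 0) →
    z 0 + t₀ * u 0 ∈ rel P a → Path P (z 0) (u 0) t₀ w →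
    ∃ t₁ : ℝ, z 1 + t₁ * u 1 ∈ rel P a ∧ Path P (z 1) (u 1) t₁ w

/-- A line which misses the vertex `a` crosses the open side `a` only once, so it follows only one
word of given length from there. -/
def Stmt_UNIQ : Prop :=
  ∀ (P : Polygon) (z u : ℂ) (a : ZMod P.k) (t₁ t₂ : ℝ) (w w' : List (ZMod P.k)),
    sd z u (P.vertex a) ≠ 0 → z + t₁ * u ∈ rel P a → z + t₂ * u ∈ rel P a →
    Path P z u t₁ w → Path P z u t₂ w' → w.length = w'.length → w = w'

/-- Crossing times. `D` is a bound for the diameter of the region (at least 1), the times are read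
off from the recursion in `PathT` (`s (i+1)` for `a :: w` is `s i` for `w`), and the last property
is `length_bound` applied to the sub-path from bounce `i` to bounce `i'` (folded:
`foldz (w.take i) z`, `foldu (w.take i) u`). -/
def Stmt_TIMES : Prop := ∀ P : Polygon, ∃ (D : ℝ) (M : ℕ), TimesOK P D M

/-- If the line lies on one side (`κ = 1`: above, `κ = -1`: below) of all unfolded vertices in the
strip (height at most `ε`) of the stages `< i`, then the extreme horizontal line `y = κ ε` of the
box follows the first `i` letters. Proof: `LC` for the linear family between the two lines; by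
`RealAt.tc_le` all vertices have time coordinate in `[-R, R]`, those outside the strip keep the
sign of their height (`sign_of_far`), and those in the strip satisfy `κ * sd < 0` for both lines
(for the extreme line `κ * h < ε`, as `κ * h = ε` is impossible), so for all lines of the family
(`sd_mix`). -/
def Stmt_SIDE : Prop :=
  ∀ (P : Polygon) (D : ℝ) (M : ℕ), TimesOK P D M →
    ∀ (ε R T : ℝ) (b e : ℂ) (a : ZMod P.k) (w : List (ZMod P.k)) (y s t t' : ℝ),
    0 < ε → 0 ≤ T → T + D + 1 ≤ R → ‖e‖ = 1 → RealAt P ε R T b e a w y s t t' →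
    ∀ κ : ℝ, (κ = 1 ∨ κ = -1) → ∀ i : ℕ, 1 ≤ i → i ≤ w.length →
    (∀ i' < i, ∀ j, |hc b e (dev P (w.take i') (P.vertex j))| ≤ ε →
      κ * sd (lz b e y) (lu e s) (dev P (w.take i') (P.vertex j)) < 0) →
    sd (lz b e (κ * ε)) (lu e 0) (P.vertex a) ≠ 0 ∧
      ∃ t₁ : ℝ, lz b e (κ * ε) + t₁ * lu e 0 ∈ rel P a ∧
        Path P (lz b e (κ * ε)) (lu e 0) t₁ (w.take i)

/-- The main lemma. Two realised words of length `m` agree in the first `i + M` letters, their
lines have the same signs at all vertices of the stages `≤ i + M`, and there are strip vertices on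
both sides of the line among the stages `≤ i`. Then the words are equal.

Proof. Let `N₀ = min m (i + M)`. By induction over `N` from `N₀` to `m`: `w.take N = w'.take N`,
and the signs at all vertices of the stages `≤ N` agree. Step: the linear family between the two
lines avoids all vertices of the stages `≤ N` (`sd_mix`), so by `LC` (word `w.take (N + 1)`) and
`UNIQ` the words agree up to `N + 1` letters. A vertex `q''` of stage `N + 1` with height `> ε` has
the sign of its height (`sign_of_far`). If its height is `≤ ε`: let `q, q'` be the two strip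
vertices of stages `≤ i` with `sd q < 0 < sd q'`. In coordinates `cr (q' - q) (q'' - q)` is
`Δh' Δτ'' - Δτ' Δh''` with `|Δh| ≤ 2ε` and `|Δτ| ≤ (m + 2) D` (`RealAt.times`), so it is at most
`4 ε (m + 2) D < δ` in absolute value, hence `0` by `Sep`. As `i + M ≤ N + 1`, the time coordinate
of `q''` is larger than those of `q`, `q'` (`‖lu e s‖ ≤ 2`, `5 D ≤ ‖lu e s‖ (r (N+1) - r i)`, so
the difference is at least `5D/2 - 2D > 0`). So the times of `q, q'` are different and `q''` is on
their line beyond the later one of the two; as `sd` is affine the sign at `q''` is that of the later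
one, for both lines. -/
def Stmt_X : Prop :=
  ∀ (P : Polygon) (D : ℝ) (M : ℕ), TimesOK P D M →
    ∀ (m : ℕ) (δ ε R T : ℝ) (b e : ℂ) (a : ZMod P.k),
    Sep P m δ → 0 < ε → ε ≤ R → 0 ≤ T → T + D + 1 ≤ R → 4 * ε * (m + 2) * D < δ → ‖e‖ = 1 →
    ∀ (w w' : List (ZMod P.k)) (y s t T₁ y' s' t' T₁' : ℝ), w.length = m → w'.length = m →
    RealAt P ε R T b e a w y s t T₁ → RealAt P ε R T b e a w' y' s' t' T₁' →
    ∀ i ≤ m, w.take (i + M) = w'.take (i + M) →
    (∀ l ≤ i + M, ∀ j, (0 < sd (lz b e y) (lu e s) (dev P (w.take l) (P.vertex j)) ↔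
      0 < sd (lz b e y') (lu e s') (dev P (w.take l) (P.vertex j)))) →
    (∃ l ≤ i, ∃ j, |hc b e (dev P (w.take l) (P.vertex j))| ≤ ε ∧
      sd (lz b e y) (lu e s) (dev P (w.take l) (P.vertex j)) < 0) →
    (∃ l ≤ i, ∃ j, |hc b e (dev P (w.take l) (P.vertex j))| ≤ ε ∧
      0 < sd (lz b e y) (lu e s) (dev P (w.take l) (P.vertex j))) →
    w = w'

/-- In a window of `m` bounces a thin box splits into at most `C m` pieces.

Proof. Choose a line for every realised word `w` of length `m`. Let `i` be the least stage `i < m`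
such that among the strip vertices (height `≤ ε`) of the stages `≤ i` there are some with `sd < 0`
and some with `0 < sd`; `i = m` if there is none. If `i > 0` let `κ ∈ {1, -1}` be such that
`κ * sd < 0` for all strip vertices of the stages `< i`. Key of `w`: `i`, `κ`, the letters
`w[i + r]?` for `r < M`, and the truth values of `0 < sd` at the vertices `(w.take (i + r), j)` for
`r ≤ M` and `j : ZMod P.k`. There are `(m + 1) * 2 * (k + 1)^M * 2^(k (M + 1))` keys. The key
determines the word: by `SIDE` and `UNIQ` the first `i` letters are determined (both words are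
followed by the extreme line `κ ε`), so `i = m` is clear; if `i < m`, the signs at the stages `< i`
are `κ sd < 0` in the strip and the sign of the height outside, the signs and letters for the stages
`i, …, i + M` are in the key, and `X` applies. -/
def Stmt_WINDOW : Prop :=
  ∀ (P : Polygon) (D : ℝ) (M : ℕ), TimesOK P D M → ∃ C : ℕ, 1 ≤ C ∧
    ∀ (m : ℕ) (δ ε R T : ℝ) (b e : ℂ) (a : ZMod P.k), 1 ≤ m →
    Sep P m δ → 0 < ε → ε ≤ R → 0 ≤ T → T + D + 1 ≤ R → 4 * ε * (m + 2) * D < δ → ‖e‖ = 1 →
    {w : List (ZMod P.k) | w.length = m ∧ RealW P ε R T b e a w}.ncard ≤ C * m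

/-- Iteration over windows. After the letters of `w₁` the frame is `(foldz w₁ b, foldu w₁ e)`, the
line `(y, s)` becomes `(-y, -s)` at each reflection (`refl P c (lz b e y) = lz (refl P c b)
(lrefl P c e) (-y)`), the times do not change and the gate is the last letter; so
`RealW … b e a (w₁ ++ w₂)` implies `RealW … b e a w₁` and `RealW …` of `w₂` in the folded frame with
the gate `w₁.getLastD a`. Count by induction over `l`. -/
def Stmt_ITER : Prop :=
  ∀ (P : Polygon) (ε R T : ℝ) (m X : ℕ),
    (∀ (b e : ℂ) (a : ZMod P.k), ‖e‖ = 1 →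
      {w : List (ZMod P.k) | w.length = m ∧ RealW P ε R T b e a w}.ncard ≤ X) →
    ∀ (l : ℕ) (b e : ℂ) (a : ZMod P.k), ‖e‖ = 1 →
      {w : List (ZMod P.k) | w.length = l * m ∧ RealW P ε R T b e a w}.ncard ≤ X ^ l

/-- Every code is followed by a generic line that starts on an open side. Proof: `left_ext` gives a
code `c :: w`; by `Path.eventually` nearby lines follow it, and among the lines `z + r I u`, `r`
small, only finitely many values of `r` are excluded by the genericity. Fold at `c`, move the time
origin to the crossing with `c` and rescale the speed to `1`. -/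
def Stmt_GENREP : Prop :=
  ∀ (P : Polygon) (w : List (ZMod P.k)), P.IsCode w →
    ∃ (c : ZMod P.k) (p v : ℂ) (t' : ℝ), ‖v‖ = 1 ∧ p ∈ rel P c ∧ PathT P p v 0 w t' ∧ Gen P p v w

/-- Cover all lines by boxes. Proof: by `GENREP` a code is given by a line `p + τ v`, `p` on the
boundary, `‖v‖ = 1`. Choose `b` in a square grid of mesh `ε/16` near `p` and `e = exp (I φ)`, `φ`
in a grid of mesh `ε/(16 R)` near the argument of `v`: at most `C (1/ε)^2 (R/ε)` frames, times
`P.k` gates. In the frame the line has slope `s = tan (angle)`, `|s| ≤ ε/(4R)`, height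
`y = hc p - s tc p`, and the new time is `tc p + τ cos (angle)`: start `≥ -1`, end
`≤ 1 + n D ≤ T` (`TimesOK` gives that the total time is at most `n D`). -/
def Stmt_COVER : Prop :=
  ∀ (P : Polygon) (D : ℝ) (M : ℕ), TimesOK P D M → ∃ C : ℝ, 1 ≤ C ∧
    ∀ (n X : ℕ) (ε R T : ℝ), 0 < ε → ε ≤ 1 → n * D + 2 ≤ T → T ≤ R →
    (∀ (b e : ℂ) (a : ZMod P.k), ‖e‖ = 1 →
      {w : List (ZMod P.k) | w.length = n ∧ RealW P ε R T b e a w}.ncard ≤ X) →
    (P.complexity n : ℝ) ≤ C * (R / ε) ^ 4 * X

/-- The general upper bound: a separation property at level `m` bounds the complexity. -/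
def Stmt_MAIN : Prop :=
  ∀ P : Polygon, ∃ C : ℝ, 0 < C ∧ ∀ (m : ℕ) (δ : ℝ), 1 ≤ m → 0 < δ → δ ≤ 1 → Sep P m δ →
    ∀ n : ℕ, 1 ≤ n → (P.complexity n : ℝ) ≤
      Real.exp (C * (Real.log (1 / δ) + Real.log (n + 1) + (n / m + 1) * Real.log (m + 1)))

/-- Liouville's inequality for integer polynomials at an algebraic point. Proof: let `K` be the
number field generated by the `α i` (in `ℂ`), `d` its degree, `q ≥ 1` an integer such that all
`q α i` are algebraic integers, `B ≥ 1` a bound for all conjugates. With `N = Q.totalDegree` the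
number `q^N Q(α)` is an algebraic integer of `K`; if it is not zero, the product of its images under
the `d` embeddings of `K` into `ℂ` is a nonzero integer (the norm), and each image is at most
`q^N B^N len Q`. -/
def Stmt_LIOU : Prop :=
  ∀ (ι : Type) [Fintype ι] (α : ι → ℂ), (∀ i, IsAlgebraic ℚ (α i)) →
    ∃ A : ℝ, 0 < A ∧ ∀ Q : MvPolynomial ι ℤ, MvPolynomial.aeval α Q = 0 ∨
      Real.exp (-A * (Q.totalDegree + 1)) * (1 + len Q) ^ (-A) ≤ ‖MvPolynomial.aeval α Q‖

/-- The cross product of unfolded vertices is a quotient of integer polynomials in the real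
coordinates of the vertices, with explicit degree, length and denominator.

Proof. Let `n_a = ‖v (a+1) - v a‖^2`, `N_w` the product of the `n_a` over the letters of `w`, and
`(v (a+1) - v a)^2 = p_a + i q_a`. By recursion `N_w gdev v w (v j) = A_w + i B_w` with integer
polynomials: `N_{a::w} = n_a N_w` and
`A_{a::w} + i B_{a::w} = n_a N_w v_a + (p_a + i q_a) (A_w - i B_w - N_w conj v_a)`, of degree at most
`2 |w| + 1` and length at most `C^(|w| + 1)`. Take
`F = (N₁ B₂ - N₂ B₁) (N₁ A₃ - N₃ A₁) - (N₁ A₂ - N₂ A₁) (N₁ B₃ - N₃ B₁)` and `g = N₁^2 N₂ N₃`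
(`cr p q = p.im * q.re - p.re * q.im`). -/
def Stmt_DEVPOLY : Prop :=
  ∀ (k : ℕ) [NeZero k], ∃ B : ℝ, 1 ≤ B ∧ ∀ (m : ℕ) (w₁ w₂ w₃ : List (ZMod k)) (j₁ j₂ j₃ : ZMod k),
    w₁.length ≤ m → w₂.length ≤ m → w₃.length ≤ m →
    ∃ F : MvPolynomial (ZMod k × Bool) ℤ, F.totalDegree ≤ 8 * m + 2 ∧ len F ≤ B ^ (m + 1) ∧
      ∀ (v : ZMod k → ℂ) (ρ : ℝ), (∀ a, v (a + 1) ≠ v a) → 1 ≤ ρ → (∀ a, ‖v (a + 1) - v a‖ ≤ ρ) →
      ∃ g : ℝ, 0 < g ∧ g ≤ ρ ^ (8 * m) ∧ MvPolynomial.aeval (cf v) F =
        g * cr (gdev v w₂ (v j₂) - gdev v w₁ (v j₁)) (gdev v w₃ (v j₃) - gdev v w₁ (v j₁))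

/-- Algebraic polygons are exponentially separated. Proof: `DEVPOLY` and `LIOU` (the real
coordinates of the vertices are algebraic: `re v = (v + conj v) / 2`). -/
def Stmt_SEPALG : Prop :=
  ∀ P : Polygon, (∀ j, IsAlgebraic ℚ (P.vertex j)) →
    ∃ c : ℝ, 0 < c ∧ ∀ m : ℕ, 1 ≤ m → Sep P m (Real.exp (-c * m))

/-- One variable: small values of a polynomial. Proof: over `ℂ` the polynomial is `l ∏ (x - z_i)`;
if `|p x| < δ` then `|x - z_i| < (δ/l)^{1/n}` for some `i`, so `|x - re z_i| < (δ/l)^{1/n}`. -/
def Stmt_POLY1 : Prop :=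
  ∀ (p : Polynomial ℝ) (l δ : ℝ), 1 ≤ p.natDegree → 0 < l → l ≤ |p.leadingCoeff| → 0 < δ →
    volume {x : ℝ | |p.eval x| < δ} ≤
      ENNReal.ofReal (2 * p.natDegree * (δ / l) ^ (1 / (p.natDegree : ℝ)))

/-- Several variables: small values of an integer polynomial. Proof by induction over `d`
(`MvPolynomial.finSuccEquiv`, `MeasureTheory.volume_preserving_piFinSuccAbove`): let `c` be the
leading coefficient in the first variable, a nonzero integer polynomial in the other variables.
Where `|c| < √δ` use the induction hypothesis (with `√δ`), elsewhere `POLY1` with `l = √δ`: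
`V_{d+1}(δ) ≤ 2ρ V_d(√δ) + (2ρ)^d 2N (√δ)^{1/N}` (if the degree in the first variable is `0` there
is nothing to do, since then `|Q| = |c| ≥ √δ ≥ δ`); `V_0(δ) = 0`. -/
def Stmt_POLYMEAS : Prop :=
  ∀ (d : ℕ) (ρ : ℝ), 0 < ρ → ∃ C : ℝ, 0 < C ∧ ∀ (N : ℕ) (Q : MvPolynomial (Fin d) ℤ), 1 ≤ N →
    Q ≠ 0 → Q.totalDegree ≤ N → ∀ δ : ℝ, 0 < δ → δ ≤ 1 →
    volume {x : Fin d → ℝ | (∀ i, |x i| ≤ ρ) ∧ |MvPolynomial.aeval x Q| < δ} ≤
      ENNReal.ofReal (C * N * δ ^ (1 / ((2 : ℝ) ^ d * N)))

/-- Almost every point is badly approximable by small families of integer polynomials. Proof: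
reduce to `ι = Fin d` (`MeasurableEquiv.piCongrLeft`, `MvPolynomial.rename`) and to the box
`|x i| ≤ ρ`, `ρ ∈ ℕ`. By `POLYMEAS` with `N = ⌈C m⌉` and `δ = exp (-c m^2)`, `c` large, the measure
of the points with `|Q x| < δ` for some nonzero `Q ∈ Ω m` is at most
`exp (C m) * C' m * exp (-c m / C'')`, which is summable; by Borel–Cantelli almost every point lies
in finitely many of these sets. For the finitely many remaining `Q ≠ 0` one has `Q x ≠ 0` almost
everywhere (also from `POLYMEAS`, `δ → 0`); take the constant large enough for them. -/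
def Stmt_AEPOLY : Prop :=
  ∀ (ι : Type) [Fintype ι] (Ω : ℕ → Finset (MvPolynomial ι ℤ)) (C : ℝ),
    (∀ m : ℕ, 1 ≤ m → ((Ω m).card : ℝ) ≤ Real.exp (C * m)) →
    (∀ m : ℕ, 1 ≤ m → ∀ Q ∈ Ω m, (Q.totalDegree : ℝ) ≤ C * m) →
    ∀ᵐ x : ι → ℝ, ∃ c : ℝ, 0 < c ∧ ∀ m : ℕ, 1 ≤ m → ∀ Q ∈ Ω m, Q ≠ 0 →
      Real.exp (-c * (m : ℝ) ^ 2) ≤ |MvPolynomial.aeval x Q|

/-- Almost all polygons are separated at level `exp (-c m^2)`. Proof: for `m ≥ 1` let `Ω m` be the
set of the polynomials `F` of `DEVPOLY` (choice) for all words of length `≤ m` and all `j₁ j₂ j₃`, at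
most `exp (C m)` many of degree `≤ 10 m`; apply `AEPOLY` on `ZMod k × Bool → ℝ` and transfer to
`Fin k → ℂ` (a measure preserving equivalence, `Complex.volume_preserving_equiv_real_prod` or
`Complex.volume_preserving_equiv_pi`). If `F = 0` the cross product is `0`, otherwise
`|cr| ≥ |F| / ρ^(8 m)`. -/
def Stmt_SEPAE : Prop :=
  ∀ k : ℕ, 3 ≤ k → ∀ᵐ v : Fin k → ℂ, ∀ P : Polygon, P.k = k →
    (∀ i : Fin k, P.vertex ((i : ℕ) : ZMod P.k) = v i) →
    ∃ c : ℝ, 0 < c ∧ ∀ m : ℕ, 1 ≤ m → Sep P m (Real.exp (-c * (m : ℝ) ^ 2))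

end Pool.Agent.BCX
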