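import Pool.Agent.BCX.Stmts
import Pool.Agent.BCX.Defs2

/-!
# Upper bounds for the billiard complexity of EVERY polygon: statements of the modules

Theorem U: if the directions of the sides of `P` generate a group of rank at most `r`, then
`F_P(n) ≤ exp (C n^{r/(r+1)} log n)`; in particular `F_P(n) ≤ exp (C n^{1-1/k} log n)` for every
`k`-gon. The idea: the cross products of three unfolded vertices of stages `≤ m` occupy only
`C m^r` scales (up to a polynomial factor, by Siegel's lemma); in a gap between two scales the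
window argument works for all lines except those that pass extremely close to two far apart
vertices, and such a line is pinned in a box of the next scale without any covering cost.
-/

open Set Filter Topology Metric MeasureTheory
open scoped ComplexConjugate

namespace Pool.Agent.BCX

open Pool.Agent.Billiard Pool.Agent.Lib_helper45.Bil

/-- The signs at the strip vertices determine the word. Two words of the same length are realised
by lines in the same box from the same gate; if for every `l` with `w.take l = w'.take l` the signs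
at the strip vertices (`|hr| ≤ ε`) of stage `l` agree, then the words are equal.

Proof. Induction over `l`: `w.take l = w'.take l`. For `l < w.length` all signs at the stages `≤ l`
agree (strip vertices: hypothesis; other vertices: for all lines in the box the sign of `sd` is the
sign of `hr`, because `sd = hr - ((y - y₀) + (s - s₀) tc)` by `sd_frame` and `|tc| ≤ R` by
`RealAt.tc_le`). So the linear family between the two lines meets no vertex of the stages `≤ l`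
(`sd_mix`); by `LC` for the word `w.take (l + 1)` the second line crosses the gate and follows
`w.take (l + 1)`, and by `UNIQ` this is `w'.take (l + 1)`. -/
def Stmt_DET : Prop :=
  ∀ (P : Polygon) (D : ℝ) (M : ℕ), TimesOK P D M →
    ∀ (ε R T : ℝ) (b e : ℂ) (y₀ s₀ : ℝ) (a : ZMod P.k) (w w' : List (ZMod P.k))
      (y s t t₁ y' s' t' t₁' : ℝ), 0 ≤ T → T + D + 1 ≤ R → ‖e‖ = 1 →
    w.length = w'.length →
    RealAtC P ε R T b e y₀ s₀ a w y s t t₁ → RealAtC P ε R T b e y₀ s₀ a w' y' s' t' t₁' →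
    (∀ l < w.length, w.take l = w'.take l → ∀ j,
      |hr b e y₀ s₀ (dev P (w.take l) (P.vertex j))| ≤ ε →
      (0 < sd (lz b e y) (lu e s) (dev P (w.take l) (P.vertex j)) ↔
        0 < sd (lz b e y') (lu e s') (dev P (w.take l) (P.vertex j)))) →
    w = w'

/-- Sign rule for unpinned lines. In a gap `(ζ, δ)` with `4 ε (m + 2) D < δ`, let a line of the box
realise a word `w` of length `N ≤ m`, not pinned with threshold `(4 m + 10) ζ / D`. Then there are
stages `i ≤ N`, `i₂ ≤ N` and three signs `κ, β₁, β₂` (`True` for `0 < sd`) such that the sign at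
every strip vertex of stage `l < N` is `κ` if `l < i`, `β₁` if `i + M < l < i₂` and `β₂` if
`i + M < l`, `i₂ + M < l` (nothing is said for `i ≤ l ≤ i + M` and for `i₂ ≤ l ≤ i₂ + M`).

Proof. `A q = sd (lz b e y) (lu e s) q` is affine in `q`; `A q ≠ 0` for all vertices of stages
`≤ N` (`Gen`). For strip vertices `q₁, q₂, q₃` of the stages `≤ m`: `cr` in coordinates is
`Δh' Δτ'' - Δτ' Δh''`, and `h` may be replaced by `hr` (shear), so
`|cr (q₂ - q₁) (q₃ - q₁)| ≤ 4 ε (m + 2) D < δ` (`RealAt.times`), hence `≤ ζ`. Identity: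
`(τ₂ - τ₁) A q₃ = (τ₂ - τ₃) A q₁ + (τ₃ - τ₁) A q₂ + c`, `|c| = |cr (q₂ - q₁) (q₃ - q₁)| ≤ ζ`.
Also stage `≥ i + M` implies that the time coordinate is at least `D/2` larger than at the stages
`≤ i` (`5 D ≤ ‖lu e s‖ (r_{i'} - r_i)`, `‖lu e s‖ ≤ 2`).
Let `i` be the least stage `< N` such that among the strip vertices of the stages `≤ i` there are
both signs; `i = N` if there is none (then `κ` is the common sign and we are done with `i₂ = N`). If
`i > 0` let `κ` be the common sign at the stages `< i`.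
Case A: there are strip vertices `q, q'` of stages `≤ i` with `A q < 0 < A q'` and
`|A q| + |A q'| > 2 ζ / D`. For a strip vertex `q''` of stage `≥ i + M` the identity gives
`(τ' - τ) A q'' ≥ (D/2) (|A q| + |A q'|) - ζ > 0`, so the sign at `q''` is the sign `β₁` of
`τ' - τ`; take `i₂ = N`, `β₂ = β₁`.
Case B: otherwise `|A q| ≤ 2 ζ / D` for all strip vertices of the stages `≤ i`; fix one of them,
`q₀`. Let `i₂ > i` be the least stage `< N` with a strip vertex `q₂` with `|τ₂ - τ₀| ≥ D/2`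
(`i₂ = N` if there is none). Strip vertices of the stages in `(i, i₂)` have `|τ - τ₀| < D/2`, so
their stage is `< i + M`, and `β₁` is arbitrary. As the line is not pinned,
`|A q₂| > (4 m + 10) ζ / D`. For a strip vertex `q₃` of stage `≥ i₂ + M`:
`(τ₂ - τ₀) A q₃ = -(τ₃ - τ₂) A q₀ + (τ₃ - τ₀) A q₂ + c`, where
`(τ₃ - τ₀) |A q₂| > (D/2) (4 m + 10) ζ / D = (2 m + 5) ζ ≥ (τ₃ - τ₂) |A q₀| + |c|` (for `ζ = 0` use
`A q₂ ≠ 0`), so its sign `β₂` is that of `(τ₂ - τ₀) A q₂`. -/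
def Stmt_RULE : Prop :=
  ∀ (P : Polygon) (D : ℝ) (M : ℕ), TimesOK P D M →
    ∀ (m : ℕ) (ζ δ ε R T : ℝ) (b e : ℂ) (y₀ s₀ : ℝ) (a : ZMod P.k),
    Gap P m ζ δ → 0 ≤ ζ → 0 < ε → 0 ≤ T → T + D + 1 ≤ R → 4 * ε * (m + 2) * D < δ → ‖e‖ = 1 →
    ∀ (w : List (ZMod P.k)) (y s t t' : ℝ), w.length ≤ m →
    RealAtC P ε R T b e y₀ s₀ a w y s t t' → ¬ Pin P ((4 * m + 10) * ζ / D) D b e y s w →
    ∃ (i i₂ : ℕ) (κ β₁ β₂ : Prop), i ≤ w.length ∧ i₂ ≤ w.length ∧
      ∀ l < w.length, ∀ j, |hr b e y₀ s₀ (dev P (w.take l) (P.vertex j))| ≤ ε →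
        (l < i → (0 < sd (lz b e y) (lu e s) (dev P (w.take l) (P.vertex j)) ↔ κ)) ∧
        (i + M < l → l < i₂ →
          (0 < sd (lz b e y) (lu e s) (dev P (w.take l) (P.vertex j)) ↔ β₁)) ∧
        (i + M < l → i₂ + M < l →
          (0 < sd (lz b e y) (lu e s) (dev P (w.take l) (P.vertex j)) ↔ β₂))

/-- Unpinned lines of a thin box in a gap follow at most `C m^2` words of each length `N ≤ m`.
Proof: by `RULE` and `DET` the word is determined by `i, i₂ ≤ m`, the three signs, and the truth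
values of `0 < sd` at the vertices `(w.take (i + r), j)` and `(w.take (i₂ + r), j)` for `r ≤ M`,
`j : ZMod P.k`: at most `(m + 1)^2 * 8 * 4^(k (M + 1))` keys. -/
def Stmt_UNP : Prop :=
  ∀ (P : Polygon) (D : ℝ) (M : ℕ), TimesOK P D M → ∃ C : ℕ, 1 ≤ C ∧
    ∀ (m : ℕ) (ζ δ ε R T : ℝ), 1 ≤ m →
    Gap P m ζ δ → 0 ≤ ζ → 0 < ε → 0 ≤ T → T + D + 1 ≤ R → 4 * ε * (m + 2) * D < δ →
    ∀ (N : ℕ) (b e : ℂ) (y₀ s₀ : ℝ) (a : ZMod P.k), N ≤ m → ‖e‖ = 1 →
    {w : List (ZMod P.k) | w.length = N ∧ ∃ y s t t', RealAtC P ε R T b e y₀ s₀ a w y s t t' ∧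
      ¬ Pin P ((4 * m + 10) * ζ / D) D b e y s w}.ncard ≤ C * m ^ 2

/-- Folding: a line that realises `w₁ ++ w₂` realises `w₁`, and after folding along `w₁` it
realises `w₂` in the frame `(foldz w₁ b, foldu w₁ e)`, around the centre line
`((-1)^|w₁| y₀, (-1)^|w₁| s₀)`, with the last letter of `w₁` (or `a`) as the gate. Proof by
induction over `w₁`: `refl P c (lz b e y) = lz (refl P c b) (lrefl P c e) (-y)`,
`lrefl P c (lu e s) = lu (lrefl P c e) (-s)`; the times do not change. -/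
def Stmt_FOLD : Prop :=
  ∀ (P : Polygon) (ε R T : ℝ) (b e : ℂ) (y₀ s₀ : ℝ) (a : ZMod P.k) (w₁ w₂ : List (ZMod P.k))
    (y s t t' : ℝ), ‖e‖ = 1 → RealAtC P ε R T b e y₀ s₀ a (w₁ ++ w₂) y s t t' →
    (∃ t₁ : ℝ, RealAtC P ε R T b e y₀ s₀ a w₁ y s t t₁) ∧ ‖foldu P w₁ e‖ = 1 ∧
      RealC P ε R T (foldz P w₁ b) (foldu P w₁ e) ((-1) ^ w₁.length * y₀)
        ((-1) ^ w₁.length * s₀) (w₁.getLastD a) w₂

/-- Recursion over the scales. `𝒩(ε', l) ≤ A K^l` for `l ≤ L` implies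
`𝒩(ε, l) ≤ (1 + l K₂ A) K^l` for `l ≤ L`, with `K₂ = m K₁ (k m)^2`.

Proof by induction over `l` (for all frames). `l = 0`: only the empty word. Step: a word of length
`(l + 1) m` is `w = w₁ ++ w₂`, `w₁.length = m`; fix a line of the `ε`-box realising `w`. If the line
is not pinned in `w₁`: at most `K₁` words `w₁`, and `w₂` is realised in the folded frame (`FOLD`), at
most `(1 + l K₂ A) K^l` words. If it is pinned in `w₁`, let `N₁ < m` be the least stage such that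
there is a pinned pair among the stages `≤ N₁`; then the line realises `w.take N₁` and is not pinned
in it: at most `K₁` words for each `N₁`; the pair is given by two stages `≤ N₁` and two indices, and
its positions `q, q'` depend only on `w.take N₁`. Let `(y*, s*)` be the line through `q` and `q'`;
from `|sd q|, |sd q'| ≤ ζ`, `|τ - τ'| ≥ D/2` and `|τ| ≤ R` one gets `|s - s*| ≤ 4 ζ/D` and
`|y - y*| + |s - s*| R ≤ ζ (1 + 8 R/D) ≤ ε'`, so the whole word `w` is realised by a line of the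
`ε'`-box around `(y*, s*)` in the same frame: at most `A K^(l+1)` words. Total at most
`K₁ (1 + l K₂ A) K^l + K₂ A K^(l+1) ≤ (1 + (l+1) K₂ A) K^(l+1)`. -/
def Stmt_REC : Prop :=
  ∀ (P : Polygon) (D : ℝ) (M : ℕ), TimesOK P D M →
    ∀ (m L : ℕ) (ζ ε ε' R T : ℝ) (K₁ K A : ℕ), 1 ≤ m → 0 ≤ ζ → 0 ≤ T → T + D + 1 ≤ R →
    ζ * (1 + 8 * R / D) ≤ ε' → K₁ ≤ K →
    (∀ (N : ℕ) (b e : ℂ) (y₀ s₀ : ℝ) (a : ZMod P.k), N ≤ m → ‖e‖ = 1 →
      {w : List (ZMod P.k) | w.length = N ∧ ∃ y s t t', RealAtC P ε R T b e y₀ s₀ a w y s t t' ∧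
        ¬ Pin P ζ D b e y s w}.ncard ≤ K₁) →
    (∀ l : ℕ, l ≤ L → ∀ (b e : ℂ) (y₀ s₀ : ℝ) (a : ZMod P.k), ‖e‖ = 1 →
      {w : List (ZMod P.k) | w.length = l * m ∧ RealC P ε' R T b e y₀ s₀ a w}.ncard
        ≤ A * K ^ l) →
    ∀ l : ℕ, l ≤ L → ∀ (b e : ℂ) (y₀ s₀ : ℝ) (a : ZMod P.k), ‖e‖ = 1 →
      {w : List (ZMod P.k) | w.length = l * m ∧ RealC P ε R T b e y₀ s₀ a w}.ncard
        ≤ (1 + l * (m * K₁ * (P.k * m) ^ 2) * A) * K ^ l

/-- The last scale: with threshold `0` no line is pinned (`Gen`), so `𝒩(ε, l) ≤ K₁^l`. -/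
def Stmt_LAST : Prop :=
  ∀ (P : Polygon) (D : ℝ) (m : ℕ) (ε R T : ℝ) (K₁ : ℕ),
    (∀ (N : ℕ) (b e : ℂ) (y₀ s₀ : ℝ) (a : ZMod P.k), N ≤ m → ‖e‖ = 1 →
      {w : List (ZMod P.k) | w.length = N ∧ ∃ y s t t', RealAtC P ε R T b e y₀ s₀ a w y s t t' ∧
        ¬ Pin P 0 D b e y s w}.ncard ≤ K₁) →
    ∀ (l : ℕ) (b e : ℂ) (y₀ s₀ : ℝ) (a : ZMod P.k), ‖e‖ = 1 →
      {w : List (ZMod P.k) | w.length = l * m ∧ RealC P ε R T b e y₀ s₀ a w}.ncard ≤ K₁ ^ l

/-- Cover a box by smaller boxes: centres `(y₀ + i ε''/2, s₀ + j ε''/(2R))`, `|i|, |j| ≤ G`. -/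
def Stmt_SUBC : Prop :=
  ∀ (P : Polygon) (ε' ε'' R T : ℝ) (G n X : ℕ) (b e : ℂ) (a : ZMod P.k), 0 < ε'' → 0 < R →
    1 ≤ G → 4 * ε' ≤ G * ε'' →
    (∀ y₀ s₀ : ℝ,
      {w : List (ZMod P.k) | w.length = n ∧ RealC P ε'' R T b e y₀ s₀ a w}.ncard ≤ X) →
    ∀ y₀ s₀ : ℝ,
      {w : List (ZMod P.k) | w.length = n ∧ RealC P ε' R T b e y₀ s₀ a w}.ncard
        ≤ (2 * G + 1) ^ 2 * X

/-- The general bound for every polygon: `Q` scales. -/
def Stmt_MAIN2 : Prop :=
  ∀ P : Polygon, ∃ C : ℝ, 0 < C ∧ ∀ (m Q : ℕ) (Γ : ℝ) (σ : ℕ → ℝ), 1 ≤ m → 1 ≤ Q → 1 ≤ Γ →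
    σ 0 = 1 → σ Q = 0 → (∀ i < Q, 0 < σ i) → (∀ i < Q, Gap P m (σ (i + 1)) (σ i / Γ)) →
    ∀ n : ℕ, 1 ≤ n → (P.complexity n : ℝ) ≤
      Real.exp (C * (Q * Real.log (Γ * (n + m + 1)) + (n / m + 1) * Real.log (m + 1)))

/-- Siegel's lemma bounds the number of scales. Numbers `x 0, x 1, …` that are integer combinations,
with coefficients at most `H`, of the same `Δ` complex numbers, and decrease by the factor
`4 Δ H + 2`: there are less than `2 Δ` of them. Proof: otherwise `Int.Matrix.exists_ne_zero_int_vec_norm_le`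
(`2 Δ` unknowns, `Δ` equations) gives integers `c i`, not all zero, `|c i| ≤ 2 Δ H`, with
`∑_{i < 2Δ} c i x i = 0`; with `i₀` the least index with `c i₀ ≠ 0`,
`‖x i₀‖ ≤ 2 Δ H ∑_{i > i₀} ‖x i‖ < ‖x i₀‖`. -/
def Stmt_SIEG : Prop :=
  ∀ (Δ H n : ℕ) (t : Fin Δ → ℂ) (x : ℕ → ℂ), 1 ≤ Δ → 1 ≤ H →
    (∀ i < n, ∃ F : Fin Δ → ℤ, (∀ j, |F j| ≤ H) ∧ x i = ∑ j, (F j : ℂ) * t j) →
    (∀ i < n, x i ≠ 0) →
    (∀ i, i + 1 < n → (4 * Δ * H + 2) * ‖x (i + 1)‖ ≤ ‖x i‖) → n < 2 * Δ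

/-- All cross products are small integer combinations of few numbers. Proof: with
`c a = dir a / conj (dir a)`, `dev (a :: w) v = v_a + c a conj (dev w v) - c a conj v_a`; so
`dev w (v j)` is a sum of at most `2 |w| + 1` terms `± γ v_i` or `± γ (c 0) conj v_i`, where `γ` is a
product `ζ^z ∏ g_i^{f_i}` with `z < N` and `|f_i| ≤ E |w|` (`conj γ = γ⁻¹`; terms `v_i` have total
`c`-degree `0`, terms `conj v_i` have total `c`-degree `1`). Hence
`2 i cr (X₂ - X₁) (X₃ - X₁) = (X₂ - X₁) conj (X₃ - X₁) - conj (X₂ - X₁) (X₃ - X₁)` is a sum of at most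
`2 (4 m + 2)^2` terms `± γ p`, `|f_i| ≤ 2 E m`, `p` in the finite set of the numbers `v_i conj v_j`,
`conj (c 0) v_i v_j`, `(c 0) conj v_i conj v_j`; there are at most `C m^r` such numbers `γ p`. -/
def Stmt_REP : Prop :=
  ∀ (P : Polygon) (r : ℕ), RankLE P r → ∃ C : ℕ, 1 ≤ C ∧ ∀ m : ℕ, 1 ≤ m →
    ∃ (Δ : ℕ) (t : Fin Δ → ℂ), 1 ≤ Δ ∧ Δ ≤ C * m ^ r ∧
      ∀ w₁ w₂ w₃ : List (ZMod P.k), w₁.length ≤ m → w₂.length ≤ m → w₃.length ≤ m →
      ∀ j₁ j₂ j₃ : ZMod P.k, ∃ F : Fin Δ → ℤ, (∀ x, |F x| ≤ C * m ^ 2) ∧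
        2 * Complex.I * (cr (dev P w₂ (P.vertex j₂) - dev P w₁ (P.vertex j₁))
          (dev P w₃ (P.vertex j₃) - dev P w₁ (P.vertex j₁)) : ℂ) = ∑ x, (F x : ℂ) * t x

/-- Few scales. Proof: let `V` be the finite set of the nonzero `|cr|` of level `m` and
`Γ = C m^(r+2)` large enough for `SIEG` and `REP`; let `σ 0 = 1` and `σ (i + 1)` the largest element
of `V` below `σ i / Γ`, or `0` if there is none. By `SIEG` less than `2 Δ` of the `σ (i + 1)` are
nonzero. -/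
def Stmt_SCALES : Prop :=
  ∀ (P : Polygon) (r : ℕ), RankLE P r → ∃ C : ℕ, 1 ≤ C ∧ ∀ m : ℕ, 1 ≤ m →
    ∃ (Q : ℕ) (σ : ℕ → ℝ), 1 ≤ Q ∧ Q ≤ C * m ^ r ∧ σ 0 = 1 ∧ σ Q = 0 ∧ (∀ i < Q, 0 < σ i) ∧
      ∀ i < Q, Gap P m (σ (i + 1)) (σ i / (C * (m : ℝ) ^ (r + 2)))

/-- The exterior angle at the vertex `i + 1`, in `(-π, π]`. -/
noncomputable def extAngle (P : Polygon) (i : ZMod P.k) : ℝ :=
  Complex.arg ((P.vertex (i + 2) - P.vertex (i + 1)) / (P.vertex (i + 1) - P.vertex i))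

/-- Rank of the angles. (1) Every `k`-gon has `RankLE P (k - 1)` (take `N = 1`,
`g i = c (i+1) / c 0`). (2) If the `ℚ`-vector space spanned by `π` and the exterior angles has
dimension at most `r + 1`, then `RankLE P r`. Proof of (2): extend `π` to a basis
`π, θ_1, …, θ_{r'}`, `r' ≤ r`, write all exterior angles in it, with common denominator `N`;
`dir a / dir 0` is the product of the `dir (i+1) / dir i = |…| exp (i extAngle)` for `i < a`, and
`z / conj z = exp (2 i arg z)`; take `ζ = exp (2 π i / N)`, `g_j = exp (2 i θ_j / N)`. (3) the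
dimension is at most `k`, since the product of all `dir (i+1) / dir i` is `1`, so the exterior angles
add up to a multiple of `2π`. -/
def Stmt_RANK : Prop :=
  (∀ P : Polygon, RankLE P (P.k - 1)) ∧
  (∀ (P : Polygon) (r : ℕ), Module.finrank ℚ
    (Submodule.span ℚ (insert Real.pi (Set.range (extAngle P)))) ≤ r + 1 → RankLE P r) ∧
  (∀ P : Polygon, Module.finrank ℚ
    (Submodule.span ℚ (insert Real.pi (Set.range (extAngle P)))) ≤ P.k)

end Pool.Agent.BCX
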