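import Pool.Agent.BCX.Stmts2
import Pool.Agent.BCX.Defs3

/-!
# A quasi-polynomial bound for the billiard complexity of EVERY polygon: statements

Theorem V: for every polygon `P` there is `C` with `F_P(n) ≤ exp (C (log n)^2)` for all `n ≥ 2`.

Idea. `F_P(2m+1) ≤ C m^C F_P(m+1)`. Let `L` be a line that realises a word of length `2 m`. Call
three unfolded vertices of the same half a bad triple at distance `d` if they are within `d` of `L`
and their cross product is larger than `d / Λ`, `Λ ~ m`. Take the bad triple of smallest distance;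
by time reversal it is in the first half. The first half of the word and the triple determine `L` up
to `m^C` boxes whose width is smaller than the distance of the triple (the cross product gives the
scale). In the second half every three vertices in such a box are almost collinear relative to their
distance from `L`, and then the signs of `L` at these vertices follow a rule with `O(m^2)`
possibilities, so the second half is determined up to `C m^2` choices.
-/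

open Set Filter Topology Metric MeasureTheory
open scoped ComplexConjugate

namespace Pool.Agent.BCX

open Pool.Agent.Billiard Pool.Agent.Lib_helper45.Bil

/-- Sign rule for good lines. If all triples of strip vertices are almost collinear relative to
their distance from the line, the signs at the strip vertices follow the rule of `Stmt_RULE`.

Proof. Notation as in `Stmt_RULE`: `A q = sd (lz b e y) (lu e s) q`, nonzero at all vertices; time
coordinates `τ`; `|τ - τ'| ≤ (m + 2) D`; at stages `≥ i + M` the time is at least `D/2` larger than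
at stages `≤ i`; identity `(τ₂ - τ₁) A q₃ = (τ₂ - τ₃) A q₁ + (τ₃ - τ₁) A q₂ + c` with
`|c| = |cr (q₂ - q₁) (q₃ - q₁)|`, and `Λ |c| ≤ max |A q_i|` for strip vertices.
Let `i` be the least stage `< N = w.length` with both signs among the strip vertices of stages
`≤ i` (`i = N` if there is none, then we are done), and `κ` the common sign before. Fix strip
vertices `q, q'` of stages `≤ i` with `A q < 0 < A q'`, `S = |A q| + |A q'|`. For a strip vertex `q''`
of stage `> i + M`: `(τ' - τ) A q'' = (τ'' - τ') |A q| + (τ'' - τ) |A q'| + c`, so if `|c| < (D/2) S`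
then the sign is that of `τ' - τ` (`β₁`). Let `i₂ > i + M` be the least stage `< N` with a strip
vertex `q₂` with `|c| ≥ (D/2) S` (`i₂ = N` if there is none, then we are done). As
`|A q|, |A q'| ≤ S < Λ |c|`, we have `|A q₂| ≥ Λ |c| ≥ (Λ/2) S`. For a strip vertex `q₃` of stage
`> i₂ + M`: `(τ₂ - τ) A q₃ = -(τ₃ - τ₂) A q + (τ₃ - τ) A q₂ + c'`, `τ₂ - τ ≥ D/2`,
`τ₃ - τ ≥ D`. If `|A q₃|` is the largest of the three then
`|A q₃| (D/2 - 1/Λ) ≤ (m + 2) D (|A q| + |A q₂|) ≤ 2 (m + 2) D |A q₂|`, so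
`|A q₃| ≤ 8 (m + 2) |A q₂|`; hence `|c'| ≤ 8 (m + 2) |A q₂| / Λ ≤ |A q₂| / 5`, and
`(τ₃ - τ₂) |A q| ≤ (m + 2) D (2/Λ) |A q₂| ≤ D |A q₂| / 20`. So the sign of `A q₃` is the sign
`β₂` of `A q₂`. -/
def Stmt_RULE2 : Prop :=
  ∀ (P : Polygon) (D : ℝ) (M : ℕ), TimesOK P D M →
    ∀ (m : ℕ) (Λ ε R T : ℝ) (b e : ℂ) (y₀ s₀ : ℝ) (a : ZMod P.k),
    40 * ((m : ℝ) + 2) ≤ Λ → 0 ≤ T → T + D + 1 ≤ R → ‖e‖ = 1 →
    ∀ (w : List (ZMod P.k)) (y s t t' : ℝ), w.length ≤ m →
    RealAtC P ε R T b e y₀ s₀ a w y s t t' → Good P Λ ε b e y₀ s₀ y s w →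
    ∃ (i i₂ : ℕ) (κ β₁ β₂ : Prop), i ≤ w.length ∧ i₂ ≤ w.length ∧
      ∀ l < w.length, ∀ j, |hr b e y₀ s₀ (dev P (w.take l) (P.vertex j))| ≤ ε →
        (l < i → (0 < sd (lz b e y) (lu e s) (dev P (w.take l) (P.vertex j)) ↔ κ)) ∧
        (i + M < l → l < i₂ →
          (0 < sd (lz b e y) (lu e s) (dev P (w.take l) (P.vertex j)) ↔ β₁)) ∧
        (i + M < l → i₂ + M < l →
          (0 < sd (lz b e y) (lu e s) (dev P (w.take l) (P.vertex j)) ↔ β₂))

/-- Good lines of a box follow at most `C m^2` words of length `m` (keys as in `Stmt_UNP`, with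
`DET` and `RULE2`; copy of the proof in `UNP.lean`). -/
def Stmt_UNP2 : Prop :=
  ∀ (P : Polygon) (D : ℝ) (M : ℕ), TimesOK P D M → ∃ C : ℕ, 1 ≤ C ∧
    ∀ (m : ℕ) (Λ ε R T : ℝ), 1 ≤ m → 40 * ((m : ℝ) + 2) ≤ Λ → 0 ≤ T → T + D + 1 ≤ R →
    ∀ (b e : ℂ) (y₀ s₀ : ℝ) (a : ZMod P.k), ‖e‖ = 1 →
    {w : List (ZMod P.k) | w.length = m ∧ ∃ y s t t', RealAtC P ε R T b e y₀ s₀ a w y s t t' ∧
      Good P Λ ε b e y₀ s₀ y s w}.ncard ≤ C * m ^ 2

/-- Codes and generic lines. (1) `GENREP` for the code `a :: w` and fold once at `a`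
(`refl (refl z) = z`). (2) `cons_code`. -/
def Stmt_GREP : Prop :=
  (∀ (P : Polygon) (a : ZMod P.k) (w : List (ZMod P.k)), P.IsCode (a :: w) →
    ∃ (z u : ℂ) (t t' : ℝ), Rz P a w z u t t') ∧
  (∀ (P : Polygon) (a : ZMod P.k) (w : List (ZMod P.k)) (z u : ℂ) (t t' : ℝ), w ≠ [] →
    Rz P a w z u t t' → P.IsCode (a :: w))

/-- Time reversal. With `w = w₁ ++ w₂ = w'' ++ [x]` the reversed line is
`z' = foldz P w'' z`, `u' = - foldu P w'' u`, times `-t'`, `-t`, gate `x`, word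
`w''.reverse ++ [a]` (induction over `w''`). Vertices correspond:
`foldz P w'' (dev P (w.take i) v) = dev P ((w''.reverse ++ [a]).take (n - 1 - i)) v` for
`i ≤ n - 1`, `n = 2 m` (copy `i` is copy `n - 1 - i` of the reversed unfolding, `-1` and `n`
correspond too), and `ld`, `|cr|` are invariant under `refl`. The copies `0, …, m - 1` and
`m, …, 2m - 1` are exchanged. -/
def Stmt_REV : Prop :=
  ∀ (P : Polygon) (m : ℕ) (a : ZMod P.k) (w₁ w₂ : List (ZMod P.k)) (z u : ℂ) (t t' : ℝ), 1 ≤ m →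
    w₁.length = m → w₂.length = m → Rz P a (w₁ ++ w₂) z u t t' →
    ∃ (a' : ZMod P.k) (w₁' w₂' : List (ZMod P.k)) (z' u' : ℂ) (t₁ t₂ : ℝ),
      w₁'.length = m ∧ w₂'.length = m ∧ a' :: (w₁' ++ w₂') = (a :: (w₁ ++ w₂)).reverse ∧
      Rz P a' (w₁' ++ w₂') z' u' t₁ t₂ ∧
      (∀ Λ d : ℝ, Bad P Λ z' u' w₁' d ↔ Bad P Λ (foldz P w₁ z) (foldu P w₁ u) w₂ d) ∧
      (∀ Λ d : ℝ, Bad P Λ (foldz P w₁' z') (foldu P w₁' u') w₂' d ↔ Bad P Λ z u w₁ d)

/-- A finite net of frames for the big box: every realisation is, after a change of the parameter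
on the same line, in the big box of a frame of the net (see `COVER.lean`: `real_of_near` with
`ε = 1`). -/
def Stmt_NET : Prop :=
  ∀ (P : Polygon) (D : ℝ) (M : ℕ), TimesOK P D M → ∃ C : ℝ, 1 ≤ C ∧
    ∀ (n : ℕ) (R T : ℝ), n * D + 2 ≤ T → T ≤ R →
    ∃ F : Finset (ℂ × ℂ), (F.card : ℝ) ≤ C * R ^ 4 ∧ (∀ p ∈ F, ‖p.2‖ = 1) ∧
      ∀ (a : ZMod P.k) (w : List (ZMod P.k)) (z u : ℂ) (t t' : ℝ), w.length = n →
      Rz P a w z u t t' → ∃ p ∈ F, ∃ (y s t₁ t₁' x l : ℝ), 0 < l ∧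
        lz p.1 p.2 y = z + x * u ∧ lu p.2 s = l * u ∧ RealAt P 1 R T p.1 p.2 a w y s t₁ t₁'

/-- There always are bad triples: three noncollinear vertices of the polygon (copy `0`); the
crossing point `z + t u` is within `D` of all of them. -/
def Stmt_TRI : Prop :=
  ∀ (P : Polygon) (D : ℝ) (M : ℕ), TimesOK P D M → ∃ l₀ : ℝ, 1 ≤ l₀ ∧
    ∀ (Λ : ℝ), l₀ ≤ Λ → ∀ (a : ZMod P.k) (w : List (ZMod P.k)) (z u : ℂ) (t t' : ℝ), w ≠ [] →
    u ≠ 0 → z + t * u ∈ rel P a → PathT P z u t w t' → Bad P Λ z u w D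

/-- The sub-box. A line of the big box of a frame realises `w₁ ++ w₂` (both halves of length `m`)
and the first half dominates. Then there are three vertices `q₁, q₂, q₃` of the stages `< m`, with
cross product `χ = |cr (q₂ - q₁) (q₃ - q₁)| > 0`, a choice `q' ∈ {q₂, q₃}`, and integers
`|i|, |j| ≤ G` such that with `ε₂ = χ / (64 (m + 2) D)` and the centre
`y₀ = cy b e q₁ q' + i ε₂ / 2`, `s₀ = cs b e q₁ q' + j ε₂ / (2 R)` the line is in the box
`BoxC ε₂ R y₀ s₀`, and after folding along `w₁` the second half is good.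

Proof. Take the bad triple of the first half at distance `d` from `Dom`: `ld q_i ≤ d < Λ χ`.
`A q = sd`, `|A q_i| ≤ 2 d` (`‖lu e s‖ ≤ 2`). `χ ≤ |ΔA'| |Δτ''| + |Δτ'| |ΔA''| ≤ 8 d max |Δτ|`
(`Δ` = differences with `q₁`), so `max |Δτ| ≥ χ/(8 d) > 1/(8 Λ)`: take `q'` accordingly; and
`max |Δτ| ≤ (m + 2) D` gives `d ≥ χ / (8 (m + 2) D)`. For the line `(y*, s*)` through `q₁, q'`:
`|s - s*| ≤ 4 d 8 Λ = 32 Λ d`, `|y - y*| ≤ 2 d + 32 Λ d R`, so
`|y - y*| + |s - s*| R ≤ 66 Λ R d ≤ 66 Λ^2 R χ = ε₁`, and `4 ε₁ ≤ G ε₂`; `i, j` by rounding as in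
`Stmt_SUBC`. For strip vertices of the second half (`|hr| ≤ ε₂` in the folded frame)
`|sd| ≤ 2 ε₂`, so `ld ≤ 2 ε₂ = χ / (32 (m + 2) D) < d`; let `d'` be the maximum of the three `ld`;
`¬ Bad … w₂ d'` gives `Λ |cr| ≤ d' ≤ max |sd|`. Folding: `FOLD`, `foldz P w₁ (lz b e y) =
lz (foldz P w₁ b) (foldu P w₁ e) ((-1)^m y)` etc. (`fz_lz`, `fu_lu` in `FOLD.lean`). -/
def Stmt_SUBBOX : Prop :=
  ∀ (P : Polygon) (D : ℝ) (M : ℕ), TimesOK P D M →
    ∀ (m G : ℕ) (Λ R T : ℝ) (b e : ℂ) (a : ZMod P.k) (w₁ w₂ : List (ZMod P.k)) (y s t t' : ℝ),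
    1 ≤ m → w₁.length = m → w₂.length = m → 1 ≤ Λ → 0 ≤ T → T + D + 1 ≤ R → ‖e‖ = 1 →
    16896 * Λ ^ 2 * R * (m + 2) * D ≤ G →
    RealAt P 1 R T b e a (w₁ ++ w₂) y s t t' → Dom P Λ (lz b e y) (lu e s) w₁ w₂ →
    ∃ l₁ < m, ∃ l₂ < m, ∃ l₃ < m, ∃ (j₁ j₂ j₃ : ZMod P.k) (g : Bool) (i j : ℤ),
      |i| ≤ G ∧ |j| ≤ G ∧
      ∀ (q₁ q₂ q₃ q' : ℂ) (χ ε₂ y₀ s₀ : ℝ),
        q₁ = dev P (w₁.take l₁) (P.vertex j₁) → q₂ = dev P (w₁.take l₂) (P.vertex j₂) →
        q₃ = dev P (w₁.take l₃) (P.vertex j₃) → q' = (if g then q₂ else q₃) →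
        χ = |cr (q₂ - q₁) (q₃ - q₁)| → ε₂ = χ / (64 * (m + 2) * D) →
        y₀ = cy b e q₁ q' + i * (ε₂ / 2) → s₀ = cs b e q₁ q' + j * (ε₂ / (2 * R)) →
        0 < χ ∧ ∃ y' s' τ τ' : ℝ,
          RealAtC P ε₂ R T (foldz P w₁ b) (foldu P w₁ e) ((-1) ^ m * y₀) ((-1) ^ m * s₀)
            (w₁.getLastD a) w₂ y' s' τ τ' ∧
          Good P Λ ε₂ (foldz P w₁ b) (foldu P w₁ e) ((-1) ^ m * y₀) ((-1) ^ m * s₀) y' s' w₂

/-- Words in which the first half dominates. Proof: `Λ = c (m + 2)`, `T = 2 m D + 2`,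
`R = T + D + 1`, `G = C m^4`; by `NET` every realisation is in the big box of one of `C m^4` frames
(`Dom` does not depend on the parametrisation of the line: `ld` is invariant,
`foldz (z + x u) = foldz z + x foldu u`, `foldu (l u) = l foldu u`); given the frame, the code
`a :: w₁` (`GREP`: at most `complexity (m + 1)` many, `Rz` for `w₁` from `Rz` for `w₁ ++ w₂`), the
indices `l₁ l₂ l₃ j₁ j₂ j₃ g i j` of `SUBBOX`, the word `w₂` is in the set of `UNP2` (at most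
`C m^2` elements). -/
def Stmt_HALF : Prop :=
  ∀ (P : Polygon) (D : ℝ) (M : ℕ), TimesOK P D M → ∀ c : ℝ, 40 ≤ c → ∃ C : ℕ,
    ∀ m : ℕ, 1 ≤ m →
    {W : List (ZMod P.k) | ∃ (a : ZMod P.k) (w₁ w₂ : List (ZMod P.k)) (z u : ℂ) (t t' : ℝ),
      W = a :: (w₁ ++ w₂) ∧ w₁.length = m ∧ w₂.length = m ∧ Rz P a (w₁ ++ w₂) z u t t' ∧
      Dom P (c * (m + 2)) z u w₁ w₂}.ncard ≤ C * m ^ C * P.complexity (m + 1)

/-- Doubling. Proof: every code `W` of length `2 m + 1` is `a :: (w₁ ++ w₂)` and has a realisation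
(`GREP`). Both halves have bad triples (`TRI`; for the second half fold along `w₁`). The set of the
`d` with `Bad … d` has a least element for each half, if it is nonempty: only the finitely many
numbers `max (ld q₁) (ld q₂) (ld q₃)` matter, and they are positive (`Gen`). If the minimum of the
first half is at most that of the second half then `Dom`, and `W` is in the set of `HALF`; otherwise
`W.reverse` is (`REV`). -/
def Stmt_STEP : Prop :=
  ∀ P : Polygon, ∃ C : ℕ, ∀ m : ℕ, 1 ≤ m →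
    P.complexity (2 * m + 1) ≤ C * m ^ C * P.complexity (m + 1)

end Pool.Agent.BCX
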