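import Pool.Agent.BCX.Defs4

/-!
# `F_P(n) ≤ exp (C (log n)^{3/2})` for EVERY polygon: statements

Each `Stmt_X` is proved in the file `Pool/Agent/BCX/X.lean` as `theorem m_X` (possibly from other
statements as hypotheses). Hypotheses may be added: `theorem m_X : Stmt_LC → Stmt_UNIQ → … → Stmt_X`.
Everything in the files `Stmts … Stmts3` of this folder is proved (`LC`, `UNIQ`, `TIMES`, `GREP`,
`SCALES`, `RANK`, `REP`, `SIEG`, …) and may be assumed in the same way.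

Idea (helper5, helper63; paper: `PAPER4.md`). Count signed words (`SN P n`). A signed word `W` from the
gate `g` is a convex cell in the space of lines. `Opt`: a line of `W` whose clearance `ρ` (smallest
distance from the unfolded vertices) is at least one half of the supremum. Two lines of `W` are at
distance `≤ K R ρ` (`WID`), because two different vertices near a line have time difference `≥ c`. A
word of length `2 m` is a pair `(A, B)` at the gate in the middle (past `A`, future `B`, `TS`). Say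
`ρ_A ≤ ρ_B`. Either there are two different vertices of `A` or of `B` at distance `≤ K m / a` from each
other and `≤ K m ρ_A` from the line (`Tight`), or `A` determines `B` up to `K a^K` choices (`POOR`: packing in
the frame of the optimal line of `A`). In the first case the word of the `≤ C m / a` copies between the
two vertices, the scale of `ρ_A` (`SCL`: `C m^C` values, Siegel's lemma) and `C m^C` cells in the frame of
the line through the two vertices determine `A` and `B` (`RICH`).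
-/

open Set Filter Topology Metric MeasureTheory
open scoped ComplexConjugate

namespace Pool.Agent.BCX

open Pool.Agent.Billiard Pool.Agent.Lib_helper45.Bil

/-! ### Pure lemmas -/

/-- Height of the point `p` (time `p.1`, height `p.2`) over the line `(y, s)`. -/
def Ap (y s : ℝ) (p : ℝ × ℝ) : ℝ := p.2 - (y + s * p.1)

/-- Two lines with the same signs on `V` at distance `d`: either near the midpoint there is a line with the same
signs and clearance `d / (200 r)`, or there are two different points of `V` with time difference `≤ R / r`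
close to the first line.

Proof. `η = d / (100 r)`, `A` = height over the midpoint line, `v t = (y₂ - y₁) + (s₂ - s₁) t`. On `V`:
`|v| ≤ 2 |A|` and `|A₁| ≤ 2 |A|` (`A₁, A₂` have the same sign and mean `A`). If `|A| > η` on `V` take the
midpoint. Otherwise let `|A p| ≤ η`; then `|v p.1| ≤ 2 η`, so `|s₂ - s₁| R ≥ 0.49 d`, and every `p'` with
`|p'.1 - p.1| > R / r` has `|v p'.1| ≥ 0.47 d / r`, `|A p'| ≥ 0.23 d / r > η`. If there is `p' ≠ p` with
`|A p'| ≤ η`, the second case holds. Otherwise shift the midpoint line by `η / 2` away from `p`. -/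
def Stmt_PFAT : Prop :=
  ∀ (V : Set (ℝ × ℝ)) (R r y₁ s₁ y₂ s₂ d : ℝ), 0 < R → 1 ≤ r → d = |y₁ - y₂| + |s₁ - s₂| * R → 0 < d →
    (∀ p ∈ V, |p.1| ≤ R) → (∀ p ∈ V, 0 < Ap y₁ s₁ p * Ap y₂ s₂ p) →
    (∃ y, |y - (y₁ + y₂) / 2| ≤ d / (200 * r) ∧
      ∀ p ∈ V, 0 < Ap y₁ s₁ p * Ap y ((s₁ + s₂) / 2) p ∧
        d / (200 * r) ≤ |Ap y ((s₁ + s₂) / 2) p|) ∨
    (∃ p ∈ V, ∃ p' ∈ V, p ≠ p' ∧ |p.1 - p'.1| ≤ R / r ∧ |Ap y₁ s₁ p| ≤ d / (50 * r) ∧
      |Ap y₁ s₁ p'| ≤ d / (50 * r))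

/-- Three points of `V` whose cross product is comparable with `ρ`. The line `(0, 0)` has clearance `≥ ρ`,
all lines with the same signs are within `X`, and none has clearance `> 4 ρ`.

Proof. `Q = {p ∈ V : |p.2| ≤ 3 X}`. If all points of `Q` are equal (or `Q` is empty) then the
line `y = -2 X sign (p₁.2)`, `s = 0` has the same signs: contradiction with `hX` (its size is `2 X`). So there are
`p₁ ≠ p₂` in `Q`, `|p₁.1 - p₂.1| ≥ c`; let `κ = (yκ, sκ)` be the line through them,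
`|yκ| + |sκ| R ≤ 15 X R / c = Y`. If no `p₃ ∈ V` has `ρ / 16 ≤ |A_κ p₃|` and `|p₃.2| ≤ 20 Y`, then the line
`(-15 yκ, -15 sκ)`, whose height function is `16 p.2 - 15 A_κ p = p.2 + 15 (yκ + sκ p.1)`, has the signs of
`p.2` and clearance `> 4 ρ`: contradiction. Finally the cross product is `(p₂.1 - p₁.1) A_κ p₃` up to sign. -/
def Stmt_PTRIP : Prop :=
  ∀ (V : Set (ℝ × ℝ)) (R c X ρ : ℝ), 1 ≤ R → 0 < c → c ≤ 1 → 0 < ρ → ρ ≤ X → 300 * X * R ≤ c →
    (∀ p ∈ V, |p.1| ≤ R) → (∀ p ∈ V, ρ ≤ |p.2|) →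
    (∀ p ∈ V, ∀ p' ∈ V, p ≠ p' → |p.2| ≤ c → |p'.2| ≤ c → c ≤ |p.1 - p'.1|) →
    (∀ y s : ℝ, |s| ≤ 1 → |y| + |s| * R ≤ 3 * X → (∀ p ∈ V, 0 < p.2 * Ap y s p) →
      |y| + |s| * R ≤ X) →
    (∀ y s : ℝ, |s| ≤ 1 → (∀ p ∈ V, 0 < p.2 * Ap y s p) → ∃ p ∈ V, |Ap y s p| ≤ 4 * ρ) →
    ∃ p₁ ∈ V, ∃ p₂ ∈ V, ∃ p₃ ∈ V,
      c * ρ / 16 ≤ |(p₂.2 - p₁.2) * (p₃.1 - p₁.1) - (p₂.1 - p₁.1) * (p₃.2 - p₁.2)| ∧
      |(p₂.2 - p₁.2) * (p₃.1 - p₁.1) - (p₂.1 - p₁.1) * (p₃.2 - p₁.2)| ≤ 1000 * R ^ 2 * X / c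

/-! ### Signed words -/

/-- Reversal and splitting.

Proof. (1) Induction over `V` (`lg g (V ++ [c]) = c.2`, `rv g (V ++ [c]) = (neg c.1, lg g V) :: rv g V`).
(2) `refl (refl z) = z`, `lrefl` is linear and an involution. (3) the reversed line crosses `g` at the
time `-t`. (4) Shift by one letter: let `z + τ u` cross `g` at `t`, then the copy `0`, then the side `c.2` at
`t' > t`. The folded line is `(refl c.2 z, lrefl c.2 u)`, and its reversal at the gate `c.2` is `(z, -u)`: it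
crosses `c.2` at the time `-t'`, has the opposite signs at the vertices of `P`, crosses `g` at `-t` and continues
as `(refl g z, -lrefl g u)`. Induction over `V` with an arbitrary past `A`:
`SR P g A (refl g z) (-lrefl g u)` and `SR P g (V ++ B) z u` give `SR P (lg g V) (rv g V ++ A) …` (crossing times
of `g` coincide: the line misses the vertices of `P`, so it crosses the open side `g` only once, `time_unique`
in `UNIQ.lean`). -/
def Stmt_SPLIT : Prop :=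
  ∀ (P : Polygon),
    (∀ (g : ZMod P.k) (V : List (SL P)), (rv g V).length = V.length ∧ lg (lg g V) (rv g V) = g ∧
      rv (lg g V) (rv g V) = V) ∧
    (∀ (g : ZMod P.k) (A B : List (SL P)) (z u : ℂ), TS P g A B z u →
      TS P g B A (Lib_helper45.Bil.refl P g z) (-lrefl P g u)) ∧
    (∀ (g : ZMod P.k) (V B : List (SL P)) (z u : ℂ), SR P g (V ++ B) z u →
      SR P g V z u ∧ TS P (lg g V) (rv g V) B (foldz P (lets V) z) (foldu P (lets V) u))

/-- Vertices. (1) finite; (2), (3) transport under folding and reversal; (4) points of `VX` are missed;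
(5) `Cl` for the frame lines: `ld ≤ |sd| ≤ 2 ld` if `|s| ≤ 1` (`norm_lu`).
Proof of (3) by induction over `V`: the vertices of `rv g (c :: V) = rv c.2 V ++ [(_, g)]` are those of
`rv c.2 V` and, as the last copy, the vertices `dev (lets (rv c.2 V)) (vertex j)`; use
`dev (lets V) (refl (lg c.2 V) (dev (lets (rv c.2 V)) p)) = refl c.2 p` (induction). -/
def Stmt_VXL : Prop :=
  ∀ (P : Polygon),
    (∀ W : List (SL P), (VX P W).Finite) ∧
    (∀ (V B : List (SL P)) (p : ℂ), p ∈ VX P B → dev P (lets V) p ∈ VX P (V ++ B)) ∧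
    (∀ (V B : List (SL P)) (p : ℂ), p ∈ VX P V → p ∈ VX P (V ++ B)) ∧
    (∀ (g : ZMod P.k) (V : List (SL P)) (p : ℂ), p ∈ VX P (rv g V) →
      dev P (lets V) (Lib_helper45.Bil.refl P (lg g V) p) ∈ VX P V) ∧
    (∀ (g : ZMod P.k) (W : List (SL P)) (z u : ℂ), SR P g W z u → ∀ q ∈ VX P W, sd z u q ≠ 0) ∧
    (∀ (z e q : ℂ) (s : ℝ), ‖e‖ = 1 → |s| ≤ 1 →
      ld z (lu e s) q ≤ |sd z (lu e s) q| ∧ |sd z (lu e s) q| ≤ 2 * ld z (lu e s) q)

/-- Reparametrisation and change of the frame. (1), (2): `z' = z + x u`, `u' = l u`, `l > 0`: the crossing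
times become `(t - x) / l`, signs and distances do not change (`sd (z + x u) (l u) q = l sd z u q`). (3), (4)
reversal in a frame: `refl g (b + y i e) = refl g b - y i lrefl g e`. (5) the same for `Coord` (`x ↦ -x`,
same `l`). (6), (7) the standard frame of a line. -/
def Stmt_INV : Prop :=
  ∀ (P : Polygon) (b e z u : ℂ) (y s : ℝ),
    (∀ (g : ZMod P.k) (W : List (SL P)), Coord b e z u y s → SR P g W z u →
      SR P g W (lz b e y) (lu e s)) ∧
    (∀ q : ℂ, Coord b e z u y s → ld (lz b e y) (lu e s) q = ld z u q) ∧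
    (∀ g : ZMod P.k, Lib_helper45.Bil.refl P g (lz b e y) =
      lz (Lib_helper45.Bil.refl P g b) (-lrefl P g e) y) ∧
    (∀ g : ZMod P.k, -lrefl P g (lu e s) = lu (-lrefl P g e) (-s)) ∧
    (∀ g : ZMod P.k, Coord b e z u y s → Coord (Lib_helper45.Bil.refl P g b) (-lrefl P g e)
      (Lib_helper45.Bil.refl P g z) (-lrefl P g u) y (-s)) ∧
    lz z u 0 = z ∧ lu u 0 = u ∧ (u ≠ 0 → Coord z (u / (‖u‖ : ℂ)) z u 0 0)

/-- Same signs, same word. (1) `LC` for the linear family (`sd_mix`) gives the path of `lets W`; the sign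
vector of the copy `i` is given by the signs at `dev ((lets W).take i) (vertex j)` (`sd_dev`, sign
`(-1)^i`). (2) the same remark. (3) the crossing time of `g` is unique for nonempty words (`time_unique`),
then `Path.unique`; the sign vectors are determined by the line. -/
def Stmt_SGN : Prop :=
  ∀ (P : Polygon) (g : ZMod P.k),
    (∀ (W : List (SL P)) (b e : ℂ) (y s y' s' : ℝ), ‖e‖ = 1 → W ≠ [] →
      SR P g W (lz b e y) (lu e s) →
      (∀ q ∈ VX P W, 0 < sd (lz b e y) (lu e s) q * sd (lz b e y') (lu e s') q) →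
      SR P g W (lz b e y') (lu e s')) ∧
    (∀ (W : List (SL P)) (z u z' u' : ℂ), SR P g W z u → SR P g W z' u' →
      ∀ q ∈ VX P W, 0 < sd z u q * sd z' u' q) ∧
    (∀ (W W' : List (SL P)) (z u : ℂ), SR P g W z u → SR P g W' z u → W.length = W'.length → W = W')

/-- Packing: two lines in the same cell of the mesh `x / 2` realise the same signed word, if one of them
has clearance `≥ x`. Proof: `|y - y'| < x / 2`, `|s - s'| R < x / 2`, so the values of `sd` differ by less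
than `x` (`sd_frame`), the signs are the same, `SGN`. -/
def Stmt_CELL : Prop :=
  ∀ (P : Polygon) (g : ZMod P.k) (W W' : List (SL P)) (b e : ℂ) (R x y s y' s' : ℝ), ‖e‖ = 1 → 0 < R →
    0 < x → W.length = W'.length → SR P g W (lz b e y) (lu e s) → SR P g W' (lz b e y') (lu e s') →
    TB P R b e W → (∀ q ∈ VX P W, x ≤ |sd (lz b e y) (lu e s) q|) →
    ⌊2 * y / x⌋ = ⌊2 * y' / x⌋ → ⌊2 * (s * R) / x⌋ = ⌊2 * (s' * R) / x⌋ → W = W'

/-- Moving from a line towards another line of the same word. Proof: `sd_mix`, the two values of `sd` have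
the same sign (`SGN` (2)), `SGN` (1). -/
def Stmt_HOMO : Prop :=
  ∀ (P : Polygon) (g : ZMod P.k) (W : List (SL P)) (b e : ℂ) (y s y' s' r : ℝ), ‖e‖ = 1 → W ≠ [] →
    0 ≤ r → r ≤ 1 → SR P g W (lz b e y) (lu e s) → SR P g W (lz b e y') (lu e s') →
    SR P g W (lz b e ((1 - r) * y + r * y')) (lu e ((1 - r) * s + r * s')) ∧
    ∀ q ∈ VX P W, r * |sd (lz b e y') (lu e s') q| ≤
      |sd (lz b e ((1 - r) * y + r * y')) (lu e ((1 - r) * s + r * s')) q|

/-- Two different unfolded vertices close to a line have different times. Proof: let `4 c` be a positive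
lower bound, at most `1`, of the positive numbers among
`dist (vertex j) (dev v (vertex j'))`, `v.length ≤ M` (finitely many). Stages `i ≤ i'` with `i' < i + M`:
`dist q q' ≥ 4 c` (`dev` is an isometry), `|Δ hc| ≤ 2 c + |s| |Δ tc|`, so `4 c ≤ 2 |Δ tc| + 2 c`. Stages with
`i' ≥ i + M`: `TimesOK` (`‖lu e s‖ ≤ 2`, crossing points at distance `≥ 5 D`, their times differ by
`≥ 5 D / 2`, vertices within `D`): `|Δ tc| ≥ D / 2`. -/
def Stmt_GAP0 : Prop :=
  ∀ (P : Polygon) (D : ℝ) (M : ℕ), TimesOK P D M → ∃ c : ℝ, 0 < c ∧ c ≤ 1 ∧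
    ∀ (g : ZMod P.k) (W : List (SL P)) (b e : ℂ) (y s : ℝ), ‖e‖ = 1 → |s| ≤ 1 →
    SR P g W (lz b e y) (lu e s) → ∀ q ∈ VX P W, ∀ q' ∈ VX P W, q ≠ q' →
    |sd (lz b e y) (lu e s) q| ≤ c → |sd (lz b e y) (lu e s) q'| ≤ c →
    c ≤ |tc b e q - tc b e q'|

/-- Sizes (`TimesOK`): (1) distances of vertices, (2) distances from points of the gate, (3) the number of
copies between two vertices: crossing points of stages which differ by `M l` are at distance `≥ 5 D l`. -/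
def Stmt_SIZE : Prop :=
  ∀ (P : Polygon) (D : ℝ) (M : ℕ), TimesOK P D M →
    ∀ (g : ZMod P.k) (W : List (SL P)) (z u : ℂ), SR P g W z u →
    (∀ q ∈ VX P W, ∀ q' ∈ VX P W, dist q q' ≤ (W.length + 2) * D) ∧
    (∀ x ∈ rel P g, ∀ q ∈ VX P W, dist x q ≤ (W.length + 2) * D) ∧
    (∀ i i' : ℕ, i ≤ i' → i' < W.length → ∀ j j' : ZMod P.k,
      ((i' : ℝ) - i) ≤ M * ((dist (dev P ((lets W).take i) (P.vertex j))
        (dev P ((lets W).take i') (P.vertex j')) + 2 * D) / (5 * D) + 1))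

/-- Two lines of a long word are close. Let `p₀, p_n` be the first and the last crossing point of the first
line, `p₀', p_n'` those of the second (unfolded). Points on the same side of a copy are at distance `≤ D`. The
times of `p₀, p_n` in the frame differ by `T ≥ (5 D ⌊n / M⌋) / 2`, so those of `p₀', p_n'` by at least
`T - 2 D > 0`; the second line has slope `s₂ = Δ hc / Δ tc`, `|s₂ - s₁| ≤ 4 D / (T - 2 D) ≤ C / n`; at the
time of `p₀'` (at most `R + 2 D` in absolute value) the heights of the two lines differ by at most `2 D`. -/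
def Stmt_ANG : Prop :=
  ∀ (P : Polygon) (D : ℝ) (M : ℕ), TimesOK P D M → ∃ C : ℕ, 1 ≤ C ∧
    ∀ (g : ZMod P.k) (W : List (SL P)) (b e z u : ℂ) (R y s : ℝ), C ≤ W.length → ‖e‖ = 1 → 0 < R →
    R ≤ 12 * D * W.length → |s| ≤ 1 / 2 → TB P R b e W → SR P g W (lz b e y) (lu e s) →
    SR P g W z u → ∃ y' s' : ℝ, Coord b e z u y' s' ∧ |s'| ≤ 1 ∧ |y - y'| + |s - s'| * R ≤ C

/-- Optimal lines exist. Proof: the clearances of the lines of `W` are bounded by `D` (the vertices of copy `0`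
are within `D` of the crossing point, `TimesOK`; `ld ≤ dist`, `ld_le` in `TRI.lean`): this is the second
part. Some are positive (`VX` is finite, `SR` is generic); take a clearance larger than one half of
the supremum; move the origin to the crossing point with `g` and divide the speed by `‖u‖` (`INV`). -/
def Stmt_OPT : Prop :=
  ∀ (P : Polygon) (D : ℝ) (M : ℕ), TimesOK P D M →
    ∀ (g : ZMod P.k) (W : List (SL P)) (z u : ℂ), W ≠ [] → SR P g W z u →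
    (∃ (z' u' : ℂ) (ρ : ℝ), Opt P g W z' u' ρ) ∧ ∀ ρ : ℝ, Cl P ρ W z u → ρ ≤ D

/-- The width of a cell. Proof: `PFAT` with `r = 2 R / c` (`c` from `GAP0`), `V` = the pairs
`(tc q, hc q)`, `q ∈ VX P W`, `Ap y s (tc q, hc q) = sd (lz b e y) (lu e s) q` (`sd_frame`). The
second case contradicts `GAP0` (`|Ap| ≤ d c / (100 R) ≤ c`, `R / r = c / 2`). In the first case the line realises
`W` (`SGN`), its slope is at most `1`, its `sd` are at least `d c / (400 R)`, so its clearance is at least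
`d c / (800 R)`, which is at most `2 ρ` (`Opt.max`). -/
def Stmt_WID : Prop :=
  ∀ (P : Polygon) (D : ℝ) (M : ℕ), TimesOK P D M → ∃ K : ℕ, 1 ≤ K ∧
    ∀ (g : ZMod P.k) (W : List (SL P)) (b e z u : ℂ) (R y₁ s₁ y₂ s₂ ρ : ℝ), W ≠ [] → ‖e‖ = 1 →
    1 ≤ R → |s₁| ≤ 1 → |s₂| ≤ 1 → TB P R b e W → Opt P g W z u ρ →
    SR P g W (lz b e y₁) (lu e s₁) → SR P g W (lz b e y₂) (lu e s₂) →
    |y₁ - y₂| + |s₁ - s₂| * R ≤ 100 * R → |y₁ - y₂| + |s₁ - s₂| * R ≤ K * R * ρ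

/-- First half. Either the two lines are at distance `≤ 800 r ρ`, or there is a tight pair near the first
line. Proof: `PFAT` (`d = 0` is trivial). First case: clearance `≥ d / (400 r)`, `Opt.max`. Second case:
`ld ≤ |sd| ≤ d / (50 r) ≤ K₀ R ρ / (50 r)` by `WID` (constant `K₀`), and
`dist q q' ≤ |Δ tc| + |Δ hc| ≤ 2 R / r + 2 d / (50 r)`, `d ≤ 100 R`. -/
def Stmt_NEARA : Prop :=
  ∀ (P : Polygon) (D : ℝ) (M : ℕ), TimesOK P D M → ∃ K : ℕ, 1 ≤ K ∧
    ∀ (g : ZMod P.k) (W : List (SL P)) (b e z u : ℂ) (R r y₁ s₁ y₂ s₂ ρ : ℝ), W ≠ [] → ‖e‖ = 1 →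
    1 ≤ R → 1 ≤ r → |s₁| ≤ 1 → |s₂| ≤ 1 → TB P R b e W → Opt P g W z u ρ →
    SR P g W (lz b e y₁) (lu e s₁) → SR P g W (lz b e y₂) (lu e s₂) →
    |y₁ - y₂| + |s₁ - s₂| * R ≤ 100 * R →
    |y₁ - y₂| + |s₁ - s₂| * R ≤ 800 * r * ρ ∨
      Tight P W (lz b e y₁) (lu e s₁) (K * R * ρ) (K * R / r)

/-- Second half. The second line has clearance `≥ ρ`. Either there is a line with clearance `≥ ρ` within
`400 r ρ` of the first line, or there is a tight pair near the first line. Proof: let `d₀` be the distance of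
the two lines. If `d₀ ≤ 400 r ρ` take the second line. Otherwise take the point of the segment at
distance `d = 400 r ρ` from the first line (`HOMO`) and apply `PFAT`: in the first case
`d / (200 r) = 2 ρ` (the distance from the first line is at most `d / 2 + 2 ρ ≤ d`); in the second case
`|sd| ≤ d / (50 r) = 8 ρ` and `dist q q' ≤ 2 R / r + 16 ρ`. -/
def Stmt_NEARB : Prop :=
  ∀ (P : Polygon) (g : ZMod P.k) (W : List (SL P)) (b e : ℂ) (R r y₁ s₁ y₂ s₂ ρ : ℝ), W ≠ [] →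
    ‖e‖ = 1 → 1 ≤ R → 1 ≤ r → 0 < ρ → |s₁| ≤ 1 → |s₂| ≤ 1 → TB P R b e W →
    SR P g W (lz b e y₁) (lu e s₁) → SR P g W (lz b e y₂) (lu e s₂) →
    (∀ q ∈ VX P W, ρ ≤ |sd (lz b e y₂) (lu e s₂) q|) →
    (∃ y s : ℝ, |s| ≤ 1 ∧ |y - y₁| + |s - s₁| * R ≤ 400 * r * ρ ∧ SR P g W (lz b e y) (lu e s) ∧
      ∀ q ∈ VX P W, ρ ≤ |sd (lz b e y) (lu e s) q|) ∨
      Tight P W (lz b e y₁) (lu e s₁) (8 * ρ) (2 * R / r + 16 * ρ)

/-- The poor case, the line of `B` in the frame of the optimal line of `A`.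

Proof. The reversed frame of `(b, e)` is `(zA, uA)`, in which the optimal line of `A` is `(0, 0)`. `TB` by
`SIZE` (2) (`b = zA ∈ rel P g`: `refl g` fixes the gate). By `ANG` for `A` in the frame `(zA, uA)` (first line
`(0, 0)`) the reversal of `(z, u)` has coordinates `(y, s')`, `|y| + |s'| R ≤ C`, so `|s'| ≤ 1/2` for `m` large, and
`(z, u)` has the coordinates `(y, -s')` in `(b, e)` (`INV`). By `ANG` for `B` the optimal line of `B` has
coordinates `(y₂, s₂)` in `(b, e)`. No tight pair of `A`: by `NEARA` (first line `(y, s')`, second `(0, 0)`,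
`r = a`) `|y| + |s'| R ≤ 800 a ρA`. No tight pair of `B`: by `NEARB` with `ρ = ρA` (the optimal line of `B` has
`|sd| ≥ ld ≥ ρB ≥ ρA`) there is a line of `B` with `|sd| ≥ ρA` within `400 a ρA` of `(y, -s')`. `Tight` is
monotone in both bounds, `ρA ≤ D` (`OPT`), `16 ρA ≤ 16 D m / a`, `R ≤ 12 D m`, `Tight` depends only on `ld`
(`INV` (2)). -/
def Stmt_PLINE : Prop :=
  ∀ (P : Polygon) (D : ℝ) (M : ℕ), TimesOK P D M → ∃ K : ℕ, 1 ≤ K ∧
    ∀ m a : ℕ, K ≤ m → 1 ≤ a → a ≤ m → ∀ R : ℝ, R = (2 * m + 10) * D →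
    ∀ (g : ZMod P.k) (A B : List (SL P)) (zA uA z u zB uB : ℂ) (ρA ρB : ℝ), A.length = m →
    B.length = m → Opt P g A zA uA ρA → Opt P g B zB uB ρB → TS P g A B z u → ρA ≤ ρB →
    ¬ Tight P A (Lib_helper45.Bil.refl P g z) (-lrefl P g u) (K * m * ρA) (K * m / a) →
    ¬ Tight P B z u (K * m * ρA) (K * m / a) →
    ∀ b e : ℂ, b = Lib_helper45.Bil.refl P g zA → e = -lrefl P g uA →
      ‖e‖ = 1 ∧ TB P R b e B ∧ ∃ y s : ℝ, |y| + |s| * R ≤ 1200 * a * ρA ∧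
        SR P g B (lz b e y) (lu e s) ∧ ∀ q ∈ VX P B, ρA ≤ |sd (lz b e y) (lu e s) q|

/-- The poor case: given `A` (and its optimal line), at most `K a^K` words `B`. Proof: `PLINE`; by `CELL`
(`x = ρA`, frame `(b, e)`) the word `B` is determined by the two integers
`⌊2 y / ρA⌋, ⌊2 (s R) / ρA⌋ ∈ [-2400 a, 2400 a]` (an injection into a finite set of pairs of integers). -/
def Stmt_POOR : Prop :=
  ∀ (P : Polygon) (D : ℝ) (M : ℕ), TimesOK P D M → ∃ K : ℕ, 1 ≤ K ∧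
    ∀ m a : ℕ, K ≤ m → 1 ≤ a → a ≤ m →
    ∀ (g : ZMod P.k) (A : List (SL P)) (zA uA : ℂ) (ρA : ℝ), A.length = m → Opt P g A zA uA ρA →
    {B : List (SL P) | B.length = m ∧ ∃ (z u zB uB : ℂ) (ρB : ℝ), TS P g A B z u ∧
      Opt P g B zB uB ρB ∧ ρA ≤ ρB ∧
      ¬ Tight P A (Lib_helper45.Bil.refl P g z) (-lrefl P g u) (K * m * ρA) (K * m / a) ∧
      ¬ Tight P B z u (K * m * ρA) (K * m / a)}.ncard ≤ K * a ^ K

/-- The line through a tight pair as the axis of a frame. Proof: `v = u / ‖u‖`;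
`|((q' - q) * conj v).im| ≤ 2 ε`, so with `e = θ (q' - q) / ‖q' - q‖` and the sign `θ` with
`(u * conj e).re > 0`: `|(e * conj v).im| ≤ 2 ε / c ≤ 1 / 4`, `(v * conj e).re ≥ 0.9`; slope
`s = (v * conj e).im / (v * conj e).re`, `|s| ≤ 3 ε / c`; `y = - sd (lz q e y) (lu e s) q`,
`|y| ≤ ‖lu e s‖ ld z u q ≤ 2 ε`. -/
def Stmt_KAP : Prop :=
  ∀ (z u q q' : ℂ) (ε c R : ℝ), u ≠ 0 → 0 < c → c ≤ 1 → 1 ≤ R → c ≤ dist q q' → 8 * ε ≤ c →
    ld z u q ≤ ε → ld z u q' ≤ ε →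
    ∃ θ : ℝ, (θ = 1 ∨ θ = -1) ∧ ‖(θ : ℂ) * (q' - q) / (‖q' - q‖ : ℂ)‖ = 1 ∧
      ∃ y s : ℝ, Coord q ((θ : ℂ) * (q' - q) / (‖q' - q‖ : ℂ)) z u y s ∧ |s| ≤ 1 / 2 ∧
        |y| + |s| * R ≤ 8 * ε * R / c

/-- The rich case, lines in the frame of the tight pair.

Proof. `Tight` gives `q, q'`; exchange them if necessary, so that their stages are `i ≤ i'`. `c` from `GAP0`
(the standard frame of `(z, u)`: `dist q q' ≥ c`). `(i' - i) a ≤ C m` by `SIZE` (3). `KAP` with `ε = K m ρ`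
gives `θ` and coordinates `(y, s)` of `(z, u)` in the frame `(q, e)`, `|y| + |s| R ≤ 8 K m ρ R / c`. `TB` by
`SIZE`: `|tc q e p| ≤ dist q p ≤ (m + 2) D`, and `|tc b' e' p| ≤ dist (refl g q) p ≤ 2 (m + 2) D` via a point
of the gate. By `ANG` for `B` the optimal line of `B` is `(y₂, s₂)` in `(q, e)`, by `WID`
`|y - y₂| + |s - s₂| R ≤ K₀ R ρB`. The point of the segment from `(y, s)` to `(y₂, s₂)` with parameter
`ρ / ρB` (`HOMO`) has `|sd| ≥ (ρ / ρB) ρB = ρ` and is within `K₀ R ρ` of `(y, s)`. In the same way for `A` in the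
reversed frame (`(z, u)` has the coordinates `(y, -s)` there, `INV`). -/
def Stmt_RLINES : Prop :=
  ∀ (P : Polygon) (D : ℝ) (M : ℕ), TimesOK P D M → ∀ K : ℕ, ∃ C : ℕ, 1 ≤ C ∧
    ∀ m a : ℕ, C ≤ m → 1 ≤ a → a ≤ m → ∀ (R : ℝ), R = (2 * m + 10) * D →
    ∀ (g : ZMod P.k) (A B : List (SL P)) (z u zA uA zB uB : ℂ) (ρA ρB ρ : ℝ), A.length = m →
    B.length = m → TS P g A B z u → Opt P g A zA uA ρA → Opt P g B zB uB ρB → 0 < ρ → ρ ≤ ρA →
    ρ ≤ ρB → C * (m : ℝ) ^ C * ρ ≤ 1 → Tight P B z u (K * m * ρ) (K * m / a) →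
    ∃ i i' : ℕ, i ≤ i' ∧ i' < m ∧ (i' - i) * a ≤ C * m ∧
      ∃ (j j' : ZMod P.k) (θ : ℝ), (θ = 1 ∨ θ = -1) ∧
      ∀ (q q' e b' e' : ℂ), q = dev P ((lets B).take i) (P.vertex j) →
        q' = dev P ((lets B).take i') (P.vertex j') → e = (θ : ℂ) * (q' - q) / (‖q' - q‖ : ℂ) →
        b' = Lib_helper45.Bil.refl P g q → e' = -lrefl P g e →
        ‖e‖ = 1 ∧ TB P R q e B ∧ TB P R b' e' A ∧
        (∃ y s : ℝ, |s| ≤ 1 ∧ |y| + |s| * R ≤ C * (m : ℝ) ^ C * ρ ∧ SR P g B (lz q e y) (lu e s) ∧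
          ∀ p ∈ VX P B, ρ ≤ |sd (lz q e y) (lu e s) p|) ∧
        (∃ y s : ℝ, |s| ≤ 1 ∧ |y| + |s| * R ≤ C * (m : ℝ) ^ C * ρ ∧
          SR P g A (lz b' e' y) (lu e' s) ∧ ∀ p ∈ VX P A, ρ ≤ |sd (lz b' e' y) (lu e' s) p|)

/-- Folding a line of `V ++ B` along `V`: future `B` and past `rv g V` at the gate `lg g V`. Proof: `SPLIT`,
`fz_lz`, `fu_lu` (`FOLD.lean`), `INV` (3), (4); `|sd|` is preserved (`sd_dev`, `sd_refl`), as are times up to sign,
and the vertices correspond (`VXL` (2), (4)). -/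
def Stmt_RFOLD : Prop :=
  ∀ (P : Polygon) (g : ZMod P.k) (V B : List (SL P)) (b e b₁ e₁ b₂ e₂ : ℂ) (R ρ y s y₁ s₁ : ℝ),
    ‖e‖ = 1 → SR P g (V ++ B) (lz b e y) (lu e s) → TB P R b e (V ++ B) →
    (∀ p ∈ VX P (V ++ B), ρ ≤ |sd (lz b e y) (lu e s) p|) →
    b₁ = foldz P (lets V) b → e₁ = foldu P (lets V) e →
    b₂ = Lib_helper45.Bil.refl P (lg g V) b₁ → e₂ = -lrefl P (lg g V) e₁ →
    y₁ = (-1) ^ V.length * y → s₁ = (-1) ^ V.length * s →
    ‖e₁‖ = 1 ∧ ‖e₂‖ = 1 ∧ TB P R b₁ e₁ B ∧ TB P R b₂ e₂ (rv g V) ∧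
    SR P (lg g V) B (lz b₁ e₁ y₁) (lu e₁ s₁) ∧
    SR P (lg g V) (rv g V) (lz b₂ e₂ y₁) (lu e₂ (-s₁)) ∧
    (∀ p ∈ VX P B, ρ ≤ |sd (lz b₁ e₁ y₁) (lu e₁ s₁) p|) ∧
    (∀ p ∈ VX P (rv g V), ρ ≤ |sd (lz b₂ e₂ y₁) (lu e₂ (-s₁)) p|)

/-- The cross product of three vertices gives the scale. Proof: `PTRIP` in the standard frame of the
optimal line (`b = z`, `e = u`, `R = (m + 3) D`, `V` = the pairs `(tc q, hc q)`, `c` from `GAP0`), where the
optimal line is `(0, 0)` and `hc q = sd z u q`. `X = K R ρ` (`WID`): a line `(y, s)`, `|s| ≤ 1`, with the same signs realises `W` (`SGN`), so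
`|y| + |s| R ≤ K R ρ` if it is `≤ 3 X ≤ 100 R`; and if all its `|sd|` were `> 4 ρ` then its clearance would
be larger than `2 ρ` (`VXL` (6); `VX` finite), contradicting `Opt.max`. Cross products in coordinates: as in
`SUBBOX.lean` / `near_line` (`cr (q₂ - q₁) (q₃ - q₁) = Δ hc' Δ tc'' - Δ tc' Δ hc''`, invariance under the
rotation by `e`). -/
def Stmt_TRIP : Prop :=
  ∀ (P : Polygon) (D : ℝ) (M : ℕ), TimesOK P D M → ∃ C : ℕ, 1 ≤ C ∧
    ∀ (m : ℕ) (g : ZMod P.k) (W : List (SL P)) (z u : ℂ) (ρ : ℝ), 1 ≤ m → W.length = m →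
    Opt P g W z u ρ → C * (m : ℝ) ^ C * ρ ≤ 1 →
    ∃ q₁ ∈ VX P W, ∃ q₂ ∈ VX P W, ∃ q₃ ∈ VX P W,
      ρ ≤ C * (m : ℝ) ^ C * |cr (q₂ - q₁) (q₃ - q₁)| ∧
      |cr (q₂ - q₁) (q₃ - q₁)| ≤ C * (m : ℝ) ^ C * ρ

/-- Few scales. Proof: `RANK` (1) and `SCALES` with `r = k - 1`: `σ 0 = 1, …, σ Q = 0`, `Q ≤ C₁ m^r`,
`Γ = C₁ m^(r+2)`. If `C₂ m^C₂ ρ > 1` let `σ = 1 / (C₂ m^C₂)`. Otherwise let `χ = |cr …|` from `TRIP`; `χ ≤ 1` (for
`C₂` large), let `i < Q` be the index with `σ (i+1) < χ ≤ σ i`; `Gap` gives `σ i / Γ ≤ χ`; so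
`ρ ≤ C₂ m^C₂ σ i` and `ρ ≥ χ / (C₂ m^C₂) ≥ σ i / (Γ C₂ m^C₂)`. The set: `1 / (C₂ m^C₂)` and the
`σ i / (Γ C₂ m^C₂)`, `i < Q`. (`ρ ≤ D` as in `OPT`.) -/
def Stmt_SCL : Prop :=
  ∀ (P : Polygon) (D : ℝ) (M : ℕ), TimesOK P D M → ∃ C : ℕ, 1 ≤ C ∧ ∀ m : ℕ, 1 ≤ m →
    ∃ S : Finset ℝ, S.card ≤ C * m ^ C ∧ (∀ σ ∈ S, 0 < σ) ∧
      ∀ (g : ZMod P.k) (W : List (SL P)) (z u : ℂ) (ρ : ℝ), W.length = m → Opt P g W z u ρ →
      ∃ σ ∈ S, σ ≤ ρ ∧ ρ ≤ C * (m : ℝ) ^ C * σ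

/-- The rich case, the key. Proof: `RLINES` with `ρ = min ρA ρB`, `σ ∈ S` with `σ ≤ ρ ≤ C₁ m^C₁ σ` (`SCL` for `A`
or for `B`), and `RFOLD` for `V = B.take i`. With `n = i' - i`, `U = (B.drop i).take n` the folded frame is
`b₁ = foldz (lets V) q = vertex j` (`foldz_dev` in `REV.lean`, `(lets B).take i = lets V`) and
`e₁ = foldu (lets V) e = θ (dev (lets U) (vertex j') - vertex j) / ‖…‖`, since `foldu (q' - q) = foldz q' - foldz q`,
`q' = dev (lets V) (dev (lets U) (vertex j'))` (`dev_append`), `foldu` is real linear and an isometry. -/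
def Stmt_RKEY : Prop :=
  ∀ (P : Polygon) (D : ℝ) (M : ℕ), TimesOK P D M → ∀ K : ℕ, ∃ C : ℕ, 1 ≤ C ∧
    ∀ m : ℕ, C ≤ m → ∃ S : Finset ℝ, S.card ≤ C * m ^ C ∧ (∀ σ ∈ S, 0 < σ) ∧
    ∀ a : ℕ, 1 ≤ a → a ≤ m → ∀ (R : ℝ), R = (2 * m + 10) * D →
    ∀ (g : ZMod P.k) (A B : List (SL P)) (z u zA uA zB uB : ℂ) (ρA ρB : ℝ), A.length = m →
    B.length = m → TS P g A B z u → Opt P g A zA uA ρA → Opt P g B zB uB ρB →
    C * (m : ℝ) ^ C * min ρA ρB ≤ 1 → Tight P B z u (K * m * min ρA ρB) (K * m / a) →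
    ∃ (i n : ℕ) (j j' : ZMod P.k) (θ σ : ℝ), i + n < m ∧ n * a ≤ C * m ∧ (θ = 1 ∨ θ = -1) ∧ σ ∈ S ∧
      ∀ (b₁ e₁ b₂ e₂ q q' e b' e' : ℂ), b₁ = P.vertex j →
        e₁ = (θ : ℂ) * (dev P (lets ((B.drop i).take n)) (P.vertex j') - b₁) /
          (‖dev P (lets ((B.drop i).take n)) (P.vertex j') - b₁‖ : ℂ) →
        b₂ = Lib_helper45.Bil.refl P (lg g (B.take i)) b₁ → e₂ = -lrefl P (lg g (B.take i)) e₁ →
        q = dev P ((lets B).take i) (P.vertex j) → q' = dev P ((lets B).take (i + n)) (P.vertex j') →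
        e = (θ : ℂ) * (q' - q) / (‖q' - q‖ : ℂ) → b' = Lib_helper45.Bil.refl P g q → e' = -lrefl P g e →
        ‖e₁‖ = 1 ∧ ‖e₂‖ = 1 ∧ ‖e'‖ = 1 ∧ TB P R b₁ e₁ (B.drop i) ∧
        TB P R b₂ e₂ (rv g (B.take i)) ∧ TB P R b' e' A ∧
        ∃ y₁ s₁ y₃ s₃ : ℝ, |y₁| + |s₁| * R ≤ C * (m : ℝ) ^ C * σ ∧ |y₃| + |s₃| * R ≤ C * (m : ℝ) ^ C * σ ∧
          SR P (lg g (B.take i)) (B.drop i) (lz b₁ e₁ y₁) (lu e₁ s₁) ∧
          SR P (lg g (B.take i)) (rv g (B.take i)) (lz b₂ e₂ y₁) (lu e₂ (-s₁)) ∧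
          SR P g A (lz b' e' y₃) (lu e' s₃) ∧
          (∀ p ∈ VX P (B.drop i), σ ≤ |sd (lz b₁ e₁ y₁) (lu e₁ s₁) p|) ∧
          (∀ p ∈ VX P (rv g (B.take i)), σ ≤ |sd (lz b₂ e₂ y₁) (lu e₂ (-s₁)) p|) ∧
          (∀ p ∈ VX P A, σ ≤ |sd (lz b' e' y₃) (lu e' s₃) p|)

/-- The rich case: count. Proof: choose for every element of the set the data of `RKEY`. Key: `i`, `n`, the pair
`(g', U)` with `g' = lg g (B.take i)`, `U = (B.drop i).take n` (realised by a prefix of `B.drop i`, so it is one of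
`SN P n` pairs, `n ≤ C m / a`), `j`, `j'`, `θ`, `σ`, and the integers `⌊2 y₁ / σ⌋, ⌊2 (s₁ R) / σ⌋, ⌊2 (-s₁ R) / σ⌋,
⌊2 y₃ / σ⌋, ⌊2 (s₃ R) / σ⌋ ∈ [-N, N]`, `N = 2 C m^C` (`x = σ` in `CELL`). The key determines the frames
`(b₁, e₁)`, `(b₂, e₂)`, so `B.drop i` and `rv g (B.take i)` (`CELL`), hence `g`, `B.take i` (`SPLIT` (1)) and `B`, hence
the frame `(b', e')`, hence `A` (`CELL`). Number of keys
`≤ m * (∑_{n ≤ C m / a} SN P n) * k² * 2 * C m^C * (2 N + 1)^5`. -/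
def Stmt_RICH : Prop :=
  ∀ (P : Polygon) (D : ℝ) (M : ℕ), TimesOK P D M → ∀ K : ℕ, ∃ C : ℕ, 1 ≤ C ∧
    ∀ m a : ℕ, C ≤ m → 1 ≤ a → a ≤ m →
    {X : ZMod P.k × List (SL P) × List (SL P) | X.2.1.length = m ∧ X.2.2.length = m ∧
      ∃ (z u zA uA zB uB : ℂ) (ρA ρB : ℝ), TS P X.1 X.2.1 X.2.2 z u ∧ Opt P X.1 X.2.1 zA uA ρA ∧
        Opt P X.1 X.2.2 zB uB ρB ∧ C * (m : ℝ) ^ C * min ρA ρB ≤ 1 ∧
        Tight P X.2.2 z u (K * m * min ρA ρB) (K * m / a)}.ncard ≤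
      C * m ^ C * ∑ n ∈ Finset.range (C * m / a + 1), SN P n

/-- Fat words are polynomially many. Proof: let `(z, u)` realise `W` from the gate `g` with clearance `≥ ρ`,
`1 ≤ c m^c ρ`; normalise (`z` = crossing point, `‖u‖ = 1`). Choose `b` in a finite net of the gate (segment) and
`e = exp (i φ)`, `φ` in a net of the circle, both of mesh `δ = ρ₀ / (100 R)`, `ρ₀ = min ρ 1`, `R = (m + 4) D`, near
`z` and `u`: in the frame `(b, e)` the line `(z, u)` is `(y, s)` with `|y|, |s| ≤ 8 δ`, so the line `(0, 0)` is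
within `ρ₀ / 4` of it for times `≤ R` and has the same signs at `VX P W` (`|sd| ≥ ld ≥ ρ₀`): it realises `W` (`SGN`), and
`W` is determined by `(g, b, e)` (`SGN` (3)). See `COVER.lean` (`floor_near`, `dist_floor`, `norm_exp_sub`,
`real_of_near`). The nets depend on `m, ρ` only; use the value `ρ = 1 / (c m^c)`. -/
def Stmt_FATC : Prop :=
  ∀ (P : Polygon) (D : ℝ) (M : ℕ), TimesOK P D M → ∀ c : ℕ, ∃ C : ℕ, ∀ m : ℕ, 1 ≤ m →
    ∀ ρ : ℝ, 1 ≤ c * (m : ℝ) ^ c * ρ → (Fat P ρ m).Finite ∧ (Fat P ρ m).ncard ≤ C * m ^ C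

/-- Counting functions. (1) `GREP`: the code `a :: w` has a generic realisation `Rz`, which gives a signed word
with letters `w`; the map `a :: w ↦ (a, W)` is injective. (2) `SR P g (V ++ [c])` implies
`SR P g V`; the set of signed letters is finite. (3) at length `0` only the gates count. -/
def Stmt_SNB : Prop :=
  ∀ P : Polygon, (∀ n : ℕ, 1 ≤ n → P.complexity (n + 1) ≤ SN P n) ∧
    (∃ C : ℕ, ∀ n : ℕ, SN P (n + 1) ≤ C * SN P n) ∧
    (∀ n : ℕ, {X : ZMod P.k × List (SL P) | X.2.length = n}.Finite)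

/-- Words of length `2 m` are pairs at the middle gate. Proof: `(g₀, V ++ B) ↦ (lg g₀ V, rv g₀ V, B)` (`V` = the
first `m` letters), realised by `SPLIT` (3), injective by `SPLIT` (1); the set on the right is finite
(`SNB` (3)). -/
def Stmt_PAIR : Prop :=
  ∀ (P : Polygon) (m : ℕ), 1 ≤ m → SN P (2 * m) ≤
    {X : ZMod P.k × List (SL P) × List (SL P) | X.2.1.length = m ∧ X.2.2.length = m ∧
      ∃ z u, TS P X.1 X.2.1 X.2.2 z u}.ncard

/-- The recursion. Proof: `PAIR`. Let `(g, A, B)` be a pair with the common line `(z, u)`. Optimal lines of `A`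
and `B` exist (`OPT`); choose one for every realised word. Let `K` be the constant of `POOR`, `C₁` that of `RICH`
for this `K`. (a) `C₁ m^C₁ min ρA ρB > 1`: `(g, A)` and `(g, B)` are in `Fat P (1 / (C₁ m^C₁)) m`: at most
`(C m^C)^2` pairs (`FATC`). (b) Otherwise and if `Tight P B z u (K m min) (K m / a)`: `RICH`. (c) if
`Tight P A (refl g z) (-lrefl g u) (K m min) (K m / a)`: `(g, B, A)` is in the set of `RICH` (`SPLIT` (2)). (d) no
tight pair and `ρA ≤ ρB`: `POOR`, at most `SN P m` pairs `(g, A)` and `K a^K` words `B` for each of them. (e) no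
tight pair and `ρB ≤ ρA`: the same for `(g, B, A)`. Finally let `ν` be a maximiser of `SN P` on
`[0, C₁ m / a]`. -/
def Stmt_STEP4 : Prop :=
  ∀ P : Polygon, ∃ C : ℕ, ∀ m a : ℕ, C ≤ m → C ≤ a → a ≤ m →
    ∃ ν : ℕ, ν * a ≤ C * m ∧ SN P (2 * m) ≤ C * a ^ C * SN P m + C * m ^ C * (SN P ν + 1)

end Pool.Agent.BCX
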