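import Pool.Agent.BCX.Stmts

/-!
# Upper bounds for the billiard complexity: counting the pieces of a window by keys
-/

open Set Filter Topology Metric
open scoped ComplexConjugate

namespace Pool.Agent.BCX

open Pool.Agent.Billiard Pool.Agent.Lib_helper45.Bil

namespace M_WINDOW

variable {P : Polygon}

/-- Among the strip vertices of the stages `≤ i` there is one above the line. -/
def Up (P : Polygon) (ε : ℝ) (b e : ℂ) (w : List (ZMod P.k)) (y s : ℝ) (i : ℕ) : Prop :=
  ∃ l ≤ i, ∃ j, |hc b e (dev P (w.take l) (P.vertex j))| ≤ ε ∧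
    0 < sd (lz b e y) (lu e s) (dev P (w.take l) (P.vertex j))

/-- Among the strip vertices of the stages `≤ i` there is one below the line. -/
def Dn (P : Polygon) (ε : ℝ) (b e : ℂ) (w : List (ZMod P.k)) (y s : ℝ) (i : ℕ) : Prop :=
  ∃ l ≤ i, ∃ j, |hc b e (dev P (w.take l) (P.vertex j))| ≤ ε ∧
    sd (lz b e y) (lu e s) (dev P (w.take l) (P.vertex j)) < 0

open scoped Classical in
/-- The critical stage. -/
noncomputable def idx (P : Polygon) (ε : ℝ) (b e : ℂ) (m : ℕ) (w : List (ZMod P.k)) (y s : ℝ) : ℕ :=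
  Nat.find (p := fun i => i = m ∨ (Dn P ε b e w y s i ∧ Up P ε b e w y s i)) ⟨m, Or.inl rfl⟩

theorem idx_le (ε : ℝ) (b e : ℂ) (m : ℕ) (w : List (ZMod P.k)) (y s : ℝ) :
    idx P ε b e m w y s ≤ m := by
  classical
  exact Nat.find_min' _ (Or.inl rfl)

theorem idx_spec (ε : ℝ) (b e : ℂ) (m : ℕ) (w : List (ZMod P.k)) (y s : ℝ)
    (h : idx P ε b e m w y s < m) :
    Dn P ε b e w y s (idx P ε b e m w y s) ∧ Up P ε b e w y s (idx P ε b e m w y s) := by
  classical
  have h1 := Nat.find_spec (p := fun i => i = m ∨ (Dn P ε b e w y s i ∧ Up P ε b e w y s i))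
    ⟨m, Or.inl rfl⟩
  rcases h1 with h1 | h1
  · exact absurd h1 h.ne
  · exact h1

theorem idx_min (ε : ℝ) (b e : ℂ) (m : ℕ) (w : List (ZMod P.k)) (y s : ℝ) {i : ℕ}
    (h : i < idx P ε b e m w y s) : ¬ (Dn P ε b e w y s i ∧ Up P ε b e w y s i) := by
  classical
  intro h1
  exact Nat.find_min (p := fun i => i = m ∨ (Dn P ε b e w y s i ∧ Up P ε b e w y s i))
    ⟨m, Or.inl rfl⟩ h (Or.inr h1)

/-- The side of the strip vertices below the critical stage. -/
def Low (P : Polygon) (ε : ℝ) (b e : ℂ) (m : ℕ) (w : List (ZMod P.k)) (y s : ℝ) : Prop :=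
  ∃ l < idx P ε b e m w y s, ∃ j, |hc b e (dev P (w.take l) (P.vertex j))| ≤ ε ∧
    sd (lz b e y) (lu e s) (dev P (w.take l) (P.vertex j)) < 0

theorem low_neg {ε : ℝ} {b e : ℂ} {m : ℕ} {w : List (ZMod P.k)} {y s : ℝ}
    (hg : Gen P (lz b e y) (lu e s) w) (hw : w.length = m) (h : Low P ε b e m w y s) :
    ∀ l < idx P ε b e m w y s, ∀ j, |hc b e (dev P (w.take l) (P.vertex j))| ≤ ε →
      (1 : ℝ) * sd (lz b e y) (lu e s) (dev P (w.take l) (P.vertex j)) < 0 := by
  obtain ⟨l', hl', j', h1, h2⟩ := h
  intro l hl j hj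
  rw [one_mul]
  by_contra hcon
  have hne := hg l (by rw [hw]; exact hl.le.trans (idx_le ε b e m w y s)) j
  have hpos := lt_of_le_of_ne (not_lt.1 hcon) (Ne.symm hne)
  have hmax : max l l' < idx P ε b e m w y s := max_lt hl hl'
  exact idx_min ε b e m w y s hmax
    ⟨⟨l', le_max_right _ _, j', h1, h2⟩, ⟨l, le_max_left _ _, j, hj, hpos⟩⟩

theorem not_low_pos {ε : ℝ} {b e : ℂ} {m : ℕ} {w : List (ZMod P.k)} {y s : ℝ}
    (hg : Gen P (lz b e y) (lu e s) w) (hw : w.length = m) (h : ¬ Low P ε b e m w y s) :
    ∀ l < idx P ε b e m w y s, ∀ j, |hc b e (dev P (w.take l) (P.vertex j))| ≤ ε →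
      (-1 : ℝ) * sd (lz b e y) (lu e s) (dev P (w.take l) (P.vertex j)) < 0 := by
  intro l hl j hj
  by_contra hcon
  have hne := hg l (by rw [hw]; exact hl.le.trans (idx_le ε b e m w y s)) j
  apply h
  refine ⟨l, hl, j, hj, lt_of_le_of_ne ?_ hne⟩
  linarith

open scoped Classical in
/-- The sign. -/
noncomputable def kap (P : Polygon) (ε : ℝ) (b e : ℂ) (m : ℕ) (w : List (ZMod P.k)) (y s : ℝ) : ℝ :=
  if Low P ε b e m w y s then 1 else -1

theorem kap_or (ε : ℝ) (b e : ℂ) (m : ℕ) (w : List (ZMod P.k)) (y s : ℝ) :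
    kap P ε b e m w y s = 1 ∨ kap P ε b e m w y s = -1 := by
  unfold kap
  split_ifs
  · exact Or.inl rfl
  · exact Or.inr rfl

theorem kap_spec {ε : ℝ} {b e : ℂ} {m : ℕ} {w : List (ZMod P.k)} {y s : ℝ}
    (hg : Gen P (lz b e y) (lu e s) w) (hw : w.length = m) :
    ∀ l < idx P ε b e m w y s, ∀ j, |hc b e (dev P (w.take l) (P.vertex j))| ≤ ε →
      kap P ε b e m w y s * sd (lz b e y) (lu e s) (dev P (w.take l) (P.vertex j)) < 0 := by
  unfold kap
  split_ifs with h
  · exact low_neg hg hw h
  · exact not_low_pos hg hw h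

/-- The type of the keys, without the critical stage. -/
abbrev KeyT (P : Polygon) (M : ℕ) : Type :=
  Bool × (Fin M → Option (ZMod P.k)) × (Fin (M + 1) → ZMod P.k → Bool)

theorem take_eq {α : Type*} {w w' : List α} {i M : ℕ} (h : w.take i = w'.take i)
    (hr : ∀ r < M, w[i + r]? = w'[i + r]?) : w.take (i + M) = w'.take (i + M) := by
  apply List.ext_getElem?
  intro n
  rw [List.getElem?_take, List.getElem?_take]
  split_ifs with hn
  · rcases lt_or_ge n i with h1 | h1
    · have h2 := congrArg (fun v => v[n]?) h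
      simp only [List.getElem?_take, if_pos h1] at h2
      exact h2
    · obtain ⟨r, rfl⟩ := Nat.exists_eq_add_of_le h1
      exact hr r (by omega)
  · rfl

theorem take_take_eq {α : Type*} {w w' : List α} {i l : ℕ} (h : w.take i = w'.take i)
    (hl : l ≤ i) : w.take l = w'.take l := by
  have h1 := congrArg (List.take l) h
  rwa [List.take_take, List.take_take, min_eq_left hl] at h1

end M_WINDOW

open M_WINDOW in
theorem m_WINDOW : Stmt_SIDE → Stmt_X → Stmt_UNIQ → Stmt_WINDOW := by
  classical
  intro hSIDE hX hUNIQ P D M hD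
  have hcard : 1 ≤ Fintype.card (KeyT P M) := Fintype.card_pos
  refine ⟨2 * Fintype.card (KeyT P M), by omega, ?_⟩
  intro m δ ε R T b e a hm hsep hε hεR hT hTR hsmall he
  have hchoice : ∀ w : List (ZMod P.k), (w.length = m ∧ RealW P ε R T b e a w) →
      ∃ y s t t' : ℝ, RealAt P ε R T b e a w y s t t' := fun w hw => hw.2
  choose! y s t t' hr using hchoice
  let ix : List (ZMod P.k) → ℕ := fun w => idx P ε b e m w (y w) (s w)
  let key : List (ZMod P.k) → Fin (m + 1) × KeyT P M := fun w =>
    (⟨ix w, Nat.lt_succ_of_le (idx_le ε b e m w (y w) (s w))⟩,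
      (decide (kap P ε b e m w (y w) (s w) = 1),
        (fun r => w[ix w + (r : ℕ)]?,
          fun r j => decide (0 < sd (lz b e (y w)) (lu e (s w))
            (dev P (w.take (ix w + (r : ℕ))) (P.vertex j))))))
  have hinj : Set.InjOn key {w : List (ZMod P.k) | w.length = m ∧ RealW P ε R T b e a w} := by
    intro w hw w' hw' hk
    have hl : w.length = m := hw.1
    have hl' : w'.length = m := hw'.1
    have hra := hr w hw
    have hra' := hr w' hw'
    have hgen := hra.2.2.2.2.2
    have hgen' := hra'.2.2.2.2.2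
    simp only [key, Prod.mk.injEq, Fin.mk.injEq] at hk
    obtain ⟨hi, hκ, hlet, hsig⟩ := hk
    have hκ' : kap P ε b e m w (y w) (s w) = kap P ε b e m w' (y w') (s w') := by
      have h1 := decide_eq_decide.1 hκ
      rcases kap_or ε b e m w (y w) (s w) with h2 | h2
      · rw [h2, h1.1 h2]
      · rcases kap_or ε b e m w' (y w') (s w') with h3 | h3
        · rw [h1.2 h3, h3]
        · rw [h2, h3]
    have hspec := kap_spec (ε := ε) hgen hl
    have hspec' := kap_spec (ε := ε) hgen' hl'
    have him : ix w ≤ m := idx_le ε b e m w (y w) (s w)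
    have htake : w.take (ix w) = w'.take (ix w) := by
      rcases Nat.eq_zero_or_pos (ix w) with h0 | h0
      · rw [h0, List.take_zero, List.take_zero]
      · obtain ⟨hne, t₁, hx₁, hp₁⟩ := hSIDE P D M hD ε R T b e a w (y w) (s w) (t w) (t' w) hε hT hTR
          he hra _ (kap_or ε b e m w (y w) (s w)) (ix w) h0 (by rw [hl]; exact him) hspec
        obtain ⟨-, t₂, hx₂, hp₂⟩ := hSIDE P D M hD ε R T b e a w' (y w') (s w') (t w') (t' w') hε hT
          hTR he hra' _ (kap_or ε b e m w' (y w') (s w')) (ix w') (by rw [← hi]; exact h0)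
          (by rw [hl', ← hi]; exact him) hspec'
        rw [← hκ'] at hx₂ hp₂
        rw [← hi] at hp₂
        exact hUNIQ P _ _ a t₁ t₂ _ _ hne hx₁ hx₂ hp₁ hp₂
          (by rw [List.length_take, List.length_take, hl, hl'])
    rcases him.eq_or_lt with h0 | h0
    · rw [h0] at htake
      rwa [List.take_of_length_le hl.le, List.take_of_length_le hl'.le] at htake
    · have htakeM : w.take (ix w + M) = w'.take (ix w + M) := by
        refine take_eq htake fun r hrM => ?_
        have h1 := congrFun hlet ⟨r, hrM⟩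
        simp only at h1
        rw [← hi] at h1
        exact h1
      obtain ⟨hdn, hup⟩ := idx_spec ε b e m w (y w) (s w) h0
      refine hX P D M hD m δ ε R T b e a hsep hε hεR hT hTR hsmall he w w' (y w) (s w) (t w) (t' w)
        (y w') (s w') (t w') (t' w') hl hl' hra hra' (ix w) him htakeM ?_ hdn hup
      intro l hlM j
      have htl : w.take l = w'.take l := take_take_eq htakeM hlM
      rcases lt_or_ge l (ix w) with h1 | h1
      · have hlm : l ≤ m := h1.le.trans him
        by_cases hst : |hc b e (dev P (w.take l) (P.vertex j))| ≤ ε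
        · have h2 := hspec l h1 j hst
          have h3 := hspec' l (by rw [← show ix w = idx P ε b e m w' (y w') (s w') from hi]; exact h1) j
            (by rw [← htl]; exact hst)
          rw [← htl] at h3
          rw [← hκ'] at h3
          rcases kap_or ε b e m w (y w) (s w) with h4 | h4
          · rw [h4] at h2 h3
            constructor
            · intro h5; linarith
            · intro h5; linarith
          · rw [h4] at h2 h3
            constructor
            · intro _; linarith
            · intro _; linarith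
        · have hst' := not_le.1 hst
          have hτ := RealAt.tc_le hD he hT hTR hra l (by rw [hl]; exact hlm) j
          have hτ' := RealAt.tc_le hD he hT hTR hra' l (by rw [hl']; exact hlm) j
          rw [← htl] at hτ'
          have h5 := sign_of_far he hra.1 hτ hst'
          have h6 := sign_of_far he hra'.1 hτ' hst'
          rcases lt_trichotomy 0 (hc b e (dev P (w.take l) (P.vertex j))) with h7 | h7 | h7
          · exact ⟨fun _ => h6.1 h7, fun _ => h5.1 h7⟩
          · rw [← h7, abs_zero] at hst'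
            exact absurd hst' (not_lt.2 hε.le)
          · have h8 := h5.2 h7
            have h9 := h6.2 h7
            constructor
            · intro h10; linarith
            · intro h10; linarith
      · obtain ⟨r, rfl⟩ := Nat.exists_eq_add_of_le h1
        have h2 := congrFun (congrFun hsig ⟨r, by omega⟩) j
        simp only at h2
        rw [← hi, ← htl] at h2
        exact decide_eq_decide.1 h2
  have hle : ({w : List (ZMod P.k) | w.length = m ∧ RealW P ε R T b e a w}).ncard ≤
      (Set.univ : Set (Fin (m + 1) × KeyT P M)).ncard :=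
    Set.ncard_le_ncard_of_injOn key (fun _ _ => Set.mem_univ _) hinj (Set.toFinite _)
  rw [Set.ncard_univ, Nat.card_eq_fintype_card, Fintype.card_prod, Fintype.card_fin] at hle
  refine hle.trans ?_
  calc (m + 1) * Fintype.card (KeyT P M) ≤ (2 * m) * Fintype.card (KeyT P M) :=
        Nat.mul_le_mul_right _ (by omega)
    _ = 2 * Fintype.card (KeyT P M) * m := by ring

end Pool.Agent.BCX
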