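import Pool.Agent.BCX.Stmts

/-!
# Upper bounds for the billiard complexity: the main lemma   (helper67)
-/

open Set Filter Topology Metric
open scoped ComplexConjugate

namespace Pool.Agent.BCX

open Pool.Agent.Billiard Pool.Agent.Lib_helper45.Bil

namespace M_X

/-- The sign at the later point. -/
theorem late {τ h τ' h' τ'' h'' y s : ℝ}
    (hcr : (h' - h) * (τ'' - τ) - (τ' - τ) * (h'' - h) = 0) (h1 : τ < τ'') (h2 : τ' < τ'')
    (hneg : h - (y + s * τ) < 0) (hpos : 0 < h' - (y + s * τ')) :
    0 < (τ' - τ) * (h'' - (y + s * τ'')) := by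
  have e : (τ' - τ) * (h'' - (y + s * τ'')) =
      (τ'' - τ) * (h' - (y + s * τ')) + (τ'' - τ') * -(h - (y + s * τ)) := by
    linear_combination -hcr
  rw [e]
  have h3 : 0 < τ'' - τ := by linarith
  have h4 : 0 < τ'' - τ' := by linarith
  have h5 : 0 < -(h - (y + s * τ)) := by linarith
  exact add_pos (mul_pos h3 hpos) (mul_pos h4 h5)

theorem same_sign {x p q : ℝ} (h1 : 0 < x * p) (h2 : 0 < x * q) : 0 < p ↔ 0 < q := by
  constructor
  · intro h
    have hx : 0 < x := pos_of_mul_pos_left h1 h.le
    exact pos_of_mul_pos_right h2 hx.le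
  · intro h
    have hx : 0 < x := pos_of_mul_pos_left h2 h.le
    exact pos_of_mul_pos_right h1 hx.le

theorem cr_frame {b e : ℂ} (he : ‖e‖ = 1) (q q' q'' : ℂ) :
    cr (q' - q) (q'' - q) = (hc b e q' - hc b e q) * (tc b e q'' - tc b e q) -
      (tc b e q' - tc b e q) * (hc b e q'' - hc b e q) := by
  have h1 : q' - q = ((tc b e q' - tc b e q : ℝ) + (hc b e q' - hc b e q : ℝ) * Complex.I) * e := by
    have h2 := tc_hc_add b e he q'
    have h3 := tc_hc_add b e he q
    push_cast
    linear_combination h2 - h3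
  have h1' : q'' - q =
      ((tc b e q'' - tc b e q : ℝ) + (hc b e q'' - hc b e q : ℝ) * Complex.I) * e := by
    have h2 := tc_hc_add b e he q''
    have h3 := tc_hc_add b e he q
    push_cast
    linear_combination h2 - h3
  have h4 := mul_conj_one he
  unfold cr
  rw [h1, h1']
  generalize tc b e q' - tc b e q = A
  generalize hc b e q' - hc b e q = B
  generalize tc b e q'' - tc b e q = A'
  generalize hc b e q'' - hc b e q = B'
  have h5 : ((A : ℂ) + (B : ℂ) * Complex.I) * e * conj (((A' : ℂ) + (B' : ℂ) * Complex.I) * e) =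
      ((A : ℂ) + (B : ℂ) * Complex.I) * ((A' : ℂ) - (B' : ℂ) * Complex.I) := by
    simp only [map_mul, map_add, Complex.conj_ofReal, Complex.conj_I]
    linear_combination (((A : ℂ) + (B : ℂ) * Complex.I) * ((A' : ℂ) - (B' : ℂ) * Complex.I)) * h4
  rw [h5]
  simp
  ring

/-- The family of lines between two lines. -/
theorem family {P : Polygon} {b e : ℂ} (he : ‖e‖ = 1) (hLC : Stmt_LC) (hU : Stmt_UNIQ)
    {a : ZMod P.k} {w w' : List (ZMod P.k)} {y s t y' s' t' : ℝ} (N : ℕ) (hN : N < w.length)
    (hN' : N < w'.length) (hg : lz b e y + t * lu e s ∈ rel P a)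
    (hg' : lz b e y' + t' * lu e s' ∈ rel P a)
    (hp : Path P (lz b e y) (lu e s) t w) (hp' : Path P (lz b e y') (lu e s') t' w')
    (hG : Gen P (lz b e y) (lu e s) w) (hG' : Gen P (lz b e y') (lu e s') w')
    (htake : w.take N = w'.take N)
    (hsig : ∀ l ≤ N, ∀ j, (0 < sd (lz b e y) (lu e s) (dev P (w.take l) (P.vertex j)) ↔
      0 < sd (lz b e y') (lu e s') (dev P (w.take l) (P.vertex j)))) :
    w.take (N + 1) = w'.take (N + 1) := by
  have htl : ∀ l ≤ N, w.take l = w'.take l := by
    intro l hl
    have := congrArg (List.take l) htake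
    rwa [List.take_take, List.take_take, min_eq_left hl] at this
  have hlen : (w.take (N + 1)).length = N + 1 := by
    rw [List.length_take]; exact min_eq_left hN
  have hlen' : (w'.take (N + 1)).length = N + 1 := by
    rw [List.length_take]; exact min_eq_left hN'
  have hpw : Path P (lz b e y) (lu e s) t (w.take (N + 1)) := by
    rw [← List.take_append_drop (N + 1) w] at hp
    exact hp.pre
  have hpw' : Path P (lz b e y') (lu e s') t' (w'.take (N + 1)) := by
    rw [← List.take_append_drop (N + 1) w'] at hp'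
    exact hp'.pre
  obtain ⟨t₁, h1, h2⟩ := hLC P (fun r => lz b e ((1 - r) * y + r * y'))
    (fun r => lu e ((1 - r) * s + r * s')) a (w.take (N + 1)) t
    (by intro h; rw [h] at hlen; simp at hlen)
    (by unfold lz; fun_prop) (by unfold lu; fun_prop)
    (by
      intro r hr l hl j
      rw [hlen] at hl
      have hlN : l ≤ N := by omega
      rw [List.take_take, min_eq_left (by omega), sd_mix he]
      have h3 := hG l (by omega) j
      have h4 := hG' l (by omega) j
      rw [← htl l hlN] at h4
      have h5 := hsig l hlN j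
      rcases lt_or_gt_of_ne h3 with h6 | h6
      · have h7 : sd (lz b e y') (lu e s') (dev P (w.take l) (P.vertex j)) < 0 := by
          rcases lt_or_gt_of_ne h4 with h8 | h8
          · exact h8
          · exact absurd (h5.2 h8) (not_lt.2 h6.le)
        apply ne_of_lt
        rcases eq_or_lt_of_le hr.1 with h9 | h9
        · rw [← h9]; linarith
        · have h10 := mul_neg_of_pos_of_neg h9 h7
          have h11 := mul_nonpos_of_nonneg_of_nonpos (sub_nonneg.2 hr.2) h6.le
          linarith
      · have h7 := h5.1 h6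
        apply ne_of_gt
        rcases eq_or_lt_of_le hr.1 with h9 | h9
        · rw [← h9]; linarith
        · have h10 := mul_pos h9 h7
          have h11 := mul_nonneg (sub_nonneg.2 hr.2) h6.le
          linarith)
    (by simpa using hg) (by simpa using hpw)
  simp only [sub_self, zero_mul, one_mul, zero_add] at h1 h2
  refine hU P _ _ a t₁ t' _ _ ?_ h1 hg' h2 hpw' (by rw [hlen, hlen'])
  have := hG' 0 (Nat.zero_le _) a
  simpa [dev] using this

/-- The sign at a vertex of a later stage. -/
theorem sign_step {P : Polygon} {D : ℝ} {M : ℕ} (hD : TimesOK P D M) {m : ℕ} {δ ε R T : ℝ}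
    {b e : ℂ} {a : ZMod P.k} (hSep : Sep P m δ) (hε : 0 < ε) (hεR : ε ≤ R) (hT : 0 ≤ T)
    (hTR : T + D + 1 ≤ R) (h4 : 4 * ε * (m + 2) * D < δ) (he : ‖e‖ = 1)
    {w w' : List (ZMod P.k)} {y s t T₁ y' s' t' T₁' : ℝ} (hw : w.length = m)
    (hr : RealAt P ε R T b e a w y s t T₁) (hr' : RealAt P ε R T b e a w' y' s' t' T₁')
    {i N : ℕ} (hiN : i + M ≤ N) (hNm : N < m) (htake : w.take (N + 1) = w'.take (N + 1))
    (hsig : ∀ l ≤ N, ∀ j, (0 < sd (lz b e y) (lu e s) (dev P (w.take l) (P.vertex j)) ↔
      0 < sd (lz b e y') (lu e s') (dev P (w.take l) (P.vertex j))))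
    (hneg : ∃ l ≤ i, ∃ j, |hc b e (dev P (w.take l) (P.vertex j))| ≤ ε ∧
      sd (lz b e y) (lu e s) (dev P (w.take l) (P.vertex j)) < 0)
    (hpos : ∃ l ≤ i, ∃ j, |hc b e (dev P (w.take l) (P.vertex j))| ≤ ε ∧
      0 < sd (lz b e y) (lu e s) (dev P (w.take l) (P.vertex j)))
    (hw' : w'.length = m) (j : ZMod P.k) :
    (0 < sd (lz b e y) (lu e s) (dev P (w.take (N + 1)) (P.vertex j)) ↔
      0 < sd (lz b e y') (lu e s') (dev P (w.take (N + 1)) (P.vertex j))) := by
  set q'' := dev P (w.take (N + 1)) (P.vertex j) with hq''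
  have htc := hr.tc_le hD he hT hTR (N + 1) (by omega) j
  rw [← hq''] at htc
  rcases lt_or_ge ε |hc b e q''| with hfar | hnear
  · have h1 := sign_of_far he hr.1 htc hfar
    have h2 := sign_of_far he hr'.1 htc hfar
    rcases lt_trichotomy (hc b e q'') 0 with h | h | h
    · have h3 := h1.2 h
      have h4 := h2.2 h
      exact ⟨fun h5 => absurd h5 (not_lt.2 h3.le), fun h5 => absurd h5 (not_lt.2 h4.le)⟩
    · rw [h, abs_zero] at hfar
      exact absurd hfar (not_lt.2 hε.le)
    · exact ⟨fun _ => h2.1 h, fun _ => h1.1 h⟩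
  · obtain ⟨l₁, hl₁, j₁, hn1, hn2⟩ := hneg
    obtain ⟨l₂, hl₂, j₂, hp1, hp2⟩ := hpos
    have hn2' : sd (lz b e y') (lu e s') (dev P (w.take l₁) (P.vertex j₁)) < 0 := by
      have h1 := hr'.2.2.2.2.2 l₁ (by omega) j₁
      have h2 : w'.take l₁ = w.take l₁ := by
        have := congrArg (List.take l₁) htake
        rw [List.take_take, List.take_take, min_eq_left (by omega)] at this
        exact this.symm
      rw [h2] at h1
      rcases lt_or_gt_of_ne h1 with h3 | h3
      · exact h3
      · exact absurd ((hsig l₁ (by omega) j₁).2 h3) (not_lt.2 hn2.le)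
    have hp2' := (hsig l₂ (by omega) j₂).1 hp2
    set q := dev P (w.take l₁) (P.vertex j₁) with hq
    set q' := dev P (w.take l₂) (P.vertex j₂) with hq'
    obtain ⟨r, hmono, _, hlip, hdist, hlen⟩ := hr.times hD he
    have hD1 := hD.1
    rw [hw] at hmono hlip hdist hlen
    have d1 := abs_le.1 (hdist l₁ (by omega) j₁)
    have d2 := abs_le.1 (hdist l₂ (by omega) j₂)
    have d3 := abs_le.1 (hdist (N + 1) (by omega) j)
    rw [← hq] at d1
    rw [← hq'] at d2
    rw [← hq''] at d3
    have m1 := hmono l₁ i hl₁ (by omega)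
    have m2 := hmono l₂ i hl₂ (by omega)
    have g := hlen i (N + 1) (by omega) (by omega)
    have hs1 := hr.1.slope_le (by linarith) hεR
    have hn := (norm_lu he s).2
    have hn0 := (norm_lu he s).1
    have hgap : 5 * D ≤ 2 * (r (N + 1) - r i) := by
      have h5 : 0 ≤ r (N + 1) - r i := by
        have := hmono i (N + 1) (by omega) (by omega)
        linarith
      exact g.trans (mul_le_mul_of_nonneg_right (by linarith) h5)
    have t1 : tc b e q < tc b e q'' := by linarith [d1.2, d3.1]
    have t2 : tc b e q' < tc b e q'' := by linarith [d2.2, d3.1]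
    have hmR : (0 : ℝ) ≤ m := Nat.cast_nonneg m
    have hNR : ((N : ℝ) + 1) ≤ m := by exact_mod_cast hNm
    have b1 : |tc b e q' - tc b e q| ≤ (m + 2) * D := by
      rcases le_total l₁ l₂ with hl | hl
      · have h6 := hlip l₁ l₂ hl (by omega)
        have h7 := hmono l₁ l₂ hl (by omega)
        have h8 : ((l₂ : ℝ) - l₁) * D ≤ m * D := by
          apply mul_le_mul_of_nonneg_right _ (by linarith)
          have h9 : (l₂ : ℝ) ≤ m := by exact_mod_cast (by omega : l₂ ≤ m)
          have h10 : (0 : ℝ) ≤ l₁ := Nat.cast_nonneg _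
          linarith
        rw [abs_le, add_mul]
        constructor <;> linarith [d1.1, d1.2, d2.1, d2.2]
      · have h6 := hlip l₂ l₁ hl (by omega)
        have h7 := hmono l₂ l₁ hl (by omega)
        have h8 : ((l₁ : ℝ) - l₂) * D ≤ m * D := by
          apply mul_le_mul_of_nonneg_right _ (by linarith)
          have h9 : (l₁ : ℝ) ≤ m := by exact_mod_cast (by omega : l₁ ≤ m)
          have h10 : (0 : ℝ) ≤ l₂ := Nat.cast_nonneg _
          linarith
        rw [abs_le, add_mul]
        constructor <;> linarith [d1.1, d1.2, d2.1, d2.2]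
    have b2 : |tc b e q'' - tc b e q| ≤ (m + 2) * D := by
      have h6 := hlip l₁ (N + 1) (by omega) (by omega)
      have h8 : (((N + 1 : ℕ) : ℝ) - l₁) * D ≤ m * D := by
        apply mul_le_mul_of_nonneg_right _ (by linarith)
        have h10 : (0 : ℝ) ≤ l₁ := Nat.cast_nonneg _
        push_cast
        linarith
      rw [abs_of_pos (by linarith), add_mul]
      linarith [d1.1, d3.2]
    have c1 : |hc b e q' - hc b e q| ≤ 2 * ε := by
      have h6 := abs_le.1 hn1
      have h7 := abs_le.1 hp1
      rw [abs_le]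
      constructor <;> linarith [h6.1, h6.2, h7.1, h7.2]
    have c2 : |hc b e q'' - hc b e q| ≤ 2 * ε := by
      have h6 := abs_le.1 hn1
      have h7 := abs_le.1 hnear
      rw [abs_le]
      constructor <;> linarith [h6.1, h6.2, h7.1, h7.2]
    have hcr0 : cr (q' - q) (q'' - q) = 0 := by
      have hlt : ∀ l ≤ m, (w.take l).length ≤ m := by
        intro l hl
        rw [List.length_take]
        exact (min_le_left _ _).trans hl
      rcases hSep (w.take l₁) (w.take l₂) (w.take (N + 1)) (hlt _ (by omega)) (hlt _ (by omega))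
        (hlt _ (by omega)) j₁ j₂ j with h | h
      · exact h
      · exfalso
        rw [← hq, ← hq', ← hq'', cr_frame (b := b) he] at h
        have h6 : |(hc b e q' - hc b e q) * (tc b e q'' - tc b e q) -
            (tc b e q' - tc b e q) * (hc b e q'' - hc b e q)| ≤
            2 * ε * ((m + 2) * D) + (m + 2) * D * (2 * ε) := by
          refine (abs_sub _ _).trans (add_le_add ?_ ?_)
          · rw [abs_mul]
            exact mul_le_mul c1 b2 (abs_nonneg _) (by linarith)
          · rw [abs_mul]
            exact mul_le_mul b1 c2 (abs_nonneg _) ((abs_nonneg _).trans b1)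
        have h7 : 2 * ε * ((m + 2) * D) + (m + 2) * D * (2 * ε) = 4 * ε * (m + 2) * D := by ring
        linarith
    rw [cr_frame (b := b) he] at hcr0
    rw [sd_frame he] at hn2 hp2 hn2' hp2'
    rw [sd_frame he, sd_frame he]
    exact same_sign (late hcr0 t1 t2 hn2 hp2) (late hcr0 t1 t2 hn2' hp2')

end M_X

theorem m_X : Stmt_LC → Stmt_UNIQ → Stmt_X := by
  intro hLC hU P D M hD m δ ε R T b e a hSep hε hεR hT hTR h4 he w w' y s t T₁ y' s' t' T₁' hw hw'
    hr hr' i him hpre hsig hneg hpos
  have key : ∀ N : ℕ, i + M ≤ N → N ≤ m → w.take N = w'.take N ∧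
      ∀ l ≤ N, ∀ j, (0 < sd (lz b e y) (lu e s) (dev P (w.take l) (P.vertex j)) ↔
        0 < sd (lz b e y') (lu e s') (dev P (w.take l) (P.vertex j))) := by
    intro N hN
    induction N, hN using Nat.le_induction with
    | base => intro _; exact ⟨hpre, hsig⟩
    | succ N hN ih =>
      intro hNm
      obtain ⟨ih1, ih2⟩ := ih (by omega)
      have h1 : w.take (N + 1) = w'.take (N + 1) :=
        M_X.family he hLC hU N (by omega) (by omega) hr.2.2.2.1 hr'.2.2.2.1 hr.2.2.2.2.1.path
          hr'.2.2.2.2.1.path hr.2.2.2.2.2 hr'.2.2.2.2.2 ih1 ih2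
      refine ⟨h1, fun l hl j => ?_⟩
      rcases Nat.lt_or_ge l (N + 1) with h | h
      · exact ih2 l (by omega) j
      · have hl' : l = N + 1 := by omega
        subst hl'
        exact M_X.sign_step hD hSep hε hεR hT hTR h4 he hw hr hr' hN (by omega) h1 ih2 hneg hpos
          hw' j
  rcases le_total m (i + M) with h | h
  · rwa [List.take_of_length_le (by omega), List.take_of_length_le (by omega)] at hpre
  · have := (key m h le_rfl).1
    rwa [List.take_of_length_le (by omega), List.take_of_length_le (by omega)] at this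

end Pool.Agent.BCX
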